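import Mathlib
import Pool.Agent.Work.CM.Defs
import Pool.Agent.Work.MP_8efaaa_nt.Defs

/-!
# Definitions of the block R (fixed file)

Congruent numbers `a = 5 (mod 8)` by complex multiplication, `2` ramified in `Q(sqrt (-a))`.
-/

set_option autoImplicit false

namespace Pool.Agent.Work.MP_8efaaa_nt.R

open NumberField Pool.Agent.Work.CM
open scoped Pointwise nonZeroDivisors

noncomputable section

/-- The function `wp' / (2 (wp - e))` of `N`, where `e` is the value at the points of order two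
given by the superlattice `L` of index two. -/
def sg (N L : Submodule ℤ ℂ) (z : ℂ) : ℂ := wpd N z / (2 * (wp N z - ev N L))

/-- The square of the difference of the other two values at the points of order two. -/
def csq (N L : Submodule ℤ ℂ) : ℂ := g2 N - 3 * ev N L ^ 2

/-- `w` has order `32` modulo the lattice `M` -/
structure Fr (M : Submodule ℤ ℂ) (w : ℂ) : Prop where
  lat : IsLat M
  mem : 32 * w ∈ M
  nmem : 16 * w ∉ M

/-- the superlattice of `M` generated by `2 ^ k w` -/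
def Ch (M : Submodule ℤ ℂ) (w : ℂ) (k : ℕ) : Submodule ℤ ℂ :=
  M ⊔ Submodule.span ℤ {(2 : ℂ) ^ k * w}

/-- the values `S_0, .., S_3` -/
def SS (M : Submodule ℤ ℂ) (w : ℂ) (j : ℕ) : ℂ :=
  sg (Ch M w (j + 2)) (Ch M w (j + 1)) (2 ^ j * w)

/-- the function `z` of the pair `(M, w)` -/
def fz (M : Submodule ℤ ℂ) (w : ℂ) : ℂ := sg (Ch M w 5) (Ch M w 4) (4 * w) / SS M w 3

/-- the function `kappa` of the pair `(M, w)` -/
def fk (M : Submodule ℤ ℂ) (w : ℂ) : ℂ := (SS M w 1 - SS M w 2) / (2 * SS M w 3)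

/-- the function `v` of the pair `(M, w)` -/
def fv (M : Submodule ℤ ℂ) (w : ℂ) : ℂ := (SS M w 0 - SS M w 1) / (2 * SS M w 2)

/-- the function `u` of the pair `(M, w)` -/
def fu (M : Submodule ℤ ℂ) (w : ℂ) : ℂ := 2 / fz M w ^ 2 - 1

/-- the character modulo `8` of the field `Q(sqrt 2)`, on odd integers -/
def e8 (d : ℤ) : ℤ := if d % 8 = 1 ∨ d % 8 = 7 then 1 else -1

/-- the curve `y ^ 2 = x ^ 3 - x` -/
def cQ (R : Type*) [CommRing R] : WeierstrassCurve.Affine R := ⟨0, 0, 0, -1, 0⟩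

/-- `K` is generated by a square root `s` of `-a`, `a` squarefree and `5` modulo `8` -/
structure Base5 (K : Type*) [Field K] [NumberField K] (a : ℕ) (s : K) : Prop where
  dim : Module.finrank ℚ K = 2
  sq : s ^ 2 = -(a : K)
  sf : Squarefree a
  mod : a % 8 = 5

section ideals

variable {K : Type*} [Field K] [NumberField K] [Algebra K ℂ]

/-- the image in the complex numbers of the inverse of the ideal `c` -/
def iv (c : Ideal (𝓞 K)) : Submodule ℤ ℂ where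
  carrier := {z | ∃ x : K, (∀ y ∈ c, ∃ t : 𝓞 K, algebraMap (𝓞 K) K t = x * algebraMap (𝓞 K) K y) ∧
    algebraMap K ℂ x = z}
  add_mem' := by
    rintro _ _ ⟨x, hx, rfl⟩ ⟨x', hx', rfl⟩
    refine ⟨x + x', fun y hy => ?_, map_add _ _ _⟩
    obtain ⟨t, ht⟩ := hx y hy
    obtain ⟨t', ht'⟩ := hx' y hy
    exact ⟨t + t', by rw [map_add, ht, ht']; ring⟩
  zero_mem' := ⟨0, fun y _ => ⟨0, by simp⟩, map_zero _⟩
  smul_mem' := by
    rintro n _ ⟨x, hx, rfl⟩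
    refine ⟨n • x, fun y hy => ?_, map_zsmul _ _ _⟩
    obtain ⟨t, ht⟩ := hx y hy
    exact ⟨n • t, by rw [map_zsmul, ht, smul_mul_assoc]⟩

/-- the lattice `Λ_j` spanned by `2 ^ j σ` and `1`, `σ = (1 + s) / 2` -/
def La (s : K) (j : ℕ) : Submodule ℤ ℂ :=
  Submodule.span ℤ {(2 : ℂ) ^ j * ((1 + algebraMap K ℂ s) / 2), 1}

/-- the lattice `Λ_3 + 8 c⁻¹` -/
def MM (s : K) (c : Ideal (𝓞 K)) : Submodule ℤ ℂ := La s 3 ⊔ (8 : ℂ) • iv c

/-- the point `σ / 4` -/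
def w0 (s : K) : ℂ := (1 + algebraMap K ℂ s) / 8

/-- the functions of the ideal `c` -/
def Zc (s : K) (c : Ideal (𝓞 K)) : ℂ := fz (MM s c) (w0 s)

def Kc (s : K) (c : Ideal (𝓞 K)) : ℂ := fk (MM s c) (w0 s)

def Vc (s : K) (c : Ideal (𝓞 K)) : ℂ := fv (MM s c) (w0 s)

def Uc (s : K) (c : Ideal (𝓞 K)) : ℂ := fu (MM s c) (w0 s)

end ideals

/-- `σ` is a Frobenius element at `Q` (a prime of degree one over the base, above `l`) -/
def Frb {k F : Type*} [Field k] [Field F] [Algebra k F] (σ : F ≃ₐ[k] F)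
    (Q : Ideal (𝓞 F)) (l : ℕ) : Prop :=
  ∀ x : 𝓞 F, ∃ y ∈ Q, algebraMap (𝓞 F) F y = σ (algebraMap (𝓞 F) F x) - algebraMap (𝓞 F) F x ^ l

/-- An odd ideal. -/
def OddI {K : Type*} [Field K] [NumberField K] (c : Ideal (𝓞 K)) : Prop := Odd (Ideal.absNorm c)

/-- The Galois data: functions `X`, `Y` of the odd ideals, `Y ^ 2 = X ^ 3 - X`. -/
structure GDat (K F : Type*) [Field K] [NumberField K] [Field F] [Algebra K F] (s : K) (ζ : F)
    (X Y : Ideal (𝓞 K) → F) : Prop where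
  z8 : ζ ^ 4 = -1
  eqn : ∀ c, OddI c → Y c ^ 2 = X c ^ 3 - X c
  ne : ∀ c, OddI c → X c ≠ 0
  /-- the automorphisms that fix `i` act by ideals of norm `1 (mod 4)` -/
  act1 : ∀ σ : F ≃ₐ[K] F, σ (ζ ^ 2) = ζ ^ 2 → ∃ d : Ideal (𝓞 K), Ideal.absNorm d % 4 = 1 ∧
    ∀ c, OddI c → σ (X c) = X (d * c) ∧ σ (Y c) = Y (d * c)
  /-- all odd ideals act -/
  act2 : ∀ d : Ideal (𝓞 K), OddI d → ∃ σ : F ≃ₐ[K] F, σ ζ = ζ ^ Ideal.absNorm d ∧
    ∀ c, OddI c → σ (X c) = X (d * c) ∧ σ (Y c) = Y (d * c)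
  /-- translation by `(0, 0)` -/
  tr1 : ∀ (x y : ℤ) (δ : 𝓞 K), Odd x → algebraMap (𝓞 K) K δ = x + 4 * y * s → ∀ c, OddI c →
    (e8 (x + 4 * y) = 1 → X (Ideal.span {δ} * c) = X c ∧ Y (Ideal.span {δ} * c) = Y c) ∧
    (e8 (x + 4 * y) = -1 →
      X (Ideal.span {δ} * c) = -1 / X c ∧ Y (Ideal.span {δ} * c) = Y c / X c ^ 2)
  /-- the functions `v`, `u` with which the image under `(1 + i) ^ 3` is computed -/
  tr2 : ∃ V U : Ideal (𝓞 K) → F, ∀ c, OddI c → V c ≠ 0 ∧ U c ^ 2 + V c ^ 4 = 1 ∧ 1 + U c ≠ 0 ∧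
    X c ^ 2 - 1 = 2 * X c * (1 + U c) / V c ^ 2 ∧
    Y c * (X c ^ 2 + 1) * V c = 4 * X c ^ 2 * (1 + U c) / V c ^ 2 ∧
    ∀ δ : 𝓞 K, OddI (Ideal.span {δ}) →
      (1 - V (Ideal.span {δ} * c) ^ 4) / V (Ideal.span {δ} * c) ^ 2 = (1 - V c ^ 4) / V c ^ 2 ∧
      U (Ideal.span {δ} * c) * (1 + V (Ideal.span {δ} * c) ^ 4) / V (Ideal.span {δ} * c) ^ 3 =
        U c * (1 + V c ^ 4) / V c ^ 3

end

end Pool.Agent.Work.MP_8efaaa_nt.R
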