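import Mathlib
import Pool.Agent.Work.MP_8efaaa_nt.R.Defs

/-!
# Block D: the context of the Galois part (fixed file)
-/

set_option autoImplicit false

namespace Pool.Agent.Work.MP_8efaaa_nt.R

open NumberField Pool.Agent.Work.CM

/-- the values `Zc`, `Kc`, `Vc` as elements of a field `F` -/
structure DCtx (K F : Type*) [Field K] [NumberField K] [Algebra K ℂ] [Field F] [Algebra F ℂ]
    (s : K) (ζ : F) (z k v : Ideal (𝓞 K) → F) : Prop where
  z8 : ζ ^ 4 = -1
  hz : ∀ c, OddI c → algebraMap F ℂ (z c) = Zc s c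
  hk : ∀ c, OddI c → algebraMap F ℂ (k c) = Kc s c
  hv : ∀ c, OddI c → algebraMap F ℂ (v c) = Vc s c
  fin : ∃ T : Finset F, ∀ c, OddI c → z c ∈ T ∧ k c ∈ T ∧ v c ∈ T

/-- the condition that `σ` multiplies the argument of the functions by the ideal `d` -/
def DAct {K F : Type*} [Field K] [NumberField K] [Field F] (z k v : Ideal (𝓞 K) → F)
    (σ : F → F) (d : Ideal (𝓞 K)) : Prop :=
  ∀ c, OddI c → σ (z c) = z (d * c) ∧ σ (k c) = k (d * c) ∧ σ (v c) = v (d * c)

end Pool.Agent.Work.MP_8efaaa_nt.R
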