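import Mathlib
import Pool.Agent.Work.MP_787500_nt.H10_Quad
import Pool.Agent.Work.MP_8efaaa_nt.R.Defs

/-!
# R/RInt: the ring of integers `𝓞 K = ℤ[S]`, `S ^ 2 = -q`, `q = 5 (mod 8)` squarefree; the prime above `2`

`exists_Q5` (from `Base5`), `coords`, `unique`, `norm_int`, `norm_gen` (norms of principal ideals), `P2 = (2, 1 + S)`,
`p2_sq`, `mem_p2`, `norm_p2`, `eq_p2`, `oddI_iff`, `oddI_span`.
(port of `MP_a5099b_nt/I1/CInt.lean`)
-/

set_option autoImplicit false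

namespace Pool.Agent.Work.MP_8efaaa_nt.R

open Finset NumberField

universe u

/-- `K = ℚ(√-q)`, `δ = √-q`, `q = 5 (mod 8)` squarefree -/
structure Q5 (K : Type u) [Field K] [NumberField K] (q : ℕ) (δ : 𝓞 K) : Prop where
  deg : Module.finrank ℚ K = 2
  sq : δ * δ = -(q : 𝓞 K)
  sf : Squarefree q
  mod : q % 8 = 5

theorem Q5.pos {K : Type u} [Field K] [NumberField K] {q : ℕ} {δ : 𝓞 K} (h : Q5 K q δ) : 0 < q := by
  have := h.mod
  omega

theorem exists_Q5 {K : Type u} [Field K] [NumberField K] {a : ℕ} {s : K} (hb : Base5 K a s) :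
    ∃ S : 𝓞 K, algebraMap (𝓞 K) K S = s ∧ Q5 K a S := by
  obtain ⟨S, h1, h2⟩ := Pool.Agent.Work.MP_787500_nt.Quad.exists_int_s hb.sq
  exact ⟨S, h1, hb.dim, by rw [← pow_two, h2], hb.sf, hb.mod⟩

namespace Q5

variable {K : Type u} [Field K] [NumberField K] {q : ℕ} {δ : 𝓞 K}

private theorem unique_aux (h : Q5 K q δ) (a b : ℤ) (he : (a : 𝓞 K) + (b : 𝓞 K) * δ = 0) : a = 0 ∧ b = 0 := by
  have h1 : ((a ^ 2 + q * b ^ 2 : ℤ) : 𝓞 K) = 0 := by
    push_cast
    have := h.sq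
    linear_combination ((a : 𝓞 K) - b * δ) * he + (b : 𝓞 K) ^ 2 * this
  have h2 : (a ^ 2 + q * b ^ 2 : ℤ) = 0 := by exact_mod_cast h1
  have hq : (0 : ℤ) < q := by exact_mod_cast h.pos
  have ha : a ^ 2 = 0 := by nlinarith [sq_nonneg a, sq_nonneg b]
  have hb : (q : ℤ) * b ^ 2 = 0 := by nlinarith [sq_nonneg a, sq_nonneg b]
  refine ⟨by simpa using ha, ?_⟩
  rcases mul_eq_zero.1 hb with h3 | h3
  · omega
  · simpa using h3

theorem unique (h : Q5 K q δ) (u v u' v' : ℤ)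
    (he : (u : 𝓞 K) + (v : 𝓞 K) * δ = (u' : 𝓞 K) + (v' : 𝓞 K) * δ) : u = u' ∧ v = v' := by
  have := unique_aux h (u - u') (v - v') (by push_cast; linear_combination he)
  constructor <;> linarith [this.1, this.2]

private theorem sqK (h : Q5 K q δ) : (δ : K) * (δ : K) = -(q : K) := by
  have := congrArg (fun x : 𝓞 K => (x : K)) h.sq
  simpa using this

private theorem linind (h : Q5 K q δ) : LinearIndependent ℚ ![(1 : K), (δ : K)] := by
  rw [LinearIndependent.pair_iff]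
  intro r s hrs
  have h1 : ((r ^ 2 + q * s ^ 2 : ℚ) : K) = 0 := by
    push_cast
    have h2 := sqK h
    have h3 : (r : K) + (s : K) * (δ : K) = 0 := by
      simpa [Algebra.smul_def] using hrs
    linear_combination ((r : K) - s * δ) * h3 + (s : K) ^ 2 * h2
  have h2 : (r ^ 2 + q * s ^ 2 : ℚ) = 0 := by exact_mod_cast h1
  have hq : (0 : ℚ) < q := by exact_mod_cast h.pos
  have ha : r ^ 2 = 0 := by nlinarith [sq_nonneg r, sq_nonneg s]
  have hb : (q : ℚ) * s ^ 2 = 0 := by nlinarith [sq_nonneg r, sq_nonneg s]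
  refine ⟨by simpa using ha, ?_⟩
  rcases mul_eq_zero.1 hb with h3 | h3
  · exact absurd h3 hq.ne'
  · simpa using h3

private noncomputable def bas (h : Q5 K q δ) : Module.Basis (Fin 2) ℚ K :=
  basisOfLinearIndependentOfCardEqFinrank (linind h) (by simp [h.deg])

private theorem bas_zero (h : Q5 K q δ) : bas h 0 = 1 := by simp [bas]
private theorem bas_one (h : Q5 K q δ) : bas h 1 = (δ : K) := by simp [bas]

private theorem repr_eq (h : Q5 K q δ) (r s : ℚ) :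
    ((bas h).repr ((r : K) + (s : K) * (δ : K))) 0 = r ∧ ((bas h).repr ((r : K) + (s : K) * (δ : K))) 1 = s := by
  have h1 : (r : K) + (s : K) * (δ : K) = r • bas h 0 + s • bas h 1 := by
    rw [bas_zero, bas_one, Algebra.smul_def, Algebra.smul_def]
    simp
  rw [h1]
  simp

private theorem exK (h : Q5 K q δ) (x : K) : ∃ r s : ℚ, x = (r : K) + (s : K) * (δ : K) := by
  refine ⟨(bas h).repr x 0, (bas h).repr x 1, ?_⟩
  conv_lhs => rw [← (bas h).sum_repr x]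
  rw [Fin.sum_univ_two, bas_zero, bas_one, Algebra.smul_def, Algebra.smul_def]
  simp

private theorem mat (h : Q5 K q δ) (r s : ℚ) :
    Algebra.leftMulMatrix (bas h) ((r : K) + (s : K) * (δ : K)) = !![r, -(q * s); s, r] := by
  have h2 := sqK h
  have e1 : ((r : K) + (s : K) * (δ : K)) * bas h 1 = ((-(q * s) : ℚ) : K) + (r : K) * (δ : K) := by
    rw [bas_one]
    push_cast
    linear_combination (s : K) * h2
  ext i j
  rw [Algebra.leftMulMatrix_eq_repr_mul]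
  fin_cases j
  · show ((bas h).repr (((r : K) + (s : K) * (δ : K)) * bas h 0)) i = _
    rw [bas_zero, mul_one]
    fin_cases i
    · exact (repr_eq h r s).1
    · exact (repr_eq h r s).2
  · show ((bas h).repr (((r : K) + (s : K) * (δ : K)) * bas h 1)) i = _
    rw [e1]
    fin_cases i
    · exact (repr_eq h _ _).1
    · exact (repr_eq h _ _).2

private theorem normK (h : Q5 K q δ) (r s : ℚ) :
    Algebra.norm ℚ ((r : K) + (s : K) * (δ : K)) = r ^ 2 + q * s ^ 2 := by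
  rw [Algebra.norm_eq_matrix_det (bas h), mat, Matrix.det_fin_two]
  simp
  ring

private theorem traceK (h : Q5 K q δ) (r s : ℚ) :
    Algebra.trace ℚ K ((r : K) + (s : K) * (δ : K)) = 2 * r := by
  rw [Algebra.trace_eq_matrix_trace (bas h), mat, Matrix.trace_fin_two]
  simp
  ring

theorem norm_int (h : Q5 K q δ) (a b : ℤ) :
    Algebra.norm ℤ ((a : 𝓞 K) + (b : 𝓞 K) * δ) = a ^ 2 + q * b ^ 2 := by
  have h1 := Algebra.coe_norm_int ((a : 𝓞 K) + (b : 𝓞 K) * δ)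
  have h2 := normK h (a : ℚ) (b : ℚ)
  have h3 : (((a : 𝓞 K) + (b : 𝓞 K) * δ : 𝓞 K) : K) = (((a : ℚ) : K) + ((b : ℚ) : K) * (δ : K)) := by
    simp
  rw [h3, h2] at h1
  exact_mod_cast h1

theorem coords (h : Q5 K q δ) (x : 𝓞 K) : ∃ u v : ℤ, x = (u : 𝓞 K) + (v : 𝓞 K) * δ := by
  obtain ⟨r, s, hx⟩ := exK h (x : K)
  have hix : IsIntegral ℤ (x : K) := x.2
  have ht : IsIntegral ℤ (Algebra.trace ℚ K (x : K)) := Algebra.isIntegral_trace hix
  have hn : IsIntegral ℤ (Algebra.norm ℚ (x : K)) := Algebra.isIntegral_norm ℚ hix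
  rw [hx, traceK h] at ht
  rw [hx, normK h] at hn
  obtain ⟨u, hu⟩ := IsIntegrallyClosed.isIntegral_iff.1 ht
  obtain ⟨n, hn⟩ := IsIntegrallyClosed.isIntegral_iff.1 hn
  simp only [eq_intCast] at hu hn
  -- `q (2 s)` is an integer
  have hq0 : (q : ℚ) ≠ 0 := by exact_mod_cast h.pos.ne'
  have h1 : (q * (2 * s)) ^ 2 = ((q * (4 * n - u ^ 2) : ℤ) : ℚ) := by
    push_cast
    rw [hu, hn]
    ring
  have h2 : IsIntegral ℤ ((q : ℚ) * (2 * s)) := by
    apply IsIntegral.of_pow (n := 2) (by norm_num)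
    rw [h1]
    exact isIntegral_algebraMap (R := ℤ) (A := ℚ) (x := (q * (4 * n - u ^ 2) : ℤ))
  obtain ⟨t, ht⟩ := IsIntegrallyClosed.isIntegral_iff.1 h2
  simp only [eq_intCast] at ht
  rw [← ht] at h1
  have h3 : t ^ 2 = q * (4 * n - u ^ 2) := by exact_mod_cast h1
  have h4 : (q : ℤ) ∣ t :=
    (Squarefree.dvd_pow_iff_dvd (Int.squarefree_natCast.2 h.sf) two_ne_zero).1 (Dvd.intro _ h3.symm)
  obtain ⟨v, rfl⟩ := h4
  have h5 : (v : ℚ) = 2 * s := by
    have : (q : ℚ) * v = q * (2 * s) := by rw [← ht]; push_cast; ring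
    exact mul_left_cancel₀ hq0 this
  have h6 : (q : ℤ) * v ^ 2 = 4 * n - u ^ 2 := by
    have hq1 : (q : ℤ) ≠ 0 := by exact_mod_cast h.pos.ne'
    apply mul_left_cancel₀ hq1
    linarith
  obtain ⟨m, hm⟩ : ∃ m : ℕ, q = 4 * m + 1 := ⟨q / 4, by have := h.mod; omega⟩
  rw [hm] at h6
  push_cast at h6
  have h8 : (∃ a, u = 2 * a) ∧ ∃ b, v = 2 * b := by
    rcases Int.even_or_odd' u with ⟨a, rfl | rfl⟩ <;> rcases Int.even_or_odd' v with ⟨b, rfl | rfl⟩
    · exact ⟨⟨a, rfl⟩, ⟨b, rfl⟩⟩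
    · exfalso
      ring_nf at h6
      have h7 : (4 : ℤ) ∣ 1 := ⟨n - a ^ 2 - m * (2 * b + 1) ^ 2 - b - b ^ 2, by linarith⟩
      omega
    · exfalso
      ring_nf at h6
      have h7 : (4 : ℤ) ∣ 1 := ⟨n - a ^ 2 - a - m * (2 * b) ^ 2 - b ^ 2, by linarith⟩
      omega
    · exfalso
      ring_nf at h6
      have h7 : (4 : ℤ) ∣ 2 := ⟨n - a ^ 2 - a - m * (2 * b + 1) ^ 2 - b - b ^ 2, by linarith⟩
      omega
  obtain ⟨⟨a, rfl⟩, b, rfl⟩ := h8
  refine ⟨a, b, ?_⟩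
  apply RingOfIntegers.ext
  rw [hx]
  have e1 : (r : ℚ) = a := by
    push_cast at hu
    linarith
  have e2 : (s : ℚ) = b := by
    push_cast at h5
    linarith
  rw [e1, e2]
  simp

theorem norm_nonneg (h : Q5 K q δ) (x : 𝓞 K) : 0 ≤ Algebra.norm ℤ x := by
  obtain ⟨u, v, rfl⟩ := coords h x
  rw [norm_int h]
  nlinarith [sq_nonneg u, mul_nonneg (Int.natCast_nonneg q) (sq_nonneg v)]

theorem norm_ne_zero (h : Q5 K q δ) {x : 𝓞 K} (hx : x ≠ 0) : Algebra.norm ℤ x ≠ 0 := by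
  obtain ⟨u, v, rfl⟩ := coords h x
  rw [norm_int h]
  intro h0
  apply hx
  have hq : (0 : ℤ) < q := by exact_mod_cast h.pos
  have ha : u ^ 2 = 0 := by nlinarith [sq_nonneg u, sq_nonneg v]
  have hb : (q : ℤ) * v ^ 2 = 0 := by nlinarith [sq_nonneg u, sq_nonneg v]
  have hu : u = 0 := by simpa using ha
  have hv : v = 0 := by
    rcases mul_eq_zero.1 hb with h3 | h3
    · omega
    · simpa using h3
  subst hu; subst hv
  simp

theorem norm_mod4 (h : Q5 K q δ) (x : 𝓞 K) (hx : Odd (Algebra.norm ℤ x)) :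
    Algebra.norm ℤ x ≡ 1 [ZMOD 4] := by
  obtain ⟨u, v, rfl⟩ := coords h x
  rw [norm_int h] at hx ⊢
  obtain ⟨m, hm⟩ : ∃ m : ℕ, q = 4 * m + 1 := ⟨q / 4, by have := h.mod; omega⟩
  rw [hm] at hx ⊢
  push_cast at hx ⊢
  rcases Int.even_or_odd' u with ⟨a, rfl | rfl⟩ <;> rcases Int.even_or_odd' v with ⟨b, rfl | rfl⟩
  · exfalso
    rw [← Int.not_even_iff_odd] at hx
    apply hx
    exact ⟨2 * a ^ 2 + 2 * (4 * m + 1) * b ^ 2, by ring⟩
  · refine (Int.modEq_iff_dvd.2 ⟨-(a ^ 2 + m * (2 * b + 1) ^ 2 + b ^ 2 + b), by ring⟩)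
  · refine (Int.modEq_iff_dvd.2 ⟨-(a ^ 2 + a + (4 * m + 1) * b ^ 2), by ring⟩)
  · exfalso
    rw [← Int.not_even_iff_odd] at hx
    apply hx
    exact ⟨2 * a ^ 2 + 2 * a + 1 + 2 * b ^ 2 + 2 * b + 2 * m * (2 * b + 1) ^ 2, by ring⟩


theorem norm_gen (h : Q5 K q δ) (a b : ℤ) :
    (Ideal.absNorm (Ideal.span {(a : 𝓞 K) + (b : 𝓞 K) * δ}) : ℤ) = a ^ 2 + q * b ^ 2 := by
  rw [Ideal.absNorm_span_singleton, Int.natCast_natAbs, abs_of_nonneg (norm_nonneg h _), norm_int h]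

/-- the prime ideal above `2` -/
def P2 (δ : 𝓞 K) : Ideal (𝓞 K) := Ideal.span {2, 1 + δ}

theorem two_mem_p2 : (2 : 𝓞 K) ∈ P2 δ := Ideal.subset_span (by simp)

theorem one_add_mem_p2 : 1 + δ ∈ P2 δ := Ideal.subset_span (by simp)

theorem p2_sq (h : Q5 K q δ) : P2 δ * P2 δ = Ideal.span {(2 : 𝓞 K)} := by
  obtain ⟨m, hm⟩ : ∃ m : ℕ, (q : 𝓞 K) = 4 * m + 1 := by
    refine ⟨q / 4, ?_⟩
    have h1 : q = 4 * (q / 4) + 1 := by
      have := h.mod
      omega
    have h2 := congrArg (Nat.cast (R := 𝓞 K)) h1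
    rw [h2]
    push_cast
    ring
  have hsq := h.sq
  have e4 : (1 + δ) * (1 + δ) = 2 * (δ - 2 * m) := by
    linear_combination hsq - hm
  apply le_antisymm
  · unfold P2
    rw [Ideal.span_mul_span', Ideal.span_le]
    rintro x hx
    rw [Set.mem_mul] at hx
    obtain ⟨y, hy, z, hz, rfl⟩ := hx
    simp only [Set.mem_insert_iff, Set.mem_singleton_iff] at hy hz
    rw [SetLike.mem_coe, Ideal.mem_span_singleton]
    rcases hy with rfl | rfl
    · exact dvd_mul_right _ _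
    · rcases hz with rfl | rfl
      · exact dvd_mul_left _ _
      · exact ⟨_, e4⟩
  · rw [Ideal.span_singleton_le_iff_mem]
    have a1 := Ideal.mul_mem_mul (two_mem_p2 (δ := δ)) (one_add_mem_p2 (δ := δ))
    have a2 := Ideal.mul_mem_mul (one_add_mem_p2 (δ := δ)) (one_add_mem_p2 (δ := δ))
    have a3 := (P2 δ * P2 δ).mul_mem_left (m : 𝓞 K)
      (Ideal.mul_mem_mul (two_mem_p2 (δ := δ)) (two_mem_p2 (δ := δ)))
    have e : (2 : 𝓞 K) = 2 * (1 + δ) - (1 + δ) * (1 + δ) - m * (2 * 2) := by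
      rw [e4]
      ring
    rw [e]
    exact Ideal.sub_mem _ (Ideal.sub_mem _ a1 a2) a3

theorem norm_two (h : Q5 K q δ) : Ideal.absNorm (Ideal.span {(2 : 𝓞 K)}) = 4 := by
  have h3 := norm_gen h 2 0
  have e : ((2 : ℤ) : 𝓞 K) + ((0 : ℤ) : 𝓞 K) * δ = 2 := by push_cast; ring
  rw [e] at h3
  have : (Ideal.absNorm (Ideal.span {(2 : 𝓞 K)}) : ℤ) = (4 : ℤ) := by rw [h3]; ring
  exact_mod_cast this

theorem norm_p2 (h : Q5 K q δ) : Ideal.absNorm (P2 δ) = 2 := by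
  have h1 := congrArg Ideal.absNorm (p2_sq h)
  rw [map_mul, norm_two h] at h1
  nlinarith

theorem prime_p2 (h : Q5 K q δ) : (P2 δ).IsPrime := by
  apply Ideal.isPrime_of_irreducible_absNorm
  rw [norm_p2 h]
  exact Nat.prime_two

theorem p2_ne_bot (h : Q5 K q δ) : P2 δ ≠ ⊥ := by
  intro h0
  have := norm_p2 h
  rw [h0, Ideal.absNorm_bot] at this
  omega

theorem mem_p2 (h : Q5 K q δ) (m n : ℤ) : (m : 𝓞 K) + (n : 𝓞 K) * δ ∈ P2 δ ↔ Even (m + n) := by
  have key : ∀ k : ℤ, Even (m + n + k) → (m : 𝓞 K) + (n : 𝓞 K) * δ + k ∈ P2 δ := by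
    intro k hk
    obtain ⟨t, ht⟩ : ∃ t : ℤ, m - n + k = 2 * t := by
      obtain ⟨t, ht⟩ := hk
      exact ⟨t - n, by omega⟩
    have ht' : (m : 𝓞 K) - n + k = 2 * t := by exact_mod_cast congrArg (Int.cast (R := 𝓞 K)) ht
    have e : (m : 𝓞 K) + (n : 𝓞 K) * δ + k = n * (1 + δ) + t * 2 := by
      linear_combination ht'
    rw [e]
    exact (P2 δ).add_mem ((P2 δ).mul_mem_left _ one_add_mem_p2)
      ((P2 δ).mul_mem_left _ two_mem_p2)
  constructor
  · intro h1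
    by_contra h2
    have h3 := key 1 (by
      rw [Int.not_even_iff_odd] at h2
      exact h2.add_odd odd_one)
    have h4 := (P2 δ).sub_mem h3 h1
    apply (prime_p2 h).ne_top
    rw [Ideal.eq_top_iff_one]
    convert h4 using 1
    push_cast
    ring
  · intro h1
    have := key 0 (by simpa using h1)
    simpa using this

theorem eq_p2 (h : Q5 K q δ) {P : Ideal (𝓞 K)} (hP : P.IsPrime) (h2 : (2 : 𝓞 K) ∈ P) :
    P = P2 δ := by
  have h1 : P2 δ * P2 δ ≤ P := by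
    rw [p2_sq h, Ideal.span_singleton_le_iff_mem]
    exact h2
  have h3 : P2 δ ≤ P := by
    rcases (Ideal.IsPrime.mul_le hP).1 h1 with h4 | h4 <;> exact h4
  have hmax : (P2 δ).IsMaximal := (prime_p2 h).isMaximal (p2_ne_bot h)
  exact (hmax.eq_of_le hP.ne_top h3).symm

/-- an ideal is odd iff it is not contained in the prime above `2` -/
theorem oddI_iff (h : Q5 K q δ) {c : Ideal (𝓞 K)} : OddI c ↔ ¬ c ≤ P2 δ := by
  constructor
  · intro h1 h2
    have h3 := Ideal.absNorm_dvd_absNorm_of_le h2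
    rw [norm_p2 h] at h3
    exact (Nat.not_even_iff_odd.2 h1) (even_iff_two_dvd.2 h3)
  · intro h1
    unfold OddI
    rw [← Nat.not_even_iff_odd]
    intro h2
    obtain ⟨P, hP, hPu, hPc⟩ := Ideal.exists_isMaximal_dvd_of_dvd_absNorm' Nat.prime_two c
      (even_iff_two_dvd.1 h2)
    have h3 : (2 : 𝓞 K) ∈ P := by
      have h4 : (2 : ℤ) ∈ P.under ℤ := by
        rw [hPu]
        exact Ideal.mem_span_singleton_self _
      simpa [Ideal.under_def] using h4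
    apply h1
    rw [← eq_p2 h hP.isPrime h3]
    exact Ideal.le_of_dvd hPc

theorem oddI_span (h : Q5 K q δ) (m n : ℤ) :
    OddI (Ideal.span {(m : 𝓞 K) + (n : 𝓞 K) * δ}) ↔ Odd (m + n) := by
  rw [oddI_iff h, Ideal.span_singleton_le_iff_mem, mem_p2 h, Int.not_even_iff_odd]

end Q5

theorem OddI.mul {K : Type u} [Field K] [NumberField K] {c d : Ideal (𝓞 K)} (hc : OddI c)
    (hd : OddI d) : OddI (c * d) := by
  unfold OddI at *
  rw [map_mul]
  exact hc.mul hd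

theorem OddI.of_mul {K : Type u} [Field K] [NumberField K] {c d : Ideal (𝓞 K)}
    (h : OddI (c * d)) : OddI c ∧ OddI d := by
  unfold OddI at *
  rw [map_mul] at h
  exact Nat.odd_mul.1 h

theorem OddI.ne_bot {K : Type u} [Field K] [NumberField K] {c : Ideal (𝓞 K)} (hc : OddI c) :
    c ≠ ⊥ := by
  rintro rfl
  unfold OddI at hc
  rw [Ideal.absNorm_bot] at hc
  simp at hc

end Pool.Agent.Work.MP_8efaaa_nt.R
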