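import Mathlib
import Pool.Agent.Work.MP_8efaaa_nt.R.Defs
import Pool.Agent.Work.MP_8efaaa_nt.R.RInt

/-!
# R/FCls: odd ideals, norms modulo `4`, the half of the class group (block F; owner helper34)

`K = ℚ(s)`, `s ^ 2 = -a`, `a = 5 (mod 8)` squarefree, so `𝓞 K = ℤ[s]` (`-a = 3 (mod 4)`).
* `norm_principal`: `N(x + y s) = x ^ 2 + a y ^ 2`, odd, so exactly one of `x`, `y` is odd and the
  norm is `1 (mod 4)`.
* `exists_odd_rep`: any class contains an odd ideal (ideals prime to `2`).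
* `equiv_odd`: take an odd `e` in the inverse class, `b e = (β)`, `b' e = (α)`, so `(α) b = (β) b'`.
* `exists_three`: `p ^ 2 = (2)`, `(1 + s) = p p'`, `N p' = (1 + a) / 2 = 3 (mod 4)`.
* `exists_five`: the ideal `(1 + 2 s)` has norm `1 + 4 a = 5 (mod 8)`.
* `exists_half`: `S` = classes of the ideals of norm `1 (mod 4)`; a subgroup; `[p'] ∉ S` (otherwise
  `p' ~ b`, `(α) p' = (β) b` and norms mod `4` give `3 = 1`); any class `C` is in `S` or `C [p'] ∈ S`.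
* `norm_one_cases`: `α = x + y s`, `x ^ 2 + 5 y ^ 2 = 1 (mod 8)`: `y = 0 (mod 4)`, `x` odd; or `y` odd,
  `x = 2 (mod 4)`, `α ^ 2 = (x ^ 2 - a y ^ 2) + 2 x y s`, `x ^ 2 - a y ^ 2 = 7`, `2 x y = 4 (mod 8)`.
-/

set_option autoImplicit false

namespace Pool.Agent.Work.MP_8efaaa_nt.R

open NumberField
open scoped nonZeroDivisors

universe u

variable {K : Type u} [Field K] [NumberField K] {a : ℕ} {s : K}

private theorem norm4 {S : 𝓞 K} (h : Q5 K a S) {δ : 𝓞 K} (hδ : OddI (Ideal.span {δ})) :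
    Ideal.absNorm (Ideal.span {δ}) % 4 = 1 := by
  have h1 : (Ideal.absNorm (Ideal.span {δ}) : ℤ) = Algebra.norm ℤ δ := by
    rw [Ideal.absNorm_span_singleton, Int.natCast_natAbs, abs_of_nonneg (h.norm_nonneg δ)]
  have h2 : Odd (Algebra.norm ℤ δ) := by
    rw [← h1]
    exact_mod_cast hδ
  have h3 := h.norm_mod4 δ h2
  rw [← h1] at h3
  have h4 : (Ideal.absNorm (Ideal.span {δ}) : ℤ) % 4 = 1 % 4 := h3
  omega

theorem norm_principal (hb : Base5 K a s) {δ : 𝓞 K} (h : OddI (Ideal.span {δ})) :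
    Ideal.absNorm (Ideal.span {δ}) % 4 = 1 := by
  obtain ⟨S, -, hS⟩ := exists_Q5 hb
  exact norm4 hS h

private theorem mk0_mul_of {I J : (Ideal (𝓞 K))⁰} {x : 𝓞 K}
    (hx : Ideal.span {x} = (I : Ideal (𝓞 K)) * (J : Ideal (𝓞 K))) :
    ClassGroup.mk0 I * ClassGroup.mk0 J = 1 := by
  rw [← map_mul]
  have h1 : (I * J : (Ideal (𝓞 K))⁰) = ⟨(I : Ideal (𝓞 K)) * (J : Ideal (𝓞 K)), (I * J).2⟩ := rfl
  rw [h1, ClassGroup.mk0_eq_one_iff, ← hx]
  exact ⟨x, rfl⟩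

theorem exists_odd_rep (hb : Base5 K a s) (C : ClassGroup (𝓞 K)) :
    ∃ b : (Ideal (𝓞 K))⁰, OddI (b : Ideal (𝓞 K)) ∧ ClassGroup.mk0 b = C := by
  obtain ⟨S, -, hS⟩ := exists_Q5 hb
  obtain ⟨I, hI⟩ := ClassGroup.mk0_surjective C⁻¹
  have hI0 : (I : Ideal (𝓞 K)) ≠ ⊥ := nonZeroDivisors.coe_ne_zero I
  have h1 : ¬ (I : Ideal (𝓞 K)) ≤ (I : Ideal (𝓞 K)) * Q5.P2 S := by
    intro h2
    have h3 : (I : Ideal (𝓞 K)) * Q5.P2 S = (I : Ideal (𝓞 K)) * 1 := by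
      rw [mul_one]
      exact le_antisymm (Ideal.mul_le_left) h2
    have h4 := mul_left_cancel₀ hI0 h3
    have h5 := hS.norm_p2
    rw [h4, Ideal.one_eq_top, Ideal.absNorm_top] at h5
    omega
  obtain ⟨x, hx, hx'⟩ := SetLike.not_le_iff_exists.1 h1
  obtain ⟨b, hb'⟩ := Ideal.dvd_iff_le.2 ((Ideal.span_singleton_le_iff_mem _).2 hx)
  have hodd : OddI b := by
    rw [hS.oddI_iff]
    intro h2
    apply hx'
    have h3 : Ideal.span {x} ≤ (I : Ideal (𝓞 K)) * Q5.P2 S := by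
      rw [hb']
      exact Ideal.mul_mono_right h2
    exact h3 (Ideal.mem_span_singleton_self x)
  refine ⟨⟨b, mem_nonZeroDivisors_iff_ne_zero.2 hodd.ne_bot⟩, hodd, ?_⟩
  have h2 := mk0_mul_of (I := I) (J := ⟨b, mem_nonZeroDivisors_iff_ne_zero.2 hodd.ne_bot⟩) hb'
  rw [hI] at h2
  exact (inv_mul_eq_one.1 h2).symm

private theorem prin_of {b e : (Ideal (𝓞 K))⁰} (h : ClassGroup.mk0 b * ClassGroup.mk0 e = 1) :
    ∃ β : 𝓞 K, (b : Ideal (𝓞 K)) * (e : Ideal (𝓞 K)) = Ideal.span {β} := by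
  rw [← map_mul] at h
  have h1 : (b * e : (Ideal (𝓞 K))⁰) = ⟨(b : Ideal (𝓞 K)) * (e : Ideal (𝓞 K)), (b * e).2⟩ := rfl
  rw [h1, ClassGroup.mk0_eq_one_iff] at h
  obtain ⟨β, hβ⟩ := h.principal
  exact ⟨β, hβ⟩

theorem equiv_odd (hb : Base5 K a s) {b b' : (Ideal (𝓞 K))⁰} (h1 : OddI (b : Ideal (𝓞 K)))
    (h2 : OddI (b' : Ideal (𝓞 K))) (h : ClassGroup.mk0 b = ClassGroup.mk0 b') :
    ∃ α β : 𝓞 K, OddI (Ideal.span {α}) ∧ OddI (Ideal.span {β}) ∧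
      Ideal.span {α} * (b : Ideal (𝓞 K)) = Ideal.span {β} * (b' : Ideal (𝓞 K)) := by
  obtain ⟨e, he, hec⟩ := exists_odd_rep hb (ClassGroup.mk0 b)⁻¹
  obtain ⟨β, hβ⟩ := prin_of (b := b) (e := e) (by rw [hec, mul_inv_cancel])
  obtain ⟨α, hα⟩ := prin_of (b := b') (e := e) (by rw [hec, h, mul_inv_cancel])
  refine ⟨α, β, by rw [← hα]; exact h2.mul he, by rw [← hβ]; exact h1.mul he, ?_⟩
  rw [← hα, ← hβ]
  ring

theorem exists_three (hb : Base5 K a s) : ∃ d : Ideal (𝓞 K), Ideal.absNorm d % 4 = 3 := by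
  obtain ⟨S, -, hS⟩ := exists_Q5 hb
  have h1 : Ideal.span {1 + S} ≤ Q5.P2 S :=
    (Ideal.span_singleton_le_iff_mem _).2 Q5.one_add_mem_p2
  obtain ⟨d, hd⟩ := Ideal.dvd_iff_le.2 h1
  refine ⟨d, ?_⟩
  have h2 := hS.norm_gen 1 1
  have e : ((1 : ℤ) : 𝓞 K) + ((1 : ℤ) : 𝓞 K) * S = 1 + S := by push_cast; ring
  rw [e, hd, map_mul, hS.norm_p2] at h2
  push_cast at h2
  have h3 := hS.mod
  omega

theorem exists_five (hb : Base5 K a s) : ∃ d : Ideal (𝓞 K), Ideal.absNorm d % 8 = 5 := by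
  obtain ⟨S, -, hS⟩ := exists_Q5 hb
  refine ⟨Ideal.span {((1 : ℤ) : 𝓞 K) + ((2 : ℤ) : 𝓞 K) * S}, ?_⟩
  have h2 := hS.norm_gen 1 2
  have h3 := hS.mod
  omega

private theorem nat_contra {A B C D : ℕ} (hA : A % 4 = 1) (hB : B % 4 = 3) (hC : C % 4 = 1)
    (hD : D % 4 = 1) (h : A * B = C * D) : False := by
  have h1 : (A * B) % 4 = 3 := by rw [Nat.mul_mod, hA, hB]
  have h2 : (C * D) % 4 = 1 := by rw [Nat.mul_mod, hC, hD]
  omega

private theorem norm_contra (hb : Base5 K a s) {b b' : (Ideal (𝓞 K))⁰}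
    (h1 : Ideal.absNorm (b : Ideal (𝓞 K)) % 4 = 3) (h2 : Ideal.absNorm (b' : Ideal (𝓞 K)) % 4 = 1)
    (h : ClassGroup.mk0 b = ClassGroup.mk0 b') : False := by
  have o1 : OddI (b : Ideal (𝓞 K)) := Nat.odd_iff.2 (by omega)
  have o2 : OddI (b' : Ideal (𝓞 K)) := Nat.odd_iff.2 (by omega)
  obtain ⟨α, β, hα, hβ, he⟩ := equiv_odd hb o1 o2 h
  have h3 := congrArg Ideal.absNorm he
  rw [map_mul, map_mul] at h3
  exact nat_contra (norm_principal hb hα) h1 (norm_principal hb hβ) h2 h3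

/-- the classes of the ideals of norm `1 (mod 4)` are one half of the class group -/
theorem exists_half (hb : Base5 K a s) : ∃ S : Subgroup (ClassGroup (𝓞 K)),
    2 * Nat.card S = Fintype.card (ClassGroup (𝓞 K)) ∧
    (∀ C ∈ S, ∃ b : (Ideal (𝓞 K))⁰, Ideal.absNorm (b : Ideal (𝓞 K)) % 4 = 1 ∧
      ClassGroup.mk0 b = C) ∧
    ∀ b : (Ideal (𝓞 K))⁰, Ideal.absNorm (b : Ideal (𝓞 K)) % 4 = 1 → ClassGroup.mk0 b ∈ S := by
  let S : Subgroup (ClassGroup (𝓞 K)) :=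
    { carrier := {C | ∃ b : (Ideal (𝓞 K))⁰, Ideal.absNorm (b : Ideal (𝓞 K)) % 4 = 1 ∧
        ClassGroup.mk0 b = C}
      mul_mem' := by
        rintro _ _ ⟨b, hb1, rfl⟩ ⟨b', hb1', rfl⟩
        refine ⟨b * b', ?_, map_mul _ _ _⟩
        rw [Submonoid.coe_mul, map_mul, Nat.mul_mod, hb1, hb1']
      one_mem' := ⟨1, by rw [Submonoid.coe_one, map_one]; norm_num, map_one _⟩
      inv_mem' := by
        rintro _ ⟨b, hb1, rfl⟩
        refine ⟨b ^ (orderOf (ClassGroup.mk0 b) - 1), ?_, ?_⟩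
        · rw [SubmonoidClass.coe_pow, map_pow, Nat.pow_mod, hb1, one_pow]; norm_num
        · rw [map_pow, eq_inv_iff_mul_eq_one, ← pow_succ,
            Nat.sub_add_cancel (orderOf_pos _), pow_orderOf_eq_one] }
  have hmem : ∀ C, C ∈ S ↔ ∃ b : (Ideal (𝓞 K))⁰, Ideal.absNorm (b : Ideal (𝓞 K)) % 4 = 1 ∧
        ClassGroup.mk0 b = C := fun C => Iff.rfl
  refine ⟨S, ?_, fun C hC => hC, fun b hb1 => ⟨b, hb1, rfl⟩⟩
  obtain ⟨d, hd⟩ := exists_three hb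
  have hd0 : d ≠ ⊥ := by
    rintro rfl
    rw [Ideal.absNorm_bot] at hd
    omega
  set D : (Ideal (𝓞 K))⁰ := ⟨d, mem_nonZeroDivisors_iff_ne_zero.2 hd0⟩ with hD
  have hidx : S.index = 2 := by
    rw [Subgroup.index_eq_two_iff]
    refine ⟨ClassGroup.mk0 D, fun C => ?_⟩
    obtain ⟨b, hbo, rfl⟩ := exists_odd_rep hb C
    have hbo' : Ideal.absNorm (b : Ideal (𝓞 K)) % 2 = 1 := Nat.odd_iff.1 hbo
    have hcase : Ideal.absNorm (b : Ideal (𝓞 K)) % 4 = 1 ∨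
        Ideal.absNorm (b : Ideal (𝓞 K)) % 4 = 3 := by omega
    have hbD : Ideal.absNorm ((b * D : (Ideal (𝓞 K))⁰) : Ideal (𝓞 K)) % 4 =
        Ideal.absNorm (b : Ideal (𝓞 K)) % 4 * 3 % 4 := by
      rw [Submonoid.coe_mul, map_mul, Nat.mul_mod, hD]
      simp only [hd]
    rcases hcase with h1 | h1
    · right
      refine ⟨⟨b, h1, rfl⟩, ?_⟩
      rintro ⟨b', h2, h3⟩
      rw [h1] at hbD
      exact norm_contra hb (b := b * D) (by rw [hbD]) h2 (by rw [h3, map_mul])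
    · left
      refine ⟨⟨b * D, by rw [hbD, h1], map_mul _ _ _⟩, ?_⟩
      rintro ⟨b', h2, h3⟩
      exact norm_contra hb h1 h2 h3.symm
  have h1 := S.card_mul_index
  rw [hidx, Nat.card_eq_fintype_card (α := ClassGroup (𝓞 K))] at h1
  omega

theorem norm_one_cases (hb : Base5 K a s) {α : 𝓞 K} (h : Ideal.absNorm (Ideal.span {α}) % 8 = 1) :
    (∃ x y : ℤ, Odd x ∧ algebraMap (𝓞 K) K α = x + 4 * y * s) ∨
    ∃ x y : ℤ, Odd x ∧ algebraMap (𝓞 K) K (α ^ 2) = x + 4 * y * s ∧ e8 (x + 4 * y) = -1 := by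
  obtain ⟨S, hSs, hS⟩ := exists_Q5 hb
  obtain ⟨x, y, rfl⟩ := hS.coords α
  have h1 := hS.norm_gen x y
  obtain ⟨k, hk⟩ : ∃ k : ℕ, a = 8 * k + 5 := ⟨a / 8, by have := hS.mod; omega⟩
  have hmod : (x ^ 2 + a * y ^ 2) % 8 = 1 := by
    rw [← h1]
    omega
  have hcoe : algebraMap (𝓞 K) K ((x : 𝓞 K) + (y : 𝓞 K) * S) = x + y * s := by
    rw [map_add, map_mul, map_intCast, map_intCast, hSs]
  rw [hk] at hmod
  push_cast at hmod
  rcases Int.even_or_odd' y with ⟨v, rfl | rfl⟩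
  · -- `y` even
    left
    have hx : Odd x := by
      rw [← Int.not_even_iff_odd]
      rintro ⟨t, rfl⟩
      have : ((t + t) ^ 2 + (8 * (k : ℤ) + 5) * (2 * v) ^ 2) = 4 * (t ^ 2 + (8 * k + 5) * v ^ 2) := by
        ring
      omega
    obtain ⟨t, ht⟩ := hx
    obtain ⟨w, rfl | rfl⟩ := Int.even_or_odd' v
    · refine ⟨x, w, ⟨t, ht⟩, ?_⟩
      rw [hcoe]
      push_cast
      ring
    · exfalso
      have h3 : ∃ m, t ^ 2 + t = 2 * m := by
        obtain ⟨m, hm⟩ := Int.even_mul_succ_self t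
        exact ⟨m, by linear_combination hm⟩
      obtain ⟨m, hm⟩ := h3
      have h4 : (x ^ 2 + (8 * (k : ℤ) + 5) * (2 * (2 * w + 1)) ^ 2) =
          8 * (m + 4 * k + 2 + 2 * (8 * k + 5) * (w ^ 2 + w)) + 5 := by
        rw [ht]
        linear_combination 4 * hm
      omega
  · -- `y` odd
    right
    have hx : Even x := by
      rw [← Int.not_odd_iff_even]
      rintro ⟨t, rfl⟩
      have : ((2 * t + 1) ^ 2 + (8 * (k : ℤ) + 5) * (2 * v + 1) ^ 2) =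
          2 * (2 * t ^ 2 + 2 * t + 4 * k + 3 + (8 * k + 5) * (2 * v ^ 2 + 2 * v)) := by
        ring
      omega
    obtain ⟨m, hm⟩ : ∃ m, v ^ 2 + v = 2 * m := by
      obtain ⟨m, hm⟩ := Int.even_mul_succ_self v
      exact ⟨m, by linear_combination hm⟩
    obtain ⟨t, rfl⟩ := hx
    obtain ⟨w, rfl | rfl⟩ := Int.even_or_odd' t
    · exfalso
      have h4 : ((2 * w + 2 * w) ^ 2 + (8 * (k : ℤ) + 5) * (2 * v + 1) ^ 2) =
          8 * (2 * w ^ 2 + (8 * k + 5) * m + k) + 5 := by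
        linear_combination (4 * (8 * (k : ℤ) + 5)) * hm
      omega
    · refine ⟨(2 * (2 * w + 1)) ^ 2 - a * (2 * v + 1) ^ 2, (2 * w + 1) * (2 * v + 1), ?_, ?_, ?_⟩
      · rw [hk]
        refine ⟨2 * (2 * w + 1) ^ 2 - (8 * k + 5) * (2 * v ^ 2 + 2 * v) - 4 * k - 3, ?_⟩
        push_cast
        ring
      · rw [map_pow, hcoe]
        push_cast
        linear_combination ((2 * (v : K) + 1) ^ 2) * hb.sq
      · have h4 : (2 * (2 * w + 1)) ^ 2 - (a : ℤ) * (2 * v + 1) ^ 2 +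
            4 * ((2 * w + 1) * (2 * v + 1)) =
            8 * (2 * w ^ 2 + 2 * w - (8 * k + 5) * m - k + 2 * w * v + w + v) + 3 := by
          rw [hk]
          push_cast
          linear_combination (-4 * (8 * (k : ℤ) + 5)) * hm
        unfold e8
        rw [if_neg]
        rw [h4]
        omega

end Pool.Agent.Work.MP_8efaaa_nt.R
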