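import Mathlib
import Pool.Agent.Work.MP_8efaaa_nt.R.Defs

/-!
# R/FDefs: the curve `y ^ 2 = x ^ 3 - x` and its complex multiplication (block F, helper7)
-/

set_option autoImplicit false

namespace Pool.Agent.Work.MP_8efaaa_nt.R

open WeierstrassCurve WeierstrassCurve.Affine

variable {F : Type*} [Field F]

theorem cQ_equation {x y : F} : (cQ F).Equation x y ↔ y ^ 2 = x ^ 3 - x := by
  rw [equation_iff]
  simp only [cQ]
  constructor <;> intro h <;> linear_combination h

theorem cQ_nonsingular [CharZero F] {x y : F} : (cQ F).Nonsingular x y ↔ y ^ 2 = x ^ 3 - x := by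
  rw [nonsingular_iff', cQ_equation]
  simp only [cQ]
  constructor
  · exact fun h => h.1
  · intro h
    refine ⟨h, ?_⟩
    by_contra hc
    push Not at hc
    obtain ⟨h1, h2⟩ := hc
    have hy : y = 0 := by
      have : (2 : F) * y = 0 := by linear_combination h2
      rcases mul_eq_zero.1 this with h3 | h3
      · norm_num at h3
      · exact h3
    subst hy
    have h3 : 3 * x ^ 2 = 1 := by linear_combination -h1
    have h4 : x * (x ^ 2 - 1) = 0 := by linear_combination -h
    rcases mul_eq_zero.1 h4 with h5 | h5
    · rw [h5] at h3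
      norm_num at h3
    · have h6 : (2 : F) = 0 := by linear_combination h3 - 3 * h5
      norm_num at h6

end Pool.Agent.Work.MP_8efaaa_nt.R
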