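import Mathlib
import Pool.Agent.Work.MP_8efaaa_nt.R.FDefs

/-!
# R/FCm: the endomorphism `(x, y) ↦ (-x, i y)` of `y ^ 2 = x ^ 3 - x` (block F)
-/

set_option autoImplicit false

namespace Pool.Agent.Work.MP_8efaaa_nt.R

open WeierstrassCurve WeierstrassCurve.Affine

variable {F : Type*} [Field F] [CharZero F]

private theorem ns_neg {i x y : F} (hi : i ^ 2 = -1) (h : (cQ F).Nonsingular x y) :
    (cQ F).Nonsingular (-x) (i * y) := by
  rw [cQ_nonsingular] at h ⊢
  rw [mul_pow, hi, h]
  ring

/-- the map `(x, y) ↦ (-x, i y)` -/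
private def fI {i : F} (hi : i ^ 2 = -1) : (cQ F).Point → (cQ F).Point
  | .zero => .zero
  | .some x y h => .some (-x) (i * y) (ns_neg hi h)

open scoped Classical in
private theorem fI_add {i : F} (hi : i ^ 2 = -1) (P Q : (cQ F).Point) :
    fI hi (P + Q) = fI hi P + fI hi Q := by
  have hi0 : i ≠ 0 := by
    rintro rfl
    norm_num at hi
  rcases P with _ | ⟨x1, y1, h1⟩
  · show fI hi (0 + Q) = 0 + fI hi Q
    rw [zero_add, zero_add]
  rcases Q with _ | ⟨x2, y2, h2⟩
  · show fI hi (_ + 0) = _ + 0
    rw [add_zero, add_zero]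
  have hneg : ∀ x y : F, (cQ F).negY x y = -y := by
    intro x y
    simp only [negY, cQ]
    ring
  by_cases hxy : x1 = x2 ∧ y1 = (cQ F).negY x2 y2
  · obtain ⟨hx, hy⟩ := hxy
    rw [Point.add_of_Y_eq hx hy]
    show (0 : (cQ F).Point) = Point.some (-x1) (i * y1) _ + Point.some (-x2) (i * y2) _
    rw [Point.add_of_Y_eq (by rw [hx])]
    rw [hy, hneg, hneg]
    ring
  · have hxy' : ¬ (-x1 = -x2 ∧ i * y1 = (cQ F).negY (-x2) (i * y2)) := by
      rintro ⟨h3, h4⟩
      apply hxy
      rw [hneg] at h4
      refine ⟨neg_injective h3, ?_⟩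
      rw [hneg]
      apply mul_left_cancel₀ hi0
      linear_combination h4
    have hsl : (cQ F).slope (-x1) (-x2) (i * y1) (i * y2) = -i * (cQ F).slope x1 x2 y1 y2 := by
      by_cases hx : x1 = x2
      · have hy : y1 ≠ (cQ F).negY x2 y2 := fun h => hxy ⟨hx, h⟩
        have hy' : i * y1 ≠ (cQ F).negY (-x2) (i * y2) := fun h => hxy' ⟨by rw [hx], h⟩
        rw [slope_of_Y_ne (by rw [hx]) hy', slope_of_Y_ne hx hy]
        rw [hneg, hneg]
        simp only [cQ]
        have hy0 : y1 - -y1 ≠ 0 := by
          have e : y1 = y2 := by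
            rcases Y_eq_of_X_eq h1.1 h2.1 hx with h | h
            · exact h
            · exact absurd h hy
          intro h0
          apply hy
          rw [hneg, ← e]
          linear_combination h0
        have hy1 : i * y1 - -(i * y1) ≠ 0 := by
          intro h0
          apply hy0
          apply mul_left_cancel₀ hi0
          linear_combination h0
        field_simp
        rw [hi]
        ring
      · rw [slope_of_X_ne (fun h => hx (neg_injective h)), slope_of_X_ne hx]
        have hd : x1 - x2 ≠ 0 := sub_ne_zero.2 hx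
        have hd' : -x1 - -x2 ≠ 0 := by
          intro h0
          apply hd
          linear_combination -h0
        field_simp
        ring
    rw [Point.add_some hxy]
    show Point.some _ _ _ = Point.some (-x1) (i * y1) _ + Point.some (-x2) (i * y2) _
    rw [Point.add_some hxy']
    simp only [Point.some.injEq]
    rw [hsl]
    generalize (cQ F).slope x1 x2 y1 y2 = l
    constructor
    · simp only [addX, cQ]
      linear_combination -l ^ 2 * hi
    · simp only [addY, negAddY, addX, negY, cQ]
      linear_combination -i * l ^ 3 * hi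

open scoped Classical in
/-- the complex multiplication -/
theorem exists_cm {i : F} (hi : i ^ 2 = -1) :
    ∃ I : (cQ F).Point →+ (cQ F).Point, (∀ P, I (I P) = -P) ∧
      ∀ (x y : F) (h : (cQ F).Nonsingular x y), ∃ h' : (cQ F).Nonsingular (-x) (i * y),
        I (Point.some x y h) = Point.some (-x) (i * y) h' := by
  refine ⟨AddMonoidHom.mk' (fI hi) (fI_add hi), ?_, fun x y h => ⟨ns_neg hi h, rfl⟩⟩
  rintro (_ | ⟨x, y, h⟩)
  · rfl
  · show Point.some _ _ _ = Point.some _ _ _
    rw [Point.some.injEq]
    refine ⟨neg_neg x, ?_⟩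
    simp only [negY, cQ]
    linear_combination y * hi

end Pool.Agent.Work.MP_8efaaa_nt.R
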