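import Mathlib

/-!
# R/FTor: modules over the Gaussian integers, torsion at `1 + i` (block F, abstract part)

`V` an abelian group with an endomorphism `I`, `I ^ 2 = -1`; the kernel of `pi = 1 + I` is `{0, T}`, `T ≠ 0`.
-/

set_option autoImplicit false

namespace Pool.Agent.Work.MP_8efaaa_nt.R

variable {V : Type*} [AddCommGroup V]

/-- a module over the Gaussian integers in which the kernel of `1 + i` is `{0, T}` -/
structure GMod (I : V →+ V) (T : V) : Prop where
  sq : ∀ P, I (I P) = -P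
  ne : T ≠ 0
  ker : ∀ P, P + I P = 0 ↔ P = 0 ∨ P = T

/-- multiplication by `1 + i` -/
def gpi (I : V →+ V) : V →+ V := AddMonoidHom.id V + I

theorem gpi_apply (I : V →+ V) (P : V) : gpi I P = P + I P := rfl

/-- `S` is a multiple of `R` by a Gaussian integer -/
def InZ (I : V →+ V) (R S : V) : Prop := ∃ a b : ℤ, S = a • R + b • I R

namespace GMod

variable {I : V →+ V} {T : V}

theorem two_T (h : GMod I T) : (2 : ℤ) • T = 0 := by
  have h1 : T + I T = 0 := (h.ker T).2 (Or.inr rfl)
  have h2 : -T + I (-T) = 0 := by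
    rw [map_neg, ← neg_add, h1, neg_zero]
  rcases (h.ker (-T)).1 h2 with h3 | h3
  · exact absurd (neg_eq_zero.1 h3) h.ne
  · rw [two_zsmul]
    nth_rewrite 1 [← h3]
    exact neg_add_cancel T

theorem I_T (h : GMod I T) : I T = T := by
  have h1 : T + I T = 0 := (h.ker T).2 (Or.inr rfl)
  have h2 := h.two_T
  rw [two_zsmul] at h2
  exact add_left_cancel (h1.trans h2.symm)

theorem gpi_T (h : GMod I T) : gpi I T = 0 := (h.ker T).2 (Or.inr rfl)

theorem gpi_eq_zero (h : GMod I T) {P : V} : gpi I P = 0 ↔ P = 0 ∨ P = T := h.ker P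

/-- the square of `1 + i` is `2 i` -/
theorem gpi_gpi (h : GMod I T) (P : V) : gpi I (gpi I P) = (2 : ℤ) • I P := by
  rw [gpi_apply, gpi_apply, map_add, h.sq, two_zsmul]
  abel

theorem gpi_four (h : GMod I T) (P : V) : (gpi I)^[4] P = -((4 : ℤ) • P) := by
  show gpi I (gpi I (gpi I (gpi I P))) = _
  rw [h.gpi_gpi, h.gpi_gpi, map_zsmul, h.sq, smul_smul, smul_neg]
  norm_num

theorem gpi_six (h : GMod I T) (P : V) : (gpi I)^[6] P = -((8 : ℤ) • I P) := by
  show gpi I (gpi I (gpi I (gpi I (gpi I (gpi I P))))) = _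
  rw [h.gpi_gpi, h.gpi_gpi, h.gpi_gpi]
  simp only [map_zsmul, map_neg, h.sq, smul_neg, smul_smul]
  norm_num

end GMod

theorem InZ.refl (I : V →+ V) (R : V) : InZ I R R := ⟨1, 0, by simp⟩

theorem InZ.zero (I : V →+ V) (R : V) : InZ I R 0 := ⟨0, 0, by simp⟩

theorem InZ.add {I : V →+ V} {R S S' : V} (h : InZ I R S) (h' : InZ I R S') : InZ I R (S + S') := by
  obtain ⟨a, b, rfl⟩ := h
  obtain ⟨a', b', rfl⟩ := h'
  refine ⟨a + a', b + b', ?_⟩
  rw [add_smul, add_smul]
  abel

theorem InZ.neg {I : V →+ V} {R S : V} (h : InZ I R S) : InZ I R (-S) := by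
  obtain ⟨a, b, rfl⟩ := h
  refine ⟨-a, -b, ?_⟩
  rw [neg_smul, neg_smul]
  abel

theorem InZ.map {I : V →+ V} {T : V} (hG : GMod I T) {R S : V} (h : InZ I R S) : InZ I R (I S) := by
  obtain ⟨a, b, rfl⟩ := h
  refine ⟨-b, a, ?_⟩
  rw [map_add, map_zsmul, map_zsmul, hG.sq, smul_neg, neg_smul]
  abel

theorem InZ.gpi {I : V →+ V} {T : V} (hG : GMod I T) {R S : V} (h : InZ I R S) : InZ I R (gpi I S) :=
  h.add (h.map hG)

theorem InZ.iter {I : V →+ V} {T : V} (hG : GMod I T) {R S : V} (h : InZ I R S) (n : ℕ) :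
    InZ I R ((Pool.Agent.Work.MP_8efaaa_nt.R.gpi I)^[n] S) := by
  induction n with
  | zero => exact h
  | succ n ih =>
    rw [Function.iterate_succ_apply']
    exact ih.gpi hG

/-- a point of exact order `(1 + i) ^ n` generates the torsion -/
theorem cyclic {I : V →+ V} {T : V} (hG : GMod I T) (n : ℕ) : ∀ R S : V, (gpi I)^[n] R = T →
    (gpi I)^[n + 1] S = 0 → InZ I R S := by
  induction n with
  | zero =>
    intro R S hR hS
    have hR' : R = T := hR
    have hS' : gpi I S = 0 := hS
    rcases hG.gpi_eq_zero.1 hS' with h | h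
    · rw [h]
      exact InZ.zero I R
    · rw [h, ← hR']
      exact InZ.refl I R
  | succ n ih =>
    intro R S hR hS
    rw [Function.iterate_succ_apply] at hR hS
    obtain ⟨a, b, h⟩ := ih (gpi I R) (gpi I S) hR hS
    have h1 : gpi I (S - (a • R + b • I R)) = 0 := by
      rw [map_sub, map_add, map_zsmul, map_zsmul, h]
      have h2 : gpi I (I R) = I (gpi I R) := by
        rw [gpi_apply, gpi_apply, map_add]
      rw [h2, sub_self]
    have h2 : InZ I R (S - (a • R + b • I R)) := by
      rcases hG.gpi_eq_zero.1 h1 with h3 | h3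
      · rw [h3]
        exact InZ.zero I R
      · rw [h3, ← hR, ← Function.iterate_succ_apply]
        have h4 := fun n => InZ.iter (R := R) (S := R) hG (InZ.refl I R) n
        exact h4 (n + 1)
    have h3 : S = (S - (a • R + b • I R)) + (a • R + b • I R) := by abel
    rw [h3]
    exact h2.add ⟨a, b, rfl⟩

theorem gpi_I (I : V →+ V) (Q : V) : gpi I (I Q) = I (gpi I Q) := by
  rw [gpi_apply, gpi_apply, map_add]

theorem iter_add (f : V →+ V) (n : ℕ) (Q Q' : V) : f^[n] (Q + Q') = f^[n] Q + f^[n] Q' := by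
  induction n generalizing Q Q' with
  | zero => rfl
  | succ n ih =>
    rw [Function.iterate_succ_apply, map_add, ih, ← Function.iterate_succ_apply,
      ← Function.iterate_succ_apply]

theorem iter_zero (f : V →+ V) (n : ℕ) : f^[n] 0 = 0 := by
  induction n with
  | zero => rfl
  | succ n ih => rw [Function.iterate_succ_apply, map_zero, ih]

theorem iter_zsmul_aux (f : V →+ V) (n : ℕ) (k : ℤ) (Q : V) : f^[n] (k • Q) = k • f^[n] Q := by
  induction n generalizing Q with
  | zero => rfl
  | succ n ih =>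
    rw [Function.iterate_succ_apply, map_zsmul, ih, ← Function.iterate_succ_apply]

/-- `σ` commutes with `I` -/
theorem iter_comm {I σ : V →+ V} (h : ∀ P, σ (I P) = I (σ P)) (n : ℕ) (P : V) :
    σ ((gpi I)^[n] P) = (gpi I)^[n] (σ P) := by
  induction n generalizing P with
  | zero => rfl
  | succ n ih =>
    rw [Function.iterate_succ_apply, Function.iterate_succ_apply, ih, gpi_apply, gpi_apply, map_add, h]

/-- `g` anticommutes with `I` -/
theorem iter_anti {I g : V →+ V} {T : V} (hG : GMod I T) (h : ∀ P, g (I P) = -I (g P)) (n : ℕ) (P : V)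
    (hP : (gpi I)^[n] P = 0) : (gpi I)^[n] (g P) = 0 := by
  induction n generalizing P with
  | zero =>
    have hP' : P = 0 := hP
    rw [hP']
    exact map_zero g
  | succ n ih =>
    rw [Function.iterate_succ_apply] at hP
    have h1 := ih _ hP
    have h2 : gpi I (g P) = I (g (gpi I P)) := by
      rw [gpi_apply, gpi_apply, map_add, map_add, h, map_neg, hG.sq, neg_neg, add_comm]
    have h3 : ∀ (m : ℕ) (Q : V), (gpi I)^[m] (I Q) = I ((gpi I)^[m] Q) := by
      intro m Q
      exact (iter_comm (I := I) (σ := I) (fun _ => rfl) m Q).symm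
    rw [Function.iterate_succ_apply, h2, h3, h1, map_zero]

/-- a Gaussian integer which kills a point of exact order `(1 + i) ^ (n + 1)` is a multiple of `1 + i` -/
theorem dvd_step {I : V →+ V} {T : V} (hG : GMod I T) {n : ℕ} {P : V} (hP : (gpi I)^[n] P = T)
    {x y : ℤ} (h : x • P + y • I P = 0) :
    ∃ x' y' : ℤ, x = x' - y' ∧ y = x' + y' ∧ x' • gpi I P + y' • I (gpi I P) = 0 := by
  have hIg : ∀ Q, gpi I (I Q) = I (gpi I Q) := fun Q => by rw [gpi_apply, gpi_apply, map_add]
  have hit : ∀ n, (gpi I)^[n] (I P) = I ((gpi I)^[n] P) := by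
    intro n
    induction n with
    | zero => rfl
    | succ n ih => rw [Function.iterate_succ_apply', Function.iterate_succ_apply', ih, hIg]
  have hadd : ∀ n (Q Q' : V), (gpi I)^[n] (Q + Q') = (gpi I)^[n] Q + (gpi I)^[n] Q' := by
    intro n
    induction n with
    | zero => exact fun _ _ => rfl
    | succ n ih =>
      intro Q Q'
      rw [Function.iterate_succ_apply, map_add, ih, ← Function.iterate_succ_apply,
        ← Function.iterate_succ_apply]
  have hsm : ∀ n (k : ℤ) (Q : V), (gpi I)^[n] (k • Q) = k • (gpi I)^[n] Q := by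
    intro n
    induction n with
    | zero => exact fun _ _ => rfl
    | succ n ih =>
      intro k Q
      rw [Function.iterate_succ_apply, map_zsmul, ih, ← Function.iterate_succ_apply]
  have hz : (gpi I)^[n] (0 : V) = 0 := by
    have := hsm n 0 0
    rwa [zero_smul, zero_smul] at this
  have h1 : (x + y) • T = 0 := by
    have h2 := congrArg ((gpi I)^[n]) h
    rw [hadd, hsm, hsm, hit, hP, hG.I_T, hz, ← add_smul] at h2
    exact h2
  have h2 : Even (x + y) := by
    by_contra hodd
    rw [Int.not_even_iff_odd] at hodd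
    obtain ⟨k, hk⟩ := hodd
    rw [hk, add_smul, one_smul, mul_comm, mul_smul, hG.two_T, smul_zero, zero_add] at h1
    exact hG.ne h1
  obtain ⟨k, hk⟩ := h2
  refine ⟨k, y - k, by linarith, by ring, ?_⟩
  have hx : x = 2 * k - y := by linarith
  have h3 : k • gpi I P + (y - k) • I (gpi I P) = x • P + y • I P := by
    rw [gpi_apply, map_add, hG.sq, hx]
    simp only [smul_add, smul_neg, sub_smul, mul_smul, two_smul]
    abel
  rw [h3, h]

/-- the divisibility for a point of exact order `(1 + i) ^ 3` -/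
theorem dvd_three {I : V →+ V} {T : V} (hG : GMod I T) {P : V} (hP : gpi I (gpi I P) = T)
    {x y : ℤ} (h : x • P + y • I P = 0) : ∃ k l : ℤ, y = 2 * k ∧ x = y + 4 * l := by
  obtain ⟨x1, y1, h1, h2, h3⟩ := dvd_step hG (n := 2) hP h
  obtain ⟨x2, y2, h4, h5, h6⟩ := dvd_step hG (n := 1) hP h3
  obtain ⟨x3, y3, h7, h8, -⟩ := dvd_step hG (n := 0) (P := gpi I (gpi I P)) hP h6
  refine ⟨x2, -x3 - y3 + y3, ?_, ?_⟩
  · rw [h2, h4, h5]
    ring
  · rw [h1, h2, h5, h7, h8]
    ring

/-- A point killed by `8` which is fixed by the commutator of `g` (not linear over the Gaussian integers) and `σ`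
(linear, acting trivially on the torsion at `(1 + i) ^ 3`, but not at `4`) is killed by `4`. -/
theorem four_torsion {I σ g : V →+ V} {T : V} (hG : GMod I T) (hσ : ∀ P, σ (I P) = I (σ P))
    (hg : ∀ P, g (I P) = -I (g P)) (hinj : ∀ P, g P = 0 → P = 0)
    {A B : V} (hA : gpi I (gpi I A) = T) (hσA : σ A = A) (hB : gpi I (gpi I (gpi I B)) = T)
    (hσB : σ B ≠ B) {R : V} (hR : (8 : ℤ) • R = 0) (hc : g (σ R) = σ (g R)) : (gpi I)^[4] R = 0 := by
  have h6 : (gpi I)^[6] R = 0 := by
    rw [hG.gpi_six, ← map_zsmul, hR, map_zero, neg_zero]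
  by_contra h4
  obtain ⟨n, hn4, hn, hn0⟩ : ∃ n : ℕ, 4 ≤ n ∧ (gpi I)^[n] R = T ∧ (gpi I)^[n + 1] R = 0 := by
    by_cases h5 : (gpi I)^[5] R = 0
    · refine ⟨4, le_rfl, ?_, h5⟩
      rw [Function.iterate_succ_apply'] at h5
      exact (hG.gpi_eq_zero.1 h5).resolve_left h4
    · refine ⟨5, by norm_num, ?_, h6⟩
      rw [Function.iterate_succ_apply'] at h6
      exact (hG.gpi_eq_zero.1 h6).resolve_left h5
  have hσn : (gpi I)^[n + 1] (σ R) = 0 := by
    rw [← iter_comm hσ, hn0, map_zero]
  have hgn : (gpi I)^[n + 1] (g R) = 0 := iter_anti hG hg _ _ hn0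
  obtain ⟨a, b, hab⟩ := cyclic hG n R (σ R) hn hσn
  obtain ⟨c, d, hcd⟩ := cyclic hG n R (g R) hn hgn
  -- `2 b R = 0`
  have h2b : (2 * b) • R = 0 := by
    have e1 : g (σ R) = a • g R - b • I (g R) := by
      rw [hab, map_add, map_zsmul, map_zsmul, hg, smul_neg, sub_eq_add_neg]
    have e2 : σ (g R) = a • g R + b • I (g R) := by
      have e3 : σ (g R) = c • σ R + d • I (σ R) := by
        nth_rewrite 1 [hcd]
        rw [map_add, map_zsmul, map_zsmul, hσ]
      rw [e3, hab, hcd]
      simp only [map_add, map_zsmul, hG.sq, smul_add, smul_neg, smul_smul, mul_comm]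
      abel
    have e4 : (2 * b) • I (g R) = 0 := by
      rw [mul_smul, two_zsmul]
      have := e1.symm.trans (hc.trans e2)
      have h7 : b • I (g R) + b • I (g R) = (a • g R + b • I (g R)) - (a • g R - b • I (g R)) := by abel
      rw [h7, this, sub_self]
    have e5 : (2 * b) • g R = 0 := by
      have h7 := congrArg I e4
      rw [map_zsmul, hG.sq, map_zero, smul_neg, neg_eq_zero] at h7
      exact h7
    exact hinj _ (by rw [map_zsmul, e5])
  -- the parity of `b`
  obtain ⟨m, rfl⟩ : ∃ m, n = m + 3 := ⟨n - 3, by omega⟩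
  set W := (gpi I)^[m] R with hW
  have hW3 : gpi I (gpi I (gpi I W)) = T := by
    have : (gpi I)^[3 + m] R = T := by rw [add_comm]; exact hn
    rw [Function.iterate_add_apply] at this
    exact this
  have hσW : σ W = a • W + b • I W := by
    rw [hW, iter_comm hσ, hab, iter_add]
    congr 1
    · exact (iter_zsmul_aux (gpi I) m a R)
    · rw [iter_zsmul_aux, ← iter_comm (I := I) (σ := I) (fun _ => rfl)]
  have hσgW : σ (gpi I W) = a • gpi I W + b • I (gpi I W) := by
    have := iter_comm hσ 1 W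
    rw [Function.iterate_one] at this
    rw [this, hσW, map_add, map_zsmul, map_zsmul, gpi_I]
  have hfix : σ (gpi I W) = gpi I W := by
    obtain ⟨x, y, hxy⟩ := cyclic hG 2 A (gpi I W) hA (by
      show gpi I (gpi I (gpi I (gpi I W))) = 0
      rw [hW3, hG.gpi_T])
    rw [hxy, map_add, map_zsmul, map_zsmul, hσ, hσA]
  have hz : (a - 1) • gpi I W + b • I (gpi I W) = 0 := by
    rw [sub_smul, one_smul]
    have : a • gpi I W - gpi I W + b • I (gpi I W) = (a • gpi I W + b • I (gpi I W)) - gpi I W := by abel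
    rw [this, ← hσgW, hfix, sub_self]
  obtain ⟨k, l, hk, hl⟩ := dvd_three hG (P := gpi I W) hW3 hz
  have h4W : (4 : ℤ) • W = 0 := by
    have h7 := hG.gpi_four W
    have h8 : (gpi I)^[4] W = 0 := by
      show gpi I (gpi I (gpi I (gpi I W))) = 0
      rw [hW3, hG.gpi_T]
    rw [h8] at h7
    exact neg_eq_zero.1 h7.symm
  have hkodd : ¬ Even k := by
    rintro ⟨j, hj⟩
    apply hσB
    have hb4 : b = 4 * j := by rw [hk, hj]; ring
    have ha4 : a = 1 + 4 * (j + l) := by linarith
    have hσWW : σ W = W := by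
      rw [hσW, hb4, ha4, add_smul, one_smul, mul_comm 4 (j + l), mul_smul, h4W, smul_zero, add_zero,
        mul_comm 4 j, mul_smul, ← map_zsmul, h4W, map_zero, smul_zero, add_zero]
    obtain ⟨x, y, hxy⟩ := cyclic hG 3 W B hW3 (by
      show gpi I (gpi I (gpi I (gpi I B))) = 0
      rw [hB, hG.gpi_T])
    rw [hxy, map_add, map_zsmul, map_zsmul, hσ, hσWW]
  rw [Int.not_even_iff_odd] at hkodd
  obtain ⟨j, hj⟩ := hkodd
  apply h4
  rw [hG.gpi_four, neg_eq_zero]
  have h9 : (2 * b) • R = (4 : ℤ) • R + j • ((8 : ℤ) • R) := by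
    rw [smul_smul, ← add_smul, hk, hj]
    congr 1
    ring
  rw [hR, smul_zero, add_zero] at h9
  rw [← h9, h2b]

end Pool.Agent.Work.MP_8efaaa_nt.R
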