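import Mathlib
import Pool.Agent.Work.MP_8efaaa_nt.R.FDefs
import Pool.Agent.Work.MP_8efaaa_nt.R.FCm
import Pool.Agent.Work.MP_8efaaa_nt.R.FTor

/-!
# R/FPts: the torsion of `y ^ 2 = x ^ 3 - x` at `1 + i` (block F)
-/

set_option autoImplicit false

namespace Pool.Agent.Work.MP_8efaaa_nt.R

open WeierstrassCurve WeierstrassCurve.Affine

variable {F : Type*} [Field F] [CharZero F]

theorem nsT : (cQ F).Nonsingular 0 0 := by
  rw [cQ_nonsingular]
  ring

theorem nsA {i : F} (hi : i ^ 2 = -1) : (cQ F).Nonsingular i (1 - i) := by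
  rw [cQ_nonsingular]
  linear_combination (1 - i) * hi

theorem nsB {r : F} (hr : r ^ 2 = 2) : (cQ F).Nonsingular (1 + r) (r * (1 + r)) := by
  rw [cQ_nonsingular]
  linear_combination (r ^ 2 + r) * hr

theorem nsC (e : F) (he : e ^ 2 = 1) : (cQ F).Nonsingular e 0 := by
  rw [cQ_nonsingular]
  linear_combination -e * he

omit [CharZero F] in
private theorem hneg (x y : F) : (cQ F).negY x y = -y := by
  simp only [negY, cQ]
  ring

open scoped Classical in
/-- the module -/
theorem gmod {i : F} {I : (cQ F).Point →+ (cQ F).Point} (hsq : ∀ P, I (I P) = -P)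
    (hI : ∀ (x y : F) (h : (cQ F).Nonsingular x y), ∃ h' : (cQ F).Nonsingular (-x) (i * y),
        I (Point.some x y h) = Point.some (-x) (i * y) h') :
    GMod I (Point.some 0 0 nsT) := by
  refine ⟨hsq, Point.some_ne_zero _, ?_⟩
  rintro (_ | ⟨x, y, h⟩)
  · constructor
    · exact fun _ => Or.inl rfl
    · intro _
      show (0 : (cQ F).Point) + I 0 = 0
      rw [map_zero, add_zero]
  · constructor
    · intro h0
      right
      obtain ⟨h', e⟩ := hI x y h
      rw [e] at h0
      have h1 : (Point.some (-x) (i * y) h' : (cQ F).Point) = -Point.some x y h :=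
        eq_neg_of_add_eq_zero_right h0
      have h2 : (-(Point.some x y h) : (cQ F).Point) = Point.some x ((cQ F).negY x y)
        ((nonsingular_neg ..).mpr h) := rfl
      rw [h2, Point.some.injEq] at h1
      have hx : x = 0 := by
        have h3 : (2 : F) * x = 0 := by linear_combination -h1.1
        rcases mul_eq_zero.1 h3 with h4 | h4
        · norm_num at h4
        · exact h4
      have hy : y = 0 := by
        have h3 := cQ_nonsingular.1 h
        rw [hx] at h3
        have h4 : y ^ 2 = 0 := by rw [h3]; ring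
        exact pow_eq_zero_iff (two_ne_zero) |>.1 h4
      rw [Point.some.injEq]
      exact ⟨hx, hy⟩
    · rintro (h0 | h0)
      · exact absurd h0 (Point.some_ne_zero _)
      · rw [h0]
        obtain ⟨h', e⟩ := hI 0 0 nsT
        rw [e, Point.add_of_Y_eq (by ring)]
        rw [hneg]
        ring

open scoped Classical in
private theorem dbl {x y X : F} (h : (cQ F).Nonsingular x y) (hX : (cQ F).Nonsingular X 0) (hy : y ≠ 0)
    (h1 : (x ^ 2 + 1) ^ 2 = X * (2 * y) ^ 2) :
    (Point.some x y h : (cQ F).Point) + Point.some x y h = Point.some X 0 hX := by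
  have hy' : y ≠ (cQ F).negY x y := by
    rw [hneg]
    intro h2
    apply hy
    have h3 : (2 : F) * y = 0 := by linear_combination h2
    rcases mul_eq_zero.1 h3 with h4 | h4
    · norm_num at h4
    · exact h4
  have h2y : (2 : F) * y ≠ 0 := mul_ne_zero two_ne_zero hy
  have hE := cQ_nonsingular.1 h
  have hXE := cQ_nonsingular.1 hX
  have hXX : X * (X ^ 2 - 1) = 0 := by linear_combination -hXE
  rw [Point.add_self_of_Y_ne hy', Point.some.injEq]
  have hs : (cQ F).slope x x y y = (3 * x ^ 2 - 1) / (2 * y) := by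
    rw [slope_of_Y_ne rfl hy', hneg]
    simp only [cQ]
    congr 1 <;> ring
  rw [hs]
  have hx : (cQ F).addX x x ((3 * x ^ 2 - 1) / (2 * y)) = X := by
    simp only [addX, cQ]
    field_simp
    linear_combination h1 + (-8 * x) * hE
  refine ⟨hx, ?_⟩
  -- the point has second coordinate zero since it lies on the curve
  have hon : ((cQ F).addY x x y ((3 * x ^ 2 - 1) / (2 * y))) ^ 2 =
      X ^ 3 - X := by
    have hn : (cQ F).Nonsingular ((cQ F).addX x x ((cQ F).slope x x y y))
        ((cQ F).addY x x y ((cQ F).slope x x y y)) := nonsingular_add h h (fun hc => hy' hc.2)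
    rw [hs] at hn
    have := cQ_nonsingular.1 hn
    rw [hx] at this
    exact this
  have h0 : X ^ 3 - X = 0 := by linear_combination hXX
  rw [h0] at hon
  exact pow_eq_zero_iff (two_ne_zero) |>.1 hon

open scoped Classical in
/-- the point of order `(1 + i) ^ 3` -/
theorem gpi_A {i : F} (hi : i ^ 2 = -1) {I : (cQ F).Point →+ (cQ F).Point} (hsq : ∀ P, I (I P) = -P)
    (hI : ∀ (x y : F) (h : (cQ F).Nonsingular x y), ∃ h' : (cQ F).Nonsingular (-x) (i * y),
        I (Point.some x y h) = Point.some (-x) (i * y) h') :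
    gpi I (gpi I (Point.some i (1 - i) (nsA hi))) = Point.some 0 0 nsT := by
  have hG := gmod hsq hI
  rw [hG.gpi_gpi, ← map_zsmul, two_zsmul, dbl (nsA hi) nsT ?_ ?_]
  · exact hG.I_T
  · intro h
    have h1 : i = 1 := by linear_combination -h
    rw [h1] at hi
    norm_num at hi
  · linear_combination (i ^ 2 + 1) * hi

open scoped Classical in
/-- the point of order `(1 + i) ^ 4` -/
theorem gpi_B {i r : F} (hr : r ^ 2 = 2) {I : (cQ F).Point →+ (cQ F).Point}
    (hsq : ∀ P, I (I P) = -P)
    (hI : ∀ (x y : F) (h : (cQ F).Nonsingular x y), ∃ h' : (cQ F).Nonsingular (-x) (i * y),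
        I (Point.some x y h) = Point.some (-x) (i * y) h') :
    gpi I (gpi I (gpi I (Point.some (1 + r) (r * (1 + r)) (nsB hr)))) = Point.some 0 0 nsT := by
  have hG := gmod hsq hI
  have hr0 : r ≠ 0 := by
    rintro rfl
    norm_num at hr
  have hr1 : 1 + r ≠ 0 := by
    intro h
    have h1 : r = -1 := by linear_combination h
    rw [h1] at hr
    norm_num at hr
  have h1 : (Point.some (1 + r) (r * (1 + r)) (nsB hr) : (cQ F).Point) +
      Point.some (1 + r) (r * (1 + r)) (nsB hr) = Point.some 1 0 (nsC 1 (by ring)) := by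
    apply dbl _ _ (mul_ne_zero hr0 hr1)
    linear_combination (r ^ 2 + 4 * r + 4 - 4 * (1 + r) ^ 2 - 2) * hr
  have h2 : gpi I (Point.some 1 0 (nsC 1 (by ring))) = Point.some 0 0 nsT := by
    rw [gpi_apply]
    obtain ⟨h', e⟩ := hI 1 0 (nsC 1 (by ring))
    rw [e]
    have hx : (1 : F) ≠ -1 := by
      intro h
      have h3 : (2 : F) = 0 := by linear_combination h
      norm_num at h3
    rw [Point.add_of_X_ne hx, Point.some.injEq]
    have hs : (cQ F).slope 1 (-1) 0 (i * 0) = 0 := by
      rw [slope_of_X_ne hx]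
      simp
    rw [hs]
    constructor
    · simp [addX, cQ]
    · simp [addY, negAddY, addX, negY, cQ]
  rw [hG.gpi_gpi, ← map_zsmul, ← map_zsmul, two_zsmul, h1, h2, hG.I_T]

end Pool.Agent.Work.MP_8efaaa_nt.R
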