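import Mathlib
import Pool.Agent.Work.MP_8efaaa_nt.Defs
import Pool.Agent.Work.MP_8efaaa_nt.Basic
import Pool.Agent.Work.MP_8efaaa_nt.One

/-!
# R/TorA: rational points on `± a w ^ 2 = x ^ 3 - x`, halving on `y ^ 2 = x ^ 3 - x`
-/

set_option autoImplicit false

namespace Pool.Agent.Work.MP_8efaaa_nt.R

/-- `a w ^ 2 = t ^ 3 - t` with `w ≠ 0` over `ℚ` makes `a` congruent -/
theorem congr_of_cubic {a : ℕ} (ha : 0 < a) {t r : ℚ} (hr0 : r ≠ 0)
    (h1 : (a : ℚ) * r ^ 2 = t ^ 3 - t) : IsCongruent a := by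
  have ht1 : (t.num : ℚ) = t * t.den := (Rat.mul_den_eq_num t).symm
  have hr1 : (r.num : ℚ) = r * r.den := (Rat.mul_den_eq_num r).symm
  have hd1 : (t.den : ℚ) ≠ 0 := by exact_mod_cast t.den_ne_zero
  have hd2 : (r.den : ℚ) ≠ 0 := by exact_mod_cast r.den_ne_zero
  refine isCongruent_of_area ha (m := t.num * r.den) (n := t.den * r.den)
    (w := r.num * t.den * (t.den * r.den)) ?_ ?_
  · have : r.num ≠ 0 := Rat.num_ne_zero.2 hr0
    have h2 : (t.den : ℤ) ≠ 0 := by exact_mod_cast t.den_ne_zero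
    have h3 : (r.den : ℤ) ≠ 0 := by exact_mod_cast r.den_ne_zero
    positivity
  · have h2 : (((t.num * r.den) * (t.den * r.den) * ((t.num * r.den) ^ 2 - (t.den * r.den) ^ 2) : ℤ)
        : ℚ) = ((a * (r.num * t.den * (t.den * r.den)) ^ 2 : ℤ) : ℚ) := by
      push_cast
      rw [ht1, hr1]
      linear_combination (-(t.den : ℚ) ^ 4 * (r.den : ℚ) ^ 4) * h1
    exact_mod_cast h2

/-- the four twists over `ℚ` have no point with `w ≠ 0` if `a` is not congruent -/
theorem no_cubic {a : ℕ} (ha : 0 < a) (hnc : ¬ IsCongruent a) {t w e : ℚ}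
    (he : e = 1 ∨ e = -1 ∨ e = a ∨ e = -a) (h : e * w ^ 2 = t ^ 3 - t) : w = 0 := by
  by_contra hw
  rcases he with rfl | rfl | rfl | rfl
  · exact not_isCongruent_one (congr_of_cubic (a := 1) one_pos hw (by push_cast; exact h))
  · exact not_isCongruent_one (congr_of_cubic (a := 1) one_pos (t := -t) hw
      (by push_cast; linear_combination -h))
  · exact hnc (congr_of_cubic ha hw h)
  · exact hnc (congr_of_cubic ha (t := -t) hw (by linear_combination -h))

/-- no rational `w` has `e w ^ 2 = 2` -/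
theorem no_two {a : ℕ} (ha : a % 2 = 1) {w e : ℚ}
    (he : e = 1 ∨ e = -1 ∨ e = a ∨ e = -a) (h : e * w ^ 2 = 2) : False := by
  have key : ∀ b : ℕ, b % 2 = 1 → ∀ v : ℚ, (b : ℚ) * v ^ 2 ≠ 2 := by
    intro b hb v hv
    have h1 : IsSquare ((2 * b : ℕ) : ℚ) := ⟨b * v, by push_cast; linear_combination -(b : ℚ) * hv⟩
    obtain ⟨m, hm⟩ := Rat.isSquare_natCast_iff.1 h1
    have h2 : m % 4 < 4 := Nat.mod_lt _ (by norm_num)
    have h3 : (2 * b) % 4 = (m % 4) * (m % 4) % 4 := by rw [hm, Nat.mul_mod]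
    interval_cases (m % 4) <;> omega
  rcases he with rfl | rfl | rfl | rfl
  · exact key 1 rfl w (by push_cast; exact h)
  · nlinarith [sq_nonneg w]
  · exact key a ha w h
  · have : (0 : ℚ) ≤ (a : ℚ) * w ^ 2 := by positivity
    linarith

end Pool.Agent.Work.MP_8efaaa_nt.R
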