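import Mathlib
import Pool.Agent.Work.MP_8efaaa_nt.R.Defs
import Pool.Agent.Work.MP_8efaaa_nt.R.TorA

/-!
# R/TorB: points of `y ^ 2 = x ^ 3 - x` over `L = ℚ(i, √a)` if `a` is odd and not congruent
-/

set_option autoImplicit false

namespace Pool.Agent.Work.MP_8efaaa_nt.R

open WeierstrassCurve WeierstrassCurve.Affine

section

variable {L : Type*} [Field L]

theorem cQ_eq {x y : L} : (cQ L).Equation x y ↔ y ^ 2 = x ^ 3 - x := by
  rw [equation_iff]
  simp only [cQ]
  constructor <;> intro h <;> linear_combination h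

theorem negY_cQ (x y : L) : (cQ L).negY x y = -y := by
  simp only [negY, cQ]
  ring

/-- the eight points -/
def InS (i : L) : (cQ L).Point → Prop
  | .zero => True
  | .some x y _ => (x = 0 ∧ y = 0) ∨ (x = 1 ∧ y = 0) ∨ (x = -1 ∧ y = 0) ∨
      (x = i ∧ (y = 1 - i ∨ y = -(1 - i))) ∨ (x = -i ∧ (y = 1 + i ∨ y = -(1 + i)))

variable [CharZero L]

theorem cQ_ns {x y : L} (h : y ^ 2 = x ^ 3 - x) : (cQ L).Nonsingular x y := by
  rw [nonsingular_iff, cQ_eq]
  refine ⟨h, ?_⟩
  simp only [cQ]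
  by_contra hcon
  push Not at hcon
  obtain ⟨h3, h4⟩ := hcon
  have hy : y = 0 := by
    have : 2 * y = 0 := by linear_combination h4
    exact (mul_eq_zero.mp this).resolve_left two_ne_zero
  subst hy
  have h5 : 3 * x ^ 2 = 1 := by linear_combination -h3
  have h6 : x * (x ^ 2 - 1) = 0 := by linear_combination -h
  rcases mul_eq_zero.mp h6 with h7 | h7
  · subst h7
    simp at h5
  · have h8 : (2 : L) = 0 := by linear_combination h5 - 3 * h7
    exact two_ne_zero h8

/-- `L = ℚ(i, r)`, `r ^ 2 = a`, with its automorphisms -/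
structure QL (L : Type*) [Field L] [CharZero L] (a : ℕ) (i r : L) (σ τ : L ≃ₐ[ℚ] L) : Prop where
  hi : i ^ 2 = -1
  hr : r ^ 2 = (a : L)
  σi : σ i = i
  σr : σ r = -r
  τi : τ i = -i
  τr : τ r = r
  span : ∀ z : L, ∃ p q u v : ℚ, z = p + q * i + u * r + v * (i * r)

variable {a : ℕ} {i r : L} {σ τ : L ≃ₐ[ℚ] L}

namespace QL

theorem hi0 (h : QL L a i r σ τ) : i ≠ 0 := by
  intro h0
  have := h.hi
  rw [h0] at this
  norm_num at this

theorem hr0 (h : QL L a i r σ τ) (ha : 0 < a) : r ≠ 0 := by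
  intro h0
  have := h.hr
  rw [h0] at this
  have h2 : (a : L) ≠ 0 := by exact_mod_cast ha.ne'
  apply h2
  rw [← this]
  ring

theorem ind (h : QL L a i r σ τ) (p q : ℚ) (e : (p : L) + q * i = 0) : p = 0 ∧ q = 0 := by
  have e2 := congrArg τ e
  rw [map_add, map_mul, map_ratCast, map_ratCast, h.τi, map_zero] at e2
  have e3 : (p : L) = 0 := by linear_combination (e + e2) / 2
  have e4 : (q : L) * i = 0 := by linear_combination (e - e2) / 2
  exact ⟨by exact_mod_cast e3, by
    have := (mul_eq_zero.1 e4).resolve_right h.hi0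
    exact_mod_cast this⟩

theorem eσ (h : QL L a i r σ τ) (p q u v : ℚ) :
    σ ((p : L) + q * i + u * r + v * (i * r)) = p + q * i - u * r - v * (i * r) := by
  simp only [map_add, map_mul, map_ratCast, h.σi, h.σr]
  ring

theorem eτ (h : QL L a i r σ τ) (p q u v : ℚ) :
    τ ((p : L) + q * i + u * r + v * (i * r)) = p - q * i + u * r - v * (i * r) := by
  simp only [map_add, map_mul, map_ratCast, h.τi, h.τr]
  ring

theorem σσ (h : QL L a i r σ τ) (z : L) : σ (σ z) = z := by
  obtain ⟨p, q, u, v, rfl⟩ := h.span z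
  rw [h.eσ]
  have := h.eσ p q (-u) (-v)
  push_cast at this
  rw [show (p : L) + q * i - u * r - v * (i * r) = p + q * i + -u * r + -v * (i * r) by ring, this]
  ring

theorem ττ (h : QL L a i r σ τ) (z : L) : τ (τ z) = z := by
  obtain ⟨p, q, u, v, rfl⟩ := h.span z
  rw [h.eτ]
  have := h.eτ p (-q) u (-v)
  push_cast at this
  rw [show (p : L) - q * i + u * r - v * (i * r) = p + -q * i + u * r + -v * (i * r) by ring, this]
  ring

theorem στ (h : QL L a i r σ τ) (z : L) : σ (τ z) = τ (σ z) := by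
  obtain ⟨p, q, u, v, rfl⟩ := h.span z
  have h1 := h.eσ p (-q) u (-v)
  have h2 := h.eτ p q (-u) (-v)
  push_cast at h1 h2
  rw [h.eσ, h.eτ, show (p : L) - q * i + u * r - v * (i * r) = p + -q * i + u * r + -v * (i * r) by ring,
    show (p : L) + q * i - u * r - v * (i * r) = p + q * i + -u * r + -v * (i * r) by ring, h1, h2]
  ring

theorem fixed (h : QL L a i r σ τ) (ha : 0 < a) {z : L} (hσ : σ z = z) (hτ : τ z = z) :
    ∃ w : ℚ, z = (w : L) := by
  obtain ⟨p, q, u, v, hz⟩ := h.span z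
  have hr0 := h.hr0 ha
  have e1 := h.eσ p q u v
  have e2 := h.eτ p q u v
  rw [← hz] at e1 e2
  have f1 : ((u : L) + v * i) * r = 0 := by linear_combination (-hz + e1 - hσ) / 2
  obtain ⟨rfl, rfl⟩ := h.ind u v ((mul_eq_zero.1 f1).resolve_right hr0)
  have f2 : ((0 : ℚ) : L) + q * i = 0 := by
    push_cast at hz e1 e2 ⊢
    linear_combination (-hz + e2 - hτ) / 2
  obtain ⟨-, rfl⟩ := h.ind 0 q f2
  exact ⟨p, by rw [hz]; push_cast; ring⟩

/-- an element on which `σ`, `τ` act by signs is `w * e` with `w` rational -/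
theorem eig (h : QL L a i r σ τ) (ha : 0 < a) {z : L} (hσ : σ z = z ∨ σ z = -z)
    (hτ : τ z = z ∨ τ z = -z) :
    ∃ w e : ℚ, (e = 1 ∨ e = -1 ∨ e = a ∨ e = -a) ∧ (z ^ 2 = ((e * w ^ 2 : ℚ) : L)) ∧
      (w = 0 → z = 0) := by
  obtain ⟨p, q, u, v, hz⟩ := h.span z
  have hr0 := h.hr0 ha
  have e1 := h.eσ p q u v
  have e2 := h.eτ p q u v
  rw [← hz] at e1 e2
  have hi := h.hi
  have hr := h.hr
  rcases hσ with hσ | hσ
  · have f1 : ((u : L) + v * i) * r = 0 := by linear_combination (-hz + e1 - hσ) / 2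
    obtain ⟨rfl, rfl⟩ := h.ind u v ((mul_eq_zero.1 f1).resolve_right hr0)
    rcases hτ with hτ | hτ
    · have f2 : ((0 : ℚ) : L) + q * i = 0 := by
        push_cast at hz e1 e2 ⊢
        linear_combination (-hz + e2 - hτ) / 2
      obtain ⟨-, rfl⟩ := h.ind 0 q f2
      refine ⟨p, 1, Or.inl rfl, ?_, ?_⟩
      · rw [hz]; push_cast; ring
      · rintro rfl; rw [hz]; push_cast; ring
    · have f2 : (p : L) + (0 : ℚ) * i = 0 := by
        push_cast at hz e1 e2 ⊢
        linear_combination (-hz - e2 + hτ) / 2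
      obtain ⟨rfl, -⟩ := h.ind p 0 f2
      refine ⟨q, -1, Or.inr (Or.inl rfl), ?_, ?_⟩
      · rw [hz]; push_cast; linear_combination (q : L) ^ 2 * hi
      · rintro rfl; rw [hz]; push_cast; ring
  · have f1 : (p : L) + q * i = 0 := by linear_combination (-hz - e1 + hσ) / 2
    obtain ⟨rfl, rfl⟩ := h.ind p q f1
    rcases hτ with hτ | hτ
    · have f2 : (((0 : ℚ) : L) + v * i) * r = 0 := by
        push_cast at hz e1 e2 ⊢
        linear_combination (-hz + e2 - hτ) / 2
      obtain ⟨-, rfl⟩ := h.ind 0 v ((mul_eq_zero.1 f2).resolve_right hr0)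
      refine ⟨u, a, Or.inr (Or.inr (Or.inl rfl)), ?_, ?_⟩
      · rw [hz]; push_cast; linear_combination (u : L) ^ 2 * hr
      · rintro rfl; rw [hz]; push_cast; ring
    · have f2 : ((u : L) + (0 : ℚ) * i) * r = 0 := by
        push_cast at hz e1 e2 ⊢
        linear_combination (-hz - e2 + hτ) / 2
      obtain ⟨rfl, -⟩ := h.ind u 0 ((mul_eq_zero.1 f2).resolve_right hr0)
      refine ⟨v, -a, Or.inr (Or.inr (Or.inr rfl)), ?_, ?_⟩
      · rw [hz]; push_cast; linear_combination (v : L) ^ 2 * i ^ 2 * hr + (v : L) ^ 2 * a * hi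
      · rintro rfl; rw [hz]; push_cast; ring

/-- `2` is not a square -/
theorem not_sq_two (h : QL L a i r σ τ) (ha : a % 2 = 1) (z : L) : z ^ 2 ≠ 2 := by
  intro hz
  have ha0 : 0 < a := by omega
  have s1 : σ z = z ∨ σ z = -z := by
    apply sq_eq_sq_iff_eq_or_eq_neg.1
    rw [← map_pow, hz, map_ofNat]
  have s2 : τ z = z ∨ τ z = -z := by
    apply sq_eq_sq_iff_eq_or_eq_neg.1
    rw [← map_pow, hz, map_ofNat]
  obtain ⟨w, e, he, hw, -⟩ := h.eig ha0 s1 s2
  refine no_two ha he (w := w) ?_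
  rw [hz] at hw
  exact_mod_cast hw.symm

end QL

open scoped Classical in
/-- the action of an automorphism on the points -/
theorem exists_mp (σ : L ≃ₐ[ℚ] L) : ∃ m : (cQ L).Point →+ (cQ L).Point,
    ∀ (x y : L) (hn : (cQ L).Nonsingular x y), ∃ hn' : (cQ L).Nonsingular (σ x) (σ y),
      m (Point.some x y hn) = Point.some (σ x) (σ y) hn' := by
  have hW : cQ L = WeierstrassCurve.Affine.baseChange (cQ ℚ) L := by
    unfold cQ
    ext
    all_goals simp [WeierstrassCurve.Affine.baseChange, WeierstrassCurve.baseChange]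
  generalize cQ L = W at hW
  subst hW
  refine ⟨Point.map (W' := cQ ℚ) (σ : L →ₐ[ℚ] L), fun x y hn => ⟨?_, ?_⟩⟩
  · exact ((cQ ℚ).baseChange_nonsingular (f := (σ : L →ₐ[ℚ] L)) (σ : L →ₐ[ℚ] L).injective x y).mpr hn
  · rw [Point.map_some]
    rfl

open scoped Classical in
/-- doubling -/
theorem double {x y : L} (hn : (cQ L).Nonsingular x y) (hy : y ≠ 0) :
    ∃ (x' y' : L) (hn' : (cQ L).Nonsingular x' y'),
      Point.some x y hn + Point.some x y hn = Point.some x' y' hn' ∧
      x' = ((x ^ 2 + 1) / (2 * y)) ^ 2 ∧ x' - 1 = ((x ^ 2 - 2 * x - 1) / (2 * y)) ^ 2 ∧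
      x' + 1 = ((x ^ 2 + 2 * x - 1) / (2 * y)) ^ 2 := by
  have hEq : y ^ 2 = x ^ 3 - x := cQ_eq.1 hn.1
  have hne : y ≠ (cQ L).negY x y := by
    rw [negY_cQ]
    intro h0
    apply hy
    have : 2 * y = 0 := by linear_combination h0
    exact (mul_eq_zero.mp this).resolve_left two_ne_zero
  have h2Y0 : 2 * y ≠ 0 := mul_ne_zero two_ne_zero hy
  have hX : (cQ L).addX x x ((cQ L).slope x x y y) = ((x ^ 2 + 1) / (2 * y)) ^ 2 := by
    rw [WeierstrassCurve.Affine.slope_of_Y_ne rfl hne]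
    simp only [WeierstrassCurve.Affine.addX, WeierstrassCurve.Affine.negY, cQ]
    have h2Y : y - (-y - 0 * x - 0) = 2 * y := by ring
    rw [h2Y]
    field_simp
    linear_combination (-8 * x) * hEq
  refine ⟨_, _, _, WeierstrassCurve.Affine.Point.add_self_of_Y_ne (h₁ := hn) hne, hX, ?_, ?_⟩
  · rw [hX]
    field_simp
    linear_combination -4 * hEq
  · rw [hX]
    field_simp
    linear_combination 4 * hEq

open scoped Classical in
theorem double_zero {x y : L} (hn : (cQ L).Nonsingular x y) (hy : y = 0) :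
    Point.some x y hn + Point.some x y hn = 0 :=
  WeierstrassCurve.Affine.Point.add_self_of_Y_eq (by rw [negY_cQ, hy, neg_zero])

open scoped Classical in
/-- halving -/
theorem half {i : L} (hi : i ^ 2 = -1) (h2 : ∀ z : L, z ^ 2 ≠ 2) {P : (cQ L).Point}
    (hP : InS i (P + P)) : InS i P := by
  rcases P with _ | ⟨x, y, hn⟩
  · trivial
  · have hEq : y ^ 2 = x ^ 3 - x := cQ_eq.1 hn.1
    by_cases hy : y = 0
    · have h6 : x * ((x - 1) * (x + 1)) = 0 := by rw [hy] at hEq; linear_combination -hEq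
      rcases mul_eq_zero.1 h6 with h7 | h7
      · exact Or.inl ⟨h7, hy⟩
      · rcases mul_eq_zero.1 h7 with h8 | h8
        · exact Or.inr (Or.inl ⟨by linear_combination h8, hy⟩)
        · exact Or.inr (Or.inr (Or.inl ⟨by linear_combination h8, hy⟩))
    · obtain ⟨x', y', hn', hadd, hx, hxm, hxp⟩ := double hn hy
      rw [hadd] at hP
      rcases hP with h | h | h | h | h
      · have h1 : ((x ^ 2 + 1) / (2 * y)) ^ 2 = 0 := by rw [← hx]; exact h.1
        have h3 : x ^ 2 + 1 = 0 := by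
          have h4 := pow_eq_zero_iff two_ne_zero |>.1 h1
          rcases div_eq_zero_iff.1 h4 with h5 | h5
          · exact h5
          · exact absurd h5 (mul_ne_zero two_ne_zero hy)
        have h4 : (x - i) * (x + i) = 0 := by linear_combination h3 - hi
        rcases mul_eq_zero.1 h4 with h5 | h5
        · have hx' : x = i := by linear_combination h5
          subst hx'
          have h6 : (y - (1 - x)) * (y + (1 - x)) = 0 := by linear_combination hEq + (x - 1) * hi
          rcases mul_eq_zero.1 h6 with h7 | h7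
          · exact Or.inr (Or.inr (Or.inr (Or.inl ⟨rfl, Or.inl (by linear_combination h7)⟩)))
          · exact Or.inr (Or.inr (Or.inr (Or.inl ⟨rfl, Or.inr (by linear_combination h7)⟩)))
        · have hx' : x = -i := by linear_combination h5
          have h6 : (y - (1 + i)) * (y + (1 + i)) = 0 := by
            rw [hx'] at hEq
            linear_combination hEq - (i + 1) * hi
          rcases mul_eq_zero.1 h6 with h7 | h7
          · exact Or.inr (Or.inr (Or.inr (Or.inr ⟨hx', Or.inl (by linear_combination h7)⟩)))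
          · exact Or.inr (Or.inr (Or.inr (Or.inr ⟨hx', Or.inr (by linear_combination h7)⟩)))
      · refine absurd ?_ (h2 ((x ^ 2 + 2 * x - 1) / (2 * y)))
        rw [← hxp, h.1]
        norm_num
      · refine absurd ?_ (h2 (i * ((x ^ 2 - 2 * x - 1) / (2 * y))))
        rw [mul_pow, ← hxm, h.1, hi]
        norm_num
      · refine absurd ?_ (h2 ((1 + i) * ((x ^ 2 + 1) / (2 * y)) ^ 3))
        have e1 : ((x ^ 2 + 1) / (2 * y)) ^ 2 = i := by rw [← hx]; exact h.1
        have e2 : ((1 + i) * ((x ^ 2 + 1) / (2 * y)) ^ 3) ^ 2 =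
          (1 + i) ^ 2 * (((x ^ 2 + 1) / (2 * y)) ^ 2) ^ 3 := by ring
        rw [e2, e1]
        linear_combination (i ^ 3 + 2 * i ^ 2 - 2) * hi
      · refine absurd ?_ (h2 ((1 + i) * ((x ^ 2 + 1) / (2 * y))))
        have e1 : ((x ^ 2 + 1) / (2 * y)) ^ 2 = -i := by rw [← hx]; exact h.1
        have e2 : ((1 + i) * ((x ^ 2 + 1) / (2 * y))) ^ 2 =
          (1 + i) ^ 2 * ((x ^ 2 + 1) / (2 * y)) ^ 2 := by ring
        rw [e2, e1]
        linear_combination (-i - 2) * hi

open scoped Classical in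
/-- a point on which the automorphisms act by signs has order at most two -/
theorem isotypic (h : QL L a i r σ τ) (ha : 0 < a) (hnc : ¬ IsCongruent a)
    {m n : (cQ L).Point →+ (cQ L).Point}
    (hm : ∀ (x y : L) (hn : (cQ L).Nonsingular x y), ∃ hn' : (cQ L).Nonsingular (σ x) (σ y),
      m (Point.some x y hn) = Point.some (σ x) (σ y) hn')
    (hn : ∀ (x y : L) (hn : (cQ L).Nonsingular x y), ∃ hn' : (cQ L).Nonsingular (τ x) (τ y),
      n (Point.some x y hn) = Point.some (τ x) (τ y) hn')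
    {N : (cQ L).Point} (h1 : m N = N ∨ m N = -N) (h2 : n N = N ∨ n N = -N) : N + N = 0 := by
  rcases N with _ | ⟨x, y, hxy⟩
  · exact add_zero 0
  · apply double_zero
    have key : ∀ (ρ : L ≃ₐ[ℚ] L) (l : (cQ L).Point →+ (cQ L).Point),
        (∀ (x y : L) (hn : (cQ L).Nonsingular x y), ∃ hn' : (cQ L).Nonsingular (ρ x) (ρ y),
          l (Point.some x y hn) = Point.some (ρ x) (ρ y) hn') →
        (l (Point.some x y hxy) = Point.some x y hxy ∨
          l (Point.some x y hxy) = -Point.some x y hxy) → ρ x = x ∧ (ρ y = y ∨ ρ y = -y) := by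
      intro ρ l hl hl2
      obtain ⟨hn', e⟩ := hl x y hxy
      rcases hl2 with h3 | h3
      · rw [e] at h3
        injection h3 with h4 h5
        exact ⟨h4, Or.inl h5⟩
      · rw [e, Point.neg_some] at h3
        injection h3 with h4 h5
        exact ⟨h4, Or.inr (by rw [h5, negY_cQ])⟩
    obtain ⟨x1, y1⟩ := key σ m hm h1
    obtain ⟨x2, y2⟩ := key τ n hn h2
    obtain ⟨X, rfl⟩ := h.fixed ha x1 x2
    obtain ⟨w, e, he, hw, h0⟩ := h.eig ha y1 y2
    have hEq : y ^ 2 = (X : L) ^ 3 - X := cQ_eq.1 hxy.1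
    rw [hw] at hEq
    exact h0 (no_cubic ha hnc he (t := X) (by exact_mod_cast hEq))

open scoped Classical in
/-- MAIN: the points over `L = ℚ(i, √a)` for odd `a` that is not congruent -/
theorem points_L (h : QL L a i r σ τ) (ha : a % 2 = 1) (hnc : ¬ IsCongruent a)
    (P : (cQ L).Point) : InS i P := by
  have ha0 : 0 < a := by omega
  obtain ⟨m, hm⟩ := exists_mp σ
  obtain ⟨n, hn⟩ := exists_mp τ
  have comp : ∀ (ρ ρ' : L ≃ₐ[ℚ] L) (l l' : (cQ L).Point →+ (cQ L).Point),
      (∀ (x y : L) (hn : (cQ L).Nonsingular x y), ∃ hn' : (cQ L).Nonsingular (ρ x) (ρ y),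
          l (Point.some x y hn) = Point.some (ρ x) (ρ y) hn') →
      (∀ (x y : L) (hn : (cQ L).Nonsingular x y), ∃ hn' : (cQ L).Nonsingular (ρ' x) (ρ' y),
          l' (Point.some x y hn) = Point.some (ρ' x) (ρ' y) hn') →
      ∀ (x y : L) (hn : (cQ L).Nonsingular x y), ∃ hn' : (cQ L).Nonsingular (ρ (ρ' x)) (ρ (ρ' y)),
        l (l' (Point.some x y hn)) = Point.some (ρ (ρ' x)) (ρ (ρ' y)) hn' := by
    intro ρ ρ' l l' hl hl' x y hxy
    obtain ⟨h1, e1⟩ := hl' x y hxy
    obtain ⟨h2, e2⟩ := hl _ _ h1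
    exact ⟨h2, by rw [e1, e2]⟩
  have mm : ∀ Q, m (m Q) = Q := by
    rintro (_ | ⟨x, y, hxy⟩)
    · exact (congrArg m m.map_zero).trans m.map_zero
    · obtain ⟨h1, e1⟩ := comp σ σ m m hm hm x y hxy
      rw [e1]
      simp only [h.σσ]
  have nn : ∀ Q, n (n Q) = Q := by
    rintro (_ | ⟨x, y, hxy⟩)
    · exact (congrArg n n.map_zero).trans n.map_zero
    · obtain ⟨h1, e1⟩ := comp τ τ n n hn hn x y hxy
      rw [e1]
      simp only [h.ττ]
  have mn : ∀ Q, m (n Q) = n (m Q) := by
    rintro (_ | ⟨x, y, hxy⟩)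
    · have h1 : m (n 0) = n (m 0) := by simp
      exact h1
    · obtain ⟨h1, e1⟩ := comp σ τ m n hm hn x y hxy
      obtain ⟨h2, e2⟩ := comp τ σ n m hn hm x y hxy
      rw [e1, e2]
      simp only [h.στ]
  have k1 := isotypic h ha0 hnc hm hn (N := (P + m P) + n (P + m P))
    (Or.inl (by simp only [map_add, mm, mn]; abel)) (Or.inl (by simp only [map_add, nn]; abel))
  have k2 := isotypic h ha0 hnc hm hn (N := (P + m P) - n (P + m P))
    (Or.inl (by simp only [map_add, map_sub, mm, mn]; abel))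
    (Or.inr (by simp only [map_add, map_sub, nn]; abel))
  have k3 := isotypic h ha0 hnc hm hn (N := (P - m P) + n (P - m P))
    (Or.inr (by simp only [map_add, map_sub, mm, mn]; abel))
    (Or.inl (by simp only [map_add, map_sub, nn]; abel))
  have k4 := isotypic h ha0 hnc hm hn (N := (P - m P) - n (P - m P))
    (Or.inr (by simp only [map_add, map_sub, mm, mn]; abel))
    (Or.inr (by simp only [map_add, map_sub, nn]; abel))
  have h8 : (P + P) + (P + P) + ((P + P) + (P + P)) = 0 := by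
    have : (P + P) + (P + P) + ((P + P) + (P + P)) =
        ((P + m P) + n (P + m P) + ((P + m P) + n (P + m P))) +
        ((P + m P) - n (P + m P) + ((P + m P) - n (P + m P))) +
        ((P - m P) + n (P - m P) + ((P - m P) + n (P - m P))) +
        ((P - m P) - n (P - m P) + ((P - m P) - n (P - m P))) := by abel
    rw [this, k1, k2, k3, k4]
    simp
  have h2 := h.not_sq_two ha
  apply half h.hi h2
  apply half h.hi h2
  apply half h.hi h2
  rw [h8]
  trivial

end

end Pool.Agent.Work.MP_8efaaa_nt.R
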