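import Mathlib
import Pool.Agent.Work.MP_8efaaa_nt.R.FDefs
import Pool.Agent.Work.MP_8efaaa_nt.R.FCm
import Pool.Agent.Work.MP_8efaaa_nt.R.FTor
import Pool.Agent.Work.MP_8efaaa_nt.R.FPts
import Pool.Agent.Work.MP_8efaaa_nt.R.TorB

/-!
# R/FGal: the Galois action on the points of `y ^ 2 = x ^ 3 - x` (block F)
-/

set_option autoImplicit false

namespace Pool.Agent.Work.MP_8efaaa_nt.R

open WeierstrassCurve WeierstrassCurve.Affine
open scoped Classical

noncomputable section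

variable {K F : Type*} [Field K] [Field F] [Algebra K F] [CharZero F]

/-- the point with coordinates `x`, `y` -/
def pt (x y : F) (h : y ^ 2 = x ^ 3 - x) : (cQ F).Point := Point.some x y (cQ_nonsingular.2 h)

theorem pt_inj {x y x' y' : F} {h : y ^ 2 = x ^ 3 - x} {h' : y' ^ 2 = x' ^ 3 - x'} :
    pt x y h = pt x' y' h' ↔ x = x' ∧ y = y' := by
  unfold pt
  rw [Point.some.injEq]

theorem pt_ne {x y : F} (h : y ^ 2 = x ^ 3 - x) : pt x y h ≠ 0 := Point.some_ne_zero _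

theorem pt_cases (P : (cQ F).Point) : P = 0 ∨ ∃ (x y : F) (h : y ^ 2 = x ^ 3 - x), P = pt x y h := by
  rcases P with _ | ⟨x, y, h⟩
  · exact Or.inl rfl
  · exact Or.inr ⟨x, y, cQ_nonsingular.1 h, rfl⟩

omit [CharZero F] in
theorem gal_eq (σ : F ≃ₐ[K] F) {x y : F} (h : y ^ 2 = x ^ 3 - x) : σ y ^ 2 = σ x ^ 3 - σ x := by
  rw [← map_pow, h, map_sub, map_pow]

theorem exists_gal (σ : F ≃ₐ[K] F) : ∃ m : (cQ F).Point →+ (cQ F).Point,
    ∀ (x y : F) (h : y ^ 2 = x ^ 3 - x), m (pt x y h) = pt (σ x) (σ y) (gal_eq σ h) := by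
  obtain ⟨m, hm⟩ := exists_mp (AlgEquiv.ofRingEquiv (f := σ.toRingEquiv) (fun r => by simp) :
    F ≃ₐ[ℚ] F)
  refine ⟨m, fun x y h => ?_⟩
  obtain ⟨h', e⟩ := hm x y (cQ_nonsingular.2 h)
  exact e

/-- the action of an automorphism on the points -/
def gal (σ : F ≃ₐ[K] F) : (cQ F).Point →+ (cQ F).Point := (exists_gal σ).choose

theorem gal_pt (σ : F ≃ₐ[K] F) {x y : F} (h : y ^ 2 = x ^ 3 - x) :
    gal σ (pt x y h) = pt (σ x) (σ y) (gal_eq σ h) := (exists_gal σ).choose_spec x y h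

theorem gal_inj (σ : F ≃ₐ[K] F) {P : (cQ F).Point} (hP : gal σ P = 0) : P = 0 := by
  rcases pt_cases P with rfl | ⟨x, y, h, rfl⟩
  · rfl
  · rw [gal_pt] at hP
    exact absurd hP (pt_ne _)

theorem gal_mul (σ τ : F ≃ₐ[K] F) (P : (cQ F).Point) : gal (σ * τ) P = gal σ (gal τ P) := by
  rcases pt_cases P with rfl | ⟨x, y, h, rfl⟩
  · rw [map_zero, map_zero, map_zero]
  · rw [gal_pt, gal_pt, gal_pt]
    rfl

/-- multiplication by `i` -/
structure CMI (i : F) (I : (cQ F).Point →+ (cQ F).Point) : Prop where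
  i2 : i ^ 2 = -1
  sq : ∀ P, I (I P) = -P
  some : ∀ (x y : F) (h : (cQ F).Nonsingular x y), ∃ h' : (cQ F).Nonsingular (-x) (i * y),
    I (Point.some x y h) = Point.some (-x) (i * y) h'

theorem exists_cmi {i : F} (hi : i ^ 2 = -1) : ∃ I, CMI i I := by
  obtain ⟨I, h1, h2⟩ := exists_cm hi
  exact ⟨I, hi, h1, h2⟩

namespace CMI

variable {i : F} {I : (cQ F).Point →+ (cQ F).Point}

theorem i_eq (h : CMI i I) {x y : F} (hx : y ^ 2 = x ^ 3 - x) : (i * y) ^ 2 = (-x) ^ 3 - -x := by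
  linear_combination (y ^ 2) * h.i2 - hx

theorem pt (h : CMI i I) {x y : F} (hx : y ^ 2 = x ^ 3 - x) :
    I (R.pt x y hx) = R.pt (-x) (i * y) (h.i_eq hx) := by
  obtain ⟨h', e⟩ := h.some x y (cQ_nonsingular.2 hx)
  exact e

theorem gmod (h : CMI i I) : GMod I (R.pt 0 0 (by ring)) := R.gmod h.sq h.some

theorem gal_comm (h : CMI i I) {σ : F ≃ₐ[K] F} (hσ : σ i = i) (P : (cQ F).Point) :
    gal σ (I P) = I (gal σ P) := by
  rcases pt_cases P with rfl | ⟨x, y, h', rfl⟩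
  · rw [map_zero, map_zero, map_zero]
  · rw [h.pt, gal_pt, gal_pt, h.pt, pt_inj, map_neg, map_mul, hσ]
    exact ⟨rfl, rfl⟩

theorem gal_anti (h : CMI i I) {σ : F ≃ₐ[K] F} (hσ : σ i = -i) (P : (cQ F).Point) :
    gal σ (I P) = -I (gal σ P) := by
  rcases pt_cases P with rfl | ⟨x, y, h', rfl⟩
  · rw [map_zero, map_zero, map_zero, neg_zero]
  · rw [h.pt, gal_pt, gal_pt, h.pt]
    unfold R.pt
    rw [Point.neg_some, Point.some.injEq]
    refine ⟨by rw [map_neg], ?_⟩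
    simp only [negY, cQ, map_mul, hσ]
    ring

/-- the automorphisms that fix `i` fix the point of order `(1 + i) ^ 3` -/
theorem gal_A (h : CMI i I) {σ : F ≃ₐ[K] F} (hσ : σ i = i) :
    gal σ (Point.some i (1 - i) (nsA h.i2)) = Point.some i (1 - i) (nsA h.i2) := by
  have := gal_pt σ (x := i) (y := 1 - i) (cQ_nonsingular.1 (nsA h.i2))
  refine this.trans ?_
  show R.pt _ _ _ = R.pt i (1 - i) (cQ_nonsingular.1 (nsA h.i2))
  rw [pt_inj, map_sub, map_one, hσ]
  exact ⟨rfl, rfl⟩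

theorem gal_B {r : F} (hr : r ^ 2 = 2) {σ : F ≃ₐ[K] F} (hσ : σ r = r) :
    gal σ (Point.some (1 + r) (r * (1 + r)) (nsB hr)) = Point.some (1 + r) (r * (1 + r)) (nsB hr) := by
  have := gal_pt σ (x := 1 + r) (y := r * (1 + r)) (cQ_nonsingular.1 (nsB hr))
  refine this.trans ?_
  show R.pt _ _ _ = R.pt (1 + r) (r * (1 + r)) (cQ_nonsingular.1 (nsB hr))
  rw [pt_inj, map_mul, map_add, map_one, hσ]
  exact ⟨rfl, rfl⟩

theorem gal_B' {r : F} (hr : r ^ 2 = 2) {σ : F ≃ₐ[K] F} (hσ : σ r = -r) :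
    gal σ (Point.some (1 + r) (r * (1 + r)) (nsB hr)) ≠ Point.some (1 + r) (r * (1 + r)) (nsB hr) := by
  have := gal_pt σ (x := 1 + r) (y := r * (1 + r)) (cQ_nonsingular.1 (nsB hr))
  intro h0
  have h1 := this.symm.trans h0
  have h2 : R.pt _ _ (gal_eq σ (cQ_nonsingular.1 (nsB hr))) =
    R.pt (1 + r) (r * (1 + r)) (cQ_nonsingular.1 (nsB hr)) := h1
  rw [pt_inj, map_add, map_one, hσ] at h2
  have h3 : (2 : F) * r = 0 := by linear_combination -h2.1
  rcases mul_eq_zero.1 h3 with h4 | h4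
  · norm_num at h4
  · rw [h4] at hr
    norm_num at hr

/-- the automorphisms that fix `i` fix the torsion at `(1 + i) ^ 3` -/
theorem gal_three (h : CMI i I) {σ : F ≃ₐ[K] F} (hσ : σ i = i) {P : (cQ F).Point}
    (hP : (gpi I)^[3] P = 0) : gal σ P = P := by
  obtain ⟨x, y, hxy⟩ := cyclic h.gmod 2 _ P (gpi_A h.i2 h.sq h.some) hP
  rw [hxy, map_add, map_zsmul, map_zsmul, h.gal_comm hσ, h.gal_A hσ]

/-- the automorphisms that fix `i` and the square root of `2` fix the torsion at `(1 + i) ^ 4` -/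
theorem gal_four (h : CMI i I) {r : F} (hr : r ^ 2 = 2) {σ : F ≃ₐ[K] F} (hσ : σ i = i)
    (hσr : σ r = r) {P : (cQ F).Point} (hP : (gpi I)^[4] P = 0) : gal σ P = P := by
  obtain ⟨x, y, hxy⟩ := cyclic h.gmod 3 _ P (gpi_B hr h.sq h.some) hP
  rw [hxy, map_add, map_zsmul, map_zsmul, h.gal_comm hσ, gal_B hr hσr]

/-- a point killed by `(1 + i) ^ 4` and fixed by an automorphism which fixes `i` but not the square root of `2`
is killed by `(1 + i) ^ 3` -/
theorem four_three (h : CMI i I) {r : F} (hr : r ^ 2 = 2) {σ : F ≃ₐ[K] F} (hσ : σ i = i)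
    (hσr : σ r = -r) {P : (cQ F).Point} (hP : (gpi I)^[4] P = 0) (hP' : gal σ P = P) :
    (gpi I)^[3] P = 0 := by
  by_contra h3
  rw [Function.iterate_succ_apply'] at hP
  have hT := (h.gmod.gpi_eq_zero.1 hP).resolve_left h3
  apply gal_B' hr hσr
  obtain ⟨x, y, hxy⟩ := cyclic h.gmod 3 P (Point.some (1 + r) (r * (1 + r)) (nsB hr)) hT (by
    show gpi I (gpi I (gpi I (gpi I _))) = 0
    rw [gpi_B hr h.sq h.some]
    exact h.gmod.gpi_T)
  rw [hxy, map_add, map_zsmul, map_zsmul, h.gal_comm hσ, hP']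

end CMI

/-- the points fixed by the Galois group -/
theorem fixed_pt [FiniteDimensional K F] [IsGalois K F] {P : (cQ F).Point}
    (hP : ∀ σ : F ≃ₐ[K] F, gal σ P = P) :
    P = 0 ∨ ∃ (x y : K) (h : (algebraMap K F y) ^ 2 = (algebraMap K F x) ^ 3 - algebraMap K F x),
      P = pt (algebraMap K F x) (algebraMap K F y) h := by
  rcases pt_cases P with rfl | ⟨x, y, h, rfl⟩
  · exact Or.inl rfl
  · right
    have hx : x ∈ Set.range (algebraMap K F) := by
      rw [IsGalois.mem_range_algebraMap_iff_fixed]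
      intro σ
      have := hP σ
      rw [gal_pt, pt_inj] at this
      exact this.1
    have hy : y ∈ Set.range (algebraMap K F) := by
      rw [IsGalois.mem_range_algebraMap_iff_fixed]
      intro σ
      have := hP σ
      rw [gal_pt, pt_inj] at this
      exact this.2
    obtain ⟨x, rfl⟩ := hx
    obtain ⟨y, rfl⟩ := hy
    exact ⟨x, y, h, rfl⟩

end

end Pool.Agent.Work.MP_8efaaa_nt.R
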