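import Mathlib
import Pool.Agent.Work.MP_8efaaa_nt.R.FGal

/-!
# R/FP3: multiplication by `1 + i` and by `(1 + i) ^ 3` in coordinates (block F)
-/

set_option autoImplicit false

namespace Pool.Agent.Work.MP_8efaaa_nt.R

open WeierstrassCurve WeierstrassCurve.Affine
open scoped Classical

noncomputable section

variable {F : Type*} [Field F] [CharZero F] {i : F} {I : (cQ F).Point →+ (cQ F).Point}

omit [CharZero F] in
private theorem hneg (x y : F) : (cQ F).negY x y = -y := by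
  simp only [negY, cQ]
  ring

/-- multiplication by `1 + i` -/
theorem gpi_pt (h : CMI i I) {x y : F} (hx : y ^ 2 = x ^ 3 - x) (hx0 : x ≠ 0) :
    ∃ h', gpi I (pt x y hx) =
      pt (-(i / 2) * (x - 1 / x)) (-((1 + i) / 4) * y * (1 + 1 / x ^ 2)) h' := by
  have hi := h.i2
  have h2x : (2 : F) * x ≠ 0 := mul_ne_zero two_ne_zero hx0
  have hne : x ≠ -x := by
    intro h3
    apply h2x
    linear_combination h3
  have hs : (cQ F).slope x (-x) y (i * y) = (1 - i) * y / (2 * x) := by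
    rw [slope_of_X_ne hne]
    congr 1 <;> ring
  have hX : (cQ F).addX x (-x) ((1 - i) * y / (2 * x)) = -(i / 2) * (x - 1 / x) := by
    simp only [addX, cQ]
    field_simp
    linear_combination (-2 * i) * hx + y ^ 2 * hi
  have hY : (cQ F).addY x (-x) y ((1 - i) * y / (2 * x)) = -((1 + i) / 4) * y * (1 + 1 / x ^ 2) := by
    simp only [addY, hneg, negAddY, hX]
    field_simp
    linear_combination (4 * y * (1 - x ^ 2)) * hi
  have hadd : gpi I (pt x y hx) = Point.some ((cQ F).addX x (-x) ((1 - i) * y / (2 * x)))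
      ((cQ F).addY x (-x) y ((1 - i) * y / (2 * x))) (by
        rw [← hs]
        exact nonsingular_add (cQ_nonsingular.2 hx) (cQ_nonsingular.2 (h.i_eq hx))
          (fun hc => hne hc.1)) := by
    rw [gpi_apply, h.pt]
    unfold pt
    rw [Point.add_of_X_ne hne, Point.some.injEq, hs]
    exact ⟨rfl, rfl⟩
  refine ⟨?_, ?_⟩
  · rw [← hX, ← hY, ← cQ_nonsingular, ← hs]
    exact nonsingular_add (cQ_nonsingular.2 hx) (cQ_nonsingular.2 (h.i_eq hx))
          (fun hc => hne hc.1)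
  · rw [hadd]
    unfold pt
    rw [Point.some.injEq]
    exact ⟨hX, hY⟩

/-- multiplication by `(1 + i) ^ 3` -/
theorem gpi_three (h : CMI i I) {x y V U : F} (hxy : y ^ 2 = x ^ 3 - x) (hx0 : x ≠ 0) (hV : V ≠ 0)
    (hUV : U ^ 2 + V ^ 4 = 1) (hU : 1 + U ≠ 0) (h1 : x ^ 2 - 1 = 2 * x * (1 + U) / V ^ 2)
    (h2 : y * (x ^ 2 + 1) * V = 4 * x ^ 2 * (1 + U) / V ^ 2) :
    ∃ h', (gpi I)^[3] (pt x y hxy) =
      pt (i / 2 * ((1 - V ^ 4) / V ^ 2)) ((1 - i) / 4 * (U * (1 + V ^ 4) / V ^ 3)) h' := by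
  have hi := h.i2
  have hi0 : i ≠ 0 := by
    intro h0
    rw [h0] at hi
    norm_num at hi
  obtain ⟨e1, f1⟩ := gpi_pt h hxy hx0
  have ex1 : -(i / 2) * (x - 1 / x) = -i * (1 + U) / V ^ 2 := by
    have : x - 1 / x = (x ^ 2 - 1) / x := by
      field_simp
    rw [this, h1]
    field_simp
  have ey1 : -((1 + i) / 4) * y * (1 + 1 / x ^ 2) = -(1 + i) * (1 + U) / V ^ 3 := by
    have : 1 + 1 / x ^ 2 = (x ^ 2 + 1) / x ^ 2 := by
      field_simp
    rw [this]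
    have h3 : y * (x ^ 2 + 1) = 4 * x ^ 2 * (1 + U) / V ^ 3 := by
      rw [eq_div_iff (pow_ne_zero 3 hV)]
      rw [eq_div_iff (pow_ne_zero 2 hV)] at h2
      linear_combination h2
    have h4 : -((1 + i) / 4) * y * ((x ^ 2 + 1) / x ^ 2) = -((1 + i) / 4) * (y * (x ^ 2 + 1)) / x ^ 2 := by
      ring
    rw [h4, h3]
    field_simp
  have e1' : (-(1 + i) * (1 + U) / V ^ 3) ^ 2 = (-i * (1 + U) / V ^ 2) ^ 3 - -i * (1 + U) / V ^ 2 := by
    rw [← ex1, ← ey1]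
    exact e1
  have f1' : gpi I (pt x y hxy) = pt (-i * (1 + U) / V ^ 2) (-(1 + i) * (1 + U) / V ^ 3) e1' := by
    rw [f1, pt_inj]
    exact ⟨ex1, ey1⟩
  have hx1 : -i * (1 + U) / V ^ 2 ≠ 0 :=
    div_ne_zero (mul_ne_zero (neg_ne_zero.2 hi0) hU) (pow_ne_zero 2 hV)
  obtain ⟨e2, f2⟩ := gpi_pt h e1' hx1
  have hV4 : V ^ 4 = (1 - U) * (1 + U) := by linear_combination hUV
  have ex2 : -(i / 2) * (-i * (1 + U) / V ^ 2 - 1 / (-i * (1 + U) / V ^ 2)) = -1 / V ^ 2 := by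
    field_simp
    linear_combination (1 + U) ^ 2 * hi - hUV
  have ey2 : -((1 + i) / 4) * (-(1 + i) * (1 + U) / V ^ 3) * (1 + 1 / (-i * (1 + U) / V ^ 2) ^ 2) =
      i * U / V ^ 3 := by
    field_simp
    linear_combination (i ^ 2 + 2 * U * i ^ 2 + U ^ 2 * i ^ 2 + V ^ 4 + 2 * i * (1 - U ^ 2)) * hi +
      2 * i * hUV
  have e2' : (i * U / V ^ 3) ^ 2 = (-1 / V ^ 2) ^ 3 - -1 / V ^ 2 := by
    rw [← ex2, ← ey2]
    exact e2
  have f2' : gpi I (gpi I (pt x y hxy)) = pt (-1 / V ^ 2) (i * U / V ^ 3) e2' := by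
    rw [f1', f2, pt_inj]
    exact ⟨ex2, ey2⟩
  have hx2 : -1 / V ^ 2 ≠ 0 := div_ne_zero (neg_ne_zero.2 one_ne_zero) (pow_ne_zero 2 hV)
  obtain ⟨e3, f3⟩ := gpi_pt h e2' hx2
  have ex3 : -(i / 2) * (-1 / V ^ 2 - 1 / (-1 / V ^ 2)) = i / 2 * ((1 - V ^ 4) / V ^ 2) := by
    field_simp
    ring
  have ey3 : -((1 + i) / 4) * (i * U / V ^ 3) * (1 + 1 / (-1 / V ^ 2) ^ 2) =
      (1 - i) / 4 * (U * (1 + V ^ 4) / V ^ 3) := by
    field_simp
    linear_combination (-U * (1 + V ^ 4)) * hi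
  refine ⟨?_, ?_⟩
  · rw [← ex3, ← ey3]
    exact e3
  · show gpi I (gpi I (gpi I (pt x y hxy))) = _
    rw [f2', f3, pt_inj]
    exact ⟨ex3, ey3⟩

end

end Pool.Agent.Work.MP_8efaaa_nt.R
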