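import Mathlib
import Pool.Agent.Work.MP_8efaaa_nt.R.FGal
import Pool.Agent.Work.MP_8efaaa_nt.R.FP3
import Pool.Agent.Work.MP_8efaaa_nt.R.FCls

/-!
# R/FShift: the points of the odd ideals and translation by principal ideals (block F)
-/

set_option autoImplicit false

namespace Pool.Agent.Work.MP_8efaaa_nt.R

open NumberField
open scoped Classical nonZeroDivisors

noncomputable section

universe u v

variable {K : Type u} {F : Type v} [Field K] [NumberField K] [Field F] [Algebra K F] {a : ℕ} {s : K} {ζ : F}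
  {X Y : Ideal (𝓞 K) → F}

omit [NumberField K] in
theorem oddI_mul' [NumberField K] {c d : Ideal (𝓞 K)} : OddI (c * d) ↔ OddI c ∧ OddI d := by
  unfold OddI
  rw [map_mul, Nat.odd_mul]

theorem oddI_one : OddI (1 : Ideal (𝓞 K)) := by
  unfold OddI
  rw [map_one]
  exact odd_one

theorem oddI_of_one {c : Ideal (𝓞 K)} (h : Ideal.absNorm c % 4 = 1) : OddI c :=
  Nat.odd_iff.2 (by omega)

theorem oddI_of_one' {c : Ideal (𝓞 K)} (h : Ideal.absNorm c % 8 = 1) : OddI c :=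
  Nat.odd_iff.2 (by omega)

/-- `σ` acts on the values as the ideal `d` -/
def ActsBy (X Y : Ideal (𝓞 K) → F) (σ : F ≃ₐ[K] F) (d : Ideal (𝓞 K)) : Prop :=
  ∀ c, OddI c → σ (X c) = X (d * c) ∧ σ (Y c) = Y (d * c)

/-- the element `√2` -/
def rt (ζ : F) : F := ζ - ζ ^ 3

section zeta

omit [NumberField K]

theorem i_sq (h : ζ ^ 4 = -1) : (ζ ^ 2) ^ 2 = -1 := by rw [← pow_mul, h]

theorem rt_sq (h : ζ ^ 4 = -1) : rt ζ ^ 2 = 2 := by
  unfold rt
  linear_combination (ζ ^ 2 - 2) * h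

theorem pow_mod_zeta (h : ζ ^ 4 = -1) (n : ℕ) : ζ ^ n = ζ ^ (n % 8) := by
  conv_lhs => rw [← Nat.div_add_mod n 8]
  have h8 : ζ ^ 8 = 1 := by
    have : ζ ^ 8 = (ζ ^ 4) ^ 2 := by ring
    rw [this, h]
    ring
  rw [pow_add, pow_mul, h8, one_pow, one_mul]

theorem map_i_one (h : ζ ^ 4 = -1) {σ : F ≃ₐ[K] F} {n : ℕ} (hσ : σ ζ = ζ ^ n) (hn : n % 4 = 1) :
    σ (ζ ^ 2) = ζ ^ 2 := by
  rw [map_pow, hσ, ← pow_mul, pow_mod_zeta h (n * 2)]
  congr 1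
  omega

theorem map_i_three (h : ζ ^ 4 = -1) {σ : F ≃ₐ[K] F} {n : ℕ} (hσ : σ ζ = ζ ^ n) (hn : n % 4 = 3) :
    σ (ζ ^ 2) = -ζ ^ 2 := by
  rw [map_pow, hσ, ← pow_mul, pow_mod_zeta h (n * 2)]
  have : n * 2 % 8 = 6 := by omega
  rw [this]
  linear_combination ζ ^ 2 * h

theorem map_rt_one (h : ζ ^ 4 = -1) {σ : F ≃ₐ[K] F} {n : ℕ} (hσ : σ ζ = ζ ^ n) (hn : n % 8 = 1) :
    σ (rt ζ) = rt ζ := by
  unfold rt
  rw [map_sub, map_pow, hσ, pow_mod_zeta h n, hn, pow_one]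

theorem map_rt_five (h : ζ ^ 4 = -1) {σ : F ≃ₐ[K] F} {n : ℕ} (hσ : σ ζ = ζ ^ n) (hn : n % 8 = 5) :
    σ (rt ζ) = -rt ζ := by
  unfold rt
  rw [map_sub, map_pow, hσ, pow_mod_zeta h n, hn]
  have h5 : ζ ^ 5 = -ζ := by linear_combination ζ * h
  rw [h5]
  ring

end zeta

variable [CharZero F]

/-- the point of the ideal `c` (zero if `c` is not odd) -/
def PP (hG : GDat K F s ζ X Y) (c : Ideal (𝓞 K)) : (cQ F).Point :=
  if h : OddI c then pt (X c) (Y c) (hG.eqn c h) else 0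

theorem PP_eq (hG : GDat K F s ζ X Y) {c : Ideal (𝓞 K)} (h : OddI c) :
    PP hG c = pt (X c) (Y c) (hG.eqn c h) := dif_pos h

theorem gal_PP (hG : GDat K F s ζ X Y) {σ : F ≃ₐ[K] F} {d c : Ideal (𝓞 K)} (hσ : ActsBy X Y σ d)
    (hd : OddI d) (hc : OddI c) : gal σ (PP hG c) = PP hG (d * c) := by
  rw [PP_eq hG hc, PP_eq hG (oddI_mul'.2 ⟨hd, hc⟩), gal_pt, pt_inj]
  exact hσ c hc

/-- the image under `(1 + i) ^ 3` depends only on the class -/
theorem three_PP (hG : GDat K F s ζ X Y) {I : (cQ F).Point →+ (cQ F).Point} (hI : CMI (ζ ^ 2) I)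
    {c : Ideal (𝓞 K)} (hc : OddI c) {δ : 𝓞 K} (hδ : OddI (Ideal.span {δ})) :
    (gpi I)^[3] (PP hG (Ideal.span {δ} * c)) = (gpi I)^[3] (PP hG c) := by
  obtain ⟨V, U, hVU⟩ := hG.tr2
  obtain ⟨a1, a2, a3, a4, a5, a6⟩ := hVU c hc
  have hc' : OddI (Ideal.span {δ} * c) := oddI_mul'.2 ⟨hδ, hc⟩
  obtain ⟨b1, b2, b3, b4, b5, -⟩ := hVU _ hc'
  obtain ⟨c1, c2⟩ := a6 δ hδ
  rw [PP_eq hG hc, PP_eq hG hc']
  obtain ⟨e1, f1⟩ := gpi_three hI (hG.eqn c hc) (hG.ne c hc) a1 a2 a3 a4 a5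
  obtain ⟨e2, f2⟩ := gpi_three hI (hG.eqn _ hc') (hG.ne _ hc') b1 b2 b3 b4 b5
  rw [f1, f2, pt_inj, c1, c2]
  exact ⟨rfl, rfl⟩

/-- the translation of a principal ideal -/
def tt (hG : GDat K F s ζ X Y) (D : Ideal (𝓞 K)) : (cQ F).Point := PP hG D - PP hG 1

theorem iter_sub (f : (cQ F).Point →+ (cQ F).Point) (n : ℕ) (P Q : (cQ F).Point) :
    f^[n] (P - Q) = f^[n] P - f^[n] Q := by
  have := iter_add f n (P - Q) Q
  rw [sub_add_cancel] at this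
  rw [this, add_sub_cancel_right]

theorem three_tt (hG : GDat K F s ζ X Y) {I : (cQ F).Point →+ (cQ F).Point} (hI : CMI (ζ ^ 2) I)
    {δ : 𝓞 K} (hδ : OddI (Ideal.span {δ})) : (gpi I)^[3] (tt hG (Ideal.span {δ})) = 0 := by
  have := three_PP hG hI oddI_one hδ
  rw [mul_one] at this
  unfold tt
  rw [iter_sub, this, sub_self]

/-- multiplication of an ideal of norm `1 (mod 4)` by a principal ideal -/
theorem shift (hG : GDat K F s ζ X Y) {b : Ideal (𝓞 K)} (hb : Ideal.absNorm b % 4 = 1) {δ : 𝓞 K}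
    (hδ : OddI (Ideal.span {δ})) :
    PP hG (Ideal.span {δ} * b) = PP hG b + tt hG (Ideal.span {δ}) := by
  obtain ⟨I, hI⟩ := exists_cmi (i_sq hG.z8)
  have hb' := oddI_of_one hb
  obtain ⟨σ, hσ1, hσ2⟩ := hG.act2 b hb'
  have h1 := gal_PP hG (σ := σ) hσ2 hb' hδ
  have h2 := gal_PP hG (σ := σ) hσ2 hb' oddI_one
  have h3 : gal σ (tt hG (Ideal.span {δ})) = tt hG (Ideal.span {δ}) :=
    hI.gal_three (map_i_one hG.z8 hσ1 hb) (three_tt hG hI hδ)
  rw [mul_one] at h2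
  rw [mul_comm, ← h1, ← h2, ← h3, ← map_add]
  congr 1
  unfold tt
  abel

/-- the translations are additive -/
theorem tt_mul (hb : Base5 K a s) (hG : GDat K F s ζ X Y) {α β : 𝓞 K} (hα : OddI (Ideal.span {α}))
    (hβ : OddI (Ideal.span {β})) :
    tt hG (Ideal.span {α} * Ideal.span {β}) = tt hG (Ideal.span {α}) + tt hG (Ideal.span {β}) := by
  have h1 := shift hG (norm_principal hb hβ) hα
  unfold tt at h1 ⊢
  rw [h1]
  abel

theorem tt_prod (hb : Base5 K a s) (hG : GDat K F s ζ X Y) {ι : Type*} (T : Finset ι) (α : ι → 𝓞 K)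
    (hα : ∀ j, OddI (Ideal.span {α j})) :
    OddI (Ideal.span {∏ j ∈ T, α j}) ∧
    tt hG (Ideal.span {∏ j ∈ T, α j}) = ∑ j ∈ T, tt hG (Ideal.span {α j}) := by
  induction T using Finset.induction_on with
  | empty =>
    rw [Finset.prod_empty, Finset.sum_empty]
    have h1 : Ideal.span {(1 : 𝓞 K)} = 1 := by rw [Ideal.span_singleton_one, Ideal.one_eq_top]
    rw [h1]
    exact ⟨oddI_one, sub_self _⟩
  | insert j T hj ih =>
    rw [Finset.prod_insert hj, Finset.sum_insert hj, ← Ideal.span_singleton_mul_span_singleton]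
    exact ⟨oddI_mul'.2 ⟨hα j, ih.1⟩, by rw [tt_mul hb hG (hα j) ih.1, ih.2]⟩

end

end Pool.Agent.Work.MP_8efaaa_nt.R
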