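import Mathlib
import Pool.Agent.Work.MP_8efaaa_nt.R.Defs

/-!
# Block D, DVal: a valuation of the complex numbers above a prime ideal

`exists_val`: let `A` be the image of `𝓞 F` in `ℂ` (a subring, `RingHom.range`), `P` the image of the
prime ideal `Q` (the map is injective, so `P` is a prime ideal of `A`);
`(LocalSubring.ofPrime A P).exists_le_valuationSubring` (see the proof of
`Ideal.image_subset_nonunits_valuationSubring` in `Mathlib.RingTheory.Valuation.LocalSubring`) gives a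
valuation subring `B` of `ℂ` with `A ≤ B`, whose maximal ideal contains `P`, and the elements of `A \ P`
are units of `B` (they are units of `LocalSubring.ofPrime A P ≤ B`). `V = B.valuation`
(`ValuationSubring.valuation_le_one_iff`, `valuation_lt_one_iff` and the like).

`val_int`: `V n ≤ 1` for integers; if `l` does not divide `n`, `u n + v l = 1` gives `V n = 1`.

`good_val`: for `t ∈ S` take an integer `n ≠ 0` with `n t ∈ 𝓞 F` (`exists_integral_multiple`) and, if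
`t ≠ 0`, one for `t⁻¹`; `N` = product of all of them. `V (n t) ≤ 1`, `V n = 1`, so `V t ≤ 1`, and
`V t⁻¹ ≤ 1`.

`frb_val`: with `n t ∈ 𝓞 F`: `σ (n t) - (n t) ^ l ∈ Q`, so `V (n σ t - n ^ l t ^ l) < 1`; `l ∣ n ^ l - n`
(`ZMod` Fermat) gives `V (n ^ l - n) < 1`, `V (t ^ l) ≤ 1`, so `V (n (σ t - t ^ l)) < 1` and `V n = 1`.
(`Frb` gives `y ∈ Q` with `y = σ x - x ^ l`, so `V y < 1` by `hQ`.)
-/

set_option autoImplicit false

namespace Pool.Agent.Work.MP_8efaaa_nt.R

open NumberField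

theorem exists_val {F : Type*} [Field F] [NumberField F] [Algebra F ℂ] (Q : Ideal (𝓞 F))
    (hQ : Q.IsPrime) : ∃ (Γ : Type) (_ : LinearOrderedCommGroupWithZero Γ) (V : Valuation ℂ Γ),
      (∀ x : 𝓞 F, V (algebraMap F ℂ (algebraMap (𝓞 F) F x)) ≤ 1) ∧
      ∀ x : 𝓞 F, V (algebraMap F ℂ (algebraMap (𝓞 F) F x)) < 1 ↔ x ∈ Q := by
  let φ : 𝓞 F →+* ℂ := (algebraMap F ℂ).comp (algebraMap (𝓞 F) F)
  have hφ : Function.Injective φ :=
    (algebraMap F ℂ).injective.comp (FaithfulSMul.algebraMap_injective (𝓞 F) F)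
  let e : 𝓞 F ≃+* φ.range := RingEquiv.ofBijective φ.rangeRestrict
    ⟨fun x y h => hφ (congrArg Subtype.val h), φ.rangeRestrict_surjective⟩
  let P : Ideal φ.range := Q.comap (e.symm : φ.range →+* 𝓞 F)
  have hP : P.IsPrime := Ideal.comap_isPrime _ _
  obtain ⟨B, hB⟩ := (LocalSubring.ofPrime φ.range P).exists_le_valuationSubring
  obtain ⟨hB1, hB2⟩ := LocalSubring.le_def.1 hB
  have hx : ∀ x : 𝓞 F, φ x ∈ (LocalSubring.ofPrime φ.range P).toSubring := fun x =>
    LocalSubring.le_ofPrime _ _ ⟨x, rfl⟩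
  have hxB : ∀ x : 𝓞 F, φ x ∈ B := fun x => hB1 (hx x)
  have hu : ∀ x : 𝓞 F, IsUnit (⟨φ x, hxB x⟩ : B) ↔ x ∉ Q := by
    intro x
    have h1 := IsLocalization.AtPrime.isUnit_to_map_iff
      (LocalSubring.ofPrime φ.range P).toSubring P (e x)
    have h2 : algebraMap φ.range (LocalSubring.ofPrime φ.range P).toSubring (e x) =
        ⟨φ x, hx x⟩ := rfl
    have h3 : e x ∈ P.primeCompl ↔ x ∉ Q := by
      change ¬ (e.symm (e x) ∈ Q) ↔ _
      rw [RingEquiv.symm_apply_apply]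
    rw [h2, h3] at h1
    rw [← h1]
    constructor
    · intro h
      exact hB2.map_nonunit ⟨φ x, hx x⟩ h
    · intro h
      exact h.map (Subring.inclusion hB1)
  refine ⟨B.ValueGroup, inferInstance, B.valuation, fun x => (B.valuation_le_one_iff _).2 (hxB x),
    fun x => ?_⟩
  have h4 := B.valuation_eq_one_iff ⟨φ x, hxB x⟩
  have h5 := B.valuation_le_one ⟨φ x, hxB x⟩
  rw [hu x] at h4
  change B.valuation (φ x) < 1 ↔ _
  constructor
  · intro h
    by_contra hq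
    exact h.ne (h4.1 hq)
  · intro h
    exact lt_of_le_of_ne h5 fun h6 => h4.2 h6 h

section

variable {F : Type*} [Field F] {Γ : Type*} [LinearOrderedCommGroupWithZero Γ]

private theorem val_nat (V : Valuation F Γ) (n : ℕ) : V (n : F) ≤ 1 := by
  induction n with
  | zero => rw [Nat.cast_zero, map_zero]; exact zero_le_one
  | succ n ih =>
    rw [Nat.cast_succ]
    refine (V.map_add _ _).trans (max_le ih ?_)
    rw [map_one]

private theorem val_z (V : Valuation F Γ) (n : ℤ) : V (n : F) ≤ 1 := by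
  rcases Int.natAbs_eq n with h | h
  · rw [h, Int.cast_natCast]
    exact val_nat V _
  · rw [h, Int.cast_neg, Valuation.map_neg, Int.cast_natCast]
    exact val_nat V _

end

theorem val_int {F : Type*} [Field F] {Γ : Type*} [LinearOrderedCommGroupWithZero Γ]
    (V : Valuation F Γ) {l : ℕ} (hl : l.Prime) (hV : V (l : F) < 1) {n : ℤ}
    (hn : ¬ (l : ℤ) ∣ n) : V (n : F) = 1 := by
  refine le_antisymm (val_z V n) (not_lt.1 fun hlt => ?_)
  have hc : IsCoprime (l : ℤ) n :=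
    (Nat.prime_iff_prime_int.1 hl).coprime_iff_not_dvd.2 hn
  obtain ⟨u, v, huv⟩ := hc
  have h1 : (u : F) * (l : F) + (v : F) * (n : F) = 1 := by exact_mod_cast congrArg (Int.cast : ℤ → F) huv
  have h2 : V ((u : F) * (l : F) + (v : F) * (n : F)) < 1 := by
    refine V.map_add_lt ?_ ?_
    · rw [map_mul]
      exact (mul_le_of_le_one_left' (val_z V u)).trans_lt hV
    · rw [map_mul]
      exact (mul_le_of_le_one_left' (val_z V v)).trans_lt hlt
  rw [h1, map_one] at h2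
  exact lt_irrefl _ h2

private theorem den {F : Type*} [Field F] [NumberField F] (S : Finset F) :
    ∃ N : ℕ, N ≠ 0 ∧ ∀ t ∈ S, ∃ x : 𝓞 F, algebraMap (𝓞 F) F x = (N : F) * t := by
  obtain ⟨y, hy, h⟩ := exists_integral_multiples ℤ ℚ S
  refine ⟨y.natAbs, Int.natAbs_ne_zero.2 hy, fun t ht => ?_⟩
  have h1 : IsIntegral ℤ ((y.natAbs : F) * t) := by
    have h2 := h t ht
    rw [zsmul_eq_mul] at h2
    rcases Int.natAbs_eq y with h3 | h3
    · rwa [h3, Int.cast_natCast] at h2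
    · rw [h3, Int.cast_neg, Int.cast_natCast, neg_mul] at h2
      exact (IsIntegral.neg_iff).1 h2
  exact ⟨⟨_, h1⟩, rfl⟩

private theorem val_den {F : Type*} [Field F] [NumberField F] {Γ : Type}
    [LinearOrderedCommGroupWithZero Γ] (V : Valuation F Γ) {l N : ℕ} (hl : l.Prime) (hN : ¬ l ∣ N)
    (hV : V (l : F) < 1) : V (N : F) = 1 := by
  have h := val_int V hl hV (n := (N : ℤ)) (by exact_mod_cast hN)
  exact_mod_cast h

theorem good_val {F : Type*} [Field F] [NumberField F] (S : Finset F) :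
    ∃ N : ℕ, N ≠ 0 ∧ ∀ (Γ : Type) [LinearOrderedCommGroupWithZero Γ] (V : Valuation F Γ) (l : ℕ),
      l.Prime → ¬ l ∣ N → (∀ x : 𝓞 F, V (algebraMap (𝓞 F) F x) ≤ 1) → V (l : F) < 1 →
      ∀ t ∈ S, V t ≤ 1 ∧ (t ≠ 0 → V t = 1) := by
  classical
  obtain ⟨N, hN, h⟩ := den (S ∪ S.image fun t => t⁻¹)
  refine ⟨N, hN, fun Γ _ V l hl hlN hO hVl t ht => ?_⟩
  have hVN := val_den V hl hlN hVl
  have h1 : ∀ u ∈ S ∪ S.image fun t => t⁻¹, V u ≤ 1 := by
    intro u hu
    obtain ⟨x, hx⟩ := h u hu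
    have h2 := hO x
    rwa [hx, map_mul, hVN, one_mul] at h2
  have h3 := h1 t (Finset.mem_union_left _ ht)
  refine ⟨h3, fun ht0 => le_antisymm h3 ?_⟩
  have h4 := h1 t⁻¹ (Finset.mem_union_right _ (Finset.mem_image_of_mem _ ht))
  rw [map_inv₀] at h4
  have h5 : V t ≠ 0 := (V.ne_zero_iff).2 ht0
  exact (inv_le_one₀ (zero_lt_iff.2 h5)).1 h4

theorem frb_val {K F : Type*} [Field K] [Field F] [NumberField F] [Algebra K F] (S : Finset F) :
    ∃ N : ℕ, N ≠ 0 ∧ ∀ (Γ : Type) [LinearOrderedCommGroupWithZero Γ] (V : Valuation F Γ) (l : ℕ)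
      (Q : Ideal (𝓞 F)) (σ : F ≃ₐ[K] F),
      l.Prime → ¬ l ∣ N → (∀ x : 𝓞 F, V (algebraMap (𝓞 F) F x) ≤ 1) →
      (∀ x : 𝓞 F, V (algebraMap (𝓞 F) F x) < 1 ↔ x ∈ Q) → V (l : F) < 1 → Frb σ Q l →
      ∀ t ∈ S, V (σ t - t ^ l) < 1 := by
  obtain ⟨N, hN, h⟩ := den S
  refine ⟨N, hN, fun Γ _ V l Q σ hl hlN hO hQ hVl hσ t ht => ?_⟩
  have hVN := val_den V hl hlN hVl
  obtain ⟨x, hx⟩ := h t ht
  have hVt : V t ≤ 1 := by
    have h2 := hO x
    rwa [hx, map_mul, hVN, one_mul] at h2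
  obtain ⟨y, hy, hyx⟩ := hσ x
  have h1 : V ((N : F) * σ t - ((N : F) * t) ^ l) < 1 := by
    have h2 := (hQ y).2 hy
    rwa [hyx, hx, map_mul, map_natCast] at h2
  have h3 : V (((N : F) ^ l - N) * t ^ l) < 1 := by
    have hF : Fact l.Prime := ⟨hl⟩
    have h4 : (l : ℤ) ∣ (N : ℤ) ^ l - N := by
      rw [← ZMod.intCast_zmod_eq_zero_iff_dvd]
      push_cast
      rw [ZMod.pow_card, sub_self]
    obtain ⟨k, hk⟩ := h4
    have h5 : ((N : F) ^ l - N) = (l : F) * (k : F) := by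
      exact_mod_cast congrArg (Int.cast : ℤ → F) hk
    rw [h5, map_mul, map_mul, map_pow, mul_assoc]
    exact (mul_le_of_le_one_right' (mul_le_one' (val_z V k) (pow_le_one' hVt l))).trans_lt hVl
  have h6 : (N : F) * (σ t - t ^ l) =
      ((N : F) * σ t - ((N : F) * t) ^ l) + ((N : F) ^ l - N) * t ^ l := by ring
  have h7 : V ((N : F) * (σ t - t ^ l)) < 1 := by
    rw [h6]
    exact V.map_add_lt h1 h3
  rwa [map_mul, hVN, one_mul] at h7

end Pool.Agent.Work.MP_8efaaa_nt.R
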