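import Mathlib
import Pool.Agent.Work.MP_8efaaa_nt.R.Defs
import Pool.Agent.Work.CM.Tw5
import Pool.Agent.Work.CM.Lio
import Pool.Agent.Work.CM.Ident

/-!
# R/SA: the function `s = wp' / (2 (wp - e))` of a pair of lattices of index two
-/

set_option autoImplicit false

namespace Pool.Agent.Work.MP_8efaaa_nt.R

open Pool.Agent.Work.CM Filter Topology
open scoped Pointwise

variable {L L' L'' : Submodule ℤ ℂ}

theorem sg_neg (h : IsLat L) (z : ℂ) : sg L L' (-z) = -sg L L' z := by
  unfold sg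
  rw [h.wp_neg, h.wpd_neg, neg_div]

theorem sg_add (h : IsLat L) (z : ℂ) {l : ℂ} (hl : l ∈ L) : sg L L' (z + l) = sg L L' z := by
  unfold sg
  rw [h.wp_add z hl, h.wpd_add z hl]

theorem sg_den (h : Two L L') {z : ℂ} (hz : z ∉ L') : wp L z - ev L L' ≠ 0 :=
  sub_ne_zero.2 (h.wp_ne hz)

/-- `s` changes sign under translation by a point of order two of its kernel -/
theorem sg_anti (h : Two L L') {u : ℂ} (hu : u ∈ L') (hu' : u ∉ L) {z : ℂ} (hz : z ∉ L') :
    sg L L' (z + u) = -sg L L' z := by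
  have hzL : z ∉ L := fun h1 => hz (h.le h1)
  have hzu : z + u ∉ L' := fun h1 => hz (by simpa using _root_.sub_mem h1 hu)
  have hzuL : z + u ∉ L := fun h1 => hzu (h.le h1)
  have hd1 : HasDerivAt (fun w => wp L (w + u) - ev L L') (wpd L (z + u)) z :=
    ((h.lat.hasDerivAt hzuL).comp_add_const z u).sub_const _
  have hd2 : HasDerivAt (fun w => wp L w - ev L L') (wpd L z) z := (h.lat.hasDerivAt hzL).sub_const _
  have hd3 := hd1.mul hd2
  have hc : (fun w => (wp L (w + u) - ev L L') * (wp L w - ev L L')) =ᶠ[𝓝 z]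
      fun _ => 3 * ev L L' ^ 2 - g2 L / 4 := by
    filter_upwards [h.lat'.compl_mem_nhds hz] with w hw
    exact h.translate hu hu' hw
  have hd4 : HasDerivAt (fun w => (wp L (w + u) - ev L L') * (wp L w - ev L L')) 0 z :=
    (hasDerivAt_const z (3 * ev L L' ^ 2 - g2 L / 4)).congr_of_eventuallyEq hc
  have h5 := hd3.unique hd4
  have n1 := sg_den h hz
  have n2 := sg_den h hzu
  unfold sg
  field_simp
  linear_combination h5

theorem sg_add' (h : Two L L') {u : ℂ} (hu : u ∈ L') {z : ℂ} (hz : z ∉ L') :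
    sg L L' (z + u) ^ 2 = sg L L' z ^ 2 := by
  by_cases hu' : u ∈ L
  · rw [sg_add h.lat z hu']
  · rw [sg_anti h hu hu' hz, neg_sq]

/-- the square of `s` is a shift of the Weierstrass function of the larger lattice -/
theorem sg_sq (h : Two L L') {z : ℂ} (hz : z ∉ L') :
    sg L L' z ^ 2 = wp L' z - ev L' (half L) := by
  have hzL : z ∉ L := fun h1 => hz (h.le h1)
  have n1 := sg_den h hz
  have h1 := h.lat.ode hzL
  have h2 := h.cubic
  rw [h.ev_half, h.wp_eq hz]
  unfold sg
  rw [div_pow, h1]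
  field_simp
  linear_combination 4 * h2

theorem sg_ne (h : Two L L') {z : ℂ} (hz : z ∉ half L) : sg L L' z ≠ 0 := by
  have h2 := h.half_two
  have hz' : z ∉ L' := fun h1 => hz (h2.le h1)
  intro h0
  have h1 := sg_sq h hz'
  rw [h0] at h1
  exact h2.wp_ne hz (by linear_combination -h1)

theorem sg_analytic (h : Two L L') {z : ℂ} (hz : z ∉ L') : AnalyticAt ℂ (sg L L') z := by
  have hzL : z ∉ L := fun h1 => hz (h.le h1)
  have h1 : AnalyticAt ℂ (fun z => wpd L z / (2 * (wp L z - ev L L'))) z := by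
    refine (h.lat.analyticOnNhd' z hzL).fun_div ?_ (mul_ne_zero two_ne_zero (sg_den h hz))
    exact analyticAt_const.fun_mul ((h.lat.analyticOnNhd z hzL).fun_sub analyticAt_const)
  exact h1

/-- the principal part of `s` at `0` -/
theorem sg_tendsto (h : Two L L') : Tendsto (fun z => z * sg L L' z) (𝓝[≠] 0) (𝓝 (-1)) := by
  obtain ⟨φ, hφ, hφ0, hφz⟩ := h.lat.exists_local
  have hd : ∀ᶠ z in 𝓝[≠] (0 : ℂ), wpd L z = -2 / z ^ 3 + deriv φ z := by
    have h1 : ∀ᶠ z in 𝓝 (0 : ℂ), AnalyticAt ℂ φ z := hφ.eventually_analyticAt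
    filter_upwards [mem_nhdsWithin_of_mem_nhds h1, h.lat.compl_mem_nhdsNE 0, self_mem_nhdsWithin]
      with z hz hzL hz0
    have hz0' : z ≠ 0 := hz0
    have h2 : HasDerivAt (wp L) (wpd L z) z := h.lat.hasDerivAt hzL
    have h3 : HasDerivAt (fun z => 1 / z ^ 2 + φ z) (-2 / z ^ 3 + deriv φ z) z := by
      have h4 : HasDerivAt (fun z : ℂ => 1 / z ^ 2) (-2 / z ^ 3) z := by
        have h5 := (hasDerivAt_pow 2 z).inv (pow_ne_zero 2 hz0')
        have h6 : HasDerivAt (fun z : ℂ => 1 / z ^ 2) (-(((2 : ℕ) : ℂ) * z ^ (2 - 1)) / (z ^ 2) ^ 2) z := by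
          refine h5.congr_of_eventuallyEq (Filter.Eventually.of_forall fun w => ?_)
          simp
        refine h6.congr_deriv ?_
        push_cast
        field_simp
      exact h4.add hz.differentiableAt.hasDerivAt
    have h7 : (wp L) = fun z => 1 / z ^ 2 + φ z := funext hφz
    rw [h7] at h2
    exact h2.unique h3
  have c1 : ContinuousAt (deriv φ) 0 := hφ.deriv.continuousAt
  have c2 : ContinuousAt φ 0 := hφ.continuousAt
  have h8 : Tendsto (fun z => (-2 + z ^ 3 * deriv φ z) / (2 * (1 + z ^ 2 * (φ z - ev L L')))) (𝓝 0)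
      (𝓝 (-1)) := by
    have h9 : ContinuousAt (fun z => (-2 + z ^ 3 * deriv φ z) / (2 * (1 + z ^ 2 * (φ z - ev L L')))) 0 := by
      refine ContinuousAt.div (by fun_prop) (by fun_prop) ?_
      norm_num
    have h10 := h9.tendsto
    norm_num at h10
    exact h10
  refine (h8.mono_left nhdsWithin_le_nhds).congr' ?_
  filter_upwards [hd, h.lat'.compl_mem_nhdsNE 0, self_mem_nhdsWithin] with z hz hzL hz0
  have hz0' : z ≠ 0 := hz0
  have n1 := sg_den h hzL
  unfold sg
  have n2 : 1 + z ^ 2 * (φ z - ev L L') ≠ 0 := by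
    intro h0
    apply n1
    rw [hφz]
    field_simp
    linear_combination h0
  rw [hz]
  rw [hφz] at n1 ⊢
  have e1 : 1 / z ^ 2 + φ z - ev L L' = (1 + z ^ 2 * (φ z - ev L L')) / z ^ 2 := by
    field_simp
    ring
  rw [e1]
  field_simp

/-- the product formula for a chain `L, L', L''` which is not `L, L', half L` -/
theorem sg_mul (h : Two L L') (h' : Two L' L'') (hne : L'' ≠ half L) {u : ℂ} (hu : u ∈ L'')
    (hu' : u ∉ L') {z : ℂ} (hz : z ∉ L'') :
    sg L L' z * sg L L' (z + u) = sg L L' u * sg L' L'' z := by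
  have hh := h.half_two
  have huh : u ∉ half L := fun h1 => hne (Two.eq_of_mem h' hh hu h1 hu')
  have hu0 : sg L L' u ≠ 0 := sg_ne h huh
  have e1 : ev L' L'' ≠ ev L' (half L) := Two.ev_ne h' hh hne
  have hsu : sg L L' u ^ 2 = ev L' L'' - ev L' (half L) := by
    rw [sg_sq h hu', h'.ev_eq hu hu']
  have hsq : ∀ w ∉ L'', (sg L L' w * sg L L' (w + u)) ^ 2 = (sg L L' u * sg L' L'' w) ^ 2 := by
    intro w hw
    have hwL' : w ∉ L' := fun h1 => hw (h'.le h1)
    have hwu : w + u ∉ L'' := fun h1 => hw (by simpa using _root_.sub_mem h1 hu)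
    have hwu' : w + u ∉ L' := fun h1 => hwu (h'.le h1)
    have n1 : wp L' w - ev L' L'' ≠ 0 := sub_ne_zero.2 (h'.wp_ne hw)
    have t1 := h'.translate hu hu' hw
    rw [mul_pow, mul_pow, sg_sq h hwL', sg_sq h hwu', hsu, sg_sq h' hw, h'.ev_half, h'.wp_eq hw]
    have c1 := h'.cubic
    have c2 := hh.cubic
    have c3 : 4 * (ev L' L'' ^ 2 + ev L' L'' * ev L' (half L) + ev L' (half L) ^ 2) - g2 L' = 0 := by
      have c4 : (ev L' L'' - ev L' (half L)) *
          (4 * (ev L' L'' ^ 2 + ev L' L'' * ev L' (half L) + ev L' (half L) ^ 2) - g2 L') = 0 := by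
        linear_combination c1 - c2
      exact (mul_eq_zero.1 c4).resolve_left (sub_ne_zero.2 e1)
    have t2 : wp L' (w + u) = ev L' L'' + (3 * ev L' L'' ^ 2 - g2 L' / 4) / (wp L' w - ev L' L'') := by
      rw [← t1, mul_div_assoc, div_self n1]
      ring
    rw [t2]
    have t3 : g2 L' = 4 * (ev L' L'' ^ 2 + ev L' L'' * ev L' (half L) + ev L' (half L) ^ 2) := by
      linear_combination -c3
    rw [t3]
    field_simp
    ring
  have hLc : (L'' : Set ℂ).Countable := h'.lat'.countable
  have hLcl : IsClosed (L'' : Set ℂ) := h'.lat'.isClosed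
  have an1 : AnalyticOnNhd ℂ (fun w => sg L L' w * sg L L' (w + u)) (L'' : Set ℂ)ᶜ := by
    intro w hw
    have hwL' : w ∉ L' := fun h1 => hw (h'.le h1)
    have hwu : w + u ∉ L'' := fun h1 => hw (by simpa using _root_.sub_mem h1 hu)
    have hwu' : w + u ∉ L' := fun h1 => hwu (h'.le h1)
    exact (sg_analytic h hwL').fun_mul (AnalyticAt.fun_comp (g := sg L L') (f := fun w => w + u)
      (sg_analytic h hwu') (by fun_prop))
  have an2 : AnalyticOnNhd ℂ (fun w => sg L L' u * sg L' L'' w) (L'' : Set ℂ)ᶜ := by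
    intro w hw
    exact analyticAt_const.fun_mul (sg_analytic h' hw)
  have hz2 := zero_or_zero hLc hLcl (f := fun w => sg L L' w * sg L L' (w + u) - sg L L' u * sg L' L'' w)
    (g := fun w => sg L L' w * sg L L' (w + u) + sg L L' u * sg L' L'' w)
    (fun w hw => (an1 w hw).fun_sub (an2 w hw)) (fun w hw => (an1 w hw).fun_add (an2 w hw))
    (fun w hw => by
      have := hsq w hw
      linear_combination this)
  rcases hz2 with h1 | h1
  · exact sub_eq_zero.1 (h1 z hz)
  · exfalso
    have l1 : Tendsto (fun w => w * (sg L L' w * sg L L' (w + u) + sg L L' u * sg L' L'' w)) (𝓝[≠] 0)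
        (𝓝 ((-1) * sg L L' u + sg L L' u * (-1))) := by
      have c1 : Tendsto (fun w => sg L L' (w + u)) (𝓝[≠] 0) (𝓝 (sg L L' u)) := by
        have c2 : ContinuousAt (fun w => sg L L' (w + u)) 0 := by
          have c3 : AnalyticAt ℂ (fun w => sg L L' (w + u)) 0 :=
            AnalyticAt.fun_comp (g := sg L L') (f := fun w => w + u)
              (by simpa using sg_analytic h hu') (by fun_prop)
          exact c3.continuousAt
        have c4 := c2.tendsto
        rw [zero_add] at c4
        exact c4.mono_left nhdsWithin_le_nhds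
      have c5 := ((sg_tendsto h).mul c1).add ((sg_tendsto h').const_mul (sg L L' u))
      refine c5.congr fun w => ?_
      ring
    have l2 : Tendsto (fun w => w * (sg L L' w * sg L L' (w + u) + sg L L' u * sg L' L'' w)) (𝓝[≠] 0)
        (𝓝 0) := by
      refine (tendsto_const_nhds (x := (0 : ℂ))).congr' ?_
      filter_upwards [h'.lat'.compl_mem_nhdsNE 0] with w hw
      rw [h1 w hw, mul_zero]
    have l3 := tendsto_nhds_unique l1 l2
    apply hu0
    linear_combination -l3 / 2

end Pool.Agent.Work.MP_8efaaa_nt.R
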