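import Mathlib
import Pool.Agent.Work.MP_8efaaa_nt.R.SA
import Pool.Agent.Work.CM.Tw3

/-!
# R/SB: the three functions of a lattice
-/

set_option autoImplicit false

namespace Pool.Agent.Work.MP_8efaaa_nt.R

open Pool.Agent.Work.CM Filter Topology
open scoped Pointwise

variable {L A B D : Submodule ℤ ℂ}

theorem eq_of_sq {S : Set ℂ} (hc : S.Countable) (hS : IsClosed S) (hS0 : Sᶜ ∈ 𝓝[≠] (0 : ℂ))
    {f g : ℂ → ℂ} (hf : AnalyticOnNhd ℂ f Sᶜ) (hg : AnalyticOnNhd ℂ g Sᶜ)
    (hsq : ∀ z ∉ S, f z ^ 2 = g z ^ 2) {k : ℕ} {c : ℂ} (c0 : c ≠ 0)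
    (lf : Tendsto (fun z => z ^ k * f z) (𝓝[≠] 0) (𝓝 c))
    (lg : Tendsto (fun z => z ^ k * g z) (𝓝[≠] 0) (𝓝 c)) : ∀ z ∉ S, f z = g z := by
  have h2 := zero_or_zero hc hS (f := fun w => f w - g w) (g := fun w => f w + g w)
    (fun w hw => (hf w hw).fun_sub (hg w hw)) (fun w hw => (hf w hw).fun_add (hg w hw))
    (fun w hw => by linear_combination hsq w hw)
  intro z hz
  rcases h2 with h1 | h1
  · exact sub_eq_zero.1 (h1 z hz)
  · exfalso
    have l1 := lf.add lg
    have l2 : Tendsto (fun z => z ^ k * f z + z ^ k * g z) (𝓝[≠] 0) (𝓝 0) := by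
      refine (tendsto_const_nhds (x := (0 : ℂ))).congr' ?_
      filter_upwards [hS0] with w hw
      rw [← mul_add, h1 w hw, mul_zero]
    have l3 := tendsto_nhds_unique l1 l2
    apply c0
    linear_combination l3 / 2

theorem half_dbl (A : Submodule ℤ ℂ) : half ((2 : ℂ) • A) = A := by
  unfold half
  rw [smul_smul, inv_mul_cancel₀ two_ne_zero, one_smul]

theorem dbl_half (A : Submodule ℤ ℂ) : (2 : ℂ) • (half A) = A := by
  unfold half
  rw [smul_smul, mul_inv_cancel₀ two_ne_zero, one_smul]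

theorem two_dbl (h : Two L A) : Two ((2 : ℂ) • A) L := by
  have h1 := (h.smul (m := (2 : ℂ)) two_ne_zero).1.half_two
  rwa [half_dbl] at h1

/-- the function of `L` which belongs to the superlattice `A` of index two -/
noncomputable def gf (L A : Submodule ℤ ℂ) (z : ℂ) : ℂ := sg ((2 : ℂ) • A) L z

theorem gf_def (L A : Submodule ℤ ℂ) : gf L A = sg ((2 : ℂ) • A) L := rfl

theorem gf_neg (h : Two L A) (z : ℂ) : gf L A (-z) = -gf L A z := sg_neg (two_dbl h).lat z

theorem gf_sq (h : Two L A) {z : ℂ} (hz : z ∉ L) : gf L A z ^ 2 = wp L z - ev L A := by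
  have h1 := sg_sq (two_dbl h) hz
  rwa [half_dbl] at h1

theorem gf_ne (h : Two L A) {z : ℂ} (hz : z ∉ A) : gf L A z ≠ 0 :=
  sg_ne (two_dbl h) (by rwa [half_dbl])

theorem gf_analytic (h : Two L A) {z : ℂ} (hz : z ∉ L) : AnalyticAt ℂ (gf L A) z :=
  sg_analytic (two_dbl h) hz

theorem gf_tendsto (h : Two L A) : Tendsto (fun z => z * gf L A z) (𝓝[≠] 0) (𝓝 (-1)) :=
  sg_tendsto (two_dbl h)

theorem mem_dbl {z : ℂ} : z ∈ (2 : ℂ) • A ↔ z / 2 ∈ A := by
  have h := mem_smul_iff (L := A) (m := (2 : ℂ)) two_ne_zero (z := z / 2)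
  rwa [mul_div_cancel₀ z (two_ne_zero (α := ℂ))] at h

/-- translation by a point of `L` -/
theorem gf_add_mem (h : Two L A) {l : ℂ} (hl : l / 2 ∈ A) (z : ℂ) : gf L A (z + l) = gf L A z :=
  sg_add (two_dbl h).lat z (mem_dbl.2 hl)

theorem gf_add_anti (h : Two L A) {l : ℂ} (hl : l ∈ L) (hl' : l / 2 ∉ A) {z : ℂ} (hz : z ∉ L) :
    gf L A (z + l) = -gf L A z :=
  sg_anti (two_dbl h) hl (fun h1 => hl' (mem_dbl.1 h1)) hz

theorem gf_at (h : Two L A) {z : ℂ} (hz : z ∈ A) (hz' : z ∉ L) : gf L A z = 0 := by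
  have h1 := gf_sq h hz'
  rw [h.ev_eq hz hz', sub_self] at h1
  exact pow_eq_zero_iff (two_ne_zero) |>.1 h1

/-- three different superlattices of index two -/
structure Tri (L A B D : Submodule ℤ ℂ) : Prop where
  a : Two L A
  b : Two L B
  d : Two L D
  ab : A ≠ B
  bd : B ≠ D
  da : D ≠ A

theorem Tri.rot (h : Tri L A B D) : Tri L B D A := ⟨h.b, h.d, h.a, h.bd, h.da, h.ab⟩

theorem Tri.swap (h : Tri L A B D) : Tri L B A D := ⟨h.b, h.a, h.d, h.ab.symm, h.da.symm, h.bd.symm⟩

theorem Tri.sum (h : Tri L A B D) : ev L A + ev L B + ev L D = 0 :=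
  Two.ev_sum h.a h.b h.d h.ab h.bd h.da

theorem Tri.ne_ab (h : Tri L A B D) : ev L A - ev L B ≠ 0 := sub_ne_zero.2 (Two.ev_ne h.a h.b h.ab)

/-- the elementary symmetric functions of the three values -/
theorem Tri.inv (h : Tri L A B D) :
    g2 L = -4 * (ev L A * ev L B + ev L B * ev L D + ev L D * ev L A) ∧
      g3 L = 4 * (ev L A * ev L B * ev L D) := by
  have h1 := h.sum
  have c1 := h.a.cubic
  have c2 := h.b.cubic
  have n := h.ne_ab
  have hd : ev L D = -ev L A - ev L B := by linear_combination h1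
  have c3 : 4 * (ev L A ^ 2 + ev L A * ev L B + ev L B ^ 2) - g2 L = 0 := by
    have c4 : (ev L A - ev L B) * (4 * (ev L A ^ 2 + ev L A * ev L B + ev L B ^ 2) - g2 L) = 0 := by
      linear_combination c1 - c2
    exact (mul_eq_zero.1 c4).resolve_left n
  have e2 : g2 L = 4 * (ev L A ^ 2 + ev L A * ev L B + ev L B ^ 2) := by linear_combination -c3
  refine ⟨?_, ?_⟩
  · rw [hd, e2]
    ring
  · have e3 : g3 L = 4 * ev L A ^ 3 - g2 L * ev L A := by linear_combination -c1
    rw [e3, e2, hd]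
    ring

theorem Tri.mem_inter (h : Tri L A B D) {z : ℂ} (ha : z ∈ A) (hb : z ∈ B) : z ∈ L := by
  by_contra hz
  exact h.ab (Two.eq_of_mem h.a h.b ha hb hz)

theorem compl_nhds (h : IsLat L) : (L : Set ℂ)ᶜ ∈ 𝓝[≠] (0 : ℂ) := h.compl_mem_nhdsNE 0

/-- `wp' = 2 f1 f2 f3` -/
theorem Tri.wpd_eq (h : Tri L A B D) {z : ℂ} (hz : z ∉ L) :
    wpd L z = 2 * (gf L A z * gf L B z * gf L D z) := by
  obtain ⟨i2, i3⟩ := h.inv
  have hsum := h.sum
  refine eq_of_sq (S := (L : Set ℂ)) h.a.lat.countable h.a.lat.isClosed (compl_nhds h.a.lat)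
    (f := wpd L) (g := fun z => 2 * (gf L A z * gf L B z * gf L D z)) h.a.lat.analyticOnNhd'
    (fun w hw => analyticAt_const.fun_mul (((gf_analytic h.a hw).fun_mul (gf_analytic h.b hw)).fun_mul
      (gf_analytic h.d hw))) ?_ (k := 3) (c := -2) (by norm_num) ?_ ?_ z hz
  · intro w hw
    have e : (2 * (gf L A w * gf L B w * gf L D w)) ^ 2 =
        4 * (gf L A w ^ 2 * gf L B w ^ 2 * gf L D w ^ 2) := by ring
    rw [e, gf_sq h.a hw, gf_sq h.b hw, gf_sq h.d hw, h.a.lat.ode hw, i2, i3]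
    linear_combination (4 * wp L w ^ 2) * hsum
  · have l4 : Tendsto (fun z => z ^ 3 * wpd L z) (𝓝[≠] 0) (𝓝 (-2)) := by
      obtain ⟨φ, hφ, hφ0, hφz⟩ := h.a.lat.exists_local
      have hd : ∀ᶠ z in 𝓝[≠] (0 : ℂ), wpd L z = -2 / z ^ 3 + deriv φ z := by
        have h1 : ∀ᶠ z in 𝓝 (0 : ℂ), AnalyticAt ℂ φ z := hφ.eventually_analyticAt
        filter_upwards [mem_nhdsWithin_of_mem_nhds h1, h.a.lat.compl_mem_nhdsNE 0, self_mem_nhdsWithin]
          with z hz hzL hz0
        have hz0' : z ≠ 0 := hz0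
        have h2 : HasDerivAt (wp L) (wpd L z) z := h.a.lat.hasDerivAt hzL
        have h3 : HasDerivAt (fun z => 1 / z ^ 2 + φ z) (-2 / z ^ 3 + deriv φ z) z := by
          have h4 : HasDerivAt (fun z : ℂ => 1 / z ^ 2) (-2 / z ^ 3) z := by
            have h5 := (hasDerivAt_pow 2 z).inv (pow_ne_zero 2 hz0')
            have h6 : HasDerivAt (fun z : ℂ => 1 / z ^ 2) (-(((2 : ℕ) : ℂ) * z ^ (2 - 1)) / (z ^ 2) ^ 2) z := by
              refine h5.congr_of_eventuallyEq (Filter.Eventually.of_forall fun w => ?_)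
              simp
            refine h6.congr_deriv ?_
            push_cast
            field_simp
          exact h4.add hz.differentiableAt.hasDerivAt
        have h7 : (wp L) = fun z => 1 / z ^ 2 + φ z := funext hφz
        rw [h7] at h2
        exact h2.unique h3
      have c1 : ContinuousAt (deriv φ) 0 := hφ.deriv.continuousAt
      have h8 : Tendsto (fun z => -2 + z ^ 3 * deriv φ z) (𝓝 0) (𝓝 (-2)) := by
        have h9 : ContinuousAt (fun z => -2 + z ^ 3 * deriv φ z) 0 := by fun_prop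
        have h10 := h9.tendsto
        norm_num at h10
        exact h10
      refine (h8.mono_left nhdsWithin_le_nhds).congr' ?_
      filter_upwards [hd, self_mem_nhdsWithin] with z hz hz0
      have hz0' : z ≠ 0 := hz0
      rw [hz]
      field_simp
    exact l4
  · have l1 := ((gf_tendsto h.a).mul (gf_tendsto h.b)).mul (gf_tendsto h.d)
    have l2 := l1.const_mul 2
    have e : (2 : ℂ) * (-1 * -1 * -1) = -2 := by norm_num
    rw [e] at l2
    refine l2.congr fun w => ?_
    ring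

/-- the derivative of the function of `A` is the product of the two others -/
theorem Tri.hasDerivAt (h : Tri L A B D) {z : ℂ} (hz : z ∉ L) :
    HasDerivAt (gf L A) (gf L B z * gf L D z) z := by
  have key : ∀ w ∉ L, gf L A w ≠ 0 → deriv (gf L A) w = gf L B w * gf L D w := by
    intro w hw hw0
    have d1 : HasDerivAt (gf L A) (deriv (gf L A) w) w := (gf_analytic h.a hw).differentiableAt.hasDerivAt
    have d2 := d1.pow 2
    have d3 : HasDerivAt (fun w => wp L w - ev L A) (wpd L w) w := (h.a.lat.hasDerivAt hw).sub_const _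
    have hc : (fun w => gf L A w ^ 2) =ᶠ[𝓝 w] fun w => wp L w - ev L A := by
      filter_upwards [h.a.lat.compl_mem_nhds hw] with v hv
      exact gf_sq h.a hv
    have d4 := (d3.congr_of_eventuallyEq hc).unique d2
    rw [h.wpd_eq hw] at d4
    have d5 : gf L A w * (deriv (gf L A) w - gf L B w * gf L D w) = 0 := by
      push_cast at d4
      linear_combination -d4 / 2
    exact sub_eq_zero.1 ((mul_eq_zero.1 d5).resolve_left hw0)
  have h1 : deriv (gf L A) z = gf L B z * gf L D z := by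
    by_cases hz0 : gf L A z = 0
    · have hzA : z ∈ A := by
        by_contra hzA
        exact gf_ne h.a hzA hz0
      have hc1 : ContinuousAt (deriv (gf L A)) z := (gf_analytic h.a hz).deriv.continuousAt
      have hc2 : ContinuousAt (fun w => gf L B w * gf L D w) z :=
        ((gf_analytic h.b hz).fun_mul (gf_analytic h.d hz)).continuousAt
      have l1 : Tendsto (deriv (gf L A)) (𝓝[≠] z) (𝓝 (deriv (gf L A) z)) :=
        hc1.tendsto.mono_left nhdsWithin_le_nhds
      have l2 : Tendsto (fun w => gf L B w * gf L D w) (𝓝[≠] z) (𝓝 (gf L B z * gf L D z)) :=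
        hc2.tendsto.mono_left nhdsWithin_le_nhds
      refine tendsto_nhds_unique l1 (l2.congr' ?_)
      filter_upwards [h.a.lat'.compl_mem_nhdsNE z] with w hw
      exact (key w (fun h2 => hw (h.a.le h2)) (gf_ne h.a hw)).symm
    · exact key z hz hz0
  rw [← h1]
  exact (gf_analytic h.a hz).differentiableAt.hasDerivAt

/-- translation of the function of `B` by a point of `A` -/
theorem Tri.shift (h : Tri L A B D) {a : ℂ} (ha : a ∈ A) (ha' : a ∉ L) {z : ℂ} (hz : z ∉ A) :
    gf L B (z + a) * gf L A z = gf L B a * gf L D z := by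
  obtain ⟨i2, i3⟩ := h.inv
  have hsum := h.sum
  have hb : gf L B a ≠ 0 := gf_ne h.b (fun h1 => ha' (h.mem_inter ha h1))
  have hA : ∀ w ∉ A, w ∉ L ∧ w + a ∉ L := fun w hw =>
    ⟨fun h1 => hw (h.a.le h1), fun h1 => hw (by simpa using _root_.sub_mem (h.a.le h1) ha)⟩
  refine eq_of_sq (S := (A : Set ℂ)) h.a.lat'.countable h.a.lat'.isClosed (compl_nhds h.a.lat')
    (f := fun z => gf L B (z + a) * gf L A z) (g := fun z => gf L B a * gf L D z)
    (fun w hw => ?_) (fun w hw => analyticAt_const.fun_mul (gf_analytic h.d (hA w hw).1)) ?_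
    (k := 1) (c := gf L B a * -1) (mul_ne_zero hb (by norm_num)) ?_ ?_ z hz
  · exact (AnalyticAt.fun_comp (g := gf L B) (f := fun w => w + a) (gf_analytic h.b (hA w hw).2)
      (by fun_prop)).fun_mul (gf_analytic h.a (hA w hw).1)
  · intro w hw
    obtain ⟨h1, h2⟩ := hA w hw
    have n1 : wp L w - ev L A ≠ 0 := sub_ne_zero.2 (h.a.wp_ne hw)
    have t1 := h.a.translate ha ha' hw
    rw [mul_pow, mul_pow, gf_sq h.b h2, gf_sq h.a h1, gf_sq h.b ha', gf_sq h.d h1, h.a.ev_eq ha ha']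
    rw [i2] at t1
    linear_combination t1 + 2 * ev L A * hsum
  · have c1 : Tendsto (fun w => gf L B (w + a)) (𝓝[≠] 0) (𝓝 (gf L B a)) := by
      have c3 : AnalyticAt ℂ (fun w => gf L B (w + a)) 0 :=
        AnalyticAt.fun_comp (g := gf L B) (f := fun w => w + a)
          (by simpa using gf_analytic h.b ha') (by fun_prop)
      have c4 := c3.continuousAt.tendsto
      rw [zero_add] at c4
      exact c4.mono_left nhdsWithin_le_nhds
    refine (c1.mul (gf_tendsto h.a)).congr fun w => ?_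
    ring
  · refine ((gf_tendsto h.d).const_mul (gf L B a)).congr fun w => ?_
    ring

end Pool.Agent.Work.MP_8efaaa_nt.R
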