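import Mathlib
import Pool.Agent.Work.MP_8efaaa_nt.R.SB

/-!
# R/SC: values of the three functions at quarter points
-/

set_option autoImplicit false

namespace Pool.Agent.Work.MP_8efaaa_nt.R

open Pool.Agent.Work.CM Filter Topology
open scoped Pointwise

variable {L A B D C E : Submodule ℤ ℂ}

theorem Tri.sw (h : Tri L A B D) : Tri L A D B := ⟨h.a, h.d, h.b, h.da.symm, h.bd.symm, h.ab.symm⟩

theorem exists_tri (h : Two L A) : ∃ B D, Tri L A B D := by
  obtain ⟨B, hB, hne⟩ := h.lat.exists_two A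
  obtain ⟨D, hD, h1, h2⟩ := Two.third h hB hne.symm
  exact ⟨B, D, h, hB, hD, hne.symm, h2.symm, h1⟩

theorem exists_tri' (h : Two L A) (hB : Two L B) (hne : A ≠ B) : ∃ D, Tri L A B D := by
  obtain ⟨D, hD, h1, h2⟩ := Two.third h hB hne
  exact ⟨D, h, hB, hD, hne, h2.symm, h1⟩

theorem half_of_dbl {z : ℂ} : (2 * z) / 2 = z := by
  rw [mul_comm, mul_div_assoc, div_self two_ne_zero, mul_one]

/-- a point of order two not in `A` has double in `L` but not in the lattice of periods of the function of `A` -/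
theorem Tri.anti2 (h : Tri L A B D) {b : ℂ} (hb : b ∈ B) (hb' : b ∉ L) {z : ℂ} (hz : z ∉ L) :
    gf L A (z + 2 * b) = -gf L A z :=
  gf_add_anti h.a (h.b.two_mem hb) (by
    rw [half_of_dbl]
    exact fun h1 => hb' (h.mem_inter h1 hb)) hz

theorem Tri.per2 (h : Two L A) {a : ℂ} (ha : a ∈ A) (z : ℂ) : gf L A (z + 2 * a) = gf L A z :=
  gf_add_mem h (by rwa [half_of_dbl]) z

private theorem mul_const_aux (h : Tri L A B D) {a : ℂ} (ha : a ∈ A) (ha' : a ∉ L) {z : ℂ}
    (hz : z ∉ A) (hzB : z ∉ B) : gf L A (z + a) * gf L A z = -(gf L B a * gf L D a) := by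
  have hza : z + a ∉ A := fun h1 => hz (by simpa using _root_.sub_mem h1 ha)
  have hzL : z ∉ L := fun h1 => hz (h.a.le h1)
  have e1 := h.shift ha ha' hza
  have e2 := h.sw.shift ha ha' hz
  have e3 : gf L B (z + a + a) = -gf L B z := by
    have := h.swap.anti2 ha ha' hzL
    rw [← this]
    congr 1
    ring
  rw [e3] at e1
  have n := gf_ne h.b hzB
  apply mul_left_cancel₀ n
  linear_combination -(gf L A z) * e1 - gf L B a * e2

/-- the product of the function of `A` with its translate by a point of `A` is constant -/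
theorem Tri.mul_const (h : Tri L A B D) {a : ℂ} (ha : a ∈ A) (ha' : a ∉ L) {z : ℂ} (hz : z ∉ A) :
    gf L A (z + a) * gf L A z = -(gf L B a * gf L D a) := by
  by_cases hzB : z ∈ B
  · have hzD : z ∉ D := fun h1 => hz (h.a.le (by
      by_contra hzL
      exact h.bd (Two.eq_of_mem h.b h.d hzB h1 hzL)))
    rw [mul_const_aux h.sw ha ha' hz hzD]
    ring
  · exact mul_const_aux h ha ha' hz hzB

theorem Tri.val (h : Tri L A B D) {b : ℂ} (hb : b ∈ B) (hb' : b ∉ L) :
    gf L A b ^ 2 = ev L B - ev L A := by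
  rw [gf_sq h.a hb', h.b.ev_eq hb hb']

theorem Tri.val_ne (h : Tri L A B D) {b : ℂ} (hb : b ∈ B) (hb' : b ∉ L) : gf L A b ≠ 0 :=
  gf_ne h.a fun h1 => hb' (h.mem_inter h1 hb)

theorem Tri.sgB (h : Tri L A B D) {z : ℂ} (hz : z ∉ B) :
    sg L B z * gf L B z = gf L A z * gf L D z := by
  have hzL : z ∉ L := fun h1 => hz (h.b.le h1)
  have n := gf_ne h.b hz
  unfold sg
  rw [← gf_sq h.b hzL, h.wpd_eq hzL]
  field_simp

theorem Tri.notMem_q (h : Tri L A B D) {q : ℂ} (hb' : 2 * q ∉ L) : q ∉ B :=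
  fun h1 => hb' (h.b.two_mem h1)

/-- the square of the function of `A` at a quarter point -/
theorem Tri.qsq (h : Tri L A B D) {q : ℂ} (hb : 2 * q ∈ B) (hb' : 2 * q ∉ L) :
    gf L A q ^ 2 = gf L A (2 * q) * sg L B q := by
  have hq : q ∉ B := h.notMem_q hb'
  have hqL : -q ∉ L := fun h1 => hq (h.b.le (by simpa using neg_mem h1))
  have e1 := sg_mul (two_dbl h.a) h.b (by rw [half_dbl]; exact h.ab.symm) hb hb' hq
  rw [← gf_def] at e1
  have e2 : gf L A (q + 2 * q) = gf L A q := by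
    have e3 := h.anti2 hb hb' hqL
    rw [gf_neg h.a, neg_neg] at e3
    rw [← e3]
    congr 1
    ring
  rw [e2] at e1
  rw [← e1]
  ring

theorem Tri.sg_q_ne (h : Tri L A B D) {q : ℂ} (hb' : 2 * q ∉ L) : sg L B q ≠ 0 :=
  sg_ne h.b fun h1 => hb' (mem_half.1 h1)

theorem Tri.qB (h : Tri L A B D) {q : ℂ} (hb : 2 * q ∈ B) (hb' : 2 * q ∉ L) :
    gf L B q ^ 2 = gf L A (2 * q) * gf L D (2 * q) := by
  have e1 := h.qsq hb hb'
  have e3 : Tri L D B A := ⟨h.d, h.b, h.a, h.bd.symm, h.ab.symm, h.da.symm⟩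
  have e4 := e3.qsq hb hb'
  have e5 := h.sgB (h.notMem_q hb')
  have n := h.sg_q_ne hb'
  apply mul_left_cancel₀ (pow_ne_zero 2 n)
  have e6 : (sg L B q * gf L B q) ^ 2 = (gf L A q * gf L D q) ^ 2 := by rw [e5]
  rw [mul_pow, mul_pow, e1, e4] at e6
  rw [e6]
  ring

/-- the function of the next pair at a quarter point -/
theorem Tri.qsum (h : Tri L A B D) {q : ℂ} (hb : 2 * q ∈ B) (hb' : 2 * q ∉ L) :
    sg L B q = gf L A (2 * q) + gf L D (2 * q) := by
  have hq : q ∉ L := fun h1 => h.notMem_q hb' (h.b.le h1)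
  have e1 := h.qsq hb hb'
  have e2 := h.qB hb hb'
  have e3 := h.val hb hb'
  have e4 := gf_sq h.a hq
  have e5 := gf_sq h.b hq
  have n := h.val_ne hb hb'
  apply mul_left_cancel₀ n
  linear_combination -e1 + e2 - e3 + e4 - e5

theorem Tri.qdiff (h : Tri L A B D) {q : ℂ} (hb : 2 * q ∈ B) (hb' : 2 * q ∉ L) {a : ℂ} (ha : a ∈ A)
    (ha' : a ∉ L) : sg L B (q + a) = gf L A (2 * q) - gf L D (2 * q) := by
  have h2a : 2 * a ∈ L := h.a.two_mem ha
  have e0 : 2 * (q + a) = 2 * q + 2 * a := by ring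
  have e1 := h.qsum (q := q + a) (by rw [e0]; exact add_mem hb (h.b.le h2a))
    (by
      rw [e0]
      exact fun h1 => hb' (by simpa using _root_.sub_mem h1 h2a))
  rw [e1, e0, Tri.per2 h.a ha, h.rot.rot.anti2 ha ha' hb', sub_eq_add_neg]

/-- the values of the three superlattices of the next lattice -/
theorem Tri.landen (h : Tri L A B D) {q : ℂ} (hb : 2 * q ∈ B) (hb' : 2 * q ∉ L)
    (hC : Two B C) (hq : q ∈ C) : ev B C = ev L B + 2 * (gf L A (2 * q) * gf L D (2 * q)) := by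
  have hqB : q ∉ B := h.notMem_q hb'
  have hqL : q ∉ L := fun h1 => hqB (h.b.le h1)
  have e2 := h.qB hb hb'
  have e5 := gf_sq h.b hqL
  have t1 := h.b.translate (u := -(2 * q)) (neg_mem hb)
    (fun h1 => hb' (by simpa using neg_mem h1)) hqB
  have e6 : q + -(2 * q) = -q := by ring
  rw [e6, h.b.lat.wp_neg] at t1
  rw [← hC.ev_eq hq hqB, h.b.wp_eq hqB, ← t1]
  have n : wp L q - ev L B ≠ 0 := sub_ne_zero.2 (h.b.wp_ne hqB)
  rw [mul_div_assoc, div_self n, mul_one]
  linear_combination -2 * e5 + 2 * e2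

theorem Tri.landen' (h : Tri L A B D) {q : ℂ} (hb : 2 * q ∈ B) (hb' : 2 * q ∉ L)
    (hT : Tri B (half L) C E) (hq : q ∈ C) :
    ev B E = ev L B - 2 * (gf L A (2 * q) * gf L D (2 * q)) ∧
      ev B C - ev B E = 4 * (gf L A (2 * q) * gf L D (2 * q)) := by
  have e1 := h.landen hb hb' hT.b hq
  have e2 := hT.sum
  have e3 := h.b.ev_half
  constructor
  · linear_combination e2 - e1 - e3
  · linear_combination -e2 + 2 * e1 + e3

/-- the function of the next lattice which belongs to the half of a point of order two -/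
theorem gsum (h : Two L A) {c : ℂ} (hc : c ∈ A) (hc' : c ∉ L) (hC : Two A C) (hcC : c / 2 ∈ C)
    {z : ℂ} (hz : z ∉ A) : gf A C z = gf L A z + gf L A (z + c) := by
  obtain ⟨B, D, hT⟩ := exists_tri h
  set k : ℂ := -(gf L B c * gf L D c) with hk
  have hcA : c / 2 ∉ A := fun h1 => hc' (by
    have := h.two_mem h1
    rwa [mul_div_cancel₀ c (two_ne_zero (α := ℂ))] at this)
  have hcA' : -(c / 2) ∉ A := fun h1 => hcA (by simpa using neg_mem h1)
  have hcL : c / 2 ∉ L := fun h1 => hcA (h.le h1)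
  have hA : ∀ w ∉ A, w ∉ L ∧ w + c ∉ L := fun w hw =>
    ⟨fun h1 => hw (h.le h1), fun h1 => hw (by simpa using _root_.sub_mem (h.le h1) hc)⟩
  have m1 : ∀ w ∉ A, gf L A (w + c) * gf L A w = k := fun w hw => hT.mul_const hc hc' hw
  have x1 : gf L A (c / 2) ^ 2 = -k := by
    have m2 := m1 _ hcA'
    have e1 : -(c / 2) + c = c / 2 := by ring
    rw [e1, gf_neg h] at m2
    linear_combination -m2
  have hk0 : k ≠ 0 := by
    intro h0
    rw [h0, neg_zero] at x1
    exact gf_ne h hcA (pow_eq_zero_iff two_ne_zero |>.1 x1)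
  have d1 : ∀ w ∉ A, wp A w = wp L w + k ^ 2 / (wp L w - ev L A) := by
    intro w hw
    have t1 := h.translate hc hc' hw
    have s1 := gf_sq h (hA w hw).1
    have s2 := gf_sq h (hA w hw).2
    rw [h.wp_eq hw, ← t1, ← s1, ← s2, ← m1 w hw]
    ring
  have e2 : ev A C = ev L A - 2 * k := by
    rw [← hC.ev_eq hcC hcA, d1 _ hcA]
    have s1 := gf_sq h hcL
    rw [x1] at s1
    rw [← s1]
    field_simp
    linear_combination -s1
  refine eq_of_sq (S := (A : Set ℂ)) h.lat'.countable h.lat'.isClosed (compl_nhds h.lat')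
    (f := gf A C) (g := fun z => gf L A z + gf L A (z + c))
    (fun w hw => gf_analytic hC hw) (fun w hw => ?_) ?_ (k := 1) (c := -1) (by norm_num) ?_ ?_ z hz
  · exact (gf_analytic h (hA w hw).1).fun_add (AnalyticAt.fun_comp (g := gf L A) (f := fun w => w + c)
      (gf_analytic h (hA w hw).2) (by fun_prop))
  · intro w hw
    have n : gf L A w ≠ 0 := gf_ne h hw
    have s1 := gf_sq h (hA w hw).1
    rw [gf_sq hC hw, d1 w hw, e2, ← s1]
    have m2 := m1 w hw
    have m3 : gf L A (w + c) = k / gf L A w := by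
      rw [← m2, mul_div_assoc, div_self n, mul_one]
    have s2 : wp L w = gf L A w ^ 2 + ev L A := by rw [s1]; ring
    rw [m3, s2]
    field_simp
    ring
  · refine (gf_tendsto hC).congr fun w => ?_
    ring
  · have c1 : Tendsto (fun w => gf L A (w + c)) (𝓝[≠] 0) (𝓝 (gf L A c)) := by
      have c3 : AnalyticAt ℂ (fun w => gf L A (w + c)) 0 :=
        AnalyticAt.fun_comp (g := gf L A) (f := fun w => w + c)
          (by simpa using gf_analytic h hc') (by fun_prop)
      have c4 := c3.continuousAt.tendsto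
      rw [zero_add] at c4
      exact c4.mono_left nhdsWithin_le_nhds
    have c5 : Tendsto (fun w : ℂ => w) (𝓝[≠] 0) (𝓝 0) := by
      have : Tendsto (fun w : ℂ => w) (𝓝 0) (𝓝 0) := tendsto_id
      exact this.mono_left nhdsWithin_le_nhds
    have c6 := (gf_tendsto h).add (c5.mul c1)
    rw [zero_mul, add_zero] at c6
    refine c6.congr fun w => ?_
    ring

/-- the symplectic relations of the six values -/
theorem Tri.sympl (h : Tri L A B D) {a b : ℂ} (ha : a ∈ A) (ha' : a ∉ L) (hb : b ∈ B)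
    (hb' : b ∉ L) : gf L A (b + a) * gf L B a = gf L A b * gf L D a ∧
      gf L B (b + a) * gf L A b = gf L B a * gf L D b := by
  have h1 : b ∉ A := fun h1 => hb' (h.mem_inter h1 hb)
  have h2 : a ∉ B := fun h1 => ha' (h.mem_inter ha h1)
  have e1 := h.shift ha ha' h1
  have e2 := h.swap.shift hb hb' h2
  refine ⟨?_, e1⟩
  rw [add_comm b a]
  exact e2

end Pool.Agent.Work.MP_8efaaa_nt.R
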