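import Mathlib
import Pool.Agent.Work.MP_8efaaa_nt.R.SC

/-!
# R/SD: the chain of lattices of a pair `(M, w)`
-/

set_option autoImplicit false

namespace Pool.Agent.Work.MP_8efaaa_nt.R

open Pool.Agent.Work.CM
open scoped Pointwise

variable {M : Submodule ℤ ℂ} {w : ℂ}

theorem mem_Ch {k : ℕ} {z : ℂ} : z ∈ Ch M w k ↔ ∃ m ∈ M, ∃ n : ℤ, z = m + n * (2 ^ k * w) := by
  unfold Ch
  rw [Submodule.mem_sup]
  constructor
  · rintro ⟨m, hm, y, hy, rfl⟩
    obtain ⟨n, rfl⟩ := Submodule.mem_span_singleton.1 hy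
    exact ⟨m, hm, n, by rw [zsmul_eq_mul]⟩
  · rintro ⟨m, hm, n, rfl⟩
    exact ⟨m, hm, _, Submodule.mem_span_singleton.2 ⟨n, rfl⟩, by rw [zsmul_eq_mul]⟩

theorem le_Ch (k : ℕ) : M ≤ Ch M w k := le_sup_left

theorem pow_mem_Ch (k : ℕ) : (2 : ℂ) ^ k * w ∈ Ch M w k :=
  mem_Ch.2 ⟨0, zero_mem _, 1, by push_cast; ring⟩

theorem intmul_mem {L : Submodule ℤ ℂ} {z : ℂ} (hz : z ∈ L) (n : ℤ) : (n : ℂ) * z ∈ L := by
  have := L.smul_mem n hz
  rwa [zsmul_eq_mul] at this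

theorem natmul_mem {L : Submodule ℤ ℂ} {z : ℂ} (hz : z ∈ L) (n : ℕ) : (n : ℂ) * z ∈ L := by
  have := intmul_mem hz n
  push_cast at this
  exact this

theorem int_mem_M (h : Fr M w) {n : ℤ} : (n : ℂ) * w ∈ M ↔ (32 : ℤ) ∣ n := by
  constructor
  · intro hn
    have hg : ((Int.gcd n 32 : ℕ) : ℂ) * w ∈ M := by
      have h1 := Int.gcd_eq_gcd_ab n 32
      have h2 : ((Int.gcd n 32 : ℕ) : ℂ) = (n : ℂ) * (Int.gcdA n 32 : ℂ) + 32 * (Int.gcdB n 32 : ℂ) := by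
        have := congrArg (fun z : ℤ => (z : ℂ)) h1
        push_cast at this
        exact this
      rw [h2]
      have e : ((n : ℂ) * (Int.gcdA n 32 : ℂ) + 32 * (Int.gcdB n 32 : ℂ)) * w =
          (Int.gcdA n 32 : ℂ) * ((n : ℂ) * w) + (Int.gcdB n 32 : ℂ) * (32 * w) := by ring
      rw [e]
      exact add_mem (intmul_mem hn _) (intmul_mem h.mem _)
    have hd : Int.gcd n 32 ∣ 2 ^ 5 := by
      have := Int.gcd_dvd_right (a := n) (b := 32)
      exact_mod_cast this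
    obtain ⟨i, hi, hi2⟩ := (Nat.dvd_prime_pow Nat.prime_two).1 hd
    rcases Nat.lt_or_ge i 5 with h5 | h5
    · exfalso
      apply h.nmem
      rw [hi2] at hg
      have e : (16 : ℂ) * w = ((2 ^ (4 - i) : ℕ) : ℂ) * (((2 ^ i : ℕ) : ℂ) * w) := by
        rw [← mul_assoc, ← Nat.cast_mul, ← pow_add, Nat.sub_add_cancel (by omega)]
        norm_num
      rw [e]
      exact natmul_mem hg _
    · have h6 : i = 5 := le_antisymm hi h5
      have h7 : (Int.gcd n 32 : ℤ) ∣ n := Int.gcd_dvd_left _ _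
      rw [hi2, h6] at h7
      exact_mod_cast h7
  · rintro ⟨c, rfl⟩
    have e : (((32 * c : ℤ)) : ℂ) * w = (c : ℂ) * (32 * w) := by
      push_cast
      ring
    rw [e]
    exact intmul_mem h.mem _

theorem int_mem_Ch (h : Fr M w) {k : ℕ} (hk : k ≤ 5) {n : ℤ} :
    (n : ℂ) * w ∈ Ch M w k ↔ (2 : ℤ) ^ k ∣ n := by
  rw [mem_Ch]
  constructor
  · rintro ⟨m, hm, j, e⟩
    have h1 : ((n - j * 2 ^ k : ℤ) : ℂ) * w ∈ M := by
      have : ((n - j * 2 ^ k : ℤ) : ℂ) * w = m := by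
        push_cast
        linear_combination e
      rwa [this]
    have h2 := (int_mem_M h).1 h1
    have h3 : (2 : ℤ) ^ k ∣ 32 := by
      have : (32 : ℤ) = 2 ^ 5 := by norm_num
      rw [this]
      exact pow_dvd_pow 2 hk
    have h4 := h3.trans h2
    have h5 : (2 : ℤ) ^ k ∣ j * 2 ^ k := Dvd.intro_left j rfl
    simpa using dvd_add h4 h5
  · rintro ⟨c, rfl⟩
    exact ⟨0, zero_mem _, c, by push_cast; ring⟩

theorem pow_notMem (h : Fr M w) {i k : ℕ} (hk : k ≤ 5) (hik : i < k) : (2 : ℂ) ^ i * w ∉ Ch M w k := by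
  intro h1
  have h2 : (((2 : ℤ) ^ i : ℤ) : ℂ) * w ∈ Ch M w k := by
    push_cast
    exact h1
  have h3 := (int_mem_Ch h hk).1 h2
  have h4 := Int.le_of_dvd (by positivity) h3
  exact absurd h4 (not_le.2 (pow_lt_pow_right₀ (by norm_num) hik))

theorem pow_mem_of_le {i k : ℕ} (hik : k ≤ i) : (2 : ℂ) ^ i * w ∈ Ch M w k := by
  obtain ⟨j, rfl⟩ := Nat.exists_eq_add_of_le hik
  have e : (2 : ℂ) ^ (k + j) * w = ((2 ^ j : ℕ) : ℂ) * (2 ^ k * w) := by
    push_cast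
    ring
  rw [e]
  exact natmul_mem (pow_mem_Ch k) _

theorem chFive (h : Fr M w) : Ch M w 5 = M := by
  refine le_antisymm ?_ (le_Ch 5)
  intro z hz
  obtain ⟨m, hm, n, rfl⟩ := mem_Ch.1 hz
  have e : (2 : ℂ) ^ 5 * w = 32 * w := by norm_num
  rw [e]
  exact add_mem hm (intmul_mem h.mem n)

theorem Ch_le (k : ℕ) : Ch M w (k + 1) ≤ Ch M w k := by
  intro z hz
  obtain ⟨m, hm, n, rfl⟩ := mem_Ch.1 hz
  exact add_mem (le_Ch k hm) (intmul_mem (pow_mem_of_le (Nat.le_succ k)) n)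

private theorem step (h : Fr M w) {k : ℕ} (hk : k < 5) (hl : IsLat (Ch M w (k + 1))) :
    Two (Ch M w (k + 1)) (Ch M w k) := by
  have h1 : (2 : ℂ) ^ k * w ∈ half (Ch M w (k + 1)) := by
    rw [mem_half]
    have e : 2 * ((2 : ℂ) ^ k * w) = 2 ^ (k + 1) * w := by ring
    rw [e]
    exact pow_mem_Ch _
  have h2 := Two.mk' hl h1 (pow_notMem h (by omega) (Nat.lt_succ_self k))
  have h3 : Ch M w (k + 1) ⊔ Submodule.span ℤ {(2 : ℂ) ^ k * w} = Ch M w k := by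
    refine le_antisymm (sup_le (Ch_le k) ?_) (sup_le ((le_Ch (k + 1)).trans le_sup_left) le_sup_right)
    rw [Submodule.span_singleton_le_iff_mem]
    exact pow_mem_Ch k
  rwa [h3] at h2

private theorem isLat_Ch (h : Fr M w) : ∀ i ≤ 5, IsLat (Ch M w (5 - i)) := by
  intro i
  induction i with
  | zero =>
    intro _
    rw [Nat.sub_zero, chFive h]
    exact h.lat
  | succ i ih =>
    intro hi
    have h1 := ih (by omega)
    have e : 5 - i = (5 - (i + 1)) + 1 := by omega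
    rw [e] at h1
    exact (step h (by omega) h1).lat'

theorem twoCh (h : Fr M w) {k : ℕ} (hk : k < 5) : Two (Ch M w (k + 1)) (Ch M w k) := by
  refine step h hk ?_
  have h1 := isLat_Ch h (5 - (k + 1)) (by omega)
  have e : 5 - (5 - (k + 1)) = k + 1 := by omega
  rwa [e] at h1

theorem two_half_Ch (h : Fr M w) {k : ℕ} (hk : k < 4) :
    Two (Ch M w (k + 1)) (half (Ch M w (k + 2))) := (twoCh h (k := k + 1) (by omega)).half_two

theorem half_ne (h : Fr M w) {k : ℕ} (hk : k < 4) : half (Ch M w (k + 2)) ≠ Ch M w k := by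
  intro h0
  have h1 : (2 : ℂ) ^ k * w ∈ half (Ch M w (k + 2)) := by
    rw [h0]
    exact pow_mem_Ch k
  rw [mem_half] at h1
  have e : 2 * ((2 : ℂ) ^ k * w) = 2 ^ (k + 1) * w := by ring
  rw [e] at h1
  exact pow_notMem h (i := k + 1) (k := k + 2) (by omega) (by omega) h1

theorem chain_tri (h : Fr M w) {k : ℕ} (hk : k < 4) :
    ∃ D, Tri (Ch M w (k + 1)) (half (Ch M w (k + 2))) (Ch M w k) D :=
  exists_tri' (two_half_Ch h hk) (twoCh h (by omega)) (half_ne h hk)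

theorem sg_eq_gf (N L : Submodule ℤ ℂ) : sg N L = gf L (half N) := by
  rw [gf_def, dbl_half]

theorem SS_eq (M : Submodule ℤ ℂ) (w : ℂ) (j : ℕ) :
    SS M w j = gf (Ch M w (j + 1)) (half (Ch M w (j + 2))) (2 ^ j * w) := by
  unfold SS
  rw [sg_eq_gf]

theorem dbl_pow (j : ℕ) : 2 * ((2 : ℂ) ^ j * w) = 2 ^ (j + 1) * w := by ring

section rel

variable {D : Submodule ℤ ℂ}

theorem SS_ne' (h : Fr M w) {j : ℕ} (hj : j ≤ 3) : SS M w j ≠ 0 := by
  rw [SS_eq]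
  refine gf_ne (two_half_Ch h (by omega)) ?_
  rw [mem_half, dbl_pow]
  exact pow_notMem h (by omega) (by omega)

theorem SS_sq (h : Fr M w) {k : ℕ} (hk : k < 4)
    (hT : Tri (Ch M w (k + 1)) (half (Ch M w (k + 2))) (Ch M w k) D) :
    SS M w k ^ 2 = ev (Ch M w (k + 1)) (Ch M w k) - ev (Ch M w (k + 1)) (half (Ch M w (k + 2))) := by
  rw [SS_eq]
  exact hT.val (pow_mem_Ch k) (pow_notMem h (by omega) (Nat.lt_succ_self k))

theorem DD_sq (h : Fr M w) {k : ℕ} (hk : k < 4)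
    (hT : Tri (Ch M w (k + 1)) (half (Ch M w (k + 2))) (Ch M w k) D) :
    gf (Ch M w (k + 1)) D (2 ^ k * w) ^ 2 = ev (Ch M w (k + 1)) (Ch M w k) - ev (Ch M w (k + 1)) D := by
  have h1 : Tri (Ch M w (k + 1)) D (Ch M w k) (half (Ch M w (k + 2))) :=
    ⟨hT.d, hT.b, hT.a, hT.bd.symm, hT.ab.symm, hT.da.symm⟩
  exact h1.val (pow_mem_Ch k) (pow_notMem h (by omega) (Nat.lt_succ_self k))

theorem SS_step (h : Fr M w) {j : ℕ} (hj : j < 3)
    (hT : Tri (Ch M w (j + 2)) (half (Ch M w (j + 3))) (Ch M w (j + 1)) D) :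
    gf (Ch M w (j + 2)) D (2 ^ (j + 1) * w) = SS M w j - SS M w (j + 1) := by
  have h1 := hT.qsum (q := 2 ^ j * w) (by rw [dbl_pow]; exact pow_mem_Ch _)
    (by rw [dbl_pow]; exact pow_notMem h (by omega) (by omega))
  rw [dbl_pow, ← SS_eq] at h1
  have h2 : SS M w j = sg (Ch M w (j + 2)) (Ch M w (j + 1)) (2 ^ j * w) := rfl
  rw [h2, h1]
  ring

/-- a translate by a point of the half of the next lattice -/
theorem SS_diff (h : Fr M w) {j : ℕ} (hj : j < 3) {x : ℂ} (hx : 2 * x ∈ Ch M w (j + 3))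
    (hx' : x ∉ Ch M w (j + 2)) :
    sg (Ch M w (j + 2)) (Ch M w (j + 1)) (2 ^ j * w + x) = 2 * SS M w (j + 1) - SS M w j := by
  obtain ⟨D, hT⟩ := chain_tri h (k := j + 1) (by omega)
  have h1 := hT.qdiff (q := 2 ^ j * w) (by rw [dbl_pow]; exact pow_mem_Ch _)
    (by rw [dbl_pow]; exact pow_notMem h (by omega) (by omega)) (mem_half.2 hx) hx'
  rw [dbl_pow, ← SS_eq, SS_step h hj hT] at h1
  rw [h1]
  ring

theorem SS_sub_ne (h : Fr M w) {j : ℕ} (hj : j < 3) : SS M w j - SS M w (j + 1) ≠ 0 := by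
  obtain ⟨D, hT⟩ := chain_tri h (k := j + 1) (by omega)
  rw [← SS_step h hj hT]
  have h1 : Tri (Ch M w (j + 2)) D (Ch M w (j + 1)) (half (Ch M w (j + 3))) :=
    ⟨hT.d, hT.b, hT.a, hT.bd.symm, hT.ab.symm, hT.da.symm⟩
  exact h1.val_ne (pow_mem_Ch _) (pow_notMem h (by omega) (by omega))

theorem SS_two (h : Fr M w) {j : ℕ} (hj : j < 3)
    (hT : Tri (Ch M w (j + 2)) (half (Ch M w (j + 3))) (Ch M w (j + 1)) D) :
    ev (Ch M w (j + 2)) D - ev (Ch M w (j + 2)) (half (Ch M w (j + 3))) =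
      SS M w j * (2 * SS M w (j + 1) - SS M w j) := by
  have h1 := SS_sq h (k := j + 1) (by omega) hT
  have h2 := DD_sq h (k := j + 1) (by omega) hT
  rw [SS_step h hj hT] at h2
  linear_combination h2 - h1

theorem SS_two_ne (h : Fr M w) {j : ℕ} (hj : j < 3) : 2 * SS M w (j + 1) - SS M w j ≠ 0 := by
  obtain ⟨D, hT⟩ := chain_tri h (k := j + 1) (by omega)
  intro h0
  have h1 := SS_two h hj hT
  rw [h0, mul_zero] at h1
  exact Two.ev_ne hT.d hT.a hT.da (sub_eq_zero.1 h1)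

/-- the recursion of the four values -/
theorem SS_rec (h : Fr M w) {j : ℕ} (hj : j < 2) :
    (SS M w j - SS M w (j + 1)) ^ 2 = 4 * SS M w (j + 2) * (SS M w (j + 1) - SS M w (j + 2)) := by
  obtain ⟨D, hT⟩ := chain_tri h (k := j + 1) (by omega)
  obtain ⟨E, hE⟩ := chain_tri h (k := j + 2) (by omega)
  have h2 := DD_sq h (k := j + 1) (by omega) hT
  rw [SS_step h (by omega) hT] at h2
  have h3 := (hE.landen' (q := 2 ^ (j + 1) * w) (by rw [dbl_pow]; exact pow_mem_Ch _)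
    (by rw [dbl_pow]; exact pow_notMem h (by omega) (by omega)) hT (pow_mem_Ch _)).2
  have h4 := SS_step h (j := j + 1) (by omega) hE
  have h5 := SS_eq M w (j + 2)
  rw [dbl_pow] at h3
  have e1 : j + 1 + 1 = j + 2 := rfl
  rw [h2, h3, ← h5, h4]
  ring

end rel

end Pool.Agent.Work.MP_8efaaa_nt.R
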