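import Mathlib
import Pool.Agent.Work.MP_8efaaa_nt.R.SD

/-!
# R/SE: the functions `z`, `kappa`, `v`
-/

set_option autoImplicit false

namespace Pool.Agent.Work.MP_8efaaa_nt.R

open Pool.Agent.Work.CM
open scoped Pointwise

variable {M : Submodule ℤ ℂ} {w : ℂ}

/-- the function of the pair `M`, `Ch M w 4` -/
theorem sg_five (h : Fr M w) : sg (Ch M w 5) (Ch M w 4) = sg M (Ch M w 4) := by rw [chFive h]

theorem SS_three (h : Fr M w) : SS M w 3 = sg M (Ch M w 4) (8 * w) := by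
  unfold SS
  rw [sg_five h]
  norm_num

theorem num_sq (h : Fr M w) : sg (Ch M w 5) (Ch M w 4) (4 * w) ^ 2 = SS M w 3 * SS M w 2 := by
  obtain ⟨D, hT⟩ := chain_tri h (k := 3) (by norm_num)
  have h1 := hT.qsq (q := 2 ^ 2 * w) (by rw [dbl_pow]; exact pow_mem_Ch _)
    (by rw [dbl_pow]; exact pow_notMem h (by omega) (by omega))
  rw [dbl_pow, ← SS_eq, ← sg_eq_gf] at h1
  have e : (2 : ℂ) ^ 2 * w = 4 * w := by norm_num
  have h2 : SS M w 2 = sg (Ch M w 4) (Ch M w 3) (2 ^ 2 * w) := rfl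
  rw [h2, ← h1, e]

theorem fz_sq' (h : Fr M w) : fz M w ^ 2 * SS M w 3 = SS M w 2 := by
  have h1 := num_sq h
  have n := SS_ne' h (j := 3) le_rfl
  unfold fz
  rw [div_pow, h1]
  field_simp

theorem fz_sqE (h : Fr M w) : fz M w ^ 2 = 1 + fk M w ^ 2 := by
  have h1 := fz_sq' h
  have n := SS_ne' h (j := 3) le_rfl
  have h2 := SS_rec h (j := 1) (by norm_num)
  have e1 : (1 : ℕ) + 1 = 2 := rfl
  have e2 : (1 : ℕ) + 2 = 3 := rfl
  rw [e1, e2] at h2
  unfold fk
  rw [div_pow, h2]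
  apply mul_right_cancel₀ n
  rw [h1]
  field_simp
  ring

theorem fv_sqE (h : Fr M w) : fv M w ^ 2 * SS M w 2 = SS M w 1 - SS M w 2 := by
  have n := SS_ne' h (j := 2) (by norm_num)
  have h2 := SS_rec h (j := 0) (by norm_num)
  have e1 : (0 : ℕ) + 1 = 1 := rfl
  have e2 : (0 : ℕ) + 2 = 2 := rfl
  rw [e1, e2] at h2
  unfold fv
  rw [div_pow, h2]
  field_simp
  ring

theorem fvz_sqE (h : Fr M w) : (fv M w * fz M w) ^ 2 = 2 * fk M w := by
  have n := SS_ne' h (j := 3) le_rfl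
  have n2 := SS_ne' h (j := 2) (by norm_num)
  have h1 := fz_sq' h
  have h2 := fv_sqE h
  unfold fk
  rw [mul_pow, ← h2]
  apply mul_right_cancel₀ n
  rw [mul_assoc, h1]
  field_simp

theorem fk_neE (h : Fr M w) : fk M w ≠ 0 := by
  have n := SS_ne' h (j := 3) le_rfl
  have h1 := SS_sub_ne h (j := 1) (by norm_num)
  unfold fk
  exact div_ne_zero h1 (mul_ne_zero two_ne_zero n)

theorem fv_neE (h : Fr M w) : fv M w ≠ 0 := by
  have n := SS_ne' h (j := 2) (by norm_num)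
  have h1 := SS_sub_ne h (j := 0) (by norm_num)
  unfold fv
  exact div_ne_zero h1 (mul_ne_zero two_ne_zero n)

theorem fz_neE (h : Fr M w) : fz M w ≠ 0 := by
  intro h0
  have h1 := fz_sq' h
  rw [h0] at h1
  exact SS_ne' h (j := 2) (by norm_num) (by rw [← h1]; ring)

theorem fz_neE' (h : Fr M w) : 2 - fz M w ^ 2 ≠ 0 := by
  have h1 := fz_sq' h
  have h2 := SS_two_ne h (j := 2) (by norm_num)
  intro h0
  apply h2
  rw [← h1]
  linear_combination (SS M w 3) * h0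

theorem fu_mul (h : Fr M w) : fu M w * SS M w 2 = 2 * SS M w 3 - SS M w 2 := by
  have h1 := fz_sq' h
  have n := fz_neE h
  unfold fu
  rw [← h1]
  field_simp

theorem fu_neE (h : Fr M w) : fu M w ≠ 0 := by
  have h2 := SS_two_ne h (j := 2) (by norm_num)
  intro h0
  have h1 := fu_mul h
  rw [h0, zero_mul] at h1
  exact h2 h1.symm

theorem csq_eqE (h : Fr M w) :
    csq M (Ch M w 4) = SS M w 3 ^ 4 * (fz M w ^ 2 * (2 - fz M w ^ 2)) := by
  obtain ⟨D, hT⟩ := chain_tri h (k := 3) (by norm_num)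
  have h4 : Two M (Ch M w 4) := by
    have := twoCh h (k := 4) (by norm_num)
    rwa [chFive h] at this
  have h3 := twoCh h (k := 3) (by norm_num)
  have n8 : (8 : ℂ) * w ∉ Ch M w 4 := by
    have := pow_notMem h (i := 3) (k := 4) (by omega) (by omega)
    norm_num at this
    exact this
  have m8 : (8 : ℂ) * w ∈ Ch M w 3 := by
    have := pow_mem_Ch (M := M) (w := w) 3
    norm_num at this
    exact this
  have m16 : (16 : ℂ) * w ∈ Ch M w 4 := by
    have := pow_mem_Ch (M := M) (w := w) 4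
    norm_num at this
    exact this
  have t1 := h4.translate (u := -(16 * w)) (neg_mem m16)
    (fun h1 => h.nmem (by simpa using neg_mem h1)) n8
  have e6 : 8 * w + -(16 * w) = -(8 * w) := by ring
  rw [e6, h.lat.wp_neg] at t1
  have n1 : wp M (8 * w) - ev M (Ch M w 4) ≠ 0 := sub_ne_zero.2 (h4.wp_ne n8)
  have e2 : ev (Ch M w 4) (Ch M w 3) = 2 * wp M (8 * w) - ev M (Ch M w 4) := by
    rw [← h3.ev_eq m8 n8, h4.wp_eq n8, ← t1, mul_div_assoc, div_self n1]
    ring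
  have e1 : ev (Ch M w 4) (half M) = -2 * ev M (Ch M w 4) := h4.ev_half
  have s1 := SS_sq h (k := 3) (by norm_num) hT
  have s2 := SS_two h (j := 2) (by norm_num) hT
  have hs := hT.sum
  have g5 : Ch M w 5 = M := chFive h
  have e5 : (3 : ℕ) + 2 = 5 := rfl
  have e4 : (3 : ℕ) + 1 = 4 := rfl
  have e5' : (2 : ℕ) + 3 = 5 := rfl
  have e4' : (2 : ℕ) + 2 = 4 := rfl
  have e3' : (2 : ℕ) + 1 = 3 := rfl
  rw [e5, e4, g5] at s1 hs
  rw [e5', e4', e3', g5] at s2
  have z1 := fz_sq' h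
  have hz : SS M w 3 ^ 4 * (fz M w ^ 2 * (2 - fz M w ^ 2)) =
      SS M w 3 ^ 2 * (SS M w 2 * (2 * SS M w 3 - SS M w 2)) := by
    rw [← z1]
    ring
  rw [hz, s1, ← s2]
  have e3 : ev (Ch M w 4) D = ev M (Ch M w 4) + ev M (Ch M w 4) + ev M (Ch M w 4) -
      2 * wp M (8 * w) := by
    linear_combination hs - e1 - e2
  rw [e3, e2, e1]
  unfold csq
  linear_combination 4 * t1

end Pool.Agent.Work.MP_8efaaa_nt.R
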