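import Mathlib
import Pool.Agent.Work.MP_8efaaa_nt.R.SE

/-!
# R/SF: the values at the multiples of `w`
-/

set_option autoImplicit false

namespace Pool.Agent.Work.MP_8efaaa_nt.R

open Pool.Agent.Work.CM
open scoped Pointwise

variable {M : Submodule ℤ ℂ} {w : ℂ}

theorem sg_smul {N L : Submodule ℤ ℂ} (h : Two N L) {m : ℂ} (hm : m ≠ 0) (z : ℂ) :
    sg (m • N) (m • L) (m * z) = sg N L z / m := by
  unfold sg
  rw [wpd_smul hm, wp_smul hm, (h.smul hm).2]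
  have e : 2 * ((m ^ 2)⁻¹ * wp N z - (m ^ 2)⁻¹ * ev N L) = (m ^ 2)⁻¹ * (2 * (wp N z - ev N L)) := by ring
  rw [e]
  by_cases h0 : wp N z - ev N L = 0
  · rw [h0]
    simp
  · field_simp

theorem gf_half {L A : Submodule ℤ ℂ} (h : Two L A) (z : ℂ) :
    gf (half L) (half A) z = 2 * gf L A (2 * z) := by
  have h1 := sg_smul (two_dbl h) (m := (2 : ℂ)⁻¹) (by norm_num) (2 * z)
  have e1 : (2 : ℂ)⁻¹ • ((2 : ℂ) • A) = A := half_dbl A
  have e2 : (2 : ℂ)⁻¹ * (2 * z) = z := by ring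
  rw [e1, e2] at h1
  rw [gf_def, dbl_half, gf_def]
  have e3 : (2 : ℂ)⁻¹ • L = half L := rfl
  rw [e3] at h1
  rw [h1]
  field_simp

theorem sg_refl (h : Fr M w) {j : ℕ} (hj : j < 4) {z : ℂ} (hz : z ∉ Ch M w (j + 1)) :
    sg (Ch M w (j + 2)) (Ch M w (j + 1)) (2 ^ (j + 1) * w - z) =
      sg (Ch M w (j + 2)) (Ch M w (j + 1)) z := by
  have h2 := twoCh h (k := j + 1) (by omega)
  have hz' : -z ∉ Ch M w (j + 1) := fun h1 => hz (by simpa using neg_mem h1)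
  have h1 := sg_anti h2 (pow_mem_Ch (j + 1)) (pow_notMem h (by omega) (by omega)) hz'
  rw [sg_neg h2.lat, neg_neg] at h1
  rw [← h1]
  congr 1
  ring

theorem sg_prod (h : Fr M w) {j : ℕ} (hj : j < 3) {z : ℂ} (hz : z ∉ Ch M w (j + 1)) :
    sg (Ch M w (j + 3)) (Ch M w (j + 2)) z * sg (Ch M w (j + 3)) (Ch M w (j + 2)) (z + 2 ^ (j + 1) * w) =
      SS M w (j + 1) * sg (Ch M w (j + 2)) (Ch M w (j + 1)) z := by
  have h3 := twoCh h (k := j + 2) (by omega)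
  have h2 := twoCh h (k := j + 1) (by omega)
  exact sg_mul h3 h2 (half_ne h (k := j + 1) (by omega)).symm (pow_mem_Ch (j + 1))
    (pow_notMem h (by omega) (by omega)) hz

/-- squares at quarter points -/
theorem sg_qsq (h : Fr M w) {j : ℕ} (hj : j < 3) :
    sg (Ch M w (j + 3)) (Ch M w (j + 2)) (2 ^ j * w) ^ 2 = SS M w (j + 1) * SS M w j := by
  obtain ⟨D, hT⟩ := chain_tri h (k := j + 1) (by omega)
  have h1 := hT.qsq (q := 2 ^ j * w) (by rw [dbl_pow]; exact pow_mem_Ch _)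
    (by rw [dbl_pow]; exact pow_notMem h (by omega) (by omega))
  rw [dbl_pow, ← SS_eq, ← sg_eq_gf] at h1
  exact h1

theorem nat_notMem (h : Fr M w) {n k : ℕ} (hk : k ≤ 5) (hn : ¬ 2 ^ k ∣ n) : (n : ℂ) * w ∉ Ch M w k := by
  intro h1
  have h2 : ((n : ℤ) : ℂ) * w ∈ Ch M w k := by
    push_cast
    exact h1
  have h3 := (int_mem_Ch h hk).1 h2
  exact hn (by exact_mod_cast h3)

theorem sg_nat_ne (h : Fr M w) {n : ℕ} (hn : ¬ 16 ∣ n) : sg M (Ch M w 4) (n * w) ≠ 0 := by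
  have h4 : Two M (Ch M w 4) := by
    have := twoCh h (k := 4) (by norm_num)
    rwa [chFive h] at this
  refine sg_ne h4 ?_
  rw [mem_half]
  intro h1
  have h2 : ((2 * n : ℤ) : ℂ) * w ∈ M := by
    push_cast
    rw [mul_assoc]
    exact h1
  have h3 := (int_mem_M h).1 h2
  omega

theorem s_refl (h : Fr M w) {n n' : ℕ} (hn : n + n' = 16) (hn' : ¬ 16 ∣ n') :
    sg M (Ch M w 4) (n * w) = sg M (Ch M w 4) (n' * w) := by
  have h1 := sg_refl h (j := 3) (by norm_num) (z := n' * w) (nat_notMem h (k := 4) (by omega) (by omega))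
  have e5 : (3 : ℕ) + 2 = 5 := rfl
  have e4 : (3 : ℕ) + 1 = 4 := rfl
  rw [e5, e4, chFive h] at h1
  rw [← h1]
  congr 1
  have e : (n : ℂ) = 16 - n' := by
    have : (n : ℂ) + n' = 16 := by exact_mod_cast hn
    linear_combination this
  rw [e]
  ring

theorem s_prod (h : Fr M w) {n : ℕ} (hn : ¬ 8 ∣ n) {n' : ℕ} (hn' : n + n' = 8) :
    sg M (Ch M w 4) (n * w) * sg M (Ch M w 4) (n' * w) =
      SS M w 3 * sg (Ch M w 4) (Ch M w 3) (n * w) := by
  have h1 := sg_prod h (j := 2) (by norm_num) (z := n * w) (nat_notMem h (k := 3) (by omega) (by omega))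
  have e5 : (2 : ℕ) + 3 = 5 := rfl
  have e4 : (2 : ℕ) + 2 = 4 := rfl
  have e3 : (2 : ℕ) + 1 = 3 := rfl
  rw [e5, e4, e3, chFive h] at h1
  rw [← h1]
  have e : (n : ℂ) * w + 2 ^ 3 * w = ((n + 8 : ℕ) : ℂ) * w := by
    push_cast
    ring
  rw [e, s_refl h (n := n + 8) (n' := n') (by omega) (by omega)]

/-- a half period of `M` -/
private theorem exists_half (h : Fr M w) : ∃ x : ℂ, 2 * x ∈ M ∧ x ∉ Ch M w 4 := by
  have h4 : Two M (Ch M w 4) := by
    have := twoCh h (k := 4) (by norm_num)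
    rwa [chFive h] at this
  obtain ⟨x, hx, hx', -⟩ := h4.half_two.ex
  exact ⟨x, mem_half.1 hx, hx'⟩

theorem notMem_three (h : Fr M w) {x : ℂ} (hx : 2 * x ∈ M) (hx' : x ∉ Ch M w 4) : x ∉ Ch M w 3 := by
  intro h1
  obtain ⟨m, hm, n, rfl⟩ := mem_Ch.1 h1
  apply hx'
  have h2 : ((16 * n : ℤ) : ℂ) * w ∈ M := by
    have e : ((16 * n : ℤ) : ℂ) * w = 2 * (m + n * (2 ^ 3 * w)) - 2 * m := by
      push_cast
      ring
    rw [e]
    exact _root_.sub_mem hx (by simpa using natmul_mem hm 2)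
  have h3 := (int_mem_M h).1 h2
  obtain ⟨c, hc⟩ : (2 : ℤ) ∣ n := by omega
  rw [hc]
  refine mem_Ch.2 ⟨m, hm, c, ?_⟩
  push_cast
  ring

theorem fk_aux (h : Fr M w) : 2 * (sg M (Ch M w 4) (4 * w) * sg (Ch M w 4) (Ch M w 3) (2 * w)) =
    SS M w 2 * (SS M w 1 + 2 * SS M w 3 - SS M w 2) := by
  obtain ⟨x, hx, hx'⟩ := exists_half h
  have hx3 := notMem_three h hx hx'
  have h4 : Two M (Ch M w 4) := by
    have := twoCh h (k := 4) (by norm_num)
    rwa [chFive h] at this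
  have h3 := twoCh h (k := 3) (by norm_num)
  have hA : Two (Ch M w 3) (half (Ch M w 4)) := h3.half_two
  have hC : Two (half (Ch M w 4)) (half (half M)) := (h4.half_two.smul (m := (2 : ℂ)⁻¹) (by norm_num)).1
  have hxA : x ∈ half (Ch M w 4) := mem_half.2 (le_Ch 4 hx)
  have hxC : x / 2 ∈ half (half M) := by
    rw [mem_half, mem_half]
    have e : 2 * (2 * (x / 2)) = 2 * x := by ring
    rw [e]
    exact hx
  have hzA : 2 * w ∉ half (Ch M w 4) := by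
    rw [mem_half]
    have := pow_notMem h (i := 2) (k := 4) (by omega) (by omega)
    have e : 2 * (2 * w) = (2 : ℂ) ^ 2 * w := by ring
    rw [e]
    exact this
  have g1 := gsum hA hxA hx3 hC hxC hzA
  rw [gf_half h4.half_two, ← sg_eq_gf, ← sg_eq_gf] at g1
  have e1 : 2 * (2 * w) = 4 * w := by ring
  rw [e1] at g1
  obtain ⟨B, D, hT⟩ := exists_tri hA
  have n4 : (4 : ℂ) * w ∉ half (Ch M w 4) := by
    rw [mem_half]
    have := pow_notMem h (i := 3) (k := 4) (by omega) (by omega)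
    have e : 2 * (4 * w) = (2 : ℂ) ^ 3 * w := by ring
    rw [e]
    exact this
  have m1 := hT.mul_const hxA hx3 hzA
  have m2 := hT.mul_const hxA hx3 n4
  rw [← sg_eq_gf] at m1 m2
  have d1 := SS_diff h (j := 2) (by norm_num) (x := x) (by
    have e5 : (2 : ℕ) + 3 = 5 := rfl
    rw [e5, chFive h]
    exact hx) hx'
  have e4' : (2 : ℂ) ^ 2 * w + x = 4 * w + x := by ring
  have e4 : (2 : ℕ) + 2 = 4 := rfl
  have e3 : (2 : ℕ) + 1 = 3 := rfl
  rw [e4', e4, e3] at d1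
  have s2 : SS M w 2 = sg (Ch M w 4) (Ch M w 3) (4 * w) := by
    unfold SS
    norm_num
  have q1 := sg_qsq h (j := 1) (by norm_num)
  have e2' : (2 : ℂ) ^ 1 * w = 2 * w := by ring
  have e4'' : (1 : ℕ) + 3 = 4 := rfl
  have e3'' : (1 : ℕ) + 2 = 3 := rfl
  have e2'' : (1 : ℕ) + 1 = 2 := rfl
  rw [e2', e4'', e3'', e2''] at q1
  rw [← s2, d1] at m2
  linear_combination sg (Ch M w 4) (Ch M w 3) (2 * w) * g1 + q1 + m1 - m2

theorem s_four (h : Fr M w) : sg M (Ch M w 4) (4 * w) ^ 2 = SS M w 3 * SS M w 2 := by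
  have := num_sq h
  rwa [sg_five h] at this

/-- the values at `1, 3, 5, 7` -/
theorem s_odd (h : Fr M w) :
    (sg M (Ch M w 4) (1 * w) * sg M (Ch M w 4) (3 * w) * sg M (Ch M w 4) (5 * w) *
      sg M (Ch M w 4) (7 * w)) ^ 2 = SS M w 3 ^ 4 * SS M w 2 ^ 2 * (SS M w 1 * SS M w 0) := by
  have p1 := s_prod h (n := 1) (n' := 7) (by norm_num) (by norm_num)
  have p2 := s_prod h (n := 5) (n' := 3) (by norm_num) (by norm_num)
  have h1 := sg_prod h (j := 1) (by norm_num) (z := 1 * w) (by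
    have := nat_notMem h (n := 1) (k := 2) (by norm_num) (by norm_num)
    simpa using this)
  have q0 := sg_qsq h (j := 0) (by norm_num)
  have e0 : (2 : ℂ) ^ 0 * w = 1 * w := by norm_num
  have e5 : (1 : ℂ) * w + 2 ^ (1 + 1) * w = 5 * w := by ring
  have e4'' : (1 : ℕ) + 3 = 4 := rfl
  have e3'' : (1 : ℕ) + 2 = 3 := rfl
  have e2'' : (1 : ℕ) + 1 = 2 := rfl
  have f3 : (0 : ℕ) + 3 = 3 := rfl
  have f2 : (0 : ℕ) + 2 = 2 := rfl
  have f1 : (0 : ℕ) + 1 = 1 := rfl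
  rw [e5, e4'', e3'', e2''] at h1
  rw [e0, f3, f2, f1] at q0
  push_cast at p1 p2
  have e : sg M (Ch M w 4) (1 * w) * sg M (Ch M w 4) (3 * w) * sg M (Ch M w 4) (5 * w) *
      sg M (Ch M w 4) (7 * w) = SS M w 3 ^ 2 * (SS M w 2 * sg (Ch M w 3) (Ch M w 2) (1 * w)) := by
    rw [← h1]
    have e' : sg M (Ch M w 4) (1 * w) * sg M (Ch M w 4) (3 * w) * sg M (Ch M w 4) (5 * w) *
      sg M (Ch M w 4) (7 * w) = (sg M (Ch M w 4) (1 * w) * sg M (Ch M w 4) (7 * w)) *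
        (sg M (Ch M w 4) (5 * w) * sg M (Ch M w 4) (3 * w)) := by ring
    rw [e', p1, p2]
    ring
  rw [e, ← q0]
  ring

/-- the values at `2, 6` -/
theorem s_even (h : Fr M w) :
    sg M (Ch M w 4) (2 * w) * sg M (Ch M w 4) (6 * w) =
      SS M w 3 * sg (Ch M w 4) (Ch M w 3) (2 * w) ∧
    (sg M (Ch M w 4) (2 * w) * sg M (Ch M w 4) (6 * w)) ^ 2 =
      SS M w 3 ^ 2 * (SS M w 2 * SS M w 1) := by
  have p1 := s_prod h (n := 2) (n' := 6) (by norm_num) (by norm_num)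
  push_cast at p1
  refine ⟨p1, ?_⟩
  rw [p1, mul_pow]
  have q1 := sg_qsq h (j := 1) (by norm_num)
  have e2' : (2 : ℂ) ^ 1 * w = 2 * w := by ring
  have e4'' : (1 : ℕ) + 3 = 4 := rfl
  have e3'' : (1 : ℕ) + 2 = 3 := rfl
  have e2'' : (1 : ℕ) + 1 = 2 := rfl
  rw [e2', e4'', e3'', e2''] at q1
  rw [q1]

end Pool.Agent.Work.MP_8efaaa_nt.R
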