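import Mathlib
import Pool.Agent.Work.MP_8efaaa_nt.R.SF

/-!
# R/SG: homogeneity and odd multiples
-/

set_option autoImplicit false

namespace Pool.Agent.Work.MP_8efaaa_nt.R

open Pool.Agent.Work.CM
open scoped Pointwise

variable {M M' : Submodule ℤ ℂ} {w w' : ℂ}

theorem Ch_smul {m : ℂ} (hm : m ≠ 0) (k : ℕ) : Ch (m • M) (m * w) k = m • Ch M w k := by
  ext z
  obtain ⟨y, rfl⟩ : ∃ y, z = m * y := ⟨m⁻¹ * z, by rw [← mul_assoc, mul_inv_cancel₀ hm, one_mul]⟩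
  rw [mem_smul_iff hm, mem_Ch, mem_Ch]
  constructor
  · rintro ⟨x, hx, n, e⟩
    obtain ⟨x', rfl⟩ : ∃ x', x = m * x' := ⟨m⁻¹ * x, by rw [← mul_assoc, mul_inv_cancel₀ hm, one_mul]⟩
    refine ⟨x', (mem_smul_iff hm).1 hx, n, ?_⟩
    apply mul_left_cancel₀ hm
    rw [e]
    ring
  · rintro ⟨x, hx, n, rfl⟩
    exact ⟨m * x, (mem_smul_iff hm).2 hx, n, by ring⟩

theorem SS_smul (h : Fr M w) {m : ℂ} (hm : m ≠ 0) {j : ℕ} (hj : j ≤ 3) :
    SS (m • M) (m * w) j = SS M w j / m := by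
  unfold SS
  rw [Ch_smul hm, Ch_smul hm, ← sg_smul (twoCh h (k := j + 1) (by omega)) hm]
  congr 1
  ring

theorem f_smulE (h : Fr M w) {m : ℂ} (hm : m ≠ 0) :
    fz (m • M) (m * w) = fz M w ∧ fk (m • M) (m * w) = fk M w ∧ fv (m • M) (m * w) = fv M w := by
  have n2 := SS_ne' h (j := 2) (by norm_num)
  have n3 := SS_ne' h (j := 3) (by norm_num)
  refine ⟨?_, ?_, ?_⟩
  · unfold fz
    rw [SS_smul h hm le_rfl, Ch_smul hm, Ch_smul hm]
    have e : 4 * (m * w) = m * (4 * w) := by ring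
    rw [e, sg_smul (twoCh h (k := 4) (by norm_num)) hm]
    field_simp
  · unfold fk
    rw [SS_smul h hm le_rfl, SS_smul h hm (by norm_num), SS_smul h hm (by norm_num)]
    field_simp
  · unfold fv
    rw [SS_smul h hm (j := 2) (by norm_num), SS_smul h hm (j := 1) (by norm_num),
      SS_smul h hm (j := 0) (by norm_num)]
    field_simp

/-- the sign of an odd number modulo `4` -/
private def e4 (d : ℤ) : ℤ := if d % 4 = 1 then 1 else -1

/-- the sign of the numerator -/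
private def e8' (d : ℤ) : ℤ := if d % 8 = 1 ∨ d % 8 = 3 then 1 else -1

private theorem e_mul {d : ℤ} (hd : Odd d) : (e8' d : ℂ) / (e4 d : ℂ) = (e8 d : ℂ) := by
  have h1 : d % 8 = 1 ∨ d % 8 = 3 ∨ d % 8 = 5 ∨ d % 8 = 7 := by
    obtain ⟨k, rfl⟩ := hd
    omega
  unfold e8' e4 e8
  rcases h1 with h | h | h | h
  · have h4 : d % 4 = 1 := by omega
    simp [h, h4]
  · have h4 : d % 4 = 3 := by omega
    simp [h, h4]
  · have h4 : d % 4 = 1 := by omega
    simp [h, h4]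
  · have h4 : d % 4 = 3 := by omega
    simp [h, h4]

private theorem e4_ne (d : ℤ) : (e4 d : ℂ) ≠ 0 := by
  unfold e4
  split_ifs <;> norm_num

theorem Ch_odd (h : Fr M w) {d : ℤ} (hd : Odd d) (hw : w' - d * w ∈ M) {k : ℕ} :
    Ch M w' k = Ch M w k := by
  have hle : ∀ {v v' : ℂ} {e : ℤ}, v' - e * v ∈ M → Ch M v' k ≤ Ch M v k := by
    intro v v' e he z hz
    obtain ⟨m, hm, n, rfl⟩ := mem_Ch.1 hz
    refine mem_Ch.2 ⟨m + (n * 2 ^ k : ℤ) * (v' - e * v), add_mem hm (intmul_mem he _), n * e, ?_⟩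
    push_cast
    ring
  refine le_antisymm (hle hw) ?_
  obtain ⟨e, t, het⟩ : ∃ e t : ℤ, d * e - 1 = 32 * t := by
    have h1 : IsCoprime d 32 := by
      have h2 : IsCoprime d 2 := by
        rw [Int.isCoprime_iff_gcd_eq_one]
        exact Int.isCoprime_iff_gcd_eq_one.1 (by
          obtain ⟨k, rfl⟩ := hd
          exact ⟨1, -k, by ring⟩)
      have h3 : IsCoprime d (2 ^ 5) := h2.pow_right
      norm_num at h3
      exact h3
    obtain ⟨a, b, hab⟩ := h1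
    exact ⟨a, -b, by linear_combination hab⟩
  refine hle (v := w') (v' := w) (e := e) ?_
  have e1 : w - e * w' = -((e : ℂ) * (w' - d * w)) - (t : ℂ) * (32 * w) := by
    have : (d : ℂ) * e - 1 = 32 * t := by exact_mod_cast het
    linear_combination -w * this
  rw [e1]
  exact _root_.sub_mem (neg_mem (intmul_mem hw e)) (intmul_mem h.mem t)

private theorem s_odd4 {N L : Submodule ℤ ℂ} (h : Two N L) {u : ℂ} (h4 : 4 * u ∈ N) {d : ℤ}
    (hd : Odd d) : sg N L (d * u) = e4 d * sg N L u := by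
  unfold e4
  have h1 : d % 4 = 1 ∨ d % 4 = 3 := by
    obtain ⟨k, rfl⟩ := hd
    omega
  rcases h1 with h1 | h1
  · rw [if_pos h1]
    obtain ⟨t, rfl⟩ : ∃ t : ℤ, d = 4 * t + 1 := ⟨d / 4, by omega⟩
    have e : ((4 * t + 1 : ℤ) : ℂ) * u = u + (t : ℂ) * (4 * u) := by
      push_cast
      ring
    rw [e, sg_add h.lat _ (intmul_mem h4 t)]
    norm_num
  · rw [if_neg (by omega)]
    obtain ⟨t, rfl⟩ : ∃ t : ℤ, d = 4 * t - 1 := ⟨d / 4 + 1, by omega⟩
    have e : ((4 * t - 1 : ℤ) : ℂ) * u = -u + (t : ℂ) * (4 * u) := by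
      push_cast
      ring
    rw [e, sg_add h.lat _ (intmul_mem h4 t), sg_neg h.lat]
    norm_num

private theorem s_odd8 {N L : Submodule ℤ ℂ} (h : Two N L) {u : ℂ} (h8 : 8 * u ∈ N) (h4 : 4 * u ∈ L)
    (h4' : 4 * u ∉ N) {d : ℤ} (hd : Odd d) : sg N L (d * u) = e8' d * sg N L u := by
  have hu : u ∉ L := by
    intro h1
    have h2 := h.two_mem h1
    apply h4'
    have e : 4 * u = (2 : ℕ) * (2 * u) := by push_cast; ring
    rw [e]
    exact natmul_mem h2 2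
  have hu' : -u ∉ L := fun h1 => hu (by simpa using neg_mem h1)
  unfold e8'
  have h1 : d % 8 = 1 ∨ d % 8 = 3 ∨ d % 8 = 5 ∨ d % 8 = 7 := by
    obtain ⟨k, rfl⟩ := hd
    omega
  rcases h1 with h1 | h1 | h1 | h1
  · rw [if_pos (Or.inl h1)]
    obtain ⟨t, rfl⟩ : ∃ t : ℤ, d = 8 * t + 1 := ⟨d / 8, by omega⟩
    have e : ((8 * t + 1 : ℤ) : ℂ) * u = u + (t : ℂ) * (8 * u) := by
      push_cast
      ring
    rw [e, sg_add h.lat _ (intmul_mem h8 t)]
    norm_num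
  · rw [if_pos (Or.inr h1)]
    obtain ⟨t, rfl⟩ : ∃ t : ℤ, d = 8 * t + 3 := ⟨d / 8, by omega⟩
    have e : ((8 * t + 3 : ℤ) : ℂ) * u = -u + 4 * u + (t : ℂ) * (8 * u) := by
      push_cast
      ring
    rw [e, sg_add h.lat _ (intmul_mem h8 t), sg_anti h h4 h4' hu', sg_neg h.lat]
    norm_num
  · rw [if_neg (by omega)]
    obtain ⟨t, rfl⟩ : ∃ t : ℤ, d = 8 * t + 5 := ⟨d / 8, by omega⟩
    have e : ((8 * t + 5 : ℤ) : ℂ) * u = u + 4 * u + (t : ℂ) * (8 * u) := by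
      push_cast
      ring
    rw [e, sg_add h.lat _ (intmul_mem h8 t), sg_anti h h4 h4' hu]
    norm_num
  · rw [if_neg (by omega)]
    obtain ⟨t, rfl⟩ : ∃ t : ℤ, d = 8 * t - 1 := ⟨d / 8 + 1, by omega⟩
    have e : ((8 * t - 1 : ℤ) : ℂ) * u = -u + (t : ℂ) * (8 * u) := by
      push_cast
      ring
    rw [e, sg_add h.lat _ (intmul_mem h8 t), sg_neg h.lat]
    norm_num

theorem f_oddE (h : Fr M w) {d : ℤ} (hd : Odd d) (hw : w' - d * w ∈ M) :
    fz M w' = e8 d * fz M w ∧ fk M w' = fk M w ∧ fv M w' = fv M w := by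
  have hS : ∀ {j : ℕ}, j ≤ 3 → SS M w' j = e4 d * SS M w j := by
    intro j hj
    unfold SS
    rw [Ch_odd h hd hw, Ch_odd h hd hw]
    have h2 := twoCh h (k := j + 1) (by omega)
    have e : (2 : ℂ) ^ j * w' = d * (2 ^ j * w) + ((2 ^ j : ℕ) : ℂ) * (w' - d * w) := by
      push_cast
      ring
    rw [e, sg_add h2.lat _ (le_Ch _ (natmul_mem hw _))]
    refine s_odd4 h2 ?_ hd
    have e' : 4 * ((2 : ℂ) ^ j * w) = 2 ^ (j + 2) * w := by ring
    rw [e']
    exact pow_mem_Ch _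
  have hN : sg (Ch M w' 5) (Ch M w' 4) (4 * w') = e8' d * sg (Ch M w 5) (Ch M w 4) (4 * w) := by
    rw [Ch_odd h hd hw, Ch_odd h hd hw]
    have h2 := twoCh h (k := 4) (by norm_num)
    have e : 4 * w' = d * (4 * w) + ((4 : ℕ) : ℂ) * (w' - d * w) := by
      push_cast
      ring
    rw [e, sg_add h2.lat _ (le_Ch _ (natmul_mem hw _))]
    refine s_odd8 h2 ?_ ?_ ?_ hd
    · have e' : 8 * (4 * w) = 2 ^ 5 * w := by ring
      rw [e']
      exact pow_mem_Ch _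
    · have e' : 4 * (4 * w) = 2 ^ 4 * w := by ring
      rw [e']
      exact pow_mem_Ch _
    · have e' : 4 * (4 * w) = 2 ^ 4 * w := by ring
      rw [e']
      exact pow_notMem h le_rfl (by norm_num)
  have n4 := e4_ne d
  have n2 := SS_ne' h (j := 2) (by norm_num)
  have n3 := SS_ne' h (j := 3) (by norm_num)
  refine ⟨?_, ?_, ?_⟩
  · unfold fz
    rw [hS le_rfl, hN, ← e_mul hd]
    field_simp
  · unfold fk
    rw [hS le_rfl, hS (j := 1) (by norm_num), hS (j := 2) (by norm_num)]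
    field_simp
  · unfold fv
    rw [hS (j := 0) (by norm_num), hS (j := 1) (by norm_num), hS (j := 2) (by norm_num)]
    field_simp

end Pool.Agent.Work.MP_8efaaa_nt.R
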