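import Mathlib
import Pool.Agent.Work.MP_8efaaa_nt.R.SG

/-!
# R/SH: half turn and quarter turn
-/

set_option autoImplicit false

namespace Pool.Agent.Work.MP_8efaaa_nt.R

open Pool.Agent.Work.CM
open scoped Pointwise

variable {M M' : Submodule ℤ ℂ} {w w' : ℂ}

theorem Ch_eq_sup (k : ℕ) : Ch M w k = Ch M w (k + 1) ⊔ Submodule.span ℤ {(2 : ℂ) ^ k * w} := by
  refine le_antisymm (sup_le ((le_Ch (k + 1)).trans le_sup_left) le_sup_right) (sup_le (Ch_le k) ?_)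
  rw [Submodule.span_singleton_le_iff_mem]
  exact pow_mem_Ch k

theorem Ch_eq_of {k : ℕ} (h1 : Ch M' w' (k + 1) = Ch M w (k + 1))
    (h2 : (2 : ℂ) ^ k * w' - 2 ^ k * w ∈ Ch M w (k + 1)) : Ch M' w' k = Ch M w k := by
  rw [Ch_eq_sup, Ch_eq_sup (M := M) (w := w), h1]
  refine le_antisymm (sup_le le_sup_left ?_) (sup_le le_sup_left ?_)
  · rw [Submodule.span_singleton_le_iff_mem]
    have e : (2 : ℂ) ^ k * w' = (2 ^ k * w' - 2 ^ k * w) + 2 ^ k * w := by ring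
    rw [e]
    exact add_mem ((le_sup_left : _ ≤ Ch M w (k + 1) ⊔ Submodule.span ℤ {(2 : ℂ) ^ k * w}) h2)
      ((le_sup_right : _ ≤ Ch M w (k + 1) ⊔ Submodule.span ℤ {(2 : ℂ) ^ k * w})
        (Submodule.mem_span_singleton_self _))
  · rw [Submodule.span_singleton_le_iff_mem]
    have e : (2 : ℂ) ^ k * w = -(2 ^ k * w' - 2 ^ k * w) + 2 ^ k * w' := by ring
    rw [e]
    exact add_mem ((le_sup_left : _ ≤ Ch M w (k + 1) ⊔ Submodule.span ℤ {(2 : ℂ) ^ k * w'}) (neg_mem h2))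
      ((le_sup_right : _ ≤ Ch M w (k + 1) ⊔ Submodule.span ℤ {(2 : ℂ) ^ k * w'})
        (Submodule.mem_span_singleton_self _))

theorem half_inj {A B : Submodule ℤ ℂ} (h : half A = half B) : A = B := by
  rw [← dbl_half A, ← dbl_half B, h]

theorem Ch_anti {j k : ℕ} (hjk : j ≤ k) : Ch M w k ≤ Ch M w j := by
  induction hjk with
  | refl => exact le_rfl
  | step _ ih => exact (Ch_le _).trans ih

theorem half_turnE (h : Fr M w) (h' : Fr M' w') (h2 : Ch M' w' 4 = Ch M w 4) (hne : M' ≠ M)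
    {x : ℂ} (hx : 2 * x ∈ M) (hx' : x ∉ Ch M w 2) (hw : w' - (w + x) ∈ Ch M w 2) :
    fv M' w' = -fv M w ∧ fu M' w' = -fu M w := by
  obtain ⟨m, hm, n, hc⟩ := mem_Ch.1 hw
  have hw' : w' = w + x + (m + n * (2 ^ 2 * w)) := by rw [← hc]; ring
  have h4 : Two M (Ch M w 4) := by
    have := twoCh h (k := 4) (by norm_num)
    rwa [chFive h] at this
  have h4' : Two M' (Ch M w 4) := by
    have := twoCh h' (k := 4) (by norm_num)
    rwa [chFive h', h2] at this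
  have m4x : ∀ k : ℕ, 2 ^ (k + 1) * x ∈ M := fun k => by
    have e : (2 : ℂ) ^ (k + 1) * x = ((2 ^ k : ℕ) : ℂ) * (2 * x) := by
      push_cast
      ring
    rw [e]
    exact natmul_mem hx _
  -- the differences
  have d3 : (2 : ℂ) ^ 3 * w' - 2 ^ 3 * w = 2 * (2 ^ 2 * x + ((4 : ℕ) : ℂ) * m + (n : ℂ) * (2 ^ 4 * w)) := by
    rw [hw']
    push_cast
    ring
  have c3 : (2 : ℂ) ^ 2 * x + ((4 : ℕ) : ℂ) * m + (n : ℂ) * (2 ^ 4 * w) ∈ Ch M w 4 :=
    add_mem (add_mem (le_Ch 4 (m4x 1)) (le_Ch 4 (natmul_mem hm 4))) (intmul_mem (pow_mem_Ch 4) n)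
  have d3M' : (2 : ℂ) ^ 3 * w' - 2 ^ 3 * w ∈ M' := by
    rw [d3]
    exact h4'.two_mem c3
  have d3' : (2 : ℂ) ^ 3 * w' - 2 ^ 3 * w ∈ Ch M w 4 := by
    rw [d3]
    exact le_Ch 4 (h4.two_mem c3)
  have d2' : (2 : ℂ) ^ 2 * w' - 2 ^ 2 * w ∈ Ch M w 4 := by
    have e : (2 : ℂ) ^ 2 * w' - 2 ^ 2 * w = 2 ^ 2 * x + ((4 : ℕ) : ℂ) * m + (n : ℂ) * (2 ^ 4 * w) := by
      rw [hw']
      push_cast
      ring
    rw [e]
    exact c3
  have d1' : (2 : ℂ) ^ 1 * w' - 2 ^ 1 * w ∈ Ch M w 3 := by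
    have e : (2 : ℂ) ^ 1 * w' - 2 ^ 1 * w = 2 * x + ((2 : ℕ) : ℂ) * m + (n : ℂ) * (2 ^ 3 * w) := by
      rw [hw']
      push_cast
      ring
    rw [e]
    exact add_mem (add_mem (le_Ch 3 hx) (le_Ch 3 (natmul_mem hm 2))) (intmul_mem (pow_mem_Ch 3) n)
  have C3 : Ch M' w' 3 = Ch M w 3 := Ch_eq_of h2 d3'
  have C2 : Ch M' w' 2 = Ch M w 2 := Ch_eq_of C3 (Ch_anti (by norm_num) d2')
  have C1 : Ch M' w' 1 = Ch M w 1 := Ch_eq_of C2 (Ch_anti (by norm_num) d1')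
  have S1 : SS M' w' 1 = SS M w 1 := by
    unfold SS
    rw [C3, C2]
    have e : (2 : ℂ) ^ 1 * w' = 2 ^ 1 * w + (2 ^ 1 * w' - 2 ^ 1 * w) := by ring
    rw [e, sg_add (twoCh h (k := 2) (by norm_num)).lat _ d1']
  have S2 : SS M' w' 2 = SS M w 2 := by
    unfold SS
    rw [h2, C3]
    have e : (2 : ℂ) ^ 2 * w' = 2 ^ 2 * w + (2 ^ 2 * w' - 2 ^ 2 * w) := by ring
    rw [e, sg_add (twoCh h (k := 3) (by norm_num)).lat _ d2']
  have S0 : SS M' w' 0 = 2 * SS M w 1 - SS M w 0 := by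
    have g1 := SS_diff h (j := 0) (by norm_num) (x := x) (le_Ch 3 hx) hx'
    have e0 : SS M' w' 0 = sg (Ch M w 2) (Ch M w 1) (2 ^ 0 * w') := by
      unfold SS
      rw [C2, C1]
    have e : (2 : ℂ) ^ 0 * w' = 2 ^ 0 * w + x + (w' - (w + x)) := by ring
    rw [e0, e, sg_add (twoCh h (k := 1) (by norm_num)).lat _ hw]
    exact g1
  have S3 : SS M' w' 3 = SS M w 2 - SS M w 3 := by
    have t1 : Tri (Ch M w 4) (half (Ch M w 5)) (Ch M w 3) (half M') := by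
      refine ⟨two_half_Ch h (k := 3) (by norm_num), twoCh h (k := 3) (by norm_num), h4'.half_two,
        half_ne h (k := 3) (by norm_num), ?_, ?_⟩
      · have := half_ne h' (k := 3) (by norm_num)
        rw [chFive h', C3] at this
        exact this.symm
      · rw [chFive h]
        exact fun h1 => hne (half_inj h1)
    have g1 := SS_step h (j := 2) (by norm_num) t1
    have e4 : (2 : ℕ) + 2 = 4 := rfl
    have e3 : (2 : ℕ) + 1 = 3 := rfl
    rw [e4, e3, ← sg_eq_gf] at g1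
    have e0 : SS M' w' 3 = sg M' (Ch M w 4) (2 ^ 3 * w') := by
      unfold SS
      have e5 : (3 : ℕ) + 2 = 5 := rfl
      have e4' : (3 : ℕ) + 1 = 4 := rfl
      rw [e5, e4', chFive h', h2]
    have e : (2 : ℂ) ^ 3 * w' = 2 ^ 3 * w + (2 ^ 3 * w' - 2 ^ 3 * w) := by ring
    rw [e0, e, sg_add h4'.lat _ d3M', g1]
  have n2 := SS_ne' h (j := 2) (by norm_num)
  constructor
  · unfold fv
    rw [S0, S1, S2]
    field_simp
    ring
  · have u1 := fu_mul h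
    have u2 := fu_mul h'
    rw [S2, S3] at u2
    apply mul_right_cancel₀ n2
    linear_combination u2 + u1

theorem quarter_turnE (h : Fr M w) (h' : Fr M' w') (h3 : Ch M' w' 3 = Ch M w 3)
    {g : ℂ} (hg : 4 * g ∈ M) (hg' : 2 * g ∉ Ch M w 2) (hm : 8 * w - 4 * g ∈ M')
    (hw : w' - (w + g) ∈ M) :
    fv M' w' ^ 2 = -1 / fv M w ^ 2 ∧ fu M' w' * fv M w = -(fu M w * fv M' w') := by
  set m : ℂ := w' - (w + g) with hmdef
  have hw' : w' = w + g + m := by rw [hmdef]; ring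
  have m3 : m ∈ Ch M w 3 := le_Ch 3 hw
  -- lattices
  have d2 : (2 : ℂ) ^ 2 * w' - 2 ^ 2 * w ∈ Ch M w 3 := by
    have e : (2 : ℂ) ^ 2 * w' - 2 ^ 2 * w = 4 * g + ((4 : ℕ) : ℂ) * m := by
      rw [hw']
      push_cast
      ring
    rw [e]
    exact add_mem (le_Ch 3 hg) (natmul_mem m3 4)
  have C2 : Ch M' w' 2 = Ch M w 2 := Ch_eq_of h3 d2
  have hA1 : 2 * g ∈ half (Ch M w 4) := by
    rw [mem_half]
    have e : 2 * (2 * g) = 4 * g := by ring
    rw [e]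
    exact le_Ch 4 hg
  have hgL : 2 * g ∉ Ch M w 3 := fun h1 => hg' (Ch_le 2 h1)
  have h4w : (2 : ℂ) ^ 2 * w ∈ Ch M w 2 := pow_mem_Ch 2
  have h4w' : (2 : ℂ) ^ 2 * w ∉ Ch M w 3 := pow_notMem h (by norm_num) (by norm_num)
  have T34' : Two (Ch M' w' 4) (Ch M w 3) := by
    have := twoCh h' (k := 3) (by norm_num)
    rwa [h3] at this
  have hne4 : Ch M' w' 4 ≠ Ch M w 4 := by
    intro h0
    have h1 : (2 : ℂ) ^ 3 * w ∈ Ch M w 4 := by
      have e : (2 : ℂ) ^ 3 * w = (8 * w - 4 * g) + 4 * g := by ring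
      rw [e]
      refine add_mem ?_ (le_Ch 4 hg)
      rw [← h0]
      exact le_Ch 4 hm
    exact pow_notMem h (by norm_num) (by norm_num) h1
  have t1 : Tri (Ch M w 3) (half (Ch M w 4)) (Ch M w 2) (half (Ch M' w' 4)) := by
    refine ⟨two_half_Ch h (k := 2) (by norm_num), twoCh h (k := 2) (by norm_num), T34'.half_two,
      half_ne h (k := 2) (by norm_num), ?_, fun h1 => hne4 (half_inj h1)⟩
    have := half_ne h' (k := 2) (by norm_num)
    rw [C2] at this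
    exact this.symm
  have mA3 : m ∈ half (Ch M' w' 4) := T34'.half_two.le m3
  have m2A3 : 2 * m ∈ half (Ch M' w' 4) := by
    have := natmul_mem mA3 2
    push_cast at this
    exact this
  -- the value F3 (4 w) and S_2'
  have F3a2 : gf (Ch M w 3) (half (Ch M' w' 4)) (2 ^ 2 * w) = SS M w 1 - SS M w 2 :=
    SS_step h (j := 1) (by norm_num) t1
  have S2' : SS M' w' 2 = SS M w 2 - SS M w 1 := by
    have e0 : SS M' w' 2 = gf (Ch M w 3) (half (Ch M' w' 4)) (2 ^ 2 * w') := by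
      rw [SS_eq, h3]
    have e : (2 : ℂ) ^ 2 * w' = 2 ^ 2 * w + 2 * (2 * g) + 2 * (2 * m) := by
      rw [hw']
      ring
    rw [e0, e, Tri.per2 t1.d m2A3, t1.rot.rot.anti2 hA1 hgL h4w', F3a2]
    ring
  have S1' : SS M' w' 1 = 2 * SS M w 2 - SS M w 1 := by
    have g1 := SS_diff h (j := 1) (by norm_num) (x := 2 * g) (mem_half.1 hA1) hgL
    have e0 : SS M' w' 1 = sg (Ch M w 3) (Ch M w 2) (2 ^ 1 * w') := by
      unfold SS
      rw [h3, C2]
    have e : (2 : ℂ) ^ 1 * w' = 2 ^ 1 * w + 2 * g + ((2 : ℕ) : ℂ) * m := by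
      rw [hw']
      push_cast
      ring
    rw [e0, e, sg_add (twoCh h (k := 2) (by norm_num)).lat _ (natmul_mem m3 2)]
    exact g1
  have n2 := SS_ne' h (j := 2) (by norm_num)
  have n2' := SS_ne' h' (j := 2) (by norm_num)
  have v1 := fv_sqE h
  have v2 := fv_sqE h'
  have nv := fv_neE h
  refine ⟨?_, ?_⟩
  · rw [S1', S2'] at v2
    have v3 : fv M' w' ^ 2 * fv M w ^ 2 = -1 := by
      apply mul_right_cancel₀ n2
      linear_combination -v2 + fv M' w' ^ 2 * v1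
    rw [← v3]
    field_simp
  -- the lattice Ch 1
  have C1 : Two (Ch M w 2) (Ch M' w' 1) := by
    have := twoCh h' (k := 1) (by norm_num)
    rwa [C2] at this
  have hne1 : Ch M w 1 ≠ Ch M' w' 1 := by
    intro h0
    have h1 : (2 : ℂ) ^ 1 * w' ∈ Ch M w 1 := by
      rw [h0]
      exact pow_mem_Ch 1
    have h5 : 2 * g ∈ Ch M w 1 := by
      have e : 2 * g = 2 ^ 1 * w' - 2 ^ 1 * w - ((2 : ℕ) : ℂ) * m := by
        rw [hw']
        push_cast
        ring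
      rw [e]
      exact _root_.sub_mem (_root_.sub_mem h1 (pow_mem_Ch 1)) (natmul_mem (le_Ch 1 hw) 2)
    obtain ⟨m1, hm1, n, hn⟩ := mem_Ch.1 h5
    have h6 : ((4 * n : ℤ) : ℂ) * w ∈ M := by
      have e : ((4 * n : ℤ) : ℂ) * w = 4 * g - ((2 : ℕ) : ℂ) * m1 := by
        push_cast
        linear_combination -2 * hn
      rw [e]
      exact _root_.sub_mem hg (natmul_mem hm1 2)
    have h7 := (int_mem_M h).1 h6
    obtain ⟨c, hc⟩ : (8 : ℤ) ∣ n := by omega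
    apply hg'
    rw [hn, hc]
    refine mem_Ch.2 ⟨m1, hm1, 4 * c, ?_⟩
    push_cast
    ring
  have t0 : Tri (Ch M w 2) (half (Ch M w 3)) (Ch M w 1) (Ch M' w' 1) := by
    refine ⟨two_half_Ch h (k := 1) (by norm_num), twoCh h (k := 1) (by norm_num), C1,
      half_ne h (k := 1) (by norm_num), hne1, ?_⟩
    have := half_ne h' (k := 1) (by norm_num)
    rw [h3] at this
    exact this.symm
  have t0' : Tri (Ch M' w' 2) (half (Ch M' w' 3)) (Ch M' w' 1) (Ch M w 1) := by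
    rw [C2, h3]
    exact t0.sw
  have D0 : gf (Ch M w 2) (Ch M' w' 1) (2 ^ 1 * w) = SS M w 0 - SS M w 1 :=
    SS_step h (j := 0) (by norm_num) t0
  have D0' : gf (Ch M w 2) (Ch M w 1) (2 ^ 1 * w') = SS M' w' 0 - SS M' w' 1 := by
    have := SS_step h' (j := 0) (by norm_num) t0'
    have e2 : (0 : ℕ) + 2 = 2 := rfl
    have e1 : (0 : ℕ) + 1 = 1 := rfl
    rw [e2, e1, C2] at this
    exact this
  have hmC1 : m ∈ Ch M w 1 := le_Ch 1 hw
  have D0'' : gf (Ch M w 2) (Ch M w 1) (2 ^ 1 * w + 2 * g) = SS M' w' 0 - SS M' w' 1 := by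
    rw [← D0']
    have e : (2 : ℂ) ^ 1 * w' = 2 ^ 1 * w + 2 * g + 2 * m := by
      rw [hw']
      ring
    rw [e, Tri.per2 t0.b hmC1]
  -- the values F1 (a3), F3 (a1)
  have F1a3 : gf (Ch M w 3) (half (Ch M w 4)) (2 ^ 2 * w + 2 * g) = 2 * SS M w 3 - SS M w 2 := by
    have g1 := SS_diff h (j := 2) (by norm_num) (x := 2 * g) (by
      have e5 : (2 : ℕ) + 3 = 5 := rfl
      rw [e5, chFive h]
      have e : 2 * (2 * g) = 4 * g := by ring
      rw [e]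
      exact hg) (fun h1 => hgL (Ch_le 3 h1))
    rw [← sg_eq_gf]
    exact g1
  have F3a1 : -gf (Ch M w 3) (half (Ch M' w' 4)) (2 * g) = 2 * SS M' w' 3 - SS M' w' 2 := by
    have g1 := SS_diff h' (j := 2) (by norm_num) (x := 4 * w - 2 * g) (by
      have e5 : (2 : ℕ) + 3 = 5 := rfl
      rw [e5, chFive h']
      have e : 2 * (4 * w - 2 * g) = 8 * w - 4 * g := by ring
      rw [e]
      exact hm) (fun h1 => by
        have h5 : 4 * w - 2 * g ∈ Ch M w 2 := by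
          rw [← C2]
          exact Ch_anti (by norm_num) h1
        apply hg'
        have e : 2 * g = 2 ^ 2 * w - (4 * w - 2 * g) := by ring
        rw [e]
        exact _root_.sub_mem h4w h5)
    have e4 : (2 : ℕ) + 2 = 4 := rfl
    have e3 : (2 : ℕ) + 1 = 3 := rfl
    rw [e4, e3, h3, sg_eq_gf] at g1
    rw [← g1]
    have e : (2 : ℂ) ^ 2 * w' + (4 * w - 2 * g) = 2 * g + 2 * (2 ^ 2 * w) + 2 * (2 * m) := by
      rw [hw']
      ring
    rw [e, Tri.per2 t1.d m2A3]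
    have t1' : Tri (Ch M w 3) (half (Ch M' w' 4)) (Ch M w 2) (half (Ch M w 4)) :=
      ⟨t1.d, t1.b, t1.a, t1.bd.symm, t1.ab.symm, t1.da.symm⟩
    rw [t1'.anti2 h4w h4w' hgL]
  -- the relations
  have h2w : (2 : ℂ) ^ 1 * w ∈ Ch M w 1 := pow_mem_Ch 1
  have h2w' : (2 : ℂ) ^ 1 * w ∉ Ch M w 2 := pow_notMem h (by norm_num) (by norm_num)
  have hB1 : 2 * g ∈ half (Ch M w 3) := by
    rw [mem_half]
    have e : 2 * (2 * g) = 4 * g := by ring
    rw [e]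
    exact le_Ch 3 hg
  obtain ⟨r1, r2⟩ := t1.sympl hA1 hgL h4w h4w'
  obtain ⟨-, r3⟩ := t0.sympl hB1 hg' h2w h2w'
  have n1 : gf (Ch M w 3) (half (Ch M w 4)) (2 ^ 2 * w) ≠ 0 := t1.val_ne h4w h4w'
  have n3 : gf (Ch M w 3) (Ch M w 2) (2 * g) ≠ 0 := t1.swap.val_ne hA1 hgL
  have n4 : gf (Ch M w 2) (Ch M w 1) (2 * g) ≠ 0 := t0.swap.val_ne hB1 hg'
  have g2b1 : gf (Ch M w 2) (Ch M w 1) (2 * g) =
      gf (Ch M w 3) (Ch M w 2) (2 * g) + gf (Ch M w 3) (Ch M w 2) (2 * g + 2 ^ 2 * w) := by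
    refine gsum t1.b h4w h4w' t0.b ?_ hg'
    have e : (2 : ℂ) ^ 2 * w / 2 = 2 ^ 1 * w := by ring
    rw [e]
    exact h2w
  have g1b2 : gf (Ch M w 2) (half (Ch M w 3)) (2 ^ 1 * w) = SS M w 1 := (SS_eq M w 1).symm
  have F1a2 : gf (Ch M w 3) (half (Ch M w 4)) (2 ^ 2 * w) = SS M w 2 := (SS_eq M w 2).symm
  have ecomm : 2 * g + (2 : ℂ) ^ 2 * w = 2 ^ 2 * w + 2 * g := by ring
  rw [ecomm] at g2b1
  rw [D0'', g1b2, D0] at r3
  rw [F1a2] at n1 r1 r2
  rw [F1a3] at r1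
  rw [F3a2] at r2
  set F2a1 := gf (Ch M w 3) (Ch M w 2) (2 * g)
  set F2a3 := gf (Ch M w 3) (Ch M w 2) (2 ^ 2 * w + 2 * g)
  set F3a1' := gf (Ch M w 3) (half (Ch M' w' 4)) (2 * g)
  set G := gf (Ch M w 2) (Ch M w 1) (2 * g)
  have key : F3a1' * SS M w 1 = (2 * SS M w 3 - SS M w 2) * (F2a1 + F2a3) := by
    apply mul_left_cancel₀ (mul_ne_zero n1 n3)
    linear_combination (-(SS M w 1) * F2a1) * r1 + (-(2 * SS M w 3 - SS M w 2) * F2a1) * r2
  have fin : F3a1' * (SS M w 0 - SS M w 1) = (2 * SS M w 3 - SS M w 2) * (SS M' w' 0 - SS M' w' 1) := by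
    apply mul_left_cancel₀ n4
    have : G * (F3a1' * (SS M w 0 - SS M w 1)) = F3a1' * ((SS M' w' 0 - SS M' w' 1) * SS M w 1) := by
      rw [r3]
      ring
    rw [this, g2b1]
    linear_combination (SS M' w' 0 - SS M' w' 1) * key
  have u1 := fu_mul h
  have u2 := fu_mul h'
  rw [← F3a1] at u2
  have w1 : fv M w * (2 * SS M w 2) = SS M w 0 - SS M w 1 := by
    unfold fv
    field_simp
  have w2 : fv M' w' * (2 * SS M' w' 2) = SS M' w' 0 - SS M' w' 1 := by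
    unfold fv
    field_simp
  rw [← w1, ← w2, ← u1] at fin
  apply mul_left_cancel₀ (mul_ne_zero (mul_ne_zero (two_ne_zero (α := ℂ)) n2) n2')
  linear_combination (2 * SS M w 2 * fv M w) * u2 - fin

end Pool.Agent.Work.MP_8efaaa_nt.R
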