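import Mathlib
import Pool.Agent.Work.MP_8efaaa_nt.R.Defs
import Pool.Agent.Work.MP_8efaaa_nt.R.SH

/-!
# Interface of block A: the functions of a pair `(M, w)`

All statements are verified numerically for random lattices.
-/

set_option autoImplicit false

namespace Pool.Agent.Work.MP_8efaaa_nt.R

open Pool.Agent.Work.CM
open scoped Pointwise

variable {M M' : Submodule ℤ ℂ} {w w' : ℂ}

theorem Ch_five (h : Fr M w) : Ch M w 5 = M := by exact chFive h

theorem two_Ch (h : Fr M w) {k : ℕ} (hk : k < 5) : Two (Ch M w (k + 1)) (Ch M w k) := by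
  exact twoCh h hk

theorem SS_ne (h : Fr M w) {j : ℕ} (hj : j ≤ 3) : SS M w j ≠ 0 := by exact SS_ne' h hj

theorem fz_sq (h : Fr M w) : fz M w ^ 2 = 1 + fk M w ^ 2 := by exact fz_sqE h

theorem fvz_sq (h : Fr M w) : (fv M w * fz M w) ^ 2 = 2 * fk M w := by exact fvz_sqE h

theorem fk_ne (h : Fr M w) : fk M w ≠ 0 := by exact fk_neE h

theorem fz_ne (h : Fr M w) : fz M w ≠ 0 := by exact fz_neE h

theorem fz_ne' (h : Fr M w) : 2 - fz M w ^ 2 ≠ 0 := by exact fz_neE' h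

theorem csq_eq (h : Fr M w) :
    csq M (Ch M w 4) = SS M w 3 ^ 4 * (fz M w ^ 2 * (2 - fz M w ^ 2)) := by exact csq_eqE h

/-- the normalized values of `sg` at the multiples of `w` -/
noncomputable def tn (M : Submodule ℤ ℂ) (w : ℂ) (n : ℕ) : ℂ :=
  sg M (Ch M w 4) (n * w) / sg M (Ch M w 4) (8 * w)

theorem tn_ne (h : Fr M w) {n : ℕ} (hn : ¬ 16 ∣ n) : tn M w n ≠ 0 := by
  unfold tn
  refine div_ne_zero (sg_nat_ne h hn) ?_
  rw [← SS_three h]
  exact SS_ne' h le_rfl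

theorem fz_tn (h : Fr M w) : fz M w = tn M w 4 := by
  unfold fz tn
  rw [SS_three h, sg_five h]
  push_cast
  rfl

theorem fk_tn (h : Fr M w) : fk M w = tn M w 2 * tn M w 6 / tn M w 4 - 1 := by
  have n3 := SS_ne' h (j := 3) le_rfl
  have n4 := sg_nat_ne h (n := 4) (by norm_num)
  push_cast at n4
  obtain ⟨p1, -⟩ := s_even h
  have p2 := fk_aux h
  have p3 := s_four h
  unfold tn fk
  rw [← SS_three h]
  push_cast
  have e : sg M (Ch M w 4) (2 * w) / SS M w 3 * (sg M (Ch M w 4) (6 * w) / SS M w 3) /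
      (sg M (Ch M w 4) (4 * w) / SS M w 3) =
      (sg M (Ch M w 4) (2 * w) * sg M (Ch M w 4) (6 * w)) / (sg M (Ch M w 4) (4 * w) * SS M w 3) := by
    field_simp
  rw [e, p1]
  have n2 := SS_ne' h (j := 2) (by norm_num)
  have e2 : sg (Ch M w 4) (Ch M w 3) (2 * w) =
      sg M (Ch M w 4) (4 * w) * (SS M w 1 + 2 * SS M w 3 - SS M w 2) / (2 * SS M w 3) := by
    rw [eq_div_iff (mul_ne_zero two_ne_zero n3)]
    apply mul_left_cancel₀ n4
    apply mul_left_cancel₀ n2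
    linear_combination (SS M w 2 * SS M w 3) * p2 - (SS M w 2 * (SS M w 1 + 2 * SS M w 3 - SS M w 2)) * p3
  rw [e2]
  field_simp
  ring

theorem fv_tn (h : Fr M w) : fv M w =
    ((tn M w 1 * tn M w 3 * tn M w 5 * tn M w 7 / (tn M w 2 * tn M w 4 * tn M w 6)) ^ 2 -
      (tn M w 2 * tn M w 6 / tn M w 4) ^ 2) / (2 * tn M w 4 ^ 2) := by
  have n0 := SS_ne' h (j := 0) (by norm_num)
  have n1 := SS_ne' h (j := 1) (by norm_num)
  have n2 := SS_ne' h (j := 2) (by norm_num)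
  have n3 := SS_ne' h (j := 3) le_rfl
  have p0 := s_odd h
  obtain ⟨-, p1⟩ := s_even h
  have p3 := s_four h
  have e2 : (tn M w 2 * tn M w 6) ^ 2 = SS M w 2 * SS M w 1 / SS M w 3 ^ 2 := by
    unfold tn
    rw [← SS_three h]
    push_cast
    rw [div_mul_div_comm, div_pow, p1]
    field_simp
  have e4 : tn M w 4 ^ 2 = SS M w 2 / SS M w 3 := by
    unfold tn
    rw [← SS_three h]
    push_cast
    rw [div_pow, p3]
    field_simp
  have e1 : (tn M w 1 * tn M w 3 * tn M w 5 * tn M w 7) ^ 2 =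
      SS M w 2 ^ 2 * (SS M w 1 * SS M w 0) / SS M w 3 ^ 4 := by
    unfold tn
    rw [← SS_three h]
    push_cast
    have e : sg M (Ch M w 4) (1 * w) / SS M w 3 * (sg M (Ch M w 4) (3 * w) / SS M w 3) *
        (sg M (Ch M w 4) (5 * w) / SS M w 3) * (sg M (Ch M w 4) (7 * w) / SS M w 3) =
        (sg M (Ch M w 4) (1 * w) * sg M (Ch M w 4) (3 * w) * sg M (Ch M w 4) (5 * w) *
          sg M (Ch M w 4) (7 * w)) / SS M w 3 ^ 4 := by
      field_simp
    rw [e, div_pow, p0]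
    field_simp
  have e3 : (tn M w 2 * tn M w 4 * tn M w 6) ^ 2 = (tn M w 2 * tn M w 6) ^ 2 * tn M w 4 ^ 2 := by ring
  rw [div_pow, div_pow, e1, e3, e2, e4]
  unfold fv
  field_simp

/-- homogeneity -/
theorem f_smul (h : Fr M w) {m : ℂ} (hm : m ≠ 0) :
    fz (m • M) (m * w) = fz M w ∧ fk (m • M) (m * w) = fk M w ∧ fv (m • M) (m * w) = fv M w := by
  exact f_smulE h hm

/-- odd multiples of `w` -/
theorem f_odd (h : Fr M w) {d : ℤ} (hd : Odd d) (hw : w' - d * w ∈ M) :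
    fz M w' = e8 d * fz M w ∧ fk M w' = fk M w ∧ fv M w' = fv M w := by
  exact f_oddE h hd hw

theorem half_turn (h : Fr M w) (h' : Fr M' w') (h2 : Ch M' w' 4 = Ch M w 4) (hne : M' ≠ M)
    {x : ℂ} (hx : 2 * x ∈ M) (hx' : x ∉ Ch M w 2) (hw : w' - (w + x) ∈ Ch M w 2) :
    fv M' w' = -fv M w ∧ fu M' w' = -fu M w := by
  exact half_turnE h h' h2 hne hx hx' hw

theorem quarter_turn (h : Fr M w) (h' : Fr M' w') (h3 : Ch M' w' 3 = Ch M w 3)
    {g : ℂ} (hg : 4 * g ∈ M) (hg' : 2 * g ∉ Ch M w 2) (hm : 8 * w - 4 * g ∈ M')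
    (hw : w' - (w + g) ∈ M) :
    fv M' w' ^ 2 = -1 / fv M w ^ 2 ∧ fu M' w' * fv M w = -(fu M w * fv M' w') := by
  exact quarter_turnE h h' h3 hg hg' hm hw

end Pool.Agent.Work.MP_8efaaa_nt.R
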