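import Mathlib
import Pool.Agent.Work.CM.Lio

/-!
# Module BLio: theorem of Liouville, meromorphic form

`f` is meromorphic everywhere, without poles (order `≥ 0`; junk values at isolated points are
allowed) and `N`-periodic. Then all its limits are equal to a constant `c`.

Proof. Let `F = toMeromorphicNFOn f univ` (or `F z = limUnder (𝓝[≠] z) f`). The order of `f` at
every point is `≥ 0`, so `F` is analytic at every point
(`MeromorphicNFAt.meromorphicOrderAt_nonneg_iff_analyticAt`), and `F =ᶠ[𝓝[≠] z] f` for all `z`. For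
`n` in `N`, `F (z + n)` and `F z` are the limits of `f` at `z + n` and at `z`, hence equal by
periodicity of `f`. So `F` is entire and `N`-periodic: bounded
(`IsZLattice.isCompact_range_of_periodic`, see the proof of `IsLat.const_of_bounded` in
`CM/Lio.lean`), so constant.
-/

set_option autoImplicit false

namespace Pool.Agent.Work.MP_8efaaa_nt.R

open Filter Topology Pool.Agent.Work.CM

theorem bLio {N : Submodule ℤ ℂ} (h : IsLat N) {f : ℂ → ℂ} (hm : ∀ z, MeromorphicAt f z)
    (ho : ∀ z, 0 ≤ meromorphicOrderAt f z) (hper : ∀ z, ∀ n ∈ N, f (z + n) = f z) :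
    ∃ c : ℂ, ∀ z, Tendsto f (𝓝[≠] z) (𝓝 c) := by
  have hmO : MeromorphicOn f Set.univ := fun z _ => hm z
  set F : ℂ → ℂ := toMeromorphicNFOn f Set.univ with hF
  have hfF : ∀ z, f =ᶠ[𝓝[≠] z] F := fun z =>
    (hmO.toMeromorphicNFOn_eq_self_on_nhdsNE (Set.mem_univ z)).symm
  have hFa : ∀ z, AnalyticAt ℂ F z := by
    intro z
    have h1 : MeromorphicNFAt F z := meromorphicNFOn_toMeromorphicNFOn f Set.univ (Set.mem_univ z)
    rw [← h1.meromorphicOrderAt_nonneg_iff_analyticAt, ← meromorphicOrderAt_congr (hfF z)]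
    exact ho z
  have hlim : ∀ z, Tendsto f (𝓝[≠] z) (𝓝 (F z)) := by
    intro z
    have h1 : Tendsto F (𝓝[≠] z) (𝓝 (F z)) :=
      (hFa z).continuousAt.tendsto.mono_left nhdsWithin_le_nhds
    exact h1.congr' (hfF z).symm
  have hFper : ∀ z, ∀ n ∈ N, F (z + n) = F z := by
    intro z n hn
    have h1 : Tendsto (fun w : ℂ => w + n) (𝓝[≠] z) (𝓝[≠] (z + n)) := by
      refine tendsto_nhdsWithin_iff.2 ⟨?_, ?_⟩
      · exact ((continuous_add_const n).tendsto z).mono_left nhdsWithin_le_nhds
      · filter_upwards [self_mem_nhdsWithin] with w hw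
        intro h2
        exact hw (add_right_cancel h2)
    have h2 : Tendsto f (𝓝[≠] z) (𝓝 (F (z + n))) := by
      refine ((hlim (z + n)).comp h1).congr fun w => ?_
      exact hper w n hn
    exact tendsto_nhds_unique h2 (hlim z)
  have hFd : Differentiable ℂ F := fun z => (hFa z).differentiableAt
  obtain ⟨hd, hz⟩ := h.isZLattice
  refine ⟨F 0, fun z => ?_⟩
  have h7 := hFd.apply_eq_apply_of_bounded
    (IsZLattice.isCompact_range_of_periodic N F hFd.continuous fun z w hw => hFper z w hw).isBounded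
    z 0
  rw [← h7]
  exact hlim z

end Pool.Agent.Work.MP_8efaaa_nt.R
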