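import Mathlib
import Pool.Agent.Work.MP_8efaaa_nt.R.Defs
import Pool.Agent.Work.CM.Tw5
import Pool.Agent.Work.CM.Hom
import Pool.Agent.Work.CM.Tw3
import Pool.Agent.Work.MP_8efaaa_nt.R.SA

/-!
# Module BSg: first properties of `sg N L`

Write `e = ev N L`, `s = sg N L`, `s z = wpd N z / (2 (wp N z - e))`. Junk values: for `z ∈ N`,
`wpd N z = 0` (apply `IsLat.wpd_half`, `2 z ∈ N`), for `z ∈ L`, `z ∉ N`, `wp N z = e`
(`Two.ev_eq`), and division by zero is zero. So `s = 0` on `L` (`bsg_of_mem`).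

* `bsg_neg`: `wp` is even, `wpd` is odd.
* `bsg_add`: periodicity of `wp`, `wpd`.
* `bsg_add'`: for `z ∈ L` both sides are zero. For `z ∉ L`: near `z` the function
  `(wp (x + l) - e) (wp x - e)` is constant (`Two.translate`); its derivative
  `wpd (x + l) (wp x - e) + (wp (x + l) - e) wpd x` is zero at `z`; divide
  (`Two.wp_ne` at `z` and `z + l`).
* `bsg_sq`: `s ^ 2 = (4 p ^ 3 - g2 p - g3) / (4 (p - e) ^ 2)`, `p = wp N z` (`IsLat.ode`),
  `4 e ^ 3 - g2 e - g3 = 0` (`Two.cubic`), and `wp L z = p + (3 e ^ 2 - g2 / 4) / (p - e)`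
  (`Two.wp_eq`); field_simp and linear_combination.
* `bsg_eq_zero`: `s z = 0` iff `wpd N z = 0` iff `2 z ∈ N` (`IsLat.crit`, `IsLat.wpd_half`).
* `bsg_smul`, `bcsq_smul`: `wp_smul`, `wpd_smul`, `g2_smul`, `Two.smul`.
* `bcsq_eq`: `csq N L = 3 * ev L (half N) ^ 2 - g2 L / 4` (`Two.ev_half`, and `g2 L` from
  `Two.rel` or from `ode` for `L`; another way: `Two.translate` for `N ⊂ L` and for
  `L ⊂ half N`; or: the square of the function `s z * s (z + p)` with `bsg_sq`).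
* `bcsq_ne`: from `bcsq_eq` and `Two.ne0` for `h.half_two`.
-/

set_option autoImplicit false

namespace Pool.Agent.Work.MP_8efaaa_nt.R

open Filter Topology Pool.Agent.Work.CM
open scoped Pointwise

variable {N L : Submodule ℤ ℂ}

theorem bsg_neg (h : Two N L) (z : ℂ) : sg N L (-z) = -sg N L z := sg_neg h.lat z

theorem bsg_add (h : Two N L) (z : ℂ) {n : ℂ} (hn : n ∈ N) : sg N L (z + n) = sg N L z :=
  sg_add h.lat z hn

theorem bsg_of_mem (h : Two N L) {z : ℂ} (hz : z ∈ L) : sg N L z = 0 := by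
  unfold sg
  rw [h.lat.wpd_half (h.two_mem hz), zero_div]

theorem bsg_add' (h : Two N L) (z : ℂ) {l : ℂ} (hl : l ∈ L) (hl' : l ∉ N) :
    sg N L (z + l) = -sg N L z := by
  by_cases hz : z ∈ L
  · rw [bsg_of_mem h hz, bsg_of_mem h (add_mem hz hl), neg_zero]
  · exact sg_anti h hl hl' hz

theorem bsg_sq (h : Two N L) {z : ℂ} (hz : z ∉ L) : sg N L z ^ 2 = wp L z + 2 * ev N L := by
  rw [sg_sq h hz, h.ev_half]
  ring

theorem bsg_eq_zero (h : Two N L) {z : ℂ} (hz : z ∉ L) : sg N L z = 0 ↔ 2 * z ∈ N := by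
  constructor
  · intro h0
    by_contra h1
    exact sg_ne h (z := z) (fun h2 => h1 (mem_half.1 h2)) h0
  · intro h1
    unfold sg
    rw [h.lat.wpd_half h1, zero_div]

theorem bsg_smul (h : Two N L) {m : ℂ} (hm : m ≠ 0) (z : ℂ) :
    sg (m • N) (m • L) (m * z) = m⁻¹ * sg N L z := by
  unfold sg
  rw [wpd_smul hm, wp_smul hm, (h.smul hm).2]
  have e : 2 * ((m ^ 2)⁻¹ * wp N z - (m ^ 2)⁻¹ * ev N L) = (m ^ 2)⁻¹ * (2 * (wp N z - ev N L)) := by
    ring
  rw [e]
  by_cases h0 : wp N z - ev N L = 0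
  · rw [h0]
    simp
  · field_simp

theorem bcsq_smul (h : Two N L) {m : ℂ} (hm : m ≠ 0) :
    csq (m • N) (m • L) = (m ^ 4)⁻¹ * csq N L := by
  unfold csq
  rw [g2_smul hm, (h.smul hm).2, mul_pow, ← inv_pow]
  field_simp

theorem bcsq_eq (h : Two N L) : csq N L = 3 * ev L (half N) ^ 2 - g2 L / 4 := by
  have hh := h.half_two
  obtain ⟨B, hB, hne⟩ := h.lat'.exists_two (half N)
  have h1 := h.next hB hne
  have h2 := hh.cubic
  have h3 := hB.cubic
  have h4 : ev L (half N) ≠ ev L B := Two.ev_ne hh hB hne.symm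
  have h5 : 4 * (ev L (half N) ^ 2 + ev L (half N) * ev L B + ev L B ^ 2) - g2 L = 0 := by
    have h6 : (ev L (half N) - ev L B) *
        (4 * (ev L (half N) ^ 2 + ev L (half N) * ev L B + ev L B ^ 2) - g2 L) = 0 := by
      linear_combination h2 - h3
    exact (mul_eq_zero.1 h6).resolve_left (sub_ne_zero.2 h4)
  unfold csq
  rw [h.ev_half] at h5 ⊢
  linear_combination (-1 / 4 : ℂ) * h5 + h1

theorem bcsq_ne (h : Two N L) : csq N L ≠ 0 := by
  intro h0
  apply h.half_two.ne0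
  have h1 := bcsq_eq h
  rw [h0] at h1
  linear_combination (-4 : ℂ) * h1

end Pool.Agent.Work.MP_8efaaa_nt.R
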