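import Mathlib
import Pool.Agent.Work.MP_8efaaa_nt.R.BSg

/-!
# Module BSa: analytic properties of `s = sg N L`

* `bsg_analytic`: `wp N`, `wpd N` are analytic off `N`, the denominator is not zero off `L`
  (`Two.wp_ne`).
* `bsg_lead`: with `wp N z = z ^ (-2) + φ z` near `0` (`IsLat.exists_local`; `φ` analytic) and
  `wpd N z = -2 z ^ (-3) + φ' z` on a punctured neighbourhood (derivative of the previous equation,
  `IsLat.hasDerivAt`): `z s z = (-2 + z ^ 3 φ') / (2 (1 + z ^ 2 (φ - e)))`, limit `-1`.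
* `bsg_mero`: at `z ∉ L` from `bsg_analytic`; at `0`: quotient of meromorphic functions (`wp N`,
  `wpd N = deriv (wp N)`); at `z ∈ L` by the translation formulas `bsg_add`, `bsg_add'`
  (`s x = ± s (x - z)`).
* `bsg_ord_pole`: at `0` from `bsg_lead` (`z s z` tends to `-1`, so the order of `z s z` is zero,
  `meromorphicOrderAt_mul`), then translation.
* `bsg_deriv_sq`: `s ^ 2 = wp L + 2 e` off `L` (`bsg_sq`), so `2 s s' = wpd L` and
  `4 s ^ 2 s' ^ 2 = 4 wp L ^ 3 - g2 L wp L - g3 L`. With `E = ev L (half N) = - 2 e`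
  (`Two.ev_half`), `P = wp L z = s ^ 2 + E`, `P3 = wp L t = s(t) ^ 2 + E` and the third root
  `P4 = - E - P3` of the cubic (`t ∈ half L`, `t ∉ half N`), `s ^ 2 s' ^ 2 = (P - E) (P - P3) (P - P4)`
  `= s ^ 2 (s ^ 2 - s(t) ^ 2) (s ^ 2 + E - P4)` and `(E - P3) (E - P4) = 3 E ^ 2 - g2 L / 4 = csq`
  (`bcsq_eq`), so `E - P4 = - csq / s(t) ^ 2`. This proves the formula at the points where
  `s z ≠ 0`; at the other points (isolated zeros, `2 z ∈ N`) use continuity of both sides (density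
  of the punctured neighbourhood).
* `bsg_ord_zero`: at a point `z` with `2 z ∈ N`, `z ∉ L`: `s z = 0`, `s' z ^ 2 = csq ≠ 0` (by
  `bsg_deriv_sq`; a point `t` exists: `t = u / 2` where `u ∈ L`, `u ∉ N`): a simple zero.
* `bsg_ord`: analytic and not zero.
-/

set_option autoImplicit false

namespace Pool.Agent.Work.MP_8efaaa_nt.R

open Filter Topology Pool.Agent.Work.CM
open scoped Pointwise

variable {N L : Submodule ℤ ℂ}

theorem bsg_analytic (h : Two N L) : AnalyticOnNhd ℂ (sg N L) (L : Set ℂ)ᶜ := by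
  intro z hz
  have hzN : z ∈ (N : Set ℂ)ᶜ := fun hz' => hz (h.le hz')
  exact (h.lat.analyticOnNhd' z hzN).div
    (analyticAt_const.mul ((h.lat.analyticOnNhd z hzN).sub analyticAt_const))
    (mul_ne_zero two_ne_zero (sub_ne_zero.2 (h.wp_ne hz)))

theorem bsg_lead (h : Two N L) : Tendsto (fun z => z * sg N L z) (𝓝[≠] 0) (𝓝 (-1)) := by
  obtain ⟨φ, hφ, hφ0, hφz⟩ := h.lat.exists_local
  have hnear : ∀ᶠ z in 𝓝[≠] (0 : ℂ), wpd N z = -2 / z ^ 3 + deriv φ z := by
    have h1 : ∀ᶠ z in 𝓝[≠] (0 : ℂ), AnalyticAt ℂ φ z :=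
      hφ.eventually_analyticAt.filter_mono nhdsWithin_le_nhds
    filter_upwards [h1, self_mem_nhdsWithin] with z hz hz0
    have hz0' : z ≠ 0 := hz0
    rw [← h.lat.deriv_wp]
    have h2 : wp N = fun w => 1 / w ^ 2 + φ w := funext hφz
    have h3 : HasDerivAt (fun w : ℂ => 1 / w ^ 2) (-2 / z ^ 3) z := by
      have h4 : HasDerivAt (fun w : ℂ => w ^ 2) (2 * z) z := by
        simpa using hasDerivAt_pow 2 z
      have h5 := h4.fun_inv (pow_ne_zero 2 hz0')
      have h6 : (fun w : ℂ => 1 / w ^ 2) = fun w : ℂ => (w ^ 2)⁻¹ := by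
        funext w
        rw [one_div]
      rw [h6]
      refine h5.congr_deriv ?_
      field_simp
    rw [h2]
    exact (h3.add hz.differentiableAt.hasDerivAt).deriv
  have hlim : Tendsto (fun z : ℂ => (-2 + z ^ 3 * deriv φ z) /
      (2 * (1 + z ^ 2 * (φ z - ev N L)))) (𝓝[≠] 0) (𝓝 (-1)) := by
    have hc1 : ContinuousAt φ 0 := hφ.continuousAt
    have hc2 : ContinuousAt (deriv φ) 0 := hφ.deriv.continuousAt
    have h2 : ContinuousAt (fun z : ℂ => (-2 + z ^ 3 * deriv φ z) /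
        (2 * (1 + z ^ 2 * (φ z - ev N L)))) 0 := by
      refine ContinuousAt.div (by fun_prop) (by fun_prop) ?_
      simp
    have h3 := h2.tendsto
    have h4 : ((-2 : ℂ) + 0 ^ 3 * deriv φ 0) / (2 * (1 + 0 ^ 2 * (φ 0 - ev N L))) = -1 := by
      norm_num
    rw [h4] at h3
    exact h3.mono_left nhdsWithin_le_nhds
  refine hlim.congr' ?_
  filter_upwards [hnear, self_mem_nhdsWithin] with z hz hz0
  have hz0' : z ≠ 0 := hz0
  show _ = z * (wpd N z / (2 * (wp N z - ev N L)))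
  rw [hz, hφz z]
  have h5 : (1 / z ^ 2 + φ z - ev N L) = (1 + z ^ 2 * (φ z - ev N L)) / z ^ 2 := by
    field_simp
    ring
  rw [h5]
  have h6 : -2 / z ^ 3 + deriv φ z = (-2 + z ^ 3 * deriv φ z) / z ^ 3 := by
    field_simp
  rw [h6]
  have h7 : z * z ^ 2 * (z ^ 3)⁻¹ = 1 := by
    field_simp
  generalize (-2 + z ^ 3 * deriv φ z) = A
  generalize (1 + z ^ 2 * (φ z - ev N L)) = D
  simp only [div_eq_mul_inv, mul_inv, inv_inv]
  linear_combination (-A * (2⁻¹ * D⁻¹)) * h7

private theorem bsa_wp_mero (h : IsLat N) (z : ℂ) : MeromorphicAt (wp N) z := by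
  by_cases hz : z ∈ N
  · obtain ⟨f, hf, -, hfz⟩ := h.exists_local' hz
    have h2 : wp N = fun w => 1 / (w - z) ^ 2 + f w := funext hfz
    rw [h2]
    have h3 : MeromorphicAt (fun w : ℂ => 1 / (w - z) ^ 2) z := by
      have h4 : AnalyticAt ℂ (fun w : ℂ => (w - z) ^ 2) z := by fun_prop
      exact (analyticAt_const.meromorphicAt).fun_div h4.meromorphicAt
    exact h3.fun_add hf.meromorphicAt
  · exact (h.analyticOnNhd z hz).meromorphicAt

theorem bsg_mero (h : Two N L) (z : ℂ) : MeromorphicAt (sg N L) z := by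
  have h1 := bsa_wp_mero h.lat z
  have h2 : MeromorphicAt (wpd N) z := by
    rw [← h.lat.deriv_wp]
    exact h1.deriv
  have h3 : MeromorphicAt (fun w => 2 * (wp N w - ev N L)) z :=
    (MeromorphicAt.const 2 z).fun_mul (h1.fun_sub (MeromorphicAt.const _ z))
  exact h2.fun_div h3

private theorem bsa_lead' (h : Two N L) {z : ℂ} (hz : z ∈ L) :
    ∃ c : ℂ, c ≠ 0 ∧ Tendsto (fun x => (x - z) * sg N L x) (𝓝[≠] z) (𝓝 c) := by
  have h0 : Tendsto (fun x : ℂ => x - z) (𝓝[≠] z) (𝓝[≠] 0) := by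
    refine tendsto_nhdsWithin_iff.2 ⟨?_, ?_⟩
    · have h1 : ContinuousAt (fun x : ℂ => x - z) z := by fun_prop
      have h2 := h1.tendsto
      rw [sub_self] at h2
      exact h2.mono_left nhdsWithin_le_nhds
    · filter_upwards [self_mem_nhdsWithin] with x hx
      exact sub_ne_zero.2 hx
  have h1 := (bsg_lead h).comp h0
  by_cases hzN : z ∈ N
  · refine ⟨-1, by norm_num, h1.congr fun x => ?_⟩
    show (x - z) * sg N L (x - z) = (x - z) * sg N L x
    rw [← bsg_add h (x - z) hzN, sub_add_cancel]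
  · refine ⟨1, one_ne_zero, ?_⟩
    have h2 := h1.neg
    rw [neg_neg] at h2
    refine h2.congr fun x => ?_
    show -((x - z) * sg N L (x - z)) = (x - z) * sg N L x
    have h3 := bsg_add' h (x - z) hz hzN
    rw [sub_add_cancel] at h3
    rw [h3]
    ring

theorem bsg_ord_pole (h : Two N L) {z : ℂ} (hz : z ∈ L) :
    meromorphicOrderAt (sg N L) z = -1 := by
  obtain ⟨c, hc, hlim⟩ := bsa_lead' h hz
  have hm1 : MeromorphicAt (fun x : ℂ => x - z) z := by
    have h4 : AnalyticAt ℂ (fun w : ℂ => w - z) z := by fun_prop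
    exact h4.meromorphicAt
  have hm := hm1.fun_mul (bsg_mero h z)
  have h1 : meromorphicOrderAt (fun x => (x - z) * sg N L x) z = 0 :=
    (tendsto_ne_zero_iff_meromorphicOrderAt_eq_zero hm).1 ⟨c, hc, hlim⟩
  have h2 : meromorphicOrderAt (fun x => (x - z) * sg N L x) z =
      meromorphicOrderAt (fun x : ℂ => x - z) z + meromorphicOrderAt (sg N L) z :=
    meromorphicOrderAt_mul hm1 (bsg_mero h z)
  rw [h1] at h2
  have h3 : meromorphicOrderAt (fun x : ℂ => x - z) z = 1 := meromorphicOrderAt_id_sub_const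
  rw [h3] at h2
  generalize meromorphicOrderAt (sg N L) z = a at h2
  cases a with
  | top => exact absurd h2 (by simp)
  | coe a =>
    have h4 : (0 : ℤ) = 1 + a := by exact_mod_cast h2
    have h5 : a = -1 := by omega
    rw [h5]
    rfl

theorem bsg_deriv_sq (h : Two N L) {z : ℂ} (hz : z ∉ L) {t : ℂ} (ht : 2 * t ∈ L)
    (ht' : 2 * t ∉ N) :
    deriv (sg N L) z ^ 2 =
      (sg N L z ^ 2 - sg N L t ^ 2) * (sg N L z ^ 2 - csq N L / sg N L t ^ 2) := by
  have htL : t ∉ L := fun h1 => ht' (h.two_mem h1)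
  have hs := bsg_analytic h
  set S := sg N L with hS
  set e := ev N L with he
  have hE : ev L (half N) = -2 * e := h.ev_half
  have hcub := h.half_two.cubic
  have htc : wpd L t ^ 2 = 4 * wp L t ^ 3 - g2 L * wp L t - g3 L := h.lat'.ode htL
  rw [h.lat'.wpd_half ht] at htc
  have hne : wp L t ≠ ev L (half N) := h.half_two.wp_ne (fun h1 => ht' (mem_half.1 h1))
  have hP3 : S t ^ 2 = wp L t + 2 * e := bsg_sq h htL
  have hSt : S t ^ 2 ≠ 0 := by
    rw [hP3]
    intro h0
    apply hne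
    rw [hE]
    linear_combination h0
  have hcs : csq N L = 3 * ev L (half N) ^ 2 - g2 L / 4 := bcsq_eq h
  rw [hE] at hcub hne hcs
  have hg : 4 * ((-2 * e) ^ 2 + (-2 * e) * wp L t + wp L t ^ 2) - g2 L = 0 := by
    have h1 : (wp L t - -2 * e) *
        (4 * ((-2 * e) ^ 2 + (-2 * e) * wp L t + wp L t ^ 2) - g2 L) = 0 := by
      linear_combination (-1 : ℂ) * hcub - htc
    exact (mul_eq_zero.1 h1).resolve_left (sub_ne_zero.2 hne)
  have hquot : csq N L / S t ^ 2 = -(wp L t + (-2 * e)) + 2 * e + 2 * e - 2 * e := by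
    rw [div_eq_iff hSt, hcs, hP3]
    linear_combination hg / 4
  have key : ∀ w ∉ L, S w ^ 2 * (deriv S w ^ 2 -
      (S w ^ 2 - S t ^ 2) * (S w ^ 2 - csq N L / S t ^ 2)) = 0 := by
    intro w hw
    have h1 : (fun x => S x ^ 2) =ᶠ[𝓝 w] fun x => wp L x + 2 * e := by
      filter_upwards [h.lat'.compl_mem_nhds hw] with x hx
      exact bsg_sq h hx
    have h2 : HasDerivAt (fun x => S x ^ 2) (2 * S w * deriv S w) w := by
      have h3 := ((hs w hw).differentiableAt.hasDerivAt).fun_pow 2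
      simpa using h3
    have h4 : HasDerivAt (fun x => wp L x + 2 * e) (wpd L w) w :=
      (h.lat'.hasDerivAt hw).add_const _
    have h5 := h2.unique (h4.congr_of_eventuallyEq h1)
    have h6 := h.lat'.ode hw
    have h7 : S w ^ 2 = wp L w + 2 * e := bsg_sq h hw
    rw [← h5] at h6
    have h8 : wp L w = S w ^ 2 - 2 * e := by linear_combination -h7
    rw [h8] at h6
    rw [hquot, hP3]
    linear_combination h6 / 4 + hcub / 4 + (S w ^ 2) * hg / 4
  have hor := zero_or_zero (S := (L : Set ℂ)) h.lat'.countable h.lat'.isClosed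
    (f := fun w => S w ^ 2) (g := fun w => deriv S w ^ 2 -
      (S w ^ 2 - S t ^ 2) * (S w ^ 2 - csq N L / S t ^ 2))
    (fun w hw => (hs w hw).fun_pow 2)
    (fun w hw => ((hs w hw).deriv.fun_pow 2).fun_sub
      ((((hs w hw).fun_pow 2).fun_sub analyticAt_const).fun_mul
        (((hs w hw).fun_pow 2).fun_sub analyticAt_const))) key
  rcases hor with hor | hor
  · exact absurd (hor t htL) hSt
  · have h1 := hor z hz
    exact sub_eq_zero.1 h1

private theorem bsa_exists (h : Two N L) : ∃ t : ℂ, 2 * t ∈ L ∧ 2 * t ∉ N := by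
  obtain ⟨u, hu, hu', -⟩ := h.ex
  refine ⟨u / 2, ?_, ?_⟩
  · rwa [mul_div_cancel₀ u (two_ne_zero' ℂ)]
  · rwa [mul_div_cancel₀ u (two_ne_zero' ℂ)]

theorem bsg_ord_zero (h : Two N L) {z : ℂ} (hz : z ∉ L) (hz2 : 2 * z ∈ N) :
    meromorphicOrderAt (sg N L) z = 1 := by
  obtain ⟨t, ht, ht'⟩ := bsa_exists h
  have htL : t ∉ L := fun h1 => ht' (h.two_mem h1)
  have h0 : sg N L z = 0 := (bsg_eq_zero h hz).2 hz2
  have hst : sg N L t ≠ 0 := fun h1 => ht' ((bsg_eq_zero h htL).1 h1)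
  have h1 := bsg_deriv_sq h hz ht ht'
  rw [h0] at h1
  have h2 : deriv (sg N L) z ^ 2 = csq N L := by
    rw [h1]
    field_simp
    ring
  have h3 : deriv (sg N L) z ≠ 0 := by
    intro h4
    rw [h4] at h2
    exact bcsq_ne h (by rw [← h2]; ring)
  have ha := bsg_analytic h z hz
  have h5 := ha.analyticOrderAt_sub_eq_one_of_deriv_ne_zero h3
  rw [h0] at h5
  simp only [sub_zero] at h5
  rw [ha.meromorphicOrderAt_eq, h5]
  rfl

theorem bsg_ord (h : Two N L) {z : ℂ} (hz : 2 * z ∉ N) (hz' : z ∉ L) :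
    meromorphicOrderAt (sg N L) z = 0 := by
  have ha := bsg_analytic h z hz'
  have h0 : sg N L z ≠ 0 := fun h1 => hz ((bsg_eq_zero h hz').1 h1)
  exact (tendsto_ne_zero_iff_meromorphicOrderAt_eq_zero ha.meromorphicAt).1
    ⟨_, h0, ha.continuousAt.tendsto.mono_left nhdsWithin_le_nhds⟩

end Pool.Agent.Work.MP_8efaaa_nt.R
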