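import Mathlib
import Pool.Agent.Work.MP_8efaaa_nt.R.BLio
import Pool.Agent.Work.MP_8efaaa_nt.R.BSa

/-!
# Module BHalf: `s z * s (z + p)` is constant

`s = sg N L`, `p` with `2 p ∈ N`, `p ∉ L`. The function `f z = s z * s (z + p)` is meromorphic,
`N`-periodic, of order `≥ 0` everywhere: at `z ∈ L` the orders are `-1` and `1`; at `z + p ∈ L`
(then `z = (z + p) - p`, `z ∉ L`, `2 z ∈ N`) the orders are `1` and `-1`; at the other points
both factors are analytic. By `bLio` the limits are a constant `k`; `f` is continuous off `L` and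
`L - p`, so there `f = k`. The square: at a point `z` off `L`, `L - p` (exists: `half (half N)` is
countable, or `z` half of `p`), `f z ^ 2 = (wp L z + 2 e) (wp L (z + p) + 2 e)` (`bsg_sq`) `= csq`
by `Two.translate` for `h.half_two` (`ev L (half N) = - 2 e`) and `bcsq_eq`.
-/

set_option autoImplicit false

namespace Pool.Agent.Work.MP_8efaaa_nt.R

open Filter Topology Pool.Agent.Work.CM
open scoped Pointwise

variable {N L : Submodule ℤ ℂ}

theorem bsg_half (h : Two N L) {p : ℂ} (hp : 2 * p ∈ N) (hp' : p ∉ L) :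
    ∃ k : ℂ, k ^ 2 = csq N L ∧ ∀ z, z ∉ L → z + p ∉ L → sg N L z * sg N L (z + p) = k := by
  have hmt : ∀ z, MeromorphicAt (sg N L ∘ (· + p)) z := fun z =>
    meromorphicAt_comp_add_const_iff_meromorphicAt.2 (bsg_mero h (z + p))
  have hot : ∀ z, meromorphicOrderAt (sg N L ∘ (· + p)) z = meromorphicOrderAt (sg N L) (z + p) :=
    fun z => meromorphicOrderAt_comp_add_const_eq_meromorphicOrderAt
  have hadd : ∀ z, 2 * z ∈ N → 2 * (z + p) ∈ N := fun z hz => by
    rw [mul_add]
    exact add_mem hz hp
  have hsub : ∀ z, 2 * (z + p) ∈ N → 2 * z ∈ N := fun z hz => by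
    have h1 := sub_mem hz hp
    rwa [mul_add, add_sub_cancel_right] at h1
  have hnn : ∀ z, z ∉ L → 0 ≤ meromorphicOrderAt (sg N L) z := by
    intro z hz
    by_cases h2 : 2 * z ∈ N
    · rw [bsg_ord_zero h hz h2]
      exact zero_le_one
    · rw [bsg_ord h h2 hz]
  obtain ⟨c, hc⟩ := bLio h.lat (f := sg N L * (sg N L ∘ (· + p)))
    (fun z => (bsg_mero h z).mul (hmt z)) (fun z => by
      rw [meromorphicOrderAt_mul (bsg_mero h z) (hmt z), hot]
      by_cases hz : z ∈ L
      · have hzp : z + p ∉ L := fun h1 => hp' (by simpa using sub_mem h1 hz)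
        rw [bsg_ord_pole h hz, bsg_ord_zero h hzp (hadd z (h.two_mem hz))]
        decide
      · by_cases hzp : z + p ∈ L
        · rw [bsg_ord_pole h hzp, bsg_ord_zero h hz (hsub z (h.two_mem hzp))]
          decide
        · exact add_nonneg (hnn z hz) (hnn _ hzp)) (fun z n hn => by
      show sg N L (z + n) * sg N L (z + n + p) = sg N L z * sg N L (z + p)
      rw [bsg_add h z hn, add_right_comm, bsg_add h (z + p) hn])
  have hval : ∀ z, z ∉ L → z + p ∉ L → sg N L z * sg N L (z + p) = c := by
    intro z hz hzp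
    have h1 : ContinuousAt (sg N L * (sg N L ∘ (· + p))) z := by
      have h2 : ContinuousAt (sg N L) z := (bsg_analytic h z hz).continuousAt
      have h3 : ContinuousAt (sg N L) (z + p) := (bsg_analytic h (z + p) hzp).continuousAt
      have h4 : ContinuousAt (sg N L ∘ (· + p)) z :=
        ContinuousAt.comp (g := sg N L) (f := (· + p)) h3
          (continuous_add_const p).continuousAt
      exact h2.mul h4
    have h5 := h1.tendsto.mono_left (nhdsWithin_le_nhds (s := {z}ᶜ))
    exact tendsto_nhds_unique h5 (hc z)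
  refine ⟨c, ?_, hval⟩
  have hh := h.half_two
  obtain ⟨z, hz⟩ : ∃ z : ℂ, z ∉ half N := by
    by_contra hcon
    push Not at hcon
    have h1 : (half N : Set ℂ) = Set.univ := Set.eq_univ_of_forall hcon
    have h2 := hh.lat'.countable
    rw [h1] at h2
    exact not_countable_complex h2
  have hpH : p ∈ half N := mem_half.2 hp
  have hzL : z ∉ L := fun h1 => hz (hh.le h1)
  have hzpL : z + p ∉ L := fun h1 => hz (by simpa using sub_mem (hh.le h1) hpH)
  rw [← hval z hzL hzpL, mul_pow, bsg_sq h hzL, bsg_sq h hzpL, bcsq_eq h]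
  have h1 := hh.translate hpH hp' hz
  have h2 := h.ev_half
  rw [← h1, h2]
  ring

end Pool.Agent.Work.MP_8efaaa_nt.R
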