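import Mathlib
import Pool.Agent.Work.MP_8efaaa_nt.R.Defs
import Pool.Agent.Work.CM.Rep
import Pool.Agent.Work.CM.Tw5
import Pool.Agent.Work.CM.Hom

/-!
# Module BTwo: lattices `N' = N + Z u`, `u` of odd prime order `l` modulo `N`

Elementary. `N ≤ N' ≤ (l⁻¹) • N` gives `IsLat N'` (`isLat_of_sandwich` with `m = 1`, or `m = l`).
Elements of `N'`: `n + j u`, `n ∈ N`, `j` an integer (`Submodule.mem_sup`,
`Submodule.mem_span_singleton`). An element `x` of `C` with `l x ∈ N` and `2 x ∈ N` (or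
`4 x ∈ N`, ..) is in `N` since `l` is odd.

* `btwo`: the generator `v` of `L` over `N` is not in `N'`: otherwise `v = n + j u`,
  `l v = l n + j l u ∈ N` and `2 v ∈ N`, so `v ∈ N`.
* `bN_mem`: for `x ∈ L`, `x ∈ N'` iff `x ∈ N` (same proof); for `2 x ∈ N`: `x ∈ L'` iff `x ∈ L`.
* `bmul_nmem`: `j u ∉ L` for `l` not dividing `j` (and `x + j u`.. as stated).
* `bsup`: `(l⁻¹) • N = N' + Z v` for some `v ∉ N'` with `l v ∈ N'`: the quotient `(l⁻¹ N) / N` is
  elementary of order `l ^ 2` and `u` is a nonzero element: let `P` be a period pair of `N` with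
  periods `a, b`; `l u = x a + y b`, `x`, `y` integers, not both divisible by `l`; say `l ∤ x`: then
  take `v = b / l` (`a / l` is in `N + Z u + Z v`, by Bezout for `x` and `l`); `v ∉ N'`: if
  `b / l = n + j u`, compare coefficients: `l ∣ j x`, so `l ∣ j`, so `b / l ∈ N`, impossible.
  (If `l ∣ x` then `l ∤ y`: exchange `a` and `b`.) For `L`: let `g ∈ L` be the generator over `N`,
  `2 g ∈ N`; then `g - g / l = ((l - 1) / 2) * (2 g / l) ∈ l⁻¹ N`, so `l⁻¹ L = l⁻¹ N + Z g`.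
-/

set_option autoImplicit false

namespace Pool.Agent.Work.MP_8efaaa_nt.R

open Pool.Agent.Work.CM
open scoped Pointwise

variable {N L : Submodule ℤ ℂ} {l : ℕ} {u : ℂ}

private theorem btwo_ne (hl : l.Prime) : (l : ℂ) ≠ 0 := by exact_mod_cast hl.ne_zero

private theorem btwo_int {x : ℂ} (hx : x ∈ N) (k : ℤ) : (k : ℂ) * x ∈ N := by
  rw [← zsmul_eq_mul]
  exact N.smul_mem k hx

private theorem btwo_nat {x : ℂ} (hx : x ∈ N) (k : ℕ) : (k : ℂ) * x ∈ N := by
  have h := btwo_int hx (k : ℤ)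
  rwa [Int.cast_natCast] at h

private theorem btwo_inv (hl : l.Prime) {x : ℂ} : x ∈ (l : ℂ)⁻¹ • N ↔ (l : ℂ) * x ∈ N := by
  have h := mem_smul_iff (L := N) (inv_ne_zero (btwo_ne hl)) (z := (l : ℂ) * x)
  rwa [inv_mul_cancel_left₀ (btwo_ne hl)] at h

private theorem btwo_sup {x : ℂ} :
    x ∈ N ⊔ Submodule.span ℤ {u} ↔ ∃ n ∈ N, ∃ j : ℤ, x = n + j * u := by
  rw [Submodule.mem_sup]
  constructor
  · rintro ⟨n, hn, z, hz, rfl⟩
    obtain ⟨j, rfl⟩ := Submodule.mem_span_singleton.1 hz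
    exact ⟨n, hn, j, by rw [zsmul_eq_mul]⟩
  · rintro ⟨n, hn, j, rfl⟩
    exact ⟨n, hn, j * u, Submodule.mem_span_singleton.2 ⟨j, zsmul_eq_mul _ _⟩, rfl⟩

private theorem btwo_cop {x : ℂ} {m k : ℕ} (h : m.Coprime k) (h1 : (m : ℂ) * x ∈ N)
    (h2 : (k : ℂ) * x ∈ N) : x ∈ N := by
  have hb : ((m : ℤ) : ℂ) * (Nat.gcdA m k : ℂ) + ((k : ℤ) : ℂ) * (Nat.gcdB m k : ℂ) = 1 := by
    have h3 := Nat.gcd_eq_gcd_ab m k
    rw [h.gcd_eq_one] at h3
    exact_mod_cast h3.symm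
  rw [Int.cast_natCast, Int.cast_natCast] at hb
  have e : x = (Nat.gcdA m k : ℂ) * ((m : ℂ) * x) + (Nat.gcdB m k : ℂ) * ((k : ℂ) * x) := by
    linear_combination -x * hb
  rw [e]
  exact N.add_mem (btwo_int h1 _) (btwo_int h2 _)

private theorem btwo_double (h : Two N L) {z : ℂ} (hz : z ∈ L) : 2 * z ∈ N := by
  obtain ⟨g, hg, hgN, hall⟩ := h.ex
  have h2g : 2 * g ∈ N := by
    rcases hall (2 * g) (by
      have := btwo_nat hg 2
      exact_mod_cast this) with h1 | h1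
    · exact h1
    · exact absurd (by
        have e : 2 * g - g = g := by ring
        rwa [e] at h1) hgN
  rcases hall z hz with h1 | h1
  · have := btwo_nat h1 2
    exact_mod_cast this
  · have h3 : 2 * (z - g) ∈ N := by
      have := btwo_nat h1 2
      exact_mod_cast this
    have e : 2 * z = 2 * (z - g) + 2 * g := by ring
    rw [e]
    exact N.add_mem h3 h2g

private theorem btwo_odd (hl : l.Prime) (hl2 : l ≠ 2) : l.Coprime 2 :=
  (Nat.coprime_primes hl Nat.prime_two).2 hl2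

theorem blat (h : IsLat N) (hl : l.Prime) (hlu : (l : ℂ) * u ∈ N) :
    IsLat (N ⊔ Submodule.span ℤ {u}) := by
  refine isLat_of_sandwich h (h.smul (inv_ne_zero (btwo_ne hl))) one_ne_zero ?_ ?_
  · rw [one_smul]
    exact le_sup_left
  · refine sup_le (fun x hx => (btwo_inv hl).2 (btwo_nat hx l)) ?_
    rw [Submodule.span_le]
    rintro x rfl
    exact (btwo_inv hl).2 hlu

theorem btwo (h : Two N L) (hl : l.Prime) (hl2 : l ≠ 2) (hlu : (l : ℂ) * u ∈ N) :
    Two (N ⊔ Submodule.span ℤ {u}) (L ⊔ Submodule.span ℤ {u}) := by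
  obtain ⟨g, hg, hgN, hall⟩ := h.ex
  refine ⟨blat h.lat hl hlu, blat h.lat' hl (h.le hlu), sup_le_sup_right h.le _, g,
    (le_sup_left : L ≤ _) hg, ?_, ?_⟩
  · intro hg'
    obtain ⟨n, hn, j, hj⟩ := btwo_sup.1 hg'
    refine hgN (btwo_cop (btwo_odd hl hl2) ?_ ?_)
    · have e : (l : ℂ) * g = l * n + j * (l * u) := by
        rw [hj]
        ring
      rw [e]
      exact N.add_mem (btwo_nat hn l) (btwo_int hlu j)
    · have := btwo_double h hg
      exact_mod_cast this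
  · intro z hz
    obtain ⟨x, hx, j, rfl⟩ := btwo_sup.1 hz
    rcases hall x hx with h1 | h1
    · exact Or.inl (btwo_sup.2 ⟨x, h1, j, rfl⟩)
    · exact Or.inr (btwo_sup.2 ⟨x - g, h1, j, by ring⟩)

/-- points of order prime to `l` -/
theorem bmem_sup (N : Submodule ℤ ℂ) (hl : l.Prime) (hlu : (l : ℂ) * u ∈ N) {x : ℂ} {m : ℕ}
    (hm : l.Coprime m) (hx : (m : ℂ) * x ∈ N) : x ∈ N ⊔ Submodule.span ℤ {u} ↔ x ∈ N := by
  refine ⟨fun h => ?_, fun h => (le_sup_left : N ≤ _) h⟩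
  obtain ⟨n, hn, j, rfl⟩ := btwo_sup.1 h
  refine btwo_cop hm ?_ hx
  have e : (l : ℂ) * (n + j * u) = l * n + j * (l * u) := by ring
  rw [e]
  exact N.add_mem (btwo_nat hn l) (btwo_int hlu j)

theorem bmul_nmem (h : Two N L) (hl : l.Prime) (hl2 : l ≠ 2) (hu : u ∉ N) (hlu : (l : ℂ) * u ∈ N)
    {j : ℕ} (hj : ¬ l ∣ j) : (j : ℂ) * u ∉ L := by
  intro hju
  apply hu
  have h1 : l.Coprime (2 * j) :=
    Nat.Coprime.mul_right (btwo_odd hl hl2) ((Nat.Prime.coprime_iff_not_dvd hl).2 hj)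
  refine btwo_cop h1 hlu ?_
  have h2 := btwo_double h hju
  push_cast
  rwa [mul_assoc]

private theorem bsup_aux (h : Two N L) (hl : l.Prime) (hl2 : l ≠ 2) (hlu : (l : ℂ) * u ∈ N)
    {a b : ℂ} (hab : ∀ z, z ∈ N ↔ ∃ m n : ℤ, (m : ℂ) * a + n * b = z)
    (hind : ∀ m n : ℤ, (m : ℂ) * a + n * b = 0 → m = 0 ∧ n = 0)
    {x y : ℤ} (hxy : (x : ℂ) * a + y * b = l * u) (hx : ¬ (l : ℤ) ∣ x) :
    ∃ v : ℂ, v ∉ N ⊔ Submodule.span ℤ {u} ∧ (l : ℂ) * v ∈ N ⊔ Submodule.span ℤ {u} ∧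
      (l : ℂ)⁻¹ • N = N ⊔ Submodule.span ℤ {u} ⊔ Submodule.span ℤ {v} ∧
      (l : ℂ)⁻¹ • L = L ⊔ Submodule.span ℤ {u} ⊔ Submodule.span ℤ {v} := by
  have hl0 := btwo_ne hl
  have hlp : Prime (l : ℤ) := Nat.prime_iff_prime_int.1 hl
  have hb : b ∈ N := (hab b).2 ⟨0, 1, by push_cast; ring⟩
  have ha : a ∈ N := (hab a).2 ⟨1, 0, by push_cast; ring⟩
  have hlb : (l : ℂ) * (b / l) = b := by field_simp
  have hN : (l : ℂ)⁻¹ • N = N ⊔ Submodule.span ℤ {u} ⊔ Submodule.span ℤ {b / (l : ℂ)} := by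
    apply le_antisymm
    · intro z hz
      rw [btwo_inv hl] at hz
      obtain ⟨m, n, hmn⟩ := (hab _).1 hz
      have hcop : IsCoprime x (l : ℤ) := ((Irreducible.coprime_iff_not_dvd hlp.irreducible).2 hx).symm
      obtain ⟨r, t, hrt⟩ := hcop
      have hrt' : (r : ℂ) * x + t * l = 1 := by exact_mod_cast hrt
      rw [btwo_sup]
      refine ⟨(m * t : ℤ) * a + (m * r : ℤ) * u, ?_, n - m * r * y, ?_⟩
      · exact btwo_sup.2 ⟨_, btwo_int ha _, m * r, rfl⟩
      · have e : (l : ℂ) * z = l * ((m * t : ℤ) * a + (m * r : ℤ) * u +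
            ((n - m * r * y : ℤ) : ℂ) * (b / l)) := by
          have e2 : (l : ℂ) * ((m * t : ℤ) * a + (m * r : ℤ) * u +
            ((n - m * r * y : ℤ) : ℂ) * (b / l)) = (m * t : ℤ) * l * a + (m * r : ℤ) * (l * u) +
            ((n - m * r * y : ℤ) : ℂ) * (l * (b / l)) := by ring
          rw [e2, hlb, ← hxy, ← hmn]
          push_cast
          linear_combination -(m : ℂ) * a * hrt'
        exact mul_left_cancel₀ hl0 e
    · refine sup_le (sup_le (fun z hz => (btwo_inv hl).2 (btwo_nat hz l)) ?_) ?_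
      · rw [Submodule.span_le]
        rintro _ rfl
        exact (btwo_inv hl).2 hlu
      · rw [Submodule.span_le]
        rintro _ rfl
        refine (btwo_inv hl).2 ?_
        rw [hlb]
        exact hb
  refine ⟨b / l, ?_, ?_, hN, ?_⟩
  · intro hv
    obtain ⟨n, hn, j, hj⟩ := btwo_sup.1 hv
    obtain ⟨m1, m2, rfl⟩ := (hab n).1 hn
    have e : ((l * m1 + j * x : ℤ) : ℂ) * a + ((l * m2 + j * y - 1 : ℤ) : ℂ) * b = 0 := by
      have e1 : b = l * ((m1 : ℂ) * a + m2 * b + j * u) := by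
        rw [← hj, hlb]
      push_cast
      linear_combination -e1 + (j : ℂ) * hxy
    obtain ⟨h1, h2⟩ := hind _ _ e
    have h3 : (l : ℤ) ∣ j * x := ⟨-m1, by linear_combination h1⟩
    obtain ⟨k, hk⟩ := (hlp.dvd_or_dvd h3).resolve_right hx
    have h4 : (l : ℤ) ∣ 1 := ⟨m2 + k * y, by
      rw [hk] at h2
      linear_combination -h2⟩
    exact hlp.not_isUnit (isUnit_of_dvd_one h4)
  · rw [hlb]
    exact (le_sup_left : N ≤ _) hb
  · apply le_antisymm
    · intro z hz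
      rw [btwo_inv hl] at hz
      have hle : (l : ℂ)⁻¹ • N ≤ L ⊔ Submodule.span ℤ {u} ⊔ Submodule.span ℤ {b / (l : ℂ)} := by
        rw [hN]
        exact sup_le_sup_right (sup_le_sup_right h.le _) _
      obtain ⟨g, hg, hgN, hall⟩ := h.ex
      rcases hall _ hz with h1 | h1
      · exact hle ((btwo_inv hl).2 h1)
      · obtain ⟨k, hk⟩ : ∃ k, l = 2 * k + 1 := by
          rcases hl.eq_two_or_odd' with h2 | h2
          · exact absurd h2 hl2
          · exact h2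
        have h2 : (l : ℂ) * (z - g) ∈ N := by
          have e : (l : ℂ) * (z - g) = (l * z - g) - k * (2 * g) := by
            have hk' : (l : ℂ) = 2 * k + 1 := by
              rw [hk]
              push_cast
              ring
            linear_combination -g * hk'
          rw [e]
          exact N.sub_mem h1 (btwo_nat (btwo_double h hg) k)
        have e : z = (z - g) + g := by ring
        rw [e]
        refine Submodule.add_mem _ (hle ((btwo_inv hl).2 h2)) ?_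
        exact (le_sup_left.trans le_sup_left : L ≤ _) hg
    · refine sup_le (sup_le (fun z hz => (btwo_inv hl).2 (btwo_nat hz l)) ?_) ?_
      · rw [Submodule.span_le]
        rintro _ rfl
        exact (btwo_inv hl).2 (h.le hlu)
      · rw [Submodule.span_le]
        rintro _ rfl
        refine (btwo_inv hl).2 ?_
        rw [hlb]
        exact h.le hb

theorem bsup (h : Two N L) (hl : l.Prime) (hl2 : l ≠ 2) (hu : u ∉ N) (hlu : (l : ℂ) * u ∈ N) :
    ∃ v : ℂ, v ∉ N ⊔ Submodule.span ℤ {u} ∧ (l : ℂ) * v ∈ N ⊔ Submodule.span ℤ {u} ∧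
      (l : ℂ)⁻¹ • N = N ⊔ Submodule.span ℤ {u} ⊔ Submodule.span ℤ {v} ∧
      (l : ℂ)⁻¹ • L = L ⊔ Submodule.span ℤ {u} ⊔ Submodule.span ℤ {v} := by
  obtain ⟨P, hP⟩ := h.lat
  have hab : ∀ z, z ∈ N ↔ ∃ m n : ℤ, (m : ℂ) * P.ω₁ + n * P.ω₂ = z := by
    intro z
    rw [← hP]
    exact PeriodPair.mem_lattice
  have hind : ∀ m n : ℤ, (m : ℂ) * P.ω₁ + n * P.ω₂ = 0 → m = 0 ∧ n = 0 := by
    intro m n hmn
    have h1 := LinearIndependent.pair_iff.1 P.indep (m : ℝ) (n : ℝ) (by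
      rw [Complex.real_smul, Complex.real_smul]
      exact_mod_cast hmn)
    exact ⟨by exact_mod_cast h1.1, by exact_mod_cast h1.2⟩
  obtain ⟨x, y, hxy⟩ := (hab _).1 hlu
  by_cases hx : (l : ℤ) ∣ x
  · have hy : ¬ (l : ℤ) ∣ y := by
      rintro ⟨y', rfl⟩
      obtain ⟨x', rfl⟩ := hx
      apply hu
      rw [hab]
      refine ⟨x', y', mul_left_cancel₀ (btwo_ne hl) ?_⟩
      rw [← hxy]
      push_cast
      ring
    refine bsup_aux h hl hl2 hlu (a := P.ω₂) (b := P.ω₁) (fun z => ?_) (fun m n hmn => ?_)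
      (x := y) (y := x) ?_ hy
    · rw [hab]
      constructor
      · rintro ⟨m, n, h1⟩
        exact ⟨n, m, by rw [← h1]; ring⟩
      · rintro ⟨m, n, h1⟩
        exact ⟨n, m, by rw [← h1]; ring⟩
    · obtain ⟨h1, h2⟩ := hind n m (by rw [← hmn]; ring)
      exact ⟨h2, h1⟩
    · rw [← hxy]
      ring
  · exact bsup_aux h hl hl2 hlu hab hind hxy hx

end Pool.Agent.Work.MP_8efaaa_nt.R
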