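import Mathlib
import Pool.Agent.Work.MP_8efaaa_nt.R.BLio
import Pool.Agent.Work.MP_8efaaa_nt.R.BSa
import Pool.Agent.Work.MP_8efaaa_nt.R.BTwo

/-!
# Module BIso: the function of the lattice `N' = N + Z u`, `u` of odd prime order `l`

`s = sg N L`, `s' = sg N' L'`, `L' = L + Z u`, `j u ∉ L` for `0 < j < l` (`bmul_nmem`), so
`s (j u) ≠ 0` (`bsg_eq_zero`: `2 j u ∉ N`). Let `c = ∏ s (j u)`, `P z = ∏_{0 ≤ j < l} s (z + j u)` and
`D z = P z - c s' z`. It is meromorphic, `N'`-periodic (`P (z + u) = P z`: the factors are permuted,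
`s (z + l u) = s z` by `bsg_add`), and `D (z + v) = - D z` for `v ∈ L`, `v ∉ N` (`l` factors
change sign, `l` is odd; `bsg_add'` for `N` and for `N'`, where `v ∉ N'` by `bmem_sup` with
`m = 2`). Order `≥ 0`: for `z ∉ L'` all factors are analytic. At `z = 0`:
`z P z → (-1) ∏ s (j u) = - c` and `z c s' z → - c` (`bsg_lead`), so `z D z → 0`, so the order of
`D` at `0` is `≥ 0` (the order of `z D z` is `> 0`). At the other points of `L'` by
translation. So by `bLio` the limits of `D` are a constant `C`, and `C = - C = 0` by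
`D (z + v) = - D z`. Both sides are continuous off `L'`.
-/

set_option autoImplicit false

namespace Pool.Agent.Work.MP_8efaaa_nt.R

open Filter Topology Pool.Agent.Work.CM
open scoped Pointwise

variable {N L : Submodule ℤ ℂ} {l : ℕ} {u : ℂ}

private theorem biso_sup {A : Submodule ℤ ℂ} {x : ℂ} :
    x ∈ A ⊔ Submodule.span ℤ {u} ↔ ∃ n ∈ A, ∃ j : ℤ, x = n + j • u := by
  rw [Submodule.mem_sup]
  constructor
  · rintro ⟨n, hn, y, hy, rfl⟩
    obtain ⟨j, rfl⟩ := Submodule.mem_span_singleton.1 hy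
    exact ⟨n, hn, j, rfl⟩
  · rintro ⟨n, hn, j, rfl⟩
    exact ⟨n, hn, _, Submodule.mem_span_singleton.2 ⟨j, rfl⟩, rfl⟩

/-- the product of the translates -/
private noncomputable def bP (N L : Submodule ℤ ℂ) (l : ℕ) (u z : ℂ) : ℂ :=
  ∏ j ∈ Finset.range l, sg N L (z + j * u)

private theorem bP_add (h : Two N L) (z : ℂ) {n : ℂ} (hn : n ∈ N) :
    bP N L l u (z + n) = bP N L l u z := by
  unfold bP
  refine Finset.prod_congr rfl fun j _ => ?_
  rw [add_right_comm, bsg_add h _ hn]

private theorem bP_add' (h : Two N L) (hl : Odd l) (z : ℂ) {v : ℂ} (hv : v ∈ L) (hv' : v ∉ N) :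
    bP N L l u (z + v) = -bP N L l u z := by
  unfold bP
  have h1 : ∀ j ∈ Finset.range l, sg N L (z + v + j * u) = -1 * sg N L (z + j * u) := by
    intro j _
    rw [add_right_comm, bsg_add' h _ hv hv', neg_one_mul]
  rw [Finset.prod_congr rfl h1, Finset.prod_mul_distrib, Finset.prod_const, Finset.card_range,
    hl.neg_one_pow, neg_one_mul]

private theorem bP_u (h : Two N L) (hl : 0 < l) (hlu : (l : ℂ) * u ∈ N) (z : ℂ) :
    bP N L l u (z + u) = bP N L l u z := by
  unfold bP
  obtain ⟨m, rfl⟩ : ∃ m, l = m + 1 := ⟨l - 1, by omega⟩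
  have h1 : ∀ j ∈ Finset.range (m + 1), sg N L (z + u + j * u) =
      (fun i : ℕ => sg N L (z + i * u)) (j + 1) := by
    intro j _
    show sg N L (z + u + j * u) = sg N L (z + ((j + 1 : ℕ) : ℂ) * u)
    congr 1
    push_cast
    ring
  rw [Finset.prod_congr rfl h1, Finset.prod_range_succ, Finset.prod_range_succ']
  congr 1
  show sg N L (z + ((m + 1 : ℕ) : ℂ) * u) = sg N L (z + ((0 : ℕ) : ℂ) * u)
  rw [bsg_add h z hlu, Nat.cast_zero, zero_mul, add_zero]

private theorem bP_per (h : Two N L) (hl : 0 < l) (hlu : (l : ℂ) * u ∈ N) (z : ℂ) {n : ℂ}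
    (hn : n ∈ N ⊔ Submodule.span ℤ {u}) : bP N L l u (z + n) = bP N L l u z := by
  obtain ⟨m, hm, j, rfl⟩ := biso_sup.1 hn
  have h1 : Function.Periodic (bP N L l u) u := fun z => bP_u h hl hlu z
  rw [← add_assoc, h1.zsmul j (z + m), bP_add h z hm]

private theorem biso_mero (h : Two N L) (a z : ℂ) : MeromorphicAt (fun x => sg N L (x + a)) z := by
  have h1 : AnalyticAt ℂ (fun x : ℂ => x + a) z := by fun_prop
  exact MeromorphicAt.comp_analyticAt (f := sg N L) (g := fun x : ℂ => x + a) (x := z)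
    (bsg_mero h (z + a)) h1

private theorem biso_an (h : Two N L) {a z : ℂ} (hz : z + a ∉ L) :
    AnalyticAt ℂ (fun x => sg N L (x + a)) z := by
  have h1 : AnalyticAt ℂ (fun x : ℂ => x + a) z := by fun_prop
  exact AnalyticAt.fun_comp (g := sg N L) (f := fun x : ℂ => x + a) (x := z)
    (bsg_analytic h (z + a) hz) h1

private theorem bP_mero (h : Two N L) (z : ℂ) : MeromorphicAt (bP N L l u) z := by
  have h1 : bP N L l u = fun x => ∏ j ∈ Finset.range l, sg N L (x + j * u) := rfl
  rw [h1]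
  exact MeromorphicAt.fun_prod fun j _ => biso_mero h (j * u) z

private theorem bP_an (h : Two N L) {z : ℂ} (hz : z ∉ L ⊔ Submodule.span ℤ {u}) :
    AnalyticAt ℂ (bP N L l u) z := by
  have h1 : bP N L l u = fun x => ∏ j ∈ Finset.range l, sg N L (x + j * u) := rfl
  rw [h1]
  refine Finset.analyticAt_fun_prod _ fun j _ => biso_an h fun hj => hz ?_
  refine biso_sup.2 ⟨_, hj, -(j : ℤ), ?_⟩
  rw [neg_smul, zsmul_eq_mul]
  push_cast
  ring

theorem bsg_iso (h : Two N L) (hl : l.Prime) (hl2 : l ≠ 2) (hu : u ∉ N) (hlu : (l : ℂ) * u ∈ N)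
    {z : ℂ} (hz : z ∉ L ⊔ Submodule.span ℤ {u}) :
    sg (N ⊔ Submodule.span ℤ {u}) (L ⊔ Submodule.span ℤ {u}) z *
        ∏ j ∈ Finset.Ico 1 l, sg N L (j * u) =
      ∏ j ∈ Finset.range l, sg N L (z + j * u) := by
  have hodd : Odd l := hl.odd_of_ne_two hl2
  have h' := btwo h hl hl2 hlu
  set N' := N ⊔ Submodule.span ℤ {u} with hN'
  set L' := L ⊔ Submodule.span ℤ {u} with hL'
  set c : ℂ := ∏ j ∈ Finset.Ico 1 l, sg N L (j * u) with hc
  set D : ℂ → ℂ := fun x => bP N L l u x - c * sg N' L' x with hD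
  have hmero : ∀ x, MeromorphicAt D x := fun x =>
    (bP_mero h x).fun_sub ((MeromorphicAt.const c x).fun_mul (bsg_mero h' x))
  have hper : ∀ x, ∀ n ∈ N', D (x + n) = D x := by
    intro x n hn
    show bP N L l u (x + n) - c * sg N' L' (x + n) = bP N L l u x - c * sg N' L' x
    rw [bP_per h hl.pos hlu x hn, bsg_add h' x hn]
  have hanti : ∀ x, ∀ v ∈ L, v ∉ N → D (x + v) = -D x := by
    intro x v hv hv'
    have hvL : v ∈ L' := (le_sup_left : L ≤ _) hv
    have hcop : l.Coprime 2 := (Nat.coprime_primes hl Nat.prime_two).2 hl2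
    have hvN : v ∉ N' := fun h1 =>
      hv' ((bmem_sup N hl hlu hcop (by exact_mod_cast h.two_mem hv)).1 h1)
    show bP N L l u (x + v) - c * sg N' L' (x + v) = -(bP N L l u x - c * sg N' L' x)
    rw [bP_add' h hodd x hv hv', bsg_add' h' x hvL hvN]
    ring
  have hzero : Tendsto (fun x => x * D x) (𝓝[≠] 0) (𝓝 0) := by
    have h1 : Tendsto (fun x => (x * sg N L x) * ∏ j ∈ Finset.Ico 1 l, sg N L (x + j * u))
        (𝓝[≠] 0) (𝓝 (-1 * c)) := by
      refine (bsg_lead h).mul ?_
      refine tendsto_finsetProd _ fun j hj => ?_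
      have hj' : (j : ℂ) * u ∉ L := by
        refine bmul_nmem h hl hl2 hu hlu ?_
        rw [Finset.mem_Ico] at hj
        exact fun hd => absurd (Nat.le_of_dvd hj.1 hd) (by omega)
      have h2 : AnalyticAt ℂ (fun x => sg N L (x + j * u)) 0 := biso_an h (by rwa [zero_add])
      have h3 := h2.continuousAt.tendsto
      rw [zero_add] at h3
      exact h3.mono_left nhdsWithin_le_nhds
    have h2 := (bsg_lead h').const_mul c
    have h3 := h1.sub h2
    have e : -1 * c - c * -1 = 0 := by ring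
    rw [e] at h3
    refine h3.congr fun x => ?_
    show _ = x * (bP N L l u x - c * sg N' L' x)
    have h4 : bP N L l u x = sg N L x * ∏ j ∈ Finset.Ico 1 l, sg N L (x + j * u) := by
      unfold bP
      rw [Finset.range_eq_Ico, Finset.prod_eq_prod_Ico_succ_bot hl.pos]
      simp
    rw [h4]
    ring
  have hord : ∀ x, 0 ≤ meromorphicOrderAt D x := by
    intro x
    by_cases hx : x ∈ L'
    · obtain ⟨v, hv, k, hk⟩ := biso_sup.1 hx
      have hku : k • u ∈ N' := biso_sup.2 ⟨0, zero_mem _, k, by rw [zero_add]⟩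
      obtain ⟨ε, hε⟩ : ∃ ε : ℂ, ∀ y, D (y + x) = ε * D y := by
        by_cases hvN : v ∈ N
        · refine ⟨1, fun y => ?_⟩
          rw [hk, ← add_assoc, hper _ _ hku, hper _ _ ((le_sup_left : N ≤ _) hvN), one_mul]
        · refine ⟨-1, fun y => ?_⟩
          rw [hk, ← add_assoc, hper _ _ hku, hanti _ _ hv hvN, neg_one_mul]
      have h0 : Tendsto (fun y : ℂ => y - x) (𝓝[≠] x) (𝓝[≠] 0) := by
        refine tendsto_nhdsWithin_iff.2 ⟨?_, ?_⟩
        · have h1 : ContinuousAt (fun y : ℂ => y - x) x := by fun_prop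
          have h2 := h1.tendsto
          rw [sub_self] at h2
          exact h2.mono_left nhdsWithin_le_nhds
        · filter_upwards [self_mem_nhdsWithin] with y hy
          exact sub_ne_zero.2 hy
      have h1 := (hzero.comp h0).const_mul ε
      rw [mul_zero] at h1
      have h2 : Tendsto (fun y => (y - x) * D y) (𝓝[≠] x) (𝓝 0) := by
        refine h1.congr fun y => ?_
        show ε * ((y - x) * D (y - x)) = (y - x) * D y
        have h3 := hε (y - x)
        rw [sub_add_cancel] at h3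
        rw [h3]
        ring
      have hm1 : MeromorphicAt (fun y : ℂ => y - x) x := by
        have h4 : AnalyticAt ℂ (fun w : ℂ => w - x) x := by fun_prop
        exact h4.meromorphicAt
      have h3 := (tendsto_zero_iff_meromorphicOrderAt_pos (hm1.fun_mul (hmero x))).1 h2
      have h4 : meromorphicOrderAt (fun y => (y - x) * D y) x =
          meromorphicOrderAt (fun y : ℂ => y - x) x + meromorphicOrderAt D x :=
        meromorphicOrderAt_mul hm1 (hmero x)
      have h5 : meromorphicOrderAt (fun y : ℂ => y - x) x = 1 := meromorphicOrderAt_id_sub_const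
      rw [h4, h5] at h3
      generalize meromorphicOrderAt D x = a at h3 ⊢
      cases a with
      | top => exact le_top
      | coe a =>
        have h6 : (0 : ℤ) < 1 + a := by exact_mod_cast h3
        exact_mod_cast (show (0 : ℤ) ≤ a by omega)
    · have h1 : AnalyticAt ℂ D x :=
        (bP_an h hx).fun_sub (analyticAt_const.fun_mul (bsg_analytic h' x hx))
      exact h1.meromorphicOrderAt_nonneg
  obtain ⟨C, hC⟩ := bLio h'.lat hmero hord hper
  obtain ⟨v, hv, hvN, -⟩ := h.ex
  have hC0 : C = 0 := by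
    have h1 : Tendsto (fun x : ℂ => x + v) (𝓝[≠] 0) (𝓝[≠] v) := by
      refine tendsto_nhdsWithin_iff.2 ⟨?_, ?_⟩
      · have h1 : ContinuousAt (fun y : ℂ => y + v) 0 := by fun_prop
        have h2 := h1.tendsto
        rw [zero_add] at h2
        exact h2.mono_left nhdsWithin_le_nhds
      · filter_upwards [self_mem_nhdsWithin] with y hy
        intro h2
        exact hy (by simpa using h2)
    have h2 := (hC v).comp h1
    have h3 : Tendsto (fun x => -D x) (𝓝[≠] 0) (𝓝 C) := by
      refine h2.congr fun x => ?_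
      exact hanti x v hv hvN
    have h4 := tendsto_nhds_unique h3 (hC 0).neg
    linear_combination h4 / 2
  have hzD : AnalyticAt ℂ D z :=
    (bP_an h hz).fun_sub (analyticAt_const.fun_mul (bsg_analytic h' z hz))
  have h1 := tendsto_nhds_unique (hC z) (hzD.continuousAt.tendsto.mono_left nhdsWithin_le_nhds)
  rw [hC0] at h1
  have h2 : bP N L l u z - c * sg N' L' z = 0 := h1.symm
  show sg N' L' z * c = bP N L l u z
  linear_combination -h2

end Pool.Agent.Work.MP_8efaaa_nt.R
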