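import Mathlib
import Pool.Agent.Work.MP_8efaaa_nt.R.BIso
import Pool.Agent.Work.MP_8efaaa_nt.R.BHalf

/-!
# Module BCsq: the invariant `csq` of the lattice `N' = N + Z u`

Choose `p` with `2 p ∈ N`, `p ∉ L` (`IsLat.quad` for `N` and the generator of `L`, or
`h.half_two.ex`); `p ∉ L'` by `bmem_sup`. By `bsg_half` for `N` and for `N'` there are `k`, `k'`
with `k ^ 2 = csq N L`, `k' ^ 2 = csq N' L'`, `s z s (z + p) = k`, `s' z s' (z + p) = k'`. Take `z`
with `z ∉ L'`, `z + p ∉ L'` (exists: `L'` is countable, `IsLat.countable`; or `z = p / 2`: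
if `p / 2 ∈ L'` then `p ∈ N'`, and if `3 p / 2 ∈ L'` then `3 p ∈ N'`, `p ∈ N'`) and multiply
`bsg_iso` at `z` and `z + p`: `k' c ^ 2 = k ^ l`, `c = ∏ s (j u)`; square.
-/

set_option autoImplicit false

namespace Pool.Agent.Work.MP_8efaaa_nt.R

open Pool.Agent.Work.CM
open scoped Pointwise

variable {N L : Submodule ℤ ℂ} {l : ℕ} {u : ℂ}

theorem bcsq_iso (h : Two N L) (hl : l.Prime) (hl2 : l ≠ 2) (hu : u ∉ N)
    (hlu : (l : ℂ) * u ∈ N) :
    csq (N ⊔ Submodule.span ℤ {u}) (L ⊔ Submodule.span ℤ {u}) *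
      (∏ j ∈ Finset.Ico 1 l, sg N L (j * u)) ^ 4 = csq N L ^ l := by
  have h' := btwo h hl hl2 hlu
  have hNN : N ≤ N ⊔ Submodule.span ℤ {u} := le_sup_left
  have hLL : L ≤ L ⊔ Submodule.span ℤ {u} := le_sup_left
  have huL : ∀ j : ℕ, (j : ℂ) * u ∈ L ⊔ Submodule.span ℤ {u} := by
    intro j
    have h1 : (j : ℂ) * u = (j : ℤ) • u := by
      simp
    rw [h1]
    exact Submodule.smul_mem _ _ (Submodule.mem_sup_right (Submodule.mem_span_singleton_self u))
  obtain ⟨p, hpm, hp', -⟩ := h.half_two.ex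
  have hp : 2 * p ∈ N := mem_half.1 hpm
  have hcop : l.Coprime 2 := (Nat.coprime_primes hl Nat.prime_two).2 hl2
  have hpL : p ∉ L ⊔ Submodule.span ℤ {u} := fun hc =>
    hp' ((bmem_sup L hl (h.le hlu) hcop (x := p) (by exact_mod_cast h.le hp)).1 hc)
  obtain ⟨k, hk, hk2⟩ := bsg_half h hp hp'
  obtain ⟨k', hk', hk2'⟩ := bsg_half h' (hNN hp) hpL
  have hz1 : p / 2 ∉ L ⊔ Submodule.span ℤ {u} := by
    intro hc
    have h1 := h'.two_mem hc
    rw [mul_div_cancel₀ p two_ne_zero] at h1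
    exact hpL (h'.le h1)
  have hz2 : p / 2 + p ∉ L ⊔ Submodule.span ℤ {u} := by
    intro hc
    have h1 := h'.two_mem hc
    have h2 := Submodule.sub_mem _ h1 (hNN hp)
    have h3 : 2 * (p / 2 + p) - 2 * p = p := by ring
    rw [h3] at h2
    exact hpL (h'.le h2)
  have e1 := bsg_iso h hl hl2 hu hlu hz1
  have e2 := bsg_iso h hl hl2 hu hlu hz2
  have e3 := hk2' _ hz1 hz2
  have e4 : ∏ j ∈ Finset.range l, (sg N L (p / 2 + j * u) * sg N L (p / 2 + p + j * u)) =
      k ^ l := by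
    rw [Finset.prod_congr rfl (g := fun _ => k), Finset.prod_const, Finset.card_range]
    intro j _
    have h1 : p / 2 + p + j * u = p / 2 + j * u + p := by ring
    rw [h1]
    refine hk2 _ (fun hc => hz1 ?_) fun hc => hz2 ?_
    · have h2 := Submodule.sub_mem _ (hLL hc) (huL j)
      rwa [add_sub_cancel_right] at h2
    · have h2 := Submodule.sub_mem _ (hLL hc) (huL j)
      have h3 : p / 2 + j * u + p - j * u = p / 2 + p := by ring
      rwa [h3] at h2
  rw [Finset.prod_mul_distrib, ← e1, ← e2] at e4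
  rw [← hk, ← hk', ← pow_mul, mul_comm 2 l, pow_mul, ← e4, ← e3]
  ring

end Pool.Agent.Work.MP_8efaaa_nt.R
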