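import Mathlib
import Pool.Agent.Work.MP_8efaaa_nt.R.BHalf

/-!
# Module BPm: the product `s (z + u) s (z - u)`

`s = sg N L`. Fix `u ∉ L` and let
`D z = s (z + u) * s (z - u) * (s z ^ 2 - s u ^ 2) - csq + s u ^ 2 * s z ^ 2`.
It is meromorphic, even (`s` is odd: the product of the first two factors is even) and `N`-periodic.
Order `≥ 0` at every point `z`:
* `z ∉ L`, `z ± u ∉ L`: analytic.
* `z ∉ L`, `z + u ∈ L` (or `z - u ∈ L`): the factor `s (z + u)` has order `-1`,
  `s ^ 2 - s u ^ 2` is analytic at `z` and vanishes there since `s z ^ 2 = s u ^ 2`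
  (`bsg_add`, `bsg_add'`, `bsg_neg`), so it has order `≥ 1`. If both `z + u ∈ L` and
  `z - u ∈ L`: then `2 z ∈ L`, and `s ^ 2 = wp L + 2 e` has order `≥ 2` at `z` minus its value,
  since its derivative `wpd L z = 0` (`IsLat.wpd_half`).
* `z ∈ L`: by periodicity (`D (x + l) = D x` for all `l ∈ L`) `z = 0`. There `g x = s (x + u) s (x - u)`
  is analytic and even with `g 0 = - s u ^ 2`, so `g x + s u ^ 2` has order `≥ 2`; `s x ^ 2 = wp L x + 2 e`
  has order `-2`; `D x = (g x + s u ^ 2) * s x ^ 2 - g x * s u ^ 2 - csq`: order `≥ 0`.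
So by `bLio` the limits of `D` are a constant `C`. Value: choose `p` with `2 p ∈ N`, `p ∉ L`
(exists, `IsLat.quad`); at `z = p`, `s p = 0`. If `2 u ∉ N` then `p ± u ∉ L`, the function is
continuous at `p` and `s (p + u) = k / s u`, `s (p - u) = k / s (-u) = - k / s u` (`bsg_half`), so
`C = D p = k ^ 2 - csq = 0`. If `2 u ∈ N`, then `s u = 0` and the claim is
`s (z + u) s (z - u) s z ^ 2 = csq`: `s (z - u) = s (z + u - 2 u) = s (z + u)`, and `bsg_half`.
-/

set_option autoImplicit false

namespace Pool.Agent.Work.MP_8efaaa_nt.R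

open Filter Topology Pool.Agent.Work.CM
open scoped Pointwise

variable {N L : Submodule ℤ ℂ}

private theorem ord_ge {P : ℂ → ℂ} {z : ℂ} (hP : AnalyticAt ℂ P z) {n : ℕ}
    (h : ∀ i < n, iteratedDeriv i P z = 0) : (n : WithTop ℤ) ≤ meromorphicOrderAt P z := by
  have h1 := (natCast_le_analyticOrderAt_iff_iteratedDeriv_eq_zero hP).2 h
  rw [hP.meromorphicOrderAt_eq]
  generalize analyticOrderAt P z = t at h1
  induction t using ENat.recTopCoe with
  | top => simp
  | coe m =>
    rw [ENat.map_natCast]
    have h2 : n ≤ m := by exact_mod_cast h1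
    exact_mod_cast h2

private theorem ord_one {P : ℂ → ℂ} {z : ℂ} (hP : AnalyticAt ℂ P z) (h0 : P z = 0) :
    (1 : WithTop ℤ) ≤ meromorphicOrderAt P z := by
  have := ord_ge hP (n := 1) (by
    intro i hi
    interval_cases i
    rw [iteratedDeriv_zero, h0])
  simpa using this

private theorem ord_two {P : ℂ → ℂ} {z : ℂ} (hP : AnalyticAt ℂ P z) (h0 : P z = 0)
    (h1 : deriv P z = 0) : (2 : WithTop ℤ) ≤ meromorphicOrderAt P z := by
  have := ord_ge hP (n := 2) (by
    intro i hi
    interval_cases i
    · rw [iteratedDeriv_zero, h0]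
    · rw [iteratedDeriv_one, h1])
  simpa using this

private theorem two_add (h : Two N L) {z : ℂ} (hz : z ∈ L) : 2 * z ∈ N := h.two_mem hz

private theorem mero_add (h : Two N L) (z u : ℂ) : MeromorphicAt (fun x => sg N L (x + u)) z := by
  have := (bsg_mero h (z + u)).comp_analyticAt (g := fun x => x + u) (x := z) (by fun_prop)
  exact this

private theorem ord_add (z u : ℂ) :
    meromorphicOrderAt (fun x => sg N L (x + u)) z = meromorphicOrderAt (sg N L) (z + u) :=
  meromorphicOrderAt_comp_add_const_eq_meromorphicOrderAt (f := sg N L) (c := u) (x := z)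

private theorem an_add (h : Two N L) {z u : ℂ} (hz : z + u ∉ L) :
    AnalyticAt ℂ (fun x => sg N L (x + u)) z := by
  have h1 : AnalyticAt ℂ (sg N L) (z + u) := bsg_analytic h _ hz
  exact h1.comp_of_eq (g := sg N L) (f := fun x => x + u) (by fun_prop) rfl

private theorem sq_shift (h : Two N L) (z : ℂ) {l : ℂ} (hl : l ∈ L) :
    sg N L (z + l) ^ 2 = sg N L z ^ 2 := by
  by_cases h1 : l ∈ N
  · rw [bsg_add h z h1]
  · rw [bsg_add' h z hl h1]; ring

/-- the order of the function `D` is nonnegative -/
private theorem ord_D (h : Two N L) {u : ℂ} (hu : u ∉ L) (z : ℂ) :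
    0 ≤ meromorphicOrderAt (fun x => sg N L (x + u) * sg N L (x - u) *
      (sg N L x ^ 2 - sg N L u ^ 2) - csq N L + sg N L u ^ 2 * sg N L x ^ 2) z := by
  have hm := bsg_mero h z
  have hp := mero_add h z u
  have hn := mero_add h z (-u)
  have hnu : -u ∉ L := fun h1 => hu (by simpa using neg_mem h1)
  by_cases hz : z ∈ L
  · have h1 : z + u ∉ L := fun h1 => hu (by simpa using sub_mem h1 hz)
    have h2 : z + -u ∉ L := fun h2 => hnu (by simpa using sub_mem h2 hz)
    have a1 := an_add h h1
    have a2 := an_add h h2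
    have a3 : AnalyticAt ℂ (fun x => sg N L (x + u) * sg N L (x + -u)) z := a1.mul a2
    have a4 : AnalyticAt ℂ (fun x => sg N L (x + u) * sg N L (x + -u) + sg N L u ^ 2) z :=
      a3.add analyticAt_const
    have e0 : sg N L (z + u) * sg N L (z + -u) + sg N L u ^ 2 = 0 := by
      rw [add_comm z u, add_comm z (-u)]
      by_cases hzN : z ∈ N
      · rw [bsg_add h u hzN, bsg_add h (-u) hzN, bsg_neg h]; ring
      · rw [bsg_add' h u hz hzN, bsg_add' h (-u) hz hzN, bsg_neg h]; ring
    have hsym : (fun x => sg N L (x + u) * sg N L (x + -u) + sg N L u ^ 2) =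
        fun x => (fun y => sg N L (y + u) * sg N L (y + -u) + sg N L u ^ 2) (2 * z - x) := by
      funext x
      have e1 : 2 * z - x + u = -(x + -u) + 2 * z := by ring
      have e2 : 2 * z - x + -u = -(x + u) + 2 * z := by ring
      show _ = sg N L (2 * z - x + u) * sg N L (2 * z - x + -u) + sg N L u ^ 2
      rw [e1, e2, bsg_add h _ (h.two_mem hz), bsg_add h _ (h.two_mem hz), bsg_neg h, bsg_neg h]
      ring
    have e1 : deriv (fun x => sg N L (x + u) * sg N L (x + -u) + sg N L u ^ 2) z = 0 := by
      have h3 : HasDerivAt (fun x => sg N L (x + u) * sg N L (x + -u) + sg N L u ^ 2)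
          (deriv (fun x => sg N L (x + u) * sg N L (x + -u) + sg N L u ^ 2) z) z :=
        a4.differentiableAt.hasDerivAt
      have h4 : HasDerivAt (fun x : ℂ => 2 * z - x) (-1) z := by
        simpa using (hasDerivAt_id z).const_sub (2 * z)
      have h5 : HasDerivAt (fun x => (fun y => sg N L (y + u) * sg N L (y + -u) + sg N L u ^ 2)
          (2 * z - x)) (deriv (fun x => sg N L (x + u) * sg N L (x + -u) + sg N L u ^ 2) z * (-1))
          z := by
        have h6 : HasDerivAt (fun x => sg N L (x + u) * sg N L (x + -u) + sg N L u ^ 2)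
          (deriv (fun x => sg N L (x + u) * sg N L (x + -u) + sg N L u ^ 2) z) (2 * z - z) := by
          have : 2 * z - z = z := by ring
          rw [this]; exact h3
        exact h6.comp z h4
      rw [← hsym] at h5
      have h7 := h3.unique h5
      have h8 : 2 * deriv (fun x => sg N L (x + u) * sg N L (x + -u) + sg N L u ^ 2) z = 0 := by
        linear_combination h7
      exact (mul_eq_zero.1 h8).resolve_left two_ne_zero
    have o1 := ord_two a4 e0 e1
    have o2 : meromorphicOrderAt (fun x => sg N L x ^ 2) z = -2 := by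
      have := meromorphicOrderAt_pow hm (n := 2)
      rw [bsg_ord_pole h hz] at this
      exact this
    have hsq : MeromorphicAt (fun x => sg N L x ^ 2) z := hm.pow 2
    have o3 : 0 ≤ meromorphicOrderAt (fun x =>
        (sg N L (x + u) * sg N L (x + -u) + sg N L u ^ 2) * sg N L x ^ 2) z := by
      have h9 := meromorphicOrderAt_mul a4.meromorphicAt hsq
      have h10 : meromorphicOrderAt (fun x =>
        (sg N L (x + u) * sg N L (x + -u) + sg N L u ^ 2) * sg N L x ^ 2) z =
        meromorphicOrderAt (fun x => sg N L (x + u) * sg N L (x + -u) + sg N L u ^ 2) z +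
        meromorphicOrderAt (fun x => sg N L x ^ 2) z := h9
      rw [h10, o2]
      exact add_le_add_left o1 (-2)
    have a5 : AnalyticAt ℂ (fun x => -(sg N L (x + u) * sg N L (x + -u)) * sg N L u ^ 2 -
        csq N L) z := (a3.neg.mul analyticAt_const).sub analyticAt_const
    have o4 := a5.meromorphicOrderAt_nonneg
    have h11 := meromorphicOrderAt_add (a4.meromorphicAt.mul hsq) a5.meromorphicAt
    have h12 : (fun x => sg N L (x + u) * sg N L (x - u) *
        (sg N L x ^ 2 - sg N L u ^ 2) - csq N L + sg N L u ^ 2 * sg N L x ^ 2) =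
        (fun x => (sg N L (x + u) * sg N L (x + -u) + sg N L u ^ 2) * sg N L x ^ 2) +
        (fun x => -(sg N L (x + u) * sg N L (x + -u)) * sg N L u ^ 2 - csq N L) := by
      funext x
      simp only [Pi.add_apply, sub_eq_add_neg]
      ring
    rw [h12]
    exact (le_min o3 o4).trans h11
  · have a0 : AnalyticAt ℂ (sg N L) z := bsg_analytic h _ hz
    have aP : AnalyticAt ℂ (fun x => sg N L x ^ 2 - sg N L u ^ 2) z :=
      (a0.pow 2).sub analyticAt_const
    have aR : AnalyticAt ℂ (fun x => sg N L u ^ 2 * sg N L x ^ 2 - csq N L) z :=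
      (analyticAt_const.mul (a0.pow 2)).sub analyticAt_const
    have o4 := aR.meromorphicOrderAt_nonneg
    have h1 : meromorphicOrderAt (fun x => sg N L (x + u) * sg N L (x + -u) *
        (sg N L x ^ 2 - sg N L u ^ 2)) z = meromorphicOrderAt (fun x => sg N L (x + u)) z +
        meromorphicOrderAt (fun x => sg N L (x + -u)) z +
        meromorphicOrderAt (fun x => sg N L x ^ 2 - sg N L u ^ 2) z := by
      rw [← meromorphicOrderAt_mul hp hn]
      exact meromorphicOrderAt_mul (hp.mul hn) aP.meromorphicAt
    have o3 : 0 ≤ meromorphicOrderAt (fun x => sg N L (x + u) * sg N L (x + -u) *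
        (sg N L x ^ 2 - sg N L u ^ 2)) z := by
      rw [h1]
      have v1 : z + u ∈ L → sg N L z ^ 2 - sg N L u ^ 2 = 0 := by
        intro h2
        have e : z = -u + (z + u) := by ring
        rw [e, sq_shift h (-u) h2, bsg_neg h]; ring
      have v2 : z + -u ∈ L → sg N L z ^ 2 - sg N L u ^ 2 = 0 := by
        intro h2
        have e : z = u + (z + -u) := by ring
        rw [e, sq_shift h u h2]; ring
      by_cases c1 : z + u ∈ L
      · have o5 : meromorphicOrderAt (fun x => sg N L (x + u)) z = -1 := by
          rw [ord_add]; exact bsg_ord_pole h c1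
        by_cases c2 : z + -u ∈ L
        · have o6 : meromorphicOrderAt (fun x => sg N L (x + -u)) z = -1 := by
            rw [ord_add]; exact bsg_ord_pole h c2
          have hzz : 2 * z ∈ L := by
            have := add_mem c1 c2
            have e : z + u + (z + -u) = 2 * z := by ring
            rwa [e] at this
          have hd : deriv (fun x => sg N L x ^ 2 - sg N L u ^ 2) z = 0 := by
            have h3 : (fun x => sg N L x ^ 2 - sg N L u ^ 2) =ᶠ[𝓝 z]
                fun x => wp L x + (2 * ev N L - sg N L u ^ 2) := by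
              filter_upwards [h.lat'.compl_mem_nhds hz] with x hx
              rw [bsg_sq h hx]; ring
            rw [h3.deriv_eq, deriv_add_const, h.lat'.deriv_wp]
            exact h.lat'.wpd_half hzz
          have o7 := ord_two aP (v1 c1) hd
          rw [o5, o6]
          exact add_le_add_right o7 (-1 + -1)
        · have o6 : 0 ≤ meromorphicOrderAt (fun x => sg N L (x + -u)) z :=
            (an_add h c2).meromorphicOrderAt_nonneg
          have o7 := ord_one aP (v1 c1)
          rw [o5]
          exact add_le_add (add_le_add (le_refl (-1 : WithTop ℤ)) o6) o7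
      · have o5 : 0 ≤ meromorphicOrderAt (fun x => sg N L (x + u)) z :=
            (an_add h c1).meromorphicOrderAt_nonneg
        by_cases c2 : z + -u ∈ L
        · have o6 : meromorphicOrderAt (fun x => sg N L (x + -u)) z = -1 := by
            rw [ord_add]; exact bsg_ord_pole h c2
          have o7 := ord_one aP (v2 c2)
          rw [o6]
          exact add_le_add (add_le_add o5 (le_refl (-1 : WithTop ℤ))) o7
        · have o6 : 0 ≤ meromorphicOrderAt (fun x => sg N L (x + -u)) z :=
            (an_add h c2).meromorphicOrderAt_nonneg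
          exact add_nonneg (add_nonneg o5 o6) aP.meromorphicOrderAt_nonneg
    have h11 := meromorphicOrderAt_add ((hp.mul hn).mul aP.meromorphicAt) aR.meromorphicAt
    have h12 : (fun x => sg N L (x + u) * sg N L (x - u) *
        (sg N L x ^ 2 - sg N L u ^ 2) - csq N L + sg N L u ^ 2 * sg N L x ^ 2) =
        (fun x => sg N L (x + u) * sg N L (x + -u) * (sg N L x ^ 2 - sg N L u ^ 2)) +
        (fun x => sg N L u ^ 2 * sg N L x ^ 2 - csq N L) := by
      funext x
      simp only [Pi.add_apply, sub_eq_add_neg]
      ring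
    rw [h12]
    exact (le_min o3 o4).trans h11

private theorem an_D (h : Two N L) {z u : ℂ} (hz : z ∉ L) (h1 : z + u ∉ L) (h2 : z - u ∉ L) :
    AnalyticAt ℂ (fun x => sg N L (x + u) * sg N L (x - u) *
      (sg N L x ^ 2 - sg N L u ^ 2) - csq N L + sg N L u ^ 2 * sg N L x ^ 2) z := by
  have a0 : AnalyticAt ℂ (sg N L) z := bsg_analytic h _ hz
  have a1 := an_add h h1
  have a2 : AnalyticAt ℂ (fun x => sg N L (x - u)) z := by
    rw [sub_eq_add_neg] at h2
    have := an_add h h2
    simpa only [sub_eq_add_neg] using this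
  exact (((a1.mul a2).mul ((a0.pow 2).sub analyticAt_const)).sub analyticAt_const).add
    (analyticAt_const.mul (a0.pow 2))

theorem bsg_pm (h : Two N L) {z u : ℂ} (hz : z ∉ L) (hu : u ∉ L) (h1 : z + u ∉ L)
    (h2 : z - u ∉ L) :
    sg N L (z + u) * sg N L (z - u) * (sg N L z ^ 2 - sg N L u ^ 2) =
      csq N L - sg N L u ^ 2 * sg N L z ^ 2 := by
  by_cases h2u : 2 * u ∈ N
  · obtain ⟨k, hk, hk'⟩ := bsg_half h h2u hu
    have e1 : sg N L (z - u) = sg N L (z + u) := by
      have := bsg_add h (z - u) h2u
      rw [← this]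
      congr 1
      ring
    have e2 : sg N L u = 0 := (bsg_eq_zero h hu).2 h2u
    rw [e1, e2]
    linear_combination (sg N L z * sg N L (z + u) + k) * hk' z hz h1 + hk
  · set D : ℂ → ℂ := fun x => sg N L (x + u) * sg N L (x - u) *
      (sg N L x ^ 2 - sg N L u ^ 2) - csq N L + sg N L u ^ 2 * sg N L x ^ 2 with hD
    have hmD : ∀ z, MeromorphicAt D z := by
      intro z
      have hm := bsg_mero h z
      have hp := mero_add h z u
      have hn : MeromorphicAt (fun x => sg N L (x - u)) z := by
        have := mero_add h z (-u)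
        simpa only [sub_eq_add_neg] using this
      exact (((hp.mul hn).mul ((hm.pow 2).sub (MeromorphicAt.const _ _))).sub
        (MeromorphicAt.const _ _)).add ((MeromorphicAt.const _ _).mul (hm.pow 2))
    have hper : ∀ z, ∀ n ∈ N, D (z + n) = D z := by
      intro z n hn
      have e1 : z + n + u = z + u + n := by ring
      have e2 : z + n - u = z - u + n := by ring
      simp only [hD]
      rw [e1, e2, bsg_add h _ hn, bsg_add h _ hn, bsg_add h _ hn]
    obtain ⟨C, hC⟩ := bLio h.lat hmD (fun z => ord_D h hu z) hper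
    have hval : ∀ z, z ∉ L → z + u ∉ L → z - u ∉ L → D z = C := by
      intro z hz h1 h2
      have h3 : Tendsto D (𝓝[≠] z) (𝓝 (D z)) :=
        (an_D h hz h1 h2).continuousAt.tendsto.mono_left nhdsWithin_le_nhds
      exact tendsto_nhds_unique h3 (hC z)
    -- a point `p`
    obtain ⟨w, hw, hw', -⟩ := h.ex
    obtain ⟨p, hp, hp', hpw, -⟩ := h.lat.quad (mem_half.2 (h.two_mem hw)) hw'
    have hp2 : 2 * p ∈ N := mem_half.1 hp
    have hpL : p ∉ L := by
      intro hpL
      apply hpw
      have h3 := add_mem (h.sub_mem hpL hp' hw hw') (h.two_mem hw)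
      have e : p - w + 2 * w = p + w := by ring
      rwa [e] at h3
    have hpu : p + u ∉ L := by
      intro h3
      apply h2u
      have h4 := sub_mem (h.two_mem h3) hp2
      have e : 2 * (p + u) - 2 * p = 2 * u := by ring
      rwa [e] at h4
    have hpu' : p - u ∉ L := by
      intro h3
      apply h2u
      have h4 := sub_mem hp2 (h.two_mem h3)
      have e : 2 * p - 2 * (p - u) = 2 * u := by ring
      rwa [e] at h4
    obtain ⟨k, hk, hk'⟩ := bsg_half h hp2 hpL
    have k1 : sg N L u * sg N L (p + u) = k := by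
      have := hk' u hu (by rwa [add_comm])
      rwa [add_comm u p] at this
    have hnu : -u ∉ L := fun h1 => hu (by simpa using neg_mem h1)
    have k2 : -sg N L u * sg N L (p - u) = k := by
      have e : -u + p = p - u := by ring
      have := hk' (-u) hnu (by rw [e]; exact hpu')
      rwa [e, bsg_neg h] at this
    have hp0 : sg N L p = 0 := (bsg_eq_zero h hpL).2 hp2
    have hDp : D p = 0 := by
      simp only [hD, hp0]
      linear_combination (-sg N L u * sg N L (p - u)) * k1 + k * k2 + hk
    have hC0 : C = 0 := by rw [← hval p hpL hpu hpu', hDp]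
    have h5 := hval z hz h1 h2
    rw [hC0] at h5
    simp only [hD] at h5
    linear_combination h5

end Pool.Agent.Work.MP_8efaaa_nt.R
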