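import Mathlib
import Pool.Agent.Work.MP_8efaaa_nt.R.BPm

/-!
# Module BDup: duplication

`s = sg N L`, `z ∉ L`, `2 z ∉ L`. In `bsg_pm` (with `z` and `u = z + x`, `x → 0`, `x ≠ 0`):
`s (2 z + x) * s (- x) * (s z ^ 2 - s (z + x) ^ 2) = csq - s (z + x) ^ 2 s z ^ 2`. Now
`s (- x) (s z ^ 2 - s (z + x) ^ 2) = (x s x) * ((s (z + x) ^ 2 - s z ^ 2) / x)` tends to
`- 1 * 2 s z s' z` (`bsg_lead`, derivative of `s ^ 2` at `z`). So
`s (2 z) * (- 2 s z s' z) = csq - s z ^ 4` (`bsg_dup0`). Square and use `bsg_deriv_sq`.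
-/

set_option autoImplicit false

namespace Pool.Agent.Work.MP_8efaaa_nt.R

open Filter Topology Pool.Agent.Work.CM
open scoped Pointwise

variable {N L : Submodule ℤ ℂ}

/-- The limit argument for a general function. -/
private theorem dup_lim (f : ℂ → ℂ) (c z : ℂ) (hz : AnalyticAt ℂ f z)
    (hz2 : AnalyticAt ℂ f (2 * z)) (h0 : Tendsto (fun x => x * f x) (𝓝[≠] 0) (𝓝 (-1)))
    (key : ∀ᶠ x : ℂ in 𝓝[≠] 0, f (2 * z + x) * (x * f x) * (x⁻¹ * (f (z + x) ^ 2 - f z ^ 2)) =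
        c - f (z + x) ^ 2 * f z ^ 2) :
    f (2 * z) * (2 * f z * deriv f z) = f z ^ 4 - c := by
  have hd : HasDerivAt f (deriv f z) z := hz.differentiableAt.hasDerivAt
  have hd2 : HasDerivAt (fun w => f w ^ 2) (2 * f z * deriv f z) z := by
    have h1 := hd.fun_pow 2
    simpa using h1
  have t1 : Tendsto (fun x : ℂ => x⁻¹ * (f (z + x) ^ 2 - f z ^ 2)) (𝓝[≠] 0)
      (𝓝 (2 * f z * deriv f z)) := by
    have h1 := hd2.tendsto_slope_zero
    simpa only [smul_eq_mul] using h1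
  have c1 : Tendsto (fun x : ℂ => z + x) (𝓝[≠] 0) (𝓝 z) := by
    have : Tendsto (fun x : ℂ => z + x) (𝓝 0) (𝓝 (z + 0)) :=
      (continuous_const.add continuous_id).tendsto 0
    rw [add_zero] at this
    exact this.mono_left nhdsWithin_le_nhds
  have c2 : Tendsto (fun x : ℂ => 2 * z + x) (𝓝[≠] 0) (𝓝 (2 * z)) := by
    have : Tendsto (fun x : ℂ => 2 * z + x) (𝓝 0) (𝓝 (2 * z + 0)) :=
      (continuous_const.add continuous_id).tendsto 0
    rw [add_zero] at this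
    exact this.mono_left nhdsWithin_le_nhds
  have t2 : Tendsto (fun x : ℂ => f (z + x)) (𝓝[≠] 0) (𝓝 (f z)) :=
    hz.continuousAt.tendsto.comp c1
  have t3 : Tendsto (fun x : ℂ => f (2 * z + x)) (𝓝[≠] 0) (𝓝 (f (2 * z))) :=
    hz2.continuousAt.tendsto.comp c2
  have t5 : Tendsto (fun x : ℂ => f (2 * z + x) * (x * f x) *
      (x⁻¹ * (f (z + x) ^ 2 - f z ^ 2))) (𝓝[≠] 0)
      (𝓝 (f (2 * z) * (-1) * (2 * f z * deriv f z))) := (t3.mul h0).mul t1
  have t6 : Tendsto (fun x : ℂ => c - f (z + x) ^ 2 * f z ^ 2) (𝓝[≠] 0)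
      (𝓝 (c - f z ^ 2 * f z ^ 2)) :=
    tendsto_const_nhds.sub ((t2.pow 2).mul tendsto_const_nhds)
  have h10 := tendsto_nhds_unique (t5.congr' key) t6
  linear_combination -h10

private theorem nhds_ne_add (U : Set ℂ) (a : ℂ) (hU : U ∈ 𝓝 a) :
    ∀ᶠ x : ℂ in 𝓝[≠] 0, a + x ∈ U := by
  have c1 : Tendsto (fun x : ℂ => a + x) (𝓝[≠] 0) (𝓝 a) := by
    have : Tendsto (fun x : ℂ => a + x) (𝓝 0) (𝓝 (a + 0)) :=
      (continuous_const.add continuous_id).tendsto 0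
    rw [add_zero] at this
    exact this.mono_left nhdsWithin_le_nhds
  exact c1 hU

theorem bsg_dup0 (h : Two N L) {z : ℂ} (hz : z ∉ L) (hz2 : 2 * z ∉ L) :
    sg N L (2 * z) * (2 * sg N L z * deriv (sg N L) z) = sg N L z ^ 4 - csq N L := by
  have hneg := bsg_neg h
  have hpm : ∀ u, u ∉ L → z + u ∉ L → z - u ∉ L →
      sg N L (z + u) * sg N L (z - u) * (sg N L z ^ 2 - sg N L u ^ 2) =
      csq N L - sg N L u ^ 2 * sg N L z ^ 2 := fun u => bsg_pm h hz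
  have a1 : AnalyticAt ℂ (sg N L) z := bsg_analytic h z hz
  have a2 : AnalyticAt ℂ (sg N L) (2 * z) := bsg_analytic h (2 * z) hz2
  have a3 := bsg_lead h
  generalize sg N L = f at hneg hpm a1 a2 a3 ⊢
  generalize csq N L = c at hpm ⊢
  refine dup_lim f c z a1 a2 a3 ?_
  filter_upwards [nhds_ne_add _ _ (h.lat'.compl_mem_nhds hz),
    nhds_ne_add _ _ (h.lat'.compl_mem_nhds hz2), h.lat'.compl_mem_nhdsNE 0,
    self_mem_nhdsWithin] with x h1 h2 h3 h4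
  have h8 : z + (z + x) = 2 * z + x := by ring
  have h9 : z - (z + x) = -x := by ring
  have h5 : z + (z + x) ∉ L := by
    rw [h8]
    exact h2
  have h6 : z - (z + x) ∉ L := by
    rw [h9, neg_mem_iff]
    exact h3
  have h7 := hpm (z + x) h1 h5 h6
  have h4' : x ≠ 0 := h4
  rw [h8, h9, hneg] at h7
  rw [← h7]
  field_simp
  ring

theorem bsg_dup (h : Two N L) {z : ℂ} (hz : z ∉ L) (hz2 : 2 * z ∉ L) {t : ℂ} (ht : 2 * t ∈ L)
    (ht' : 2 * t ∉ N) :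
    sg N L (2 * z) ^ 2 * (4 * sg N L z ^ 2 * (sg N L z ^ 2 - sg N L t ^ 2) *
      (sg N L z ^ 2 - csq N L / sg N L t ^ 2)) = (sg N L z ^ 4 - csq N L) ^ 2 := by
  have h1 := bsg_dup0 h hz hz2
  have h2 := bsg_deriv_sq h hz ht ht'
  rw [← h1]
  linear_combination -(4 * sg N L (2 * z) ^ 2 * sg N L z ^ 2) * h2

end Pool.Agent.Work.MP_8efaaa_nt.R
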