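import Mathlib
import Pool.Agent.Work.MP_8efaaa_nt.R.Defs

/-!
# Definitions of block B (fixed file)
-/

set_option autoImplicit false

namespace Pool.Agent.Work.MP_8efaaa_nt.R

open Pool.Agent.Work.CM

/-- `V` is a valuation at which the pair `(N, L)` is good; `t` is a point of order four modulo `N`
with `2 * t ∈ L`. -/
structure BGd {Γ : Type*} [LinearOrderedCommGroupWithZero Γ] (V : Valuation ℂ Γ)
    (N L : Submodule ℤ ℂ) (t : ℂ) : Prop where
  two : Two N L
  h2 : V 2 = 1
  ht : 2 * t ∈ L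
  ht' : 2 * t ∉ N
  hc : V (csq N L) = V (sg N L t) ^ 4

end Pool.Agent.Work.MP_8efaaa_nt.R
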