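import Mathlib

/-!
# Module BVe: elementary facts on valuations

`V 2 = 1`, so `V 4 = 1`. `V (x + y) = V x` when `V y < V x` (`Valuation.map_add_eq_of_lt_left`
and variants).

* `bdup_lt`: `V a < V S`: `V (a ^ 2 - S ^ 2) = V S ^ 2`, `V (c / S ^ 2) = V S ^ 2`, so
  `V (a ^ 2 - c / S ^ 2) = V S ^ 2`, and `V (a ^ 4 - c) = V S ^ 4`. So
  `V b ^ 2 * V a ^ 2 * V S ^ 4 = V S ^ 8`, `V b * V a = V S ^ 2` and `V a < V S`.
* `bdup_gt`: `V S < V a`: all three are dominated by `a`: `V b ^ 2 * V a ^ 6 = V a ^ 8`.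
* `bpm_ge`: `V (a ^ 2 - b ^ 2) ≤ V a ^ 2` and `V (c - b ^ 2 a ^ 2) = V a ^ 4`, since
  `V c < V a ^ 4`. So `V a ^ 4 ≤ V x V y V a ^ 2`, `V y ≤ V a`: `V a ≤ V x`.
* `bfac`: `(X - z ^ 2) (z ^ 2 - y ^ 2) = c - z ^ 4`, `V (z ^ 2 - y ^ 2) = V y ^ 2 > V z ^ 2`.
* `bprod_close`: induction; `x x' - y y' = (x - y) x' + y (x' - y')` and `V x' = V y'`.
* `bfrob`: binomial theorem; `l ∣ choose l i` for `0 < i < l` (`add_pow_eq..`, or
  `Commute.exists_add_pow_prime_eq` / `add_pow_char`-like lemmas: `exists_add_pow_prime_eq` gives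
  `(x + y) ^ l = x ^ l + y ^ l + l * x * y * r`, but `V r ≤ 1` is needed: use the subring
  `V.integer` and the lemma in that ring).
-/

set_option autoImplicit false

namespace Pool.Agent.Work.MP_8efaaa_nt.R

variable {Γ : Type*} [LinearOrderedCommGroupWithZero Γ] (V : Valuation ℂ Γ)

private theorem v4 (h2 : V 2 = 1) : V (4 : ℂ) = 1 := by
  have : (4 : ℂ) = 2 * 2 := by norm_num
  rw [this, map_mul, h2, one_mul]

theorem bdup_lt (h2 : V 2 = 1) {a b S c : ℂ} (hS : S ≠ 0) (hc : V c = V S ^ 4) (ha : a ≠ 0)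
    (hd : b ^ 2 * (4 * a ^ 2 * (a ^ 2 - S ^ 2) * (a ^ 2 - c / S ^ 2)) = (a ^ 4 - c) ^ 2)
    (hlt : V a < V S) : V S < V b := by
  have _ := ha
  have hS0 : 0 < V S := zero_lt_iff.2 ((V.ne_zero_iff).2 hS)
  have e1 : V (a ^ 2 - S ^ 2) = V S ^ 2 := by
    rw [V.map_sub_eq_of_lt_right, map_pow]
    rw [map_pow, map_pow]
    exact pow_lt_pow_left₀ hlt zero_le two_ne_zero
  have ec : V (c / S ^ 2) = V S ^ 2 := by
    rw [map_div₀, hc, map_pow, div_eq_iff (pow_ne_zero 2 hS0.ne'), ← pow_add]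
  have e2 : V (a ^ 2 - c / S ^ 2) = V S ^ 2 := by
    rw [V.map_sub_eq_of_lt_right, ec]
    rw [map_pow, ec]
    exact pow_lt_pow_left₀ hlt zero_le two_ne_zero
  have e3 : V (a ^ 4 - c) = V S ^ 4 := by
    rw [V.map_sub_eq_of_lt_right, hc]
    rw [map_pow, hc]
    exact pow_lt_pow_left₀ hlt zero_le (by norm_num)
  have h := congrArg V hd
  rw [map_mul, map_mul, map_mul, map_mul, map_pow, map_pow, map_pow, v4 V h2, e1, e2, e3,
    one_mul] at h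
  by_contra hcon
  have hle : V b ≤ V S := not_lt.1 hcon
  have h3 : V b ^ 2 * (V a ^ 2 * V S ^ 2 * V S ^ 2) ≤ V S ^ 2 * (V a ^ 2 * V S ^ 2 * V S ^ 2) :=
    mul_le_mul_left (pow_le_pow_left₀ zero_le hle 2) _
  have h4 : V S ^ 2 * (V a ^ 2 * V S ^ 2 * V S ^ 2) <
      V S ^ 2 * (V S ^ 2 * V S ^ 2 * V S ^ 2) := by
    refine mul_lt_mul_of_pos_left ?_ (pow_pos hS0 2)
    refine mul_lt_mul_of_pos_right ?_ (pow_pos hS0 2)
    exact mul_lt_mul_of_pos_right (pow_lt_pow_left₀ hlt zero_le two_ne_zero) (pow_pos hS0 2)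
  rw [h] at h3
  have h5 : (V S ^ 4) ^ 2 = V S ^ 2 * (V S ^ 2 * V S ^ 2 * V S ^ 2) := by
    rw [← pow_mul, ← pow_add, ← pow_add, ← pow_add]
  rw [h5] at h3
  exact absurd (lt_of_le_of_lt h3 h4) (lt_irrefl _)

theorem bdup_gt (h2 : V 2 = 1) {a b S c : ℂ} (hS : S ≠ 0) (hc : V c = V S ^ 4)
    (hd : b ^ 2 * (4 * a ^ 2 * (a ^ 2 - S ^ 2) * (a ^ 2 - c / S ^ 2)) = (a ^ 4 - c) ^ 2)
    (hlt : V S < V a) : V b = V a := by
  have hS0 : 0 < V S := zero_lt_iff.2 ((V.ne_zero_iff).2 hS)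
  have ha0 : 0 < V a := lt_trans hS0 hlt
  have e1 : V (a ^ 2 - S ^ 2) = V a ^ 2 := by
    rw [V.map_sub_eq_of_lt_left, map_pow]
    rw [map_pow, map_pow]
    exact pow_lt_pow_left₀ hlt zero_le two_ne_zero
  have ec : V (c / S ^ 2) = V S ^ 2 := by
    rw [map_div₀, hc, map_pow, div_eq_iff (pow_ne_zero 2 hS0.ne'), ← pow_add]
  have e2 : V (a ^ 2 - c / S ^ 2) = V a ^ 2 := by
    rw [V.map_sub_eq_of_lt_left, map_pow]
    rw [map_pow, ec]
    exact pow_lt_pow_left₀ hlt zero_le two_ne_zero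
  have e3 : V (a ^ 4 - c) = V a ^ 4 := by
    rw [V.map_sub_eq_of_lt_left, map_pow]
    rw [map_pow, hc]
    exact pow_lt_pow_left₀ hlt zero_le (by norm_num)
  have h := congrArg V hd
  rw [map_mul, map_mul, map_mul, map_mul, map_pow, map_pow, map_pow, v4 V h2, e1, e2, e3,
    one_mul] at h
  have h5 : (V a ^ 4) ^ 2 = V a ^ 2 * (V a ^ 2 * V a ^ 2 * V a ^ 2) := by
    rw [← pow_mul, ← pow_add, ← pow_add, ← pow_add]
  rw [h5] at h
  have h6 : V b ^ 2 = V a ^ 2 := by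
    have h0 : V a ^ 2 ≠ 0 := pow_ne_zero 2 ha0.ne'
    have hne : V a ^ 2 * V a ^ 2 * V a ^ 2 ≠ 0 := mul_ne_zero (mul_ne_zero h0 h0) h0
    exact mul_right_cancel₀ hne h
  rcases lt_trichotomy (V b) (V a) with h7 | h7 | h7
  · exact absurd h6 (ne_of_lt (pow_lt_pow_left₀ h7 zero_le two_ne_zero))
  · exact h7
  · exact absurd h6 (ne_of_gt (pow_lt_pow_left₀ h7 zero_le two_ne_zero))

/-- all values `V a`, `V b`, `V y` are equal to (or at most) the same large value -/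
theorem bpm_ge {a b x y c S : ℂ} (hc : V c = V S ^ 4) (hlt : V S < V a) (hb : V b = V a)
    (hy : V y ≤ V a) (h : x * y * (a ^ 2 - b ^ 2) = c - b ^ 2 * a ^ 2) : V a ≤ V x := by
  have ha0 : 0 < V a := lt_of_le_of_lt zero_le hlt
  have e1 : V (c - b ^ 2 * a ^ 2) = V a ^ 4 := by
    have e0 : V (b ^ 2 * a ^ 2) = V a ^ 4 := by
      rw [map_mul, map_pow, map_pow, hb, ← pow_add]
    rw [V.map_sub_eq_of_lt_right, e0]
    rw [e0, hc]
    exact pow_lt_pow_left₀ hlt zero_le (by norm_num)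
  have e2 : V (a ^ 2 - b ^ 2) ≤ V a ^ 2 := by
    refine V.map_sub_le ?_ ?_
    · rw [map_pow]
    · rw [map_pow, hb]
  have h1 := congrArg V h
  rw [map_mul, map_mul, e1] at h1
  by_contra hcon
  have hx : V x < V a := not_le.1 hcon
  have h2 : V x * V y * V (a ^ 2 - b ^ 2) ≤ V x * V a * V a ^ 2 :=
    mul_le_mul' (mul_le_mul' le_rfl hy) e2
  have h3 : V x * V a * V a ^ 2 < V a * V a * V a ^ 2 :=
    mul_lt_mul_of_pos_right (mul_lt_mul_of_pos_right hx ha0) (pow_pos ha0 2)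
  have h4 : V a * V a * V a ^ 2 = V a ^ 4 := by rw [← pow_two, ← pow_add]
  rw [h1] at h2
  rw [h4] at h3
  exact absurd (lt_of_le_of_lt h2 h3) (lt_irrefl _)

theorem bfac {X y z c : ℂ} (hz : z ≠ 0) (hc : V c = V z ^ 4) (hlt : V z < V y)
    (h : X * (z ^ 2 - y ^ 2) = c - y ^ 2 * z ^ 2) : V (X - z ^ 2) < V (z ^ 2) := by
  have hz0 : 0 < V z := zero_lt_iff.2 ((V.ne_zero_iff).2 hz)
  have hy0 : 0 < V y := lt_trans hz0 hlt
  have h1 : (X - z ^ 2) * (z ^ 2 - y ^ 2) = c - z ^ 4 := by linear_combination h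
  have e1 : V (z ^ 2 - y ^ 2) = V y ^ 2 := by
    rw [V.map_sub_eq_of_lt_right, map_pow]
    rw [map_pow, map_pow]
    exact pow_lt_pow_left₀ hlt zero_le two_ne_zero
  have e2 : V (c - z ^ 4) ≤ V z ^ 4 := by
    refine V.map_sub_le hc.le ?_
    rw [map_pow]
  have h2 := congrArg V h1
  rw [map_mul, e1] at h2
  rw [← h2] at e2
  rw [map_pow]
  by_contra hcon
  have hle : V z ^ 2 ≤ V (X - z ^ 2) := not_lt.1 hcon
  have h3 : V z ^ 2 * V y ^ 2 ≤ V (X - z ^ 2) * V y ^ 2 := mul_le_mul_left hle _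
  have h4 : V z ^ 2 * V z ^ 2 < V z ^ 2 * V y ^ 2 :=
    mul_lt_mul_of_pos_left (pow_lt_pow_left₀ hlt zero_le two_ne_zero) (pow_pos hz0 2)
  have h5 : V z ^ 2 * V z ^ 2 = V z ^ 4 := by rw [← pow_add]
  rw [h5] at h4
  exact absurd (lt_of_lt_of_le h4 (h3.trans e2)) (lt_irrefl _)

/-- products of numbers close to each other -/
theorem bprod_close {ι : Type*} (s : Finset ι) {x y : ι → ℂ}
    (h : ∀ i ∈ s, V (x i - y i) < V (y i)) :
    V (∏ i ∈ s, y i) ≠ 0 ∧ (V (∏ i ∈ s, x i - ∏ i ∈ s, y i) < V (∏ i ∈ s, y i)) := by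
  classical
  induction s using Finset.induction_on with
  | empty => simp
  | insert i s hi ih =>
    obtain ⟨ih1, ih2⟩ := ih fun j hj => h j (Finset.mem_insert_of_mem hj)
    have h0 := h i (Finset.mem_insert_self i s)
    have hy0 : 0 < V (y i) := lt_of_le_of_lt zero_le h0
    have hQ0 : 0 < V (∏ j ∈ s, y j) := zero_lt_iff.2 ih1
    rw [Finset.prod_insert hi, Finset.prod_insert hi, map_mul]
    refine ⟨mul_ne_zero hy0.ne' ih1, ?_⟩
    have hP : V (∏ j ∈ s, x j) = V (∏ j ∈ s, y j) := by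
      have h1 : ∏ j ∈ s, x j = (∏ j ∈ s, x j - ∏ j ∈ s, y j) + ∏ j ∈ s, y j := by ring
      rw [h1, V.map_add_eq_of_lt_right ih2]
    have h2 : x i * ∏ j ∈ s, x j - y i * ∏ j ∈ s, y j =
        (x i - y i) * ∏ j ∈ s, x j + y i * (∏ j ∈ s, x j - ∏ j ∈ s, y j) := by ring
    rw [h2]
    refine V.map_add_lt ?_ ?_
    · rw [map_mul, hP]
      exact mul_lt_mul_of_pos_right h0 hQ0
    · rw [map_mul]
      exact mul_lt_mul_of_pos_left ih2 hy0

/-- the Frobenius map modulo the maximal ideal -/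
theorem bfrob {l : ℕ} (hl : l.Prime) (hV : V (l : ℂ) < 1) {x y : ℂ} (hx : V x ≤ 1)
    (hy : V y ≤ 1) : V ((x + y) ^ l - (x ^ l + y ^ l)) < 1 := by
  obtain ⟨r, hr⟩ := exists_add_pow_prime_eq hl (⟨x, hx⟩ : V.integer) (⟨y, hy⟩ : V.integer)
  have h1 := congrArg (fun z : V.integer => (z : ℂ)) hr
  push_cast at h1
  have h2 : (x + y) ^ l - (x ^ l + y ^ l) = l * (x * y * r) := by
    rw [h1]
    ring
  rw [h2, map_mul]
  have h3 : V (x * y * r) ≤ 1 := by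
    rw [map_mul, map_mul]
    exact mul_le_one' (mul_le_one' hx hy) r.2
  calc V (l : ℂ) * V (x * y * r) ≤ V (l : ℂ) * 1 := mul_le_mul' le_rfl h3
    _ < 1 := by rwa [mul_one]

end Pool.Agent.Work.MP_8efaaa_nt.R
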