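import Mathlib
import Pool.Agent.Work.MP_8efaaa_nt.R.BGDefs
import Pool.Agent.Work.MP_8efaaa_nt.R.BDup
import Pool.Agent.Work.MP_8efaaa_nt.R.BVe

/-!
# Module BGe: valuations at points of odd order and of order `2 ^ k`

`s = sg N L`, `S = s t`. `t ∉ L` since `2 t ∉ N` (`Two.two_mem`); `S ≠ 0` (`bsg_eq_zero`).

* `BGd.dbl`: `bsg_dup` and `bdup_gt`.
* `BGd.dbl'`: `bsg_dup` and `bdup_lt` (`s z ≠ 0` since `2 z ∉ N`).
* `BGd.eq`: induction on `k`. `k = 0`: `z = t + (z - t)`, `bsg_add` or `bsg_add'`. Step: `2 z`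
  satisfies the hypothesis for `k`, so `V (s (2 z)) = V S`. Here `z ∉ L` and `2 z ∉ L` (otherwise
  `2 ^ (k + 1) z ∈ L`, `t ∈ L`). If `V (s z) < V S` then `V S < V (s (2 z))` by `dbl'`; if `V S < V (s z)`
  then `V (s (2 z)) = V (s z) > V S` by `dbl`: contradiction in both cases.
* `BGd.ge`: assume `V (s z) < V S`. `2 ^ k z ∉ L` for all `k` (else `2 ^ (k + 1) z ∈ N`, and
  `m z ∈ N` with `m` odd gives `z ∈ N` by Bezout). By `dbl'`, `V S < V (s (2 z))`, by `dbl` and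
  induction `V (s (2 ^ k z)) = V (s (2 z)) > V S` for all `k ≥ 1`. With `k = φ(m)` (`Nat.ModEq.pow_totient`),
  `2 ^ k z - z ∈ N` (`m ∣ 2 ^ k - 1`; `k ≥ 1` as `m ≥ 1`), so `s (2 ^ k z) = s z`: contradiction.
-/

set_option autoImplicit false

namespace Pool.Agent.Work.MP_8efaaa_nt.R

open Pool.Agent.Work.CM

variable {Γ : Type*} [LinearOrderedCommGroupWithZero Γ] {V : Valuation ℂ Γ}
  {N L : Submodule ℤ ℂ} {t : ℂ}

private theorem BGd.nmem (h : BGd V N L t) : t ∉ L := fun ht => h.ht' (h.two.two_mem ht)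

private theorem nmem_of_two (h : Two N L) {z : ℂ} (hz2 : 2 * z ∉ L) : z ∉ L :=
  fun hz => hz2 (h.le (h.two_mem hz))

theorem BGd.ne (h : BGd V N L t) : sg N L t ≠ 0 := fun h0 =>
  h.ht' ((bsg_eq_zero h.two h.nmem).1 h0)

theorem BGd.dbl (h : BGd V N L t) {z : ℂ} (hz2 : 2 * z ∉ L)
    (hlt : V (sg N L t) < V (sg N L z)) : V (sg N L (2 * z)) = V (sg N L z) :=
  bdup_gt V h.h2 h.ne h.hc (bsg_dup h.two (nmem_of_two h.two hz2) hz2 h.ht h.ht') hlt

theorem BGd.dbl' (h : BGd V N L t) {z : ℂ} (hz2 : 2 * z ∉ L)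
    (hlt : V (sg N L z) < V (sg N L t)) : V (sg N L t) < V (sg N L (2 * z)) :=
  bdup_lt V h.h2 h.ne h.hc
    (fun h0 => hz2 (h.two.le ((bsg_eq_zero h.two (nmem_of_two h.two hz2)).1 h0)))
    (bsg_dup h.two (nmem_of_two h.two hz2) hz2 h.ht h.ht') hlt

private theorem pow_smul_mem {A : Submodule ℤ ℂ} {z : ℂ} (hz : z ∈ A) (k : ℕ) :
    (2 : ℂ) ^ k * z ∈ A := by
  have h1 := A.smul_mem ((2 : ℤ) ^ k) hz
  simpa [zsmul_eq_mul] using h1

theorem BGd.eq (h : BGd V N L t) {k : ℕ} {z : ℂ} (hz : 2 ^ k * z - t ∈ L) :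
    V (sg N L z) = V (sg N L t) := by
  induction k generalizing z with
  | zero =>
    rw [pow_zero, one_mul] at hz
    have e : z = t + (z - t) := by ring
    by_cases hN : z - t ∈ N
    · rw [e, bsg_add h.two t hN]
    · rw [e, bsg_add' h.two t hz hN, Valuation.map_neg]
  | succ k ih =>
    have h1 : 2 ^ k * (2 * z) - t ∈ L := by
      have e : (2 : ℂ) ^ k * (2 * z) - t = 2 ^ (k + 1) * z - t := by ring
      rw [e]; exact hz
    have h2 := ih h1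
    have hz2 : 2 * z ∉ L := fun hm => h.nmem (by
      have h3 := sub_mem (pow_smul_mem hm k) h1
      have e : (2 : ℂ) ^ k * (2 * z) - (2 ^ k * (2 * z) - t) = t := by ring
      rwa [e] at h3)
    rcases lt_trichotomy (V (sg N L z)) (V (sg N L t)) with h3 | h3 | h3
    · exact absurd h2 (h.dbl' hz2 h3).ne'
    · exact h3
    · rw [h.dbl hz2 h3] at h2
      exact h2

theorem BGd.ge (h : BGd V N L t) {m : ℕ} (hm : Odd m) {z : ℂ} (hz : z ∉ N)
    (hmz : (m : ℂ) * z ∈ N) : V (sg N L t) ≤ V (sg N L z) := by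
  by_contra hcon
  rw [not_le] at hcon
  have hcop : ∀ k : ℕ, Nat.Coprime (2 ^ k) m := fun k =>
    Nat.Coprime.pow_left k ((Nat.coprime_two_left).2 hm)
  have hnm : ∀ k : ℕ, (2 : ℂ) ^ k * z ∉ L := by
    intro k hk
    have h1 := h.two.two_mem hk
    have h2 : (2 : ℂ) ^ (k + 1) * z ∈ N := by
      have e : (2 : ℂ) ^ (k + 1) * z = 2 * (2 ^ k * z) := by ring
      rw [e]; exact h1
    have hc := hcop (k + 1)
    have hb : ((2 ^ (k + 1) : ℕ) : ℤ) * Nat.gcdA (2 ^ (k + 1)) m +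
        (m : ℤ) * Nat.gcdB (2 ^ (k + 1)) m = 1 := by
      have h3 := Nat.gcd_eq_gcd_ab (2 ^ (k + 1)) m
      rw [hc] at h3
      exact_mod_cast h3.symm
    have hb' : ((2 : ℂ) ^ (k + 1)) * (Nat.gcdA (2 ^ (k + 1)) m : ℂ) +
        (m : ℂ) * (Nat.gcdB (2 ^ (k + 1)) m : ℂ) = 1 := by
      exact_mod_cast hb
    apply hz
    have h4 := add_mem (N.smul_mem (Nat.gcdA (2 ^ (k + 1)) m) h2)
      (N.smul_mem (Nat.gcdB (2 ^ (k + 1)) m) hmz)
    have e : Nat.gcdA (2 ^ (k + 1)) m • ((2 : ℂ) ^ (k + 1) * z) +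
        Nat.gcdB (2 ^ (k + 1)) m • ((m : ℂ) * z) = z := by
      rw [zsmul_eq_mul, zsmul_eq_mul]
      linear_combination z * hb'
    rwa [e] at h4
  have h1 : 2 * z ∉ L := by
    have := hnm 1
    rwa [pow_one] at this
  have h2 := h.dbl' h1 hcon
  have h3 : ∀ k : ℕ, V (sg N L (2 ^ (k + 1) * z)) = V (sg N L (2 * z)) := by
    intro k
    induction k with
    | zero => rw [zero_add, pow_one]
    | succ k ih =>
      have e : (2 : ℂ) ^ (k + 1 + 1) * z = 2 * (2 ^ (k + 1) * z) := by ring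
      have h4 : 2 * ((2 : ℂ) ^ (k + 1) * z) ∉ L := by
        rw [← e]; exact hnm (k + 1 + 1)
      rw [e, h.dbl h4 (by rw [ih]; exact h2), ih]
  have hm0 : 0 < m := hm.pos
  have hphi : 0 < Nat.totient m := Nat.totient_pos.2 hm0
  obtain ⟨k, hk⟩ : ∃ k, Nat.totient m = k + 1 := ⟨Nat.totient m - 1, by omega⟩
  have hmod : 2 ^ (k + 1) ≡ 1 [MOD m] := by
    rw [← hk]
    exact Nat.ModEq.pow_totient ((Nat.coprime_two_left).2 hm)
  have hdvd : (m : ℤ) ∣ (2 : ℤ) ^ (k + 1) - 1 := by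
    have h5 := (Nat.modEq_iff_dvd).1 hmod.symm
    exact_mod_cast h5
  obtain ⟨q, hq⟩ := hdvd
  have hq' : (2 : ℂ) ^ (k + 1) - 1 = (m : ℂ) * (q : ℂ) := by exact_mod_cast hq
  have h6 : (2 : ℂ) ^ (k + 1) * z - z ∈ N := by
    have h7 := N.smul_mem q hmz
    rw [zsmul_eq_mul] at h7
    have e : (2 : ℂ) ^ (k + 1) * z - z = (q : ℂ) * ((m : ℂ) * z) := by
      linear_combination z * hq'
    rw [e]; exact h7
  have h8 : sg N L (2 ^ (k + 1) * z) = sg N L z := by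
    have e : (2 : ℂ) ^ (k + 1) * z = z + (2 ^ (k + 1) * z - z) := by ring
    rw [e, bsg_add h.two z h6]
  have h9 := h3 k
  rw [h8] at h9
  rw [← h9] at h2
  exact absurd hcon (not_lt.2 h2.le)

end Pool.Agent.Work.MP_8efaaa_nt.R
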