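import Mathlib
import Pool.Agent.Work.MP_8efaaa_nt.R.BGe
import Pool.Agent.Work.MP_8efaaa_nt.R.BTwo

/-!
# Module BLar: all multiples of `u` are large if one is

`s = sg N L`, `S = s t`, `u` of odd prime order `l` modulo `N`. Let `j0`, `0 < j0 < l`, be such that
`a := V (s (j0 u))` is the largest of the values `V (s (j u))`, `0 < j < l`
(`Finset.exists_max_image`), `u0 = j0 u`. Values at other multiples: `s (i u) = s ((i % l) u)`
(`bsg_add`), and `s (i u) = 0` for `l ∣ i` (`bsg_of_mem`), so `V (s (i u)) ≤ a` for all `i`, and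
`V S < a`. Claim: `V (s (n u0)) = a` for `0 < n < l`, by strong induction. `n = 1`: clear.
`n = 2`: `BGd.dbl` (`2 u0 ∉ L` by `bmul_nmem`). `n + 1` with `2 ≤ n`, `n + 1 < l`: `bsg_pm` with
`z = n u0`, `u = u0`, and `bpm_ge`, with `a = s (n u0)`, `b = s u0`, `y = s ((n - 1) u0)`,
`x = s ((n + 1) u0)` (all these points are not in `L` by `bmul_nmem`): `a ≤ V x`. Finally for
`l ∤ i` there is `n`, `0 < n < l`, with `i ≡ n j0` modulo `l`, and `s (i u) = s (n u0)`.
-/

set_option autoImplicit false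

namespace Pool.Agent.Work.MP_8efaaa_nt.R

open Pool.Agent.Work.CM

variable {Γ : Type*} [LinearOrderedCommGroupWithZero Γ] {V : Valuation ℂ Γ}
  {N L : Submodule ℤ ℂ} {t : ℂ}

private theorem sg_per (h : Two N L) {l : ℕ} {u : ℂ} (hlu : (l : ℂ) * u ∈ N) (i : ℕ) :
    sg N L (i * u) = sg N L ((i % l : ℕ) * u) := by
  have e : (i : ℂ) * u = ((i % l : ℕ) : ℂ) * u + ((i / l : ℕ) : ℂ) * ((l : ℂ) * u) := by
    have h1 : (i : ℂ) = ((i % l : ℕ) : ℂ) + ((i / l : ℕ) : ℂ) * (l : ℂ) := by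
      exact_mod_cast (Nat.mod_add_div' i l).symm
    rw [← mul_assoc, ← add_mul, ← h1]
  rw [e]
  refine bsg_add h _ ?_
  have := N.smul_mem ((i / l : ℕ) : ℤ) hlu
  rw [zsmul_eq_mul] at this
  exact_mod_cast this

private theorem sg_per' (h : Two N L) {l : ℕ} {u : ℂ} (hlu : (l : ℂ) * u ∈ N) {i j : ℕ}
    (hij : i % l = j % l) : sg N L (i * u) = sg N L (j * u) := by
  rw [sg_per h hlu i, sg_per h hlu j, hij]

private theorem sg_zero (h : Two N L) {l : ℕ} {u : ℂ} (hlu : (l : ℂ) * u ∈ N) {i : ℕ}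
    (hi : l ∣ i) : sg N L (i * u) = 0 := by
  rw [sg_per h hlu i, Nat.mod_eq_zero_of_dvd hi, Nat.cast_zero, zero_mul]
  exact bsg_of_mem h (Submodule.zero_mem _)

theorem BGd.large (h : BGd V N L t) {l : ℕ} (hl : l.Prime) (hl2 : l ≠ 2) {u : ℂ} (hu : u ∉ N)
    (hlu : (l : ℂ) * u ∈ N) {j : ℕ} (hj : ¬ l ∣ j)
    (hlt : V (sg N L t) < V (sg N L (j * u))) {i : ℕ} (hi : ¬ l ∣ i) :
    V (sg N L t) < V (sg N L (i * u)) := by
  classical
  have hl0 : 0 < l := hl.pos
  have hmodpos : ∀ k : ℕ, ¬ l ∣ k → k % l ∈ Finset.Ioo 0 l := fun k hk =>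
    Finset.mem_Ioo.2 ⟨Nat.pos_of_ne_zero fun h0 => hk (Nat.dvd_of_mod_eq_zero h0),
      Nat.mod_lt _ hl0⟩
  obtain ⟨j0, hj0, hmax⟩ := Finset.exists_max_image (Finset.Ioo 0 l)
    (fun k => V (sg N L ((k : ℂ) * u))) ⟨_, hmodpos j hj⟩
  rw [Finset.mem_Ioo] at hj0
  have hj0' : ¬ l ∣ j0 := fun hd => absurd (Nat.le_of_dvd hj0.1 hd) (by omega)
  set a := V (sg N L ((j0 : ℂ) * u)) with ha
  have hM : ∀ k : ℕ, V (sg N L ((k : ℂ) * u)) ≤ a := by
    intro k
    by_cases hk : l ∣ k
    · rw [sg_zero h.two hlu hk, map_zero]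
      exact zero_le'
    · rw [sg_per h.two hlu k]
      exact hmax _ (hmodpos k hk)
  have hSa : V (sg N L t) < a := lt_of_lt_of_le hlt (hM j)
  -- multiples of u0
  have hnm : ∀ n : ℕ, 0 < n → n < l → ((n * j0 : ℕ) : ℂ) * u ∉ L := by
    intro n hn hnl
    refine bmul_nmem h.two hl hl2 hu hlu ?_
    intro hd
    rcases (Nat.Prime.dvd_mul hl).1 hd with hd | hd
    · exact absurd (Nat.le_of_dvd hn hd) (by omega)
    · exact hj0' hd
  have hl3 : 2 < l := lt_of_le_of_ne hl.two_le (Ne.symm hl2)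
  have key : ∀ n : ℕ, 0 < n → n < l → V (sg N L (((n * j0 : ℕ) : ℂ) * u)) = a := by
    intro n
    induction n using Nat.strong_induction_on with
    | _ n ih =>
      intro hn hnl
      rcases Nat.lt_or_ge n 2 with h1 | h1
      · have : n = 1 := by omega
        subst this
        rw [one_mul]
      · rcases Nat.lt_or_ge n 3 with h2 | h2
        · have : n = 2 := by omega
          subst this
          have e : ((2 * j0 : ℕ) : ℂ) * u = 2 * ((j0 : ℂ) * u) := by
            push_cast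
            ring
          rw [e]
          refine h.dbl ?_ hSa
          rw [← e]
          exact hnm 2 (by norm_num) hnl
        · obtain ⟨m, rfl⟩ : ∃ m, n = m + 2 := ⟨n - 2, by omega⟩
          have hz := hnm (m + 1) (by omega) (by omega)
          have hu0 := hnm 1 (by norm_num) (by omega)
          have e1 : (((m + 1) * j0 : ℕ) : ℂ) * u + ((1 * j0 : ℕ) : ℂ) * u =
              (((m + 2) * j0 : ℕ) : ℂ) * u := by
            push_cast
            ring
          have e2 : (((m + 1) * j0 : ℕ) : ℂ) * u - ((1 * j0 : ℕ) : ℂ) * u =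
              ((m * j0 : ℕ) : ℂ) * u := by
            push_cast
            ring
          have hp := bsg_pm h.two hz hu0 (by rw [e1]; exact hnm (m + 2) hn hnl)
            (by rw [e2]; exact hnm m (by omega) (by omega))
          rw [e1, e2] at hp
          have i1 := ih (m + 1) (by omega) (by omega) (by omega)
          have i2 := ih 1 (by omega) (by omega) (by omega)
          refine le_antisymm (hM _) ?_
          have := bpm_ge V h.hc (by rw [i1]; exact hSa) (by rw [i1, i2])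
            (by rw [i1]; exact hM _) hp
          rwa [i1] at this
  -- the general multiple
  haveI : Fact l.Prime := ⟨hl⟩
  set n : ℕ := ((i : ZMod l) * (j0 : ZMod l)⁻¹).val with hn
  have hj0z : (j0 : ZMod l) ≠ 0 := fun h0 => hj0' ((ZMod.natCast_eq_zero_iff _ _).1 h0)
  have hiz : (i : ZMod l) ≠ 0 := fun h0 => hi ((ZMod.natCast_eq_zero_iff _ _).1 h0)
  have hnl : n < l := ZMod.val_lt _
  have hncast : (n : ZMod l) = (i : ZMod l) * (j0 : ZMod l)⁻¹ := by
    rw [hn, ZMod.natCast_zmod_val]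
  have hn0 : 0 < n := by
    refine Nat.pos_of_ne_zero fun h0 => ?_
    rw [h0, Nat.cast_zero] at hncast
    exact mul_ne_zero hiz (inv_ne_zero hj0z) hncast.symm
  have hmod : i % l = (n * j0) % l := by
    have : ((i : ℕ) : ZMod l) = ((n * j0 : ℕ) : ZMod l) := by
      push_cast
      rw [hncast, mul_assoc, inv_mul_cancel₀ hj0z, mul_one]
    exact (ZMod.natCast_eq_natCast_iff _ _ _).1 this
  rw [sg_per' h.two hlu hmod, key n hn0 hnl]
  exact hSa

end Pool.Agent.Work.MP_8efaaa_nt.R
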