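import Mathlib
import Pool.Agent.Work.MP_8efaaa_nt.R.BLar
import Pool.Agent.Work.MP_8efaaa_nt.R.BCsq

/-!
# Module BCqle: comparison of `csq` for `N` and `N' = N + Z u`

`s = sg N L`, `S = s t`, `V (csq N L) = V S ^ 4`. By `bcsq_iso`,
`V (csq N' L') * ∏_{0 < j < l} V (s (j u)) ^ 4 = V (csq N L) ^ l = V (csq N L) * (V S ^ 4) ^ (l - 1)`,
and `V S ≤ V (s (j u))` for `0 < j < l` (`BGd.ge` with `m = l`; `j u ∉ N` by `bmul_nmem`).

* `BGd.csq_le`: follows at once (`V S ≠ 0`).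
* `BGd.csq_lt`: if no `j` has `V S < V (s (j u))` then all `V (s (j u)) = V S` and
  `V (csq N' L') = V (csq N L)`. So one `j` is large; `BGd.large`.
* `BGd.csq_ge`: the pair `(N', L')` is good and `(l⁻¹ N, l⁻¹ L) = (N' + Z v, L' + Z v)` (`bsup`): by
  `BGd.csq_le` for `(N', L')` and `v`, `V (csq (l⁻¹ N) (l⁻¹ L)) ≤ V (csq N' L')`, and
  `csq (l⁻¹ N) (l⁻¹ L) = l ^ 4 csq N L` (`bcsq_smul`).
-/

set_option autoImplicit false

namespace Pool.Agent.Work.MP_8efaaa_nt.R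

open Pool.Agent.Work.CM
open scoped Pointwise

variable {Γ : Type*} [LinearOrderedCommGroupWithZero Γ] {V : Valuation ℂ Γ}
  {N L : Submodule ℤ ℂ} {t : ℂ}

private theorem bcq_prod (h : Two N L) {l : ℕ} (hl : l.Prime) (hl2 : l ≠ 2) {u : ℂ} (hu : u ∉ N)
    (hlu : (l : ℂ) * u ∈ N) :
    V (csq (N ⊔ Submodule.span ℤ {u}) (L ⊔ Submodule.span ℤ {u})) *
      (∏ j ∈ Finset.Ico 1 l, V (sg N L (j * u))) ^ 4 = V (csq N L) ^ l := by
  have h1 := congrArg V (bcsq_iso h hl hl2 hu hlu)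
  rwa [map_mul, map_pow, map_pow, map_prod] at h1

private theorem bcq_ge (h : BGd V N L t) {l : ℕ} (hl : l.Prime) (hl2 : l ≠ 2) {u : ℂ} (hu : u ∉ N)
    (hlu : (l : ℂ) * u ∈ N) {j : ℕ} (hj : ¬ l ∣ j) : V (sg N L t) ≤ V (sg N L (j * u)) := by
  refine h.ge (hl.odd_of_ne_two hl2) (fun hm => bmul_nmem h.two hl hl2 hu hlu hj (h.two.le hm)) ?_
  have h1 : (l : ℂ) * ((j : ℂ) * u) = (j : ℤ) • ((l : ℂ) * u) := by
    rw [zsmul_eq_mul]
    push_cast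
    ring
  rw [h1]
  exact N.smul_mem _ hlu

private theorem bcq_pow (h : BGd V N L t) {l : ℕ} (hl : l.Prime) :
    V (csq N L) ^ l = V (csq N L) * (V (sg N L t) ^ (l - 1)) ^ 4 := by
  obtain ⟨m, rfl⟩ : ∃ m, l = m + 1 := ⟨l - 1, by have := hl.pos; omega⟩
  rw [Nat.add_sub_cancel, pow_succ, mul_comm]
  congr 1
  rw [h.hc, ← pow_mul, ← pow_mul, mul_comm]

private theorem bcq_mem {l j : ℕ} (hj : j ∈ Finset.Ico 1 l) : ¬ l ∣ j := by
  rw [Finset.mem_Ico] at hj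
  exact fun hd => absurd (Nat.le_of_dvd hj.1 hd) (by omega)

theorem BGd.csq_le (h : BGd V N L t) {l : ℕ} (hl : l.Prime) (hl2 : l ≠ 2) {u : ℂ} (hu : u ∉ N)
    (hlu : (l : ℂ) * u ∈ N) :
    V (csq (N ⊔ Submodule.span ℤ {u}) (L ⊔ Submodule.span ℤ {u})) ≤ V (csq N L) := by
  have h0 : V (sg N L t) ≠ 0 := (V.ne_zero_iff).2 h.ne
  have h1 : V (sg N L t) ^ (l - 1) ≤ ∏ j ∈ Finset.Ico 1 l, V (sg N L (j * u)) := by
    have h2 := Finset.pow_card_le_prod (Finset.Ico 1 l) (fun j : ℕ => V (sg N L (j * u)))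
      (V (sg N L t)) fun j hj => bcq_ge h hl hl2 hu hlu (bcq_mem hj)
    rwa [Nat.card_Ico] at h2
  have h3 : 0 < (∏ j ∈ Finset.Ico 1 l, V (sg N L (j * u))) ^ 4 :=
    pow_pos (lt_of_lt_of_le (pow_pos (zero_lt_iff.2 h0) _) h1) 4
  refine le_of_mul_le_mul_right ?_ h3
  rw [bcq_prod h.two hl hl2 hu hlu, bcq_pow h hl]
  exact mul_le_mul_right (pow_le_pow_left' h1 4) _

theorem BGd.csq_lt (h : BGd V N L t) {l : ℕ} (hl : l.Prime) (hl2 : l ≠ 2) {u : ℂ} (hu : u ∉ N)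
    (hlu : (l : ℂ) * u ∈ N)
    (hlt : V (csq (N ⊔ Submodule.span ℤ {u}) (L ⊔ Submodule.span ℤ {u})) < V (csq N L))
    {i : ℕ} (hi : ¬ l ∣ i) : V (sg N L t) < V (sg N L (i * u)) := by
  by_contra hc
  have h0 : V (sg N L t) ≠ 0 := (V.ne_zero_iff).2 h.ne
  have h1 : ∀ j ∈ Finset.Ico 1 l, V (sg N L (j * u)) = V (sg N L t) := fun j hj => by
    rcases (bcq_ge h hl hl2 hu hlu (bcq_mem hj)).eq_or_lt with e | e
    · exact e.symm
    · exact absurd (h.large hl hl2 hu hlu (bcq_mem hj) e hi) hc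
  have h2 := bcq_prod (V := V) h.two hl hl2 hu hlu
  rw [Finset.prod_congr rfl h1, Finset.prod_const, Nat.card_Ico, bcq_pow h hl] at h2
  exact absurd (mul_right_cancel₀ (pow_ne_zero 4 (pow_ne_zero _ h0)) h2) hlt.ne

theorem BGd.csq_ge (h0 : Two N L) {l : ℕ} (hl : l.Prime) (hl2 : l ≠ 2) {u : ℂ} (hu : u ∉ N)
    (hlu : (l : ℂ) * u ∈ N)
    (h : BGd V (N ⊔ Submodule.span ℤ {u}) (L ⊔ Submodule.span ℤ {u}) t) :
    V (l : ℂ) ^ 4 * V (csq N L) ≤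
      V (csq (N ⊔ Submodule.span ℤ {u}) (L ⊔ Submodule.span ℤ {u})) := by
  obtain ⟨v, hv, hlv, e1, e2⟩ := bsup h0 hl hl2 hu hlu
  have h1 := h.csq_le hl hl2 hv hlv
  have hl0 : (l : ℂ) ≠ 0 := Nat.cast_ne_zero.2 hl.ne_zero
  rw [← e1, ← e2, bcsq_smul h0 (inv_ne_zero hl0), inv_pow, inv_inv, map_mul, map_pow] at h1
  exact h1

end Pool.Agent.Work.MP_8efaaa_nt.R
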