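import Mathlib
import Pool.Agent.Work.MP_8efaaa_nt.R.BCqle
import Pool.Agent.Work.MP_8efaaa_nt.R.AInt

/-!
# Module BCyc: the cycle

Let `L i = Ch (N i) w 4`. `two_Ch` with `k = 4` and `Ch_five` give `Two (N i) (L i)`.

* `bgd_of_fr`: `ht`, `ht'` are `16 w ∈ Ch M w 4`, `16 w ∉ M` (`Fr.nmem`). `hc`: `csq_eq` (and
  `SS M w 3 = sg (Ch M w 5) (Ch M w 4) (2 ^ 3 * w)`, `Ch_five`), `V (fz) = V (2 - fz ^ 2) = 1`.
* `bCh_sup`: `M' = M ⊔ span {u}`: `Ch M' w k = Ch M w k ⊔ span {u}` (`sup_right_comm`).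
* `bcyc`: let `x i = V (csq (N i) (L i))`, `r = V l ^ 4 < 1`. `BGd.csq_ge` gives `r x i ≤ x (i + 1)`,
  so `r ^ (f - 1) x 1 ≤ x f`. `N f = lam⁻¹ • N 0` (`hcyc`; `mem_smul_iff`), and
  `L f = lam⁻¹ • L 0` (`lam * 16 w - 16 w ∈ N 0`), so `x f = V lam ^ 4 x 0 = r ^ f x 0`
  (`bcsq_smul`). So `x 1 ≤ r x 0 < x 0` (`x 0 ≠ 0` by `bcsq_ne`, `V l ≠ 0`).
-/

set_option autoImplicit false

namespace Pool.Agent.Work.MP_8efaaa_nt.R

open Pool.Agent.Work.CM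
open scoped Pointwise

variable {Γ : Type*} [LinearOrderedCommGroupWithZero Γ]

theorem bgd_of_fr {V : Valuation ℂ Γ} {M : Submodule ℤ ℂ} {w : ℂ} (h : Fr M w) (h2 : V 2 = 1)
    (h3 : V (fz M w) = 1) (h4 : V (2 - fz M w ^ 2) = 1) :
    BGd V M (Ch M w 4) (8 * w) := by
  have h4' : Two M (Ch M w 4) := by
    have h5 := two_Ch h (k := 4) (by norm_num)
    rwa [Ch_five h] at h5
  have e16 : 2 * (8 * w) = (2 : ℂ) ^ 4 * w := by ring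
  refine ⟨h4', h2, ?_, ?_, ?_⟩
  · rw [e16]
    exact pow_mem_Ch (M := M) (w := w) 4
  · rw [show 2 * (8 * w) = 16 * w by ring]
    exact h.nmem
  · rw [csq_eq h, ← SS_three h, map_mul, map_mul, map_pow, map_pow, h3, h4, one_pow, one_mul,
      mul_one]

theorem bCh_sup (M : Submodule ℤ ℂ) (w u : ℂ) (k : ℕ) :
    Ch (M ⊔ Submodule.span ℤ {u}) w k = Ch M w k ⊔ Submodule.span ℤ {u} := by
  unfold Ch
  rw [sup_right_comm]

private theorem bcyc_mem {lam : ℂ} (hlam : lam ≠ 0) {A : Submodule ℤ ℂ} {z : ℂ} :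
    z ∈ lam⁻¹ • A ↔ lam * z ∈ A := by
  have h1 : z = lam⁻¹ * (lam * z) := by rw [← mul_assoc, inv_mul_cancel₀ hlam, one_mul]
  conv_lhs => rw [h1]
  exact mem_smul_iff (inv_ne_zero hlam)

theorem bcyc (V : Valuation ℂ Γ) {l : ℕ}
    (hl : l.Prime) (h2 : V 2 = 1) (hV : V (l : ℂ) < 1) {N : ℕ → Submodule ℤ ℂ} {w : ℂ}
    (hN : ∀ i, Fr (N i) w)
    (hstep : ∀ i, ∃ u, u ∉ N i ∧ (l : ℂ) * u ∈ N i ∧ N (i + 1) = N i ⊔ Submodule.span ℤ {u})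
    {f : ℕ} (hf : 0 < f) {lam : ℂ} (hlam : lam ≠ 0) (hcyc : ∀ z, z ∈ N f ↔ lam * z ∈ N 0)
    (hw : lam * w - w ∈ N 0) (hVl : V lam = V (l : ℂ) ^ f)
    (hgood : ∀ i, V (fz (N i) w) = 1 ∧ V (2 - fz (N i) w ^ 2) = 1) :
    V (csq (N 1) (Ch (N 1) w 4)) < V (csq (N 0) (Ch (N 0) w 4)) := by
  have hl2 : l ≠ 2 := by
    rintro rfl
    rw [show ((2 : ℕ) : ℂ) = 2 by norm_num, h2] at hV
    exact lt_irrefl _ hV
  have hl0 : (l : ℂ) ≠ 0 := Nat.cast_ne_zero.2 hl.ne_zero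
  have hVl0 : V (l : ℂ) ≠ 0 := (V.ne_zero_iff).2 hl0
  have hg : ∀ i, BGd V (N i) (Ch (N i) w 4) (8 * w) := fun i =>
    bgd_of_fr (hN i) h2 (hgood i).1 (hgood i).2
  have hst : ∀ i, V (l : ℂ) ^ 4 * V (csq (N i) (Ch (N i) w 4)) ≤
      V (csq (N (i + 1)) (Ch (N (i + 1)) w 4)) := by
    intro i
    obtain ⟨u, hu, hlu, he⟩ := hstep i
    have h3 : BGd V (N i ⊔ Submodule.span ℤ {u}) (Ch (N i) w 4 ⊔ Submodule.span ℤ {u}) (8 * w) := by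
      have h4 := hg (i + 1)
      rw [he, bCh_sup] at h4
      exact h4
    have h5 := BGd.csq_ge (hg i).two hl hl2 hu hlu h3
    rw [he, bCh_sup]
    exact h5
  have hit : ∀ k : ℕ, (V (l : ℂ) ^ 4) ^ k * V (csq (N 1) (Ch (N 1) w 4)) ≤
      V (csq (N (1 + k)) (Ch (N (1 + k)) w 4)) := by
    intro k
    induction k with
    | zero => rw [pow_zero, one_mul, add_zero]
    | succ k ih =>
      have h3 := (mul_le_mul_right ih (V (l : ℂ) ^ 4)).trans (hst (1 + k))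
      rw [← mul_assoc, ← pow_succ'] at h3
      exact h3
  obtain ⟨k, rfl⟩ : ∃ k, f = 1 + k := ⟨f - 1, by omega⟩
  have e1 : N (1 + k) = lam⁻¹ • N 0 := by
    ext z
    rw [hcyc z]
    exact (bcyc_mem hlam).symm
  have e2 : Ch (N (1 + k)) w 4 = lam⁻¹ • Ch (N 0) w 4 := by
    ext z
    rw [bcyc_mem hlam, mem_Ch, mem_Ch]
    constructor
    · rintro ⟨m, hm, n, rfl⟩
      refine ⟨lam * m + ((n * 16 : ℤ) : ℂ) * (lam * w - w), add_mem ((hcyc m).1 hm)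
        (intmul_mem hw _), n, ?_⟩
      push_cast
      ring
    · rintro ⟨m, hm, n, he⟩
      refine ⟨z - n * (2 ^ 4 * w), ?_, n, by ring⟩
      rw [hcyc]
      have h3 : lam * (z - n * (2 ^ 4 * w)) = m - ((n * 16 : ℤ) : ℂ) * (lam * w - w) := by
        push_cast
        linear_combination he
      rw [h3]
      exact sub_mem hm (intmul_mem hw _)
  have h3 := hit k
  rw [e2, e1, bcsq_smul (hg 0).two (inv_ne_zero hlam), inv_pow, inv_inv, map_mul, map_pow, hVl,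
    show (V (l : ℂ) ^ (1 + k)) ^ 4 = (V (l : ℂ) ^ 4) ^ k * V (l : ℂ) ^ 4 by
      rw [← pow_mul, ← pow_mul, ← pow_add]; congr 1; ring, mul_assoc] at h3
  have hr : (0 : Γ) < (V (l : ℂ) ^ 4) ^ k := zero_lt_iff.2 (pow_ne_zero _ (pow_ne_zero _ hVl0))
  have h4 : V (csq (N 1) (Ch (N 1) w 4)) ≤ V (l : ℂ) ^ 4 * V (csq (N 0) (Ch (N 0) w 4)) :=
    le_of_mul_le_mul_left h3 hr
  refine lt_of_le_of_lt h4 ?_
  have h5 : V (csq (N 0) (Ch (N 0) w 4)) ≠ 0 := (V.ne_zero_iff).2 (bcsq_ne (hg 0).two)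
  have h6 : V (l : ℂ) ^ 4 < 1 := pow_lt_one₀ zero_le' hV (by norm_num)
  calc V (l : ℂ) ^ 4 * V (csq (N 0) (Ch (N 0) w 4)) < 1 * V (csq (N 0) (Ch (N 0) w 4)) :=
        mul_lt_mul_of_pos_right h6 (zero_lt_iff.2 h5)
    _ = _ := one_mul _

end Pool.Agent.Work.MP_8efaaa_nt.R
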