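import Mathlib
import Pool.Agent.Work.MP_8efaaa_nt.R.BVe
import Pool.Agent.Work.MP_8efaaa_nt.R.AInt

/-!
# Module BFr: from the values at the multiples of `w` to `fz`, `fk`, `fv`

Let `C a b` mean `V a ≤ 1 ∧ V (b - a ^ l) < 1` (then `V b ≤ 1`). It is closed under products, sums
and differences (`bfrob`; `(-1) ^ l = -1`), powers, quotients `a / a'` with `V a' = 1` (then `V b' = 1`),
and holds for `(1, 1)`, `(2, 2)` (`2 = 1 + 1`). Apply this to the formulas `fz_tn`, `fk_tn`,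
`fv_tn` for `M` and for `M'`.
-/

set_option autoImplicit false

namespace Pool.Agent.Work.MP_8efaaa_nt.R

open Pool.Agent.Work.CM

variable {Γ : Type*} [LinearOrderedCommGroupWithZero Γ]

/-- `b` is the `l`-th power of `a` in the residue field. -/
private def Cg (V : Valuation ℂ Γ) (l : ℕ) (a b : ℂ) : Prop := V a ≤ 1 ∧ V (b - a ^ l) < 1

section

variable {V : Valuation ℂ Γ} {l : ℕ}

private theorem Cg.le {a b : ℂ} (h : Cg V l a b) : V b ≤ 1 := by
  have e : b = (b - a ^ l) + a ^ l := by ring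
  rw [e]
  refine V.map_add_le h.2.le ?_
  rw [map_pow]
  exact pow_le_one' h.1 l

private theorem Cg.eq_one {a b : ℂ} (h : Cg V l a b) (ha : V a = 1) : V b = 1 := by
  have e : b = a ^ l + (b - a ^ l) := by ring
  have h1 : V (a ^ l) = 1 := by rw [map_pow, ha, one_pow]
  rw [e, V.map_add_eq_of_lt_left (by rw [h1]; exact h.2), h1]

private theorem Cg.mul {a b c d : ℂ} (h : Cg V l a b) (h' : Cg V l c d) :
    Cg V l (a * c) (b * d) := by
  refine ⟨?_, ?_⟩
  · rw [map_mul]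
    exact mul_le_one' h.1 h'.1
  · have e : b * d - (a * c) ^ l = (b - a ^ l) * d + a ^ l * (d - c ^ l) := by
      rw [mul_pow]
      ring
    rw [e]
    refine V.map_add_lt ?_ ?_
    · rw [map_mul]
      exact (mul_le_of_le_one_right' h'.le).trans_lt h.2
    · rw [map_mul, map_pow]
      exact (mul_le_of_le_one_left' (pow_le_one' h.1 l)).trans_lt h'.2

private theorem Cg.add (hl : l.Prime) (hV : V (l : ℂ) < 1) {a b c d : ℂ} (h : Cg V l a b)
    (h' : Cg V l c d) : Cg V l (a + c) (b + d) := by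
  refine ⟨V.map_add_le h.1 h'.1, ?_⟩
  have e : b + d - (a + c) ^ l =
      ((b - a ^ l) + (d - c ^ l)) - ((a + c) ^ l - (a ^ l + c ^ l)) := by ring
  rw [e]
  exact V.map_sub_lt (V.map_add_lt h.2 h'.2) (bfrob V hl hV h.1 h'.1)

private theorem Cg.one : Cg V l 1 1 := by
  refine ⟨by rw [map_one], ?_⟩
  rw [one_pow, sub_self, map_zero]
  exact zero_lt_one

private theorem Cg.neg (hl : Odd l) {a b : ℂ} (h : Cg V l a b) : Cg V l (-a) (-b) := by
  refine ⟨by rw [Valuation.map_neg]; exact h.1, ?_⟩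
  rw [hl.neg_pow]
  have e : -b - -a ^ l = -(b - a ^ l) := by ring
  rw [e, Valuation.map_neg]
  exact h.2

private theorem Cg.inv {a b : ℂ} (h : Cg V l a b) (ha : V a = 1) : Cg V l a⁻¹ b⁻¹ := by
  have hb := h.eq_one ha
  have ha0 : a ≠ 0 := by
    rintro rfl
    rw [map_zero] at ha
    exact zero_ne_one ha
  have hb0 : b ≠ 0 := by
    rintro rfl
    rw [map_zero] at hb
    exact zero_ne_one hb
  refine ⟨by rw [map_inv₀, ha, inv_one], ?_⟩
  have e : b⁻¹ - a⁻¹ ^ l = -((b - a ^ l) * (b⁻¹ * (a ^ l)⁻¹)) := by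
    rw [inv_pow]
    field_simp
    ring
  rw [e, Valuation.map_neg, map_mul, map_mul, map_inv₀, map_inv₀, map_pow, hb, ha, one_pow, inv_one,
    mul_one, mul_one]
  exact h.2

private theorem Cg.pow2 {a b : ℂ} (h : Cg V l a b) : Cg V l (a ^ 2) (b ^ 2) := by
  rw [pow_two, pow_two]
  exact h.mul h

private theorem Cg.div {a b c d : ℂ} (h : Cg V l a b) (h' : Cg V l c d) (hc : V c = 1) :
    Cg V l (a / c) (b / d) := by
  rw [div_eq_mul_inv, div_eq_mul_inv]
  exact h.mul (h'.inv hc)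

private theorem Cg.sub (hl : l.Prime) (ho : Odd l) (hV : V (l : ℂ) < 1) {a b c d : ℂ}
    (h : Cg V l a b) (h' : Cg V l c d) : Cg V l (a - c) (b - d) := by
  rw [sub_eq_add_neg, sub_eq_add_neg]
  exact h.add hl hV (h'.neg ho)

end

theorem bfr (V : Valuation ℂ Γ) {l : ℕ} (hl : l.Prime) (h2 : V 2 = 1) (hV : V (l : ℂ) < 1)
    {M M' : Submodule ℤ ℂ} {w : ℂ} (h : Fr M w) (h' : Fr M' w)
    (ht : ∀ n : ℕ, ¬ 16 ∣ n → V (tn M w n) = 1 ∧ V (tn M' w n - tn M w n ^ l) < 1) :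
    (V (fz M w) ≤ 1 ∧ V (fz M' w - fz M w ^ l) < 1) ∧
    (V (fk M w) ≤ 1 ∧ V (fk M' w - fk M w ^ l) < 1) ∧
    (V (fv M w) ≤ 1 ∧ V (fv M' w - fv M w ^ l) < 1) := by
  have ho : Odd l := by
    refine hl.odd_of_ne_two ?_
    rintro rfl
    rw [Nat.cast_ofNat, h2] at hV
    exact lt_irrefl _ hV
  have c : ∀ n : ℕ, ¬ 16 ∣ n → Cg V l (tn M w n) (tn M' w n) := fun n hn =>
    ⟨(ht n hn).1.le, (ht n hn).2⟩
  have u : ∀ n : ℕ, ¬ 16 ∣ n → V (tn M w n) = 1 := fun n hn => (ht n hn).1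
  have c1 := c 1 (by norm_num)
  have c2 := c 2 (by norm_num)
  have c3 := c 3 (by norm_num)
  have c4 := c 4 (by norm_num)
  have c5 := c 5 (by norm_num)
  have c6 := c 6 (by norm_num)
  have c7 := c 7 (by norm_num)
  have u2 := u 2 (by norm_num)
  have u4 := u 4 (by norm_num)
  have u6 := u 6 (by norm_num)
  have two : Cg V l 2 2 := by
    have h3 := (Cg.one (V := V) (l := l)).add hl hV Cg.one
    rwa [one_add_one_eq_two] at h3
  refine ⟨?_, ?_, ?_⟩
  · rw [fz_tn h, fz_tn h']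
    exact c4
  · rw [fk_tn h, fk_tn h']
    exact (((c2.mul c6).div c4 u4).sub hl ho hV Cg.one)
  · rw [fv_tn h, fv_tn h']
    have A := ((((c1.mul c3).mul c5).mul c7).div ((c2.mul c4).mul c6)
      (by rw [map_mul, map_mul, u2, u4, u6, one_mul, one_mul])).pow2
    have B := ((c2.mul c6).div c4 u4).pow2
    have D := two.mul c4.pow2
    exact (A.sub hl ho hV B).div D (by rw [map_mul, map_pow, h2, u4, one_pow, one_mul])

end Pool.Agent.Work.MP_8efaaa_nt.R
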