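import Mathlib
import Pool.Agent.Work.MP_8efaaa_nt.R.BIso
import Pool.Agent.Work.MP_8efaaa_nt.R.BGe
import Pool.Agent.Work.MP_8efaaa_nt.R.AInt

/-!
# Module BTn: congruence for the values at the multiples of `w`

`s = sg N L`, `S = s t`, all `s (i u)`, `l ∤ i`, are large.

* `bprod_small`: the factors of `∏_{j < l} s (z + j u)`: `j = 0` gives `s z`; the factors `j` and `l - j`,
  `1 ≤ j ≤ (l - 1) / 2`, give `X j = s (z + j u) s (z - j u)` (`s (z + (l - j) u) = s (z - j u)` since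
  `l u ∈ N`, `bsg_add`). By `bsg_pm`, `X j (s z ^ 2 - s (j u) ^ 2) = csq - s (j u) ^ 2 s z ^ 2`,
  and `bfac` (`V (s z) = V S < V (s (j u))`, `V csq = V S ^ 4`) gives `V (X j - s z ^ 2) < V (s z ^ 2)`.
  So `V (∏ - s z ^ l) < V (s z ^ l)` (`bprod_close`, `l = 1 + 2 * ((l - 1) / 2)`).
* `btn`: `L' = Ch M' w 4 = Ch M w 4 ⊔ span {u}`, `s' = sg M' L'`, `c = ∏_{0 < j < l} s (j u) ≠ 0`.
  Points: `z = n w` and `z = 8 w`; `V (s (n w)) = V S` by `BGd.eq` (`n = 2 ^ i n'`, `n'` odd,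
  `i ≤ 3`, `2 ^ (3 - i) n w - 8 w = 8 (n' - 1) w ∈ L`), where `S = s (8 w)`; so `V (tn M w n) = 1`.
  `tn_ne` for `M'` shows `n w ∉ L'`, `8 w ∉ L'`. By `bsg_iso`, `s' z c = ∏_{j < l} s (z + j u) =: P z`, so
  `tn M' w n = P (n w) / P (8 w)`, with `P z` close to `s z ^ l`.
-/

set_option autoImplicit false

namespace Pool.Agent.Work.MP_8efaaa_nt.R

open Pool.Agent.Work.CM

variable {Γ : Type*} [LinearOrderedCommGroupWithZero Γ] {V : Valuation ℂ Γ}

theorem bprod_small {N L : Submodule ℤ ℂ} {t : ℂ} (h : BGd V N L t) {l : ℕ} (hl : l.Prime)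
    (hl2 : l ≠ 2) {u : ℂ} (hu : u ∉ N) (hlu : (l : ℂ) * u ∈ N)
    (hlar : ∀ i : ℕ, ¬ l ∣ i → V (sg N L t) < V (sg N L (i * u)))
    {z : ℂ} (hz : z ∉ L ⊔ Submodule.span ℤ {u}) (hzv : V (sg N L z) = V (sg N L t)) :
    V (∏ j ∈ Finset.range l, sg N L (z + j * u) - sg N L z ^ l) < V (sg N L z ^ l) := by
  have hS : V (sg N L t) ≠ 0 := V.ne_zero_iff.2 h.ne
  have hz0 : sg N L z ≠ 0 := by
    intro h0
    rw [h0, map_zero] at hzv
    exact hS hzv.symm
  have hL : z ∉ L := fun hc => hz (Submodule.mem_sup_left hc)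
  obtain ⟨m, hm⟩ : ∃ m, l = 2 * m + 1 := (hl.odd_of_ne_two hl2)
  have hju : ∀ j : ℕ, (j : ℂ) * u ∈ Submodule.span ℤ {u} := by
    intro j
    rw [Submodule.mem_span_singleton]
    exact ⟨j, by simp⟩
  -- the factors
  have hX : ∀ j ∈ Finset.range m,
      V (sg N L (z + ((j + 1 : ℕ) : ℂ) * u) * sg N L (z - ((j + 1 : ℕ) : ℂ) * u) - sg N L z ^ 2) <
        V (sg N L z ^ 2) := by
    intro j hj
    rw [Finset.mem_range] at hj
    have hdiv : ¬ l ∣ j + 1 := fun hd => by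
      have := Nat.le_of_dvd (Nat.succ_pos j) hd
      omega
    have h1 := hlar (j + 1) hdiv
    have h2 : ((j + 1 : ℕ) : ℂ) * u ∉ L := by
      intro hc
      rw [bsg_of_mem h.two hc, map_zero] at h1
      exact not_lt_zero' h1
    refine bfac V (y := sg N L (((j + 1 : ℕ) : ℂ) * u)) (c := csq N L) hz0 ?_ ?_ ?_
    · rw [hzv]
      exact h.hc
    · rw [hzv]
      exact h1
    · refine bsg_pm h.two hL h2 ?_ ?_
      · intro hc
        apply hz
        have h3 := Submodule.sub_mem _ (Submodule.mem_sup_left (T := Submodule.span ℤ {u}) hc)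
          (Submodule.mem_sup_right (S := L) (hju (j + 1)))
        rwa [add_sub_cancel_right] at h3
      · intro hc
        apply hz
        have h3 := Submodule.add_mem _ (Submodule.mem_sup_left (T := Submodule.span ℤ {u}) hc)
          (Submodule.mem_sup_right (S := L) (hju (j + 1)))
        rwa [sub_add_cancel] at h3
  have hprod := (bprod_close V (Finset.range m)
    (x := fun j => sg N L (z + ((j + 1 : ℕ) : ℂ) * u) * sg N L (z - ((j + 1 : ℕ) : ℂ) * u))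
    (y := fun _ => sg N L z ^ 2) hX).2
  have hsplit : ∏ j ∈ Finset.range l, sg N L (z + j * u) = sg N L z *
      ∏ j ∈ Finset.range m,
        (sg N L (z + ((j + 1 : ℕ) : ℂ) * u) * sg N L (z - ((j + 1 : ℕ) : ℂ) * u)) := by
    rw [hm, Finset.prod_range_succ', Nat.cast_zero, zero_mul, add_zero, mul_comm, two_mul,
      Finset.prod_range_add, Finset.prod_mul_distrib]
    congr 2
    rw [← Finset.prod_range_reflect]
    refine Finset.prod_congr rfl fun j hj => ?_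
    rw [Finset.mem_range] at hj
    have h4 : (((m + (m - 1 - j) + 1 : ℕ)) : ℂ) = (l : ℂ) - ((j + 1 : ℕ) : ℂ) := by
      rw [eq_sub_iff_add_eq]
      norm_cast
      omega
    rw [h4, ← bsg_add h.two (z - ((j + 1 : ℕ) : ℂ) * u) hlu]
    congr 1
    ring
  have hpow : sg N L z ^ l = sg N L z * ∏ _j ∈ Finset.range m, sg N L z ^ 2 := by
    rw [Finset.prod_const, Finset.card_range, hm, ← pow_mul, pow_succ, mul_comm]
  rw [hsplit, hpow, ← mul_sub, map_mul, map_mul]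
  exact mul_lt_mul_of_pos_left hprod (zero_lt_iff.2 (V.ne_zero_iff.2 hz0))

private theorem btn_div {P P' A B : ℂ} (hB : B ≠ 0) (hA : V A = V B) (hP' : V P' = V B)
    (h1 : V (P - A) < V B) (h2 : V (P' - B) < V B) : V (P / P' - A / B) < 1 := by
  have hVB : V B ≠ 0 := V.ne_zero_iff.2 hB
  have hP0 : P' ≠ 0 := by
    intro h0
    rw [h0, map_zero] at hP'
    exact hVB hP'.symm
  have hpos : 0 < V B := zero_lt_iff.2 hVB
  have e : P / P' - A / B = ((P - A) * B - A * (P' - B)) / (P' * B) := by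
    field_simp
    ring
  rw [e, map_div₀, map_mul V P' B, hP', div_lt_one₀ (mul_pos hpos hpos)]
  apply V.map_sub_lt
  · rw [map_mul]
    exact mul_lt_mul_of_pos_right h1 hpos
  · rw [map_mul, hA]
    exact mul_lt_mul_of_pos_left h2 hpos

theorem btn {M : Submodule ℤ ℂ} {w u : ℂ} (h : Fr M w) (hg : BGd V M (Ch M w 4) (8 * w)) {l : ℕ}
    (hl : l.Prime) (hl2 : l ≠ 2) (hu : u ∉ M) (hlu : (l : ℂ) * u ∈ M)
    (h' : Fr (M ⊔ Submodule.span ℤ {u}) w)
    (hlar : ∀ i : ℕ, ¬ l ∣ i → V (sg M (Ch M w 4) (8 * w)) < V (sg M (Ch M w 4) (i * u)))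
    {n : ℕ} (hn : ¬ 16 ∣ n) :
    V (tn M w n) = 1 ∧ V (tn (M ⊔ Submodule.span ℤ {u}) w n - tn M w n ^ l) < 1 := by
  have hS : V (sg M (Ch M w 4) (8 * w)) ≠ 0 := V.ne_zero_iff.2 hg.ne
  -- the value at the multiples of `w`
  have hval : ∀ n : ℕ, ¬ 16 ∣ n → V (sg M (Ch M w 4) (n * w)) = V (sg M (Ch M w 4) (8 * w)) := by
    intro n hn
    obtain ⟨k, c, hkc⟩ : ∃ (k : ℕ) (c : ℤ), (2 : ℤ) ^ k * n - 8 = c * 2 ^ 4 := by
      by_cases h1 : n % 2 = 1
      · exact ⟨3, (n / 2 : ℕ), by push_cast; omega⟩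
      · by_cases h2 : n % 4 = 2
        · exact ⟨2, (n / 4 : ℕ), by push_cast; omega⟩
        · by_cases h3 : n % 8 = 4
          · exact ⟨1, (n / 8 : ℕ), by push_cast; omega⟩
          · exact ⟨0, (n / 16 : ℕ), by push_cast; omega⟩
    refine hg.eq (k := k) ?_
    have h1 : (2 : ℂ) ^ k * (n * w) - 8 * w = c • ((2 : ℂ) ^ 4 * w) := by
      have h2 : (2 : ℂ) ^ k * n - 8 = c * 2 ^ 4 := by exact_mod_cast congrArg (Int.cast : ℤ → ℂ) hkc
      rw [zsmul_eq_mul]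
      linear_combination w * h2
    rw [h1]
    exact Submodule.mem_sup_right (Submodule.mem_span_singleton.2 ⟨c, rfl⟩)
  have hL' : Ch (M ⊔ Submodule.span ℤ {u}) w 4 = Ch M w 4 ⊔ Submodule.span ℤ {u} := by
    unfold Ch
    rw [sup_right_comm]
  have htwo' : Two (M ⊔ Submodule.span ℤ {u}) (Ch (M ⊔ Submodule.span ℤ {u}) w 4) := by
    have h1 := two_Ch h' (k := 4) (by norm_num)
    rwa [Ch_five h'] at h1
  -- the points are not in the lattice
  have hnm : ∀ n : ℕ, ¬ 16 ∣ n → (n : ℂ) * w ∉ Ch M w 4 ⊔ Submodule.span ℤ {u} := by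
    intro n hn hc
    apply tn_ne h' hn
    unfold tn
    rw [bsg_of_mem htwo' (by rw [hL']; exact hc), zero_div]
  have h8 : ((8 : ℕ) : ℂ) * w ∉ Ch M w 4 ⊔ Submodule.span ℤ {u} := hnm 8 (by norm_num)
  have hc0 : ∏ j ∈ Finset.Ico 1 l, sg M (Ch M w 4) (j * u) ≠ 0 := by
    rw [Finset.prod_ne_zero_iff]
    intro j hj h0
    rw [Finset.mem_Ico] at hj
    have h1 := hlar j fun hd => by
      have := Nat.le_of_dvd (by omega) hd
      omega
    rw [h0, map_zero] at h1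
    exact not_lt_zero' h1
  have hiso : ∀ n : ℕ, ¬ 16 ∣ n →
      sg (M ⊔ Submodule.span ℤ {u}) (Ch (M ⊔ Submodule.span ℤ {u}) w 4) (n * w) *
        ∏ j ∈ Finset.Ico 1 l, sg M (Ch M w 4) (j * u) =
      ∏ j ∈ Finset.range l, sg M (Ch M w 4) (n * w + j * u) := by
    intro n hn
    rw [hL']
    exact bsg_iso hg.two hl hl2 hu hlu (hnm n hn)
  have hsm : ∀ n : ℕ, ¬ 16 ∣ n →
      V (∏ j ∈ Finset.range l, sg M (Ch M w 4) (n * w + j * u) -
        sg M (Ch M w 4) (n * w) ^ l) < V (sg M (Ch M w 4) (8 * w) ^ l) := by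
    intro n hn
    have h1 := bprod_small hg hl hl2 hu hlu hlar (hnm n hn) (hval n hn)
    rwa [map_pow V (sg M (Ch M w 4) (n * w)), hval n hn, ← map_pow] at h1
  have hS' : sg M (Ch M w 4) (8 * w) ≠ 0 := hg.ne
  have i1 := hiso n hn
  have i2 := hiso 8 (by norm_num)
  have v1 := hsm n hn
  have v2 := hsm 8 (by norm_num)
  have hv := hval n hn
  rw [Nat.cast_ofNat] at i2 v2
  have htn : V (tn M w n) = 1 := by
    unfold tn
    rw [map_div₀, hv, div_self hS]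
  refine ⟨htn, ?_⟩
  have htn' : tn (M ⊔ Submodule.span ℤ {u}) w n =
      (∏ j ∈ Finset.range l, sg M (Ch M w 4) (n * w + j * u)) /
        ∏ j ∈ Finset.range l, sg M (Ch M w 4) (8 * w + j * u) := by
    unfold tn
    rw [← i1, ← i2, mul_div_mul_right _ _ hc0]
  have htm : tn M w n ^ l = sg M (Ch M w 4) (n * w) ^ l / sg M (Ch M w 4) (8 * w) ^ l := by
    unfold tn
    rw [div_pow]
  rw [htn', htm]
  have hSl : sg M (Ch M w 4) (8 * w) ^ l ≠ 0 := pow_ne_zero _ hS'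
  have hVS : V (sg M (Ch M w 4) (n * w) ^ l) = V (sg M (Ch M w 4) (8 * w) ^ l) := by
    rw [map_pow, map_pow, hv]
  have hVP : V (∏ j ∈ Finset.range l, sg M (Ch M w 4) (8 * w + j * u)) =
      V (sg M (Ch M w 4) (8 * w) ^ l) := V.map_eq_of_sub_lt v2
  exact btn_div hSl hVS hVP v1 v2

end Pool.Agent.Work.MP_8efaaa_nt.R
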