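import Mathlib
import Pool.Agent.Work.MP_8efaaa_nt.R.BCyc
import Pool.Agent.Work.MP_8efaaa_nt.R.BTn
import Pool.Agent.Work.MP_8efaaa_nt.R.BFr

/-!
# Interface of block B: the Kronecker congruence
-/

set_option autoImplicit false

namespace Pool.Agent.Work.MP_8efaaa_nt.R

open Pool.Agent.Work.CM
open scoped Pointwise

/-- A chain of cyclic isogenies of degree `l` which returns after `f` steps by the multiplication by
`lam`, where `lam` has the absolute value of `l ^ f`: the values at the second lattice are congruent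
to the powers with exponent `l` of the values at the first. -/
theorem kron {Γ : Type*} [LinearOrderedCommGroupWithZero Γ] (V : Valuation ℂ Γ) {l : ℕ}
    (hl : l.Prime) (h2 : V 2 = 1) (hV : V (l : ℂ) < 1) {N : ℕ → Submodule ℤ ℂ} {w : ℂ}
    (hN : ∀ i, Fr (N i) w)
    (hstep : ∀ i, ∃ u, u ∉ N i ∧ (l : ℂ) * u ∈ N i ∧ N (i + 1) = N i ⊔ Submodule.span ℤ {u})
    {f : ℕ} (hf : 0 < f) {lam : ℂ} (hlam : lam ≠ 0) (hcyc : ∀ z, z ∈ N f ↔ lam * z ∈ N 0)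
    (hw : lam * w - w ∈ N 0) (hVl : V lam = V (l : ℂ) ^ f)
    (hgood : ∀ i, V (fz (N i) w) = 1 ∧ V (2 - fz (N i) w ^ 2) = 1) :
    (V (fz (N 0) w) ≤ 1 ∧ V (fz (N 1) w - fz (N 0) w ^ l) < 1) ∧
    (V (fk (N 0) w) ≤ 1 ∧ V (fk (N 1) w - fk (N 0) w ^ l) < 1) ∧
    (V (fv (N 0) w) ≤ 1 ∧ V (fv (N 1) w - fv (N 0) w ^ l) < 1) := by
  have hl2 : l ≠ 2 := by
    rintro rfl
    rw [show ((2 : ℕ) : ℂ) = 2 by norm_num, h2] at hV
    exact lt_irrefl _ hV
  have hc := bcyc V hl h2 hV hN hstep hf hlam hcyc hw hVl hgood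
  obtain ⟨u, hu, hlu, h1⟩ := hstep 0
  have hg := bgd_of_fr (hN 0) h2 (hgood 0).1 (hgood 0).2
  have hN1 : Fr (N 0 ⊔ Submodule.span ℤ {u}) w := by
    rw [← h1]; exact hN 1
  rw [show N 1 = N 0 ⊔ Submodule.span ℤ {u} from h1, bCh_sup] at hc
  rw [show N 1 = N 0 ⊔ Submodule.span ℤ {u} from h1]
  exact bfr V hl h2 hV (hN 0) hN1 fun n hn =>
    btn (hN 0) hg hl hl2 hu hlu hN1 (fun i hi => hg.csq_lt hl hl2 hu hlu hc hi) hn

end Pool.Agent.Work.MP_8efaaa_nt.R
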