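import Mathlib
import Pool.Agent.Work.MP_8efaaa_nt.R.Defs

/-!
# R/CLatA (S-M): the inverse of an ideal in the complex numbers

`z ∈ iv c` means `z = φ x`, `φ = algebraMap K ℂ`, with `x y` integral for all `y ∈ c`.
* `int_mem_iv`: `x := t`. `int_mul_iv`: multiply `x` by `t`.
* `norm_mul_iv`: `(absNorm c : 𝓞 K) ∈ c` (`Ideal.absNorm_mem`).
* `mem_iv_span`: `→`: for `y ∈ c`, `δ y ∈ span {δ} * c`, so `(x δ) y` is integral. `←`: `φ δ * z = φ x'`; `z = φ (x' / δ)`, an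
  element of `span {δ} * c` is `δ y` with `y ∈ c` (`Ideal.mem_span_singleton_mul`).
* `iv_le_mul`: `b * c ≤ c` (`Ideal.mul_le_left`/`right`).
-/

set_option autoImplicit false

namespace Pool.Agent.Work.MP_8efaaa_nt.R

open NumberField
open scoped Pointwise

variable {K : Type*} [Field K] [NumberField K] [Algebra K ℂ]

theorem mem_iv {c : Ideal (𝓞 K)} {z : ℂ} : z ∈ iv c ↔ ∃ x : K,
    (∀ y ∈ c, ∃ t : 𝓞 K, algebraMap (𝓞 K) K t = x * algebraMap (𝓞 K) K y) ∧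
      algebraMap K ℂ x = z := Iff.rfl

theorem int_mem_iv (c : Ideal (𝓞 K)) (t : 𝓞 K) : algebraMap K ℂ (algebraMap (𝓞 K) K t) ∈ iv c :=
  ⟨algebraMap (𝓞 K) K t, fun y _ => ⟨t * y, map_mul _ _ _⟩, rfl⟩

theorem int_mul_iv {c : Ideal (𝓞 K)} (t : 𝓞 K) {z : ℂ} (hz : z ∈ iv c) :
    algebraMap K ℂ (algebraMap (𝓞 K) K t) * z ∈ iv c := by
  obtain ⟨x, hx, rfl⟩ := mem_iv.1 hz
  refine ⟨algebraMap (𝓞 K) K t * x, fun y hy => ?_, map_mul _ _ _⟩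
  obtain ⟨t', ht'⟩ := hx y hy
  exact ⟨t * t', by rw [map_mul, ht', mul_assoc]⟩

theorem norm_mul_iv {c : Ideal (𝓞 K)} {z : ℂ} (hz : z ∈ iv c) :
    ∃ t : 𝓞 K, algebraMap K ℂ (algebraMap (𝓞 K) K t) = (Ideal.absNorm c : ℂ) * z := by
  obtain ⟨x, hx, rfl⟩ := mem_iv.1 hz
  obtain ⟨t, ht⟩ := hx _ (Ideal.absNorm_mem c)
  refine ⟨t, ?_⟩
  rw [ht, map_natCast, map_mul, map_natCast, mul_comm]

theorem mem_iv_span {δ : 𝓞 K} (hδ : δ ≠ 0) {c : Ideal (𝓞 K)} {z : ℂ} :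
    z ∈ iv (Ideal.span {δ} * c) ↔ algebraMap K ℂ (algebraMap (𝓞 K) K δ) * z ∈ iv c := by
  have hδ0 : algebraMap (𝓞 K) K δ ≠ 0 := by
    intro h
    exact hδ ((FaithfulSMul.algebraMap_injective (𝓞 K) K) (by rw [h, map_zero]))
  constructor
  · intro hz
    obtain ⟨x, hx, rfl⟩ := mem_iv.1 hz
    refine ⟨algebraMap (𝓞 K) K δ * x, fun y hy => ?_, map_mul _ _ _⟩
    obtain ⟨t, ht⟩ := hx (δ * y) (Ideal.mul_mem_mul (Ideal.mem_span_singleton_self δ) hy)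
    exact ⟨t, by rw [ht, map_mul]; ring⟩
  · intro hz
    obtain ⟨x, hx, hxz⟩ := mem_iv.1 hz
    refine ⟨x / algebraMap (𝓞 K) K δ, fun y hy => ?_, ?_⟩
    · obtain ⟨y', hy', rfl⟩ := Ideal.mem_span_singleton_mul.1 hy
      obtain ⟨t, ht⟩ := hx y' hy'
      exact ⟨t, by rw [ht, map_mul, ← mul_assoc, div_mul_cancel₀ _ hδ0]⟩
    · have h1 : algebraMap K ℂ (algebraMap (𝓞 K) K δ) ≠ 0 := by
        intro h
        exact hδ0 ((algebraMap K ℂ).injective (by rw [h, map_zero]))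
      rw [map_div₀, hxz]
      exact mul_div_cancel_left₀ _ h1

theorem iv_le_mul (b c : Ideal (𝓞 K)) : iv c ≤ iv (b * c) := by
  intro z hz
  obtain ⟨x, hx, rfl⟩ := mem_iv.1 hz
  exact ⟨x, fun y hy => hx y (Ideal.mul_le_right hy), rfl⟩

end Pool.Agent.Work.MP_8efaaa_nt.R
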