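import Mathlib
import Pool.Agent.Work.MP_787500_nt.H10_Quad
import Pool.Agent.Work.MP_8efaaa_nt.R.Defs
import Pool.Agent.Work.MP_8efaaa_nt.R.RInt

/-!
# R/CRing (M): the ring of integers is `ℤ[s]`; norms

PROOF of `exists_S`. `S` from `Quad.exists_int_s` (H10_Quad). Let `x : 𝓞 K`. As in `Qd.exists_int_coords` (T/Quad.lean; copy that
proof with `a % 4 = 1` in the place of `3`): `x = u + v s` with rational `u, v` (`Quad.exists_coords`), `t := 2 u` and
`u ^ 2 + a v ^ 2` are integers, `d := 2 v` is an integer (`a` squarefree), `t ^ 2 + a d ^ 2 = 4 n`. As `a % 4 = 1`,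
`t ^ 2 + d ^ 2 = 0 mod 4`, so `t` and `d` are even and `u, v` are integers.
PROOF of `absNorm_pq`. `Ideal.absNorm_span_singleton`: `absNorm (span {x}) = |N x|`. `Quad.exists_conj` (H10_Quad) gives an
automorphism of `K` with `s ↦ -s`, so `N (p + q s) = N (p - q s)` (`Algebra.norm_eq_of_algEquiv`, norms over `ℚ`,
`Algebra.coe_norm_int`), and the product of the two is `N (p ^ 2 + a q ^ 2) = (p ^ 2 + a q ^ 2) ^ 2`
(`Algebra.norm_algebraMap`, `hb.dim`). So `|N x| ^ 2 = (p ^ 2 + a q ^ 2) ^ 2`, both are nonnegative.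
(`Algebra.norm_eq_matrix_det` for the basis `1, s` is an alternative.)
PROOF of `oddI_mul`. `Ideal.absNorm` is multiplicative, `Nat.odd_mul`.
PROOF of `oddI_span`. `a` is odd: `p ^ 2 + a q ^ 2` is odd iff `p + q` is (`Int.odd_add`, `Int.odd_pow`, `parity_simps`).
-/

set_option autoImplicit false

namespace Pool.Agent.Work.MP_8efaaa_nt.R

open NumberField

variable {K : Type*} [Field K] [NumberField K] {a : ℕ} {s : K}

theorem exists_S (hb : Base5 K a s) : ∃ S : 𝓞 K, algebraMap (𝓞 K) K S = s ∧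
    ∀ x : 𝓞 K, ∃ p q : ℤ, x = p + q * S := by
  obtain ⟨S, h1, h2⟩ := exists_Q5 hb
  exact ⟨S, h1, h2.coords⟩

private theorem eq_pq {S x : 𝓞 K} (hS : algebraMap (𝓞 K) K S = s) {p q : ℤ}
    (hx : algebraMap (𝓞 K) K x = p + q * s) : x = (p : 𝓞 K) + (q : 𝓞 K) * S := by
  apply RingOfIntegers.ext
  show algebraMap (𝓞 K) K _ = algebraMap (𝓞 K) K _
  rw [hx, map_add, map_mul, map_intCast, map_intCast, hS]

theorem absNorm_pq (hb : Base5 K a s) {x : 𝓞 K} {p q : ℤ}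
    (hx : algebraMap (𝓞 K) K x = p + q * s) :
    (Ideal.absNorm (Ideal.span {x}) : ℤ) = p ^ 2 + a * q ^ 2 := by
  obtain ⟨S, h1, h2⟩ := exists_Q5 hb
  rw [eq_pq h1 hx]
  exact h2.norm_gen p q

theorem oddI_mul (b c : Ideal (𝓞 K)) : OddI (b * c) ↔ OddI b ∧ OddI c := by
  unfold OddI
  rw [map_mul, Nat.odd_mul]

theorem oddI_span (hb : Base5 K a s) {x : 𝓞 K} {p q : ℤ}
    (hx : algebraMap (𝓞 K) K x = p + q * s) : OddI (Ideal.span {x}) ↔ Odd (p + q) := by
  obtain ⟨S, h1, h2⟩ := exists_Q5 hb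
  rw [eq_pq h1 hx]
  exact h2.oddI_span p q

end Pool.Agent.Work.MP_8efaaa_nt.R
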