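import Mathlib
import Pool.Agent.Work.MP_787500_nt.H10_Quad
import Pool.Agent.Work.MP_8efaaa_nt.R.CRing
import Pool.Agent.Work.MP_8efaaa_nt.R.CLatA
import Pool.Agent.Work.CM.Hom
import Pool.Agent.Work.CM.Rep

/-!
# R/CLatB (M-L): the lattices `ℤ 2^k w0 + ℤ + 8 c⁻¹`

`φ = algebraMap K ℂ`, `w0 s = (1 + φ s) / 8`.
* `mem_Lk`: `Submodule.mem_span_pair`. `Lk_La`: `2 ^ (j + 2) * w0 = 2 ^ j * ((1 + φ s) / 2)`.
* `lin_indep`: `φ s` has real part zero and imaginary part not zero (`Quad.emb_re_im`, H10_Quad).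
* `Ch_eq`: `Ch M w k = M ⊔ span {2 ^ k * w}`; `z • (span {8 σ, 1}) ⊔ span {2 ^ k * (z * w0)} = z • span {2 ^ k w0, 1}` because
  `8 σ = 32 w0 = 2 ^ (5 - k) * (2 ^ k w0)`. (`z • span S = span (z • S)`, or elementwise: `Submodule.mem_smul_pointwise_iff_exists`,
  `Submodule.mem_sup`, `mem_Lk`; also for `z = 0`.)
* `eight_mem_Lk`: for `t : 𝓞 K`, `t = p + q S` (`exists_S`): `8 φ t = 8 p + 8 q φ s = 2 q (32 w0) + (8 p - 8 q)`,
  `32 w0 = 4 (1 + φ s)`, and `32 w0 = 2 ^ (5 - k) * (2 ^ k w0)`.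
* `norm_mul_mem`: `z = x + 8 y`, `x ∈ Lk s k`, `y ∈ iv c`, `N y = φ t` (`norm_mul_iv`), `N z = N x + 8 φ t`.
* `odd_mem`: `N := absNorm c` is odd, `N z ∈ Lk s k`, `2 ^ n z ∈ Lk s k`, `N` and `2 ^ n` are coprime (Bezout).
* `isLat_Lk`: the `PeriodPair` with periods `2 ^ k w0`, `1` (linearly independent over `ℝ` by the imaginary part; see
  `MP_787500_nt/HC/LatA.lean`).
* `isLat_sup`: `isLat_of_sandwich` (CM/Rep) with `A = Lk s k`, `m = 1`, `B = (N : ℂ)⁻¹ • Lk s k` (`IsLat.smul`), `N ≠ 0` because it is odd.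
* `fr_sup`: `32 * w0 ∈ Lk s 5`, `16 * w0 ∉`: by `odd_mem` with `n = 1` it would be in `Lk s 5`, so
  `2 (1 + φ s) = m * 4 (1 + φ s) + n`, and `lin_indep` gives `2 = 4 m`.
-/

set_option autoImplicit false

namespace Pool.Agent.Work.MP_8efaaa_nt.R

open NumberField Pool.Agent.Work.CM
open scoped Pointwise

variable {K : Type*} [Field K] [NumberField K] [Algebra K ℂ] {a : ℕ} {s : K}

/-- the lattice spanned by `2 ^ k * w0` and `1` -/
def Lk (s : K) (k : ℕ) : Submodule ℤ ℂ := Submodule.span ℤ {(2 : ℂ) ^ k * w0 s, 1}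

theorem mem_Lk {k : ℕ} {z : ℂ} : z ∈ Lk s k ↔ ∃ m n : ℤ, z = m * (2 ^ k * w0 s) + n := by
  unfold Lk
  rw [Submodule.mem_span_pair]
  refine exists_congr fun m => exists_congr fun n => ?_
  rw [zsmul_eq_mul, zsmul_eq_mul, mul_one]
  exact eq_comm

theorem Lk_La (s : K) (j : ℕ) : Lk s (j + 2) = La s j := by
  have h : (2 : ℂ) ^ (j + 2) * w0 s = (2 : ℂ) ^ j * ((1 + algebraMap K ℂ s) / 2) := by
    unfold w0
    ring
  unfold Lk La
  rw [h]

theorem MM_eq (s : K) (c : Ideal (𝓞 K)) : MM s c = Lk s 5 ⊔ (8 : ℂ) • iv c := by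
  unfold MM
  rw [← Lk_La]

private theorem pos_a (hb : Base5 K a s) : 0 < a := by
  have := hb.mod
  omega

theorem lin_indep (hb : Base5 K a s) {p q : ℚ} (h : (p : ℂ) + q * algebraMap K ℂ s = 0) :
    p = 0 ∧ q = 0 := by
  apply Pool.Agent.Work.MP_787500_nt.Quad.not_rat hb.sq (pos_a hb)
  apply (algebraMap K ℂ).injective
  rw [map_zero, map_add, map_mul, map_ratCast, map_ratCast]
  exact h

private theorem mem_smul' {z y : ℂ} {S : Submodule ℤ ℂ} : y ∈ z • S ↔ ∃ x ∈ S, z * x = y := by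
  rw [Submodule.mem_smul_pointwise_iff_exists]
  rfl

private theorem pow_split {k : ℕ} (hk : k ≤ 5) (x : ℂ) :
    (2 : ℂ) ^ 5 * x = 2 ^ (5 - k) * (2 ^ k * x) := by
  rw [← mul_assoc, ← pow_add, Nat.sub_add_cancel hk]

private theorem Lk5_le {k : ℕ} (hk : k ≤ 5) : Lk s 5 ≤ Lk s k := by
  intro z hz
  obtain ⟨m, n, rfl⟩ := mem_Lk.1 hz
  refine mem_Lk.2 ⟨m * 2 ^ (5 - k), n, ?_⟩
  rw [pow_split hk]
  push_cast
  ring

theorem Ch_eq (z : ℂ) (X : Submodule ℤ ℂ) (s : K) {k : ℕ} (hk : k ≤ 5) :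
    Ch (z • La s 3 ⊔ X) (z * w0 s) k = z • Lk s k ⊔ X := by
  unfold Ch
  rw [← Lk_La]
  apply le_antisymm
  · refine sup_le (sup_le ?_ le_sup_right) ?_
    · refine le_trans ?_ le_sup_left
      intro y hy
      obtain ⟨x, hx, rfl⟩ := mem_smul'.1 hy
      exact mem_smul'.2 ⟨x, Lk5_le hk hx, rfl⟩
    · refine le_trans ?_ le_sup_left
      rw [Submodule.span_le, Set.singleton_subset_iff, SetLike.mem_coe, mem_smul']
      refine ⟨2 ^ k * w0 s, mem_Lk.2 ⟨1, 0, ?_⟩, ?_⟩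
      · push_cast
        ring
      · ring
  · refine sup_le ?_ (le_trans le_sup_right le_sup_left)
    intro y hy
    obtain ⟨x, hx, rfl⟩ := mem_smul'.1 hy
    obtain ⟨m, n, rfl⟩ := mem_Lk.1 hx
    have h1 : z * (m * (2 ^ k * w0 s) + n) = z * n + m • (2 ^ k * (z * w0 s)) := by
      rw [zsmul_eq_mul]
      ring
    rw [h1]
    refine Submodule.add_mem _ ?_ ?_
    · refine Submodule.mem_sup_left (Submodule.mem_sup_left (mem_smul'.2 ⟨n, ?_, rfl⟩))
      refine mem_Lk.2 ⟨0, n, ?_⟩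
      push_cast
      ring
    · exact Submodule.smul_mem _ _
        (Submodule.mem_sup_right (Submodule.subset_span (Set.mem_singleton _)))

theorem eight_mem_Lk (hb : Base5 K a s) {k : ℕ} (hk : k ≤ 5) (t : 𝓞 K) :
    8 * algebraMap K ℂ (algebraMap (𝓞 K) K t) ∈ Lk s k := by
  obtain ⟨S, hS, hc⟩ := exists_S hb
  obtain ⟨p, q, rfl⟩ := hc t
  apply Lk5_le hk
  refine mem_Lk.2 ⟨2 * q, 8 * p - 8 * q, ?_⟩
  rw [map_add, map_mul, map_intCast, map_intCast, hS, map_add, map_mul, map_intCast, map_intCast]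
  unfold w0
  push_cast
  ring

theorem norm_mul_mem (hb : Base5 K a s) {c : Ideal (𝓞 K)} {k : ℕ} (hk : k ≤ 5) {z : ℂ}
    (hz : z ∈ Lk s k ⊔ (8 : ℂ) • iv c) : (Ideal.absNorm c : ℂ) * z ∈ Lk s k := by
  obtain ⟨x, hx, y', hy', rfl⟩ := Submodule.mem_sup.1 hz
  obtain ⟨y, hy, hyy⟩ := mem_smul'.1 hy'
  obtain ⟨t, ht⟩ := norm_mul_iv hy
  have h1 : (Ideal.absNorm c : ℂ) * (x + y') = Ideal.absNorm c • x +
      8 * algebraMap K ℂ (algebraMap (𝓞 K) K t) := by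
    rw [ht, nsmul_eq_mul, ← hyy]
    ring
  rw [h1]
  exact Submodule.add_mem _ (nsmul_mem hx _) (eight_mem_Lk hb hk t)

theorem odd_mem (hb : Base5 K a s) {c : Ideal (𝓞 K)} (hc : OddI c) {k : ℕ} (hk : k ≤ 5) {z : ℂ}
    (hz : z ∈ Lk s k ⊔ (8 : ℂ) • iv c) {n : ℕ} (h2 : 2 ^ n * z ∈ Lk s k) : z ∈ Lk s k := by
  have h1 := norm_mul_mem hb hk hz
  have hcop : IsCoprime ((Ideal.absNorm c : ℕ) : ℤ) ((2 ^ n : ℕ) : ℤ) := by
    rw [Nat.isCoprime_iff_coprime]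
    have h3 : Odd (Ideal.absNorm c) := hc
    exact Nat.Coprime.pow_right n (Nat.coprime_two_right.2 h3)
  obtain ⟨u, v, huv⟩ := hcop
  have h4 : z = u • ((Ideal.absNorm c : ℂ) * z) + v • (2 ^ n * z) := by
    rw [zsmul_eq_mul, zsmul_eq_mul]
    have h5 : (u : ℂ) * (Ideal.absNorm c : ℂ) + v * 2 ^ n = 1 := by
      have := congrArg (fun x : ℤ => (x : ℂ)) huv
      push_cast at this
      exact this
    linear_combination (-z) * h5
  rw [h4]
  exact Submodule.add_mem _ (Submodule.smul_mem _ _ h1) (Submodule.smul_mem _ _ h2)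

private theorem im_w0 (hb : Base5 K a s) : (w0 s).im ≠ 0 := by
  obtain ⟨hre, him⟩ := Pool.Agent.Work.MP_787500_nt.Quad.emb_re_im hb.sq (pos_a hb) (algebraMap K ℂ)
  have ha : (0 : ℝ) < a := by exact_mod_cast pos_a hb
  have hims : (algebraMap K ℂ s).im ≠ 0 := by
    intro h0
    rw [h0] at him
    norm_num at him
    rw [← him] at ha
    exact lt_irrefl _ ha
  intro h0
  have h1 : (8 : ℂ) * w0 s = 1 + algebraMap K ℂ s := by
    unfold w0
    ring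
  have h2 := congrArg Complex.im h1
  simp only [Complex.mul_im, Complex.re_ofNat, Complex.im_ofNat, Complex.add_im, Complex.one_im,
    h0] at h2
  apply hims
  linarith

theorem isLat_Lk (hb : Base5 K a s) (k : ℕ) : IsLat (Lk s k) := by
  have him : ((2 : ℂ) ^ k * w0 s).im ≠ 0 := by
    have h1 : ((2 : ℂ) ^ k * w0 s) = (((2 : ℝ) ^ k : ℝ) : ℂ) * w0 s := by push_cast; ring
    rw [h1, Complex.im_ofReal_mul]
    exact mul_ne_zero (pow_ne_zero _ two_ne_zero) (im_w0 hb)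
  have hind : LinearIndependent ℝ ![(2 : ℂ) ^ k * w0 s, 1] := by
    rw [LinearIndependent.pair_iff]
    intro x y hxy
    rw [Complex.real_smul, Complex.real_smul, mul_one] at hxy
    have h1 := congrArg Complex.im hxy
    rw [Complex.add_im, Complex.im_ofReal_mul, Complex.ofReal_im, add_zero, Complex.zero_im] at h1
    have hx : x = 0 := (mul_eq_zero.1 h1).resolve_right him
    rw [hx, Complex.ofReal_zero, zero_mul, zero_add] at hxy
    exact ⟨hx, by exact_mod_cast hxy⟩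
  exact ⟨⟨(2 : ℂ) ^ k * w0 s, 1, hind⟩, rfl⟩

theorem isLat_sup (hb : Base5 K a s) {c : Ideal (𝓞 K)} (hc : OddI c) {k : ℕ} (hk : k ≤ 5) :
    IsLat (Lk s k ⊔ (8 : ℂ) • iv c) := by
  have hN : (Ideal.absNorm c : ℂ) ≠ 0 := by
    have h3 : Odd (Ideal.absNorm c) := hc
    have h4 : Ideal.absNorm c ≠ 0 := by
      intro h0
      rw [h0] at h3
      exact absurd h3 (by decide)
    exact_mod_cast h4
  have h1 := isLat_Lk hb k
  refine isLat_of_sandwich h1 (h1.smul (inv_ne_zero hN)) (one_ne_zero) ?_ ?_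
  · rw [one_smul]
    exact le_sup_left
  · intro z hz
    exact mem_smul'.2 ⟨_, norm_mul_mem hb hk hz, by rw [← mul_assoc, inv_mul_cancel₀ hN, one_mul]⟩

theorem fr_sup (hb : Base5 K a s) {c : Ideal (𝓞 K)} (hc : OddI c) : Fr (MM s c) (w0 s) := by
  rw [MM_eq]
  have h32 : 32 * w0 s ∈ Lk s 5 := by
    refine mem_Lk.2 ⟨1, 0, ?_⟩
    push_cast
    ring
  refine ⟨isLat_sup hb hc le_rfl, Submodule.mem_sup_left h32, ?_⟩
  intro h16
  have h1 : 16 * w0 s ∈ Lk s 5 := by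
    refine odd_mem hb hc le_rfl h16 (n := 1) ?_
    have h2 : (2 : ℂ) ^ 1 * (16 * w0 s) = 32 * w0 s := by ring
    rw [h2]
    exact h32
  obtain ⟨m, n, h3⟩ := mem_Lk.1 h1
  have h4 : ((2 - 4 * m - n : ℚ) : ℂ) + ((2 - 4 * m : ℚ) : ℂ) * algebraMap K ℂ s = 0 := by
    unfold w0 at h3
    push_cast
    linear_combination h3
  have h5 := (lin_indep hb h4).2
  have h6 : (2 - 4 * m : ℤ) = 0 := by exact_mod_cast h5
  omega

end Pool.Agent.Work.MP_8efaaa_nt.R
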