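import Mathlib
import Pool.Agent.Work.MP_8efaaa_nt.R.CLatB
import Pool.Agent.Work.MP_8efaaa_nt.R.AInt

/-!
# R/CLatC (M): the lattices of `(δ) c`

`φ = algebraMap K ℂ`, `d := φ δ` (the image of `δ : 𝓞 K` in `ℂ`).
* `Fr.smul`: `IsLat.smul` (CM/Hom), `mem_smul_iff`: `m * z ∈ m • M ↔ z ∈ M`.
* `MM_span`: `z ∈ La s 3 ⊔ 8 • iv (span {δ} * c)` iff `d * z ∈ d • La s 3 ⊔ 8 • iv c` (`mem_iv_span`; `Submodule.mem_sup`,
  `Submodule.mem_smul_pointwise_iff_exists`).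
* `vals_span`: `OddI (span {δ} * c)` (`oddI_mul`), so `Fr (MM s (span {δ} * c)) (w0 s)` by `fr_sup`; multiply by `d ≠ 0` (`δ ≠ 0`: the norm
  is odd): `Fr.smul` and `MM_span` (`d • (d⁻¹ • X) = X`, `smul_inv_smul₀`). `f_smul` (AInt) with `m := d`, `M := MM s (span {δ} * c)`,
  `w := w0 s`: the values at `(d • M, d * w0)` and `(M, w0)` are equal.
* `order_eq`: `La s j = Lk s (j + 2)` is spanned by `2 ^ (j - 1) (1 + φ s)` and `1`, i.e. it is `ℤ + ℤ 2 ^ (j - 1) φ s` (`1 ≤ j`), and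
  `g := φ g₀ = p + 2 ^ (j - 1) q φ s` is in it; it is closed under multiplication (`φ s ^ 2 = -a`), so `g • La s j ≤ La s j`. Conversely
  let `x ∈ La s j`, `n := p ^ 2 + a (2 ^ (j - 1) q) ^ 2`, odd by `oddI_span`/`absNorm_pq`, `g' := p - 2 ^ (j - 1) q φ s ∈ La s j`,
  `g g' = n`: `n x = g (g' x) ∈ g • La s j`, and `8 x ∈ 8 • iv c` (`x` is the image of an integer of `K`: `int_mem_iv`). With
  `u n + 8 v = 1`: `x = u (n x) + v (8 x)`.
-/

set_option autoImplicit false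

namespace Pool.Agent.Work.MP_8efaaa_nt.R

open NumberField Pool.Agent.Work.CM
open scoped Pointwise

theorem Fr.smul {M : Submodule ℤ ℂ} {w : ℂ} (h : Fr M w) {m : ℂ} (hm : m ≠ 0) :
    Fr (m • M) (m * w) := by
  refine ⟨h.lat.smul hm, ?_, ?_⟩
  · rw [show 32 * (m * w) = m * (32 * w) by ring, mem_smul_iff hm]
    exact h.mem
  · rw [show 16 * (m * w) = m * (16 * w) by ring, mem_smul_iff hm]
    exact h.nmem

variable {K : Type*} [Field K] [NumberField K] [Algebra K ℂ] {a : ℕ} {s : K}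

/-- the image of an integer of `K` in the complex numbers -/
noncomputable abbrev em (δ : 𝓞 K) : ℂ := algebraMap K ℂ (algebraMap (𝓞 K) K δ)

private theorem em_ne {δ : 𝓞 K} (hδ : δ ≠ 0) : em δ ≠ 0 := by
  intro h
  apply hδ
  have h1 : algebraMap (𝓞 K) K δ = 0 := (map_eq_zero (algebraMap K ℂ)).1 h
  exact (FaithfulSMul.algebraMap_eq_zero_iff (𝓞 K) K).1 h1

theorem MM_span (s : K) {δ : 𝓞 K} (hδ : δ ≠ 0) (c : Ideal (𝓞 K)) :
    MM s (Ideal.span {δ} * c) = (em δ)⁻¹ • (em δ • La s 3 ⊔ (8 : ℂ) • iv c) := by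
  have hd : em δ ≠ 0 := em_ne hδ
  have hiv : iv (Ideal.span {δ} * c) = (em δ)⁻¹ • iv c := by
    ext z
    rw [mem_iv_span hδ]
    constructor
    · intro h
      have h1 := (mem_smul_iff (L := iv c) (inv_ne_zero hd)).2 h
      rwa [← mul_assoc, inv_mul_cancel₀ hd, one_mul] at h1
    · intro h
      rw [← mem_smul_iff (L := iv c) (inv_ne_zero hd), ← mul_assoc, inv_mul_cancel₀ hd, one_mul]
      exact h
  unfold MM
  rw [hiv, Submodule.smul_sup', inv_smul_smul₀ hd, smul_comm]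

theorem vals_span (hb : Base5 K a s) {c : Ideal (𝓞 K)} (hc : OddI c) {δ : 𝓞 K}
    (hδ : OddI (Ideal.span {δ})) :
    Fr (em δ • La s 3 ⊔ (8 : ℂ) • iv c) (em δ * w0 s) ∧
    Zc s (Ideal.span {δ} * c) = fz (em δ • La s 3 ⊔ (8 : ℂ) • iv c) (em δ * w0 s) ∧
    Kc s (Ideal.span {δ} * c) = fk (em δ • La s 3 ⊔ (8 : ℂ) • iv c) (em δ * w0 s) ∧
    Vc s (Ideal.span {δ} * c) = fv (em δ • La s 3 ⊔ (8 : ℂ) • iv c) (em δ * w0 s) := by
  have hδ0 : δ ≠ 0 := by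
    rintro rfl
    unfold OddI at hδ
    rw [Ideal.span_singleton_eq_bot.2 rfl, Ideal.absNorm_bot] at hδ
    exact absurd hδ (by decide)
  have hd : em δ ≠ 0 := em_ne hδ0
  have h1 : Fr (MM s (Ideal.span {δ} * c)) (w0 s) := fr_sup hb ((oddI_mul _ _).2 ⟨hδ, hc⟩)
  have h2 := h1.smul hd
  have h3 := f_smul h1 hd
  have h4 : em δ • MM s (Ideal.span {δ} * c) = em δ • La s 3 ⊔ (8 : ℂ) • iv c := by
    rw [MM_span s hδ0, smul_inv_smul₀ hd]
  rw [h4] at h2 h3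
  exact ⟨h2, h3.1.symm, h3.2.1.symm, h3.2.2.symm⟩

private theorem mem_La' (s : K) {j : ℕ} (hj : 1 ≤ j) {z : ℂ} : z ∈ La s j ↔
    ∃ m n : ℤ, z = m * (2 ^ (j - 1) * algebraMap K ℂ s) + n := by
  obtain ⟨i, rfl⟩ : ∃ i, j = i + 1 := ⟨j - 1, by omega⟩
  rw [Nat.add_sub_cancel]
  unfold La
  rw [Submodule.mem_span_pair]
  constructor
  · rintro ⟨m, n, h⟩
    refine ⟨m, n + m * 2 ^ i, ?_⟩
    rw [← h, zsmul_eq_mul, zsmul_eq_mul, pow_succ]
    push_cast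
    ring
  · rintro ⟨m, n, h⟩
    refine ⟨m, n - m * 2 ^ i, ?_⟩
    rw [h, zsmul_eq_mul, zsmul_eq_mul, pow_succ]
    push_cast
    ring

private theorem mul_mem_La (hb : Base5 K a s) {j : ℕ} (hj : 1 ≤ j) {x y : ℂ}
    (hx : x ∈ La s j) (hy : y ∈ La s j) : x * y ∈ La s j := by
  rw [mem_La' s hj] at hx hy ⊢
  obtain ⟨m, n, rfl⟩ := hx
  obtain ⟨m', n', rfl⟩ := hy
  have hsq : algebraMap K ℂ s ^ 2 = -(a : ℂ) := by
    rw [← map_pow, hb.sq, map_neg, map_natCast]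
  refine ⟨m * n' + m' * n, n * n' - m * m' * (2 ^ (j - 1)) ^ 2 * a, ?_⟩
  push_cast
  linear_combination (m : ℂ) * m' * (2 ^ (j - 1)) ^ 2 * hsq

theorem order_eq (hb : Base5 K a s) (c : Ideal (𝓞 K)) {j : ℕ} (hj : 1 ≤ j) {δ : 𝓞 K} {p q : ℤ}
    (hpq : algebraMap (𝓞 K) K δ = p + 2 ^ (j - 1) * q * s) (hδ : OddI (Ideal.span {δ})) :
    em δ • La s j ⊔ (8 : ℂ) • iv c = La s j ⊔ (8 : ℂ) • iv c := by
  have hsq : algebraMap K ℂ s ^ 2 = -(a : ℂ) := by
    rw [← map_pow, hb.sq, map_neg, map_natCast]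
  have hg : em δ = p + 2 ^ (j - 1) * q * algebraMap K ℂ s := by
    show algebraMap K ℂ (algebraMap (𝓞 K) K δ) = _
    rw [hpq]
    simp only [map_add, map_mul, map_pow, map_intCast, map_ofNat]
  have hgm : em δ ∈ La s j := by
    rw [mem_La' s hj]
    exact ⟨q, p, by rw [hg]; ring⟩
  have hle : em δ • La s j ≤ La s j := by
    intro z hz
    obtain ⟨x, hx, rfl⟩ := (Submodule.mem_smul_pointwise_iff_exists _ _ _).1 hz
    exact mul_mem_La hb hj hgm hx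
  apply le_antisymm
  · exact sup_le_sup_right hle _
  · refine sup_le ?_ le_sup_right
    intro x hx
    -- the odd norm
    have hn : (Ideal.absNorm (Ideal.span {δ}) : ℤ) = p ^ 2 + a * (2 ^ (j - 1) * q) ^ 2 :=
      absNorm_pq hb (by rw [hpq]; push_cast; ring)
    have hodd : Odd (p ^ 2 + (a : ℤ) * (2 ^ (j - 1) * q) ^ 2) := by
      rw [← hn]
      exact_mod_cast hδ
    obtain ⟨t, ht⟩ := hodd
    obtain ⟨r, hr⟩ := Int.even_mul_succ_self t
    set n : ℤ := p ^ 2 + (a : ℤ) * (2 ^ (j - 1) * q) ^ 2 with hndef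
    have hbez : n * n - 8 * r = 1 := by
      rw [ht]
      linear_combination 4 * hr
    have hbezC : (n : ℂ) * n - 8 * r = 1 := by exact_mod_cast hbez
    have hnC : em δ * (p - 2 ^ (j - 1) * q * algebraMap K ℂ s) = n := by
      rw [hg, hndef]
      push_cast
      linear_combination (-(2 ^ (j - 1) * (q : ℂ)) ^ 2) * hsq
    have hg' : (p - 2 ^ (j - 1) * q * algebraMap K ℂ s : ℂ) ∈ La s j := by
      rw [mem_La' s hj]
      exact ⟨-q, p, by push_cast; ring⟩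
    have h1 : em δ * ((p - 2 ^ (j - 1) * q * algebraMap K ℂ s) * x) ∈ em δ • La s j :=
      Submodule.smul_mem_pointwise_smul _ _ _ (mul_mem_La hb hj hg' hx)
    have h2 : 8 * x ∈ (8 : ℂ) • iv c := by
      rw [mem_smul_iff (by norm_num : (8 : ℂ) ≠ 0)]
      obtain ⟨S, hS, -⟩ := exists_S hb
      obtain ⟨m, l, hml⟩ := (mem_La' s hj).1 hx
      have h3 := int_mem_iv c ((m : 𝓞 K) * (2 ^ (j - 1) * S) + l)
      have h4 : algebraMap K ℂ (algebraMap (𝓞 K) K ((m : 𝓞 K) * (2 ^ (j - 1) * S) + l)) = x := by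
        simp only [map_add, map_mul, map_pow, map_intCast, map_ofNat, hS]
        exact hml.symm
      rwa [h4] at h3
    have h5 : x = n • (em δ * ((p - 2 ^ (j - 1) * q * algebraMap K ℂ s) * x)) +
        (-r) • (8 * x) := by
      rw [zsmul_eq_mul, zsmul_eq_mul, ← mul_assoc (em δ), hnC]
      push_cast
      linear_combination (-x) * hbezC
    rw [h5]
    exact Submodule.add_mem_sup (Submodule.smul_mem _ _ h1) (Submodule.smul_mem _ _ h2)

end Pool.Agent.Work.MP_8efaaa_nt.R
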