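import Mathlib
import Pool.Agent.Work.MP_8efaaa_nt.R.CLatC

/-!
# R/CKrA (M): a power of a prime of degree one is principal

* `exists_lam`: `q ≠ ⊥`; some power `q ^ h`, `h > 0`, is principal, `q ^ h = span {λ₀}` (the class group is finite: `ClassGroup.mk0`,
  `pow_card_eq_one`, `ClassGroup.mk0_eq_one_iff`). `λ₀` is a unit modulo `32`: its norm is `l ^ h`, odd, and `λ₀ λ₀' = N` (`λ₀ = p + r S`,
  `λ₀' = p - r S`, `N = p ^ 2 + a r ^ 2 = l ^ h`), `N` is a unit mod `32`. The unit group of the finite ring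
  `𝓞 K ⧸ span {32}` is finite (`Ideal.finiteQuotientOfFreeOfNeBot` or similar), so `λ₀ ^ m = 1` in it for some `m > 0`:
  `lam := λ₀ ^ m = 1 + 32 t`, `f := h m`.
* `val_lam`: let `lam = p + r S` (`exists_S`), `lam' := p - r S : 𝓞 K`, `lam * lam' = p ^ 2 + a r ^ 2 = absNorm (span {lam}) = l ^ f`
  (`absNorm_pq`, `Ideal.absNorm` multiplicative). `lam' ∉ q`: otherwise `2 p = lam + lam' ∈ q`, so `l ∣ 2 p`, `l ∣ p` (an integer in `q` is
  divisible by `l`: `q` is prime, contains `l` (`Ideal.absNorm_mem`), and `1 ∉ q`), and `p ^ 2 + a r ^ 2 = l ^ f`, `f > 0`, so `l ∣ a r ^ 2`, `l ∣ r`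
  (`l ∤ a`). So `l ∣ lam` in `𝓞 K`, `span {lam} = q ^ f ≤ span {l}`, i.e. `span {l} ∣ q ^ f`; `absNorm (span {l}) = l ^ 2`, `q ∣ span {l}`, so
  `span {l} = q ^ 2` (unique factorization: a divisor of `q ^ f` is a power of `q`), and then `s ^ 2 = -a`... : as `K` is not ramified at
  `l`: the different argument can be avoided: `l ∤ 2 a`; `q ^ 2 = (l)`. `-a` is a square mod `q`, hence there is an integer `b` with
  `S - b ∈ q` (residue field with `l` elements), `b ^ 2 = -a mod l`, `(S - b) ^ 2 ∈ q ^ 2 = (l)`: `S ^ 2 - 2 b S + b ^ 2 = (b ^ 2 - a) - 2 b S ∈ (l)`,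
  so `l ∣ 2 b`, `l ∣ b` (`l ≠ 2`), so `l ∣ a` (`b ^ 2 = - a mod l`): contradiction.
  So `V (em lam') = 1` (`hV1`, `hV2`), `V (em lam) = V (l ^ f) = V l ^ f` (`map_mul`).
-/

set_option autoImplicit false

namespace Pool.Agent.Work.MP_8efaaa_nt.R

open NumberField Pool.Agent.Work.CM
open scoped Pointwise

variable {K : Type*} [Field K] [NumberField K] [Algebra K ℂ] {a : ℕ} {s : K}

theorem exists_lam (hb : Base5 K a s) {q : Ideal (𝓞 K)} (hq : OddI q) (hq0 : q ≠ ⊥) :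
    ∃ (f : ℕ) (lam t : 𝓞 K), 0 < f ∧ q ^ f = Ideal.span {lam} ∧ lam = 1 + 32 * t := by
  classical
  -- a power is principal
  obtain ⟨h, hh, l0, hl0⟩ : ∃ h : ℕ, 0 < h ∧ ∃ l0 : 𝓞 K, q ^ h = Ideal.span {l0} := by
    have hqm : q ∈ nonZeroDivisors (Ideal (𝓞 K)) := mem_nonZeroDivisors_of_ne_zero hq0
    refine ⟨Fintype.card (ClassGroup (𝓞 K)), Fintype.card_pos, ?_⟩
    have h1 : ClassGroup.mk0 (⟨q, hqm⟩ ^ (Fintype.card (ClassGroup (𝓞 K)))) = 1 := by
      rw [map_pow, pow_card_eq_one]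
    have h2 := (ClassGroup.mk0_eq_one_iff (I := q ^ (Fintype.card (ClassGroup (𝓞 K))))
      (pow_mem hqm _)).1 h1
    obtain ⟨x, hx⟩ := h2.principal
    exact ⟨x, hx⟩
  -- it is a unit modulo 32
  set J : Ideal (𝓞 K) := Ideal.span {(32 : 𝓞 K)} with hJ
  have hJ0 : J ≠ ⊥ := by
    rw [hJ, Ne, Ideal.span_singleton_eq_bot]
    norm_num
  have hfin : Finite (𝓞 K ⧸ J) := Ideal.finiteQuotientOfFreeOfNeBot J hJ0
  have hunit : IsUnit (Ideal.Quotient.mk J l0) := by
    have hn : ((Ideal.absNorm (q ^ h) : ℕ) : 𝓞 K) ∈ Ideal.span {l0} := by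
      rw [← hl0]
      exact Ideal.absNorm_mem _
    obtain ⟨y, hy⟩ := Ideal.mem_span_singleton'.1 hn
    have hodd : Odd (Ideal.absNorm (q ^ h)) := by
      rw [map_pow]
      exact Odd.pow hq
    have hcop : IsCoprime ((Ideal.absNorm (q ^ h) : ℕ) : ℤ) (32 : ℤ) := by
      rw [show (32 : ℤ) = ((32 : ℕ) : ℤ) by norm_num, Nat.isCoprime_iff_coprime,
        show (32 : ℕ) = 2 ^ 5 by norm_num]
      exact (Nat.Coprime.pow_right 5 (Nat.coprime_two_right.2 hodd))
    obtain ⟨u, v, huv⟩ := hcop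
    have h3 : ((u : 𝓞 K) * y) * l0 + (v : 𝓞 K) * 32 = 1 := by
      have h4 := congrArg (Int.cast : ℤ → 𝓞 K) huv
      push_cast at h4
      rw [mul_assoc, hy]
      exact h4
    refine IsUnit.of_mul_eq_one (Ideal.Quotient.mk J ((u : 𝓞 K) * y)) ?_
    rw [← map_mul, ← map_one (Ideal.Quotient.mk J), Ideal.Quotient.eq, hJ,
      Ideal.mem_span_singleton']
    refine ⟨-(v : 𝓞 K), ?_⟩
    linear_combination -h3
  obtain ⟨U, hU⟩ := hunit
  have : Finite (𝓞 K ⧸ J)ˣ := inferInstance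
  have hord : 0 < orderOf U := orderOf_pos U
  have hpow : Ideal.Quotient.mk J (l0 ^ orderOf U) = Ideal.Quotient.mk J 1 := by
    rw [map_pow, ← hU, ← Units.val_pow_eq_pow_val, pow_orderOf_eq_one, Units.val_one, map_one]
  rw [Ideal.Quotient.eq] at hpow
  obtain ⟨t, ht⟩ := Ideal.mem_span_singleton'.1
    (show l0 ^ orderOf U - 1 ∈ Ideal.span {(32 : 𝓞 K)} from hpow)
  refine ⟨h * orderOf U, l0 ^ orderOf U, t, Nat.mul_pos hh hord, ?_, ?_⟩
  · rw [pow_mul, hl0, Ideal.span_singleton_pow]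
  · linear_combination -ht

/-- an integer in `q` is divisible by `l` -/
private theorem int_mem {l : ℕ} (hl : l.Prime) {q : Ideal (𝓞 K)} (hq : q.IsPrime)
    (hql : Ideal.absNorm q = l) {n : ℤ} (hn : (n : 𝓞 K) ∈ q) : (l : ℤ) ∣ n := by
  by_contra hd
  have hcop : IsCoprime (l : ℤ) n :=
    (Int.isCoprime_iff_gcd_eq_one).2 (by
      have := (Int.prime_iff_natAbs_prime.2 (by simpa using hl) : Prime (l : ℤ))
      exact (Int.isCoprime_iff_gcd_eq_one).1
        ((Prime.coprime_iff_not_dvd this).2 hd))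
  obtain ⟨u, v, huv⟩ := hcop
  have hlq : ((l : ℤ) : 𝓞 K) ∈ q := by
    have := Ideal.absNorm_mem q
    rw [hql] at this
    simpa using this
  apply hq.ne_top
  rw [Ideal.eq_top_iff_one]
  have h1 := congrArg (Int.cast : ℤ → 𝓞 K) huv
  push_cast at h1
  rw [← h1]
  refine q.add_mem (q.mul_mem_left _ ?_) (q.mul_mem_left _ hn)
  simpa using hlq

/-- the residue field of `q` has `l` elements: every integer is congruent to a rational one -/
private theorem exists_int {l : ℕ} (hl : l.Prime) {q : Ideal (𝓞 K)} (hq : q.IsPrime)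
    (hql : Ideal.absNorm q = l) (x : 𝓞 K) : ∃ b : ℤ, x - b ∈ q := by
  classical
  have hq0 : q ≠ ⊥ := by
    rintro rfl
    rw [Ideal.absNorm_bot] at hql
    exact hl.ne_zero hql.symm
  have hfin : Finite (𝓞 K ⧸ q) := Ideal.finiteQuotientOfFreeOfNeBot q hq0
  have : Fintype (𝓞 K ⧸ q) := Fintype.ofFinite _
  have hcard : Fintype.card (𝓞 K ⧸ q) = l := by
    rw [← hql, Ideal.absNorm_apply, Submodule.cardQuot_apply, Nat.card_eq_fintype_card]
  have hchar : CharP (𝓞 K ⧸ q) l := by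
    constructor
    intro n
    rw [← map_natCast (Ideal.Quotient.mk q), Ideal.Quotient.eq_zero_iff_mem]
    constructor
    · intro h
      have h1 : (l : ℤ) ∣ (n : ℤ) := int_mem hl hq hql (by simpa using h)
      exact_mod_cast h1
    · rintro ⟨c, rfl⟩
      have h2 := Ideal.absNorm_mem q
      rw [hql] at h2
      push_cast
      exact q.mul_mem_right _ h2
  obtain ⟨z, hz⟩ := (ZMod.castHom_bijective (𝓞 K ⧸ q) hcard).2 (Ideal.Quotient.mk q x)
  obtain ⟨b, rfl⟩ := ZMod.intCast_surjective z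
  refine ⟨b, ?_⟩
  rw [map_intCast] at hz
  rw [← Ideal.Quotient.eq, map_intCast]
  exact hz.symm

theorem val_lam (hb : Base5 K a s) {Γ : Type*} [LinearOrderedCommGroupWithZero Γ]
    (V : Valuation ℂ Γ) {l : ℕ} (hl : l.Prime) (hl2 : l ≠ 2) (hla : ¬ l ∣ a)
    {q : Ideal (𝓞 K)} (hq : q.IsPrime) (hql : Ideal.absNorm q = l)
    (hV1 : ∀ x : 𝓞 K, V (em x) ≤ 1) (hV2 : ∀ x : 𝓞 K, V (em x) < 1 ↔ x ∈ q) {f : ℕ} (hf : 0 < f)
    {lam : 𝓞 K} (hlam : q ^ f = Ideal.span {lam}) : V (em lam) = V (l : ℂ) ^ f := by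
  obtain ⟨S, hS, hS'⟩ := exists_S hb
  have hSS : S ^ 2 = -(a : 𝓞 K) := by
    apply FaithfulSMul.algebraMap_injective (𝓞 K) K
    rw [map_pow, hS, hb.sq]
    simp
  obtain ⟨p, r, hpr⟩ := hS' lam
  have hlZ : Prime (l : ℤ) := Nat.prime_iff_prime_int.1 hl
  have hl2Z : ¬ (l : ℤ) ∣ 2 := by
    intro h
    have h1 : l ∣ 2 := by exact_mod_cast h
    exact hl2 ((Nat.prime_dvd_prime_iff_eq hl Nat.prime_two).1 h1)
  have hlaZ : ¬ (l : ℤ) ∣ (a : ℤ) := by
    intro h
    exact hla (by exact_mod_cast h)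
  -- coordinates are unique
  have huniq : ∀ x y : ℤ, (x : 𝓞 K) + y * S = 0 → x = 0 ∧ y = 0 := by
    intro x y hxy
    have ha0 : (0 : ℤ) < a := by
      have := hb.mod
      omega
    have h1 : (x : 𝓞 K) ^ 2 = -(a : 𝓞 K) * (y : 𝓞 K) ^ 2 := by
      have h2 : (x : 𝓞 K) = -(y * S) := by linear_combination hxy
      rw [h2]
      linear_combination (y : 𝓞 K) ^ 2 * hSS
    have h3 : x ^ 2 = -(a : ℤ) * y ^ 2 := by
      have h4 : ((x ^ 2 : ℤ) : 𝓞 K) = ((-(a : ℤ) * y ^ 2 : ℤ) : 𝓞 K) := by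
        push_cast
        exact h1
      exact Int.cast_injective h4
    have hy : y = 0 := by
      by_contra hy
      have : 0 < y ^ 2 := by positivity
      nlinarith [sq_nonneg x]
    have hx : x = 0 := by
      rw [hy] at h3
      simpa using h3
    exact ⟨hx, hy⟩
  set lam' : 𝓞 K := p - r * S with hlam'
  have hnorm : (Ideal.absNorm (Ideal.span {lam}) : ℤ) = p ^ 2 + a * r ^ 2 :=
    absNorm_pq hb (x := lam) (by rw [hpr]; simp [hS])
  have hlf : (p ^ 2 + a * r ^ 2 : ℤ) = (l : ℤ) ^ f := by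
    rw [← hnorm, ← hlam, map_pow, hql]
    push_cast
    ring
  have hprod : lam * lam' = (l : 𝓞 K) ^ f := by
    have h1 : ((p ^ 2 + a * r ^ 2 : ℤ) : 𝓞 K) = ((l : ℤ) ^ f : ℤ) := by rw [hlf]
    push_cast at h1
    rw [hpr, hlam']
    linear_combination h1 - (r : 𝓞 K) ^ 2 * hSS
  have hlq : (l : 𝓞 K) ∈ q := by
    have := Ideal.absNorm_mem q
    rwa [hql] at this
  have hnot : lam' ∉ q := by
    intro hmem
    have hlamq : lam ∈ q := by
      have h1 : lam ∈ q ^ f := by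
        rw [hlam]
        exact Ideal.mem_span_singleton_self lam
      exact Ideal.pow_le_self hf.ne' h1
    have h2p : ((2 * p : ℤ) : 𝓞 K) ∈ q := by
      have h3 := q.add_mem hlamq hmem
      have h4 : lam + lam' = ((2 * p : ℤ) : 𝓞 K) := by
        rw [hlam', hpr]
        push_cast
        ring
      rwa [h4] at h3
    have hlp : (l : ℤ) ∣ p := (hlZ.dvd_or_dvd (int_mem hl hq hql h2p)).resolve_left hl2Z
    have hlr : (l : ℤ) ∣ r := by
      have h5 : (l : ℤ) ∣ a * r ^ 2 := by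
        have h6 : (a * r ^ 2 : ℤ) = (l : ℤ) ^ f - p ^ 2 := by linarith
        rw [h6]
        exact dvd_sub (dvd_pow_self _ hf.ne') (dvd_pow hlp two_ne_zero)
      exact hlZ.dvd_of_dvd_pow ((hlZ.dvd_or_dvd h5).resolve_left hlaZ)
    have hdvd : (l : 𝓞 K) ∣ lam := by
      obtain ⟨p', rfl⟩ := hlp
      obtain ⟨r', rfl⟩ := hlr
      refine ⟨p' + r' * S, ?_⟩
      rw [hpr]
      push_cast
      ring
    have hq0 : q ≠ ⊥ := by
      rintro rfl
      rw [Ideal.absNorm_bot] at hql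
      exact hl.ne_zero hql.symm
    have hqprime : Prime q := Ideal.prime_of_isPrime hq0 hq
    have hld : Ideal.span {(l : 𝓞 K)} ∣ q ^ f := by
      rw [hlam, Ideal.dvd_iff_le, Ideal.span_singleton_le_span_singleton]
      exact hdvd
    obtain ⟨i, hi, hass⟩ := (dvd_prime_pow hqprime f).1 hld
    have heq : Ideal.span {(l : 𝓞 K)} = q ^ i := associated_iff_eq.1 hass
    have hi2 : i = 2 := by
      have h7 := congrArg Ideal.absNorm heq
      rw [Ideal.absNorm_span_natCast, map_pow, hql, RingOfIntegers.rank, hb.dim] at h7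
      exact (Nat.pow_right_injective hl.two_le h7).symm
    subst hi2
    obtain ⟨b, hbq⟩ := exists_int hl hq hql S
    have hsq : (S - b) ^ 2 ∈ Ideal.span {(l : 𝓞 K)} := by
      rw [heq]
      exact Ideal.pow_mem_pow hbq 2
    obtain ⟨y, hy⟩ := Ideal.mem_span_singleton'.1 hsq
    obtain ⟨p', r', hp'⟩ := hS' y
    have h8 : (((b ^ 2 - a - l * p' : ℤ)) : 𝓞 K) + ((-2 * b - l * r' : ℤ) : 𝓞 K) * S = 0 := by
      push_cast
      rw [hp'] at hy
      linear_combination -hy - hSS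
    obtain ⟨h9, h10⟩ := huniq _ _ h8
    have hlb : (l : ℤ) ∣ b := by
      have h11 : (l : ℤ) ∣ 2 * b := ⟨-r', by linarith⟩
      exact (hlZ.dvd_or_dvd h11).resolve_left hl2Z
    apply hlaZ
    have h12 : (a : ℤ) = b ^ 2 - l * p' := by linarith
    rw [h12]
    exact dvd_sub (dvd_pow hlb two_ne_zero) (dvd_mul_right _ _)
  have hV' : V (em lam') = 1 := by
    refine le_antisymm (hV1 lam') ?_
    by_contra hlt
    exact hnot ((hV2 lam').1 (not_le.1 hlt))
  have hem : em lam * em lam' = (l : ℂ) ^ f := by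
    unfold em
    rw [← map_mul, ← map_mul, hprod, map_pow, map_pow, map_natCast, map_natCast]
  have hfin := congrArg V hem
  rw [map_mul, hV', mul_one, map_pow] at hfin
  exact hfin

end Pool.Agent.Work.MP_8efaaa_nt.R
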