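import Mathlib
import Pool.Agent.Work.MP_8efaaa_nt.R.CKrA
import Pool.Agent.Work.MP_8efaaa_nt.R.BInt

/-!
# R/CKrB (M): the chain of lattices and the Kronecker congruence

* `step_iv`: `q` prime of prime norm `l ≠ 2`. `J := q * c ≠ c` (`c ≠ ⊥`, cancel), so `iv c < iv (q * c)`: choose `x ∈ iv (q * c)`, `x ∉ iv c`
  (if they were equal: `iv` determines the ideal: the fractional ideal inverse; or directly: `c⁻¹` as a fractional ideal, an element of
  `K` is in `iv c` iff it is in `(c : FractionalIdeal)⁻¹` (`FractionalIdeal.mem_inv_iff`), and `q⁻¹ c⁻¹ = c⁻¹` implies `q = 1`). `u := 8 x`.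
  (a) `t x ∈ iv c` for every `t ∈ q` (for `y ∈ c`, `t y ∈ q * c`). In particular `l x ∈ iv c`, `l u ∈ 8 • iv c`.
  (b) `iv (q * c) = iv c ⊔ span ℤ {x}`: let `z ∈ iv (q * c)`. The map `𝓞 K ⧸ q → iv (q * c) ⧸ iv c`, `t ↦ t z`... : use fractional ideals as in
  `two_lat` (MP_787500_nt/HC/LatD.lean or T/LatD.lean): `(c⁻¹ + 𝓞 x) = q⁻¹ c⁻¹` because `q` is maximal, so `z = y + t x`,
  `y ∈ iv c`, `t : 𝓞 K`; the residue field of `q` has `l` elements, so there is an integer `n` with `t - n ∈ q` (the classes of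
  `0, ..., l - 1` are different: an integer in `q` is divisible by `l`; card `𝓞 K ⧸ q` is `absNorm q = l`), `t x - n x ∈ iv c`.
  (c) `u ∉ La s 3 ⊔ 8 • iv c`: otherwise `8 x = y + 8 i`, `y ∈ La s 3`, `i ∈ iv c`; `l y = 8 (l x - l i) ∈ 8 • iv c`, `8 y ∈ 8 • iv c` (`y` is the image of an
  integer of `K`, `int_mem_iv`), `8` and `l` are coprime, so `y ∈ 8 • iv c`, `x ∈ iv c`: contradiction.
  So `MM s (q * c) = MM s c ⊔ span {u}`.
* `cyc_iv`: `lam = 1 + 32 t` is `p + 4 r s` with `p = 1 + 32 _`, `4 r = 32 _` (`exists_S` for `t`), so `order_eq` (`j = 3`; odd norm: `oddI_span`) and `MM_span`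
  give `MM s (span {lam} * c) = (em lam)⁻¹ • MM s c`; `mem_smul_iff`/`Submodule.mem_inv_pointwise_smul..`.
* `lam_w0`: `(lam - 1) w0 = 32 t (1 + φ s) / 8 = 4 t (1 + φ s)`, `t = p + r S`: `4 (p + r φ s)(1 + φ s) = 4 (p - a r) + 4 (p + r) φ s ∈ La s 3
  = ℤ + ℤ 4 (1 + φ s)`.
-/

set_option autoImplicit false

namespace Pool.Agent.Work.MP_8efaaa_nt.R

open NumberField Pool.Agent.Work.CM
open scoped Pointwise

variable {K : Type*} [Field K] [NumberField K] [Algebra K ℂ] {a : ℕ} {s : K}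

private theorem mem_smul8 {L : Submodule ℤ ℂ} {m z : ℂ} : z ∈ m • L ↔ ∃ y ∈ L, m * y = z := by
  rw [Submodule.mem_smul_pointwise_iff_exists]
  rfl

private theorem phi_sq (hb : Base5 K a s) : (algebraMap K ℂ s) ^ 2 = -(a : ℂ) := by
  rw [← map_pow, hb.sq]
  simp

private theorem mem_iv' {c : Ideal (𝓞 K)} (hc : c ≠ ⊥) {x : K} :
    algebraMap K ℂ x ∈ iv c ↔ x ∈ (c : FractionalIdeal (nonZeroDivisors (𝓞 K)) K)⁻¹ := by
  have hc' : (c : FractionalIdeal (nonZeroDivisors (𝓞 K)) K) ≠ 0 :=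
    FractionalIdeal.coeIdeal_ne_zero.mpr hc
  rw [FractionalIdeal.mem_inv_iff hc', mem_iv]
  constructor
  · rintro ⟨x', h, hx⟩ y hy
    have hx' : x' = x := (algebraMap K ℂ).injective hx
    subst hx'
    obtain ⟨y', hy', rfl⟩ := (FractionalIdeal.mem_coeIdeal _).mp hy
    obtain ⟨t, ht⟩ := h y' hy'
    exact (FractionalIdeal.mem_one_iff _).mpr ⟨t, ht⟩
  · intro h
    refine ⟨x, fun y hy => ?_, rfl⟩
    exact (FractionalIdeal.mem_one_iff _).mp
      (h (algebraMap _ K y) (FractionalIdeal.mem_coeIdeal_of_mem _ hy))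

private theorem iv_image {c : Ideal (𝓞 K)} {z : ℂ} (hz : z ∈ iv c) : ∃ x : K, algebraMap K ℂ x = z := by
  obtain ⟨x, _, hx⟩ := mem_iv.mp hz
  exact ⟨x, hx⟩

/-- in the residue field with `l` elements every element is an integer -/
private theorem exists_int {l : ℕ} (hl : l.Prime) {q : Ideal (𝓞 K)} (hq : q.IsPrime)
    (hql : Ideal.absNorm q = l) (t : 𝓞 K) : ∃ n : ℤ, t - n ∈ q := by
  haveI : Fact l.Prime := ⟨hl⟩
  have hcard : Nat.card (𝓞 K ⧸ q) = l := by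
    rw [← hql, Ideal.absNorm_apply, Submodule.cardQuot_apply]
  have h1 : (1 : 𝓞 K ⧸ q) ≠ 0 := by
    haveI := Ideal.Quotient.nontrivial_iff.mpr hq.ne_top
    exact one_ne_zero
  have := mem_zmultiples_of_prime_card (p := l) hcard (g' := Ideal.Quotient.mk q t) h1
  obtain ⟨n, hn⟩ := AddSubgroup.mem_zmultiples_iff.mp this
  refine ⟨n, ?_⟩
  rw [← Ideal.Quotient.eq_zero_iff_mem, map_sub, sub_eq_zero, ← hn]
  simp

private theorem exists_gen {q c : Ideal (𝓞 K)} (hq : q.IsPrime) (hq0 : q ≠ ⊥) (hc0 : c ≠ ⊥) :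
    ∃ x : K, x ∈ ((q * c : Ideal (𝓞 K)) : FractionalIdeal (nonZeroDivisors (𝓞 K)) K)⁻¹ ∧
      x ∉ (c : FractionalIdeal (nonZeroDivisors (𝓞 K)) K)⁻¹ ∧
      ∀ z ∈ ((q * c : Ideal (𝓞 K)) : FractionalIdeal (nonZeroDivisors (𝓞 K)) K)⁻¹,
        ∃ t : 𝓞 K, z - algebraMap (𝓞 K) K t * x ∈
          (c : FractionalIdeal (nonZeroDivisors (𝓞 K)) K)⁻¹ := by
  have hqm : q.IsMaximal := hq.isMaximal hq0
  rw [FractionalIdeal.coeIdeal_mul]
  set C : FractionalIdeal (nonZeroDivisors (𝓞 K)) K :=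
    (c : FractionalIdeal (nonZeroDivisors (𝓞 K)) K) with hC
  set Q : FractionalIdeal (nonZeroDivisors (𝓞 K)) K :=
    (q : FractionalIdeal (nonZeroDivisors (𝓞 K)) K) with hQ
  have hC0 : C ≠ 0 := FractionalIdeal.coeIdeal_ne_zero.mpr hc0
  have hQ0 : Q ≠ 0 := FractionalIdeal.coeIdeal_ne_zero.mpr hq0
  have hQC0 : Q * C ≠ 0 := mul_ne_zero hQ0 hC0
  have hCQC : C⁻¹ * (Q * C) = Q := by
    rw [mul_comm Q C, ← mul_assoc, inv_mul_cancel₀ hC0, one_mul]
  obtain ⟨x, hx, hxc⟩ : ∃ x ∈ (Q * C)⁻¹, x ∉ C⁻¹ := by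
    by_contra hcon
    push Not at hcon
    have hle : (Q * C)⁻¹ ≤ C⁻¹ := fun x hx => hcon x hx
    have h1 : (1 : FractionalIdeal (nonZeroDivisors (𝓞 K)) K) ≤ Q := by
      calc (1 : FractionalIdeal (nonZeroDivisors (𝓞 K)) K) = (Q * C)⁻¹ * (Q * C) :=
            (inv_mul_cancel₀ hQC0).symm
        _ ≤ C⁻¹ * (Q * C) := mul_le_mul_left hle _
        _ = Q := hCQC
    rw [← FractionalIdeal.coeIdeal_top, hQ] at h1
    exact hq.ne_top (top_le_iff.mp ((FractionalIdeal.coeIdeal_le_coeIdeal K).mp h1))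
  refine ⟨x, hx, hxc, ?_⟩
  set J : FractionalIdeal (nonZeroDivisors (𝓞 K)) K :=
    C⁻¹ + FractionalIdeal.spanSingleton (nonZeroDivisors (𝓞 K)) x with hJ
  have hCle : C⁻¹ ≤ (Q * C)⁻¹ := by
    have h1 : Q * C ≤ C := by
      calc Q * C ≤ 1 * C := mul_le_mul_left FractionalIdeal.coeIdeal_le_one _
        _ = C := one_mul _
    exact FractionalIdeal.inv_anti_mono hQC0 hC0 h1
  have hJle : J ≤ (Q * C)⁻¹ := by
    rw [hJ, ← FractionalIdeal.sup_eq_add, sup_le_iff]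
    exact ⟨hCle, FractionalIdeal.spanSingleton_le_iff_mem.mpr hx⟩
  have hJQC : J * (Q * C) ≤ 1 := by
    calc J * (Q * C) ≤ (Q * C)⁻¹ * (Q * C) := mul_le_mul_left hJle _
      _ = 1 := inv_mul_cancel₀ hQC0
  obtain ⟨I, hI⟩ := FractionalIdeal.le_one_iff_exists_coeIdeal.mp hJQC
  have hqI : q ≤ I := by
    rw [← FractionalIdeal.coeIdeal_le_coeIdeal K, hI, ← hQ]
    calc Q = C⁻¹ * (Q * C) := hCQC.symm
      _ ≤ J * (Q * C) := mul_le_mul_left (by rw [hJ]; exact le_self_add) _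
  have hIq : I ≠ q := by
    intro h
    apply hxc
    rw [h, ← hQ] at hI
    have : J = C⁻¹ := by
      calc J = J * (Q * C) * (Q * C)⁻¹ := by rw [mul_assoc, mul_inv_cancel₀ hQC0, mul_one]
        _ = C⁻¹ * (Q * C) * (Q * C)⁻¹ := by rw [← hI, hCQC]
        _ = C⁻¹ := by rw [mul_assoc, mul_inv_cancel₀ hQC0, mul_one]
    rw [← this]
    have h2 : FractionalIdeal.spanSingleton (nonZeroDivisors (𝓞 K)) x ≤ J := by
      rw [hJ]; exact le_add_self
    exact h2 (FractionalIdeal.mem_spanSingleton_self _ x)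
  have hItop : I = ⊤ := by
    by_contra h
    exact hIq (hqm.eq_of_le h hqI).symm
  have hJeq : J = (Q * C)⁻¹ := by
    rw [hItop, FractionalIdeal.coeIdeal_top] at hI
    calc J = J * (Q * C) * (Q * C)⁻¹ := by rw [mul_assoc, mul_inv_cancel₀ hQC0, mul_one]
      _ = (Q * C)⁻¹ := by rw [← hI, one_mul]
  intro z hz
  rw [← hJeq, hJ] at hz
  obtain ⟨y, hy, w, hw, hyw⟩ := (FractionalIdeal.mem_add _ _ _).mp hz
  obtain ⟨t, ht⟩ := (FractionalIdeal.mem_spanSingleton _).mp hw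
  refine ⟨t, ?_⟩
  have : z - algebraMap (𝓞 K) K t * x = y := by
    rw [← hyw, ← ht, Algebra.smul_def]
    ring
  rw [this]
  exact hy

theorem step_iv (hb : Base5 K a s) {l : ℕ} (hl : l.Prime) (hl2 : l ≠ 2) {q : Ideal (𝓞 K)}
    (hq : q.IsPrime) (hql : Ideal.absNorm q = l) {c : Ideal (𝓞 K)} (hc : OddI c) :
    ∃ u, u ∉ MM s c ∧ (l : ℂ) * u ∈ MM s c ∧ MM s (q * c) = MM s c ⊔ Submodule.span ℤ {u} := by
  have hc0 : c ≠ ⊥ := by
    rintro rfl
    simp [OddI] at hc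
  have hq0 : q ≠ ⊥ := by
    rintro rfl
    simp only [Ideal.absNorm_bot] at hql
    exact hl.ne_zero hql.symm
  have hqc0 : q * c ≠ ⊥ := mul_ne_zero hq0 hc0
  obtain ⟨x, hx, hxc, hall⟩ := exists_gen hq hq0 hc0
  have hxI : algebraMap K ℂ x ∈ iv (q * c) := (mem_iv' hqc0).mpr hx
  have hxN : algebraMap K ℂ x ∉ iv c := fun h => hxc ((mem_iv' hc0).mp h)
  -- multiplication by elements of q
  have hqx : ∀ t ∈ q, em t * algebraMap K ℂ x ∈ iv c := by
    intro t ht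
    obtain ⟨x', hx', hxx⟩ := mem_iv.mp hxI
    have : x' = x := (algebraMap K ℂ).injective hxx
    subst this
    refine mem_iv.mpr ⟨algebraMap (𝓞 K) K t * x', fun y hy => ?_, by rw [map_mul]⟩
    obtain ⟨r, hr⟩ := hx' (t * y) (Ideal.mul_mem_mul ht hy)
    exact ⟨r, by rw [hr, map_mul]; ring⟩
  have hlx : (l : ℂ) * algebraMap K ℂ x ∈ iv c := by
    have h := hqx (l : 𝓞 K) (by rw [← hql]; exact Ideal.absNorm_mem q)
    simpa [em] using h
  -- the superlattice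
  have hsup : iv (q * c) = iv c ⊔ Submodule.span ℤ {algebraMap K ℂ x} := by
    apply le_antisymm
    · intro z hz
      obtain ⟨z', rfl⟩ := iv_image hz
      obtain ⟨t, ht⟩ := hall z' ((mem_iv' hqc0).mp hz)
      obtain ⟨n, hn⟩ := exists_int hl hq hql t
      have h1 : algebraMap K ℂ (z' - algebraMap (𝓞 K) K t * x) ∈ iv c := (mem_iv' hc0).mpr ht
      have h2 := hqx _ hn
      rw [Submodule.mem_sup]
      refine ⟨_, add_mem h1 h2, (n : ℂ) * algebraMap K ℂ x,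
        Submodule.mem_span_singleton.mpr ⟨n, by simp⟩, ?_⟩
      simp only [em, map_sub, map_mul, map_intCast]
      ring
    · rw [sup_le_iff]
      refine ⟨iv_le_mul q c, ?_⟩
      rw [Submodule.span_singleton_le_iff_mem]
      exact hxI
  refine ⟨8 * algebraMap K ℂ x, ?_, ?_, ?_⟩
  · intro hmem
    obtain ⟨S, hS, -⟩ := exists_S hb
    rw [MM, Submodule.mem_sup] at hmem
    obtain ⟨y, hy, i8, hi8, hyi⟩ := hmem
    obtain ⟨i, hi, rfl⟩ := mem_smul8.mp hi8
    have hyint : ∃ t : 𝓞 K, em t = y := by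
      obtain ⟨m, n, rfl⟩ := Submodule.mem_span_pair.mp hy
      refine ⟨4 * (m : 𝓞 K) * (1 + S) + n, ?_⟩
      simp only [em, map_add, map_mul, map_one, map_intCast, map_ofNat, hS, zsmul_eq_mul]
      ring
    obtain ⟨t, rfl⟩ := hyint
    have ht : em t ∈ iv c := int_mem_iv c t
    -- l * y and 8 * y are in 8 • iv c
    have h8y : 8 * em t ∈ (8 : ℂ) • iv c := mem_smul8.mpr ⟨_, ht, rfl⟩
    have hly : (l : ℂ) * em t ∈ (8 : ℂ) • iv c := by
      refine mem_smul8.mpr ⟨(l : ℂ) * algebraMap K ℂ x - (l : ℂ) * i, ?_, ?_⟩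
      · refine sub_mem hlx ?_
        have := (iv c).smul_mem (l : ℤ) hi
        simpa [zsmul_eq_mul] using this
      · linear_combination (-(l : ℂ)) * hyi
    have hcop : IsCoprime (l : ℤ) 8 := by
      have h1 : Nat.Coprime l 8 := by
        have h2 : Nat.Coprime l 2 := (Nat.coprime_primes hl Nat.prime_two).mpr hl2
        have h3 := Nat.Coprime.pow_right 3 h2
        simpa using h3
      exact_mod_cast Nat.isCoprime_iff_coprime.mpr h1
    obtain ⟨u, v, huv⟩ := hcop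
    have hy8 : em t ∈ (8 : ℂ) • iv c := by
      have h1 := add_mem (((8 : ℂ) • iv c).smul_mem u hly) (((8 : ℂ) • iv c).smul_mem v h8y)
      have h2 : u • ((l : ℂ) * em t) + v • (8 * em t) = em t := by
        rw [zsmul_eq_mul, zsmul_eq_mul]
        have : (u : ℂ) * l + v * 8 = 1 := by exact_mod_cast huv
        linear_combination (em t) * this
      rwa [h2] at h1
    have hx8 : 8 * algebraMap K ℂ x ∈ (8 : ℂ) • iv c := by
      rw [← hyi]
      exact add_mem hy8 (mem_smul8.mpr ⟨i, hi, rfl⟩)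
    obtain ⟨j, hj, hj8⟩ := mem_smul8.mp hx8
    have : j = algebraMap K ℂ x := mul_left_cancel₀ (by norm_num : (8 : ℂ) ≠ 0) hj8
    exact hxN (this ▸ hj)
  · refine Submodule.mem_sup_right (mem_smul8.mpr ⟨_, hlx, ?_⟩)
    ring
  · rw [MM, MM, hsup, Submodule.smul_sup', sup_assoc]
    congr 2
    rw [Submodule.smul_span]
    simp

theorem cyc_iv (hb : Base5 K a s) {c : Ideal (𝓞 K)} (hc : OddI c) {lam t : 𝓞 K}
    (h : lam = 1 + 32 * t) (z : ℂ) :
    z ∈ MM s (Ideal.span {lam} * c) ↔ em lam * z ∈ MM s c := by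
  obtain ⟨S, hS, hall⟩ := exists_S hb
  obtain ⟨p, r, hpr⟩ := hall t
  have hlamK : algebraMap (𝓞 K) K lam =
      ((1 + 32 * p : ℤ) : K) + 2 ^ (3 - 1) * ((8 * r : ℤ) : K) * s := by
    rw [h, hpr]
    simp only [map_add, map_mul, map_one, map_intCast, map_ofNat, hS]
    push_cast
    ring
  have hodd : OddI (Ideal.span {lam}) := by
    rw [oddI_span hb (p := 1 + 32 * p) (q := 32 * r) (by rw [hlamK]; push_cast; ring)]
    exact ⟨16 * (p + r), by ring⟩
  have hne : lam ≠ 0 := by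
    intro h0
    rw [h0] at hodd
    simp [OddI] at hodd
  have hem : em lam ≠ 0 := by
    simpa [em] using hne
  rw [MM_span s hne, order_eq hb c (j := 3) (by norm_num) hlamK hodd, ← MM]
  rw [mem_smul8]
  constructor
  · rintro ⟨y, hy, rfl⟩
    rwa [mul_inv_cancel_left₀ hem]
  · intro hz
    exact ⟨_, hz, by rw [inv_mul_cancel_left₀ hem]⟩

theorem lam_w0 (hb : Base5 K a s) (c : Ideal (𝓞 K)) {lam t : 𝓞 K} (h : lam = 1 + 32 * t) :
    em lam * w0 s - w0 s ∈ MM s c := by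
  obtain ⟨S, hS, hall⟩ := exists_S hb
  obtain ⟨p, r, hpr⟩ := hall t
  have ht : em t = p + r * algebraMap K ℂ s := by
    rw [hpr]
    simp only [em, map_add, map_mul, map_intCast, hS]
  have hlam : em lam = 1 + 32 * em t := by
    rw [h]
    simp only [em, map_add, map_mul, map_one, map_ofNat]
  have key : em lam * w0 s - w0 s = (p + r : ℤ) • (2 ^ 3 * ((1 + algebraMap K ℂ s) / 2)) +
      (4 * (p - a * r) - 4 * (p + r) : ℤ) • (1 : ℂ) := by
    rw [hlam, ht, w0, zsmul_eq_mul, zsmul_eq_mul]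
    push_cast
    linear_combination (4 * (r : ℂ)) * phi_sq hb
  rw [key]
  refine Submodule.mem_sup_left ?_
  rw [La, Submodule.mem_span_pair]
  exact ⟨_, _, rfl⟩

end Pool.Agent.Work.MP_8efaaa_nt.R
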