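import Mathlib
import Pool.Agent.Work.MP_8efaaa_nt.R.CLatC

/-!
# R/CTr (M): the translations by `x + 4 y s`, `s` and `1 + 2 s`

`φ = algebraMap K ℂ`, `em δ` the image of `δ : 𝓞 K`, `w0 = (1 + φ s) / 8`, `φ s ^ 2 = -a`, `M := MM s c = La s 3 ⊔ 8 • iv c`.
Always `vals_span` for `δ`, `M' := em δ • La s 3 ⊔ 8 • iv c`, `w' := em δ * w0`.

* `tr_one`: `OddI (span {δ})` by `oddI_span` (`x + 4 y` odd). `M' = M` by `order_eq` with `j = 3`. `em δ * w0 = (x + 4 y φ s)(1 + φ s) / 8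
  = (x + 4 y) w0 - y (1 + a) / 2`, and `(1 + a) / 2` is an integer, `1 ∈ La s 3`. `f_odd` (AInt) with `d = x + 4 y`.

* `tr_half`: `δ = 1 + 2 s`. Values at `(M', w')` equal those at `(M', w'')`, `w'' := - w'` (`f_odd` with `d = -1`, `e8 (-1) = 1`; for
  `fu` note `fu = 2 / fz ^ 2 - 1`). `Fr M' w''` (`Fr M' w'` and negatives). `half_turn` (AInt) for `M, w0` and `M', w''`, `x = 1 / 2`:
  - `Ch M w0 4 = La s 2 ⊔ 8 • iv c` (`Ch_eq` with `z = 1`, `Lk_La`), `Ch M' w'' 4 = Ch M' w' 4` (the span of the negative) `= em δ • La s 2 ⊔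
    8 • iv c` (`Ch_eq`) `= La s 2 ⊔ 8 • iv c` by `order_eq` with `j = 2`, `1 + 2 s`.
  - `M' ≠ M`: `em δ = em δ * 1 ∈ M'`; if it is in `M = Lk s 5 ⊔ 8 • iv c`, then, as `2 * em δ = 2 + 4 φ s ∈ Lk s 5`
    (`= 32 w0 - 2`), `odd_mem` (`n = 1`) gives `em δ ∈ Lk s 5`: `1 + 2 φ s = m * 4 (1 + φ s) + n`, `lin_indep`: `2 = 4 m`, contradiction.
  - `2 * (1 / 2) = 1 ∈ M`; `1 / 2 ∉ Ch M w0 2 = Lk s 2 ⊔ 8 • iv c`: by `odd_mem` with `n = 1` it would be in `Lk s 2`: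
    `1 / 2 = m (1 + φ s) / 2 + n`, `lin_indep`: `m = 0`, `1 / 2 = n`.
  - `w'' - (w0 + 1 / 2) ∈ Ch M w0 2`: `- (1 + 2 φ s)(1 + φ s) / 8 - (1 + φ s) / 8 - 1 / 2 = (2 a - 2 - 4 φ s) / 8 - 1 / 2 = (a - 1) / 4 -
    (1 + φ s) / 2`, and `(a - 1) / 4` is an integer.
  The conclusion of `half_turn` is `fv = - fv`, `fu = - fu`.

* `tr_quarter`: `δ = s`. `quarter_turn` (AInt) for `M, w0`, `M', w'`, `g = 1 / 4`:
  - `Ch M' w' 3 = em δ • La s 1 ⊔ 8 • iv c = La s 1 ⊔ 8 • iv c = Ch M w0 3` (`Ch_eq`, `Lk_La`, `order_eq` with `j = 1`, `s = 0 + 1 s`; `oddI_span`).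
  - `4 * (1 / 4) = 1 ∈ M`; `2 * (1 / 4) = 1 / 2 ∉ Ch M w0 2` as above.
  - `8 w0 - 4 (1 / 4) = φ s = em δ * 1 ∈ M'`.
  - `w' - (w0 + 1 / 4) ∈ M`: `φ s (1 + φ s) / 8 = (φ s - a) / 8`, so it is `- (1 + a) / 8 - 1 / 4 = - (a + 3) / 8`, an integer because
    `a = 5 mod 8`.
  Conclusion: `fv' ^ 2 = - 1 / fv ^ 2`, `fu' * fv = - (fu * fv')`.
-/

set_option autoImplicit false

namespace Pool.Agent.Work.MP_8efaaa_nt.R

open NumberField Pool.Agent.Work.CM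
open scoped Pointwise

variable {K : Type*} [Field K] [NumberField K] [Algebra K ℂ] {a : ℕ} {s : K}

private theorem ct_int (s : K) (k : ℕ) (n : ℤ) : (n : ℂ) ∈ Lk s k :=
  mem_Lk.2 ⟨0, n, by push_cast; ring⟩

private theorem ct_one (s : K) (k : ℕ) : (1 : ℂ) ∈ Lk s k := by
  have h := ct_int s k 1
  rwa [Int.cast_one] at h

private theorem ct_MM (s : K) (c : Ideal (𝓞 K)) {z : ℂ} (h : z ∈ Lk s 5) : z ∈ MM s c := by
  rw [MM_eq]
  exact Submodule.mem_sup_left h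

private theorem ct_sq (hb : Base5 K a s) : algebraMap K ℂ s ^ 2 = -(a : ℂ) := by
  rw [← map_pow, hb.sq, map_neg, map_natCast]

private theorem ct_Ch (s : K) (c : Ideal (𝓞 K)) {k : ℕ} (hk : k ≤ 5) :
    Ch (MM s c) (w0 s) k = Lk s k ⊔ (8 : ℂ) • iv c := by
  have h := Ch_eq (1 : ℂ) ((8 : ℂ) • iv c) s hk
  rw [one_smul, one_smul, one_mul] at h
  exact h

private theorem ct_half (hb : Base5 K a s) {c : Ideal (𝓞 K)} (hc : OddI c) :
    (1 / 2 : ℂ) ∉ Ch (MM s c) (w0 s) 2 := by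
  rw [ct_Ch s c (by norm_num)]
  intro h
  have h1 : (1 / 2 : ℂ) ∈ Lk s 2 := odd_mem hb hc (by norm_num) h (n := 1) (by
    have h2 : (2 : ℂ) ^ 1 * (1 / 2) = 1 := by norm_num
    rw [h2]
    exact ct_one s 2)
  obtain ⟨m, n, hmn⟩ := mem_Lk.1 h1
  have h2 : (((m : ℚ) / 2 + n - 1 / 2 : ℚ) : ℂ) + ((m : ℚ) / 2 : ℚ) * algebraMap K ℂ s = 0 := by
    push_cast
    have h3 : (2 : ℂ) ^ 2 * w0 s = (1 + algebraMap K ℂ s) / 2 := by
      unfold w0
      ring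
    rw [h3] at hmn
    linear_combination -hmn
  obtain ⟨h3, h4⟩ := lin_indep hb h2
  have h5 : (m : ℚ) = 0 := by linarith
  have h6 : 2 * (n : ℚ) = 1 := by rw [h5] at h3; linarith
  have h7 : 2 * n = 1 := by exact_mod_cast h6
  omega

private theorem ct_vals (hb : Base5 K a s) {c : Ideal (𝓞 K)} (hc : OddI c) {δ : 𝓞 K}
    (hδ : OddI (Ideal.span {δ})) :
    Uc s (Ideal.span {δ} * c) = fu (em δ • La s 3 ⊔ (8 : ℂ) • iv c) (em δ * w0 s) := by
  have h := (vals_span hb hc hδ).2.1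
  have h1 : Uc s (Ideal.span {δ} * c) = 2 / Zc s (Ideal.span {δ} * c) ^ 2 - 1 := rfl
  rw [h1, h]
  rfl

theorem tr_one (hb : Base5 K a s) {c : Ideal (𝓞 K)} (hc : OddI c) {x y : ℤ} (hx : Odd x) {δ : 𝓞 K}
    (hδ : algebraMap (𝓞 K) K δ = x + 4 * y * s) :
    Zc s (Ideal.span {δ} * c) = e8 (x + 4 * y) * Zc s c ∧
      Kc s (Ideal.span {δ} * c) = Kc s c ∧ Vc s (Ideal.span {δ} * c) = Vc s c := by
  have hodd : Odd (x + 4 * y) := by
    obtain ⟨k, hk⟩ := hx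
    exact ⟨k + 2 * y, by rw [hk]; ring⟩
  have hδ1 : algebraMap (𝓞 K) K δ = (x : K) + ((4 * y : ℤ) : K) * s := by
    rw [hδ]
    push_cast
    ring
  have hO : OddI (Ideal.span {δ}) := (oddI_span hb hδ1).2 hodd
  obtain ⟨-, hZ, hK, hV⟩ := vals_span hb hc hO
  have hM : em δ • La s 3 ⊔ (8 : ℂ) • iv c = MM s c :=
    order_eq hb c (j := 3) (by norm_num) (p := x) (q := y) (by rw [hδ]; norm_num) hO
  rw [hM] at hZ hK hV
  have hem : em δ = x + 4 * y * algebraMap K ℂ s := by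
    show algebraMap K ℂ (algebraMap (𝓞 K) K δ) = _
    rw [hδ, map_add, map_intCast, map_mul, map_mul, map_ofNat, map_intCast]
  obtain ⟨k, hk⟩ : ∃ k : ℕ, a + 1 = 2 * k := ⟨(a + 1) / 2, by have := hb.mod; omega⟩
  have hkC : (a : ℂ) + 1 = 2 * k := by exact_mod_cast hk
  have hw : em δ * w0 s - ((x + 4 * y : ℤ) : ℂ) * w0 s ∈ MM s c := by
    have h1 : em δ * w0 s - ((x + 4 * y : ℤ) : ℂ) * w0 s = ((-(y * k) : ℤ) : ℂ) := by
      rw [hem]
      unfold w0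
      push_cast
      linear_combination (y : ℂ) / 2 * ct_sq hb - (y : ℂ) / 2 * hkC
    rw [h1]
    exact ct_MM s c (ct_int s 5 _)
  obtain ⟨h1, h2, h3⟩ := f_odd (fr_sup hb hc) hodd hw
  exact ⟨hZ.trans h1, hK.trans h2, hV.trans h3⟩

theorem tr_half (hb : Base5 K a s) {c : Ideal (𝓞 K)} (hc : OddI c) {δ : 𝓞 K}
    (hδ : algebraMap (𝓞 K) K δ = 1 + 2 * s) :
    Vc s (Ideal.span {δ} * c) = -Vc s c ∧ Uc s (Ideal.span {δ} * c) = -Uc s c := by
  have hδ1 : algebraMap (𝓞 K) K δ = ((1 : ℤ) : K) + ((2 : ℤ) : K) * s := by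
    rw [hδ]
    push_cast
    ring
  have hO : OddI (Ideal.span {δ}) := (oddI_span hb hδ1).2 (by decide)
  obtain ⟨hF, hZ, -, hV⟩ := vals_span hb hc hO
  have hU := ct_vals hb hc hO
  have hem : em δ = 1 + 2 * algebraMap K ℂ s := by
    show algebraMap K ℂ (algebraMap (𝓞 K) K δ) = _
    rw [hδ, map_add, map_one, map_mul, map_ofNat]
  have hsq := ct_sq hb
  set M' := em δ • La s 3 ⊔ (8 : ℂ) • iv c with hM'
  have hCh0 : Ch M' (em δ * w0 s) 4 = Ch (MM s c) (w0 s) 4 := by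
    rw [ct_Ch s c (by norm_num), hM', Ch_eq (em δ) ((8 : ℂ) • iv c) s (by norm_num), Lk_La s 2]
    exact order_eq hb c (j := 2) (by norm_num) (p := 1) (q := 1) (by rw [hδ]; norm_num) hO
  have hCh : Ch M' (-(em δ * w0 s)) 4 = Ch (MM s c) (w0 s) 4 := by
    rw [← hCh0]
    unfold Ch
    congr 1
    rw [mul_neg, ← Set.neg_singleton, Submodule.span_neg]
  have hF' : Fr M' (-(em δ * w0 s)) := by
    refine ⟨hF.lat, ?_, fun h => hF.nmem ?_⟩
    · rw [mul_neg]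
      exact neg_mem hF.mem
    · rw [mul_neg] at h
      exact neg_mem_iff.1 h
  obtain ⟨h1, -, h3⟩ := f_odd (w' := -(em δ * w0 s)) hF (d := -1) (by decide) (by
    have h4 : -(em δ * w0 s) - ((-1 : ℤ) : ℂ) * (em δ * w0 s) = 0 := by
      push_cast
      ring
    rw [h4]
    exact zero_mem _)
  have he8 : e8 (-1) = 1 := by decide
  rw [he8, Int.cast_one, one_mul] at h1
  have hfu : fu M' (-(em δ * w0 s)) = fu M' (em δ * w0 s) := by
    unfold fu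
    rw [h1]
  have hne : M' ≠ MM s c := by
    intro heq
    have h4 : em δ ∈ M' := by
      refine Submodule.mem_sup_left ?_
      have h5 : em δ • (1 : ℂ) ∈ em δ • La s 3 :=
        Submodule.smul_mem_pointwise_smul _ _ _ (by rw [← Lk_La s 3]; exact ct_one s _)
      rwa [smul_eq_mul, mul_one] at h5
    rw [heq, MM_eq] at h4
    have h5 : em δ ∈ Lk s 5 := odd_mem hb hc (by norm_num) h4 (n := 1) (by
      refine mem_Lk.2 ⟨1, -2, ?_⟩
      rw [hem]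
      unfold w0
      push_cast
      ring)
    obtain ⟨m, n, hmn⟩ := mem_Lk.1 h5
    have h6 : ((4 * (m : ℚ) + n - 1 : ℚ) : ℂ) + ((4 * (m : ℚ) - 2 : ℚ) : ℂ) * algebraMap K ℂ s = 0 := by
      push_cast
      have h7 : (2 : ℂ) ^ 5 * w0 s = 4 * (1 + algebraMap K ℂ s) := by
        unfold w0
        ring
      rw [h7, hem] at hmn
      linear_combination -hmn
    obtain ⟨-, h7⟩ := lin_indep hb h6
    have h8 : 4 * m = 2 := by
      have h9 : 4 * (m : ℚ) = 2 := by linarith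
      exact_mod_cast h9
    omega
  obtain ⟨k, hk⟩ : ∃ k : ℕ, a = 4 * k + 1 := ⟨a / 4, by have := hb.mod; omega⟩
  have hkC : (a : ℂ) = 4 * k + 1 := by exact_mod_cast hk
  have hw : -(em δ * w0 s) - (w0 s + 1 / 2) ∈ Ch (MM s c) (w0 s) 2 := by
    rw [ct_Ch s c (by norm_num)]
    refine Submodule.mem_sup_left (mem_Lk.2 ⟨-1, k, ?_⟩)
    rw [hem]
    unfold w0
    push_cast
    linear_combination -(1 : ℂ) / 4 * hsq + (1 : ℂ) / 4 * hkC
  obtain ⟨h4, h5⟩ := half_turn (fr_sup hb hc) hF' hCh hne (x := 1 / 2)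
    (by
      have h6 : (2 : ℂ) * (1 / 2) = 1 := by norm_num
      rw [h6]
      exact ct_MM s c (ct_one s 5)) (ct_half hb hc) hw
  refine ⟨?_, ?_⟩
  · rw [hV, ← h3]
    exact h4
  · rw [hU, ← hfu]
    exact h5

theorem tr_quarter (hb : Base5 K a s) {c : Ideal (𝓞 K)} (hc : OddI c) {δ : 𝓞 K}
    (hδ : algebraMap (𝓞 K) K δ = s) :
    Vc s (Ideal.span {δ} * c) ^ 2 = -1 / Vc s c ^ 2 ∧
      Uc s (Ideal.span {δ} * c) * Vc s c = -(Uc s c * Vc s (Ideal.span {δ} * c)) := by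
  have hδ1 : algebraMap (𝓞 K) K δ = ((0 : ℤ) : K) + ((1 : ℤ) : K) * s := by
    rw [hδ]
    push_cast
    ring
  have hO : OddI (Ideal.span {δ}) := (oddI_span hb hδ1).2 (by decide)
  obtain ⟨hF, hZ, -, hV⟩ := vals_span hb hc hO
  have hU := ct_vals hb hc hO
  have hem : em δ = algebraMap K ℂ s := by
    show algebraMap K ℂ (algebraMap (𝓞 K) K δ) = _
    rw [hδ]
  have hsq := ct_sq hb
  set M' := em δ • La s 3 ⊔ (8 : ℂ) • iv c with hM'
  have hCh : Ch M' (em δ * w0 s) 3 = Ch (MM s c) (w0 s) 3 := by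
    rw [ct_Ch s c (by norm_num), hM', Ch_eq (em δ) ((8 : ℂ) • iv c) s (by norm_num), Lk_La s 1]
    exact order_eq hb c (j := 1) (by norm_num) (p := 0) (q := 1) (by rw [hδ]; norm_num) hO
  obtain ⟨k, hk⟩ : ∃ k : ℕ, a + 3 = 8 * k := ⟨(a + 3) / 8, by have := hb.mod; omega⟩
  have hkC : (a : ℂ) + 3 = 8 * k := by exact_mod_cast hk
  obtain ⟨h4, h5⟩ := quarter_turn (fr_sup hb hc) hF hCh (g := 1 / 4)
    (by
      have h6 : (4 : ℂ) * (1 / 4) = 1 := by norm_num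
      rw [h6]
      exact ct_MM s c (ct_one s 5))
    (by
      have h6 : (2 : ℂ) * (1 / 4) = 1 / 2 := by norm_num
      rw [h6]
      exact ct_half hb hc)
    (by
      have h6 : 8 * w0 s - 4 * (1 / 4) = em δ • (1 : ℂ) := by
        rw [hem, smul_eq_mul]
        unfold w0
        ring
      rw [h6]
      exact Submodule.mem_sup_left (Submodule.smul_mem_pointwise_smul _ _ _
        (by rw [← Lk_La s 3]; exact ct_one s _)))
    (by
      have h6 : em δ * w0 s - (w0 s + 1 / 4) = ((-k : ℤ) : ℂ) := by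
        rw [hem]
        unfold w0
        push_cast
        linear_combination (1 : ℂ) / 8 * hsq - (1 : ℂ) / 8 * hkC
      rw [h6]
      exact ct_MM s c (ct_int s 5 _))
  rw [hV, hU]
  exact ⟨h4, h5⟩

end Pool.Agent.Work.MP_8efaaa_nt.R
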