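import Mathlib
import Pool.Agent.Work.MP_8efaaa_nt.R.CTr

/-!
# R/CTr2 (S-M): the quantities which depend only on the class

`G1 c := (1 - V ^ 4) / V ^ 2`, `G2 c := U (1 + V ^ 4) / V ^ 3` (`V = Vc s c`, `U = Uc s c`). `V ≠ 0`: `fvz_sq`, `fk_ne` (AInt) and
`fr_sup` (`(V Z) ^ 2 = 2 K ≠ 0`).
PROOF. (1) `G1, G2` are the same for `span {δ} * c` and `c` (for all odd `c`) if `δ = x + 4 y s` with `x` odd (`tr_one`; `U = 2 / Z ^ 2 - 1` and
`e8 ^ 2 = 1`), if `δ = 1 + 2 s` (`tr_half`: `V ↦ -V`, `U ↦ -U`), if `δ = s` (`tr_quarter`: with `V' ^ 2 = -1 / V ^ 2`: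
`(1 - V' ^ 4) / V' ^ 2 = (1 - 1 / V ^ 4) * (-V ^ 2) = (1 - V ^ 4) / V ^ 2`, and `U' = - U V' / V`,
`U' (1 + V' ^ 4) / V' ^ 3 = - U (1 + 1 / V ^ 4) / (V V' ^ 2) = U (1 + V ^ 4) / V ^ 3`).
(2) Let `δ = p + q s` (`exists_S`), `p + q` odd (`oddI_span`). If `4 ∣ q`: `p` odd, (1). If `q = 2 mod 4`: `p` is odd, and with `ε = 1 + 2 s`:
`ε δ = (p - 2 a q) + (q + 2 p) s`, `4 ∣ q + 2 p`, so by (1) for `ε δ` and `c`, and for `ε` and the odd ideal `span {δ} * c`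
(`span {ε} * (span {δ} * c) = span {ε δ} * c`, `Ideal.span_singleton_mul_span_singleton`): `G (δ c) = G (ε δ c) = G c`. If `q` is odd: `p` is
even, `s δ = - a q + p s` is of the first two kinds (`p` even, `a q` odd), and `G (δ c) = G (s δ c) = G c`.
-/

set_option autoImplicit false

namespace Pool.Agent.Work.MP_8efaaa_nt.R

open NumberField Pool.Agent.Work.CM
open scoped Pointwise

variable {K : Type*} [Field K] [NumberField K] [Algebra K ℂ] {a : ℕ} {s : K}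

/-- the two quantities -/
private noncomputable def GG (s : K) (c : Ideal (𝓞 K)) : ℂ × ℂ :=
  ((1 - Vc s c ^ 4) / Vc s c ^ 2, Uc s c * (1 + Vc s c ^ 4) / Vc s c ^ 3)

private theorem V_ne (hb : Base5 K a s) {c : Ideal (𝓞 K)} (hc : OddI c) : Vc s c ≠ 0 := by
  intro h
  have h1 := fvz_sq (fr_sup hb hc)
  have h3 : fv (MM s c) (w0 s) = 0 := h
  rw [h3, zero_mul] at h1
  apply fk_ne (fr_sup hb hc)
  have h4 : (2 : ℂ) * fk (MM s c) (w0 s) = 0 := by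
    rw [← h1]
    ring
  rcases mul_eq_zero.1 h4 with h5 | h5
  · exact absurd h5 two_ne_zero
  · exact h5

private theorem GG_one (hb : Base5 K a s) {c : Ideal (𝓞 K)} (hc : OddI c) {x y : ℤ} (hx : Odd x)
    {δ : 𝓞 K} (hδ : algebraMap (𝓞 K) K δ = x + 4 * y * s) :
    GG s (Ideal.span {δ} * c) = GG s c := by
  obtain ⟨h1, -, h3⟩ := tr_one hb hc hx hδ
  have h4 : Uc s (Ideal.span {δ} * c) = Uc s c := by
    show 2 / Zc s (Ideal.span {δ} * c) ^ 2 - 1 = 2 / Zc s c ^ 2 - 1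
    rw [h1, mul_pow]
    have h5 : ((e8 (x + 4 * y) : ℤ) : ℂ) ^ 2 = 1 := by
      unfold e8
      split_ifs <;> norm_num
    rw [h5, one_mul]
  unfold GG
  rw [h3, h4]

private theorem GG_half (hb : Base5 K a s) {c : Ideal (𝓞 K)} (hc : OddI c) {δ : 𝓞 K}
    (hδ : algebraMap (𝓞 K) K δ = 1 + 2 * s) : GG s (Ideal.span {δ} * c) = GG s c := by
  obtain ⟨h1, h2⟩ := tr_half hb hc hδ
  have h4 : (-Vc s c) ^ 4 = Vc s c ^ 4 := by ring
  have h5 : (-Vc s c) ^ 2 = Vc s c ^ 2 := by ring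
  have h6 : (-Vc s c) ^ 3 = -Vc s c ^ 3 := by ring
  unfold GG
  rw [h1, h2, h4, h5, h6, neg_mul, neg_div_neg_eq]

private theorem GG_quarter (hb : Base5 K a s) {c : Ideal (𝓞 K)} (hc : OddI c) {δ : 𝓞 K}
    (hδ : algebraMap (𝓞 K) K δ = s) : GG s (Ideal.span {δ} * c) = GG s c := by
  obtain ⟨h1, h2⟩ := tr_quarter hb hc hδ
  have hV := V_ne hb hc
  unfold GG
  generalize Vc s (Ideal.span {δ} * c) = W at h1 h2 ⊢
  generalize Uc s (Ideal.span {δ} * c) = U' at h2 ⊢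
  generalize Vc s c = V at h1 h2 hV ⊢
  generalize Uc s c = U at h2 ⊢
  have hW2 : W ^ 2 * V ^ 2 = -1 := by
    rw [h1]
    field_simp
  have hW : W ≠ 0 := by
    rintro rfl
    norm_num at hW2
  refine Prod.ext ?_ ?_
  · show (1 - W ^ 4) / W ^ 2 = (1 - V ^ 4) / V ^ 2
    rw [div_eq_div_iff (pow_ne_zero 2 hW) (pow_ne_zero 2 hV)]
    linear_combination (-W ^ 2 + V ^ 2) * hW2
  · show U' * (1 + W ^ 4) / W ^ 3 = U * (1 + V ^ 4) / V ^ 3
    rw [div_eq_div_iff (pow_ne_zero 3 hW) (pow_ne_zero 3 hV)]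
    linear_combination (1 + W ^ 4) * V ^ 2 * h2 - U * W * (V ^ 2 + W ^ 2) * hW2

private theorem GG_even (hb : Base5 K a s) {c : Ideal (𝓞 K)} (hc : OddI c) {δ : 𝓞 K}
    (hδ : OddI (Ideal.span {δ})) {p q : ℤ} (hpq : algebraMap (𝓞 K) K δ = p + q * s)
    (hq : Even q) : GG s (Ideal.span {δ} * c) = GG s c := by
  have hodd : Odd (p + q) := (oddI_span hb hpq).1 hδ
  obtain ⟨r, hr⟩ := hq
  obtain ⟨t, ht⟩ := hodd
  have hp : Odd p := ⟨t - r, by omega⟩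
  obtain ⟨S, hS, -⟩ := exists_S hb
  by_cases h4 : (4 : ℤ) ∣ q
  · obtain ⟨y, hy⟩ := h4
    refine GG_one hb hc hp (y := y) ?_
    rw [hpq, hy]
    push_cast
    ring
  · have hεs : algebraMap (𝓞 K) K (1 + 2 * S) = 1 + 2 * s := by
      rw [map_add, map_mul, map_one, hS, map_ofNat]
    have hdc : OddI (Ideal.span {δ} * c) := (oddI_mul _ _).2 ⟨hδ, hc⟩
    rw [← GG_half hb hdc hεs, ← mul_assoc, Ideal.span_singleton_mul_span_singleton]
    obtain ⟨y, hy⟩ : (4 : ℤ) ∣ q + 2 * p := by omega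
    refine GG_one hb hc (x := p - 2 * a * q) (y := y) ⟨t - r - a * q, ?_⟩ ?_
    · have hp2 : p = 2 * (t - r) + 1 := by omega
      rw [hp2]
      ring
    · have h5 : (4 : K) * y = q + 2 * p := by exact_mod_cast hy.symm
      rw [map_mul, hεs, hpq]
      push_cast
      linear_combination (2 * (q : K)) * hb.sq - s * h5

theorem tr_two (hb : Base5 K a s) {c : Ideal (𝓞 K)} (hc : OddI c) {δ : 𝓞 K}
    (hδ : OddI (Ideal.span {δ})) :
    (1 - Vc s (Ideal.span {δ} * c) ^ 4) / Vc s (Ideal.span {δ} * c) ^ 2 =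
        (1 - Vc s c ^ 4) / Vc s c ^ 2 ∧
      Uc s (Ideal.span {δ} * c) * (1 + Vc s (Ideal.span {δ} * c) ^ 4) /
        Vc s (Ideal.span {δ} * c) ^ 3 = Uc s c * (1 + Vc s c ^ 4) / Vc s c ^ 3 := by
  suffices h : GG s (Ideal.span {δ} * c) = GG s c from
    ⟨congrArg Prod.fst h, congrArg Prod.snd h⟩
  obtain ⟨S, hS, hSS⟩ := exists_S hb
  obtain ⟨p, q, hpq⟩ := hSS δ
  have hpq' : algebraMap (𝓞 K) K δ = p + q * s := by
    rw [hpq, map_add, map_mul, hS, map_intCast, map_intCast]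
  rcases Int.even_or_odd q with hq | hq
  · exact GG_even hb hc hδ hpq' hq
  · have hodd : Odd (p + q) := (oddI_span hb hpq').1 hδ
    have hp : Even p := by
      obtain ⟨r, hr⟩ := hq
      obtain ⟨t, ht⟩ := hodd
      exact ⟨t - r, by omega⟩
    have hdc : OddI (Ideal.span {δ} * c) := (oddI_mul _ _).2 ⟨hδ, hc⟩
    rw [← GG_quarter hb hdc hS, ← mul_assoc, Ideal.span_singleton_mul_span_singleton]
    have hSd : algebraMap (𝓞 K) K (S * δ) = ((-(a * q) : ℤ) : K) + (p : ℤ) * s := by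
      rw [map_mul, hS, hpq']
      push_cast
      linear_combination (q : K) * hb.sq
    refine GG_even hb hc ((oddI_span hb hSd).2 ?_) hSd hp
    have ha : Odd (a : ℤ) := by
      have := hb.mod
      exact ⟨(a / 2 : ℕ), by omega⟩
    exact (ha.mul hq).neg.add_even hp

end Pool.Agent.Work.MP_8efaaa_nt.R
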