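import Mathlib
import Pool.Agent.Work.CM.Kl1
import Pool.Agent.Work.MP_8efaaa_nt.R.Defs

/-!
# R/CfDefs: definitions for the finiteness theorem `c_fin` (fixed file)
-/

set_option autoImplicit false

namespace Pool.Agent.Work.MP_8efaaa_nt.R

open Pool.Agent.Work.CM
open scoped Pointwise

/-- A chain `L 5 ≤ .. ≤ L 0` of lattices in `K`, stable under `B`, each of index two in the next. -/
structure BCh (K : Type*) [Field K] [Algebra K ℂ] (B : Submodule ℤ ℂ)
    (L : ℕ → Submodule ℤ ℂ) : Prop where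
  two : ∀ k < 5, Two (L (k + 1)) (L k)
  inK : ∀ k ≤ 5, InK K (L k)
  stab : ∀ k ≤ 5, B * L k ≤ L k

/-- the number `e_j + 2 e_{j+1}` -/
noncomputable def tj (L : ℕ → Submodule ℤ ℂ) (j : ℕ) : ℂ :=
  ev (L (j + 1)) (L j) + 2 * ev (L (j + 2)) (L (j + 1))

end Pool.Agent.Work.MP_8efaaa_nt.R
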