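import Mathlib
import Pool.Agent.Work.CM.Rep

/-!
# R/CfA (S-M): finitely many submodules between two lattices

`exists_reps`: a finite set `T` of representatives of the classes of `A'` modulo `A` (those not in `A`). A submodule `X` with
`A ≤ X ≤ A'` is determined by the subset `{t ∈ T : t ∈ X}`: `z ∈ X` iff `z ∈ A` or `z - t ∈ A` for some `t ∈ T` with `t ∈ X`. So there is an injective
map into the (finite) powerset of `T` (`Set.Finite.of_injOn` or `Set.Finite.of_finite_image`).
-/

set_option autoImplicit false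

namespace Pool.Agent.Work.MP_8efaaa_nt.R

open Pool.Agent.Work.CM

theorem finite_between {A A' : Submodule ℤ ℂ} (hA : IsLat A) (hA' : IsLat A') (h : A ≤ A') :
    {X : Submodule ℤ ℂ | A ≤ X ∧ X ≤ A'}.Finite := by
  classical
  obtain ⟨T, -, hT⟩ := exists_reps hA hA' h
  refine Set.Finite.of_finite_image (f := fun X : Submodule ℤ ℂ => T.filter fun t => t ∈ X) ?_ ?_
  · refine (T.powerset.finite_toSet).subset ?_
    rintro _ ⟨X, -, rfl⟩
    exact Finset.mem_coe.2 (Finset.mem_powerset.2 (Finset.filter_subset _ _))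
  · have key : ∀ X Y : Submodule ℤ ℂ, A ≤ X → X ≤ A' → A ≤ Y →
        (T.filter fun t => t ∈ X) = (T.filter fun t => t ∈ Y) → X ≤ Y := by
      intro X Y hX hX' hY he z hz
      rcases hT z (hX' hz) with h1 | ⟨t, ht, h1⟩
      · exact hY h1
      · have h2 : t ∈ X := by
          have := X.sub_mem hz (hX h1)
          rwa [sub_sub_cancel] at this
        have h3 : t ∈ T.filter fun t => t ∈ Y := by
          rw [← he]
          exact Finset.mem_filter.2 ⟨ht, h2⟩
        have h4 := Y.add_mem (hY h1) (Finset.mem_filter.1 h3).2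
        rwa [sub_add_cancel] at h4
    rintro X ⟨hX, hX'⟩ Y ⟨hY, hY'⟩ he
    exact le_antisymm (key X Y hX hX' hY he) (key Y X hY hY' hX he.symm)

end Pool.Agent.Work.MP_8efaaa_nt.R
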