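import Mathlib
import Pool.Agent.Work.CM.Rep
import Pool.Agent.Work.MP_787500_nt.HC.LatB
import Pool.Agent.Work.MP_8efaaa_nt.T.Quad
import Pool.Agent.Work.MP_8efaaa_nt.R.CfDefs

/-!
# R/CfB (M): the lattices of the ideals and the order `La s 3`

`isLat_lat5`: as `isLat_lat` in `MP_8efaaa_nt/T/LatA.lean` (there for `Base K q s`, `q = 7 mod 8`): it reduces to `lat 1`; here `𝓞 K = ℤ[S]`, where `S` is `s` as an
integer (`a = 5 mod 8` squarefree, `-a = 3 mod 4`): as `Qd.exists_int_coords` in `T/Quad.lean`, an integer is `x = u + v s` with `u, v ∈ ℚ`, trace `2 u ∈ ℤ`, norm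
`u ^ 2 + a v ^ 2 ∈ ℤ`; `a` squarefree gives `2 v ∈ ℤ`, and `(2 u) ^ 2 + a (2 v) ^ 2 = 0 mod 4` gives `2 u, 2 v` even. So `lat 1 = span {1, s}` (as complex numbers), and
`1, s` are linearly independent over the reals (`s ^ 2 = -a < 0`).
`La_ring`: `σ = (1 + s) / 2`, `8 σ = 4 + 4 s`, `La s 3 = span {8 σ, 1} = {u + 4 v s : u, v ∈ ℤ}` is contained in `lat 1`, contains `4 • lat 1`, is a ring:
`(4 s) ^ 2 = -16 a`; it is a lattice by `isLat_of_sandwich` or directly.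
-/

set_option autoImplicit false

namespace Pool.Agent.Work.MP_8efaaa_nt.R

open NumberField Pool.Agent.Work.CM Pool.Agent.Work.MP_787500_nt.HC
open scoped Pointwise nonZeroDivisors

variable {K : Type*} [Field K] [NumberField K] [Algebra K ℂ] {a : ℕ} {s : K}

open Pool.Agent.Work.MP_787500_nt Pool.Agent.Work.MP_787500_nt.Quad in
private theorem int_coords5 (hK : Module.finrank ℚ K = 2) (hs : s ^ 2 = -(a : K))
    (hq : Squarefree a) (hq4 : a % 8 = 5) {x : K} (hx : IsIntegral ℤ x) :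
    ∃ u v : ℤ, x = (u : K) + v * s := by
  obtain ⟨b, c, rfl⟩ := exists_coords hK hs (Nat.pos_of_ne_zero hq.ne_zero) x
  have φ : K →+* ℂ := Classical.arbitrary _
  obtain ⟨h1, h2⟩ := emb_re_im hs (Nat.pos_of_ne_zero hq.ne_zero) φ
  set x := (b : K) + c * s with hxdef
  have i1 : IsIntegral ℤ (φ x) := map_isIntegral_int φ hx
  have i2 : IsIntegral ℤ ((starRingEnd ℂ) (φ x)) := map_isIntegral_int (starRingEnd ℂ) i1
  have hφx : φ x = ((b : ℝ) + c * (φ s).re : ℝ) + ((c : ℝ) * (φ s).im : ℝ) * Complex.I := by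
    rw [hxdef, map_add, map_mul, map_ratCast, map_ratCast]
    apply Complex.ext <;> simp
  have i3 : IsIntegral ℤ ((2 * b : ℚ) : ℂ) := by
    have := i1.add i2
    have e : φ x + (starRingEnd ℂ) (φ x) = ((2 * b : ℚ) : ℂ) := by
      rw [Complex.add_conj, hφx, h1]
      simp
    rwa [e] at this
  have i4 : IsIntegral ℤ ((b ^ 2 + a * c ^ 2 : ℚ) : ℂ) := by
    have := i1.mul i2
    have e : φ x * (starRingEnd ℂ) (φ x) = ((b ^ 2 + a * c ^ 2 : ℚ) : ℂ) := by
      rw [Complex.mul_conj, hxdef, normSq_emb hs (Nat.pos_of_ne_zero hq.ne_zero)]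
      push_cast
      ring
    rwa [e] at this
  obtain ⟨t, ht⟩ := int_of_isIntegral_rat (q := 2 * b) (by
    have := (isIntegral_algebraMap_iff (R := ℤ) (A := ℚ) (B := ℂ) (x := 2 * b)
      (algebraMap ℚ ℂ).injective).1 (by simpa using i3)
    exact this)
  obtain ⟨n, hn⟩ := int_of_isIntegral_rat (q := b ^ 2 + a * c ^ 2) (by
    have := (isIntegral_algebraMap_iff (R := ℤ) (A := ℚ) (B := ℂ)
      (x := b ^ 2 + a * c ^ 2) (algebraMap ℚ ℂ).injective).1 (by simpa using i4)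
    exact this)
  have h7 : (a : ℚ) * (2 * c) ^ 2 = ((4 * n - t ^ 2 : ℤ) : ℚ) := by
    push_cast
    rw [ht, hn]; ring
  have hbi : IsIntegral ℤ ((a : ℚ) * (2 * c)) := by
    have h8 : IsIntegral ℤ (((a : ℚ) * (2 * c)) ^ 2) := by
      rw [show ((a : ℚ) * (2 * c)) ^ 2 = ((a * (4 * n - t ^ 2) : ℤ) : ℚ) by
        push_cast; push_cast at h7; rw [← h7]; ring]
      exact isIntegral_algebraMap (R := ℤ) (x := a * (4 * n - t ^ 2))
    exact IsIntegral.of_pow (by norm_num) h8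
  obtain ⟨e, hc⟩ := int_of_isIntegral_rat hbi
  have h9 : e ^ 2 = a * (4 * n - t ^ 2) := by
    have : (e : ℚ) ^ 2 = a * ((4 * n - t ^ 2 : ℤ) : ℚ) := by rw [hc, ← h7]; ring
    exact_mod_cast this
  have h10 : (a : ℤ) ∣ e := by
    have h11 : (a : ℤ) ∣ e ^ 2 := ⟨_, h9⟩
    exact (Squarefree.dvd_pow_iff_dvd (Int.squarefree_natCast.2 hq) two_ne_zero).1 h11
  obtain ⟨d, rfl⟩ := h10
  have hq0 : (a : ℚ) ≠ 0 := by exact_mod_cast hq.ne_zero
  have hbd : 2 * c = d := by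
    have : (a : ℚ) * (2 * c) = a * d := by rw [← hc]; push_cast; ring
    exact mul_left_cancel₀ hq0 this
  have hq0' : (a : ℤ) ≠ 0 := by exact_mod_cast hq.ne_zero
  have h12 : a * d ^ 2 = 4 * n - t ^ 2 := by
    have : (a : ℤ) * (a * d ^ 2) = a * (4 * n - t ^ 2) := by rw [← h9]; ring
    exact mul_left_cancel₀ hq0' this
  obtain ⟨k, hk⟩ : ∃ k : ℕ, a = 4 * k + 1 := ⟨a / 4, by omega⟩
  have h13 : t ^ 2 + d ^ 2 = 4 * (n - k * d ^ 2) := by
    rw [hk] at h12
    push_cast at h12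
    linear_combination h12
  have h14 : Even t ∧ Even d := by
    rcases Int.even_or_odd' t with ⟨t', ht' | ht'⟩ <;> rcases Int.even_or_odd' d with ⟨d', hd' | hd'⟩
    · exact ⟨⟨t', by omega⟩, ⟨d', by omega⟩⟩
    · exfalso
      rw [ht', hd'] at h13
      ring_nf at h13
      omega
    · exfalso
      rw [ht', hd'] at h13
      ring_nf at h13
      omega
    · exfalso
      rw [ht', hd'] at h13
      ring_nf at h13
      omega
  obtain ⟨⟨t', rfl⟩, ⟨d', rfl⟩⟩ := h14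
  refine ⟨t', d', ?_⟩
  have h15 : b = (t' : ℚ) := by push_cast at ht; linarith
  have h16 : c = (d' : ℚ) := by push_cast at hbd; linarith
  rw [hxdef, h15, h16]
  push_cast
  rfl

open Pool.Agent.Work.MP_787500_nt Pool.Agent.Work.MP_787500_nt.Quad in
private theorem mem_lat_one (hb : Base5 K a s) (z : ℂ) : z ∈ lat (1 : Idl K) ↔
    ∃ u v : ℤ, z = u + v * algebraMap K ℂ s := by
  rw [mem_lat]
  constructor
  · rintro ⟨x, hx1, rfl⟩
    rw [Units.val_one, FractionalIdeal.mem_one_iff] at hx1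
    obtain ⟨y, rfl⟩ := hx1
    obtain ⟨u, v, h⟩ := int_coords5 hb.dim hb.sq hb.sf hb.mod y.isIntegral_coe
    refine ⟨u, v, ?_⟩
    have h2 := congrArg (algebraMap K ℂ) h
    rw [map_add, map_mul, map_intCast, map_intCast] at h2
    exact h2
  · rintro ⟨u, v, rfl⟩
    obtain ⟨S, hS, -⟩ := exists_int_s hb.sq
    refine ⟨algebraMap (𝓞 K) K ((u : 𝓞 K) + (v : 𝓞 K) * S), ?_, ?_⟩
    · rw [Units.val_one, FractionalIdeal.mem_one_iff]
      exact ⟨_, rfl⟩
    · rw [map_add, map_mul, map_intCast, map_intCast, hS, map_add, map_mul, map_intCast,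
        map_intCast]

open Pool.Agent.Work.MP_787500_nt Pool.Agent.Work.MP_787500_nt.Quad in
private theorem isLat_one5 (hb : Base5 K a s) : IsLat (lat (1 : Idl K)) := by
  obtain ⟨hre, him⟩ := emb_re_im hb.sq (Nat.pos_of_ne_zero hb.sf.ne_zero) (algebraMap K ℂ)
  have hq0 : (0 : ℝ) < a := by exact_mod_cast (Nat.pos_of_ne_zero hb.sf.ne_zero)
  have hims : (algebraMap K ℂ s).im ≠ 0 := by
    intro h0
    rw [h0] at him
    norm_num at him
    rw [← him] at hq0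
    exact lt_irrefl _ hq0
  have hind : LinearIndependent ℝ ![(1 : ℂ), algebraMap K ℂ s] := by
    rw [LinearIndependent.pair_iff]
    intro x y hxy
    rw [Complex.real_smul, Complex.real_smul] at hxy
    have h1 := congrArg Complex.im hxy
    have h2 := congrArg Complex.re hxy
    simp at h1 h2
    have hy : y = 0 := by
      rcases h1 with h1 | h1
      · exact h1
      · exact absurd h1 hims
    rw [hy] at h2
    simp at h2
    exact ⟨h2, hy⟩
  refine ⟨⟨1, algebraMap K ℂ s, hind⟩, ?_⟩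
  ext z
  rw [PeriodPair.mem_lattice, mem_lat_one hb]
  constructor
  · rintro ⟨m, n, rfl⟩
    exact ⟨m, n, by rw [mul_one]⟩
  · rintro ⟨u, v, rfl⟩
    exact ⟨u, v, by rw [mul_one]⟩

theorem isLat_lat5 (hb : Base5 K a s) (I : Idl K) : IsLat (lat I) := by
  have h1 := isLat_one5 hb
  obtain ⟨x, hx, hx0⟩ : ∃ x : K, x ∈ (I : FractionalIdeal (𝓞 K)⁰ K) ∧ x ≠ 0 := by
    have hne : ((I : FractionalIdeal (𝓞 K)⁰ K) : Submodule (𝓞 K) K) ≠ ⊥ := by
      intro h0
      exact I.ne_zero (FractionalIdeal.coeToSubmodule_eq_bot.1 h0)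
    obtain ⟨x, hx, hx0⟩ := Submodule.exists_mem_ne_zero_of_ne_bot hne
    exact ⟨x, hx, hx0⟩
  obtain ⟨d, hd, hdI⟩ := (I : FractionalIdeal (𝓞 K)⁰ K).isFractional
  have hd0 : d ≠ 0 := nonZeroDivisors.ne_zero hd
  have hdK : algebraMap (𝓞 K) K d ≠ 0 := by
    intro h0
    exact hd0 ((FaithfulSMul.algebraMap_injective (𝓞 K) K) (by rw [h0, map_zero]))
  have hm : algebraMap K ℂ x ≠ 0 := (map_ne_zero _).2 hx0
  have hd' : algebraMap K ℂ (algebraMap (𝓞 K) K d)⁻¹ ≠ 0 := (map_ne_zero _).2 (inv_ne_zero hdK)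
  refine isLat_of_sandwich h1 (h1.smul hd') hm ?_ ?_
  · have h2 := lat_prin (Units.mk0 x hx0) (1 : Idl K)
    rw [Units.val_mk0] at h2
    rw [← h2, lat_le, mul_one]
    unfold prin
    rw [coe_toPrincipalIdeal, Units.val_mk0, FractionalIdeal.spanSingleton_le_iff_mem]
    exact hx
  · have h2 := lat_prin (Units.mk0 (algebraMap (𝓞 K) K d) hdK)⁻¹ (1 : Idl K)
    rw [Units.val_inv_eq_inv_val, Units.val_mk0] at h2
    rw [← h2, lat_le, mul_one]
    unfold prin
    rw [coe_toPrincipalIdeal]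
    intro y hy
    obtain ⟨b, hb'⟩ := hdI y hy
    rw [Units.val_inv_eq_inv_val, Units.val_mk0, FractionalIdeal.mem_spanSingleton]
    refine ⟨b, ?_⟩
    rw [Algebra.smul_def, hb', Algebra.smul_def, mul_comm, ← mul_assoc, inv_mul_cancel₀ hdK,
      one_mul]

private theorem mem_La3 (s : K) (z : ℂ) : z ∈ La s 3 ↔
    ∃ u v : ℤ, z = u + 4 * v * algebraMap K ℂ s := by
  unfold La
  rw [Submodule.mem_span_pair]
  constructor
  · rintro ⟨m, n, rfl⟩
    refine ⟨4 * m + n, m, ?_⟩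
    rw [zsmul_eq_mul, zsmul_eq_mul]
    push_cast
    ring
  · rintro ⟨u, v, rfl⟩
    refine ⟨v, u - 4 * v, ?_⟩
    rw [zsmul_eq_mul, zsmul_eq_mul]
    push_cast
    ring

theorem La_ring (hb : Base5 K a s) : IsLat (La s 3) ∧ InK K (La s 3) ∧ (1 : ℂ) ∈ La s 3 ∧
    La s 3 * La s 3 ≤ La s 3 ∧ La s 3 ≤ lat (1 : Idl K) ∧
    (4 : ℂ) • lat (1 : Idl K) ≤ La s 3 := by
  have hs2 : algebraMap K ℂ s ^ 2 = -(a : ℂ) := by
    rw [← map_pow, hb.sq, map_neg, map_natCast]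
  have h1 := isLat_one5 hb
  have hle : La s 3 ≤ lat (1 : Idl K) := by
    intro z hz
    obtain ⟨u, v, rfl⟩ := (mem_La3 s z).1 hz
    rw [mem_lat_one hb]
    exact ⟨u, 4 * v, by push_cast; ring⟩
  have h4 : (4 : ℂ) • lat (1 : Idl K) ≤ La s 3 := by
    intro z hz
    rw [Submodule.mem_smul_pointwise_iff_exists] at hz
    obtain ⟨y, hy, rfl⟩ := hz
    obtain ⟨u, v, rfl⟩ := (mem_lat_one hb y).1 hy
    rw [mem_La3]
    exact ⟨4 * u, v, by rw [smul_eq_mul]; push_cast; ring⟩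
  refine ⟨isLat_of_sandwich h1 h1 (m := 4) (by norm_num) h4 hle, ?_, ?_, ?_, hle, h4⟩
  · intro l hl
    exact inK_lat 1 l (hle hl)
  · rw [mem_La3]
    exact ⟨1, 0, by push_cast; ring⟩
  · rw [Submodule.mul_le]
    intro x hx y hy
    obtain ⟨u, v, rfl⟩ := (mem_La3 s x).1 hx
    obtain ⟨u', v', rfl⟩ := (mem_La3 s y).1 hy
    rw [mem_La3]
    refine ⟨u * u' - 16 * a * v * v', u * v' + u' * v, ?_⟩
    push_cast
    linear_combination (16 * (v : ℂ) * v') * hs2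

end Pool.Agent.Work.MP_8efaaa_nt.R
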