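import Mathlib
import Pool.Agent.Work.CM.Rep
import Pool.Agent.Work.CM.Tw3
import Pool.Agent.Work.MP_787500_nt.HC.LatB
import Pool.Agent.Work.MP_787500_nt.HC.LatC
import Pool.Agent.Work.MP_787500_nt.HC.ClsA
import Pool.Agent.Work.MP_8efaaa_nt.R.CfDefs
import Pool.Agent.Work.MP_8efaaa_nt.R.CfA
import Pool.Agent.Work.MP_8efaaa_nt.R.CfB

/-!
# R/CfC (M): finitely many chains up to scaling

Choose for every class `C` a fractional ideal `I_C` (`cl_surjective`; the class group is finite). Let `L` be a chain, `Λ = lat 1 * L 0`: `L 0 ≤ Λ` (`1 ∈ lat 1`) and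
`4 • Λ ≤ La s 3 * L 0 ≤ L 0` (`La_ring`), so `Λ` is a lattice (`isLat_of_sandwich`: `Λ ≤ (4 : ℂ)⁻¹ • L 0`), `InK`, `lat 1 * Λ ≤ Λ` (`lat 1 * lat 1 ≤ lat 1`), so
`Λ = lat J` (`exists_lat`). With `C = cl J`: `J = prin x * I_C` or so (`cl_eq_iff`), `lat J = algebraMap x • lat I_C` (`lat_prin`); `m = (algebraMap x)⁻¹`:
`4 • lat I_C ≤ m • L 0 ≤ lat I_C`. As `2 • L k ≤ L (k + 1) ≤ L k` (`Two.two_mem`, `Two.le`), `128 • lat I_C ≤ m • L k ≤ lat I_C` for `k ≤ 5`. The set of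
functions `Fin 6 → {X : 128 • lat I_C ≤ X ≤ lat I_C}` is finite (`finite_between`, `Set.Finite.pi`), and `S` is the union over the finite class group.
-/

set_option autoImplicit false

namespace Pool.Agent.Work.MP_8efaaa_nt.R

open NumberField Pool.Agent.Work.CM Pool.Agent.Work.MP_787500_nt.HC
open scoped Pointwise nonZeroDivisors

variable {K : Type*} [Field K] [NumberField K] [Algebra K ℂ] {a : ℕ} {s : K}

omit [NumberField K] in
private theorem inK_mul {A B : Submodule ℤ ℂ} (hA : InK K A) (hB : InK K B) : InK K (A * B) := by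
  intro l hl
  refine Submodule.mul_induction_on (C := fun l => ∃ x : K, algebraMap K ℂ x = l) hl ?_ ?_
  · intro m hm n hn
    obtain ⟨x, hx⟩ := hA m hm
    obtain ⟨y, hy⟩ := hB n hn
    exact ⟨x * y, by rw [map_mul, hx, hy]⟩
  · rintro x y ⟨u, hu⟩ ⟨v, hv⟩
    exact ⟨u + v, by rw [map_add, hu, hv]⟩

private theorem nat_mul_mem {A : Submodule ℤ ℂ} {z : ℂ} (hz : z ∈ A) (n : ℕ) : (n : ℂ) * z ∈ A := by
  have h := A.smul_mem (n : ℤ) hz
  rw [zsmul_eq_mul, Int.cast_natCast] at h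
  exact h

omit [NumberField K] in
private theorem chain_le {L : ℕ → Submodule ℤ ℂ} {B : Submodule ℤ ℂ} (h : BCh K B L) (k : ℕ)
    (hk : k ≤ 5) : L k ≤ L 0 ∧ ∀ z ∈ L 0, (2 : ℂ) ^ k * z ∈ L k := by
  induction k with
  | zero => exact ⟨le_rfl, fun z hz => by rwa [pow_zero, one_mul]⟩
  | succ k ih =>
    obtain ⟨h1, h2⟩ := ih (by omega)
    have h3 := h.two k (by omega)
    refine ⟨h3.le.trans h1, fun z hz => ?_⟩
    have h4 := h3.two_mem (h2 z hz)
    have e : (2 : ℂ) ^ (k + 1) * z = 2 * (2 ^ k * z) := by ring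
    rwa [e]

private theorem one_chain (hb : Base5 K a s) (L : ℕ → Submodule ℤ ℂ) (hL : BCh K (La s 3) L) :
    ∃ (C : ClassGroup (𝓞 K)) (m : ℂ), m ≠ 0 ∧ ∀ k ≤ 5,
      (128 : ℂ) • lat (Function.surjInv (cl_surjective (K := K)) C) ≤ m • L k ∧
        m • L k ≤ lat (Function.surjInv (cl_surjective (K := K)) C) := by
  obtain ⟨-, -, -, -, -, hr⟩ := La_ring hb
  have hL0 : IsLat (L 0) := (hL.two 0 (by norm_num)).lat'
  have h4 : (4 : ℂ) ≠ 0 := by norm_num
  have h4i : (4 : ℂ)⁻¹ ≠ 0 := inv_ne_zero h4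
  set Λ : Submodule ℤ ℂ := lat (1 : Idl K) * L 0 with hΛ
  have hle : L 0 ≤ Λ := by
    intro z hz
    have h := Submodule.mul_mem_mul (one_mem_lat (K := K)) hz
    rwa [one_mul] at h
  have hquart : ∀ z ∈ Λ, 4 * z ∈ L 0 := by
    intro z hz
    refine Submodule.mul_induction_on (C := fun z => 4 * z ∈ L 0) hz ?_ ?_
    · intro m hm n hn
      have h1 : 4 * m ∈ La s 3 := hr ((mem_smul_iff h4).2 hm)
      have h2 := hL.stab 0 (by norm_num) (Submodule.mul_mem_mul h1 hn)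
      rwa [mul_assoc] at h2
    · intro x y hx hy
      have h := add_mem hx hy
      rwa [← mul_add] at h
  have hle2 : Λ ≤ (4 : ℂ)⁻¹ • L 0 := by
    intro z hz
    have h := (mem_smul_iff (L := L 0) h4i (z := 4 * z)).2 (hquart z hz)
    rwa [← mul_assoc, inv_mul_cancel₀ h4, one_mul] at h
  have hΛlat : IsLat Λ := isLat_of_sandwich (m := (1 : ℂ)) hL0 (hL0.smul h4i) one_ne_zero
    (by rw [one_smul]; exact hle) hle2
  have hΛK : InK K Λ := inK_mul (inK_lat 1) (hL.inK 0 (by norm_num))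
  have hΛm : lat (1 : Idl K) * Λ ≤ Λ := by
    rw [hΛ, ← mul_assoc]
    exact Submodule.mul_le.2 fun m hm n hn => Submodule.mul_mem_mul (lat_one_mul (K := K) 1 hm) hn
  obtain ⟨J, hJ⟩ := exists_lat hΛlat hΛK hΛm
  have hcl : cl (Function.surjInv (cl_surjective (K := K)) (cl J)) = cl J :=
    Function.surjInv_eq _ _
  obtain ⟨x, hx⟩ := cl_eq_iff.1 hcl
  set I : Idl K := Function.surjInv (cl_surjective (K := K)) (cl J) with hI
  set y : ℂ := algebraMap K ℂ (x : K) with hy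
  have hy0 : y ≠ 0 := by
    rw [hy]
    exact (map_ne_zero _).2 x.ne_zero
  have hΛI : Λ = y • lat I := by
    rw [hJ, hx, lat_prin]
  refine ⟨cl J, y⁻¹, inv_ne_zero hy0, fun k hk => ?_⟩
  obtain ⟨c1, c2⟩ := chain_le hL k hk
  constructor
  · intro z hz
    rw [Submodule.mem_smul_pointwise_iff_exists] at hz
    obtain ⟨w, hw, rfl⟩ := hz
    have h1 : y * w ∈ Λ := by
      rw [hΛI]
      exact (mem_smul_iff hy0).2 hw
    have h2 := c2 _ (hquart _ h1)
    have h3 := nat_mul_mem h2 (2 ^ (5 - k))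
    have h5 : ((2 ^ (5 - k) : ℕ) : ℂ) * (2 ^ k * (4 * (y * w))) = y * (128 * w) := by
      have h6 : (2 : ℂ) ^ (5 - k) * 2 ^ k = 32 := by
        rw [← pow_add, Nat.sub_add_cancel hk]
        norm_num
      push_cast
      linear_combination (4 * (y * w)) * h6
    rw [h5] at h3
    have h7 := (mem_smul_iff (L := L k) (inv_ne_zero hy0) (z := y * (128 * w))).2 h3
    rw [← mul_assoc, inv_mul_cancel₀ hy0, one_mul] at h7
    exact h7
  · intro z hz
    rw [Submodule.mem_smul_pointwise_iff_exists] at hz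
    obtain ⟨w, hw, rfl⟩ := hz
    have h1 : w ∈ Λ := hle (c1 hw)
    rw [hΛI, Submodule.mem_smul_pointwise_iff_exists] at h1
    obtain ⟨v, hv, rfl⟩ := h1
    rw [smul_smul, inv_mul_cancel₀ hy0, one_smul]
    exact hv

theorem finite_chains (hb : Base5 K a s) : ∃ S : Set (Fin 6 → Submodule ℤ ℂ), S.Finite ∧
    ∀ L : ℕ → Submodule ℤ ℂ, BCh K (La s 3) L →
      ∃ m : ℂ, m ≠ 0 ∧ (fun k : Fin 6 => m • L k) ∈ S := by
  classical
  refine ⟨⋃ C : ClassGroup (𝓞 K), {g : Fin 6 → Submodule ℤ ℂ | ∀ k, g k ∈ {X : Submodule ℤ ℂ |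
    (128 : ℂ) • lat (Function.surjInv (cl_surjective (K := K)) C) ≤ X ∧
      X ≤ lat (Function.surjInv (cl_surjective (K := K)) C)}}, ?_, ?_⟩
  · refine Set.finite_iUnion fun C => Set.Finite.pi' fun _ => ?_
    have hl := isLat_lat5 hb (Function.surjInv (cl_surjective (K := K)) C)
    refine finite_between (hl.smul (by norm_num)) hl ?_
    intro z hz
    rw [Submodule.mem_smul_pointwise_iff_exists] at hz
    obtain ⟨w, hw, rfl⟩ := hz
    have h := nat_mul_mem hw 128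
    rw [smul_eq_mul]
    exact_mod_cast h
  · intro L hL
    obtain ⟨C, m, hm, h⟩ := one_chain hb L hL
    refine ⟨m, hm, Set.mem_iUnion.2 ⟨C, fun k => ?_⟩⟩
    exact h k (by have := k.2; omega)

end Pool.Agent.Work.MP_8efaaa_nt.R
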