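import Mathlib
import Pool.Agent.Work.CM.Kl2
import Pool.Agent.Work.CM.Tw3
import Pool.Agent.Work.MP_8efaaa_nt.R.CfDefs
import Pool.Agent.Work.MP_8efaaa_nt.R.CfB

/-!
# R/CfD (M): the automorphisms over `K` and the chains

`conj_eq τ` with `B = La s 3` (`La_ring`): `μ ≠ 0` and a lattice `D` in `K`, stable under `B`, with `conj τ L = μ • (L * D)` for all lattices `L` in `K` stable under `B`. Take
`L' k = L k * D`: `Two (L (k+1)) (L k)` gives `Two (conj τ (L (k+1))) (conj τ (L k))` with `ev = τ (ev ..)` (`Two.conj`); scale by `μ⁻¹` (`Two.smul`,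
`μ⁻¹ • (μ • X) = X`): `Two (L' (k+1)) (L' k)` and `ev (L' (k+1)) (L' k) = μ ^ 2 * τ (ev (L (k+1)) (L k))`. So `tj L' j = μ ^ 2 * τ (tj L j)` for `j ≤ 3`, and the quotient
follows. `InK` and the stability for a product: `Submodule.mul_induction_on`, `mul_assoc`.
-/

set_option autoImplicit false

namespace Pool.Agent.Work.MP_8efaaa_nt.R

open NumberField Pool.Agent.Work.CM Pool.Agent.Work.MP_787500_nt.HC
open scoped Pointwise nonZeroDivisors

variable {K : Type*} [Field K] [NumberField K] [Algebra K ℂ] {a : ℕ} {s : K}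

omit [NumberField K] in
private theorem cfd_lat {B : Submodule ℤ ℂ} {L : ℕ → Submodule ℤ ℂ} (hL : BCh K B L) {k : ℕ}
    (hk : k ≤ 5) : IsLat (L k) := by
  rcases Nat.lt_or_ge k 5 with h | h
  · exact (hL.two k h).lat'
  · have e : k = 4 + 1 := by omega
    rw [e]
    exact (hL.two 4 (by norm_num)).lat

omit [NumberField K] in
private theorem cfd_inK {A D : Submodule ℤ ℂ} (hA : InK K A) (hD : InK K D) : InK K (A * D) := by
  intro z hz
  refine Submodule.mul_induction_on (C := fun z => ∃ x : K, algebraMap K ℂ x = z) hz ?_ ?_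
  · intro m hm n hn
    obtain ⟨x, hx⟩ := hA m hm
    obtain ⟨y, hy⟩ := hD n hn
    exact ⟨x * y, by rw [map_mul, hx, hy]⟩
  · rintro _ _ ⟨x, rfl⟩ ⟨y, rfl⟩
    exact ⟨x + y, map_add _ _ _⟩

theorem bch_conj (hb : Base5 K a s) {L : ℕ → Submodule ℤ ℂ} (hL : BCh K (La s 3) L)
    (τ : ℂ ≃ₐ[K] ℂ) : ∃ L' : ℕ → Submodule ℤ ℂ, BCh K (La s 3) L' ∧
      ∀ j ≤ 3, ∀ k ≤ 3, τ (tj L j / tj L k) = tj L' j / tj L' k := by
  obtain ⟨hB, hBK, h1, hBB, -, -⟩ := La_ring hb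
  obtain ⟨μ, D, hμ, hD, hDK, hBD, hall⟩ := conj_eq τ hB hBK h1 hBB
  have hc : ∀ k ≤ 5, CM.conj (τ : ℂ ≃+* ℂ) (L k) = μ • (L k * D) := fun k hk =>
    hall (L k) (cfd_lat hL hk) (hL.inK k hk) (hL.stab k hk)
  have hT : ∀ k < 5, Two (L (k + 1) * D) (L k * D) ∧
      ev (L (k + 1) * D) (L k * D) = μ ^ 2 * τ (ev (L (k + 1)) (L k)) := by
    intro k hk
    obtain ⟨t1, t2⟩ := Two.conj (τ : ℂ ≃+* ℂ) (hL.two k hk)
    rw [hc _ (by omega), hc _ (by omega)] at t1 t2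
    obtain ⟨t3, t4⟩ := Two.smul (inv_ne_zero hμ) t1
    rw [inv_smul_smul₀ hμ, inv_smul_smul₀ hμ] at t3 t4
    refine ⟨t3, ?_⟩
    rw [t4, t2, inv_pow, inv_inv]
    rfl
  refine ⟨fun k => L k * D, ⟨fun k hk => (hT k hk).1, fun k hk => cfd_inK (hL.inK k hk) hDK,
    fun k hk => ?_⟩, fun j hj k hk => ?_⟩
  · rw [← mul_assoc]
    exact mul_le_mul' (hL.stab k hk) le_rfl
  · have e : ∀ j ≤ 3, tj (fun k => L k * D) j = μ ^ 2 * τ (tj L j) := by
      intro j hj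
      unfold tj
      rw [(hT j (by omega)).2, (hT (j + 1) (by omega)).2, map_add, map_mul, map_ofNat]
      ring
    rw [e j hj, e k hk, map_div₀, mul_div_mul_left _ _ (pow_ne_zero 2 hμ)]

end Pool.Agent.Work.MP_8efaaa_nt.R
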