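import Mathlib
import Pool.Agent.Work.CM.Ext2
import Pool.Agent.Work.CM.Tw3
import Pool.Agent.Work.MP_8efaaa_nt.R.CfDefs
import Pool.Agent.Work.MP_8efaaa_nt.R.CfC
import Pool.Agent.Work.MP_8efaaa_nt.R.CfD

/-!
# R/CfE (S-M): the quotients are algebraic and finite in number

The set `T` of all numbers `tj L j / tj L k` (`BCh K (La s 3) L`, `j, k ≤ 3`) is finite: `tj (m • L) j = (m ^ 2)⁻¹ * tj L j` (`Two.smul`), so the quotient depends only on the
function `fun k : Fin 6 => m • L k` in the finite set `S` of `finite_chains`. It is stable under the automorphisms of `ℂ` over `K` (`bch_conj`), so the orbit of each element is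
finite, and the element is algebraic (`algebraic_of_finite`).
-/

set_option autoImplicit false

namespace Pool.Agent.Work.MP_8efaaa_nt.R

open NumberField Pool.Agent.Work.CM Pool.Agent.Work.MP_787500_nt.HC
open scoped Pointwise nonZeroDivisors

variable {K : Type*} [Field K] [NumberField K] [Algebra K ℂ] {a : ℕ} {s : K}

/-- extension by zero of a finite family -/
private def xt (f : Fin 6 → Submodule ℤ ℂ) (n : ℕ) : Submodule ℤ ℂ :=
  if h : n < 6 then f ⟨n, h⟩ else ⊥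

omit [NumberField K] in
private theorem tj_smul {B : Submodule ℤ ℂ} {L : ℕ → Submodule ℤ ℂ} (hL : BCh K B L) {m : ℂ}
    (hm : m ≠ 0) {j : ℕ} (hj : j ≤ 3) :
    tj (xt fun k : Fin 6 => m • L k) j = (m ^ 2)⁻¹ * tj L j := by
  have h1 : ∀ k < 5, ev (xt (fun k : Fin 6 => m • L k) (k + 1)) (xt (fun k : Fin 6 => m • L k) k) =
      (m ^ 2)⁻¹ * ev (L (k + 1)) (L k) := by
    intro k hk
    have h2 := ((hL.two k hk).smul hm).2
    unfold xt
    rw [dif_pos (show k + 1 < 6 by omega), dif_pos (show k < 6 by omega)]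
    exact h2
  unfold tj
  rw [h1 j (by omega), h1 (j + 1) (by omega)]
  ring

theorem tj_fin (hb : Base5 K a s) : ∃ T : Finset ℂ, (∀ z ∈ T, IsAlgebraic K z) ∧
    ∀ L : ℕ → Submodule ℤ ℂ, BCh K (La s 3) L → ∀ j ≤ 3, ∀ k ≤ 3, tj L j / tj L k ∈ T := by
  obtain ⟨S, hS, hSL⟩ := finite_chains hb
  have hfin : {z : ℂ | ∃ L : ℕ → Submodule ℤ ℂ, BCh K (La s 3) L ∧
      ∃ j ≤ 3, ∃ k ≤ 3, z = tj L j / tj L k}.Finite := by
    refine ((hS.prod ((Set.finite_Iic 3).prod (Set.finite_Iic 3))).image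
      fun p : (Fin 6 → Submodule ℤ ℂ) × ℕ × ℕ => tj (xt p.1) p.2.1 / tj (xt p.1) p.2.2).subset ?_
    rintro z ⟨L, hL, j, hj, k, hk, rfl⟩
    obtain ⟨m, hm, hmS⟩ := hSL L hL
    refine ⟨(fun k : Fin 6 => m • L k, j, k), ⟨hmS, hj, hk⟩, ?_⟩
    change tj (xt fun k : Fin 6 => m • L k) j / tj (xt fun k : Fin 6 => m • L k) k = _
    rw [tj_smul hL hm hj, tj_smul hL hm hk,
      mul_div_mul_left _ _ (inv_ne_zero (pow_ne_zero 2 hm))]
  refine ⟨hfin.toFinset, fun z hz => ?_, fun L hL j hj k hk => ?_⟩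
  · obtain ⟨L, hL, j, hj, k, hk, rfl⟩ := hfin.mem_toFinset.1 hz
    refine algebraic_of_finite (hfin.subset ?_)
    rintro w ⟨τ, rfl⟩
    obtain ⟨L', hL', h⟩ := bch_conj hb hL τ
    exact ⟨L', hL', j, hj, k, hk, h j hj k hk⟩
  · exact hfin.mem_toFinset.2 ⟨L, hL, j, hj, k, hk, rfl⟩

end Pool.Agent.Work.MP_8efaaa_nt.R
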