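import Mathlib
import Pool.Agent.Work.CM.Tw4
import Pool.Agent.Work.CM.Tw5
import Pool.Agent.Work.MP_8efaaa_nt.R.CfDefs
import Pool.Agent.Work.MP_8efaaa_nt.R.AInt

/-!
# R/CfF (S-M): the squares of the values `S_j`

For `Two N L` and `z ∉ L`: `sg N L z ^ 2 = wp L z + 2 ev N L`: with `e = ev N L`, `x = wp N z` (`x ≠ e` by `Two.wp_ne`):
`wpd N z ^ 2 = 4 x ^ 3 - g2 x - g3 = 4 (x - e) (x ^ 2 + e x + e ^ 2 - g2 / 4)` (`IsLat.ode`, `Two.cubic`), and `wp L z = x + (12 e ^ 2 - g2) / (4 (x - e))` (`Two.wp_eq`), so both sides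
are `(x ^ 2 + e x + e ^ 2 - g2 / 4) / (x - e)`. Apply it to `N = Ch M w (j+2)`, `L = Ch M w (j+1)` (`two_Ch`), `z = 2 ^ j w`, which is in `Ch M w j` and not in
`Ch M w (j+1)` (else `Ch M w j ≤ Ch M w (j+1)`, against `two_Ch`), so `wp L z = ev (Ch M w (j+1)) (Ch M w j)` (`Two.ev_eq`).
-/

set_option autoImplicit false

namespace Pool.Agent.Work.MP_8efaaa_nt.R

open Pool.Agent.Work.CM
open scoped Pointwise

variable {M : Submodule ℤ ℂ} {w : ℂ}

theorem cf_sg_sq {N L : Submodule ℤ ℂ} (h : Two N L) {z : ℂ} (hz : z ∉ L) :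
    sg N L z ^ 2 = wp L z + 2 * ev N L := by
  have hx := h.wp_ne hz
  have hx0 : wp N z - ev N L ≠ 0 := sub_ne_zero.2 hx
  have hzN : z ∉ N := fun h1 => hz (h.le h1)
  have h1 := h.lat.ode hzN
  have h2 := h.cubic
  rw [h.wp_eq hz]
  unfold sg
  rw [div_pow, h1]
  field_simp
  linear_combination (4 : ℂ) * h2

theorem cf_SS_sq (h : Fr M w) {j : ℕ} (hj : j ≤ 3) :
    SS M w j ^ 2 = tj (fun k => Ch M w k) j := by
  have h1 : Two (Ch M w (j + 1)) (Ch M w j) := two_Ch h (by omega)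
  have h2 : Two (Ch M w (j + 2)) (Ch M w (j + 1)) := two_Ch h (by omega)
  have hmem : (2 : ℂ) ^ j * w ∈ Ch M w j :=
    (le_sup_right : Submodule.span ℤ {(2 : ℂ) ^ j * w} ≤ _) (Submodule.mem_span_singleton_self _)
  have hnmem : (2 : ℂ) ^ j * w ∉ Ch M w (j + 1) := by
    intro h3
    obtain ⟨u, hu, hu', -⟩ := h1.ex
    apply hu'
    have h4 : Ch M w j ≤ Ch M w (j + 1) := by
      refine sup_le le_sup_left ?_
      rw [Submodule.span_singleton_le_iff_mem]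
      exact h3
    exact h4 hu
  have h5 := cf_sg_sq h2 hnmem
  unfold SS tj
  rw [h5, h1.ev_eq hmem hnmem]

end Pool.Agent.Work.MP_8efaaa_nt.R
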