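import Mathlib
import Pool.Agent.Work.MP_8efaaa_nt.R.CfDefs
import Pool.Agent.Work.MP_8efaaa_nt.R.CfB
import Pool.Agent.Work.MP_8efaaa_nt.R.AInt

/-!
# R/CfG (M): the chain of an odd ideal

`two`: `two_Ch hfr`. `inK`: the generators `8 σ = 4 + 4 s`, `1`, `2 ^ k σ / 4 = 2 ^ k (1 + s) / 8` and the elements of `8 • iv c` are images of elements of `K` (`InK` is closed under sums;
`Submodule.mem_sup`, `Submodule.mem_span_singleton`, `Submodule.mem_span_pair`).
`stab`: `La s 3 = span {8 σ, 1}`, so it is enough that `8 σ x ∈ Ch (MM s c) (w0 s) k` for `x ∈ Ch (MM s c) (w0 s) k`, and by linearity for the generators (`σ = (1 + φ s) / 2`,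
`φ = algebraMap K ℂ`, `n = (1 + a) / 2`, an integer; `σ ^ 2 = σ - n / 2` because `s ^ 2 = -a`):
`x = 8 σ`: `64 σ ^ 2 = 8 (8 σ) - 32 n`; `x = 1`: clear; `x = 8 y` with `y ∈ iv c`: `8 σ = φ (4 + 4 s)` and `(4 + 4 s) y ∈ iv c` because `4 + 4 s` is an algebraic integer
(`s ^ 2 + a = 0`); `x = 2 ^ k σ / 4`: `8 σ x = 2 ^ (k + 1) σ ^ 2 = 8 (2 ^ k σ / 4) - 2 ^ k n`.
-/

set_option autoImplicit false

namespace Pool.Agent.Work.MP_8efaaa_nt.R

open NumberField Pool.Agent.Work.CM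
open scoped Pointwise nonZeroDivisors

variable {K : Type*} [Field K] [NumberField K] [Algebra K ℂ] {a : ℕ} {s : K}

/-- The image of `K` as a submodule. -/
private def rK (K : Type*) [Field K] [Algebra K ℂ] : Submodule ℤ ℂ :=
  LinearMap.range ((algebraMap K ℂ : K →+* ℂ) : K →+ ℂ).toIntLinearMap

private theorem mem_rK {K : Type*} [Field K] [Algebra K ℂ] {z : ℂ} :
    z ∈ rK K ↔ ∃ x : K, algebraMap K ℂ x = z := Iff.rfl

private theorem sq_phi (hb : Base5 K a s) : (algebraMap K ℂ s) ^ 2 = -(a : ℂ) := by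
  rw [← map_pow, hb.sq, map_neg, map_natCast]

/-- `s` as an integer. -/
private theorem exS (hb : Base5 K a s) : ∃ S : 𝓞 K, algebraMap (𝓞 K) K S = s := by
  have h : IsIntegral ℤ s := by
    refine ⟨Polynomial.X ^ 2 + Polynomial.C (a : ℤ), ?_, ?_⟩
    · exact Polynomial.monic_X_pow_add_C _ two_ne_zero
    · rw [Polynomial.eval₂_add, Polynomial.eval₂_pow, Polynomial.eval₂_X, Polynomial.eval₂_C,
        hb.sq]
      push_cast
      ring
  exact ⟨⟨s, h⟩, rfl⟩

/-- Multiplication by `8 σ` preserves the lattice of the ideal. -/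
private theorem iv_stab (hb : Base5 K a s) (c : Ideal (𝓞 K)) {y : ℂ} (hy : y ∈ iv c) :
    (4 + 4 * algebraMap K ℂ s) * y ∈ iv c := by
  obtain ⟨x, hx, rfl⟩ := hy
  obtain ⟨S, hS⟩ := exS hb
  refine ⟨(4 + 4 * s) * x, fun z hz => ?_, ?_⟩
  · obtain ⟨t, ht⟩ := hx z hz
    refine ⟨(4 + 4 * S) * t, ?_⟩
    rw [map_mul, map_add, map_mul, hS, ht, map_ofNat]
    ring
  · rw [map_mul, map_add, map_mul, map_ofNat]

private theorem nn (hb : Base5 K a s) : ∃ n : ℤ, (1 + (a : ℂ)) = 2 * n := by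
  have h := hb.mod
  refine ⟨((1 + a : ℕ) / 2 : ℕ), ?_⟩
  have h1 : 1 + a = 2 * ((1 + a) / 2) := by omega
  have h2 : ((1 + a : ℕ) : ℂ) = ((2 * ((1 + a) / 2) : ℕ) : ℂ) := by rw [← h1]
  push_cast at h2
  push_cast
  exact h2

/-- Multiplication by `8 σ` preserves the chain. -/
private theorem ch_stab (hb : Base5 K a s) (c : Ideal (𝓞 K)) (k : ℕ) {x : ℂ}
    (hx : x ∈ Ch (MM s c) (w0 s) k) :
    (4 + 4 * algebraMap K ℂ s) * x ∈ Ch (MM s c) (w0 s) k := by
  obtain ⟨n, hn⟩ := nn hb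
  have hs := sq_phi hb
  set f := algebraMap K ℂ s with hf
  have hle : Ch (MM s c) (w0 s) k ≤
      (Ch (MM s c) (w0 s) k).comap (LinearMap.mulLeft ℤ (4 + 4 * f)) := by
    have h1 : (1 : ℂ) ∈ Ch (MM s c) (w0 s) k :=
      Submodule.mem_sup_left (Submodule.mem_sup_left
        (Submodule.subset_span (Set.mem_insert_of_mem _ rfl)))
    have h8 : (4 + 4 * f) ∈ Ch (MM s c) (w0 s) k := by
      refine Submodule.mem_sup_left (Submodule.mem_sup_left ?_)
      have h9 : (4 + 4 * f) = (2 : ℂ) ^ 3 * ((1 + f) / 2) := by ring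
      rw [h9]
      exact Submodule.subset_span (Set.mem_insert _ _)
    have hw : (2 : ℂ) ^ k * w0 s ∈ Ch (MM s c) (w0 s) k :=
      Submodule.mem_sup_right (Submodule.subset_span rfl)
    refine sup_le (sup_le (Submodule.span_le.2 ?_) ?_) (Submodule.span_le.2 ?_)
    · rintro z (rfl | rfl)
      · show (4 + 4 * f) * ((2 : ℂ) ^ 3 * ((1 + f) / 2)) ∈ Ch (MM s c) (w0 s) k
        have h2 : (4 + 4 * f) * ((2 : ℂ) ^ 3 * ((1 + f) / 2)) =
            (8 : ℤ) • (4 + 4 * f) - (32 * n : ℤ) • (1 : ℂ) := by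
          rw [zsmul_eq_mul, zsmul_eq_mul]
          push_cast
          linear_combination 16 * hs - 16 * hn
        rw [h2]
        exact Submodule.sub_mem _ (Submodule.smul_mem _ _ h8) (Submodule.smul_mem _ _ h1)
      · show (4 + 4 * f) * 1 ∈ Ch (MM s c) (w0 s) k
        rw [mul_one]
        exact h8
    · intro z hz
      rw [Submodule.mem_smul_pointwise_iff_exists] at hz
      obtain ⟨y, hy, rfl⟩ := hz
      show (4 + 4 * f) * ((8 : ℂ) • y) ∈ Ch (MM s c) (w0 s) k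
      have h2 : (4 + 4 * f) * ((8 : ℂ) • y) = (8 : ℂ) • ((4 + 4 * f) * y) := by
        rw [smul_eq_mul, smul_eq_mul]
        ring
      rw [h2]
      exact Submodule.mem_sup_left (Submodule.mem_sup_right
        (Submodule.smul_mem_pointwise_smul _ _ _ (iv_stab hb c hy)))
    · rintro z rfl
      show (4 + 4 * f) * ((2 : ℂ) ^ k * w0 s) ∈ Ch (MM s c) (w0 s) k
      have h2 : (4 + 4 * f) * ((2 : ℂ) ^ k * w0 s) =
          (8 : ℤ) • ((2 : ℂ) ^ k * w0 s) - (2 ^ k * n : ℤ) • (1 : ℂ) := by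
        rw [zsmul_eq_mul, zsmul_eq_mul]
        unfold w0
        rw [← hf]
        push_cast
        linear_combination (2 : ℂ) ^ k / 2 * hs - (2 : ℂ) ^ k / 2 * hn
      rw [h2]
      exact Submodule.sub_mem _ (Submodule.smul_mem _ _ hw) (Submodule.smul_mem _ _ h1)
  exact hle hx

theorem bch_MM (hb : Base5 K a s) {c : Ideal (𝓞 K)} (hfr : Fr (MM s c) (w0 s)) :
    BCh K (La s 3) (fun k => Ch (MM s c) (w0 s) k) := by
  refine ⟨fun k hk => two_Ch hfr hk, fun k _ => ?_, fun k _ => ?_⟩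
  · have hle : Ch (MM s c) (w0 s) k ≤ rK K := by
      refine sup_le (sup_le (Submodule.span_le.2 ?_) ?_) (Submodule.span_le.2 ?_)
      · rintro z (rfl | rfl)
        · refine ⟨2 ^ 3 * ((1 + s) / 2), ?_⟩
          show algebraMap K ℂ (2 ^ 3 * ((1 + s) / 2)) = _
          rw [map_mul, map_pow, map_div₀, map_add, map_one, map_ofNat]
        · exact ⟨1, map_one (algebraMap K ℂ)⟩
      · intro z hz
        rw [Submodule.mem_smul_pointwise_iff_exists] at hz
        obtain ⟨y, ⟨x, _, rfl⟩, rfl⟩ := hz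
        refine ⟨8 * x, ?_⟩
        show algebraMap K ℂ (8 * x) = _
        rw [map_mul, map_ofNat, smul_eq_mul]
      · rintro z rfl
        refine ⟨2 ^ k * ((1 + s) / 8), ?_⟩
        show algebraMap K ℂ (2 ^ k * ((1 + s) / 8)) = _
        rw [map_mul, map_pow, map_div₀, map_add, map_one, map_ofNat, map_ofNat]
        rfl
    intro l hl
    exact hle hl
  · rw [Submodule.mul_le]
    intro m hm x hx
    unfold La at hm
    rw [Submodule.mem_span_pair] at hm
    obtain ⟨u, v, rfl⟩ := hm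
    have h1 : (u • ((2 : ℂ) ^ 3 * ((1 + algebraMap K ℂ s) / 2)) + v • (1 : ℂ)) * x =
        u • ((4 + 4 * algebraMap K ℂ s) * x) + v • x := by
      rw [zsmul_eq_mul, zsmul_eq_mul, zsmul_eq_mul, zsmul_eq_mul]
      ring
    rw [h1]
    exact Submodule.add_mem _ (Submodule.smul_mem _ _ (ch_stab hb c k hx))
      (Submodule.smul_mem _ _ hx)

end Pool.Agent.Work.MP_8efaaa_nt.R
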