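import Mathlib
import Pool.Agent.Work.MP_8efaaa_nt.R.CfDefs
import Pool.Agent.Work.MP_8efaaa_nt.R.CfE
import Pool.Agent.Work.MP_8efaaa_nt.R.CfF
import Pool.Agent.Work.MP_8efaaa_nt.R.CfG

/-!
# R/CfH (S-M): the values are algebraic and finite in number

`T0` = the set of `tj_fin` (for the chains `Ch (MM s c) (w0 s) k`, `bch_MM`). `(S_j / S_k) ^ 2 = tj j / tj k ∈ T0` (`cf_SS_sq`, `SS_ne`). The set `T1` of all square roots of the
elements of `T0` is finite and its elements are algebraic; `Kc = (S_1 / S_3 - S_2 / S_3) / 2` and `Vc = (S_0 / S_2 - S_1 / S_2) / 2` are in the finite set `T2` of the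
`(x - y) / 2` with `x, y ∈ T1`; `Zc ^ 2 = 1 + Kc ^ 2` (`fz_sq`), so `Zc` is in the finite set `T3` of the square roots of the `1 + x ^ 2`, `x ∈ T2`
(`IsAlgebraic` of sums, products, roots: `IsAlgebraic.pow`-like `isAlgebraic_of_pow`, `IsAlgebraic.add`, ...).
-/

set_option autoImplicit false

namespace Pool.Agent.Work.MP_8efaaa_nt.R

open NumberField Pool.Agent.Work.CM
open scoped Pointwise nonZeroDivisors

variable {K : Type*} [Field K] [NumberField K] [Algebra K ℂ] {a : ℕ} {s : K}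

/-- The two square roots of a complex number. -/
private theorem cfh_sq (z : ℂ) : ∃ S : Finset ℂ, ∀ x : ℂ, x ∈ S ↔ x ^ 2 = z := by
  classical
  obtain ⟨r, hr⟩ := IsAlgClosed.exists_pow_nat_eq z (n := 2) (by norm_num)
  refine ⟨{r, -r}, fun x => ?_⟩
  rw [Finset.mem_insert, Finset.mem_singleton, ← hr]
  exact sq_eq_sq_iff_eq_or_eq_neg.symm

theorem c_fin' (hb : Base5 K a s)
    (hfr : ∀ c : Ideal (𝓞 K), OddI c → Fr (MM s c) (w0 s)) : ∃ T : Finset ℂ,
    (∀ z ∈ T, IsAlgebraic K z) ∧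
    ∀ c : Ideal (𝓞 K), OddI c → Zc s c ∈ T ∧ Kc s c ∈ T ∧ Vc s c ∈ T := by
  classical
  obtain ⟨T0, h0, hT0⟩ := tj_fin hb
  choose sq hsq using cfh_sq
  have two_alg : IsAlgebraic K (2 : ℂ) := by
    have h := isAlgebraic_algebraMap (R := K) (A := ℂ) (2 : K)
    rwa [map_ofNat] at h
  have one_alg : IsAlgebraic K (1 : ℂ) := isAlgebraic_one
  have sq_alg : ∀ z : ℂ, IsAlgebraic K z → ∀ x ∈ sq z, IsAlgebraic K x := by
    intro z hz x hx
    rw [hsq] at hx
    exact IsAlgebraic.of_pow (n := 2) (by norm_num) (by rwa [hx])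
  let T1 : Finset ℂ := T0.biUnion sq
  have a1 : ∀ x ∈ T1, IsAlgebraic K x := by
    intro x hx
    obtain ⟨z, hz, hxz⟩ := Finset.mem_biUnion.1 hx
    exact sq_alg z (h0 z hz) x hxz
  let T2 : Finset ℂ := (T1 ×ˢ T1).image fun p => (p.1 - p.2) / 2
  have a2 : ∀ x ∈ T2, IsAlgebraic K x := by
    intro x hx
    obtain ⟨p, hp, rfl⟩ := Finset.mem_image.1 hx
    rw [Finset.mem_product] at hp
    show IsAlgebraic K ((p.1 - p.2) / 2)
    rw [div_eq_mul_inv]
    exact ((a1 _ hp.1).sub (a1 _ hp.2)).mul two_alg.inv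
  let T3 : Finset ℂ := T2.biUnion fun x => sq (1 + x ^ 2)
  have a3 : ∀ x ∈ T3, IsAlgebraic K x := by
    intro x hx
    obtain ⟨z, hz, hxz⟩ := Finset.mem_biUnion.1 hx
    exact sq_alg _ (one_alg.add ((a2 z hz).pow 2)) x hxz
  refine ⟨T2 ∪ T3, fun z hz => ?_, fun c hc => ?_⟩
  · rcases Finset.mem_union.1 hz with h | h
    · exact a2 z h
    · exact a3 z h
  · have h := hfr c hc
    have hL := bch_MM hb h
    have hq : ∀ j ≤ 3, ∀ k ≤ 3, SS (MM s c) (w0 s) j / SS (MM s c) (w0 s) k ∈ T1 := by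
      intro j hj k hk
      refine Finset.mem_biUnion.2 ⟨_, hT0 _ hL j hj k hk, ?_⟩
      rw [hsq, div_pow, cf_SS_sq h hj, cf_SS_sq h hk]
    have hd : ∀ x ∈ T1, ∀ y ∈ T1, (x - y) / 2 ∈ T2 := fun x hx y hy =>
      Finset.mem_image.2 ⟨(x, y), Finset.mk_mem_product hx hy, rfl⟩
    have hK : Kc s c ∈ T2 := by
      have e : Kc s c = (SS (MM s c) (w0 s) 1 / SS (MM s c) (w0 s) 3 -
          SS (MM s c) (w0 s) 2 / SS (MM s c) (w0 s) 3) / 2 := by
        unfold Kc fk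
        ring
      rw [e]
      exact hd _ (hq 1 (by norm_num) 3 le_rfl) _ (hq 2 (by norm_num) 3 le_rfl)
    have hV : Vc s c ∈ T2 := by
      have e : Vc s c = (SS (MM s c) (w0 s) 0 / SS (MM s c) (w0 s) 2 -
          SS (MM s c) (w0 s) 1 / SS (MM s c) (w0 s) 2) / 2 := by
        unfold Vc fv
        ring
      rw [e]
      exact hd _ (hq 0 (by norm_num) 2 (by norm_num)) _ (hq 1 (by norm_num) 2 (by norm_num))
    refine ⟨Finset.mem_union_right _ ?_, Finset.mem_union_left _ hK, Finset.mem_union_left _ hV⟩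
    refine Finset.mem_biUnion.2 ⟨Kc s c, hK, ?_⟩
    rw [hsq]
    exact fz_sq h

end Pool.Agent.Work.MP_8efaaa_nt.R
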