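import Mathlib
import Pool.Agent.Work.MP_8efaaa_nt.R.BInt
import Pool.Agent.Work.MP_8efaaa_nt.R.CTr
import Pool.Agent.Work.MP_8efaaa_nt.R.CTr2
import Pool.Agent.Work.MP_8efaaa_nt.R.CKrC
import Pool.Agent.Work.MP_8efaaa_nt.R.CfH

/-!
# Interface of block C: the lattices of the ideals
-/

set_option autoImplicit false

namespace Pool.Agent.Work.MP_8efaaa_nt.R

open NumberField Pool.Agent.Work.CM
open scoped Pointwise nonZeroDivisors

universe u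

variable {K : Type u} [Field K] [NumberField K] [Algebra K ℂ] {a : ℕ} {s : K}

theorem fr_MM (hb : Base5 K a s) {c : Ideal (𝓞 K)} (hc : OddI c) : Fr (MM s c) (w0 s) :=
  fr_sup hb hc

/-- translations by the elements `x + 4 y s` -/
theorem c_tr1 (hb : Base5 K a s) {c : Ideal (𝓞 K)} (hc : OddI c) {x y : ℤ} (hx : Odd x) {δ : 𝓞 K}
    (hδ : algebraMap (𝓞 K) K δ = x + 4 * y * s) :
    Zc s (Ideal.span {δ} * c) = e8 (x + 4 * y) * Zc s c ∧
      Kc s (Ideal.span {δ} * c) = Kc s c ∧ Vc s (Ideal.span {δ} * c) = Vc s c :=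
  tr_one hb hc hx hδ

/-- the image of the point under `(1 + i) ^ 3` depends only on the class -/
theorem c_tr2 (hb : Base5 K a s) {c : Ideal (𝓞 K)} (hc : OddI c) {δ : 𝓞 K}
    (hδ : OddI (Ideal.span {δ})) :
    (1 - Vc s (Ideal.span {δ} * c) ^ 4) / Vc s (Ideal.span {δ} * c) ^ 2 =
        (1 - Vc s c ^ 4) / Vc s c ^ 2 ∧
      Uc s (Ideal.span {δ} * c) * (1 + Vc s (Ideal.span {δ} * c) ^ 4) /
        Vc s (Ideal.span {δ} * c) ^ 3 = Uc s c * (1 + Vc s c ^ 4) / Vc s c ^ 3 :=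
  tr_two hb hc hδ

/-- the values are algebraic and there are finitely many -/
theorem c_fin (hb : Base5 K a s) : ∃ T : Finset ℂ, (∀ z ∈ T, IsAlgebraic K z) ∧
    ∀ c : Ideal (𝓞 K), OddI c → Zc s c ∈ T ∧ Kc s c ∈ T ∧ Vc s c ∈ T :=
  c_fin' hb fun _ hc => fr_MM hb hc

/-- The Kronecker congruence for the multiplication by a prime ideal of degree one: `V` is a
valuation of the complex numbers which induces the valuation of `q` on `K`. -/
theorem c_kron (hb : Base5 K a s) {Γ : Type*} [LinearOrderedCommGroupWithZero Γ]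
    (V : Valuation ℂ Γ) {l : ℕ} (hl : l.Prime) (hl2 : l ≠ 2) (hla : ¬ l ∣ a)
    {q : Ideal (𝓞 K)} (hq : q.IsPrime) (hql : Ideal.absNorm q = l)
    (hV1 : ∀ x : 𝓞 K, V (algebraMap K ℂ (algebraMap (𝓞 K) K x)) ≤ 1)
    (hV2 : ∀ x : 𝓞 K, V (algebraMap K ℂ (algebraMap (𝓞 K) K x)) < 1 ↔ x ∈ q)
    (hgood : ∀ c : Ideal (𝓞 K), OddI c → V (Zc s c) = 1 ∧ V (2 - Zc s c ^ 2) = 1)
    {c : Ideal (𝓞 K)} (hc : OddI c) :
    (V (Zc s c) ≤ 1 ∧ V (Zc s (q * c) - Zc s c ^ l) < 1) ∧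
    (V (Kc s c) ≤ 1 ∧ V (Kc s (q * c) - Kc s c ^ l) < 1) ∧
    (V (Vc s c) ≤ 1 ∧ V (Vc s (q * c) - Vc s c ^ l) < 1) :=
  kron_iv hb V hl hl2 hla hq hql hV1 hV2 hgood hc

end Pool.Agent.Work.MP_8efaaa_nt.R
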