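import Mathlib
import Pool.Agent.Work.MP_8efaaa_nt.R.CInt
import Pool.Agent.Work.MP_8efaaa_nt.R.DCtx
import Pool.Agent.Work.MP_8efaaa_nt.R.DVal

/-!
# Block D, DFrob: the Frobenius elements act by prime ideals of degree one

Let `T` be the finite set of `DCtx.fin`. `S₁` = `T`, the elements `2 - t ^ 2` (`t ∈ T`), `ζ`, and all
`σ t - t'` (`σ ∈ Gal (F / K)` (finite), `t, t' ∈ T`) and `σ ζ - ζ ^ j` (`j < 8`). `N` = product of `2 a`, the
`N` of `good_val` for `S₁` and of `frb_val` for `T ∪ {ζ}`.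

Given `l, Q, σ`: `V` from `exists_val Q`, `V' = V.comap (algebraMap F ℂ)`. `q = Q.comap` is prime and
`absNorm q = l`, so `l ∈ q` (`Ideal.absNorm_mem`), `V l < 1`. `c_kron` with `V`, `q` (`hV1`, `hV2` by
`IsScalarTower.algebraMap_apply`: the composite `𝓞 K → K → F → ℂ`; `l ≠ 2` and `l ∤ a` because `2 a ∣ N`;
`hgood`: `Zc ≠ 0` and `2 - Zc ^ 2 ≠ 0` by `fr_MM`, `fz_ne`, `fz_ne'`, and `good_val`) gives
`V' (z (q c) - z c ^ l) < 1` (the elements `q * c` are odd), `frb_val` gives `V' (σ (z c) - z c ^ l) < 1`,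
so `V' (σ (z c) - z (q c)) < 1`, an element of `S₁`, so it is `0`. The same for `k`, `v`, and for `ζ`:
`V' (σ ζ - ζ ^ l) < 1`, and `ζ ^ l = ζ ^ (l % 8)`.
-/

set_option autoImplicit false

namespace Pool.Agent.Work.MP_8efaaa_nt.R

open NumberField Pool.Agent.Work.CM

variable {K F : Type*} [Field K] [NumberField K] [Algebra K ℂ] [Field F] [NumberField F]
  [Algebra K F] [Algebra F ℂ] [IsScalarTower K F ℂ] {a : ℕ} {s : K} {ζ : F}
  {z k v : Ideal (𝓞 K) → F}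

theorem frob_act (hb : Base5 K a s) (h : DCtx K F s ζ z k v) : ∃ N : ℕ, N ≠ 0 ∧ 2 ∣ N ∧
    ∀ (l : ℕ) (Q : Ideal (𝓞 F)) (σ : F ≃ₐ[K] F), l.Prime → ¬ l ∣ N → Q.IsPrime →
      Ideal.absNorm (Q.comap (algebraMap (𝓞 K) (𝓞 F))) = l → Frb σ Q l →
      σ ζ = ζ ^ l ∧ DAct z k v σ (Q.comap (algebraMap (𝓞 K) (𝓞 F))) := by
  classical
  have hfd : FiniteDimensional K F := FiniteDimensional.right ℚ K F
  obtain ⟨T, hT⟩ := h.fin
  have hfin : Finite (F ≃ₐ[K] F) := inferInstance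
  have := Fintype.ofFinite (F ≃ₐ[K] F)
  set S : Finset F := ((T ∪ T.image (fun t => 2 - t ^ 2)) ∪
    ((Finset.univ : Finset (F ≃ₐ[K] F)) ×ˢ (T ×ˢ T)).image (fun p => p.1 p.2.1 - p.2.2)) ∪
    ((Finset.univ : Finset (F ≃ₐ[K] F)) ×ˢ Finset.range 8).image
      (fun p => p.1 ζ - ζ ^ p.2) with hS
  have s1 : ∀ t ∈ T, t ∈ S := fun t ht => by simp [hS, ht]
  have s2 : ∀ t ∈ T, 2 - t ^ 2 ∈ S := fun t ht =>
    Finset.mem_union_left _ (Finset.mem_union_left _ (Finset.mem_union_right _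
      (Finset.mem_image_of_mem (fun t => 2 - t ^ 2) ht)))
  have s3 : ∀ (σ : F ≃ₐ[K] F), ∀ t ∈ T, ∀ t' ∈ T, σ t - t' ∈ S := fun σ t ht t' ht' =>
    Finset.mem_union_left _ (Finset.mem_union_right _ (Finset.mem_image.2
      ⟨(σ, t, t'), by simp [ht, ht'], rfl⟩))
  have s4 : ∀ (σ : F ≃ₐ[K] F) (j : ℕ), j < 8 → σ ζ - ζ ^ j ∈ S := fun σ j hj =>
    Finset.mem_union_right _ (Finset.mem_image.2 ⟨(σ, j), by simp [hj], rfl⟩)
  obtain ⟨N1, hN1, hg⟩ := good_val S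
  obtain ⟨N2, hN2, hf⟩ := frb_val (K := K) (insert ζ T)
  have ha0 : a ≠ 0 := by
    have := hb.mod
    omega
  refine ⟨2 * a * N1 * N2, by positivity, ⟨a * N1 * N2, by ring⟩, ?_⟩
  intro l Q σ hl hlN hQ hql hσ
  have hl2 : l ≠ 2 := fun e => hlN (e ▸ ⟨a * N1 * N2, by ring⟩)
  have hla : ¬ l ∣ a := fun e => hlN (e.trans ⟨2 * N1 * N2, by ring⟩)
  have hl1 : ¬ l ∣ N1 := fun e => hlN (e.trans ⟨2 * a * N2, by ring⟩)
  have hl3 : ¬ l ∣ N2 := fun e => hlN (e.trans ⟨2 * a * N1, by ring⟩)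
  obtain ⟨Γ, hΓ, V, hV1, hV2⟩ := exists_val Q hQ
  set q : Ideal (𝓞 K) := Q.comap (algebraMap (𝓞 K) (𝓞 F)) with hq
  have hqp : q.IsPrime := Ideal.IsPrime.comap _
  have hlQ : (l : 𝓞 F) ∈ Q := by
    have h1 : ((Ideal.absNorm q : ℕ) : 𝓞 K) ∈ q := Ideal.absNorm_mem q
    rw [hql, hq, Ideal.mem_comap, map_natCast] at h1
    exact h1
  set V' : Valuation F Γ := V.comap (algebraMap F ℂ) with hV'
  have v1 : ∀ x : 𝓞 F, V' (algebraMap (𝓞 F) F x) ≤ 1 := hV1
  have v2 : ∀ x : 𝓞 F, V' (algebraMap (𝓞 F) F x) < 1 ↔ x ∈ Q := hV2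
  have vl : V' (l : F) < 1 := by
    have h1 := (v2 (l : 𝓞 F)).2 hlQ
    rwa [map_natCast] at h1
  have hgood := hg Γ V' l hl hl1 v1 vl
  have hfrob := hf Γ V' l Q σ hl hl3 v1 v2 vl hσ
  have htower : ∀ x : 𝓞 K, algebraMap K ℂ (algebraMap (𝓞 K) K x) =
      algebraMap F ℂ (algebraMap (𝓞 F) F (algebraMap (𝓞 K) (𝓞 F) x)) := by
    intro x
    rw [IsScalarTower.algebraMap_apply K F ℂ, ← IsScalarTower.algebraMap_apply (𝓞 K) (𝓞 F) F,
      ← IsScalarTower.algebraMap_apply (𝓞 K) K F]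
  have hne : ∀ c, OddI c → z c ≠ 0 ∧ 2 - z c ^ 2 ≠ 0 := by
    intro c hc
    have hfr := fr_MM hb hc
    have e1 := fz_ne hfr
    have e2 := fz_ne' hfr
    constructor
    · intro e
      apply e1
      have := h.hz c hc
      rw [e, map_zero] at this
      exact this.symm
    · intro e
      apply e2
      have e3 : algebraMap F ℂ (2 - z c ^ 2) = 2 - Zc s c ^ 2 := by
        rw [map_sub, map_pow, h.hz c hc, map_ofNat]
      rw [e, map_zero] at e3
      exact e3.symm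
  have hgood' : ∀ c : Ideal (𝓞 K), OddI c → V (Zc s c) = 1 ∧ V (2 - Zc s c ^ 2) = 1 := by
    intro c hc
    have e3 : algebraMap F ℂ (2 - z c ^ 2) = 2 - Zc s c ^ 2 := by
      rw [map_sub, map_pow, h.hz c hc, map_ofNat]
    refine ⟨?_, ?_⟩
    · rw [← h.hz c hc]
      exact (hgood _ (s1 _ (hT c hc).1)).2 (hne c hc).1
    · rw [← e3]
      exact (hgood _ (s2 _ (hT c hc).1)).2 (hne c hc).2
  have hlodd : Odd l := hl.odd_of_ne_two hl2
  -- a difference in `S` of value less than one is zero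
  have hzero : ∀ x y : F, x - y ∈ S → ∀ w : F, V' (x - w) < 1 → V' (y - w) < 1 → x = y := by
    intro x y hxy w h1 h2
    by_contra hne'
    have h3 := (hgood _ hxy).2 (sub_ne_zero.2 hne')
    have h4 : V' (x - y) < 1 := by
      have : x - y = (x - w) - (y - w) := by ring
      rw [this]
      exact V'.map_sub_lt h1 h2
    exact absurd h3 h4.ne
  refine ⟨?_, ?_⟩
  · have h1 := hfrob ζ (Finset.mem_insert_self _ _)
    have h8 : ζ ^ 8 = 1 := by
      have : ζ ^ 8 = (ζ ^ 4) ^ 2 := by ring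
      rw [this, h.z8]
      ring
    have h2 : ζ ^ l = ζ ^ (l % 8) := by
      conv_lhs => rw [← Nat.div_add_mod l 8, pow_add, pow_mul, h8, one_pow, one_mul]
    rw [h2]
    refine hzero _ _ (s4 σ _ (Nat.mod_lt _ (by norm_num))) (ζ ^ l) h1 ?_
    rw [← h2, sub_self, map_zero]
    exact zero_lt_one
  · intro c hc
    have hqc : OddI (q * c) := by
      unfold OddI at hc ⊢
      rw [map_mul, hql]
      exact hlodd.mul hc
    obtain ⟨k1, k2, k3⟩ := c_kron hb V hl hl2 hla hqp hql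
      (fun x => by rw [htower]; exact hV1 _) (fun x => by rw [htower, hV2, hq, Ideal.mem_comap])
      hgood' hc
    refine ⟨?_, ?_, ?_⟩
    · refine hzero _ _ (s3 σ _ (hT c hc).1 _ (hT _ hqc).1) (z c ^ l)
        (hfrob _ (Finset.mem_insert_of_mem (hT c hc).1)) ?_
      have e : V' (z (q * c) - z c ^ l) = V (Zc s (q * c) - Zc s c ^ l) := by
        rw [hV', Valuation.comap_apply, map_sub, map_pow, h.hz _ hqc, h.hz _ hc]
      rw [e]
      exact k1.2
    · refine hzero _ _ (s3 σ _ (hT c hc).2.1 _ (hT _ hqc).2.1) (k c ^ l)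
        (hfrob _ (Finset.mem_insert_of_mem (hT c hc).2.1)) ?_
      have e : V' (k (q * c) - k c ^ l) = V (Kc s (q * c) - Kc s c ^ l) := by
        rw [hV', Valuation.comap_apply, map_sub, map_pow, h.hk _ hqc, h.hk _ hc]
      rw [e]
      exact k2.2
    · refine hzero _ _ (s3 σ _ (hT c hc).2.2 _ (hT _ hqc).2.2) (v c ^ l)
        (hfrob _ (Finset.mem_insert_of_mem (hT c hc).2.2)) ?_
      have e : V' (v (q * c) - v c ^ l) = V (Vc s (q * c) - Vc s c ^ l) := by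
        rw [hV', Valuation.comap_apply, map_sub, map_pow, h.hv _ hqc, h.hv _ hc]
      rw [e]
      exact k3.2

end Pool.Agent.Work.MP_8efaaa_nt.R
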