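import Mathlib
import Pool.Agent.Work.MP_a5099b_nt.D5.ZLog

/-!
# Block E: the sum over the primes of degree one, in all universes

`zlog` (MP_a5099b_nt, D5/ZLog) for number fields in `Type`, transported along an isomorphism with
a subfield of the complex numbers.
-/

set_option autoImplicit false

namespace Pool.Agent.Work.MP_8efaaa_nt.R

open NumberField

/-- the number of ideals of norm `q` -/
noncomputable def dU (M : Type*) [Field M] [NumberField M] (q : ℕ) : ℕ :=
  Nat.card {I : Ideal (𝓞 M) // Ideal.absNorm I = q}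

theorem absNorm_map_equiv {A B : Type*} [CommRing A] [IsDedekindDomain A] [Module.Free ℤ A]
    [CommRing B] [IsDedekindDomain B] [Module.Free ℤ B] (e : A ≃+* B) (I : Ideal A) :
    Ideal.absNorm (I.map (e : A →+* B)) = Ideal.absNorm I := by
  rw [Ideal.absNorm_apply, Submodule.cardQuot_apply, Ideal.absNorm_apply, Submodule.cardQuot_apply]
  exact (Nat.card_congr (Ideal.quotientEquiv I _ e rfl).toEquiv).symm

theorem dU_congr {M M' : Type*} [Field M] [NumberField M] [Field M'] [NumberField M']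
    (e : M ≃+* M') (q : ℕ) : dU M q = dU M' q := by
  let f : 𝓞 M ≃+* 𝓞 M' := RingOfIntegers.mapRingEquiv e
  refine Nat.card_congr
    { toFun := fun I => ⟨I.1.map (f : 𝓞 M →+* 𝓞 M'), by rw [absNorm_map_equiv, I.2]⟩
      invFun := fun I => ⟨I.1.map (f.symm : 𝓞 M' →+* 𝓞 M), by rw [absNorm_map_equiv, I.2]⟩
      left_inv := fun I => ?_
      right_inv := fun I => ?_ }
  · apply Subtype.ext
    show (I.1.map (f : 𝓞 M →+* 𝓞 M')).map (f.symm : 𝓞 M' →+* 𝓞 M) = I.1
    rw [Ideal.map_map]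
    have h : (f.symm : 𝓞 M' →+* 𝓞 M).comp (f : 𝓞 M →+* 𝓞 M') = RingHom.id _ := by
      ext x
      simp
    rw [h, Ideal.map_id]
  · apply Subtype.ext
    show (I.1.map (f.symm : 𝓞 M' →+* 𝓞 M)).map (f : 𝓞 M →+* 𝓞 M') = I.1
    rw [Ideal.map_map]
    have h : (f : 𝓞 M →+* 𝓞 M').comp (f.symm : 𝓞 M' →+* 𝓞 M) = RingHom.id _ := by
      ext x
      simp
    rw [h, Ideal.map_id]

/-- the sum over the primes of degree one -/
theorem zlogU (M : Type*) [Field M] [NumberField M] : ∃ C : ℝ, ∀ s : ℝ, 1 < s → s ≤ 2 →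
    Summable (fun q : Nat.Primes => (dU M q : ℝ) * (q : ℝ) ^ (-s)) ∧
    |(∑' q : Nat.Primes, (dU M q : ℝ) * (q : ℝ) ^ (-s)) - Real.log (1 / (s - 1))| ≤ C := by
  obtain ⟨φ⟩ : Nonempty (M →+* ℂ) := inferInstance
  let e : M ≃+* φ.fieldRange := φ.rangeRestrictFieldEquiv
  have hN : NumberField φ.fieldRange :=
    { to_charZero := inferInstance
      to_finiteDimensional :=
        Module.Finite.of_surjective (e : M →+ φ.fieldRange).toRatLinearMap e.surjective }
  obtain ⟨C, hC⟩ := Pool.Agent.SS.DL.zlog φ.fieldRange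
  refine ⟨C, fun s h1 h2 => ?_⟩
  have h3 : ∀ q : ℕ, dU M q = Pool.Agent.SS.DL.dP φ.fieldRange q := fun q => dU_congr e q
  simp only [h3]
  exact hC s h1 h2

end Pool.Agent.Work.MP_8efaaa_nt.R
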