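import Mathlib
import Pool.Agent.Work.MP_8efaaa_nt.R.EZl

/-!
# Block E: fields in which almost all primes of degree one split completely
-/

set_option autoImplicit false

namespace Pool.Agent.Work.MP_8efaaa_nt.R

open NumberField

variable {k k' : Type*} [Field k] [NumberField k] [Field k'] [NumberField k'] [Algebra k k']

theorem card_over {l : ℕ} (hl : l.Prime) (hd : ¬ (l : ℤ) ∣ discr k')
    (h : ∀ P : Ideal (𝓞 k'), P.IsPrime →
      Ideal.absNorm (P.comap (algebraMap (𝓞 k) (𝓞 k'))) = l → Ideal.absNorm P = l)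
    (I : Ideal (𝓞 k)) (hI : Ideal.absNorm I = l) :
    Nat.card (I.primesOver (𝓞 k')) = Module.finrank k k' := by
  classical
  have hp : I.IsPrime := Ideal.isPrime_of_irreducible_absNorm (by rw [hI]; exact hl)
  have h0 : I ≠ ⊥ := by
    rintro rfl
    rw [Ideal.absNorm_bot] at hI
    exact hl.ne_zero hI.symm
  have hm : I.IsMaximal := hp.isMaximal h0
  have hfin : Finite (I.primesOver (𝓞 k')) := inferInstance
  have := Fintype.ofFinite (I.primesOver (𝓞 k'))
  have hsum := Ideal.sum_ramification_inertia_eq_finrank I (𝓞 k')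
  have h1 : ∀ P : I.primesOver (𝓞 k'), P.1.ramificationIdx (𝓞 k) * P.1.inertiaDeg (𝓞 k) = 1 := by
    rintro ⟨P, hP1, hP2⟩
    have hn : Ideal.absNorm P = l := h P hP1 (by
      have h3 : P.comap (algebraMap (𝓞 k) (𝓞 k')) = I := hP2.over.symm
      rw [h3, hI])
    have hmem : ((l : ℤ) : 𝓞 k') ∈ P := by
      have h4 := Ideal.absNorm_mem P
      rw [hn] at h4
      exact_mod_cast h4
    have hunr : Algebra.IsUnramifiedAt ℤ P :=
      (NumberField.not_dvd_discr_iff_forall_mem k' (𝓞 k') (Nat.prime_iff_prime_int.1 hl)).1 hd P hP1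
        hmem
    have he1 : P.ramificationIdx ℤ = 1 := Ideal.ramificationIdx_eq_one_of_isUnramifiedAt
    have he : P.ramificationIdx (𝓞 k) = 1 := by
      have h5 : P.ramificationIdx (𝓞 k) ∣ P.ramificationIdx ℤ :=
        Ideal.ramificationIdx_above_dvd (R := ℤ) I P
      rw [he1] at h5
      exact Nat.dvd_one.1 h5
    have hf : P.inertiaDeg (𝓞 k) = 1 := by
      have h6 := Ideal.absNorm_pow_inertiaDeg I P
      rw [hI, hn] at h6
      exact Nat.pow_right_injective hl.two_le (h6.trans (pow_one l).symm)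
    show P.ramificationIdx (𝓞 k) * P.inertiaDeg (𝓞 k) = 1
    rw [he, hf]
  rw [Finset.sum_congr rfl fun P _ => h1 P, Finset.sum_const, Finset.card_univ, smul_eq_mul,
    mul_one] at hsum
  rw [Nat.card_eq_fintype_card, hsum]
  exact (IsFractionRing.finrank_eq (𝓞 k) k (𝓞 k') k').symm

theorem dU_le {l : ℕ} (hl : l.Prime) (hd : ¬ (l : ℤ) ∣ discr k')
    (h : ∀ P : Ideal (𝓞 k'), P.IsPrime →
      Ideal.absNorm (P.comap (algebraMap (𝓞 k) (𝓞 k'))) = l → Ideal.absNorm P = l) :
    Module.finrank k k' * dU k l ≤ dU k' l := by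
  classical
  have hf1 : Finite {I : Ideal (𝓞 k) // Ideal.absNorm I = l} :=
    Ideal.finite_setOfPred_absNorm_eq (S := 𝓞 k) l
  have hf2 : Finite {I : Ideal (𝓞 k') // Ideal.absNorm I = l} :=
    Ideal.finite_setOfPred_absNorm_eq (S := 𝓞 k') l
  have := Fintype.ofFinite {I : Ideal (𝓞 k) // Ideal.absNorm I = l}
  have h1 : Nat.card (Σ I : {I : Ideal (𝓞 k) // Ideal.absNorm I = l}, I.1.primesOver (𝓞 k')) =
      Module.finrank k k' * dU k l := by
    have h3 : ∀ I : {I : Ideal (𝓞 k) // Ideal.absNorm I = l}, Finite (I.1.primesOver (𝓞 k')) := by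
      intro I
      have hp : I.1.IsPrime := Ideal.isPrime_of_irreducible_absNorm (by rw [I.2]; exact hl)
      have h0 : I.1 ≠ ⊥ := by
        intro h4
        have h5 := I.2
        rw [h4, Ideal.absNorm_bot] at h5
        exact hl.ne_zero h5.symm
      have hm : I.1.IsMaximal := hp.isMaximal h0
      infer_instance
    rw [Nat.card_sigma, Finset.sum_congr rfl fun I _ => card_over hl hd h I.1 I.2,
      Finset.sum_const, Finset.card_univ, smul_eq_mul, mul_comm, dU, Nat.card_eq_fintype_card]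
  rw [← h1]
  refine Nat.card_le_card_of_injective
    (fun x => (⟨x.2.1, h x.2.1 x.2.2.1 (by
      have h3 : x.2.1.comap (algebraMap (𝓞 k) (𝓞 k')) = x.1.1 := x.2.2.2.over.symm
      rw [h3, x.1.2])⟩ : {I : Ideal (𝓞 k') // Ideal.absNorm I = l})) ?_
  rintro ⟨⟨I, hI⟩, ⟨P, hP1, hP2⟩⟩ ⟨⟨J, hJ⟩, ⟨Q, hQ1, hQ2⟩⟩ hPQ
  have h4 : P = Q := congrArg Subtype.val hPQ
  subst h4
  have h5 : I = J := hP2.over.trans hQ2.over.symm
  subst h5
  rfl

end Pool.Agent.Work.MP_8efaaa_nt.R
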