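import Mathlib
import Pool.Agent.Work.MP_8efaaa_nt.R.ESplit

/-!
# Block E: if almost all primes of degree one of `k` split completely in `k'` then `k' = k`

`g = [k' : k]`: `g * dU k q ≤ dU k' q` for the primes `q` outside a finite set, and the sums of `dU q ^ (-s)` are
`log (1 / (s - 1)) + O(1)` for both fields, so `g ≤ 1`.
-/

set_option autoImplicit false

namespace Pool.Agent.Work.MP_8efaaa_nt.R

open NumberField

variable {k k' : Type*} [Field k] [NumberField k] [Field k'] [NumberField k'] [Algebra k k']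

theorem finrank_one (N : ℕ) (hN : N ≠ 0)
    (h : ∀ l : ℕ, l.Prime → ¬ l ∣ N → ∀ P : Ideal (𝓞 k'), P.IsPrime →
      Ideal.absNorm (P.comap (algebraMap (𝓞 k) (𝓞 k'))) = l → Ideal.absNorm P = l) :
    Module.finrank k k' = 1 := by
  classical
  have hg0 : 0 < Module.finrank k k' := Module.finrank_pos
  by_contra hg1
  have hg : 2 ≤ Module.finrank k k' := by omega
  obtain ⟨C1, h1⟩ := zlogU k
  obtain ⟨C2, h2⟩ := zlogU k'
  set g : ℕ := Module.finrank k k' with hgdef
  set D : ℕ := N * (discr k').natAbs with hD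
  have hD0 : D ≠ 0 := mul_ne_zero hN (Int.natAbs_ne_zero.2 (discr_ne_zero k'))
  have hle : ∀ q : Nat.Primes, ¬ (q : ℕ) ∣ D → g * dU k q ≤ dU k' q := by
    intro q hq
    refine dU_le q.2 (fun h3 => hq ?_) (h q q.2 fun h3 => hq (h3.mul_right _))
    exact (Int.natCast_dvd.1 h3).mul_left _
  -- the finite exceptional set
  set B : Nat.Primes → ℝ := fun q => if (q : ℕ) ∣ D then (g : ℝ) * dU k q else 0 with hB
  have hBfin : (Function.support B).Finite := by
    refine Set.Finite.subset (Set.Finite.preimage (f := fun q : Nat.Primes => (q : ℕ))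
      (Subtype.val_injective.injOn) (Nat.divisors D).finite_toSet) ?_
    intro q hq
    have h3 : (q : ℕ) ∣ D := by
      by_contra h4
      exact hq (if_neg h4)
    exact Finset.mem_coe.2 (Nat.mem_divisors.2 ⟨h3, hD0⟩)
  have hBs : Summable B := summable_of_finite_support hBfin
  have key : ∀ s : ℝ, 1 < s → s ≤ 2 →
      ((g : ℝ) - 1) * Real.log (1 / (s - 1)) ≤ C2 + g * C1 + ∑' q, B q := by
    intro s hs hs2
    obtain ⟨a1, b1⟩ := h1 s hs hs2
    obtain ⟨a2, b2⟩ := h2 s hs hs2
    have hpt : ∀ q : Nat.Primes, (g : ℝ) * ((dU k q : ℝ) * (q : ℝ) ^ (-s)) ≤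
        (dU k' q : ℝ) * (q : ℝ) ^ (-s) + B q := by
      intro q
      have hq1 : (1 : ℝ) ≤ (q : ℝ) := by exact_mod_cast q.2.one_lt.le
      have hp0 : (0 : ℝ) ≤ (q : ℝ) ^ (-s) := Real.rpow_nonneg (by linarith) _
      have hp1 : (q : ℝ) ^ (-s) ≤ 1 := Real.rpow_le_one_of_one_le_of_nonpos hq1 (by linarith)
      by_cases hq : (q : ℕ) ∣ D
      · have e1 : B q = (g : ℝ) * dU k q := if_pos hq
        rw [e1]
        have e2 : (0 : ℝ) ≤ (g : ℝ) * dU k q := by positivity
        have e3 : (0 : ℝ) ≤ (dU k' q : ℝ) * (q : ℝ) ^ (-s) := by positivity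
        nlinarith
      · have e1 : B q = 0 := if_neg hq
        rw [e1, add_zero, ← mul_assoc]
        refine mul_le_mul_of_nonneg_right ?_ hp0
        exact_mod_cast hle q hq
    have hsum := Summable.tsum_le_tsum hpt (a1.mul_left (g : ℝ)) (a2.add hBs)
    rw [tsum_mul_left, a2.tsum_add hBs] at hsum
    have c1 := (abs_le.1 b1).1
    have c2 := (abs_le.1 b2).2
    have hgR : (0 : ℝ) ≤ g := Nat.cast_nonneg _
    nlinarith [mul_le_mul_of_nonneg_left c1 hgR]
  set R : ℝ := C2 + g * C1 + ∑' q, B q with hR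
  have hg2 : (2 : ℝ) ≤ g := by exact_mod_cast hg
  set L : ℝ := |R| + 1 with hL
  have hLpos : 0 < L := by positivity
  have h3 := key (1 + Real.exp (-L)) (by linarith [Real.exp_pos (-L)])
    (by linarith [Real.exp_le_one_iff.2 (show -L ≤ 0 by linarith)])
  rw [add_sub_cancel_left, one_div, ← Real.exp_neg, neg_neg, Real.log_exp] at h3
  have h4 := le_abs_self R
  nlinarith

end Pool.Agent.Work.MP_8efaaa_nt.R
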