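import Mathlib
import Pool.Agent.Work.MP_8efaaa_nt.R.Defs

/-!
# Block E: existence of Frobenius elements

`IsArithFrobAt.exists_of_isInvariant` for the action of the Galois group on the ring of integers.
-/

set_option autoImplicit false

namespace Pool.Agent.Work.MP_8efaaa_nt.R

open NumberField

theorem frb_exists {k F : Type*} [Field k] [NumberField k] [Field F] [NumberField F] [Algebra k F]
    [IsGalois k F] (Q : Ideal (𝓞 F)) (hQ : Q.IsPrime) (hQ0 : Q ≠ ⊥) :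
    ∃ σ : F ≃ₐ[k] F, Frb σ Q (Ideal.absNorm (Q.comap (algebraMap (𝓞 k) (𝓞 F)))) := by
  classical
  have hfin : Finite (𝓞 F ⧸ Q) := Ideal.finiteQuotientOfFreeOfNeBot Q hQ0
  have h1 := Algebra.isInvariant_of_isGalois' (𝓞 k) k F (𝓞 F)
  have h2 : Finite (𝓞 F ≃ₐ[𝓞 k] 𝓞 F) :=
    Finite.of_equiv _ (galRestrict (𝓞 k) k F (𝓞 F)).toEquiv
  obtain ⟨τ, hτ⟩ := IsArithFrobAt.exists_of_isInvariant (𝓞 k) (𝓞 F ≃ₐ[𝓞 k] 𝓞 F) Q
  refine ⟨(galRestrict (𝓞 k) k F (𝓞 F)).symm τ, fun y => ?_⟩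
  have h3 := hτ y
  have hcard : Nat.card (𝓞 k ⧸ Q.under (𝓞 k)) =
      Ideal.absNorm (Q.comap (algebraMap (𝓞 k) (𝓞 F))) := by
    rw [Ideal.absNorm_apply, Submodule.cardQuot_apply]
  rw [hcard] at h3
  refine ⟨_, h3, ?_⟩
  have h4 : ((galRestrict (𝓞 k) k F (𝓞 F)).symm τ) (y : F) = ((τ y : 𝓞 F) : F) := by
    have h5 := algebraMap_galRestrict_apply (𝓞 k) (K := k) (L := F) (B := 𝓞 F)
      ((galRestrict (𝓞 k) k F (𝓞 F)).symm τ) y
    rw [MulEquiv.apply_symm_apply] at h5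
    exact h5.symm
  rw [h4, map_sub, map_pow]
  rfl

end Pool.Agent.Work.MP_8efaaa_nt.R
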