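import Mathlib
import Pool.Agent.Work.MP_8efaaa_nt.R.Defs
import Pool.Agent.Work.MP_8efaaa_nt.R.EFrb
import Pool.Agent.Work.MP_8efaaa_nt.R.EDeg

/-!
# Interface of block E: Frobenius elements

`frob_closure`: let `k'` be the fixed field of the closure. For a prime `P` of `k'` above a prime of norm `l`, `l` prime, not
dividing `N`, and a prime `Q` of `F` above `P` the Frobenius element at `Q` fixes `k'`, so `y ^ l = y` modulo `P` and `P` has
norm `l`. So `k' = k` by `finrank_one`.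
-/

set_option autoImplicit false

namespace Pool.Agent.Work.MP_8efaaa_nt.R

open NumberField

theorem exists_frb {k F : Type*} [Field k] [NumberField k] [Field F] [NumberField F] [Algebra k F]
    [IsGalois k F] (Q : Ideal (𝓞 F)) (hQ : Q.IsPrime) (hQ0 : Q ≠ ⊥) :
    ∃ σ : F ≃ₐ[k] F, Frb σ Q (Ideal.absNorm (Q.comap (algebraMap (𝓞 k) (𝓞 F)))) :=
  frb_exists Q hQ hQ0

private theorem card_le_of_pow {κ : Type*} [CommRing κ] [IsDomain κ] [Finite κ] {l : ℕ}
    (hl : 2 ≤ l) (h : ∀ x : κ, x ^ l = x) : Nat.card κ ≤ l := by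
  classical
  have := Fintype.ofFinite κ
  have h1 : (Polynomial.X ^ l - Polynomial.X : Polynomial κ).natDegree = l := by
    rw [Polynomial.natDegree_sub_eq_left_of_natDegree_lt, Polynomial.natDegree_X_pow]
    rw [Polynomial.natDegree_X_pow, Polynomial.natDegree_X]
    omega
  have h0 : (Polynomial.X ^ l - Polynomial.X : Polynomial κ) ≠ 0 := by
    intro h2
    rw [h2, Polynomial.natDegree_zero] at h1
    omega
  rw [Nat.card_eq_fintype_card, ← Finset.card_univ]
  conv_rhs => rw [← h1]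
  refine Polynomial.card_le_degree_of_subset_roots fun x _ => ?_
  rw [Polynomial.mem_roots h0, Polynomial.IsRoot.def, Polynomial.eval_sub, Polynomial.eval_pow,
    Polynomial.eval_X, h x, sub_self]

/-- the Galois group is generated by Frobenius elements at primes of degree one, outside any
finite set -/
theorem frob_closure {k F : Type*} [Field k] [NumberField k] [Field F] [NumberField F]
    [Algebra k F] [IsGalois k F] (N : ℕ) (hN : N ≠ 0) :
    Subgroup.closure {σ : F ≃ₐ[k] F | ∃ (l : ℕ) (Q : Ideal (𝓞 F)), l.Prime ∧ ¬ l ∣ N ∧ Q.IsPrime ∧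
      Ideal.absNorm (Q.comap (algebraMap (𝓞 k) (𝓞 F))) = l ∧ Frb σ Q l} = ⊤ := by
  classical
  set S : Set (F ≃ₐ[k] F) := {σ : F ≃ₐ[k] F | ∃ (l : ℕ) (Q : Ideal (𝓞 F)), l.Prime ∧ ¬ l ∣ N ∧
    Q.IsPrime ∧ Ideal.absNorm (Q.comap (algebraMap (𝓞 k) (𝓞 F))) = l ∧ Frb σ Q l} with hS
  set H : Subgroup (F ≃ₐ[k] F) := Subgroup.closure S with hH
  let k' : IntermediateField k F := IntermediateField.fixedField H
  have hNF : NumberField k' := NumberField.of_module_finite k k'
  have h1 : Module.finrank k k' = 1 := by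
    refine finrank_one N hN fun l hl hlN P hP hPn => ?_
    have hcomp : algebraMap (𝓞 k) (𝓞 F) =
        (algebraMap (𝓞 k') (𝓞 F)).comp (algebraMap (𝓞 k) (𝓞 k')) :=
      IsScalarTower.algebraMap_eq (𝓞 k) (𝓞 k') (𝓞 F)
    have hP0 : P ≠ ⊥ := by
      rintro rfl
      have h2 : (⊥ : Ideal (𝓞 k')).comap (algebraMap (𝓞 k) (𝓞 k')) = ⊥ :=
        Ideal.comap_bot_of_injective _ (FaithfulSMul.algebraMap_injective _ _)
      rw [h2, Ideal.absNorm_bot] at hPn
      exact hl.ne_zero hPn.symm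
    obtain ⟨⟨Q, hQ1, hQ2⟩⟩ : Nonempty (P.primesOver (𝓞 F)) := inferInstance
    have hQP : Q.comap (algebraMap (𝓞 k') (𝓞 F)) = P := hQ2.over.symm
    have hQ0 : Q ≠ ⊥ := by
      rintro rfl
      refine hP0 ?_
      rw [← hQP]
      exact Ideal.comap_bot_of_injective _ (FaithfulSMul.algebraMap_injective _ _)
    have hQk : Q.comap (algebraMap (𝓞 k) (𝓞 F)) = P.comap (algebraMap (𝓞 k) (𝓞 k')) := by
      rw [hcomp, ← Ideal.comap_comap, hQP]
    obtain ⟨σ, hσ⟩ := exists_frb (k := k) Q hQ1 hQ0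
    rw [hQk, hPn] at hσ
    have hσH : σ ∈ H := Subgroup.subset_closure ⟨l, Q, hl, hlN, hQ1, by rw [hQk, hPn], hσ⟩
    have hfix : ∀ y : 𝓞 k', y ^ l - y ∈ P := by
      intro y
      obtain ⟨z, hz, hz2⟩ := hσ (algebraMap (𝓞 k') (𝓞 F) y)
      have h3 : algebraMap (𝓞 F) F (algebraMap (𝓞 k') (𝓞 F) y) = ((y : k') : F) := rfl
      have h4 : σ ((y : k') : F) = ((y : k') : F) := (y : k').2 ⟨σ, hσH⟩
      rw [h3, h4] at hz2
      have h5 : z = algebraMap (𝓞 k') (𝓞 F) (y - y ^ l) := by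
        apply FaithfulSMul.algebraMap_injective (𝓞 F) F
        rw [hz2, map_sub, map_pow, map_sub, map_pow, h3]
      rw [← neg_sub]
      refine neg_mem ?_
      rw [← hQP, Ideal.mem_comap, ← h5]
      exact hz
    have hfin : Finite (𝓞 k' ⧸ P) := Ideal.finiteQuotientOfFreeOfNeBot P hP0
    have hcard : Nat.card (𝓞 k' ⧸ P) ≤ l := by
      refine card_le_of_pow hl.two_le fun x => ?_
      obtain ⟨y, rfl⟩ := Ideal.Quotient.mk_surjective x
      rw [← map_pow, Ideal.Quotient.eq]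
      exact hfix y
    have habs : Ideal.absNorm P = Nat.card (𝓞 k' ⧸ P) := by
      rw [Ideal.absNorm_apply, Submodule.cardQuot_apply]
    rw [← habs] at hcard
    refine le_antisymm hcard ?_
    have hlo : P.LiesOver (P.comap (algebraMap (𝓞 k) (𝓞 k'))) := ⟨rfl⟩
    have h6 := Ideal.absNorm_pow_inertiaDeg (P.comap (algebraMap (𝓞 k) (𝓞 k'))) P
    rw [hPn] at h6
    rw [← h6]
    exact Nat.le_self_pow (Ideal.inertiaDeg_pos P (𝓞 k)).ne' l
  have h2 : k' = ⊥ := IntermediateField.finrank_eq_one_iff.1 h1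
  have h3 : IntermediateField.fixingSubgroup k' = H := IntermediateField.fixingSubgroup_fixedField H
  rw [← h3, h2, IntermediateField.fixingSubgroup_bot]

end Pool.Agent.Work.MP_8efaaa_nt.R
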