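import Mathlib
import Pool.Agent.Work.MP_8efaaa_nt.R.CInt
import Pool.Agent.Work.MP_8efaaa_nt.R.DCtx

/-!
# Block D, DFld: the field `F`

`fin_gal`: `p` = product of the minimal polynomials over `K` of the elements of `T`, `F =
IntermediateField.adjoin K (p.rootSet ℂ)`; `p` splits in `ℂ`, so `F` is a splitting field
(`IntermediateField.adjoin_rootSet_isSplittingField`), finite dimensional
(`Polynomial.IsSplittingField.finiteDimensional`) and normal (`Normal.of_isSplittingField`), separable
in characteristic zero, so Galois.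

`exists_ctx`: `c_fin` and `ζ = exp (π i / 4)` (algebraic: root of `X ^ 4 + 1`), `z c = ⟨Zc s c, _⟩` for
odd `c` and `0` otherwise, etc. The finite set of `DCtx.fin` is the preimage of `T` in `F`.
-/

set_option autoImplicit false

namespace Pool.Agent.Work.MP_8efaaa_nt.R

open NumberField Pool.Agent.Work.CM

universe u

variable {K : Type u} [Field K] [NumberField K] [Algebra K ℂ] {a : ℕ} {s : K}

theorem fin_gal (T : Finset ℂ) (hT : ∀ z ∈ T, IsAlgebraic K z) :
    ∃ (F : IntermediateField K ℂ) (_ : FiniteDimensional K F) (_ : IsGalois K F),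
      ∀ z ∈ T, z ∈ F := by
  classical
  set p : Polynomial K := ∏ z ∈ T, minpoly K z with hp
  have hp0 : p ≠ 0 := Finset.prod_ne_zero_iff.2 fun z hz => minpoly.ne_zero (hT z hz).isIntegral
  have hsp : (p.map (algebraMap K ℂ)).Splits := IsAlgClosed.splits _
  have := IntermediateField.adjoin_rootSet_isSplittingField hsp
  have h1 : FiniteDimensional K (IntermediateField.adjoin K (p.rootSet ℂ)) :=
    Polynomial.IsSplittingField.finiteDimensional _ p
  have h2 : Normal K (IntermediateField.adjoin K (p.rootSet ℂ)) :=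
    Normal.of_isSplittingField p
  refine ⟨IntermediateField.adjoin K (p.rootSet ℂ), h1, { }, fun z hz => ?_⟩
  apply IntermediateField.subset_adjoin
  rw [Polynomial.mem_rootSet_of_ne hp0, hp, map_prod]
  exact Finset.prod_eq_zero hz (minpoly.aeval K z)

theorem exists_ctx (hb : Base5 K a s) : ∃ (F : IntermediateField K ℂ)
    (_ : FiniteDimensional K F) (_ : IsGalois K F) (ζ : F) (z k v : Ideal (𝓞 K) → F),
      DCtx K F s ζ z k v := by
  classical
  obtain ⟨T, hT, hfin⟩ := c_fin hb
  obtain ⟨ζ, hζ⟩ := IsAlgClosed.exists_pow_nat_eq (-1 : ℂ) (n := 4) (by norm_num)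
  have hζa : IsAlgebraic K ζ := by
    refine ⟨Polynomial.X ^ 4 + 1, ?_, ?_⟩
    · exact (Polynomial.monic_X_pow_add_C (1 : K) (n := 4) (by norm_num)).ne_zero
    · simp [hζ]
  obtain ⟨F, h1, h2, hF⟩ := fin_gal (insert ζ T) (by
    intro z hz
    rcases Finset.mem_insert.1 hz with rfl | hz
    · exact hζa
    · exact hT z hz)
  have hF' : ∀ z ∈ T, z ∈ F := fun z hz => hF z (Finset.mem_insert_of_mem hz)
  refine ⟨F, h1, h2, ⟨ζ, hF ζ (Finset.mem_insert_self _ _)⟩,
    fun c => if h : OddI c then ⟨Zc s c, hF' _ (hfin c h).1⟩ else 0,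
    fun c => if h : OddI c then ⟨Kc s c, hF' _ (hfin c h).2.1⟩ else 0,
    fun c => if h : OddI c then ⟨Vc s c, hF' _ (hfin c h).2.2⟩ else 0, ?_, ?_, ?_, ?_, ?_⟩
  · apply Subtype.ext
    simpa using hζ
  · intro c hc
    simp only [dif_pos hc]
    rfl
  · intro c hc
    simp only [dif_pos hc]
    rfl
  · intro c hc
    simp only [dif_pos hc]
    rfl
  · refine ⟨T.preimage (Subtype.val : F → ℂ) Subtype.val_injective.injOn, fun c hc => ?_⟩
    simp only [dif_pos hc, Finset.mem_preimage]
    exact hfin c hc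

end Pool.Agent.Work.MP_8efaaa_nt.R
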