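import Mathlib
import Pool.Agent.Work.MP_787500_nt.H10_Quad
import Pool.Agent.Work.MP_8efaaa_nt.R.Defs

/-!
# Block D, DQuad: the ring of integers of `K`, `a = 5 (mod 8)`, and norms

`coords5`: copy the proof of `T/Quad.lean` `Qd.exists_int_coords` (for `x = p + q s` the numbers `2 p`
and `p ^ 2 + a q ^ 2` are integers, `a (2 q) ^ 2` integral and `a` squarefree give `2 q` integral, so
with `P = 2 p`, `Q = 2 q`: `P ^ 2 + a Q ^ 2 = 4 n`), and `a = 1 (mod 4)` gives `P ^ 2 + Q ^ 2 = 0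
(mod 4)`, so `P`, `Q` are even.

`norm_lin`: let `σ` be the nontrivial automorphism (`Quad.exists_conj`, a ring automorphism with
`σ s = -s`; it is a `ℚ`-algebra automorphism), `n = x ^ 2 + a y ^ 2 = δ (σ δ)`. `Algebra.norm ℚ` is
multiplicative, `Algebra.norm_eq_of_algEquiv` gives `N (σ δ) = N δ`, and `N n = n ^ 2`
(`Algebra.norm_algebraMap`, `dim`), so `(N δ) ^ 2 = n ^ 2`, `|N δ| = n`. Then
`Ideal.absNorm_span_singleton`, `Algebra.coe_norm_int`.

`prime_cases`: let `p` be a rational prime in `d` (`d` nonzero prime: the absolute norm of `d` is in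
`d`, `Ideal.absNorm_mem`, so one of its prime factors). `d ∣ (p)`, so `absNorm d ∣ absNorm (p) = p ^ 2`
(`norm_lin` with `y = 0`), `absNorm d ≠ 1`, so it is `p` or `p ^ 2` (`Nat.dvd_prime_pow`); in the
second case `(p) = d * e`, `absNorm e = 1`, `e = ⊤` (`Ideal.absNorm_eq_one_iff`), `d = (p)`.
-/

set_option autoImplicit false

namespace Pool.Agent.Work.MP_8efaaa_nt.R

open NumberField

open Pool.Agent.Work.MP_787500_nt Pool.Agent.Work.MP_787500_nt.Quad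

variable {K : Type*} [Field K] [NumberField K] {a : ℕ} {s : K}

private theorem a_pos (hb : Base5 K a s) : 0 < a := Nat.pos_of_ne_zero hb.sf.ne_zero

private theorem coordsK (hb : Base5 K a s) {x : K} (hx : IsIntegral ℤ x) :
    ∃ m n : ℤ, x = m + n * s := by
  obtain ⟨u, b, rfl⟩ := exists_coords hb.dim hb.sq (a_pos hb) x
  have φ : K →+* ℂ := Classical.arbitrary _
  obtain ⟨h1, h2⟩ := emb_re_im hb.sq (a_pos hb) φ
  set x := (u : K) + b * s with hxdef
  have i1 : IsIntegral ℤ (φ x) := map_isIntegral_int φ hx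
  have i2 : IsIntegral ℤ ((starRingEnd ℂ) (φ x)) := map_isIntegral_int (starRingEnd ℂ) i1
  have hφx : φ x = ((u : ℝ) + b * (φ s).re : ℝ) + ((b : ℝ) * (φ s).im : ℝ) * Complex.I := by
    rw [hxdef, map_add, map_mul, map_ratCast, map_ratCast]
    apply Complex.ext <;> simp
  have i3 : IsIntegral ℤ ((2 * u : ℚ) : ℂ) := by
    have := i1.add i2
    have e : φ x + (starRingEnd ℂ) (φ x) = ((2 * u : ℚ) : ℂ) := by
      rw [Complex.add_conj, hφx, h1]
      simp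
    rwa [e] at this
  have i4 : IsIntegral ℤ ((u ^ 2 + a * b ^ 2 : ℚ) : ℂ) := by
    have := i1.mul i2
    have e : φ x * (starRingEnd ℂ) (φ x) = ((u ^ 2 + a * b ^ 2 : ℚ) : ℂ) := by
      rw [Complex.mul_conj, hxdef, normSq_emb hb.sq (a_pos hb)]
      push_cast
      ring
    rwa [e] at this
  obtain ⟨t, ht⟩ := int_of_isIntegral_rat (q := 2 * u) (by
    have := (isIntegral_algebraMap_iff (R := ℤ) (A := ℚ) (B := ℂ) (x := 2 * u)
      (algebraMap ℚ ℂ).injective).1 (by simpa using i3)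
    exact this)
  obtain ⟨n, hn⟩ := int_of_isIntegral_rat (q := u ^ 2 + a * b ^ 2) (by
    have := (isIntegral_algebraMap_iff (R := ℤ) (A := ℚ) (B := ℂ)
      (x := u ^ 2 + a * b ^ 2) (algebraMap ℚ ℂ).injective).1 (by simpa using i4)
    exact this)
  have h7 : (a : ℚ) * (2 * b) ^ 2 = ((4 * n - t ^ 2 : ℤ) : ℚ) := by
    push_cast
    rw [ht, hn]; ring
  have hbi : IsIntegral ℤ ((a : ℚ) * (2 * b)) := by
    have h8 : IsIntegral ℤ (((a : ℚ) * (2 * b)) ^ 2) := by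
      rw [show ((a : ℚ) * (2 * b)) ^ 2 = ((a * (4 * n - t ^ 2) : ℤ) : ℚ) by
        push_cast; push_cast at h7; rw [← h7]; ring]
      exact isIntegral_algebraMap (R := ℤ) (x := a * (4 * n - t ^ 2))
    exact IsIntegral.of_pow (by norm_num) h8
  obtain ⟨c, hc⟩ := int_of_isIntegral_rat hbi
  have h9 : c ^ 2 = a * (4 * n - t ^ 2) := by
    have : (c : ℚ) ^ 2 = a * ((4 * n - t ^ 2 : ℤ) : ℚ) := by rw [hc, ← h7]; ring
    exact_mod_cast this
  have h10 : (a : ℤ) ∣ c := by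
    have h11 : (a : ℤ) ∣ c ^ 2 := ⟨_, h9⟩
    exact (Squarefree.dvd_pow_iff_dvd (Int.squarefree_natCast.2 hb.sf) two_ne_zero).1 h11
  obtain ⟨d, rfl⟩ := h10
  have hq0 : (a : ℚ) ≠ 0 := by exact_mod_cast hb.sf.ne_zero
  have hbd : 2 * b = d := by
    have : (a : ℚ) * (2 * b) = a * d := by rw [← hc]; push_cast; ring
    exact mul_left_cancel₀ hq0 this
  have hq0' : (a : ℤ) ≠ 0 := by exact_mod_cast hb.sf.ne_zero
  have h12 : a * d ^ 2 = 4 * n - t ^ 2 := by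
    have : (a : ℤ) * (a * d ^ 2) = a * (4 * n - t ^ 2) := by rw [← h9]; ring
    exact mul_left_cancel₀ hq0' this
  obtain ⟨k, hk⟩ : ∃ k : ℕ, a = 4 * k + 1 := ⟨a / 4, by have := hb.mod; omega⟩
  have h13 : t ^ 2 + d ^ 2 = 4 * (n - k * d ^ 2) := by
    rw [hk] at h12
    push_cast at h12
    linear_combination h12
  have h14 : (2 : ℤ) ∣ t ∧ (2 : ℤ) ∣ d := by
    rcases Int.even_or_odd' t with ⟨t', ht' | ht'⟩ <;> rcases Int.even_or_odd' d with ⟨d', hd' | hd'⟩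
    · exact ⟨⟨t', ht'⟩, ⟨d', hd'⟩⟩
    · exfalso
      rw [ht', hd'] at h13
      have h15 : (4 : ℤ) * (n - k * (2 * d' + 1) ^ 2 - t' ^ 2 - d' ^ 2 - d') = 1 := by
        linear_combination -h13
      omega
    · exfalso
      rw [ht', hd'] at h13
      have h15 : (4 : ℤ) * (n - k * (2 * d') ^ 2 - t' ^ 2 - d' ^ 2 - t') = 1 := by
        linear_combination -h13
      omega
    · exfalso
      rw [ht', hd'] at h13
      have h15 : (4 : ℤ) * (n - k * (2 * d' + 1) ^ 2 - t' ^ 2 - d' ^ 2 - t' - d') = 2 := by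
        linear_combination -h13
      omega
  obtain ⟨⟨t', ht'⟩, ⟨d', hd'⟩⟩ := h14
  refine ⟨t', d', ?_⟩
  have h15 : u = t' := by
    have h16 : (2 : ℚ) * u = 2 * t' := by rw [← ht, ht']; push_cast; ring
    exact mul_left_cancel₀ two_ne_zero h16
  have h17 : b = d' := by
    have h16 : (2 : ℚ) * b = 2 * d' := by rw [hbd, hd']; push_cast; ring
    exact mul_left_cancel₀ two_ne_zero h16
  rw [hxdef, h15, h17]
  push_cast
  rfl

/-- `𝓞 K = ℤ[s]` -/
theorem coords5 (hb : Base5 K a s) (x : 𝓞 K) :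
    ∃ m n : ℤ, algebraMap (𝓞 K) K x = m + n * s := coordsK hb x.isIntegral_coe

theorem exists_S5 (hb : Base5 K a s) : ∃ S : 𝓞 K, algebraMap (𝓞 K) K S = s ∧
    S ^ 2 = -(a : 𝓞 K) := exists_int_s hb.sq

theorem norm_lin (hb : Base5 K a s) {δ : 𝓞 K} {x y : ℤ} (hδ : algebraMap (𝓞 K) K δ = x + y * s) :
    (Ideal.absNorm (Ideal.span {δ}) : ℤ) = x ^ 2 + a * y ^ 2 := by
  obtain ⟨σ, hσ⟩ := exists_conj hb.dim hb.sq (a_pos hb)
  let τ : K ≃ₐ[ℚ] K := AlgEquiv.ofRingEquiv (f := σ) (fun r => by simp)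
  have hτ : ∀ z, τ z = σ z := fun z => rfl
  have h1 : Algebra.norm ℚ (τ (algebraMap (𝓞 K) K δ)) = Algebra.norm ℚ (algebraMap (𝓞 K) K δ) :=
    Algebra.norm_eq_of_algEquiv τ _
  have h2 : algebraMap (𝓞 K) K δ * τ (algebraMap (𝓞 K) K δ) =
      algebraMap ℚ K ((x ^ 2 + a * y ^ 2 : ℤ) : ℚ) := by
    rw [hτ, hδ, map_add, map_mul, hσ, map_intCast, map_intCast, map_intCast]
    push_cast
    linear_combination -(y : K) ^ 2 * hb.sq
  have h3 := congrArg (Algebra.norm ℚ) h2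
  rw [map_mul, h1, Algebra.norm_algebraMap, hb.dim] at h3
  have h4 : (Algebra.norm ℚ (algebraMap (𝓞 K) K δ)) = ((Algebra.norm ℤ δ : ℤ) : ℚ) :=
    (Algebra.coe_norm_int δ).symm
  rw [h4] at h3
  have h5 : (Algebra.norm ℤ δ) * (Algebra.norm ℤ δ) = (x ^ 2 + a * y ^ 2) ^ 2 := by
    exact_mod_cast h3
  rw [Ideal.absNorm_span_singleton, Int.natCast_natAbs]
  have h6 : (0 : ℤ) ≤ x ^ 2 + a * y ^ 2 := by positivity
  have h7 : |Algebra.norm ℤ δ| = |x ^ 2 + a * y ^ 2| := by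
    rw [← sq_eq_sq_iff_abs_eq_abs, ← h5, pow_two]
  rw [h7, abs_of_nonneg h6]

/-- a rational prime is not a divisor of `x + 8 s` in `𝓞 K` for odd `x` -/
theorem not_dvd_lin (hb : Base5 K a s) {δ : 𝓞 K} {x : ℤ}
    (hδ : algebraMap (𝓞 K) K δ = x + 8 * s) (hx : Odd x) {p : ℕ} (hp : p.Prime) :
    ¬ (p : 𝓞 K) ∣ δ := by
  rintro ⟨γ, rfl⟩
  obtain ⟨m, n, hmn⟩ := coords5 hb γ
  rw [map_mul, hmn, map_natCast] at hδ
  have h1 : (((x - p * m : ℤ) : ℚ) : K) + (((8 - p * n : ℤ) : ℚ) : K) * s = 0 := by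
    push_cast
    linear_combination -hδ
  obtain ⟨h2, h3⟩ := not_rat hb.sq (a_pos hb) _ _ h1
  have h4 : x - p * m = 0 := by exact_mod_cast h2
  have h5 : 8 - p * n = 0 := by exact_mod_cast h3
  have h6 : (p : ℤ) ∣ (2 : ℤ) ^ 3 := ⟨n, by linarith⟩
  have h7 : p ∣ 2 ^ 3 := by exact_mod_cast h6
  have h8 : p = 2 := (Nat.prime_dvd_prime_iff_eq hp Nat.prime_two).1 (hp.dvd_of_dvd_pow h7)
  rw [h8] at h4
  obtain ⟨k, hk⟩ := hx
  push_cast at h4
  omega

private theorem exists_prime_mem {R : Type*} [CommRing R] {P : Ideal R} (hP : P.IsPrime) (n : ℕ)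
    (hn0 : n ≠ 0) (hn : (n : R) ∈ P) : ∃ p : ℕ, p.Prime ∧ (p : R) ∈ P := by
  induction n using Nat.strong_induction_on with
  | _ n ih =>
    have h1 : n ≠ 1 := by
      rintro rfl
      rw [Nat.cast_one] at hn
      exact hP.ne_top ((Ideal.eq_top_iff_one _).2 hn)
    have hp := Nat.minFac_prime h1
    obtain ⟨m, hm⟩ := Nat.minFac_dvd n
    have h2 : (n.minFac : R) * (m : R) ∈ P := by
      rw [← Nat.cast_mul, ← hm]
      exact hn
    rcases hP.mem_or_mem h2 with h | h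
    · exact ⟨_, hp, h⟩
    · have hm0 : m ≠ 0 := by
        rintro rfl
        rw [mul_zero] at hm
        exact hn0 hm
      refine ih m ?_ hm0 h
      rw [hm]
      exact lt_mul_of_one_lt_left (Nat.pos_of_ne_zero hm0) hp.one_lt

theorem prime_cases (hb : Base5 K a s) {d : Ideal (𝓞 K)} (hd : d.IsPrime) (hd0 : d ≠ ⊥) :
    ∃ p : ℕ, p.Prime ∧ (p : 𝓞 K) ∈ d ∧ (Ideal.absNorm d = p ∨ d = Ideal.span {(p : 𝓞 K)}) := by
  have h0 : Ideal.absNorm d ≠ 0 := by
    rw [Ne, Ideal.absNorm_eq_zero_iff]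
    exact hd0
  obtain ⟨p, hp, hpd⟩ := exists_prime_mem hd _ h0 (Ideal.absNorm_mem d)
  refine ⟨p, hp, hpd, ?_⟩
  have hle : Ideal.span {(p : 𝓞 K)} ≤ d := by
    rw [Ideal.span_singleton_le_iff_mem]
    exact hpd
  have hN : Ideal.absNorm (Ideal.span {(p : 𝓞 K)}) = p ^ 2 := by
    have h1 : algebraMap (𝓞 K) K (p : 𝓞 K) = ((p : ℤ) : K) + ((0 : ℤ) : K) * s := by
      rw [map_natCast]
      push_cast
      ring
    have h2 := norm_lin hb h1
    have h3 : (Ideal.absNorm (Ideal.span {(p : 𝓞 K)}) : ℤ) = ((p ^ 2 : ℕ) : ℤ) := by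
      rw [h2]
      push_cast
      ring
    exact_mod_cast h3
  have hdvd : Ideal.absNorm d ∣ p ^ 2 := by
    rw [← hN]
    exact Ideal.absNorm_dvd_absNorm_of_le hle
  obtain ⟨i, hi, hdi⟩ := (Nat.dvd_prime_pow hp).1 hdvd
  interval_cases i
  · exfalso
    rw [pow_zero, Ideal.absNorm_eq_one_iff] at hdi
    exact hd.ne_top hdi
  · left
    rw [hdi, pow_one]
  · right
    obtain ⟨e, he⟩ := Ideal.dvd_iff_le.2 hle
    have h1 := congrArg Ideal.absNorm he
    rw [hN, map_mul, hdi] at h1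
    have h2 : Ideal.absNorm e = 1 := by
      have h3 : p ^ 2 * Ideal.absNorm e = p ^ 2 * 1 := by rw [mul_one]; exact h1.symm
      exact Nat.eq_of_mul_eq_mul_left (pow_pos hp.pos 2) h3
    rw [Ideal.absNorm_eq_one_iff] at h2
    rw [he, h2, Ideal.mul_top]

end Pool.Agent.Work.MP_8efaaa_nt.R
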