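import Mathlib
import Pool.Agent.Work.MP_8efaaa_nt.R.DQuad

/-!
# Block D, DMoveA: moving an odd prime ideal

`nonroot`: for every prime `l` of the finite set choose `u_l` with `A u ^ 2 + B u + C ≠ 0 (mod l)` (a
nonzero polynomial of degree at most `2` over a field with at least `3` elements has a nonroot: try
`u = 0, 1, -1`: if all three are roots then `C = 0`, `A + B = 0`, `A - B = 0`, so `2 A = 0`, `A = 0`,
`B = 0`), then the Chinese remainder theorem with the odd modulus `∏ l` and `8`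
(`Nat.chineseRemainderOfFinset`, or induction on `N` / `Nat.recOnPosPrimePosCoprime`, or strong
induction on the finite set of primes).

`move_prime`. By `prime_cases` (`p` odd since `absNorm d` is odd).

Case `d = (p)`: `m = p`; `nonroot` with `A = 1`, `B = 0`, `C = 64 a`, `r = p` gives `x = p (mod 8)`
with `x ^ 2 + 64 a` prime to `N`; `δ = x + 8 s`, `e = (δ)`.

Case `absNorm d = p`: there is an integer `t` with `s - t ∈ d` (`𝓞 K / d` has `p` elements, so it is
the prime field: the map `ℤ → 𝓞 K ⧸ d` is surjective, e.g. because its kernel is `(p)` and both have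
`p` elements). `p ∣ t ^ 2 + a` (it is in `d ∩ ℤ = (p)`), `t ^ 2 + a = p A`. Take `m = p`, `nonroot`
for `p u ^ 2 + 16 t u + 64 A` (not all three coefficients are divisible by an odd prime `l`: `l ∣ p`
gives `l = p`, then `p ∣ t`, `p ∣ A`, `p ^ 2 ∣ a`, but `a` is squarefree) with `u = p (mod 8)`... then
`p u = p ^ 2 = 1 (mod 8)`; we need `x = 8 t + p u = p (mod 8)`, so take `u = 1 (mod 8)`. `δ = x + 8 s`.
Every `y ∈ d` is `y = y₁ + y₂ s` (`coords5`) with `p ∣ y₁ + y₂ t`, and `δ y = δ (y₁ + y₂ t) + y₂ δ (s - t)`,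
`δ (s - t) = (- x t - 8 a) + (x - 8 t) s` is divisible by `p`, so `(δ) d ≤ (p)`, `(δ) d = (p) e`
(`Ideal.dvd_iff_le`). Norms: `(x ^ 2 + 64 a) p = p ^ 2 N e`, and `x ^ 2 + 64 a =
p (p u ^ 2 + 16 t u + 64 A)`, so `N e = p u ^ 2 + 16 t u + 64 A` is prime to `N`.

In both cases the list `L` is the list of the prime factors of `e` (`UniqueFactorizationMonoid.factors`
or `normalizedFactors e`, `e ≠ ⊥`, `Multiset.toList`, product equal to `e`). For `q ∣ e` prime: `absNorm q`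
divides `absNorm e`, so it is prime to `N` (and `≠ 1`), hence does not divide `N` if it is a prime;
by `prime_cases` either `absNorm q = l` is prime, or `q = (l)` divides `(m) e = (δ) d`, so `(l) ∣ (δ)`
(impossible by `not_dvd_lin`) or `(l) ∣ d`: in the case `d = (p)` one has `e = (δ)`, so again
`(l) ∣ (δ)`; in the case `absNorm d = p`: `l ^ 2 ∣ p`, impossible.
-/

set_option autoImplicit false

namespace Pool.Agent.Work.MP_8efaaa_nt.R

open NumberField

private theorem nonroot_one {A B C : ℤ} {l : ℕ} (hl : l.Prime) (hl2 : l ≠ 2)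
    (h : ¬ ((l : ℤ) ∣ A ∧ (l : ℤ) ∣ B ∧ (l : ℤ) ∣ C)) :
    ∃ u : ℤ, ¬ (l : ℤ) ∣ A * u ^ 2 + B * u + C := by
  by_contra hc
  push Not at hc
  have h0 := hc 0
  have h1 := hc 1
  have h2 := hc (-1)
  have hC : (l : ℤ) ∣ C := by simpa using h0
  have hAB : (l : ℤ) ∣ A + B := by
    have : A + B = (A * 1 ^ 2 + B * 1 + C) - C := by ring
    rw [this]; exact dvd_sub h1 hC
  have hAB' : (l : ℤ) ∣ A - B := by
    have : A - B = (A * (-1) ^ 2 + B * (-1) + C) - C := by ring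
    rw [this]; exact dvd_sub h2 hC
  have h2A : (l : ℤ) ∣ 2 * A := by
    have : 2 * A = (A + B) + (A - B) := by ring
    rw [this]; exact dvd_add hAB hAB'
  have hp : Prime (l : ℤ) := Nat.prime_iff_prime_int.1 hl
  have hA : (l : ℤ) ∣ A := by
    rcases hp.dvd_or_dvd h2A with h3 | h3
    · exfalso
      have h4 : l ∣ 2 := by exact_mod_cast h3
      exact hl2 ((Nat.prime_dvd_prime_iff_eq hl Nat.prime_two).1 h4)
    · exact h3
  have hB : (l : ℤ) ∣ B := by
    have : B = (A + B) - A := by ring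
    rw [this]; exact dvd_sub hAB hA
  exact h ⟨hA, hB, hC⟩

private theorem dvd_poly_sub {A B C u v k : ℤ} (h : k ∣ u - v) :
    k ∣ (A * u ^ 2 + B * u + C) - (A * v ^ 2 + B * v + C) := by
  have : (A * u ^ 2 + B * u + C) - (A * v ^ 2 + B * v + C) = (u - v) * (A * (u + v) + B) := by ring
  rw [this]; exact Dvd.dvd.mul_right h _

private theorem nonroot_finset {A B C r : ℤ} (T : Finset ℕ)
    (hT : ∀ l ∈ T, l.Prime ∧ l ≠ 2)
    (h : ∀ l : ℕ, l.Prime → l ≠ 2 → ¬ ((l : ℤ) ∣ A ∧ (l : ℤ) ∣ B ∧ (l : ℤ) ∣ C)) :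
    ∃ u : ℤ, u % 8 = r % 8 ∧ ∀ l ∈ T, ¬ (l : ℤ) ∣ A * u ^ 2 + B * u + C := by
  induction T using Finset.induction_on with
  | empty => exact ⟨r, rfl, by simp⟩
  | insert l T hlT ih =>
    obtain ⟨u0, h8, hu0⟩ := ih (fun q hq => hT q (Finset.mem_insert_of_mem hq))
    obtain ⟨hl, hl2⟩ := hT l (Finset.mem_insert_self l T)
    obtain ⟨u1, hu1⟩ := nonroot_one hl hl2 (h l hl hl2)
    have hcop : IsCoprime ((8 * ∏ q ∈ T, q : ℕ) : ℤ) (l : ℤ) := by
      rw [Nat.isCoprime_iff_coprime]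
      refine Nat.Coprime.mul_left ?_ ?_
      · have : (8 : ℕ) = 2 ^ 3 := by norm_num
        rw [this]
        exact Nat.Coprime.pow_left 3 ((Nat.coprime_primes Nat.prime_two hl).2 (Ne.symm hl2))
      · refine Nat.Coprime.prod_left (fun q hq => ?_)
        have hq' := hT q (Finset.mem_insert_of_mem hq)
        refine (Nat.coprime_primes hq'.1 hl).2 ?_
        rintro rfl
        exact hlT hq
    obtain ⟨α, β, hαβ⟩ := hcop
    refine ⟨u0 + ((8 * ∏ q ∈ T, q : ℕ) : ℤ) * (α * (u1 - u0)), ?_, ?_⟩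
    · rw [← h8]
      push_cast
      rw [show (u0 + 8 * (∏ q ∈ T, (q : ℤ)) * (α * (u1 - u0))) =
        u0 + 8 * ((∏ q ∈ T, (q : ℤ)) * (α * (u1 - u0))) by ring]
      omega
    · intro q hq hdiv
      rcases Finset.mem_insert.1 hq with rfl | hqT
      · apply hu1
        have h1 : (q : ℤ) ∣ u1 - (u0 + ((8 * ∏ q ∈ T, q : ℕ) : ℤ) * (α * (u1 - u0))) := by
          refine ⟨β * (u1 - u0), ?_⟩
          linear_combination -(u1 - u0) * hαβ
        have h2 := dvd_poly_sub (A := A) (B := B) (C := C) h1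
        have h3 := dvd_add h2 hdiv
        rwa [sub_add_cancel] at h3
      · apply hu0 q hqT
        have h1 : (q : ℤ) ∣ u0 - (u0 + ((8 * ∏ q ∈ T, q : ℕ) : ℤ) * (α * (u1 - u0))) := by
          have h4 : (q : ℤ) ∣ ((8 * ∏ q ∈ T, q : ℕ) : ℤ) := by
            exact_mod_cast Dvd.dvd.mul_left (Finset.dvd_prod_of_mem (fun q => q) hqT) 8
          have : u0 - (u0 + ((8 * ∏ q ∈ T, q : ℕ) : ℤ) * (α * (u1 - u0))) =
            ((8 * ∏ q ∈ T, q : ℕ) : ℤ) * (-(α * (u1 - u0))) := by ring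
          rw [this]; exact Dvd.dvd.mul_right h4 _
        have h2 := dvd_poly_sub (A := A) (B := B) (C := C) h1
        have h3 := dvd_add h2 hdiv
        rwa [sub_add_cancel] at h3

theorem nonroot {A B C r : ℤ} {N : ℕ} (hN : N ≠ 0)
    (h : ∀ l : ℕ, l.Prime → l ≠ 2 → ¬ ((l : ℤ) ∣ A ∧ (l : ℤ) ∣ B ∧ (l : ℤ) ∣ C))
    (h2 : ∀ u : ℤ, u % 8 = r % 8 → Odd (A * u ^ 2 + B * u + C)) :
    ∃ u : ℤ, u % 8 = r % 8 ∧ IsCoprime (A * u ^ 2 + B * u + C) (N : ℤ) := by
  obtain ⟨u, hu, hT⟩ := nonroot_finset (A := A) (B := B) (C := C) (r := r)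
    (N.primeFactors.filter (fun l => l ≠ 2))
    (fun l hl => by
      rw [Finset.mem_filter] at hl
      exact ⟨Nat.prime_of_mem_primeFactors hl.1, hl.2⟩) h
  refine ⟨u, hu, ?_⟩
  rw [Int.isCoprime_iff_gcd_eq_one]
  by_contra hne
  obtain ⟨l, hl, hld⟩ := Nat.exists_prime_and_dvd hne
  have h3 : (l : ℤ) ∣ A * u ^ 2 + B * u + C :=
    (Int.natCast_dvd_natCast.2 hld).trans (Int.gcd_dvd_left ..)
  have h4 : (l : ℤ) ∣ (N : ℤ) := (Int.natCast_dvd_natCast.2 hld).trans (Int.gcd_dvd_right ..)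
  have h5 : l ∣ N := Int.natCast_dvd_natCast.1 h4
  by_cases hl2 : l = 2
  · subst hl2
    have h6 := h2 u hu
    rw [← Int.not_even_iff_odd] at h6
    exact h6 (even_iff_two_dvd.2 (by exact_mod_cast h3))
  · exact hT l (Finset.mem_filter.2 ⟨Nat.mem_primeFactors.2 ⟨hl, h5, hN⟩, hl2⟩) h3

/-- the statement of `move` -/
def Mov {K : Type*} [Field K] [NumberField K] (s : K) (N : ℕ) (d : Ideal (𝓞 K)) : Prop :=
  ∃ (L : List (Ideal (𝓞 K))) (m x y : ℤ) (δ : 𝓞 K), Odd m ∧ Odd x ∧ m % 8 = x % 8 ∧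
      algebraMap (𝓞 K) K δ = x + 8 * y * s ∧
      (∀ q ∈ L, q.IsPrime ∧ (Ideal.absNorm q).Prime ∧ ¬ Ideal.absNorm q ∣ N) ∧
      Ideal.span {(m : 𝓞 K)} * L.prod = Ideal.span {δ} * d

variable {K : Type*} [Field K] [NumberField K] {a : ℕ} {s : K}

private theorem factor_list (hb : Base5 K a s) {e : Ideal (𝓞 K)} (he : e ≠ ⊥) {N : ℕ}
    (hcop : Nat.Coprime (Ideal.absNorm e) N)
    (hno : ∀ l : ℕ, l.Prime → (Ideal.span {(l : 𝓞 K)}).IsPrime →
      ¬ Ideal.span {(l : 𝓞 K)} ∣ e ) :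
    ∃ L : List (Ideal (𝓞 K)), (∀ q ∈ L, q.IsPrime ∧ (Ideal.absNorm q).Prime ∧
      ¬ Ideal.absNorm q ∣ N) ∧ L.prod = e := by
  refine ⟨(UniqueFactorizationMonoid.normalizedFactors e).toList, ?_, ?_⟩
  · intro q hq
    rw [Multiset.mem_toList] at hq
    have hqp : Prime q := UniqueFactorizationMonoid.prime_of_normalized_factor q hq
    have hqd : q ∣ e := UniqueFactorizationMonoid.dvd_of_mem_normalizedFactors hq
    have hqP : q.IsPrime := Ideal.isPrime_of_prime hqp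
    have hq0 : q ≠ ⊥ := hqp.ne_zero
    obtain ⟨l, hl, -, h1 | h1⟩ := prime_cases hb hqP hq0
    · refine ⟨hqP, by rw [h1]; exact hl, fun hdiv => ?_⟩
      have h2 : Ideal.absNorm q ∣ Ideal.absNorm e := Ideal.absNorm_dvd_absNorm_of_le
        (Ideal.le_of_dvd hqd)
      have h3 : Ideal.absNorm q ∣ 1 := by
        rw [← hcop]
        exact Nat.dvd_gcd h2 hdiv
      rw [h1, Nat.dvd_one] at h3
      exact hl.one_lt.ne' h3
    · exact absurd (h1 ▸ hqd) (hno l hl (h1 ▸ hqP))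
  · rw [Multiset.prod_toList]
    have := UniqueFactorizationMonoid.prod_normalizedFactors (a := e) he
    exact associated_iff_eq.1 this

private theorem int_mem_iff {d : Ideal (𝓞 K)} (hd : d.IsPrime) {p : ℕ} (hp : p.Prime)
    (hpd : (p : 𝓞 K) ∈ d) {n : ℤ} (hn : (n : 𝓞 K) ∈ d) : (p : ℤ) ∣ n := by
  by_contra hc
  have hpp : Prime (p : ℤ) := Nat.prime_iff_prime_int.1 hp
  have hcop : IsCoprime (p : ℤ) n := (Prime.coprime_iff_not_dvd hpp).2 hc
  obtain ⟨α, β, h⟩ := hcop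
  apply hd.ne_top
  rw [Ideal.eq_top_iff_one]
  have h1 : (1 : 𝓞 K) = (α : 𝓞 K) * (p : 𝓞 K) + (β : 𝓞 K) * (n : 𝓞 K) := by
    exact_mod_cast (congrArg (fun z : ℤ => (z : 𝓞 K)) h).symm
  rw [h1]
  exact d.add_mem (d.mul_mem_left _ hpd) (d.mul_mem_left _ hn)

private theorem exists_t {d : Ideal (𝓞 K)} {p : ℕ} (hp : p.Prime) (hd : d.IsPrime)
    (hN : Ideal.absNorm d = p) (S : 𝓞 K) : ∃ t : ℤ, S - (t : 𝓞 K) ∈ d := by
  have : Fact p.Prime := ⟨hp⟩
  have hcard : Nat.card (𝓞 K ⧸ d) = p := by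
    rw [← hN]
    rfl
  have h1 : (1 : 𝓞 K ⧸ d) ≠ 0 := by
    intro h
    have : (1 : 𝓞 K) ∈ d := by
      rw [← Ideal.Quotient.eq_zero_iff_mem, map_one]
      exact h
    exact hd.ne_top ((Ideal.eq_top_iff_one _).2 this)
  have h2 : (Ideal.Quotient.mk d S) ∈ AddSubgroup.zmultiples (1 : 𝓞 K ⧸ d) :=
    mem_zmultiples_of_prime_card hcard h1
  obtain ⟨t, ht⟩ := AddSubgroup.mem_zmultiples_iff.1 h2
  refine ⟨t, ?_⟩
  rw [← Ideal.Quotient.eq_zero_iff_mem, map_sub, map_intCast, ← ht]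
  simp

private theorem not_span_dvd_lin (hb : Base5 K a s) {δ : 𝓞 K} {x : ℤ}
    (hδ : algebraMap (𝓞 K) K δ = x + 8 * s) (hx : Odd x) {l : ℕ} (hl : l.Prime) :
    ¬ Ideal.span {(l : 𝓞 K)} ∣ Ideal.span {δ} := by
  intro h
  rw [Ideal.dvd_span_singleton, Ideal.mem_span_singleton] at h
  exact not_dvd_lin hb hδ hx hl h

theorem move_prime (hb : Base5 K a s) {d : Ideal (𝓞 K)} (hp : d.IsPrime) (hd : OddI d) {N : ℕ}
    (hN : N ≠ 0) : Mov s N d := by
  have hd0 : d ≠ ⊥ := by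
    rintro rfl
    unfold OddI at hd
    rw [Ideal.absNorm_bot] at hd
    exact absurd hd (by decide)
  obtain ⟨S, hS, hS2⟩ := exists_S5 hb
  obtain ⟨p, hpp, hpd, hcase⟩ := prime_cases hb hp hd0
  have hnp : (Ideal.absNorm (Ideal.span {(p : 𝓞 K)}) : ℤ) = (p : ℤ) ^ 2 := by
    have h1 : algebraMap (𝓞 K) K (p : 𝓞 K) = ((p : ℤ) : K) + ((0 : ℤ) : K) * s := by
      rw [map_natCast]
      push_cast
      ring
    rw [norm_lin hb h1]
    ring
  have hpodd : Odd p := by
    unfold OddI at hd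
    rcases hcase with h | h
    · rwa [h] at hd
    · rw [h] at hd
      have h1 : Ideal.absNorm (Ideal.span {(p : 𝓞 K)}) = p ^ 2 := by exact_mod_cast hnp
      rw [h1] at hd
      exact Nat.Odd.of_mul_left (by rwa [pow_two] at hd)
  have hpoddZ : Odd (p : ℤ) := by exact_mod_cast hpodd
  rcases hcase with hNd | hdp
  · -- degree one
    obtain ⟨t, ht⟩ := exists_t hpp hp hNd S
    have hta : (((t ^ 2 + a : ℤ)) : 𝓞 K) ∈ d := by
      have h1 : (((t ^ 2 + a : ℤ)) : 𝓞 K) = -(S + t) * (S - t) := by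
        push_cast
        linear_combination hS2
      rw [h1]
      exact d.mul_mem_left _ ht
    obtain ⟨A', hA'⟩ := int_mem_iff hp hpp hpd hta
    obtain ⟨u, hu8, hucop⟩ := nonroot (A := p) (B := 16 * t) (C := 64 * A') (r := 1) hN
      (by
        rintro l hl hl2 ⟨h1, h2, h3⟩
        have hlp : Prime (l : ℤ) := Nat.prime_iff_prime_int.1 hl
        have hn2 : ∀ k : ℕ, ¬ (l : ℤ) ∣ 2 ^ k := by
          intro k hk
          have h4 : l ∣ 2 := hl.dvd_of_dvd_pow (n := k) (by exact_mod_cast hk)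
          exact hl2 ((Nat.prime_dvd_prime_iff_eq hl Nat.prime_two).1 h4)
        have hlp' : l = p := (Nat.prime_dvd_prime_iff_eq hl hpp).1 (by exact_mod_cast h1)
        subst hlp'
        have ht' : (l : ℤ) ∣ t := by
          rcases hlp.dvd_or_dvd h2 with h4 | h4
          · exact absurd (by simpa using h4) (hn2 4)
          · exact h4
        have hA'' : (l : ℤ) ∣ A' := by
          rcases hlp.dvd_or_dvd h3 with h4 | h4
          · exact absurd (by simpa using h4) (hn2 6)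
          · exact h4
        obtain ⟨t', rfl⟩ := ht'
        obtain ⟨A2, rfl⟩ := hA''
        have h5 : ((l * l : ℕ) : ℤ) ∣ (a : ℤ) := ⟨A2 - t' ^ 2, by push_cast; linear_combination hA'⟩
        have h6 : l * l ∣ a := by exact_mod_cast h5
        exact hl.one_lt.ne' (Nat.isUnit_iff.1 (hb.sf l h6)))
      (by
        intro u hu
        obtain ⟨k, hk⟩ := hpoddZ
        have h1 : u % 2 = 1 := by omega
        obtain ⟨j, hj⟩ : ∃ j, u = 2 * j + 1 := ⟨u / 2, by omega⟩
        rw [hk, hj]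
        refine ⟨k * (2 * j + 1) ^ 2 + 2 * j ^ 2 + 2 * j + 8 * t * (2 * j + 1) + 32 * A', ?_⟩
        ring)
    obtain ⟨j, hj⟩ : ∃ j, u = 8 * j + 1 := ⟨u / 8, by omega⟩
    set x : ℤ := 8 * t + p * u with hxdef
    have hx : Odd x := by
      obtain ⟨k, hk⟩ := hpoddZ
      refine ⟨4 * t + 4 * (2 * k + 1) * j + k, ?_⟩
      rw [hxdef, hk, hj]; ring
    have hm8 : (p : ℤ) % 8 = x % 8 := by
      rw [hxdef, hj]
      rw [show (8 * t + (p : ℤ) * (8 * j + 1)) = p + 8 * (t + p * j) by ring]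
      omega
    have hδ : algebraMap (𝓞 K) K ((x : 𝓞 K) + 8 * S) = x + 8 * s := by
      rw [map_add, map_mul, hS, map_intCast, map_ofNat]
    have hle : Ideal.span {((x : 𝓞 K) + 8 * S)} * d ≤ Ideal.span {(p : 𝓞 K)} := by
      rw [Ideal.span_singleton_mul_le_iff]
      intro y hy
      obtain ⟨y1, y2, hy12⟩ := coords5 hb y
      have hyS : y = (y1 : 𝓞 K) + y2 * S := by
        apply NumberField.RingOfIntegers.coe_injective
        rw [hy12, map_add, map_mul, hS, map_intCast, map_intCast]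
      have hyt : (((y1 + y2 * t : ℤ)) : 𝓞 K) ∈ d := by
        have h1 : (((y1 + y2 * t : ℤ)) : 𝓞 K) = y - y2 * (S - t) := by
          rw [hyS]; push_cast; ring
        rw [h1]
        exact d.sub_mem hy (d.mul_mem_left _ ht)
      obtain ⟨w, hw⟩ := int_mem_iff hp hpp hpd hyt
      rw [Ideal.mem_span_singleton]
      refine ⟨((x : 𝓞 K) + 8 * S) * w + y2 * (u * S - 8 * A' - u * t), ?_⟩
      have hwK : (y1 : 𝓞 K) + y2 * t = (p : 𝓞 K) * w := by exact_mod_cast congrArg (fun z : ℤ => (z : 𝓞 K)) hw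
      have hAK : (t : 𝓞 K) ^ 2 + (a : 𝓞 K) = (p : 𝓞 K) * A' := by
        exact_mod_cast congrArg (fun z : ℤ => (z : 𝓞 K)) hA'
      have hxK : (x : 𝓞 K) = 8 * t + p * u := by rw [hxdef]; push_cast; ring
      rw [hyS, hxK]
      linear_combination (8 * (t : 𝓞 K) + p * u + 8 * S) * hwK + 8 * (y2 : 𝓞 K) * hS2 - 8 * (y2 : 𝓞 K) * hAK
    obtain ⟨e, he⟩ := Ideal.dvd_iff_le.2 hle
    have hNδ : (Ideal.absNorm (Ideal.span {((x : 𝓞 K) + 8 * S)}) : ℤ) = x ^ 2 + a * 8 ^ 2 :=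
      norm_lin hb (by rw [hδ]; push_cast; ring)
    have hNe : (Ideal.absNorm e : ℤ) = p * u ^ 2 + 16 * t * u + 64 * A' := by
      have h1 := congrArg Ideal.absNorm he
      rw [map_mul, map_mul, hNd] at h1
      have h2 : ((Ideal.absNorm (Ideal.span {((x : 𝓞 K) + 8 * S)}) : ℤ)) * p =
          (Ideal.absNorm (Ideal.span {(p : 𝓞 K)}) : ℤ) * (Ideal.absNorm e : ℤ) := by
        exact_mod_cast h1
      rw [hNδ, hnp] at h2
      have hp0 : (p : ℤ) ≠ 0 := by exact_mod_cast hpp.ne_zero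
      have h3 : (p : ℤ) ^ 2 * (Ideal.absNorm e : ℤ) =
          (p : ℤ) ^ 2 * (p * u ^ 2 + 16 * t * u + 64 * A') := by
        rw [← h2, hxdef]
        linear_combination 64 * (p : ℤ) * hA'
      exact mul_left_cancel₀ (pow_ne_zero 2 hp0) h3
    have he0 : e ≠ ⊥ := by
      rintro rfl
      rw [Ideal.mul_bot] at he
      rcases Ideal.mul_eq_bot.1 he with h1 | h1
      · rw [h1, Ideal.absNorm_bot] at hNδ
        have h2 : (0 : ℤ) < x ^ 2 + a * 8 ^ 2 := by
          have : x ≠ 0 := by rintro h0; rw [h0] at hx; exact absurd hx (by decide)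
          positivity
        rw [← hNδ] at h2
        exact absurd h2 (by simp)
      · exact hd0 h1
    have hcop : Nat.Coprime (Ideal.absNorm e) N := by
      rw [← Nat.isCoprime_iff_coprime, hNe]
      exact hucop
    obtain ⟨L, hL, hLe⟩ := factor_list hb he0 hcop (by
      intro l hl hlP hdiv
      have hl0 : Ideal.span {(l : 𝓞 K)} ≠ ⊥ := by
        rw [Ne, Ideal.span_singleton_eq_bot]
        exact_mod_cast hl.ne_zero
      have h1 : Ideal.span {(l : 𝓞 K)} ∣ Ideal.span {((x : 𝓞 K) + 8 * S)} * d := by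
        rw [he]
        exact Dvd.dvd.mul_left hdiv _
      rcases (Ideal.prime_of_isPrime hl0 hlP).dvd_or_dvd h1 with h2 | h2
      · exact not_span_dvd_lin hb hδ hx hl h2
      · have h3 : Ideal.absNorm (Ideal.span {(l : 𝓞 K)}) ∣ Ideal.absNorm d :=
          Ideal.absNorm_dvd_absNorm_of_le (Ideal.le_of_dvd h2)
        have h4 : algebraMap (𝓞 K) K (l : 𝓞 K) = ((l : ℤ) : K) + ((0 : ℤ) : K) * s := by
          rw [map_natCast]
          push_cast
          ring
        have h5 := norm_lin hb h4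
        have h6 : Ideal.absNorm (Ideal.span {(l : 𝓞 K)}) = l ^ 2 := by
          have : (Ideal.absNorm (Ideal.span {(l : 𝓞 K)}) : ℤ) = ((l ^ 2 : ℕ) : ℤ) := by
            rw [h5]; push_cast; ring
          exact_mod_cast this
        rw [h6, hNd] at h3
        rcases (Nat.dvd_prime hpp).1 h3 with h7 | h7
        · have h8 : l = 1 := by
            have h9 := Nat.le_self_pow (n := 2) (by norm_num) l
            have h10 := hl.one_lt
            omega
          exact hl.one_lt.ne' h8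
        · rw [← h7] at hpp
          exact Nat.Prime.not_prime_pow (le_refl 2) hpp)
    refine ⟨L, p, x, 1, (x : 𝓞 K) + 8 * S, hpoddZ, hx, hm8, ?_, hL, ?_⟩
    · rw [hδ]; push_cast; ring
    · rw [hLe, he]
      simp
  · -- inert
    obtain ⟨x, hx8, hxcop⟩ := nonroot (A := 1) (B := 0) (C := 64 * (a : ℤ)) (r := p) hN
      (by
        rintro l hl hl2 ⟨h1, -, -⟩
        have h2 : l ∣ 1 := by exact_mod_cast h1
        exact hl.one_lt.ne' (Nat.dvd_one.1 h2))
      (by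
        intro u hu
        obtain ⟨k, hk⟩ := hpoddZ
        obtain ⟨j, hj⟩ : ∃ j, u = 2 * j + 1 := ⟨u / 2, by omega⟩
        rw [hj]
        refine ⟨2 * j ^ 2 + 2 * j + 32 * a, ?_⟩
        ring)
    have hx : Odd x := by
      obtain ⟨k, hk⟩ := hpoddZ
      exact ⟨x / 2, by omega⟩
    have hδ : algebraMap (𝓞 K) K ((x : 𝓞 K) + 8 * S) = x + 8 * s := by
      rw [map_add, map_mul, hS, map_intCast, map_ofNat]
    have hNδ : (Ideal.absNorm (Ideal.span {((x : 𝓞 K) + 8 * S)}) : ℤ) = x ^ 2 + a * 8 ^ 2 :=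
      norm_lin hb (by rw [hδ]; push_cast; ring)
    have he0 : Ideal.span {((x : 𝓞 K) + 8 * S)} ≠ ⊥ := by
      intro h1
      rw [h1, Ideal.absNorm_bot] at hNδ
      have h2 : (0 : ℤ) < x ^ 2 + a * 8 ^ 2 := by
        have : x ≠ 0 := by rintro h0; rw [h0] at hx; exact absurd hx (by decide)
        positivity
      rw [← hNδ] at h2
      exact absurd h2 (by simp)
    have hcop : Nat.Coprime (Ideal.absNorm (Ideal.span {((x : 𝓞 K) + 8 * S)})) N := by
      rw [← Nat.isCoprime_iff_coprime, hNδ]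
      convert hxcop using 1
      ring
    obtain ⟨L, hL, hLe⟩ := factor_list hb he0 hcop (fun l hl _ => not_span_dvd_lin hb hδ hx hl)
    refine ⟨L, p, x, 1, (x : 𝓞 K) + 8 * S, hpoddZ, hx, hx8.symm, ?_, hL, ?_⟩
    · rw [hδ]; push_cast; ring
    · rw [hLe, hdp, mul_comm]
      simp

end Pool.Agent.Work.MP_8efaaa_nt.R
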