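import Mathlib
import Pool.Agent.Work.MP_8efaaa_nt.R.DMoveA

/-!
# Block D, DMove: the theorem `move`

Induction over the prime factorization of `d` (`UniqueFactorizationMonoid.induction_on_prime`, `d ≠ ⊥`
since `absNorm ⊥ = 0` is even; a prime of the monoid of ideals is a prime ideal `≠ ⊥`,
`Ideal.isPrime_of_prime`; units are `⊤`; the norm is multiplicative, so the factors of an odd ideal
are odd). `Mov s N ⊤`: empty list, `m = x = 1`, `y = 0`, `δ = 1`. Products: `L₁ ++ L₂`, `m₁ m₂`,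
`δ₁ δ₂ = (x₁ x₂ - 64 a y₁ y₂) + 8 (x₁ y₂ + x₂ y₁) s` by `s ^ 2 = - a`.
-/

set_option autoImplicit false

namespace Pool.Agent.Work.MP_8efaaa_nt.R

open NumberField

variable {K : Type*} [Field K] [NumberField K] {a : ℕ} {s : K}

theorem mov_mul (hb : Base5 K a s) {N : ℕ} {d e : Ideal (𝓞 K)} (hd : Mov s N d) (he : Mov s N e) :
    Mov s N (d * e) := by
  obtain ⟨L1, m1, x1, y1, δ1, hm1, hx1, hmx1, hδ1, hL1, h1⟩ := hd
  obtain ⟨L2, m2, x2, y2, δ2, hm2, hx2, hmx2, hδ2, hL2, h2⟩ := he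
  refine ⟨L1 ++ L2, m1 * m2, x1 * x2 - 64 * a * y1 * y2, x1 * y2 + x2 * y1, δ1 * δ2, hm1.mul hm2,
    ?_, ?_, ?_, ?_, ?_⟩
  · refine (hx1.mul hx2).sub_even ⟨32 * a * y1 * y2, by ring⟩
  · have h3 : (x1 * x2 - 64 * a * y1 * y2) % 8 = (x1 * x2) % 8 := by
      have : x1 * x2 - 64 * a * y1 * y2 = x1 * x2 + 8 * (-8 * a * y1 * y2) := by ring
      rw [this, Int.add_mul_emod_self_left]
    rw [h3, Int.mul_emod, hmx1, hmx2, ← Int.mul_emod]
  · rw [map_mul, hδ1, hδ2]
    push_cast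
    linear_combination 64 * (y1 : K) * y2 * hb.sq
  · intro q hq
    rcases List.mem_append.1 hq with h | h
    · exact hL1 q h
    · exact hL2 q h
  · rw [List.prod_append]
    push_cast
    rw [← Ideal.span_singleton_mul_span_singleton, ← Ideal.span_singleton_mul_span_singleton,
      mul_mul_mul_comm, h1, h2, mul_mul_mul_comm]

theorem mov_all (hb : Base5 K a s) {d : Ideal (𝓞 K)} (hd : OddI d) {N : ℕ} (hN : N ≠ 0) :
    Mov s N d := by
  have hd0 : d ≠ 0 := by
    rintro rfl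
    unfold OddI at hd
    rw [Ideal.zero_eq_bot, Ideal.absNorm_bot] at hd
    exact absurd hd (by decide)
  induction d using UniqueFactorizationMonoid.induction_on_prime with
  | h₁ => exact absurd rfl hd0
  | h₂ u hu =>
    rw [Ideal.isUnit_iff] at hu
    subst hu
    refine ⟨[], 1, 1, 0, 1, odd_one, odd_one, rfl, by simp, fun q hq => by simp at hq, ?_⟩
    rw [List.prod_nil, Int.cast_one, Ideal.span_singleton_one, Ideal.top_mul, Ideal.top_mul,
      Ideal.one_eq_top]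
  | h₃ e p he hp ih =>
    have h1 : OddI p ∧ OddI e := by
      unfold OddI at *
      rw [map_mul] at hd
      exact Nat.odd_mul.1 hd
    exact mov_mul hb (move_prime hb (Ideal.isPrime_of_prime hp) h1.1 hN) (ih h1.2 he)

/-- In the situation of `Mov`: the norm of the product of the list is the norm of `d` modulo `8`. -/
theorem mov_norm (hb : Base5 K a s) {d : Ideal (𝓞 K)} {L : List (Ideal (𝓞 K))} {m x y : ℤ} {δ : 𝓞 K}
    (hm : Odd m) (hx : Odd x) (hδ : algebraMap (𝓞 K) K δ = x + 8 * y * s)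
    (h : Ideal.span {(m : 𝓞 K)} * L.prod = Ideal.span {δ} * d) :
    Ideal.absNorm L.prod % 8 = Ideal.absNorm d % 8 := by
  have h1 := congrArg Ideal.absNorm h
  rw [map_mul, map_mul] at h1
  have h2 := norm_lin hb (δ := (m : 𝓞 K)) (x := m) (y := 0) (by simp)
  have h3 := norm_lin hb (δ := δ) (x := x) (y := 8 * y) (by rw [hδ]; push_cast; ring)
  have h4 : (Ideal.absNorm (Ideal.span {(m : 𝓞 K)}) : ℤ) % 8 = 1 := by
    rw [h2]
    obtain ⟨k, rfl⟩ := hm
    have : (2 * k + 1) ^ 2 + (a : ℤ) * 0 ^ 2 = 4 * (k * (k + 1)) + 1 := by ring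
    rw [this]
    obtain ⟨j, hj⟩ := Int.even_mul_succ_self k
    omega
  have h5 : (Ideal.absNorm (Ideal.span {δ}) : ℤ) % 8 = 1 := by
    rw [h3]
    obtain ⟨k, rfl⟩ := hx
    have : (2 * k + 1) ^ 2 + (a : ℤ) * (8 * y) ^ 2 = 4 * (k * (k + 1)) + 1 + 8 * (8 * a * y ^ 2) := by
      ring
    rw [this]
    obtain ⟨j, hj⟩ := Int.even_mul_succ_self k
    omega
  have h6 : Ideal.absNorm (Ideal.span {(m : 𝓞 K)}) % 8 = 1 := by omega
  have h7 : Ideal.absNorm (Ideal.span {δ}) % 8 = 1 := by omega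
  have h8 := congrArg (· % 8) h1
  simp only [Nat.mul_mod, h6, h7, one_mul, Nat.mod_mod] at h8
  exact h8

end Pool.Agent.Work.MP_8efaaa_nt.R
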