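import Mathlib
import Pool.Agent.Work.MP_8efaaa_nt.R.CInt
import Pool.Agent.Work.MP_8efaaa_nt.R.EInt
import Pool.Agent.Work.MP_8efaaa_nt.R.DFrob

/-!
# Block D, DActA: the automorphisms that fix `i = ζ ^ 2` act by ideals of norm `1 (mod 4)`

`k₁ = IntermediateField.adjoin K {ζ ^ 2}` (an intermediate field of `F / K`, a number field; `F / k₁` is
Galois, `IsGalois.tower_top_intermediateField`). `σ` is the restriction of scalars of an element of
`F ≃ₐ[k₁] F` (it fixes `K` and `ζ ^ 2`, so it fixes `k₁` pointwise; `IntermediateField.fixingSubgroup`,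
`IntermediateField.fixingSubgroupEquiv` may help). Apply `frob_closure` for `F / k₁` with the `N` of
`frob_act` and `Subgroup.closure_induction` to the property
`P τ : ∃ d, absNorm d % 4 = 1 ∧ DAct z k v τ d`.
Generators: `Q` prime, `q₁ = Q.comap (𝓞 k₁ → 𝓞 F)` of norm `l`, `q = Q.comap (𝓞 K → 𝓞 F) =
q₁.comap (𝓞 K → 𝓞 k₁)`; `absNorm q = l`: `𝓞 K ⧸ q → 𝓞 k₁ ⧸ q₁` is injective, so `absNorm q ≤ l`, and
`absNorm q ≠ 1`, and it is a power of the prime `l` (or: both rings contain the prime field with `l`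
elements as `l ∈ q`). `frob_act` gives `DAct`. `l % 4 = 1`: the image of `i = ζ ^ 2 ∈ 𝓞 k₁` in the field
`𝓞 k₁ ⧸ q₁ ≃ ZMod l` is a square root of `-1`, `l` is odd (`ZMod.exists_sq_eq_neg_one_iff`,
`ZMod.mod_four_ne_three_of_sq_eq_neg_one`). `P` is closed under products (`DAct σ d`, `DAct τ e` give
`DAct (σ τ) (d e)`; an ideal of norm `1 (mod 4)` is odd), `P 1` (`d = ⊤`), and inverses are powers
(`F ≃ₐ[k₁] F` is finite: `τ⁻¹ = τ ^ (orderOf τ - 1)`).
-/

set_option autoImplicit false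

namespace Pool.Agent.Work.MP_8efaaa_nt.R

open NumberField Pool.Agent.Work.CM

variable {K F : Type*} [Field K] [NumberField K] [Algebra K ℂ] [Field F] [NumberField F]
  [Algebra K F] [Algebra F ℂ] [IsScalarTower K F ℂ] [IsGalois K F] {a : ℕ} {s : K} {ζ : F}
  {z k v : Ideal (𝓞 K) → F}

omit [Algebra K ℂ] in
private theorem dvd_aux {k₁ : Type*} [Field k₁] [NumberField k₁] [Algebra K k₁]
    {q : Ideal (𝓞 k₁)} :
    Ideal.absNorm (q.comap (algebraMap (𝓞 K) (𝓞 k₁))) ∣ Ideal.absNorm q := by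
  rw [Ideal.absNorm_apply, Ideal.absNorm_apply, Submodule.cardQuot_apply, Submodule.cardQuot_apply]
  have hinj : Function.Injective
      (Ideal.quotientMap q (algebraMap (𝓞 K) (𝓞 k₁)) (le_refl _)) :=
    Ideal.quotientMap_injective
  exact AddSubgroup.card_dvd_of_injective
    (Ideal.quotientMap q (algebraMap (𝓞 K) (𝓞 k₁)) (le_refl _)).toAddMonoidHom hinj

/-- degree one over a bigger field implies degree one, and `l = 1 (mod 4)` if `i` is in the field -/
theorem deg_one {k₁ : Type*} [Field k₁] [NumberField k₁] [Algebra K k₁] {i : 𝓞 k₁}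
    (hi : i ^ 2 = -1) {l : ℕ} (hl : l.Prime) (hl2 : l ≠ 2) {q : Ideal (𝓞 k₁)} (hq : q.IsPrime)
    (hql : Ideal.absNorm q = l) :
    Ideal.absNorm (q.comap (algebraMap (𝓞 K) (𝓞 k₁))) = l ∧ l % 4 = 1 := by
  constructor
  · have h1 := dvd_aux (K := K) (q := q)
    rw [hql] at h1
    rcases (Nat.dvd_prime hl).1 h1 with h2 | h2
    · exfalso
      have h3 := Ideal.absNorm_eq_one_iff.1 h2
      exact (Ideal.comap_ne_top _ hq.ne_top) h3
    · exact h2
  · have hne : q ≠ ⊤ := hq.ne_top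
    have : Fact l.Prime := ⟨hl⟩
    have hcard : Nat.card (𝓞 k₁ ⧸ q) = l := by
      rw [← hql, Ideal.absNorm_apply, Submodule.cardQuot_apply]
    have : Finite (𝓞 k₁ ⧸ q) := Nat.finite_of_card_ne_zero (by rw [hcard]; exact hl.ne_zero)
    have := Fintype.ofFinite (𝓞 k₁ ⧸ q)
    have hcard' : Fintype.card (𝓞 k₁ ⧸ q) = l := by rw [← Nat.card_eq_fintype_card, hcard]
    let e := ZMod.ringEquivOfPrime (𝓞 k₁ ⧸ q) hl hcard'
    have h1 : (e.symm (Ideal.Quotient.mk q i)) ^ 2 = -1 := by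
      rw [← map_pow, ← map_pow, hi, map_neg, map_neg, map_one, map_one]
    have h2 := ZMod.mod_four_ne_three_of_sq_eq_neg_one h1
    have h3 := hl.eq_two_or_odd
    omega

omit [Algebra K ℂ] in
private theorem oddI_of_mod {d : Ideal (𝓞 K)} (hd : Ideal.absNorm d % 4 = 1) : OddI d := by
  unfold OddI
  rw [Nat.odd_iff]
  omega

omit [Algebra K ℂ] in
private theorem oddI_mulA {d c : Ideal (𝓞 K)} (hd : OddI d) (hc : OddI c) : OddI (d * c) := by
  unfold OddI at *
  rw [map_mul]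
  exact hd.mul hc

omit [Algebra K ℂ] in
private theorem mod_mul {d e : Ideal (𝓞 K)} (hd : Ideal.absNorm d % 4 = 1)
    (he : Ideal.absNorm e % 4 = 1) : Ideal.absNorm (d * e) % 4 = 1 := by
  rw [map_mul, Nat.mul_mod, hd, he]

private theorem act_mul {f g : F → F} {d e : Ideal (𝓞 K)} (he : Ideal.absNorm e % 4 = 1)
    (hf : DAct z k v f d) (hg : DAct z k v g e) : DAct z k v (fun x => f (g x)) (d * e) := by
  intro c hc
  obtain ⟨h1, h2, h3⟩ := hg c hc
  obtain ⟨h4, h5, h6⟩ := hf (e * c) (oddI_mulA (oddI_of_mod he) hc)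
  refine ⟨?_, ?_, ?_⟩
  · show f (g (z c)) = _
    rw [h1, h4, mul_assoc]
  · show f (g (k c)) = _
    rw [h2, h5, mul_assoc]
  · show f (g (v c)) = _
    rw [h3, h6, mul_assoc]

theorem act_one (hb : Base5 K a s) (h : DCtx K F s ζ z k v) {σ : F ≃ₐ[K] F}
    (hσ : σ (ζ ^ 2) = ζ ^ 2) :
    ∃ d : Ideal (𝓞 K), Ideal.absNorm d % 4 = 1 ∧ DAct z k v σ d := by
  obtain ⟨N, hN, h2N, hact⟩ := frob_act hb h
  let k₁ : IntermediateField K F := IntermediateField.adjoin K {ζ ^ 2}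
  have hmem : ζ ^ 2 ∈ k₁ := IntermediateField.mem_adjoin_simple_self K (ζ ^ 2)
  let j : k₁ := ⟨ζ ^ 2, hmem⟩
  have hj : j ^ 2 = -1 := by
    apply Subtype.ext
    show (ζ ^ 2) ^ 2 = -1
    rw [← pow_mul]
    exact h.z8
  have hji : IsIntegral ℤ j := by
    apply IsIntegral.of_pow (n := 2) (by norm_num)
    rw [hj]
    exact isIntegral_one.neg
  let i : 𝓞 k₁ := ⟨j, hji⟩
  have hi : i ^ 2 = -1 := by
    apply NumberField.RingOfIntegers.ext
    show j ^ 2 = -1
    exact hj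
  have hcomp : (algebraMap (𝓞 k₁) (𝓞 F)).comp (algebraMap (𝓞 K) (𝓞 k₁)) =
      algebraMap (𝓞 K) (𝓞 F) := by
    ext x
    rfl
  have key : ∀ τ : F ≃ₐ[k₁] F, ∃ d : Ideal (𝓞 K), Ideal.absNorm d % 4 = 1 ∧
      DAct z k v (fun x => τ x) d := by
    intro τ
    have hτ : τ ∈ Subgroup.closure {σ : F ≃ₐ[k₁] F | ∃ (l : ℕ) (Q : Ideal (𝓞 F)), l.Prime ∧
        ¬ l ∣ N ∧ Q.IsPrime ∧ Ideal.absNorm (Q.comap (algebraMap (𝓞 k₁) (𝓞 F))) = l ∧
        Frb σ Q l} := by
      rw [frob_closure N hN]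
      trivial
    have hone : ∃ d : Ideal (𝓞 K), Ideal.absNorm d % 4 = 1 ∧
        DAct z k v (fun x => (1 : F ≃ₐ[k₁] F) x) d := by
      refine ⟨1, by simp, ?_⟩
      intro c hc
      rw [one_mul]
      exact ⟨rfl, rfl, rfl⟩
    have hmul : ∀ x y : F ≃ₐ[k₁] F, (∃ d : Ideal (𝓞 K), Ideal.absNorm d % 4 = 1 ∧
        DAct z k v (fun t => x t) d) → (∃ d : Ideal (𝓞 K), Ideal.absNorm d % 4 = 1 ∧
        DAct z k v (fun t => y t) d) → ∃ d : Ideal (𝓞 K), Ideal.absNorm d % 4 = 1 ∧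
        DAct z k v (fun t => (x * y) t) d := by
      rintro x y ⟨d, hd, hd'⟩ ⟨e, he, he'⟩
      refine ⟨d * e, mod_mul hd he, ?_⟩
      have h9 := act_mul (f := fun t => x t) (g := fun t => y t) he hd' he'
      exact h9
    have hpow : ∀ (x : F ≃ₐ[k₁] F), (∃ d : Ideal (𝓞 K), Ideal.absNorm d % 4 = 1 ∧
        DAct z k v (fun t => x t) d) → ∀ n : ℕ, ∃ d : Ideal (𝓞 K), Ideal.absNorm d % 4 = 1 ∧
        DAct z k v (fun t => (x ^ n) t) d := by
      intro x hx n
      induction n with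
      | zero => rw [pow_zero]; exact hone
      | succ n ih => rw [pow_succ]; exact hmul _ _ ih hx
    induction hτ using Subgroup.closure_induction with
    | mem x hx =>
      obtain ⟨l, Q, hl, hlN, hQ, hQl, hF⟩ := hx
      have hl2 : l ≠ 2 := by
        rintro rfl
        exact hlN h2N
      have : (Q.comap (algebraMap (𝓞 k₁) (𝓞 F))).IsPrime := Ideal.comap_isPrime _ _
      obtain ⟨h1, h2⟩ := deg_one (K := K) hi hl hl2 this hQl
      rw [Ideal.comap_comap, hcomp] at h1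
      obtain ⟨-, h3⟩ := hact l Q (AlgEquiv.restrictScalars K x) hl hlN hQ h1 hF
      refine ⟨_, ?_, h3⟩
      rw [h1]
      exact h2
    | one => exact hone
    | mul x y _ _ hx hy => exact hmul x y hx hy
    | inv x _ hx =>
      have h1 : x⁻¹ = x ^ (orderOf x - 1) := by
        rw [inv_eq_iff_mul_eq_one, ← pow_succ']
        have : orderOf x - 1 + 1 = orderOf x := Nat.succ_pred_eq_of_pos (orderOf_pos x)
        rw [this, pow_orderOf_eq_one]
      rw [h1]
      exact hpow x hx _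
  have hfix : σ ∈ k₁.fixingSubgroup := by
    rw [IntermediateField.mem_fixingSubgroup_iff]
    intro x hx
    induction hx using IntermediateField.adjoin_induction with
    | mem x hx =>
      rw [Set.mem_singleton_iff] at hx
      rw [hx, hσ]
    | algebraMap x => exact σ.commutes x
    | add x y _ _ hx hy => rw [map_add, hx, hy]
    | inv x _ hx => rw [map_inv₀, hx]
    | mul x y _ _ hx hy => rw [map_mul, hx, hy]
  obtain ⟨d, hd, hd'⟩ := key (IntermediateField.fixingSubgroupEquiv k₁ ⟨σ, hfix⟩)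
  exact ⟨d, hd, hd'⟩

end Pool.Agent.Work.MP_8efaaa_nt.R
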