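import Mathlib
import Pool.Agent.Work.MP_8efaaa_nt.R.CInt
import Pool.Agent.Work.MP_8efaaa_nt.R.DCtx

/-!
# Block D, DAlg: the functions `X = (1 + z) / k`, `Y = 2 X / (v z)`, `U = 2 / z ^ 2 - 1`

All identities are checked in `ℂ` (`algebraMap F ℂ` is injective) or directly in `F` with
`z ^ 2 = 1 + k ^ 2` (`fz_sq`), `(v z) ^ 2 = 2 k` (`fvz_sq`), `k ≠ 0`, `z ≠ 0` (`fr_MM`), so `v ≠ 0`.
`X ^ 2 - 1 = 2 X / k`, hence `X ^ 3 - X = 2 X ^ 2 / k = Y ^ 2`; `1 / k = (1 + U) / v ^ 2`;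
`X ^ 2 + 1 = 2 z X / k`; `U ^ 2 + v ^ 4 = 1 + (4 + 4 k ^ 2 - 4 z ^ 2) / z ^ 4 = 1`; `X ≠ 0` since
`(1 + z) (z - 1) = k ^ 2 ≠ 0`. Translation: `z → -z` gives `(1 - z) / k = -1 / X` and `Y → Y / X ^ 2`.
-/

set_option autoImplicit false

namespace Pool.Agent.Work.MP_8efaaa_nt.R

open NumberField Pool.Agent.Work.CM

universe u

theorem alg_basic {F : Type*} [Field F] [CharZero F] {z k v : F} (h1 : z ^ 2 = 1 + k ^ 2)
    (h2 : (v * z) ^ 2 = 2 * k) (hk : k ≠ 0) (hz : z ≠ 0) :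
    v ≠ 0 ∧ (1 + z) / k ≠ 0 ∧
    (2 * ((1 + z) / k) / (v * z)) ^ 2 = ((1 + z) / k) ^ 3 - (1 + z) / k ∧
    (2 / z ^ 2 - 1) ^ 2 + v ^ 4 = 1 ∧ 1 + (2 / z ^ 2 - 1) ≠ 0 ∧
    ((1 + z) / k) ^ 2 - 1 = 2 * ((1 + z) / k) * (1 + (2 / z ^ 2 - 1)) / v ^ 2 ∧
    (2 * ((1 + z) / k) / (v * z)) * (((1 + z) / k) ^ 2 + 1) * v =
      4 * ((1 + z) / k) ^ 2 * (1 + (2 / z ^ 2 - 1)) / v ^ 2 ∧
    (1 + -z) / k = -1 / ((1 + z) / k) ∧
    2 * ((1 + -z) / k) / (v * -z) = (2 * ((1 + z) / k) / (v * z)) / ((1 + z) / k) ^ 2 := by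
  have hv : v ≠ 0 := by
    rintro rfl
    rw [zero_mul, zero_pow two_ne_zero] at h2
    exact hk (by simpa using h2.symm)
  have hz1 : 1 + z ≠ 0 := by
    intro h
    have : k ^ 2 = 0 := by linear_combination (z - 1) * h - h1
    exact hk (by simpa using this)
  have hX : (1 + z) / k ≠ 0 := div_ne_zero hz1 hk
  have h2' : v ^ 2 * z ^ 2 = 2 * k := by rw [← mul_pow]; exact h2
  refine ⟨hv, hX, ?_, ?_, ?_, ?_, ?_, ?_, ?_⟩
  · rw [div_pow, h2]
    field_simp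
    linear_combination (-1) * h1
  · field_simp
    linear_combination (v ^ 2 * z ^ 2 + 2 * k) * h2' - 4 * h1
  · rw [show 1 + (2 / z ^ 2 - 1) = 2 / z ^ 2 by ring]
    exact div_ne_zero two_ne_zero (pow_ne_zero 2 hz)
  · rw [show 1 + (2 / z ^ 2 - 1) = 2 / z ^ 2 by ring]
    field_simp
    linear_combination ((1 + z) ^ 2 - k ^ 2) * h2' + 2 * k * h1
  · rw [show 1 + (2 / z ^ 2 - 1) = 2 / z ^ 2 by ring]
    field_simp
    linear_combination 2 * (1 + z) * h2' - z * v ^ 2 * h1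
  · field_simp
    linear_combination (-1) * h1
  · field_simp
    linear_combination h1

private lemma odd_span {K : Type u} [Field K] [NumberField K] {a : ℕ} {s : K} (hb : Base5 K a s)
    {x y : ℤ} (hx : Odd x) {δ : 𝓞 K} (hδ : algebraMap (𝓞 K) K δ = x + 4 * y * s) :
    OddI (Ideal.span {δ}) := by
  have hs : IsIntegral ℤ s := by
    refine ⟨Polynomial.X ^ 2 + Polynomial.C (a : ℤ), Polynomial.monic_X_pow_add_C _ two_ne_zero, ?_⟩
    simp [hb.sq]
  obtain ⟨s', hs'⟩ : ∃ s' : 𝓞 K, algebraMap (𝓞 K) K s' = s := ⟨⟨s, hs⟩, rfl⟩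
  set n : ℤ := x ^ 2 + 16 * y ^ 2 * a with hn
  have hn1 : Odd n := by
    rw [hn]
    refine (hx.pow).add_even ?_
    exact ⟨8 * y ^ 2 * a, by ring⟩
  have hmul : δ * ((x : 𝓞 K) - 4 * y * s') = (n : 𝓞 K) := by
    apply FaithfulSMul.algebraMap_injective (𝓞 K) K
    simp only [map_mul, map_sub, map_intCast, hδ, hs', map_ofNat]
    rw [hn]
    push_cast
    linear_combination (-16 * (y : K) ^ 2) * hb.sq
  have hle : Ideal.span {(n : 𝓞 K)} ≤ Ideal.span {δ} := by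
    rw [Ideal.span_singleton_le_span_singleton]
    exact ⟨_, hmul.symm⟩
  have hdvd := Ideal.absNorm_dvd_absNorm_of_le hle
  have hodd : Odd (Ideal.absNorm (Ideal.span {(n : 𝓞 K)})) := by
    rw [Ideal.absNorm_span_singleton]
    have h1 : Algebra.norm ℤ (n : 𝓞 K) = n ^ Module.finrank ℤ (𝓞 K) := by
      have := Algebra.norm_algebraMap (S := 𝓞 K) n
      simpa using this
    rw [h1, Int.natAbs_pow]
    exact (Int.natAbs_odd.2 hn1).pow
  exact Odd.of_dvd_nat hodd hdvd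

/-- the Galois data from the context -/
theorem gdat_of_ctx {K : Type u} {F : Type*} [Field K] [NumberField K] [Algebra K ℂ] [Field F]
    [CharZero F] [Algebra K F] [Algebra F ℂ] [IsScalarTower K F ℂ] {a : ℕ} {s : K} {ζ : F}
    {z k v : Ideal (𝓞 K) → F} (hb : Base5 K a s) (h : DCtx K F s ζ z k v)
    (h1 : ∀ σ : F ≃ₐ[K] F, σ (ζ ^ 2) = ζ ^ 2 →
      ∃ d : Ideal (𝓞 K), Ideal.absNorm d % 4 = 1 ∧ DAct z k v σ d)
    (h2 : ∀ d : Ideal (𝓞 K), OddI d → ∃ σ : F ≃ₐ[K] F, σ ζ = ζ ^ Ideal.absNorm d ∧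
      DAct z k v σ d) :
    GDat K F s ζ (fun c => (1 + z c) / k c) (fun c => 2 * ((1 + z c) / k c) / (v c * z c)) := by
  have inj : Function.Injective (algebraMap F ℂ) := (algebraMap F ℂ).injective
  have e1 : ∀ c, OddI c → z c ^ 2 = 1 + k c ^ 2 := by
    intro c hc
    apply inj
    simp only [map_pow, map_add, map_one, h.hz c hc, h.hk c hc]
    exact fz_sq (fr_MM hb hc)
  have e2 : ∀ c, OddI c → (v c * z c) ^ 2 = 2 * k c := by
    intro c hc
    apply inj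
    simp only [map_pow, map_mul, map_ofNat, h.hz c hc, h.hk c hc, h.hv c hc]
    exact fvz_sq (fr_MM hb hc)
  have e3 : ∀ c, OddI c → k c ≠ 0 := by
    intro c hc h0
    have := h.hk c hc
    rw [h0, map_zero] at this
    exact fk_ne (fr_MM hb hc) this.symm
  have e4 : ∀ c, OddI c → z c ≠ 0 := by
    intro c hc h0
    have := h.hz c hc
    rw [h0, map_zero] at this
    exact fz_ne (fr_MM hb hc) this.symm
  have hA := fun c (hc : OddI c) => alg_basic (e1 c hc) (e2 c hc) (e3 c hc) (e4 c hc)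
  have oddmul : ∀ I J : Ideal (𝓞 K), OddI I → OddI J → OddI (I * J) := by
    intro I J hI hJ
    unfold OddI at *
    rw [map_mul]
    exact hI.mul hJ
  have hact : ∀ (σ : F ≃ₐ[K] F) (d : Ideal (𝓞 K)), DAct z k v σ d → ∀ c, OddI c →
      σ ((1 + z c) / k c) = (1 + z (d * c)) / k (d * c) ∧
      σ (2 * ((1 + z c) / k c) / (v c * z c)) =
        2 * ((1 + z (d * c)) / k (d * c)) / (v (d * c) * z (d * c)) := by
    intro σ d hd c hc
    obtain ⟨f1, f2, f3⟩ := hd c hc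
    constructor
    · rw [map_div₀, map_add, map_one, f1, f2]
    · rw [map_div₀, map_mul, map_div₀, map_add, map_one, map_mul, map_ofNat, f1, f2, f3]
  refine ⟨h.z8, fun c hc => (hA c hc).2.2.1, fun c hc => (hA c hc).2.1, ?_, ?_, ?_, ?_⟩
  · intro σ hσ
    obtain ⟨d, hd, hd'⟩ := h1 σ hσ
    exact ⟨d, hd, hact σ d hd'⟩
  · intro d hd
    obtain ⟨σ, hσ, hσ'⟩ := h2 d hd
    exact ⟨σ, hσ, hact σ d hσ'⟩
  · intro x y δ hx hδ c hc
    have hδc : OddI (Ideal.span {δ} * c) := oddmul _ _ (odd_span hb hx hδ) hc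
    obtain ⟨t1, t2, t3⟩ := c_tr1 hb hc hx hδ
    have k1 : k (Ideal.span {δ} * c) = k c := by
      apply inj
      rw [h.hk _ hδc, h.hk _ hc, t2]
    have v1 : v (Ideal.span {δ} * c) = v c := by
      apply inj
      rw [h.hv _ hδc, h.hv _ hc, t3]
    constructor
    · intro he
      have z1 : z (Ideal.span {δ} * c) = z c := by
        apply inj
        rw [h.hz _ hδc, h.hz _ hc, t1, he]
        simp
      simp only [k1, v1, z1, and_self]
    · intro he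
      have z1 : z (Ideal.span {δ} * c) = -z c := by
        apply inj
        rw [h.hz _ hδc, map_neg, h.hz _ hc, t1, he]
        simp
      simp only [k1, v1, z1]
      exact ⟨(hA c hc).2.2.2.2.2.2.2.1, (hA c hc).2.2.2.2.2.2.2.2⟩
  · refine ⟨v, fun c => 2 / z c ^ 2 - 1, fun c hc => ⟨(hA c hc).1, (hA c hc).2.2.2.1,
      (hA c hc).2.2.2.2.1, (hA c hc).2.2.2.2.2.1, (hA c hc).2.2.2.2.2.2.1, ?_⟩⟩
    intro δ hδ
    have hδc : OddI (Ideal.span {δ} * c) := oddmul _ _ hδ hc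
    obtain ⟨t1, t2⟩ := c_tr2 hb hc hδ
    have hU : ∀ c, OddI c → algebraMap F ℂ (2 / z c ^ 2 - 1) = Uc s c := by
      intro c hc
      rw [map_sub, map_div₀, map_pow, map_one, map_ofNat, h.hz c hc]
      rfl
    constructor
    · apply inj
      simp only [map_div₀, map_sub, map_pow, map_one, h.hv _ hδc, h.hv _ hc]
      exact t1
    · apply inj
      simp only [map_div₀, map_mul, map_add, map_pow, map_one, hU _ hδc, hU _ hc, h.hv _ hδc,
        h.hv _ hc]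
      exact t2

end Pool.Agent.Work.MP_8efaaa_nt.R
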