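import Mathlib
import Pool.Agent.Work.MP_8efaaa_nt.R.CInt
import Pool.Agent.Work.MP_8efaaa_nt.R.EInt
import Pool.Agent.Work.MP_8efaaa_nt.R.DMove
import Pool.Agent.Work.MP_8efaaa_nt.R.DFld
import Pool.Agent.Work.MP_8efaaa_nt.R.DActA
import Pool.Agent.Work.MP_8efaaa_nt.R.DActB
import Pool.Agent.Work.MP_8efaaa_nt.R.DAlg

/-!
# Interface of block D: the Galois data
-/

set_option autoImplicit false

namespace Pool.Agent.Work.MP_8efaaa_nt.R

open NumberField Pool.Agent.Work.CM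
open scoped Pointwise nonZeroDivisors

universe u

/-- Every odd ideal is equivalent to a product of primes of degree one outside a finite set. -/
theorem move {K : Type u} [Field K] [NumberField K] {a : ℕ} {s : K} (hb : Base5 K a s)
    {d : Ideal (𝓞 K)} (hd : OddI d) {N : ℕ} (hN : N ≠ 0) :
    ∃ (L : List (Ideal (𝓞 K))) (m x y : ℤ) (δ : 𝓞 K), Odd m ∧ Odd x ∧ m % 8 = x % 8 ∧
      algebraMap (𝓞 K) K δ = x + 8 * y * s ∧
      (∀ q ∈ L, q.IsPrime ∧ (Ideal.absNorm q).Prime ∧ ¬ Ideal.absNorm q ∣ N) ∧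
      Ideal.span {(m : 𝓞 K)} * L.prod = Ideal.span {δ} * d := mov_all hb hd hN

theorem exists_gdat {K : Type u} [Field K] [NumberField K] [Algebra K ℂ] {a : ℕ} {s : K}
    (hb : Base5 K a s) : ∃ (F : IntermediateField K ℂ) (_ : FiniteDimensional K F)
      (_ : IsGalois K F) (ζ : F) (X Y : Ideal (𝓞 K) → F), GDat K F s ζ X Y := by
  obtain ⟨F, hF1, hF2, ζ, z, k, v, h⟩ := exists_ctx hb
  have hNF : NumberField F := NumberField.of_module_finite K F
  exact ⟨F, hF1, hF2, ζ, _, _, gdat_of_ctx hb h (fun σ hσ => act_one hb h hσ)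
    (fun d hd => act_all hb h hd)⟩

end Pool.Agent.Work.MP_8efaaa_nt.R
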