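import Mathlib
import Pool.Agent.Work.MP_8efaaa_nt.R.FShift

/-!
# R/FSum: the sum over the half class group (block F)
-/

set_option autoImplicit false

namespace Pool.Agent.Work.MP_8efaaa_nt.R

open NumberField
open scoped Classical nonZeroDivisors

noncomputable section

universe u v

variable {K : Type u} {F : Type v} [Field K] [NumberField K] [Field F] [Algebra K F] [CharZero F]
  {a : ℕ} {s : K} {ζ : F} {X Y : Ideal (𝓞 K) → F}

/-- half of the class number -/
def hn (K : Type u) [Field K] [NumberField K] : ℕ := Fintype.card (ClassGroup (𝓞 K)) / 2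

theorem ne_bot_of_odd {d : Ideal (𝓞 K)} (hd : OddI d) : d ∈ (Ideal (𝓞 K))⁰ := by
  rw [mem_nonZeroDivisors_iff_ne_zero]
  rintro rfl
  unfold OddI at hd
  rw [Ideal.zero_eq_bot, Ideal.absNorm_bot] at hd
  exact absurd hd (by decide)

/-- the powers of exponent `h / 2` of ideals of norm `1 (mod 4)` are principal -/
theorem pow_hn (hb : Base5 K a s) {d : Ideal (𝓞 K)} (hd : Ideal.absNorm d % 4 = 1) :
    ∃ α : 𝓞 K, d ^ hn K = Ideal.span {α} := by
  obtain ⟨S, hS, hS1, hS2⟩ := exists_half hb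
  have hd0 := ne_bot_of_odd (oddI_of_one hd)
  have h1 := hS2 ⟨d, hd0⟩ hd
  have h2 : ClassGroup.mk0 ⟨d, hd0⟩ ^ hn K = 1 := by
    have h3 : hn K = Nat.card S := by
      unfold hn
      omega
    have h4 := pow_card_eq_one' (x := (⟨ClassGroup.mk0 ⟨d, hd0⟩, h1⟩ : S))
    rw [h3]
    exact congrArg Subtype.val h4
  rw [← map_pow, ClassGroup.mk0_eq_one_iff] at h2
  obtain ⟨α, hα⟩ := h2.principal
  exact ⟨α, hα⟩

/-- the sum over the half class group -/
theorem exists_sum (hb : Base5 K a s) (hG : GDat K F s ζ X Y) : ∃ R : (cQ F).Point,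
    (∀ (σ : F ≃ₐ[K] F) (d : Ideal (𝓞 K)) (α : 𝓞 K), Ideal.absNorm d % 4 = 1 → ActsBy X Y σ d →
      d ^ hn K = Ideal.span {α} → gal σ R = R + tt hG (Ideal.span {α})) ∧
    ∀ (σ τ : F ≃ₐ[K] F) (d e : Ideal (𝓞 K)), OddI d → OddI e → ActsBy X Y σ d → ActsBy X Y τ e →
      gal σ (gal τ R) = gal τ (gal σ R) := by
  obtain ⟨S, hS, hS1, hS2⟩ := exists_half hb
  choose! b hb1 hb2 using hS1
  have hodd : ∀ C : S, OddI (b C : Ideal (𝓞 K)) := fun C => oddI_of_one (hb1 C C.2)
  have hcard : Fintype.card S = hn K := by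
    rw [← Nat.card_eq_fintype_card]
    unfold hn
    omega
  refine ⟨∑ C : S, PP hG (b C : Ideal (𝓞 K)), ?_, ?_⟩
  · intro σ d α hd hσ hα
    have hd' := oddI_of_one hd
    have hd0 := ne_bot_of_odd hd'
    set D : S := ⟨ClassGroup.mk0 ⟨d, hd0⟩, hS2 ⟨d, hd0⟩ hd⟩ with hD
    have key : ∀ C : S, ∃ p q : 𝓞 K, OddI (Ideal.span {p}) ∧ OddI (Ideal.span {q}) ∧
        Ideal.span {p} * (d * (b C : Ideal (𝓞 K))) = Ideal.span {q} * (b (D * C : S) : Ideal (𝓞 K)) := by
      intro C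
      have h1 := equiv_odd hb (b := ⟨d, hd0⟩ * b C) (b' := b (D * C : S))
        (oddI_mul'.2 ⟨hd', hodd C⟩) (hodd (D * C)) (by
          rw [map_mul, hb2 C C.2, hb2 _ (D * C).2]
          rfl)
      exact h1
    choose p q hp hq hpq using key
    have h1 : ∀ C : S, gal σ (PP hG (b C : Ideal (𝓞 K))) = PP hG (b (D * C : S) : Ideal (𝓞 K)) +
        tt hG (Ideal.span {q C}) - tt hG (Ideal.span {p C}) := by
      intro C
      have e1 := shift hG (b := d * (b C : Ideal (𝓞 K))) (by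
        rw [map_mul, Nat.mul_mod, hd, hb1 C C.2]) (hp C)
      have e2 := shift hG (hb1 (D * C : S) (D * C).2) (hq C)
      rw [hpq, e2] at e1
      rw [gal_PP hG hσ hd' (hodd C), e1, add_sub_cancel_right]
    rw [map_sum, Finset.sum_congr rfl (fun C _ => h1 C), Finset.sum_sub_distrib,
      Finset.sum_add_distrib]
    have h2 : ∑ C : S, PP hG (b (D * C : S) : Ideal (𝓞 K)) = ∑ C : S, PP hG (b C : Ideal (𝓞 K)) :=
      Equiv.sum_comp (Equiv.mulLeft D) (fun C : S => PP hG (b C : Ideal (𝓞 K)))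
    obtain ⟨h3, h4⟩ := tt_prod hb hG Finset.univ p hp
    obtain ⟨h5, h6⟩ := tt_prod hb hG Finset.univ q hq
    have h7 : Ideal.span {∏ C : S, p C} * Ideal.span {α} = Ideal.span {∏ C : S, q C} := by
      have h8 : ∏ C : S, (Ideal.span {p C} * (d * (b C : Ideal (𝓞 K)))) =
          ∏ C : S, (Ideal.span {q C} * (b (D * C : S) : Ideal (𝓞 K))) :=
        Finset.prod_congr rfl (fun C _ => hpq C)
      have h9 : ∏ C : S, (b (D * C : S) : Ideal (𝓞 K)) = ∏ C : S, (b C : Ideal (𝓞 K)) :=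
        Equiv.prod_comp (Equiv.mulLeft D) (fun C : S => (b C : Ideal (𝓞 K)))
      rw [Finset.prod_mul_distrib, Finset.prod_mul_distrib, Finset.prod_mul_distrib, h9,
        Finset.prod_const, Finset.card_univ, hcard, hα, Ideal.prod_span_singleton,
        Ideal.prod_span_singleton, ← mul_assoc] at h8
      refine mul_right_cancel₀ ?_ h8
      rw [Finset.prod_ne_zero_iff]
      exact fun C _ => nonZeroDivisors.ne_zero (b C).2
    have h10 : OddI (Ideal.span {α}) := (oddI_mul'.1 (h7 ▸ h5)).2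
    have h11 := tt_mul hb hG h3 h10
    rw [h7, h6, h4] at h11
    rw [h2, h11]
    abel
  · intro σ τ d e hd he hσ hτ
    rw [map_sum, map_sum, map_sum, map_sum]
    refine Finset.sum_congr rfl (fun C _ => ?_)
    rw [gal_PP hG hτ he (hodd C), gal_PP hG hσ hd (oddI_mul'.2 ⟨he, hodd C⟩),
      gal_PP hG hσ hd (hodd C), gal_PP hG hτ he (oddI_mul'.2 ⟨hd, hodd C⟩), mul_left_comm]

end

end Pool.Agent.Work.MP_8efaaa_nt.R
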