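import Mathlib
import Pool.Agent.Work.MP_8efaaa_nt.R.SC

/-!
# R/SI: the function `s = sg N L` of a pair of lattices of index two: squares, derivative, addition
formula, duplication formula, product formula, uniqueness
-/

set_option autoImplicit false

namespace Pool.Agent.Work.MP_8efaaa_nt.R

open Pool.Agent.Work.CM Filter Topology
open scoped Pointwise

variable {N L B D : Submodule ℤ ℂ}

theorem si_gf (_h : Two N L) : gf L (half N) = sg N L := by rw [gf_def, dbl_half]

theorem si_tri (h : Two N L) : ∃ B D, Tri L (half N) B D := exists_tri h.half_two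

/-- the square of `s` -/
theorem si_sq (h : Two N L) {z : ℂ} (hz : z ∉ L) : sg N L z ^ 2 = wp L z + 2 * ev N L := by
  rw [sg_sq h hz, h.ev_half]
  ring

/-- `s` vanishes on the points of order two of `N` (on `L` by the junk value) -/
theorem si_zero (h : Two N L) {z : ℂ} (hz : z ∈ half N) : sg N L z = 0 := by
  by_cases hzL : z ∈ L
  · by_cases hzN : z ∈ N
    · have h1 : wpd N 0 = 0 := by
        have h2 := h.lat.wpd_neg 0
        rw [neg_zero] at h2
        linear_combination h2 / 2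
      have h3 := h.lat.wpd_add 0 hzN
      rw [zero_add, h1] at h3
      unfold sg
      rw [h3, zero_div]
    · unfold sg
      rw [h.ev_eq hzL hzN, sub_self, mul_zero, div_zero]
  · have h1 := sg_sq h hzL
    rw [h.half_two.ev_eq hz hzL, sub_self] at h1
    exact pow_eq_zero_iff two_ne_zero |>.1 h1

theorem si_zero_iff (h : Two N L) {z : ℂ} : sg N L z = 0 ↔ z ∈ half N := by
  refine ⟨fun h1 => ?_, si_zero h⟩
  by_contra h2
  exact sg_ne h h2 h1

theorem si_three (hT : Tri L (half N) B D) {z : ℂ} (hz : z ∉ L) :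
    wpd L z ^ 2 = 4 * ((wp L z - ev L (half N)) * (wp L z - ev L B) * (wp L z - ev L D)) := by
  rw [hT.wpd_eq hz, ← gf_sq hT.a hz, ← gf_sq hT.b hz, ← gf_sq hT.d hz]
  ring

theorem si_csq (h : Two N L) (hT : Tri L (half N) B D) :
    csq N L = (ev L (half N) - ev L B) * (ev L (half N) - ev L D) := by
  obtain ⟨u, hu, hu', -⟩ := h.ex
  obtain ⟨b, hb⟩ : ∃ b : ℂ, 2 * b = u := ⟨u / 2, by ring⟩
  have hbL : b ∉ L := fun h1 => hu' (hb ▸ h.two_mem h1)
  have hbH : b ∉ half N := fun h1 => hu' (hb ▸ mem_half.1 h1)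
  have t1 := h.translate (u := -u) (neg_mem hu) (fun h1 => hu' (by simpa using neg_mem h1)) hbL
  have e6 : b + -u = -b := by rw [← hb]; ring
  rw [e6, h.lat.wp_neg] at t1
  have n1 : wp N b - ev N L ≠ 0 := sub_ne_zero.2 (h.wp_ne hbL)
  have e2 : wp L b = 2 * wp N b - ev N L := by
    rw [h.wp_eq hbL, ← t1, mul_div_assoc, div_self n1]
    ring
  have e1 : ev L (half N) = -2 * ev N L := h.ev_half
  have n2 : wp L b - ev L (half N) ≠ 0 := sub_ne_zero.2 (h.half_two.wp_ne hbH)
  have t2 := si_three hT hbL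
  rw [h.lat'.wpd_half (by rw [hb]; exact hu)] at t2
  have t3 : (wp L b - ev L B) * (wp L b - ev L D) = 0 := by
    apply mul_left_cancel₀ n2
    linear_combination -t2 / 4
  have hs := hT.sum
  have key : (ev L (half N) - ev L B) * (ev L (half N) - ev L D) =
      (ev L (half N) - wp L b) * (2 * ev L (half N) + wp L b) := by
    linear_combination t3 + (-ev L (half N) + wp L b) * hs
  rw [key, e2, e1]
  unfold csq
  linear_combination 4 * t1

theorem si_csq_ne (h : Two N L) : csq N L ≠ 0 := by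
  obtain ⟨B, D, hT⟩ := si_tri h
  rw [si_csq h hT]
  exact mul_ne_zero hT.ne_ab (sub_ne_zero.2 (Two.ev_ne hT.a hT.d hT.da.symm))

/-- translation by a point of order two -/
theorem si_half (h : Two N L) {g : ℂ} (hg : g ∈ half N) (hg' : g ∉ L) :
    ∃ k, k ^ 2 = csq N L ∧ ∀ z ∉ half N, sg N L (z + g) * sg N L z = k := by
  obtain ⟨B, D, hT⟩ := si_tri h
  refine ⟨-(gf L B g * gf L D g), ?_, fun z hz => ?_⟩
  · rw [si_csq h hT, neg_sq, mul_pow, hT.swap.val hg hg', hT.rot.rot.val hg hg']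
  · rw [← si_gf h]
    exact hT.mul_const hg hg' hz

/-- the derivative of `s` -/
theorem si_deriv (h : Two N L) (hT : Tri L (half N) B D) {z : ℂ} (hz : z ∉ L) :
    deriv (sg N L) z = gf L B z * gf L D z := by
  rw [← si_gf h]
  exact (hT.hasDerivAt hz).deriv

theorem si_hasDerivAt (h : Two N L) {z : ℂ} (hz : z ∉ L) :
    HasDerivAt (sg N L) (deriv (sg N L) z) z := (sg_analytic h hz).differentiableAt.hasDerivAt

theorem si_deriv_analytic (h : Two N L) {z : ℂ} (hz : z ∉ L) :
    AnalyticAt ℂ (deriv (sg N L)) z := (sg_analytic h hz).deriv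

/-- the differential equation -/
theorem si_ode (h : Two N L) {z : ℂ} (hz : z ∉ L) :
    deriv (sg N L) z ^ 2 = sg N L z ^ 4 - 6 * ev N L * sg N L z ^ 2 + csq N L := by
  obtain ⟨B, D, hT⟩ := si_tri h
  rw [si_deriv h hT hz, mul_pow, gf_sq hT.b hz, gf_sq hT.d hz, si_csq h hT]
  have e1 : ev L (half N) = -2 * ev N L := h.ev_half
  have e2 := si_sq h hz
  have hs := hT.sum
  have e3 : wp L z = sg N L z ^ 2 - 2 * ev N L := by rw [e2]; ring
  have e4 : ev L D = 2 * ev N L - ev L B := by linear_combination hs - e1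
  rw [e3, e4, e1]
  ring

theorem si_deriv_neg (h : Two N L) {z : ℂ} (hz : z ∉ L) :
    deriv (sg N L) (-z) = deriv (sg N L) z := by
  obtain ⟨B, D, hT⟩ := si_tri h
  have hz' : -z ∉ L := fun h1 => hz (by simpa using neg_mem h1)
  rw [si_deriv h hT hz, si_deriv h hT hz', gf_neg hT.b, gf_neg hT.d]
  ring

theorem si_deriv2 (h : Two N L) {z : ℂ} (hz : z ∉ L) :
    HasDerivAt (deriv (sg N L)) (2 * sg N L z ^ 3 - 6 * ev N L * sg N L z) z := by
  obtain ⟨B, D, hT⟩ := si_tri h
  have h1 := (hT.swap.sw.hasDerivAt hz).mul (hT.rot.rot.hasDerivAt hz)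
  have hc : deriv (sg N L) =ᶠ[𝓝 z] (gf L B) * (gf L D) := by
    filter_upwards [h.lat'.compl_mem_nhds hz] with w hw
    exact si_deriv h hT hw
  refine (h1.congr_of_eventuallyEq hc).congr_deriv ?_
  have e1 : ev L (half N) = -2 * ev N L := h.ev_half
  have e2 := si_sq h hz
  have hs := hT.sum
  have s2 := gf_sq hT.b hz
  have s3 := gf_sq hT.d hz
  rw [si_gf h]
  have e5 : gf L D z * sg N L z * gf L D z + gf L B z * (sg N L z * gf L B z) =
      sg N L z * (gf L B z ^ 2 + gf L D z ^ 2) := by ring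
  rw [e5, s2, s3]
  linear_combination -2 * sg N L z * e2 - sg N L z * (hs - e1)

/-- the factorisation of the differential equation by the value at a quarter point -/
theorem si_ode' (h : Two N L) {b : ℂ} (hb : 2 * b ∈ L) (hb' : 2 * b ∉ N) {z : ℂ} (hz : z ∉ L) :
    deriv (sg N L) z ^ 2 * sg N L b ^ 2 =
      (sg N L z ^ 2 - sg N L b ^ 2) * (sg N L b ^ 2 * sg N L z ^ 2 - csq N L) := by
  obtain ⟨B, D, hT⟩ := si_tri h
  have hbL : b ∉ L := fun h1 => hb' (h.two_mem h1)
  have hbH : b ∉ half N := fun h1 => hb' (mem_half.1 h1)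
  have h0 : deriv (sg N L) b = 0 := by
    have h1 := hT.wpd_eq hbL
    rw [h.lat'.wpd_half hb, mul_assoc, ← si_deriv h hT hbL] at h1
    have h2 : gf L (half N) b * deriv (sg N L) b = 0 := by linear_combination -h1 / 2
    exact (mul_eq_zero.1 h2).resolve_left (gf_ne hT.a hbH)
  have h1 := si_ode h hbL
  have h2 := si_ode h hz
  rw [h0] at h1
  rw [h2]
  linear_combination -(sg N L z ^ 2) * h1

theorem si_quarter_ne (h : Two N L) {b : ℂ} (hb' : 2 * b ∉ N) : sg N L b ≠ 0 :=
  sg_ne h fun h1 => hb' (mem_half.1 h1)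

/-- the derivative has the principal part `1 / z ^ 2` -/
theorem si_deriv_tendsto (h : Two N L) :
    Tendsto (fun z => z ^ 2 * deriv (sg N L) z) (𝓝[≠] 0) (𝓝 1) := by
  obtain ⟨B, D, hT⟩ := si_tri h
  have h1 := (gf_tendsto hT.b).mul (gf_tendsto hT.d)
  have e : (-1 : ℂ) * -1 = 1 := by norm_num
  rw [e] at h1
  refine h1.congr' ?_
  filter_upwards [h.lat'.compl_mem_nhdsNE 0] with w hw
  rw [si_deriv h hT hw]
  ring

private theorem si_sub_mem (h : Two N L) {u v : ℂ} (hu : u ∈ half N) (hu' : u ∉ L) (hv : v ∈ half N)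
    (hv' : v ∉ L) : u + v ∈ L := by
  by_contra h1
  have h2 : -v ∈ half N := neg_mem hv
  have h2' : -v ∉ L := fun h3 => hv' (by simpa using neg_mem h3)
  have h3 := h.half_two.sub_mem hu hu' h2 h2'
  rw [sub_neg_eq_add] at h3
  exact h1 h3

/-- the addition formula -/
theorem si_add (h : Two N L) {u v : ℂ} (hu : u ∉ L) (hv : v ∉ L) (huv : u + v ∉ L) :
    sg N L (u + v) * (sg N L u * deriv (sg N L) v + sg N L v * deriv (sg N L) u) =
      sg N L u ^ 2 * sg N L v ^ 2 - csq N L := by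
  set c : ℂ := u + v with hc
  by_cases hcH : c ∈ half N
  · have huH : u ∉ half N := by
      intro h1
      have h2 := si_sub_mem h hcH huv (u := c) (v := -u) (neg_mem h1)
        (fun h3 => hu (by simpa using neg_mem h3))
      rw [hc] at h2
      exact hv (by simpa using h2)
    have huH' : -u ∉ half N := fun h1 => huH (by simpa using neg_mem h1)
    obtain ⟨k, hk, hk'⟩ := si_half h hcH huv
    have h1 := hk' _ huH'
    have e1 : -u + c = v := by rw [hc]; ring
    rw [e1, sg_neg h.lat] at h1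
    rw [si_zero h hcH, zero_mul, ← hk, ← h1]
    ring
  have hc0 : sg N L c ≠ 0 := sg_ne h hcH
  set e : ℂ := ev N L with he
  set k : ℂ := csq N L with hk
  let S : Set ℂ := (L : Set ℂ) ∪ (fun z => c - z) ⁻¹' (L : Set ℂ)
  have hS : ∀ z, z ∉ S ↔ z ∉ L ∧ c - z ∉ L := by
    intro z
    simp only [S, Set.mem_union, Set.mem_preimage, SetLike.mem_coe, not_or]
  have hSc : S.Countable := by
    refine h.lat'.countable.union (h.lat'.countable.preimage ?_)
    intro x y hxy
    exact sub_right_injective hxy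
  have hScl : IsClosed S := h.lat'.isClosed.union (h.lat'.isClosed.preimage (by fun_prop))
  have hS0 : Sᶜ ∈ 𝓝[≠] (0 : ℂ) := by
    have h1 : ∀ᶠ z in 𝓝 (0 : ℂ), c - z ∉ L := by
      have h2 : ContinuousAt (fun z : ℂ => c - z) 0 := by fun_prop
      have h3 : (L : Set ℂ)ᶜ ∈ 𝓝 ((fun z : ℂ => c - z) 0) := by
        simp only [sub_zero]
        exact h.lat'.compl_mem_nhds huv
      exact h2.eventually_mem h3
    filter_upwards [h.lat'.compl_mem_nhdsNE 0, mem_nhdsWithin_of_mem_nhds h1] with z hz1 hz2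
    exact (hS z).2 ⟨hz1, hz2⟩
  let F : ℂ → ℂ := fun z => sg N L z * deriv (sg N L) (c - z) + sg N L (c - z) * deriv (sg N L) z
  let G : ℂ → ℂ := fun z => sg N L z ^ 2 * sg N L (c - z) ^ 2 - k
  have dF : ∀ z ∉ S, HasDerivAt F (2 * sg N L z * sg N L (c - z) *
      (sg N L z ^ 2 - sg N L (c - z) ^ 2)) z := by
    intro z hz
    obtain ⟨hz1, hz2⟩ := (hS z).1 hz
    have d1 := si_hasDerivAt h hz1
    have d2 := (si_hasDerivAt h hz2).comp_const_sub c z
    have d3 := si_deriv2 h hz1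
    have d4 := (si_deriv2 h hz2).comp_const_sub c z
    refine ((d1.mul d4).add (d2.mul d3)).congr_deriv ?_
    ring
  have dG : ∀ z ∉ S, HasDerivAt G (2 * sg N L z * sg N L (c - z) *
      (deriv (sg N L) z * sg N L (c - z) - sg N L z * deriv (sg N L) (c - z))) z := by
    intro z hz
    obtain ⟨hz1, hz2⟩ := (hS z).1 hz
    have d1 := si_hasDerivAt h hz1
    have d2 := (si_hasDerivAt h hz2).comp_const_sub c z
    refine (((d1.pow 2).mul (d2.pow 2)).sub_const k).congr_deriv ?_
    simp only [Pi.pow_apply]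
    push_cast
    ring
  have aF : AnalyticOnNhd ℂ F Sᶜ :=
    (DifferentiableOn.analyticOnNhd (fun z hz => (dF z hz).differentiableAt.differentiableWithinAt)
      hScl.isOpen_compl)
  have aG : AnalyticOnNhd ℂ G Sᶜ :=
    (DifferentiableOn.analyticOnNhd (fun z hz => (dG z hz).differentiableAt.differentiableWithinAt)
      hScl.isOpen_compl)
  have lid : Tendsto (fun z : ℂ => z) (𝓝[≠] 0) (𝓝 0) := by
    have h1 : Tendsto (fun z : ℂ => z) (𝓝 0) (𝓝 0) := tendsto_id
    exact h1.mono_left nhdsWithin_le_nhds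
  have ls : Tendsto (fun z : ℂ => sg N L (c - z)) (𝓝[≠] 0) (𝓝 (sg N L c)) := by
    have h1 : ContinuousAt (sg N L) (c - 0) := by
      rw [sub_zero]
      exact (sg_analytic h huv).continuousAt
    have h2 : ContinuousAt (fun z : ℂ => sg N L (c - z)) 0 :=
      ContinuousAt.comp (f := fun z : ℂ => c - z) h1 (by fun_prop)
    have h3 := h2.tendsto
    rw [sub_zero] at h3
    exact h3.mono_left nhdsWithin_le_nhds
  have ld : Tendsto (fun z : ℂ => deriv (sg N L) (c - z)) (𝓝[≠] 0) (𝓝 (deriv (sg N L) c)) := by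
    have h1 : ContinuousAt (deriv (sg N L)) (c - 0) := by
      rw [sub_zero]
      exact (si_deriv_analytic h huv).continuousAt
    have h2 : ContinuousAt (fun z : ℂ => deriv (sg N L) (c - z)) 0 :=
      ContinuousAt.comp (f := fun z : ℂ => c - z) h1 (by fun_prop)
    have h3 := h2.tendsto
    rw [sub_zero] at h3
    exact h3.mono_left nhdsWithin_le_nhds
  have lF : Tendsto (fun z => z ^ 2 * F z) (𝓝[≠] 0) (𝓝 (sg N L c)) := by
    have h1 := (lid.mul ((sg_tendsto h).mul ld)).add (ls.mul (si_deriv_tendsto h))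
    rw [zero_mul, zero_add, mul_one] at h1
    refine h1.congr fun z => ?_
    simp only [F]
    ring
  have lG : Tendsto (fun z => z ^ 2 * G z) (𝓝[≠] 0) (𝓝 (sg N L c ^ 2)) := by
    have h1 := (((sg_tendsto h).pow 2).mul (ls.pow 2)).sub ((lid.pow 2).mul_const k)
    have e1 : (-1 : ℂ) ^ 2 * sg N L c ^ 2 - 0 ^ 2 * k = sg N L c ^ 2 := by ring
    rw [e1] at h1
    refine h1.congr fun z => ?_
    simp only [G]
    ring
  obtain ⟨z0, hz0, hG0⟩ : ∃ z0, z0 ∉ S ∧ G z0 ≠ 0 := by
    have h1 : ∀ᶠ z in 𝓝[≠] (0 : ℂ), z ^ 2 * G z ≠ 0 := lG.eventually_ne (pow_ne_zero 2 hc0)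
    obtain ⟨z, hz1, hz2⟩ := (h1.and hS0).exists
    exact ⟨z, hz2, fun h3 => hz1 (by rw [h3, mul_zero])⟩
  obtain ⟨K, hK⟩ : ∃ K, F =ᶠ[𝓝 z0] fun z => K * G z := by
    have h0 : ∀ᶠ z in 𝓝 z0, z ∉ S := hScl.isOpen_compl.mem_nhds hz0
    have h1 : ∀ᶠ z in 𝓝 z0, z ∉ S ∧ G z ≠ 0 :=
      h0.and ((aG z0 hz0).continuousAt.eventually_ne hG0)
    obtain ⟨r, hr, hr'⟩ := Metric.eventually_nhds_iff_ball.1 h1
    have h2 : ∀ z ∈ Metric.ball z0 r, HasDerivAt (fun z => F z / G z) 0 z := by
      intro z hz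
      obtain ⟨hz1, hz2⟩ := hr' z hz
      refine ((dF z hz1).div (dG z hz1) hz2).congr_deriv ?_
      obtain ⟨hz3, hz4⟩ := (hS z).1 hz1
      have o1 := si_ode h hz3
      have o2 := si_ode h hz4
      rw [div_eq_zero_iff]
      left
      simp only [F, G]
      linear_combination (-2 * sg N L z * sg N L (c - z)) *
        (sg N L (c - z) ^ 2 * o1 - sg N L z ^ 2 * o2)
    refine ⟨F z0 / G z0, ?_⟩
    filter_upwards [Metric.ball_mem_nhds z0 hr] with z hz
    have h3 := Metric.isOpen_ball.is_const_of_deriv_eq_zero (convex_ball z0 r).isPreconnected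
      (f := fun z => F z / G z)
      (fun w hw => (h2 w hw).differentiableAt.differentiableWithinAt)
      (fun w hw => (h2 w hw).deriv) hz (Metric.mem_ball_self hr)
    have h4 : F z / G z = F z0 / G z0 := h3
    rw [← h4, div_mul_cancel₀ _ (hr' z hz).2]
  have h5 := ident hSc aF (g := fun z => K * G z) (fun z hz => analyticAt_const.fun_mul (aG z hz)) hz0 hK
  have h6 : K * sg N L c = 1 := by
    have l1 := lG.const_mul K
    have l2 : Tendsto (fun z => z ^ 2 * F z) (𝓝[≠] 0) (𝓝 (K * sg N L c ^ 2)) := by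
      refine l1.congr' ?_
      filter_upwards [hS0] with z hz
      rw [h5 z hz]
      ring
    have l3 := tendsto_nhds_unique lF l2
    apply mul_right_cancel₀ hc0
    linear_combination -l3
  have h7 := h5 u ((hS u).2 ⟨hu, by rw [hc]; simpa using hv⟩)
  have e1 : c - u = v := by rw [hc]; ring
  simp only [F, G] at h7
  rw [e1] at h7
  rw [h7]
  linear_combination (sg N L u ^ 2 * sg N L v ^ 2 - k) * h6

/-- the duplication formula -/
theorem si_dup (h : Two N L) {u : ℂ} (hu : 2 * u ∉ L) :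
    2 * sg N L (2 * u) * sg N L u * deriv (sg N L) u = sg N L u ^ 4 - csq N L := by
  have hu' : u ∉ L := fun h1 => hu (by
    have := add_mem h1 h1
    rwa [← two_mul] at this)
  have h1 := si_add h hu' hu' (by rwa [← two_mul])
  rw [← two_mul] at h1
  linear_combination h1

/-- the product formula -/
theorem si_prod (h : Two N L) {u v : ℂ} (hu : u ∉ L) (hv : v ∉ L) (huv : u + v ∉ L)
    (huv' : u - v ∉ L) : sg N L (u + v) * sg N L (u - v) * (sg N L v ^ 2 - sg N L u ^ 2) =
      sg N L u ^ 2 * sg N L v ^ 2 - csq N L := by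
  let S : Set ℂ := (L : Set ℂ) ∪ ((fun z => z + v) ⁻¹' (L : Set ℂ) ∪ (fun z => z - v) ⁻¹' (L : Set ℂ))
  have hS : ∀ z, z ∉ S ↔ z ∉ L ∧ z + v ∉ L ∧ z - v ∉ L := by
    intro z
    simp only [S, Set.mem_union, Set.mem_preimage, SetLike.mem_coe, not_or]
  have hSc : S.Countable := by
    refine h.lat'.countable.union ((h.lat'.countable.preimage ?_).union (h.lat'.countable.preimage ?_))
    · intro x y hxy
      exact add_left_injective v hxy
    · intro x y hxy
      exact sub_left_injective hxy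
  have hScl : IsClosed S := h.lat'.isClosed.union ((h.lat'.isClosed.preimage (by fun_prop)).union
    (h.lat'.isClosed.preimage (by fun_prop)))
  have hv' : -v ∉ L := fun h1 => hv (by simpa using neg_mem h1)
  have a1 : ∀ z ∉ S, AnalyticAt ℂ (sg N L) z ∧ AnalyticAt ℂ (fun z => sg N L (z + v)) z ∧
      AnalyticAt ℂ (fun z => sg N L (z - v)) z := by
    intro z hz
    obtain ⟨h1, h2, h3⟩ := (hS z).1 hz
    refine ⟨sg_analytic h h1, ?_, ?_⟩
    · exact AnalyticAt.fun_comp (g := sg N L) (f := fun w => w + v) (sg_analytic h h2) (by fun_prop)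
    · exact AnalyticAt.fun_comp (g := sg N L) (f := fun w => w - v) (sg_analytic h h3) (by fun_prop)
  have h1 := zero_or_zero hSc hScl
    (f := fun z => sg N L (z + v) * sg N L (z - v) * (sg N L v ^ 2 - sg N L z ^ 2) -
      (sg N L z ^ 2 * sg N L v ^ 2 - csq N L))
    (g := fun z => sg N L z ^ 2 * sg N L v ^ 2 - csq N L)
    (fun z hz => by
      obtain ⟨h1, h2, h3⟩ := a1 z hz
      exact ((h2.fun_mul h3).fun_mul (analyticAt_const.fun_sub (h1.fun_pow 2))).fun_sub
        (((h1.fun_pow 2).fun_mul analyticAt_const).fun_sub analyticAt_const))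
    (fun z hz => by
      obtain ⟨h1, h2, h3⟩ := a1 z hz
      exact ((h1.fun_pow 2).fun_mul analyticAt_const).fun_sub analyticAt_const)
    (fun z hz => by
      obtain ⟨h1, h2, h3⟩ := (hS z).1 hz
      have f1 := si_add h h1 hv h2
      have f2 := si_add h h1 hv' (by rwa [← sub_eq_add_neg])
      rw [sg_neg h.lat, si_deriv_neg h hv, ← sub_eq_add_neg] at f2
      have o1 := si_ode h h1
      have o2 := si_ode h hv
      linear_combination (sg N L (z - v) * (sg N L z * deriv (sg N L) v + -sg N L v *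
        deriv (sg N L) z)) * f1 + (sg N L z ^ 2 * sg N L v ^ 2 - csq N L) * f2 -
        sg N L (z + v) * sg N L (z - v) * (sg N L z ^ 2 * o2 - sg N L v ^ 2 * o1))
  rcases h1 with h1 | h1
  · exact sub_eq_zero.1 (h1 u ((hS u).2 ⟨hu, huv, huv'⟩))
  · have e1 := h1 u ((hS u).2 ⟨hu, huv, huv'⟩)
    exfalso
    -- the square of `s` would be constant
    have hsv : sg N L v ^ 2 ≠ 0 := by
      intro h0
      simp only [h0, mul_zero, zero_sub, neg_eq_zero] at e1
      exact si_csq_ne h e1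
    have l1 : Tendsto (fun z => z ^ 2 * (sg N L z ^ 2 * sg N L v ^ 2 - csq N L)) (𝓝[≠] 0)
        (𝓝 (sg N L v ^ 2)) := by
      have lid : Tendsto (fun z : ℂ => z) (𝓝[≠] 0) (𝓝 0) := by
        have h1 : Tendsto (fun z : ℂ => z) (𝓝 0) (𝓝 0) := tendsto_id
        exact h1.mono_left nhdsWithin_le_nhds
      have h2 := (((sg_tendsto h).pow 2).mul_const (sg N L v ^ 2)).sub
        ((lid.pow 2).mul_const (csq N L))
      have e1 : (-1 : ℂ) ^ 2 * sg N L v ^ 2 - 0 ^ 2 * csq N L = sg N L v ^ 2 := by ring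
      rw [e1] at h2
      refine h2.congr fun z => ?_
      ring
    have hS0 : ∀ᶠ z in 𝓝[≠] (0 : ℂ), z ∉ S := by
      have h2 : ∀ᶠ z in 𝓝 (0 : ℂ), z + v ∉ L ∧ z - v ∉ L := by
        have c1 : ContinuousAt (fun z : ℂ => z + v) 0 := by fun_prop
        have c2 : ContinuousAt (fun z : ℂ => z - v) 0 := by fun_prop
        have n1 : (L : Set ℂ)ᶜ ∈ 𝓝 ((fun z : ℂ => z + v) 0) := by
          simp only [zero_add]
          exact h.lat'.compl_mem_nhds hv
        have n2 : (L : Set ℂ)ᶜ ∈ 𝓝 ((fun z : ℂ => z - v) 0) := by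
          simp only [zero_sub]
          exact h.lat'.compl_mem_nhds hv'
        exact (c1.eventually_mem n1).and (c2.eventually_mem n2)
      filter_upwards [h.lat'.compl_mem_nhdsNE 0, mem_nhdsWithin_of_mem_nhds h2] with z hz1 hz2
      exact (hS z).2 ⟨hz1, hz2.1, hz2.2⟩
    have l2 : Tendsto (fun z => z ^ 2 * (sg N L z ^ 2 * sg N L v ^ 2 - csq N L)) (𝓝[≠] 0) (𝓝 0) := by
      refine (tendsto_const_nhds (x := (0 : ℂ))).congr' ?_
      filter_upwards [hS0] with z hz
      rw [h1 z hz, mul_zero]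
    exact hsv (tendsto_nhds_unique l1 l2)

end Pool.Agent.Work.MP_8efaaa_nt.R
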