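import Mathlib
import Pool.Agent.Work.MP_8efaaa_nt.R.FSum
import Pool.Agent.Work.MP_8efaaa_nt.R.TorK

/-!
# R/FMain: the argument with the Galois data (block F)
-/

set_option autoImplicit false

namespace Pool.Agent.Work.MP_8efaaa_nt.R

open NumberField
open scoped Classical nonZeroDivisors

universe u v

section

variable {K : Type u} {F : Type v} [Field K] [NumberField K] [Field F] [Algebra K F] [CharZero F]
  {a : ℕ} {s : K} {ζ : F} {X Y : Ideal (𝓞 K) → F}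

private theorem tt_ne (hG : GDat K F s ζ X Y) {x y : ℤ} {δ : 𝓞 K} (hx : Odd x)
    (hδ : algebraMap (𝓞 K) K δ = x + 4 * y * s) (he : e8 (x + 4 * y) = -1)
    (hodd : OddI (Ideal.span {δ})) : tt hG (Ideal.span {δ}) ≠ 0 := by
  intro h0
  unfold tt at h0
  rw [sub_eq_zero, PP_eq hG hodd, PP_eq hG oddI_one, pt_inj] at h0
  obtain ⟨h1, h2⟩ := (hG.tr1 x y δ hx hδ 1 oddI_one).2 he
  rw [mul_one] at h1 h2
  have hX := hG.ne 1 oddI_one
  have hE := hG.eqn 1 oddI_one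
  rw [h1] at h0
  rw [h2] at h0
  obtain ⟨h3, h4⟩ := h0
  have h5 : X 1 ^ 2 = -1 := by
    rw [div_eq_iff hX] at h3
    linear_combination -h3
  rw [h5] at h4
  have h6 : Y 1 = 0 := by
    have : (2 : F) * Y 1 = 0 := by linear_combination -h4
    exact (mul_eq_zero.1 this).resolve_left two_ne_zero
  rw [h6] at hE
  have h7 : (2 : F) * X 1 = 0 := by linear_combination hE + X 1 * h5
  exact mul_ne_zero two_ne_zero hX h7

private theorem four_R (hb : Base5 K a s) [FiniteDimensional K F] [IsGalois K F]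
    (hG : GDat K F s ζ X Y) (hnc : ¬ IsCongruent a) {I : (cQ F).Point →+ (cQ F).Point}
    (hI : CMI (ζ ^ 2) I) {g : F ≃ₐ[K] F} (hg : g (ζ ^ 2) = -ζ ^ 2) {P : (cQ F).Point}
    (hP : ∀ σ : F ≃ₐ[K] F, σ (ζ ^ 2) = ζ ^ 2 → gal σ P = P) : (4 : ℤ) • P = 0 := by
  have hi : ∀ σ : F ≃ₐ[K] F, σ (ζ ^ 2) = ζ ^ 2 ∨ σ (ζ ^ 2) = -ζ ^ 2 := by
    intro σ
    apply sq_eq_sq_iff_eq_or_eq_neg.1
    rw [← map_pow, i_sq hG.z8, map_neg, map_one]
  have kpt : ∀ Q : (cQ F).Point, (∀ σ : F ≃ₐ[K] F, gal σ Q = Q) → (2 : ℤ) • Q = 0 := by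
    intro Q hQ
    rcases fixed_pt hQ with rfl | ⟨x, y, h, rfl⟩
    · exact smul_zero _
    · have h1 : y ^ 2 = x ^ 3 - x := by
        apply (algebraMap K F).injective
        rw [map_pow, h, map_sub, map_pow]
      have h2 : algebraMap K F y = 0 := by
        rw [tor_K5 hb hnc h1, map_zero]
      rw [two_zsmul]
      exact double_zero _ h2
  have h1 : ∀ σ : F ≃ₐ[K] F, σ (ζ ^ 2) = -ζ ^ 2 → gal σ P = gal g P := by
    intro σ hσ
    have h2 : σ = g * (g⁻¹ * σ) := by rw [mul_inv_cancel_left]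
    rw [h2, gal_mul, hP]
    show g.symm (σ (ζ ^ 2)) = ζ ^ 2
    rw [hσ, ← hg, AlgEquiv.symm_apply_apply]
  have h2 : ∀ σ : F ≃ₐ[K] F, σ (ζ ^ 2) = ζ ^ 2 → gal σ (gal g P) = gal g P := by
    intro σ hσ
    rw [← gal_mul]
    apply h1
    show σ (g (ζ ^ 2)) = _
    rw [hg, map_neg, hσ]
  have h3 : ∀ σ : F ≃ₐ[K] F, σ (ζ ^ 2) = -ζ ^ 2 → gal σ (gal g P) = P := by
    intro σ hσ
    rw [← gal_mul]
    apply hP
    show σ (g (ζ ^ 2)) = _
    rw [hg, map_neg, hσ, neg_neg]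
  have k1 := kpt (P + gal g P) (by
    intro σ
    rw [map_add]
    rcases hi σ with hσ | hσ
    · rw [hP σ hσ, h2 σ hσ]
    · rw [h1 σ hσ, h3 σ hσ, add_comm])
  have k2 := kpt (I (P - gal g P)) (by
    intro σ
    rcases hi σ with hσ | hσ
    · rw [hI.gal_comm hσ, map_sub, hP σ hσ, h2 σ hσ]
    · rw [hI.gal_anti hσ, map_sub, h1 σ hσ, h3 σ hσ, ← map_neg, neg_sub])
  have k3 : (2 : ℤ) • (P - gal g P) = 0 := by
    have h4 := congrArg I k2
    rw [map_zsmul, hI.sq, map_zero, smul_neg, neg_eq_zero] at h4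
    exact h4
  have h5 : (4 : ℤ) • P = (2 : ℤ) • (P + gal g P) + (2 : ℤ) • (P - gal g P) := by
    simp only [smul_add, smul_sub]
    have : (4 : ℤ) • P = (2 : ℤ) • P + (2 : ℤ) • P := by
      rw [← add_smul]
      norm_num
    rw [this]
    abel
  rw [h5, k1, k3, add_zero]

end

/-- the argument with the Galois data -/
theorem main_F {K : Type u} {F : Type v} [Field K] [NumberField K] [Field F] [Algebra K F]
    [FiniteDimensional K F] [IsGalois K F] {a : ℕ} {s : K} (hb : Base5 K a s) {ζ : F}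
    {X Y : Ideal (𝓞 K) → F} (hG : GDat K F s ζ X Y) {c : Ideal (𝓞 K)}
    (hc : Ideal.absNorm c % 8 = 1)
    (h : ∀ x y : ℤ, ∀ δ : 𝓞 K, algebraMap (𝓞 K) K δ = x + 4 * y * s →
      c ^ (Fintype.card (ClassGroup (𝓞 K)) / 2) = Ideal.span {δ} → e8 (x + 4 * y) = -1) :
    IsCongruent a := by
  by_contra hnc
  have : CharZero F := charZero_of_injective_algebraMap (algebraMap K F).injective
  obtain ⟨I, hI⟩ := exists_cmi (i_sq hG.z8)
  obtain ⟨R, hR1, hR2⟩ := exists_sum hb hG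
  -- the image under `(1 + i) ^ 3`
  have f1 : ∀ σ : F ≃ₐ[K] F, σ (ζ ^ 2) = ζ ^ 2 → gal σ ((gpi I)^[3] R) = (gpi I)^[3] R := by
    intro σ hσ
    obtain ⟨d, hd, hact⟩ := hG.act1 σ hσ
    obtain ⟨α, hα⟩ := pow_hn hb hd
    have hα' : OddI (Ideal.span {α}) := by
      rw [← hα]
      unfold OddI
      rw [map_pow]
      exact (oddI_of_one hd).pow
    rw [iter_comm (hI.gal_comm hσ), hR1 σ d α hd hact hα, iter_add, three_tt hG hI hα', add_zero]
  obtain ⟨d3, hd3⟩ := exists_three hb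
  have hd3' : OddI d3 := Nat.odd_iff.2 (by omega)
  obtain ⟨g, hg1, hg2⟩ := hG.act2 d3 hd3'
  have hgi := map_i_three hG.z8 hg1 hd3
  obtain ⟨d5, hd5⟩ := exists_five hb
  have hd5' : OddI d5 := Nat.odd_iff.2 (by omega)
  obtain ⟨τ, hτ1, hτ2⟩ := hG.act2 d5 hd5'
  have hτi := map_i_one hG.z8 hτ1 (by omega)
  have hτr := map_rt_five hG.z8 hτ1 hd5
  have f2 : (gpi I)^[4] ((gpi I)^[3] R) = 0 := by
    rw [hI.gmod.gpi_four, four_R hb hG hnc hI hgi f1, neg_zero]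
  have f3 : (gpi I)^[3] ((gpi I)^[3] R) = 0 :=
    hI.four_three (rt_sq hG.z8) hτi hτr f2 (f1 τ hτi)
  have f4 : (8 : ℤ) • R = 0 := by
    have h6 := hI.gmod.gpi_six R
    have h7 : (gpi I)^[6] R = 0 := by
      rw [show (6 : ℕ) = 3 + 3 from rfl, Function.iterate_add_apply]
      exact f3
    rw [h7] at h6
    have h8 := congrArg I h6
    rw [map_zero, map_neg, map_zsmul, hI.sq, smul_neg, neg_neg] at h8
    exact h8.symm
  have f5 : (gpi I)^[4] R = 0 :=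
    four_torsion hI.gmod (hI.gal_comm hτi) (hI.gal_anti hgi) (fun P hP => gal_inj g hP)
      (gpi_A hI.i2 hI.sq hI.some) (hI.gal_A hτi) (gpi_B (rt_sq hG.z8) hI.sq hI.some)
      (CMI.gal_B' (rt_sq hG.z8) hτr) f4 (hR2 g τ d3 d5 hd3' hd5' hg2 hτ2)
  -- the element of `c`
  have hc' := oddI_of_one' hc
  obtain ⟨σ, hσ1, hσ2⟩ := hG.act2 c hc'
  have f6 : gal σ R = R := hI.gal_four (rt_sq hG.z8) (map_i_one hG.z8 hσ1 (by omega))
    (map_rt_one hG.z8 hσ1 hc) f5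
  obtain ⟨α, hα⟩ := pow_hn hb (d := c) (by omega)
  have hαn : Ideal.absNorm (Ideal.span {α}) % 8 = 1 := by
    rw [← hα, map_pow, Nat.pow_mod, hc, one_pow]
    rfl
  have hαo : OddI (Ideal.span {α}) := oddI_of_one' hαn
  have f7 : tt hG (Ideal.span {α}) = 0 := by
    have := hR1 σ c α (by omega) hσ2 hα
    rw [f6] at this
    exact left_eq_add.1 this
  rcases norm_one_cases hb hαn with ⟨x, y, hx, hxy⟩ | ⟨x, y, hx, hxy, he⟩
  · exact tt_ne hG hx hxy (h x y α hxy hα) hαo f7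
  · refine tt_ne hG hx hxy he ?_ ?_
    · rw [pow_two, ← Ideal.span_singleton_mul_span_singleton]
      exact oddI_mul'.2 ⟨hαo, hαo⟩
    · rw [pow_two, ← Ideal.span_singleton_mul_span_singleton, tt_mul hb hG hαo hαo, f7, add_zero]

end Pool.Agent.Work.MP_8efaaa_nt.R
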