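import Mathlib
import Pool.Agent.Work.MP_8efaaa_nt.R.RInt
import Pool.Agent.Work.MP_8efaaa_nt.R.FCls

/-!
# R/Eight: the criterion holds if `8` does not divide the class number

The ideal generated by `2 + s` has norm `a + 4 = 1 (mod 8)`, and `(2 + s) ^ 2 = (4 - a) + 4 s` with
`4 - a + 4 = 3 (mod 8)`; `x + 4 y s ↦ x + 4 y (mod 8)` is multiplicative.
-/

set_option autoImplicit false

namespace Pool.Agent.Work.MP_8efaaa_nt.R

open NumberField
open scoped nonZeroDivisors

universe u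

variable {K : Type u} [Field K] [NumberField K] {a : ℕ} {s : K} {S : 𝓞 K}

private theorem sq_two_add (h : Q5 K a S) :
    (2 + S) ^ 2 = ((4 - a : ℤ) : 𝓞 K) + ((4 * 1 : ℤ) : 𝓞 K) * S := by
  have := h.sq
  push_cast
  linear_combination this

private theorem pow_even (h : Q5 K a S) (m : ℕ) : ∃ X Y : ℤ,
    ((2 + S) ^ 2) ^ m = (X : 𝓞 K) + ((4 * Y : ℤ) : 𝓞 K) * S ∧ Odd X ∧
      ((Even m → (X + 4 * Y) % 8 = 1) ∧ (Odd m → (X + 4 * Y) % 8 = 3)) := by
  have ha : (a : ℤ) % 8 = 5 := by have := h.mod; omega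
  induction m with
  | zero => exact ⟨1, 0, by simp, by norm_num, by simp, by simp⟩
  | succ m ih =>
    obtain ⟨X, Y, h1, h0, h2, h3⟩ := ih
    obtain ⟨q, hq⟩ : ∃ q : ℤ, (a : ℤ) = 8 * q + 5 := ⟨(a : ℤ) / 8, by omega⟩
    refine ⟨X * (4 - a) - 16 * a * Y, X + Y * (4 - a), ?_, ?_, ?_, ?_⟩
    · rw [pow_succ, h1, sq_two_add h]
      have := h.sq
      push_cast
      linear_combination (16 * (Y : 𝓞 K)) * this
    · obtain ⟨k, hk⟩ := h0
      exact ⟨k * (4 - a) - 8 * a * Y - 4 * q - 1, by rw [hk, hq]; ring⟩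
    · intro hm
      have hm' : Odd m := by
        rcases Nat.even_or_odd m with h | h
        · exact absurd hm (by simpa [Nat.even_add_one] using h)
        · exact h
      have h4 := h3 hm'
      have h5 : (X * (4 - a) - 16 * a * Y + 4 * (X + Y * (4 - a))) % 8 =
          (3 * (X + 4 * Y)) % 8 := by
        rw [hq]
        have : X * (4 - (8 * q + 5)) - 16 * (8 * q + 5) * Y + 4 * (X + Y * (4 - (8 * q + 5))) =
          3 * (X + 4 * Y) + 8 * (-(q * X) - 16 * q * Y - 10 * Y - 4 * q * Y - 2 * Y) := by ring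
        rw [this, Int.add_mul_emod_self_left]
      rw [h5]
      omega
    · intro hm
      have hm' : Even m := by
        rcases Nat.even_or_odd m with h | h
        · exact h
        · exact absurd hm (by simpa [Nat.odd_add_one] using h)
      have h4 := h2 hm'
      have h5 : (X * (4 - a) - 16 * a * Y + 4 * (X + Y * (4 - a))) % 8 =
          (3 * (X + 4 * Y)) % 8 := by
        rw [hq]
        have : X * (4 - (8 * q + 5)) - 16 * (8 * q + 5) * Y + 4 * (X + Y * (4 - (8 * q + 5))) =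
          3 * (X + 4 * Y) + 8 * (-(q * X) - 16 * q * Y - 10 * Y - 4 * q * Y - 2 * Y) := by ring
        rw [this, Int.add_mul_emod_self_left]
      rw [h5]
      omega

private theorem unit_pm (h : Q5 K a S) (u : (𝓞 K)ˣ) : (u : 𝓞 K) = 1 ∨ (u : 𝓞 K) = -1 := by
  obtain ⟨x, y, hx⟩ := h.coords (u : 𝓞 K)
  have h1 : Algebra.norm ℤ (u : 𝓞 K) = 1 := by
    have h2 : IsUnit (Algebra.norm ℤ (u : 𝓞 K)) := u.isUnit.map _
    rcases Int.isUnit_iff.1 h2 with h3 | h3
    · exact h3
    · have := h.norm_nonneg (u : 𝓞 K)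
      omega
  rw [hx, h.norm_int] at h1
  have ha : (5 : ℤ) ≤ a := by have := h.mod; omega
  have hy : y = 0 := by
    by_contra hy
    have : 1 ≤ y ^ 2 := by
      have : 0 < y ^ 2 := by positivity
      omega
    nlinarith [sq_nonneg x]
  rw [hy] at h1
  have h3 : x = 1 ∨ x = -1 := by
    have h4 : (x - 1) * (x + 1) = 0 := by linear_combination h1
    rcases mul_eq_zero.1 h4 with h5 | h5
    · left; omega
    · right; omega
  rw [hx, hy]
  rcases h3 with h3 | h3
  · left; simp [h3]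
  · right; simp [h3]

/-- If `8` does not divide the class number, then the ideal generated by `2 + s` satisfies the
criterion. -/
theorem crit8 (hb : Base5 K a s) (h8 : ¬ 8 ∣ Fintype.card (ClassGroup (𝓞 K))) :
    ∃ c : Ideal (𝓞 K), Ideal.absNorm c % 8 = 1 ∧
      ∀ (x y : ℤ) (δ : 𝓞 K), algebraMap (𝓞 K) K δ = x + 4 * y * s →
        c ^ (Fintype.card (ClassGroup (𝓞 K)) / 2) = Ideal.span {δ} → e8 (x + 4 * y) = -1 := by
  obtain ⟨S, hS, h⟩ := exists_Q5 hb
  obtain ⟨G, hG, -, -⟩ := exists_half hb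
  set n := Fintype.card (ClassGroup (𝓞 K)) / 2 with hn
  have hn' : n = Nat.card G := by omega
  have h4 : ¬ 4 ∣ n := by
    rintro ⟨k, hk⟩
    apply h8
    exact ⟨k, by omega⟩
  refine ⟨Ideal.span {2 + S}, ?_, ?_⟩
  · have h1 := h.norm_gen 2 1
    have h2 : ((2 : ℤ) : 𝓞 K) + ((1 : ℤ) : 𝓞 K) * S = 2 + S := by push_cast; ring
    rw [h2] at h1
    have := h.mod
    omega
  · intro x y δ hδ hc
    rw [Ideal.span_singleton_pow, Ideal.span_singleton_eq_span_singleton] at hc
    obtain ⟨u, hu⟩ := hc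
    have hδ' : δ = (x : 𝓞 K) + ((4 * y : ℤ) : 𝓞 K) * S := by
      apply FaithfulSMul.algebraMap_injective (𝓞 K) K
      rw [hδ, map_add, map_mul, hS, map_intCast, map_intCast]
      push_cast
      ring
    have hpm : (2 + S) ^ n = δ ∨ (2 + S) ^ n = -δ := by
      rcases unit_pm h u with h1 | h1 <;> rw [h1] at hu
      · left; rw [← hu, mul_one]
      · right; rw [← hu]; ring
    have hpm' : ∃ e : ℤ, (e = 1 ∨ e = -1) ∧
        (2 + S) ^ n = ((e * x : ℤ) : 𝓞 K) + ((e * (4 * y) : ℤ) : 𝓞 K) * S := by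
      rcases hpm with h1 | h1
      · exact ⟨1, Or.inl rfl, by rw [h1, hδ', one_mul, one_mul]⟩
      · refine ⟨-1, Or.inr rfl, ?_⟩
        rw [h1, hδ']
        push_cast
        ring
    obtain ⟨e, he, heq⟩ := hpm'
    rcases Nat.even_or_odd' n with ⟨m, hm | hm⟩
    · obtain ⟨X, Y, h1, -, -, h2⟩ := pow_even h m
      have hmo : Odd m := by
        rcases Nat.even_or_odd m with ⟨k, hk⟩ | hmo
        · exact absurd ⟨k, by omega⟩ h4
        · exact hmo
      have h3 := h2 hmo
      rw [← pow_mul, ← hm, heq] at h1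
      obtain ⟨h5, h6⟩ := h.unique _ _ _ _ h1
      unfold e8
      rw [if_neg]
      rcases he with he | he <;> subst he <;> omega
    · exfalso
      obtain ⟨X, Y, h1, h2, -, -⟩ := pow_even h m
      have h3 : (2 + S) ^ n = ((2 * X - 4 * a * Y : ℤ) : 𝓞 K) +
          ((X + 8 * Y : ℤ) : 𝓞 K) * S := by
        rw [hm, pow_succ, pow_mul, h1]
        have := h.sq
        push_cast
        linear_combination (4 * (Y : 𝓞 K)) * this
      rw [heq] at h3
      obtain ⟨-, h6⟩ := h.unique _ _ _ _ h3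
      obtain ⟨k, hk⟩ := h2
      rcases he with he | he <;> subst he <;> omega

end Pool.Agent.Work.MP_8efaaa_nt.R
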