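import Mathlib
import Pool.Agent.Work.MP_8efaaa_nt.R.Defs
import Pool.Agent.Work.MP_8efaaa_nt.R.TorK
import Pool.Agent.Work.MP_8efaaa_nt.R.FMain

/-!
# Interface of block F: the argument with the Galois data
-/

set_option autoImplicit false

namespace Pool.Agent.Work.MP_8efaaa_nt.R

open NumberField
open scoped nonZeroDivisors

universe u v

/-- the points of `y ^ 2 = x ^ 3 - x` over `K` if `a` is not congruent -/
theorem points_K5 {K : Type u} [Field K] [NumberField K] {a : ℕ} {s : K} (hb : Base5 K a s)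
    (ha : ¬ IsCongruent a) {x y : K} (h : y ^ 2 = x ^ 3 - x) : y = 0 := tor_K5 hb ha h

theorem main_of_gdat {K : Type u} {F : Type v} [Field K] [NumberField K] [Field F] [Algebra K F]
    [FiniteDimensional K F] [IsGalois K F] {a : ℕ} {s : K} (hb : Base5 K a s) {ζ : F}
    {X Y : Ideal (𝓞 K) → F} (hG : GDat K F s ζ X Y) {c : Ideal (𝓞 K)}
    (hc : Ideal.absNorm c % 8 = 1)
    (h : ∀ x y : ℤ, ∀ δ : 𝓞 K, algebraMap (𝓞 K) K δ = x + 4 * y * s →
      c ^ (Fintype.card (ClassGroup (𝓞 K)) / 2) = Ideal.span {δ} → e8 (x + 4 * y) = -1) :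
    IsCongruent a := main_F hb hG hc h

end Pool.Agent.Work.MP_8efaaa_nt.R
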