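import Mathlib
import Pool.Agent.Work.MP_8efaaa_nt.R.DInt
import Pool.Agent.Work.MP_8efaaa_nt.R.FInt
import Pool.Agent.Work.MP_8efaaa_nt.R.Eight

/-!
# R/Main: the theorem
-/

set_option autoImplicit false

namespace Pool.Agent.Work.MP_8efaaa_nt.R

open NumberField
open scoped nonZeroDivisors

universe u

theorem main5 {K : Type u} [Field K] [NumberField K] {a : ℕ} {s : K} (hb : Base5 K a s)
    {c : Ideal (𝓞 K)} (hc : Ideal.absNorm c % 8 = 1)
    (h : ∀ x y : ℤ, ∀ δ : 𝓞 K, algebraMap (𝓞 K) K δ = x + 4 * y * s →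
      c ^ (Fintype.card (ClassGroup (𝓞 K)) / 2) = Ideal.span {δ} → e8 (x + 4 * y) = -1) :
    IsCongruent a := by
  obtain ⟨φ⟩ : Nonempty (K →+* ℂ) := inferInstance
  let _ : Algebra K ℂ := φ.toAlgebra
  obtain ⟨F, h1, h2, ζ, X, Y, hG⟩ := exists_gdat hb
  exact main_of_gdat hb hG hc h

theorem main8 {K : Type u} [Field K] [NumberField K] {a : ℕ} {s : K} (hb : Base5 K a s)
    (h : ¬ 8 ∣ Fintype.card (ClassGroup (𝓞 K))) : IsCongruent a := by
  obtain ⟨c, hc, h⟩ := crit8 hb h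
  exact main5 hb hc h

end Pool.Agent.Work.MP_8efaaa_nt.R
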